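import Mathlib

-- part Pool.Agent.P.MP_26ecb7_gt.Defs
section

/-! Definitions for the removable singular set theorem for Hoelder isometric immersions. -/

noncomputable section
open Set Filter Topology MeasureTheory Metric
open scoped RealInnerProductSpace ContDiff ENNReal

namespace Pool.Agent.Bor

abbrev E := EuclideanSpace ℝ (Fin 3)
abbrev P := ℝ × ℝ

/-- standard basis of space -/
def ee (k : Fin 3) : E := EuclideanSpace.single k 1
/-- cross product -/
def cr (a b : E) : E := !₂[a 1 * b 2 - a 2 * b 1, a 2 * b 0 - a 0 * b 2, a 0 * b 1 - a 1 * b 0]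
/-- cofactor action, `cof L (cr a b) = cr (L a) (L b)` -/
def cof (L : E →L[ℝ] E) (c : E) : E :=
  c 0 • cr (L (ee 1)) (L (ee 2)) + c 1 • cr (L (ee 2)) (L (ee 0)) + c 2 • cr (L (ee 0)) (L (ee 1))
def nrm (y : E) : E := ‖y‖⁻¹ • y

/-- rotations -/
structure Rot where
  R : E ≃ₗᵢ[ℝ] E
  cr_eq : ∀ a b, cr (R a) (R b) = R (cr a b)

def lift (R : Rot) (x : P) : E := R.R !₂[x.1, x.2, 1]
/-- gnomonic coordinates -/
def gn (R : Rot) (y : E) : P :=
  (⟪y, R.R (ee 0)⟫ / ⟪y, R.R (ee 2)⟫, ⟪y, R.R (ee 1)⟫ / ⟪y, R.R (ee 2)⟫)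
def lam (y : P) : ℝ := ((1 + y.1 ^ 2 + y.2 ^ 2) * √(1 + y.1 ^ 2 + y.2 ^ 2))⁻¹

/-- coordinate vectors of the plane and coordinate derivatives -/
def e2 (i : Fin 2) : P := ![((1 : ℝ), (0 : ℝ)), ((0 : ℝ), (1 : ℝ))] i
def pd {Y : Type} [NormedAddCommGroup Y] [NormedSpace ℝ Y] (i : Fin 2) (f : P → Y) (x : P) : Y :=
  fderiv ℝ f x (e2 i)

def jac (f g : P → ℝ) (x : P) : ℝ := pd 0 f x * pd 1 g x - pd 1 f x * pd 0 g x
def jp (p : P → P) (x : P) : ℝ := jac (fun y => (p y).1) (fun y => (p y).2) x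
def JJ (X Y : P → E) (x : P) : ℝ := ⟪pd 0 X x, pd 1 Y x⟫ - ⟪pd 1 X x, pd 0 Y x⟫
def kap (N : P → E) (x : P) : ℝ := ⟪N x, cr (pd 0 N x) (pd 1 N x)⟫

/-- first fundamental form, normal, area density, unit normal, second form, Christoffel symbols -/
def gm (w : P → E) (i j : Fin 2) (x : P) : ℝ := ⟪pd i w x, pd j w x⟫
def nv (w : P → E) (x : P) : E := cr (pd 0 w x) (pd 1 w x)
def sq (w : P → E) (x : P) : ℝ := ‖nv w x‖
def un (w : P → E) (x : P) : E := nrm (nv w x)
def sf (w : P → E) (i j : Fin 2) (x : P) : ℝ := ⟪pd i (un w) x, pd j w x⟫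
def ch (w : P → E) (i j k : Fin 2) (x : P) : ℝ := ⟪pd i (pd j w) x, pd k w x⟫
/-- connection form -/
def om (w : P → E) (i : Fin 2) (x : P) : ℝ :=
  (gm w 0 0 x * ch w i 0 1 x - gm w 0 1 x * ch w i 0 0 x) / (gm w 0 0 x * sq w x)
/-- inverse metric -/
def gi (w : P → E) (i j : Fin 2) (x : P) : ℝ :=
  (if i = j then gm w (1 - i) (1 - i) x else - gm w 0 1 x) / sq w x ^ 2
def Imm (w : P → E) : Prop := ContDiff ℝ ∞ w ∧ ∀ x, nv w x ≠ 0

/-- twice the mixed determinant of two 2 x 2 arrays, determinant, quadratic form -/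
def mx (T B : Fin 2 → Fin 2 → ℝ) : ℝ := T 0 0 * B 1 1 + T 1 1 * B 0 0 - T 0 1 * B 1 0 - T 1 0 * B 0 1
def dt (B : Fin 2 → Fin 2 → ℝ) : ℝ := B 0 0 * B 1 1 - B 0 1 * B 1 0
def qf (B : Fin 2 → Fin 2 → ℝ) (a b : ℝ) : ℝ :=
  B 0 0 * a ^ 2 + (B 0 1 + B 1 0) * a * b + B 1 1 * b ^ 2
def ab (B : Fin 2 → Fin 2 → ℝ) : ℝ := |B 0 0| + |B 0 1| + |B 1 0| + |B 1 1|
/-- the array of values at a point -/
def at2 (B : Fin 2 → Fin 2 → P → ℝ) (x : P) : Fin 2 → Fin 2 → ℝ := fun i j => B i j x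

/-- closed square with lower left corner `c` and side `r` -/
def sqr (c : P) (r : ℝ) : Set P := Icc c (c.1 + r, c.2 + r)
/-- counterclockwise integral of `a dx + b dy` over the boundary of the square -/
def loop (c : P) (r : ℝ) (a b : P → ℝ) : ℝ :=
  (∫ s in c.1..c.1 + r, a (s, c.2)) + (∫ t in c.2..c.2 + r, b (c.1 + r, t))
    - (∫ s in c.1..c.1 + r, a (s, c.2 + r)) - ∫ t in c.2..c.2 + r, b (c.1, t)
/-- integral of `f dg` over the boundary of the square -/
def lp (c : P) (r : ℝ) (f g : P → ℝ) : ℝ :=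
  loop c r (fun x => f x * pd 0 g x) (fun x => f x * pd 1 g x)

/-- constant in the Young inequality -/
def yc (a : ℝ) : ℝ := 1 / ((2 : ℝ) ^ (2 * a) - 2)

/-- scale condition at a good point, for a sequence of maps on a set `T` -/
def GoodS {Z Y : Type} [PseudoMetricSpace Z] [PseudoMetricSpace Y] (f : ℕ → Z → Y) (T : Set Z)
    (x : Z) : Prop :=
  ∃ a M0 : ℝ, 1 / 2 < a ∧ a ≤ 1 ∧ ∀ η > 0, ∃ r0 > 0, ∀ r, 0 < r → r < r0 →
    ∃ O M : ℝ, 0 ≤ O ∧ O ≤ η ∧ 0 ≤ M ∧ M ≤ M0 ∧ O * M ^ 2 * r ^ (2 * a) ≤ η * r ^ 2 ∧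
      ∀ᶠ n in atTop, ∀ y ∈ T ∩ ball x r, ∀ z ∈ T ∩ ball x r,
        dist (f n y) (f n z) ≤ O ∧ dist (f n y) (f n z) ≤ M * dist y z ^ a

/-- a smooth strictly convex closed surface with unit normal and radial projection -/
structure Surf where
  S : Set E
  o : E
  nu : E → E
  pr : E → E
  cpt : IsCompact S
  conn : IsConnected S
  o_not : o ∉ S
  nu_smooth : ∀ q ∈ S, ContDiffAt ℝ ∞ nu q
  nu_unit : ∀ q ∈ S, ‖nu q‖ = 1
  pr_smooth : ∀ z, z ≠ o → ContDiffAt ℝ ∞ pr z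
  pr_mem : ∀ z, z ≠ o → pr z ∈ S
  pr_ray : ∀ z, z ≠ o → ∃ t : ℝ, 0 < t ∧ pr z = o + t • (z - o)
  pr_fix : ∀ q ∈ S, ∀ t : ℝ, 0 < t → pr (o + t • (q - o)) = q
  tang : ∀ z, z ≠ o → ∀ a, ⟪nu (pr z), fderiv ℝ pr z a⟫ = 0
  pos : ∀ q ∈ S, 0 < ⟪nu q, q - o⟫
  curv : ∀ q ∈ S, ∀ a, ⟪nu q, a⟫ = 0 → a ≠ 0 → 0 < ⟪fderiv ℝ nu q a, a⟫
  inj : InjOn nu S
  surj : sphere (0 : E) 1 ⊆ nu '' S

/-- chart attached to a rotation -/
def Surf.psi (X : Surf) (R : Rot) (x : P) : E := X.pr (X.o + lift R x)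
/-- curvature density in the chart -/
def Surf.ka (X : Surf) (R : Rot) (x : P) : ℝ := kap (un (X.psi R)) x
/-- smooth near the surface -/
def Surf.Sm (X : Surf) (f : E → E) : Prop := ∀ q ∈ X.S, ContDiffAt ℝ ∞ f q

/-- finite partition of unity subordinate to charts -/
structure Pou (X : Surf) where
  k : ℕ
  R : Fin k → Rot
  chi : Fin k → E → ℝ
  rho : ℝ
  smooth : ∀ a, ContDiff ℝ ∞ (chi a)
  nonneg : ∀ a q, 0 ≤ chi a q
  sum_eq : ∀ q ∈ X.S, ∑ a, chi a q = 1
  supp : ∀ a, ∀ q ∈ X.S, chi a q ≠ 0 → ∃ x ∈ closedBall (0 : P) rho, q = X.psi (R a) x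

/-- global integral of a family of chart densities -/
def Pou.II {X : Surf} (U : Pou X) (f : Fin U.k → P → ℝ) : ℝ :=
  ∑ a, ∫ x, U.chi a (X.psi (U.R a) x) * f a x

/-- area measure of the unit sphere -/
def sig : Measure E := (3 : ℝ≥0∞) • (volume.restrict (ball (0 : E) 1)).map nrm
/-- curvature measure of the surface -/
def Surf.mu (X : Surf) : Measure E :=
  (sig.comap (fun q : X.S => X.nu q)).map Subtype.val

/-- a Hoelder isometric immersion -/
structure Iso (X : Surf) where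
  v : E → E
  al : ℝ
  C : ℝ
  al_gt : 1 / 2 < al
  al_le : al ≤ 1
  C_nonneg : 0 ≤ C
  c1 : ∀ q ∈ X.S, ContDiffAt ℝ 1 v q
  hol : ∀ q ∈ X.S, ∀ q' ∈ X.S, ‖fderiv ℝ v q - fderiv ℝ v q'‖ ≤ C * ‖q - q'‖ ^ al
  iso : ∀ q ∈ X.S, ∀ a, ⟪X.nu q, a⟫ = 0 → ‖fderiv ℝ v q a‖ = ‖a‖

def Iso.V {X : Surf} (I : Iso X) (z : E) : E := I.v (X.pr z)
/-- Gauss map of the immersion -/
def Iso.N {X : Surf} (I : Iso X) (z : E) : E := cof (fderiv ℝ I.v (X.pr z)) (X.nu (X.pr z))
def Iso.w {X : Surf} (I : Iso X) (R : Rot) (x : P) : E := I.v (X.psi R x)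
def Iso.n {X : Surf} (I : Iso X) (R : Rot) (x : P) : E := I.N (X.psi R x)

/-- spatial Christoffel expression -/
def chr (W : E → E) (z a b c : E) : ℝ := ⟪fderiv ℝ (fderiv ℝ W) z a b, fderiv ℝ W z c⟫
/-- unit normal of a smooth approximation -/
def Surf.NW (X : Surf) (W : E → E) (q : E) : E := nrm (cof (fderiv ℝ W q) (X.nu q))

/-- smooth approximations on a neighbourhood of the surface -/
structure Appr {X : Surf} (I : Iso X) where
  W : ℕ → E → E
  tau : ℝ
  H : ℝ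
  tau_pos : 0 < tau
  tau_le : tau ≤ 1 / 2
  o_not : X.o ∉ cthickening tau X.S
  H_nonneg : 0 ≤ H
  smooth : ∀ n, ContDiff ℝ ∞ (W n)
  c0 : TendstoUniformlyOn W I.V atTop (thickening tau X.S)
  c1 : TendstoUniformlyOn (fun n => fderiv ℝ (W n)) (fderiv ℝ I.V) atTop (thickening tau X.S)
  c2 : ∀ θ > 0, ∀ᶠ n in atTop, ∀ z ∈ thickening tau X.S, ∀ a b c,
    |chr (W n) z a b c - chr X.pr z a b c| ≤ θ * ‖a‖ * ‖b‖ * ‖c‖
  hol : ∀ n, ∀ y ∈ thickening tau X.S, ∀ z ∈ thickening tau X.S,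
    ‖fderiv ℝ (W n) y - fderiv ℝ (W n) z‖ ≤ H * ‖y - z‖ ^ I.al
  half : ∀ n, ∀ q ∈ X.S, 1 / 2 ≤ ‖cof (fderiv ℝ (W n) q) (X.nu q)‖
  good : ∀ q ∈ X.S, GoodS (fun _ => fderiv ℝ I.v) X.S q → GoodS (fun n => fderiv ℝ (W n)) univ q
  pt : ∀ q ∈ X.S, ∀ L, HasFDerivAt (fderiv ℝ I.V) L q →
    Tendsto (fun n => fderiv ℝ (fderiv ℝ (W n)) q) atTop (𝓝 L)
  sec : ∀ δ > 0, ∀ᶠ n in atTop, ∀ q ∈ X.S, ∀ b Y : E, ∀ k : ℝ, ‖b‖ < tau →
    (∀ z ∈ ball q δ, ⟪Y, I.V (z + b) + I.V (z - b) - (2 : ℝ) • I.V z⟫ ≤ k) →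
    ⟪Y, W n (q + b) + W n (q - b) - (2 : ℝ) • W n q⟫ ≤ k

def Appr.w {X : Surf} {I : Iso X} (A : Appr I) (R : Rot) (n : ℕ) (x : P) : E := A.W n (X.psi R x)

/-- local lower bound for the push forward of the curvature measure under the Gauss map -/
def LP {X : Surf} (I : Iso X) : Prop :=
  ∃ Z : Set E, MeasurableSet Z ∧ sig Z = 0 ∧ ∀ q ∈ X.S, I.N q ∉ Z → ∀ U ∈ 𝓝 q, ∃ δ > 0,
    ∀ B : Set E, MeasurableSet B → B ⊆ ball (I.N q) δ → sig B ≤ X.mu (U ∩ I.N ⁻¹' B)

/-- convex position with outer normal -/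
structure Cvx {X : Surf} (I : Iso X) : Prop where
  supp : ∀ q ∈ X.S, ∀ q' ∈ X.S, ⟪I.N q, I.v q' - I.v q⟫ ≤ 0
  pos : ∀ q ∈ X.S, 0 < ⟪I.N q, I.v q⟫
  push : ∀ B : Set E, MeasurableSet B → X.mu (I.N ⁻¹' B) = sig B

/-- angular kernel -/
def kk (δ s : ℝ) : ℝ := Real.smoothTransition (2 * (s / δ ^ 2) - 1) / (2 * Real.pi * s)
def th (δ : ℝ) (y : P) : ℝ :=
  2 * deriv Real.smoothTransition (2 * ((y.1 ^ 2 + y.2 ^ 2) / δ ^ 2) - 1) / (Real.pi * δ ^ 2)

/-- mollifier with a fixed kernel supported in the unit ball -/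
def bump : ContDiffBump (0 : E) := ⟨1 / 2, 1, by norm_num, by norm_num⟩
def eta : E → ℝ := bump.normed volume
def mol {Y : Type} [NormedAddCommGroup Y] [NormedSpace ℝ Y] (ε : ℝ) (H : E → Y) (x : E) : Y :=
  ∫ u, eta u • H (x - ε • u)

end Pool.Agent.Bor
end
end

-- part Pool.Agent.P.MP_26ecb7_gt.Alg0
section

noncomputable section
open Set Filter Topology MeasureTheory Metric
open scoped RealInnerProductSpace ContDiff ENNReal

namespace Pool.Agent.Bor

theorem inner_eq (a b : E) : ⟪a, b⟫ = a 0 * b 0 + a 1 * b 1 + a 2 * b 2 := by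
  simp [PiLp.inner_apply, Fin.sum_univ_three]
  ring

theorem alg0_cr0 (a b : E) : cr a b 0 = a 1 * b 2 - a 2 * b 1 := rfl
theorem alg0_cr1 (a b : E) : cr a b 1 = a 2 * b 0 - a 0 * b 2 := rfl
theorem alg0_cr2 (a b : E) : cr a b 2 = a 0 * b 1 - a 1 * b 0 := rfl

theorem alg0_ext {a b : E} (h0 : a 0 = b 0) (h1 : a 1 = b 1) (h2 : a 2 = b 2) : a = b := by
  ext k
  fin_cases k
  · exact h0
  · exact h1
  · exact h2

theorem alg0_normsq (a : E) : ‖a‖ ^ 2 = a 0 * a 0 + a 1 * a 1 + a 2 * a 2 := by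
  rw [← real_inner_self_eq_norm_sq, inner_eq]

theorem cr_add_left (a b c : E) : cr (a + b) c = cr a c + cr b c := by
  apply alg0_ext <;> simp only [PiLp.add_apply, alg0_cr0, alg0_cr1, alg0_cr2] <;> ring
theorem cr_add_right (a b c : E) : cr a (b + c) = cr a b + cr a c := by
  apply alg0_ext <;> simp only [PiLp.add_apply, alg0_cr0, alg0_cr1, alg0_cr2] <;> ring
theorem cr_smul_left (t : ℝ) (a b : E) : cr (t • a) b = t • cr a b := by
  apply alg0_ext <;> simp only [PiLp.smul_apply, smul_eq_mul, alg0_cr0, alg0_cr1, alg0_cr2] <;> ring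
theorem cr_smul_right (t : ℝ) (a b : E) : cr a (t • b) = t • cr a b := by
  apply alg0_ext <;> simp only [PiLp.smul_apply, smul_eq_mul, alg0_cr0, alg0_cr1, alg0_cr2] <;> ring

/-- the cross product as a continuous bilinear map -/
theorem exists_crL : ∃ B : E →L[ℝ] E →L[ℝ] E, ∀ a b, B a b = cr a b := by
  let B0 : E →ₗ[ℝ] E →ₗ[ℝ] E :=
    LinearMap.mk₂ ℝ cr cr_add_left cr_smul_left cr_add_right cr_smul_right
  let B1 : E →ₗ[ℝ] (E →L[ℝ] E) :=
    (LinearMap.toContinuousLinearMap : (E →ₗ[ℝ] E) ≃ₗ[ℝ] (E →L[ℝ] E)).toLinearMap.comp B0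
  exact ⟨LinearMap.toContinuousLinearMap B1, fun a b => rfl⟩

theorem cr_swap (a b : E) : cr a b = - cr b a := by
  apply alg0_ext <;> simp only [PiLp.neg_apply, alg0_cr0, alg0_cr1, alg0_cr2] <;> ring
theorem cr_self (a : E) : cr a a = 0 := by
  apply alg0_ext <;> simp only [PiLp.zero_apply, alg0_cr0, alg0_cr1, alg0_cr2] <;> ring
theorem inner_cr_left (a b : E) : ⟪a, cr a b⟫ = 0 := by
  simp only [inner_eq, alg0_cr0, alg0_cr1, alg0_cr2]; ring
theorem inner_cr_right (a b : E) : ⟪b, cr a b⟫ = 0 := by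
  simp only [inner_eq, alg0_cr0, alg0_cr1, alg0_cr2]; ring
theorem inner_cr_cyc (a b c : E) : ⟪a, cr b c⟫ = ⟪cr a b, c⟫ := by
  simp only [inner_eq, alg0_cr0, alg0_cr1, alg0_cr2]; ring
theorem binet (a b c d : E) : ⟪cr a b, cr c d⟫ = ⟪a, c⟫ * ⟪b, d⟫ - ⟪a, d⟫ * ⟪b, c⟫ := by
  simp only [inner_eq, alg0_cr0, alg0_cr1, alg0_cr2]; ring
theorem cr_cr (a b c : E) : cr a (cr b c) = ⟪a, c⟫ • b - ⟪a, b⟫ • c := by
  apply alg0_ext <;>
    simp only [PiLp.sub_apply, PiLp.smul_apply, smul_eq_mul, inner_eq, alg0_cr0, alg0_cr1,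
      alg0_cr2] <;> ring
theorem norm_cr_sq (a b : E) : ‖cr a b‖ ^ 2 = ⟪a, a⟫ * ⟪b, b⟫ - ⟪a, b⟫ ^ 2 := by
  rw [alg0_normsq]
  simp only [inner_eq, alg0_cr0, alg0_cr1, alg0_cr2]; ring
theorem norm_cr_le (a b : E) : ‖cr a b‖ ≤ ‖a‖ * ‖b‖ := by
  refine le_of_sq_le_sq ?_ (by positivity)
  rw [norm_cr_sq, real_inner_self_eq_norm_sq, real_inner_self_eq_norm_sq, mul_pow]
  nlinarith [sq_nonneg ⟪a, b⟫]

theorem alg0_cr_sub (a b c d : E) : cr a b - cr c d = cr (a - c) b + cr c (b - d) := by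
  apply alg0_ext <;>
    simp only [PiLp.add_apply, PiLp.sub_apply, alg0_cr0, alg0_cr1, alg0_cr2] <;> ring

theorem norm_cr_sub (a b c d : E) : ‖cr a b - cr c d‖ ≤ ‖a - c‖ * ‖b‖ + ‖c‖ * ‖b - d‖ := by
  rw [alg0_cr_sub]
  exact (norm_add_le _ _).trans (add_le_add (norm_cr_le _ _) (norm_cr_le _ _))

theorem alg0_dec (a : E) : a = a 0 • ee 0 + a 1 • ee 1 + a 2 • ee 2 := by
  apply alg0_ext <;> simp [ee]

theorem alg0_map (L : E →L[ℝ] E) (a : E) :
    L a = a 0 • L (ee 0) + a 1 • L (ee 1) + a 2 • L (ee 2) := by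
  conv_lhs => rw [alg0_dec a]
  simp only [map_add, map_smul]

theorem cof_cr (L : E →L[ℝ] E) (a b : E) : cof L (cr a b) = cr (L a) (L b) := by
  rw [alg0_map L a, alg0_map L b]
  apply alg0_ext <;>
    simp only [cof, PiLp.add_apply, PiLp.smul_apply, smul_eq_mul, alg0_cr0, alg0_cr1,
      alg0_cr2] <;> ring
theorem cof_smul (L : E →L[ℝ] E) (t : ℝ) (c : E) : cof L (t • c) = t • cof L c := by
  simp only [cof, PiLp.smul_apply, smul_eq_mul, smul_add, mul_smul]
theorem cof_smul_left (L : E →L[ℝ] E) (t : ℝ) (c : E) : cof (t • L) c = t ^ 2 • cof L c := by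
  apply alg0_ext <;>
    simp only [cof, _root_.smul_apply, PiLp.add_apply, PiLp.smul_apply, smul_eq_mul,
      alg0_cr0, alg0_cr1, alg0_cr2] <;> ring
theorem cof_sub (L : E →L[ℝ] E) (c d : E) : cof L (c - d) = cof L c - cof L d := by
  simp only [cof, PiLp.sub_apply, sub_smul]
  abel

theorem alg0_norm_ee (k : Fin 3) : ‖ee k‖ = 1 := by simp [ee]

theorem alg0_le (L : E →L[ℝ] E) (k : Fin 3) : ‖L (ee k)‖ ≤ ‖L‖ := by
  have := L.le_opNorm (ee k)
  rwa [alg0_norm_ee, mul_one] at this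

theorem alg0_three (c u v w : E) {M : ℝ} (hu : ‖u‖ ≤ M) (hv : ‖v‖ ≤ M) (hw : ‖w‖ ≤ M) :
    ‖c 0 • u + c 1 • v + c 2 • w‖ ≤ 3 * M * ‖c‖ := by
  have h : ∀ (k : Fin 3) (x : E), ‖x‖ ≤ M → ‖c k • x‖ ≤ M * ‖c‖ := fun k x hx => by
    rw [norm_smul, mul_comm]
    exact mul_le_mul hx (PiLp.norm_apply_le c k) (norm_nonneg _) ((norm_nonneg _).trans hx)
  have := norm_add₃_le (a := c 0 • u) (b := c 1 • v) (c := c 2 • w)
  linarith [h 0 u hu, h 1 v hv, h 2 w hw]

theorem norm_cof_le (L : E →L[ℝ] E) (c : E) : ‖cof L c‖ ≤ 3 * ‖L‖ ^ 2 * ‖c‖ := by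
  have h : ∀ i j : Fin 3, ‖cr (L (ee i)) (L (ee j))‖ ≤ ‖L‖ ^ 2 := fun i j => by
    rw [pow_two]
    exact (norm_cr_le _ _).trans
      (mul_le_mul (alg0_le L i) (alg0_le L j) (norm_nonneg _) (norm_nonneg _))
  exact alg0_three c _ _ _ (h 1 2) (h 2 0) (h 0 1)

theorem contDiff_cof : ContDiff ℝ ∞ (fun x : (E →L[ℝ] E) × E => cof x.1 x.2) := by
  obtain ⟨B, hB⟩ := exists_crL
  have h1 : ∀ i : Fin 3, ContDiff ℝ ∞ (fun x : (E →L[ℝ] E) × E => x.1 (ee i)) := fun i =>
    contDiff_fst.clm_apply contDiff_const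
  have h2 : ∀ i j : Fin 3,
      ContDiff ℝ ∞ (fun x : (E →L[ℝ] E) × E => cr (x.1 (ee i)) (x.1 (ee j))) := fun i j => by
    simp only [← hB]
    exact (contDiff_const.clm_apply (h1 i)).clm_apply (h1 j)
  have h3 : ∀ k : Fin 3, ContDiff ℝ ∞ (fun x : (E →L[ℝ] E) × E => x.2 k) := fun k =>
    (EuclideanSpace.proj k : E →L[ℝ] ℝ).contDiff.comp contDiff_snd
  exact (((h3 0).smul (h2 1 2)).add ((h3 1).smul (h2 2 0))).add ((h3 2).smul (h2 0 1))

theorem norm_cof_sub (L L' : E →L[ℝ] E) (c : E) :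
    ‖cof L c - cof L' c‖ ≤ 3 * (‖L‖ + ‖L'‖) * ‖L - L'‖ * ‖c‖ := by
  have h : ∀ i j : Fin 3, ‖cr (L (ee i)) (L (ee j)) - cr (L' (ee i)) (L' (ee j))‖ ≤
      (‖L‖ + ‖L'‖) * ‖L - L'‖ := fun i j => by
    refine (norm_cr_sub _ _ _ _).trans ?_
    have a1 : ‖L (ee i) - L' (ee i)‖ ≤ ‖L - L'‖ := alg0_le (L - L') i
    have a2 : ‖L (ee j) - L' (ee j)‖ ≤ ‖L - L'‖ := alg0_le (L - L') j
    have b1 := mul_le_mul a1 (alg0_le L j) (norm_nonneg _) (norm_nonneg _)
    have b2 := mul_le_mul (alg0_le L' i) a2 (norm_nonneg _) (norm_nonneg _)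
    linarith
  have e : cof L c - cof L' c =
      c 0 • (cr (L (ee 1)) (L (ee 2)) - cr (L' (ee 1)) (L' (ee 2))) +
      c 1 • (cr (L (ee 2)) (L (ee 0)) - cr (L' (ee 2)) (L' (ee 0))) +
      c 2 • (cr (L (ee 0)) (L (ee 1)) - cr (L' (ee 0)) (L' (ee 1))) := by
    simp only [cof, smul_sub]
    abel
  rw [e, mul_assoc 3]
  exact alg0_three c _ _ _ (h 1 2) (h 2 0) (h 0 1)

/-- expansion in the frame `a, b, cr a b` -/
theorem parseval (a b x y : E) :
    ‖cr a b‖ ^ 2 * ⟪x, y⟫ = ⟪x, cr a b⟫ * ⟪y, cr a b⟫ + ⟪b, b⟫ * ⟪x, a⟫ * ⟪y, a⟫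
      - ⟪a, b⟫ * (⟪x, a⟫ * ⟪y, b⟫ + ⟪x, b⟫ * ⟪y, a⟫) + ⟪a, a⟫ * ⟪x, b⟫ * ⟪y, b⟫ := by
  rw [alg0_normsq]
  simp only [inner_eq, alg0_cr0, alg0_cr1, alg0_cr2]; ring
theorem expand (a b x : E) :
    ‖cr a b‖ ^ 2 • x = ⟪x, cr a b⟫ • cr a b + (⟪b, b⟫ * ⟪x, a⟫ - ⟪a, b⟫ * ⟪x, b⟫) • a
      + (⟪a, a⟫ * ⟪x, b⟫ - ⟪a, b⟫ * ⟪x, a⟫) • b := by
  rw [alg0_normsq]
  apply alg0_ext <;>
    simp only [PiLp.add_apply, PiLp.smul_apply, smul_eq_mul, inner_eq, alg0_cr0, alg0_cr1,
      alg0_cr2] <;> ring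
theorem par_of_orth {a b y : E} (h : cr a b ≠ 0) (ha : ⟪y, a⟫ = 0) (hb : ⟪y, b⟫ = 0) :
    y = (⟪y, cr a b⟫ / ‖cr a b‖ ^ 2) • cr a b := by
  have hn : ‖cr a b‖ ^ 2 ≠ 0 := pow_ne_zero _ (norm_ne_zero_iff.2 h)
  have e := expand a b y
  simp only [ha, hb, mul_zero, sub_zero, zero_smul, add_zero] at e
  rw [div_eq_inv_mul, mul_smul, ← e, smul_smul, inv_mul_cancel₀ hn, one_smul]


end Pool.Agent.Bor
end
end

-- part Pool.Agent.P.MP_26ecb7_gt.Alg
section

noncomputable section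
open Set Filter Topology MeasureTheory Metric
open scoped RealInnerProductSpace ContDiff ENNReal

namespace Pool.Agent.Bor

theorem alg_norm_nrm {y : E} (hy : y ≠ 0) : ‖nrm y‖ = 1 := by
  rw [nrm, norm_smul, norm_inv, norm_norm, inv_mul_cancel₀ (norm_ne_zero_iff.2 hy)]

theorem alg_frame {y : E} (hy : ‖y‖ = 1) :
    ∃ a b : E, ‖a‖ = 1 ∧ ‖b‖ = 1 ∧ ⟪a, b⟫ = 0 ∧ cr a b = y := by
  have h0 : ∃ u, cr y u ≠ 0 := by
    by_contra h
    push Not at h
    have a1 := congrArg (fun v : E => v 1) (h (ee 0))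
    have a2 := congrArg (fun v : E => v 2) (h (ee 0))
    have a3 := congrArg (fun v : E => v 2) (h (ee 1))
    simp [cr, ee] at a1 a2 a3
    have : y = 0 := by
      ext k
      fin_cases k <;> simp [a1, a2, a3]
    rw [this, norm_zero] at hy
    exact zero_ne_one hy
  obtain ⟨u, hu⟩ := h0
  have ha := alg_norm_nrm hu
  have hya : ⟪y, nrm (cr y u)⟫ = 0 := by rw [nrm, inner_smul_right, inner_cr_left, mul_zero]
  generalize nrm (cr y u) = a at ha hya
  have haa : ⟪a, a⟫ = 1 := by rw [real_inner_self_eq_norm_sq, ha, one_pow]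
  have hyy : ⟪y, y⟫ = 1 := by rw [real_inner_self_eq_norm_sq, hy, one_pow]
  refine ⟨a, cr y a, ha, ?_, inner_cr_right y a, ?_⟩
  · have h := norm_cr_sq y a
    rw [haa, hyy, hya] at h
    exact (sq_eq_sq₀ (norm_nonneg _) zero_le_one).1 (by rw [h]; norm_num)
  · rw [cr_cr, haa, real_inner_comm, hya, one_smul, zero_smul, sub_zero]

/-- the linear map with prescribed columns -/
def alg_L (a b y : E) : E →ₗ[ℝ] E where
  toFun z := z 0 • a + z 1 • b + z 2 • y
  map_add' u v := by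
    simp only [PiLp.add_apply, add_smul]
    abel
  map_smul' t u := by
    simp only [PiLp.smul_apply, smul_eq_mul, mul_smul, RingHom.id_apply, smul_add]

theorem alg_L_apply (a b y z : E) : alg_L a b y z = z 0 • a + z 1 • b + z 2 • y := rfl

theorem exists_rot {y : E} (hy : ‖y‖ = 1) : ∃ R : Rot, R.R (ee 2) = y := by
  obtain ⟨a, b, ha, hb, hab, hc⟩ := alg_frame hy
  have haa : ⟪a, a⟫ = 1 := by rw [real_inner_self_eq_norm_sq, ha, one_pow]
  have hbb : ⟪b, b⟫ = 1 := by rw [real_inner_self_eq_norm_sq, hb, one_pow]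
  have hyy : ⟪y, y⟫ = 1 := by rw [real_inner_self_eq_norm_sq, hy, one_pow]
  have hba : ⟪b, a⟫ = 0 := by rw [real_inner_comm, hab]
  have hay : ⟪a, y⟫ = 0 := by rw [← hc, inner_cr_left]
  have hby : ⟪b, y⟫ = 0 := by rw [← hc, inner_cr_right]
  have hya : ⟪y, a⟫ = 0 := by rw [real_inner_comm, hay]
  have hyb : ⟪y, b⟫ = 0 := by rw [real_inner_comm, hby]
  have c1 : cr b y = a := by rw [← hc, cr_cr, hbb, hba, one_smul, zero_smul, sub_zero]
  have c2 : cr a y = -b := by rw [← hc, cr_cr, hab, haa, one_smul, zero_smul, zero_sub]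
  have c3 : cr b a = -y := by rw [cr_swap, hc]
  have c4 : cr y b = -a := by rw [cr_swap, c1]
  have c5 : cr y a = b := by rw [cr_swap, c2, neg_neg]
  have hi : ∀ u v : E, ⟪alg_L a b y u, alg_L a b y v⟫ = ⟪u, v⟫ := fun u v => by
    simp only [alg_L_apply, inner_add_left, inner_add_right, real_inner_smul_left,
      real_inner_smul_right, haa, hbb, hyy, hab, hba, hay, hby, hya, hyb]
    rw [inner_eq]
    ring
  refine ⟨⟨((alg_L a b y).isometryOfInner hi).toLinearIsometryEquiv rfl, fun u v => ?_⟩, ?_⟩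
  · show cr (alg_L a b y u) (alg_L a b y v) = alg_L a b y (cr u v)
    have e0 : cr u v 0 = u 1 * v 2 - u 2 * v 1 := by simp [cr]
    have e1 : cr u v 1 = u 2 * v 0 - u 0 * v 2 := by simp [cr]
    have e2 : cr u v 2 = u 0 * v 1 - u 1 * v 0 := by simp [cr]
    simp only [alg_L_apply, cr_add_left, cr_add_right, cr_smul_left, cr_smul_right, cr_self, hc, c1,
      c2, c3, c4, c5, e0, e1, e2]
    module
  · show alg_L a b y (ee 2) = y
    simp [alg_L_apply, ee]
/-- positively oriented orthonormal tangent frame -/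
theorem exists_frame {y : E} (hy : ‖y‖ = 1) :
    ∃ a b : E, ‖a‖ = 1 ∧ ‖b‖ = 1 ∧ ⟪a, b⟫ = 0 ∧ cr a b = y :=
  alg_frame hy
theorem norm_nrm {y : E} (hy : y ≠ 0) : ‖nrm y‖ = 1 :=
  alg_norm_nrm hy
theorem nrm_smul {t : ℝ} (ht : 0 < t) (y : E) : nrm (t • y) = nrm y := by
  rw [nrm, nrm, norm_smul, Real.norm_of_nonneg ht.le, smul_smul, mul_inv, mul_right_comm,
    inv_mul_cancel₀ ht.ne', one_mul]
theorem nrm_unit {y : E} (hy : ‖y‖ = 1) : nrm y = y := by rw [nrm, hy, inv_one, one_smul]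
theorem contDiffAt_nrm {y : E} (hy : y ≠ 0) : ContDiffAt ℝ ∞ nrm y :=
  ((contDiffAt_norm ℝ hy).inv (norm_ne_zero_iff.2 hy)).smul contDiffAt_id
theorem norm_nrm_sub {y z : E} (hy : y ≠ 0) (hz : z ≠ 0) :
    ‖nrm y - nrm z‖ ≤ 2 * ‖y - z‖ / ‖y‖ := by
  have y0 : 0 < ‖y‖ := norm_pos_iff.2 hy
  have z0 : 0 < ‖z‖ := norm_pos_iff.2 hz
  have e : nrm y - nrm z = ‖y‖⁻¹ • (y - z) + (‖y‖⁻¹ * (‖z‖ - ‖y‖)) • nrm z := by
    have h : ‖y‖⁻¹ * (‖z‖ - ‖y‖) * ‖z‖⁻¹ = ‖y‖⁻¹ - ‖z‖⁻¹ := by field_simp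
    rw [nrm, nrm, smul_smul, h]
    module
  have h1 : |‖z‖ - ‖y‖| ≤ ‖y - z‖ := by
    rw [norm_sub_rev]
    exact abs_norm_sub_norm_le z y
  rw [e]
  refine (norm_add_le _ _).trans ?_
  rw [norm_smul, norm_smul, alg_norm_nrm hz, norm_mul, norm_inv, norm_norm, Real.norm_eq_abs,
    mul_one, ← mul_add, div_eq_inv_mul]
  exact mul_le_mul_of_nonneg_left (by linarith) (inv_pos.2 y0).le

/-- derivative rules -/
theorem pd_cr {f g : P → E} {x : P} (hf : DifferentiableAt ℝ f x) (hg : DifferentiableAt ℝ g x)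
    (i : Fin 2) : pd i (fun y => cr (f y) (g y)) x = cr (pd i f x) (g x) + cr (f x) (pd i g x) := by
  obtain ⟨B, hB⟩ := exists_crL
  simp only [← hB, pd]
  rw [(B.hasFDerivAt_of_bilinear hf.hasFDerivAt hg.hasFDerivAt).fderiv]
  simp [add_comm]
theorem pd_inner {f g : P → E} {x : P} (hf : DifferentiableAt ℝ f x) (hg : DifferentiableAt ℝ g x)
    (i : Fin 2) : pd i (fun y => ⟪f y, g y⟫) x = ⟪pd i f x, g x⟫ + ⟪f x, pd i g x⟫ := by
  simp only [pd]
  rw [fderiv_inner_apply ℝ hf hg, add_comm]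
theorem contDiff_pd {Y : Type} [NormedAddCommGroup Y] [NormedSpace ℝ Y] {f : P → Y}
    (hf : ContDiff ℝ ∞ f) (i : Fin 2) : ContDiff ℝ ∞ (pd i f) :=
  (hf.fderiv_right (m := ∞) (by simp)).clm_apply contDiff_const
theorem pd_comm {Y : Type} [NormedAddCommGroup Y] [NormedSpace ℝ Y] {f : P → Y}
    (hf : ContDiff ℝ ∞ f) (i j : Fin 2) (x : P) : pd i (pd j f) x = pd j (pd i f) x := by
  have h1 : Differentiable ℝ (fderiv ℝ f) :=
    (hf.fderiv_right (m := ∞) (by simp)).differentiable (by simp)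
  have h2 : ∀ u v : P, fderiv ℝ (fun y => fderiv ℝ f y u) x v = fderiv ℝ (fderiv ℝ f) x v u :=
    fun u v => by
      rw [fderiv_clm_apply (h1 x) (differentiableAt_const u)]
      simp
  show fderiv ℝ (fun y => fderiv ℝ f y (e2 j)) x (e2 i) =
    fderiv ℝ (fun y => fderiv ℝ f y (e2 i)) x (e2 j)
  rw [h2, h2]
  exact (hf.contDiffAt.isSymmSndFDerivAt (by
    rw [minSmoothness_of_isRCLikeNormedField]
    exact WithTop.coe_le_coe.2 (le_top : (2 : ℕ∞) ≤ ⊤))).eq _ _
theorem contDiff_cr {Z : Type} [NormedAddCommGroup Z] [NormedSpace ℝ Z] {m : WithTop ℕ∞}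
    {f g : Z → E} {x : Z} (hf : ContDiffAt ℝ m f x) (hg : ContDiffAt ℝ m g x) :
    ContDiffAt ℝ m (fun y => cr (f y) (g y)) x := by
  obtain ⟨B, hB⟩ := exists_crL
  simp only [← hB]
  exact (B.contDiff.contDiffAt.comp x hf).clm_apply hg
theorem fderiv_eq_pd {Y : Type} [NormedAddCommGroup Y] [NormedSpace ℝ Y] (f : P → Y) (x u : P) :
    fderiv ℝ f x u = u.1 • pd 0 f x + u.2 • pd 1 f x := by
  have e : u = u.1 • e2 0 + u.2 • e2 1 := by simp [e2]
  rw [pd, pd, ← map_smul, ← map_smul, ← map_add, ← e]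
theorem det_fderiv {p : P → P} {x : P} (hp : DifferentiableAt ℝ p x) :
    (fderiv ℝ p x).det = jp p x := by
  have h1 : ∀ v, fderiv ℝ (fun y => (p y).1) x v = (fderiv ℝ p x v).1 := fun v => by
    rw [hp.hasFDerivAt.fst.fderiv]; rfl
  have h2 : ∀ v, fderiv ℝ (fun y => (p y).2) x v = (fderiv ℝ p x v).2 := fun v => by
    rw [hp.hasFDerivAt.snd.fderiv]; rfl
  rw [ContinuousLinearMap.det, ← LinearMap.det_toMatrix (Module.Basis.finTwoProd ℝ),
    Matrix.det_fin_two]
  simp [jp, jac, pd, h1, h2, e2, LinearMap.toMatrix_apply, Module.Basis.coe_finTwoProd_repr]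

end Pool.Agent.Bor
end
end

-- part Pool.Agent.P.MP_26ecb7_gt.Imm0
section

noncomputable section
open Set Filter Topology MeasureTheory Metric
open scoped RealInnerProductSpace ContDiff ENNReal

namespace Pool.Agent.Bor

variable {w : P → E}

theorem Imm.sq_pos (hw : Imm w) (x : P) : 0 < sq w x := norm_pos_iff.2 (hw.2 x)

theorem sq_sq (w : P → E) (x : P) : sq w x ^ 2 = gm w 0 0 x * gm w 1 1 x - gm w 0 1 x ^ 2 :=
  norm_cr_sq _ _

theorem gm_symm (w : P → E) (i j : Fin 2) (x : P) : gm w i j x = gm w j i x :=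
  real_inner_comm _ _

theorem Imm.gm_pos (hw : Imm w) (i : Fin 2) (x : P) : 0 < gm w i i x := by
  have h1 := sq_sq w x
  have h2 : 0 < sq w x ^ 2 := pow_pos (hw.sq_pos x) 2
  have h3 : 0 ≤ gm w 0 0 x := real_inner_self_nonneg
  have h4 : 0 ≤ gm w 1 1 x := real_inner_self_nonneg
  have h5 : 0 < gm w 0 0 x * gm w 1 1 x := by nlinarith [sq_nonneg (gm w 0 1 x)]
  have h6 : 0 < gm w 0 0 x :=
    lt_of_le_of_ne h3 fun h => by rw [← h, zero_mul] at h5; exact lt_irrefl _ h5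
  have h7 : 0 < gm w 1 1 x :=
    lt_of_le_of_ne h4 fun h => by rw [← h, mul_zero] at h5; exact lt_irrefl _ h5
  fin_cases i
  · exact h6
  · exact h7

theorem Imm.nv_eq (hw : Imm w) (x : P) : nv w x = sq w x • un w x := by
  have h := (hw.sq_pos x).ne'
  unfold un nrm
  rw [smul_smul]
  unfold sq at h ⊢
  rw [mul_inv_cancel₀ h, one_smul]

theorem Imm.norm_un (hw : Imm w) (x : P) : ‖un w x‖ = 1 := norm_nrm (hw.2 x)

theorem un_pd (w : P → E) (i : Fin 2) (x : P) : ⟪un w x, pd i w x⟫ = 0 := by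
  unfold un nrm nv
  rw [real_inner_smul_left, real_inner_comm]
  fin_cases i
  · exact mul_eq_zero_of_right _ (inner_cr_left _ _)
  · exact mul_eq_zero_of_right _ (inner_cr_right _ _)

theorem imm0_nv (hw : Imm w) : ContDiff ℝ ∞ (nv w) :=
  contDiff_iff_contDiffAt.2 fun _ =>
    contDiff_cr (contDiff_pd hw.1 0).contDiffAt (contDiff_pd hw.1 1).contDiffAt

theorem Imm.sm_un (hw : Imm w) : ContDiff ℝ ∞ (un w) :=
  contDiff_iff_contDiffAt.2 fun x =>
    (contDiffAt_nrm (hw.2 x)).comp x (imm0_nv hw).contDiffAt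

theorem Imm.sm_sq (hw : Imm w) : ContDiff ℝ ∞ (sq w) := (imm0_nv hw).norm ℝ hw.2

theorem Imm.sm_gm (hw : Imm w) (i j : Fin 2) : ContDiff ℝ ∞ (gm w i j) :=
  (contDiff_pd hw.1 i).inner ℝ (contDiff_pd hw.1 j)

theorem Imm.sm_gi (hw : Imm w) (i j : Fin 2) : ContDiff ℝ ∞ (gi w i j) := by
  unfold gi
  refine ContDiff.div ?_ (hw.sm_sq.pow 2) fun x => pow_ne_zero 2 (hw.sq_pos x).ne'
  by_cases h : i = j
  · simp only [if_pos h]
    exact hw.sm_gm _ _
  · simp only [if_neg h]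
    exact (hw.sm_gm 0 1).neg

theorem Imm.sm_sf (hw : Imm w) (i j : Fin 2) : ContDiff ℝ ∞ (sf w i j) :=
  (contDiff_pd hw.sm_un i).inner ℝ (contDiff_pd hw.1 j)

theorem Imm.sm_ch (hw : Imm w) (i j k : Fin 2) : ContDiff ℝ ∞ (ch w i j k) :=
  (contDiff_pd (contDiff_pd hw.1 j) i).inner ℝ (contDiff_pd hw.1 k)

theorem Imm.sm_om (hw : Imm w) (i : Fin 2) : ContDiff ℝ ∞ (om w i) :=
  (((hw.sm_gm 0 0).mul (hw.sm_ch i 0 1)).sub ((hw.sm_gm 0 1).mul (hw.sm_ch i 0 0))).div
    ((hw.sm_gm 0 0).mul hw.sm_sq) fun x => (mul_pos (hw.gm_pos 0 x) (hw.sq_pos x)).ne'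

theorem Imm.sm_kap (hw : Imm w) : ContDiff ℝ ∞ (kap (un w)) :=
  hw.sm_un.inner ℝ (contDiff_iff_contDiffAt.2 fun _ =>
    contDiff_cr (contDiff_pd hw.sm_un 0).contDiffAt (contDiff_pd hw.sm_un 1).contDiffAt)

theorem imm0_pd_const (i : Fin 2) (c : ℝ) (x : P) : pd i (fun _ : P => c) x = 0 := by
  simp [pd]

theorem Imm.un_pd_un (hw : Imm w) (i : Fin 2) (x : P) : ⟪un w x, pd i (un w) x⟫ = 0 := by
  have hd : DifferentiableAt ℝ (un w) x := hw.sm_un.differentiable (by simp) x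
  have h1 := pd_inner hd hd i
  have h2 : (fun y => ⟪un w y, un w y⟫) = fun _ => (1 : ℝ) := by
    funext y
    rw [real_inner_self_eq_norm_sq, hw.norm_un, one_pow]
  rw [h2, imm0_pd_const, real_inner_comm (un w x)] at h1
  linarith

theorem Imm.sf_eq (hw : Imm w) (i j : Fin 2) (x : P) :
    sf w i j x = - ⟪un w x, pd i (pd j w) x⟫ := by
  have hd : DifferentiableAt ℝ (un w) x := hw.sm_un.differentiable (by simp) x
  have hd' : DifferentiableAt ℝ (pd j w) x := (contDiff_pd hw.1 j).differentiable (by simp) x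
  have h1 := pd_inner hd hd' i
  have h2 : (fun y => ⟪un w y, pd j w y⟫) = fun _ => (0 : ℝ) := funext (un_pd w j)
  rw [h2, imm0_pd_const] at h1
  unfold sf
  linarith

theorem Imm.sf_symm (hw : Imm w) (i j : Fin 2) (x : P) : sf w i j x = sf w j i x := by
  rw [hw.sf_eq, hw.sf_eq, pd_comm hw.1]

end Pool.Agent.Bor
end
end

-- part Pool.Agent.P.MP_26ecb7_gt.Imm
section

noncomputable section
open Set Filter Topology MeasureTheory Metric
open scoped RealInnerProductSpace ContDiff ENNReal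

namespace Pool.Agent.Bor

variable {w : P → E}

theorem imm_inner_un (w : P → E) (x : P) (y : E) :
    ⟪y, un w x⟫ = (sq w x)⁻¹ * ⟪y, cr (pd 0 w x) (pd 1 w x)⟫ := by
  show ⟪y, ‖nv w x‖⁻¹ • nv w x⟫ = _
  rw [real_inner_smul_right]
  rfl

/-- expansion of an inner product in the frame -/
theorem Imm.inner_exp (hw : Imm w) (x : P) (y z : E) :
    ⟪y, z⟫ = ⟪y, un w x⟫ * ⟪z, un w x⟫
      + ∑ k, ∑ l, gi w k l x * ⟪y, pd k w x⟫ * ⟪z, pd l w x⟫ := by
  have hs : sq w x ≠ 0 := (hw.sq_pos x).ne'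
  have h := parseval (pd 0 w x) (pd 1 w x) y z
  have e : ‖cr (pd 0 w x) (pd 1 w x)‖ = sq w x := rfl
  rw [e] at h
  rw [imm_inner_un, imm_inner_un]
  simp only [Fin.sum_univ_two, gi, gm]
  simp only [Fin.isValue, ↓reduceIte, sub_zero, sub_self, zero_ne_one, one_ne_zero]
  field_simp
  linear_combination h

theorem Imm.vec_exp (hw : Imm w) (x : P) (y : E) :
    y = ⟪y, un w x⟫ • un w x + ∑ k, (∑ l, gi w k l x * ⟪y, pd l w x⟫) • pd k w x := by
  refine ext_inner_left ℝ fun z => ?_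
  rw [hw.inner_exp x z y]
  simp only [Fin.sum_univ_two, inner_add_right, real_inner_smul_right]
  ring

/-- pointwise version for a normal field that is only differentiable at the point -/
theorem kap_eq_of {N : P → E} {x : P} {a b : E} (h : cr a b ≠ 0) (hN : N x = nrm (cr a b)) :
    kap N x = (⟪pd 0 N x, a⟫ * ⟪pd 1 N x, b⟫ - ⟪pd 0 N x, b⟫ * ⟪pd 1 N x, a⟫) / ‖cr a b‖ := by
  have hs : ‖cr a b‖ ≠ 0 := norm_ne_zero_iff.2 h
  unfold kap
  rw [hN, nrm, real_inner_smul_left, binet, real_inner_comm a (pd 0 N x),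
    real_inner_comm b (pd 1 N x), real_inner_comm b (pd 0 N x), real_inner_comm a (pd 1 N x)]
  field_simp

theorem Imm.kap_eq (hw : Imm w) (x : P) : kap (un w) x = dt (at2 (sf w) x) / sq w x :=
  kap_eq_of (N := un w) (a := pd 0 w x) (b := pd 1 w x) (hw.2 x) rfl

theorem imm_par {n u v : E} (hn : ‖n‖ = 1) (hu : ⟪n, u⟫ = 0) (hv : ⟪n, v⟫ = 0) (X : E) :
    ⟪X, cr u v⟫ = ⟪X, n⟫ * ⟪n, cr u v⟫ := by
  have h1 : cr n (cr u v) = 0 := by rw [cr_cr, hu, hv, zero_smul, zero_smul, sub_zero]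
  have h0 : cr n 0 = 0 := by
    have := cr_smul_right 0 n n
    rwa [zero_smul, zero_smul] at this
  have h2 := cr_cr n n (cr u v)
  rw [h1, h0, real_inner_self_eq_norm_sq, hn, one_pow, one_smul] at h2
  have h3 : cr u v = ⟪n, cr u v⟫ • n := (sub_eq_zero.1 h2.symm).symm
  calc ⟪X, cr u v⟫ = ⟪X, ⟪n, cr u v⟫ • n⟫ := congrArg _ h3
    _ = _ := by rw [real_inner_smul_right, mul_comm]

theorem imm_tri (w : P → E) (x : P) (y z : E) :
    ⟪cr y (un w x), z⟫ = -((sq w x)⁻¹ *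
      (⟪y, pd 0 w x⟫ * ⟪z, pd 1 w x⟫ - ⟪y, pd 1 w x⟫ * ⟪z, pd 0 w x⟫)) := by
  rw [cr_swap, inner_neg_left, ← inner_cr_cyc, real_inner_comm, imm_inner_un, binet]

/-- the basic formula behind the integral identities -/
theorem Imm.JJ_cr (hw : Imm w) {X : P → E} {x : P} (hX : DifferentiableAt ℝ X x) :
    JJ (fun y => cr (X y) (un w y)) (un w) x =
      - mx (fun i j => ⟪pd i X x, pd j w x⟫) (at2 (sf w) x) / sq w x
        + 2 * ⟪X x, un w x⟫ * kap (un w) x := by
  have hs : sq w x ≠ 0 := (hw.sq_pos x).ne'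
  have hN : DifferentiableAt ℝ (un w) x := (hw.sm_un.differentiable (by simp)) x
  have h1 := imm_par (hw.norm_un x) (hw.un_pd_un 0 x) (hw.un_pd_un 1 x) (X x)
  have h2 : ⟪cr (X x) (pd 1 (un w) x), pd 0 (un w) x⟫ =
      -⟪X x, cr (pd 0 (un w) x) (pd 1 (un w) x)⟫ := by
    rw [← inner_cr_cyc, cr_swap, inner_neg_right]
  unfold JJ
  rw [pd_cr hX hN, pd_cr hX hN, inner_add_left, inner_add_left, imm_tri, imm_tri, h2,
    ← inner_cr_cyc, h1]
  simp only [mx, at2, sf, kap]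
  field_simp
  ring

end Pool.Agent.Bor
end
end

-- part Pool.Agent.P.MP_26ecb7_gt.Gauss0
section

noncomputable section
open Set Filter Topology MeasureTheory Metric
open scoped RealInnerProductSpace ContDiff ENNReal

namespace Pool.Agent.Bor

/-- derivative of a constant inner product -/
theorem gauss0_const {f g : P → E} (hf : ContDiff ℝ ∞ f) (hg : ContDiff ℝ ∞ g) {c : ℝ}
    (h : ∀ y, ⟪f y, g y⟫ = c) (i : Fin 2) (x : P) : ⟪pd i f x, g x⟫ = - ⟪f x, pd i g x⟫ := by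
  have h1 := pd_inner (hf.differentiable (by simp) x) (hg.differentiable (by simp) x) i
  have h2 : (fun y => ⟪f y, g y⟫) = fun _ => c := funext h
  rw [h2] at h1
  have h3 : pd i (fun _ : P => c) x = 0 := by simp [pd]
  linarith

/-- the curvature of a moving frame -/
theorem gauss0_frame {e f N : P → E} (he : ContDiff ℝ ∞ e) (hf : ContDiff ℝ ∞ f)
    (hN : ContDiff ℝ ∞ N) (hee : ∀ y, ⟪e y, e y⟫ = 1) (hff : ∀ y, ⟪f y, f y⟫ = 1)
    (hef : ∀ y, ⟪e y, f y⟫ = 0) (hc : ∀ y, cr (e y) (f y) = N y) (x : P) :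
    kap N x = pd 1 (fun y => ⟪pd 0 e y, f y⟫) x - pd 0 (fun y => ⟪pd 1 e y, f y⟫) x := by
  have hd : ∀ i, DifferentiableAt ℝ (pd i e) x :=
    fun i => (contDiff_pd he i).differentiable (by simp) x
  have hdf : DifferentiableAt ℝ f x := hf.differentiable (by simp) x
  rw [pd_inner (hd 0) hdf, pd_inner (hd 1) hdf, pd_comm he 1 0]
  have e1 : ∀ i, ⟪pd i e x, e x⟫ = 0 := fun i => by
    have := gauss0_const he he hee i x
    rw [real_inner_comm (pd i e x) (e x)] at this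
    linarith
  have f1 : ∀ i, ⟪pd i f x, f x⟫ = 0 := fun i => by
    have := gauss0_const hf hf hff i x
    rw [real_inner_comm (pd i f x) (f x)] at this
    linarith
  have hn : ‖cr (e x) (f x)‖ ^ 2 = 1 := by rw [norm_cr_sq, hee, hff, hef]; norm_num
  have key : ∀ i j, ⟪pd i e x, pd j f x⟫ = ⟪pd i e x, N x⟫ * ⟪pd j f x, N x⟫ := fun i j => by
    have := parseval (e x) (f x) (pd i e x) (pd j f x)
    rw [hn, hc, hee, hff, hef, e1, f1] at this
    linarith
  have eN : ∀ i, ⟪pd i e x, N x⟫ = - ⟪e x, pd i N x⟫ := fun i =>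
    gauss0_const he hN (c := 0) (fun y => by rw [← hc, inner_cr_left]) i x
  have fN : ∀ i, ⟪pd i f x, N x⟫ = - ⟪f x, pd i N x⟫ := fun i =>
    gauss0_const hf hN (c := 0) (fun y => by rw [← hc, inner_cr_right]) i x
  have k1 : kap N x = ⟪cr (e x) (f x), cr (pd 0 N x) (pd 1 N x)⟫ := by rw [hc]; rfl
  rw [k1, binet, key, key, eN, eN, fN, fN]
  ring

/-- Theorema egregium in divergence form -/
theorem Imm.gauss {w : P → E} (hw : Imm w) (x : P) :
    kap (un w) x = pd 1 (om w 0) x - pd 0 (om w 1) x := by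
  have ha : ContDiff ℝ ∞ (pd 0 w) := contDiff_pd hw.1 0
  have ha0 : ∀ y, pd 0 w y ≠ 0 := fun y h => by
    have := hw.gm_pos 0 y
    simp [gm, h] at this
  obtain ⟨e, hed⟩ : ∃ e : P → E, e = fun y => nrm (pd 0 w y) := ⟨_, rfl⟩
  obtain ⟨f, hfd⟩ : ∃ f : P → E, f = fun y => cr (un w y) (e y) := ⟨_, rfl⟩
  have he : ContDiff ℝ ∞ e := by
    rw [hed]
    exact contDiff_iff_contDiffAt.2 fun y => (contDiffAt_nrm (ha0 y)).comp y ha.contDiffAt
  have hf : ContDiff ℝ ∞ f := by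
    rw [hfd]
    exact contDiff_iff_contDiffAt.2 fun y => contDiff_cr hw.sm_un.contDiffAt he.contDiffAt
  have ey : ∀ y, e y = ‖pd 0 w y‖⁻¹ • pd 0 w y := fun y => by rw [hed]; rfl
  have fy : ∀ y, f y = cr (un w y) (e y) := fun y => by rw [hfd]
  have hee : ∀ y, ⟪e y, e y⟫ = 1 := fun y => by
    have : ‖e y‖ = 1 := by rw [hed]; exact norm_nrm (ha0 y)
    rw [real_inner_self_eq_norm_sq, this]; norm_num
  have hNN : ∀ y, ⟪un w y, un w y⟫ = 1 := fun y => by
    rw [real_inner_self_eq_norm_sq, hw.norm_un]; norm_num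
  have hNe : ∀ y, ⟪un w y, e y⟫ = 0 := fun y => by
    rw [ey, inner_smul_right, un_pd, mul_zero]
  have hff : ∀ y, ⟪f y, f y⟫ = 1 := fun y => by
    rw [real_inner_self_eq_norm_sq, fy, norm_cr_sq, hNN, hee, hNe]; norm_num
  have hef : ∀ y, ⟪e y, f y⟫ = 0 := fun y => by rw [fy, inner_cr_right]
  have hc : ∀ y, cr (e y) (f y) = un w y := fun y => by
    rw [fy, cr_cr, hee, real_inner_comm, hNe]; simp
  have haf : ∀ y, ⟪pd 0 w y, f y⟫ = 0 := fun y => by
    have h1 := hef y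
    rw [ey, real_inner_smul_left] at h1
    exact (mul_eq_zero.1 h1).resolve_left (inv_ne_zero (norm_ne_zero_iff.2 (ha0 y)))
  have hom : ∀ i, om w i = fun y => ⟪pd i e y, f y⟫ := fun i => by
    funext y
    have hs := (hw.sq_pos y).ne'
    have hn : ‖pd 0 w y‖ ≠ 0 := norm_ne_zero_iff.2 (ha0 y)
    have hg : gm w 0 0 y = ‖pd 0 w y‖ ^ 2 := real_inner_self_eq_norm_sq _
    have h1 : ⟪pd i e y, f y⟫ = ‖pd 0 w y‖⁻¹ * ⟪pd i (pd 0 w) y, f y⟫ := by
      rw [gauss0_const he hf hef, gauss0_const ha hf haf, ey, real_inner_smul_left]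
      ring
    have h2 : f y = ((sq w y)⁻¹ * ‖pd 0 w y‖⁻¹) •
        (gm w 0 0 y • pd 1 w y - gm w 0 1 y • pd 0 w y) := by
      have h3 : un w y = (sq w y)⁻¹ • cr (pd 0 w y) (pd 1 w y) := rfl
      rw [fy, ey, h3, cr_smul_left, cr_smul_right, cr_swap, cr_cr, smul_smul, neg_sub]
      rfl
    rw [h1, h2, real_inner_smul_right, inner_sub_right, real_inner_smul_right,
      real_inner_smul_right]
    change (gm w 0 0 y * ch w i 0 1 y - gm w 0 1 y * ch w i 0 0 y) / (gm w 0 0 y * sq w y) =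
      ‖pd 0 w y‖⁻¹ * ((sq w y)⁻¹ * ‖pd 0 w y‖⁻¹ *
        (gm w 0 0 y * ch w i 0 1 y - gm w 0 1 y * ch w i 0 0 y))
    rw [hg]
    field_simp
  rw [hom, hom]
  exact gauss0_frame he hf hw.sm_un hee hff hef hc x


end Pool.Agent.Bor
end
end

-- part Pool.Agent.P.MP_26ecb7_gt.Gauss
section

noncomputable section
open Set Filter Topology MeasureTheory Metric
open scoped RealInnerProductSpace ContDiff ENNReal

namespace Pool.Agent.Bor

theorem gauss_in (R : Rot) (a : E) (k : Fin 3) : ⟪R.R a, R.R (ee k)⟫ = a k := by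
  rw [LinearIsometryEquiv.inner_map_map, ee, EuclideanSpace.inner_single_right]
  simp

theorem gauss_gn (R : Rot) (a : E) : gn R (R.R a) = (a 0 / a 2, a 1 / a 2) := by
  simp only [gn, gauss_in]

theorem gauss_norm (R : Rot) (k : Fin 3) : ‖R.R (ee k)‖ = 1 := by
  rw [LinearIsometryEquiv.norm_map, ee]; simp

theorem gauss_lift (R : Rot) (x : P) :
    lift R x = x.1 • R.R (ee 0) + x.2 • R.R (ee 1) + R.R (ee 2) := by
  rw [lift, ← map_smul, ← map_smul, ← map_add, ← map_add]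
  congr 1
  ext k; fin_cases k <;> simp [ee]

theorem contDiffAt_gn (R : Rot) {y : E} (hy : ⟪y, R.R (ee 2)⟫ ≠ 0) : ContDiffAt ℝ ∞ (gn R) y := by
  have h : ∀ k, ContDiffAt ℝ ∞ (fun z : E => ⟪z, R.R (ee k)⟫) y := fun k =>
    contDiffAt_id.inner ℝ contDiffAt_const
  exact ((h 0).div (h 2) hy).prodMk ((h 1).div (h 2) hy)
theorem gn_smul (R : Rot) {t : ℝ} (ht : t ≠ 0) (y : E) : gn R (t • y) = gn R y := by
  simp only [gn, real_inner_smul_left, mul_div_mul_left _ _ ht]
theorem gn_lift (R : Rot) (x : P) : gn R (lift R x) = x := by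
  rw [lift, gauss_gn]; simp
theorem inner_lift (R : Rot) (x : P) : ⟪lift R x, R.R (ee 2)⟫ = 1 := by
  rw [lift, gauss_in]; simp
theorem lift_gn (R : Rot) {y : E} (hy : ⟪y, R.R (ee 2)⟫ ≠ 0) :
    ⟪y, R.R (ee 2)⟫ • lift R (gn R y) = y := by
  obtain ⟨a, rfl⟩ := R.R.surjective y
  rw [gauss_in] at hy
  rw [gauss_in, gauss_gn, lift, ← map_smul]
  congr 1
  ext k; fin_cases k <;> simp <;> field_simp
theorem gn_pole (R : Rot) : gn R (R.R (ee 2)) = 0 := by
  rw [gauss_gn]; simp [ee]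
theorem contDiff_lift (R : Rot) : ContDiff ℝ ∞ (lift R) := by
  rw [funext (gauss_lift R)]
  exact ((contDiff_fst.smul contDiff_const).add (contDiff_snd.smul contDiff_const)).add
    contDiff_const
theorem pd_lift (R : Rot) (x : P) : pd 0 (lift R) x = R.R (ee 0) ∧ pd 1 (lift R) x = R.R (ee 1) := by
  have h : HasFDerivAt (lift R) ((ContinuousLinearMap.fst ℝ ℝ ℝ).smulRight (R.R (ee 0)) +
      (ContinuousLinearMap.snd ℝ ℝ ℝ).smulRight (R.R (ee 1))) x := by
    rw [funext (gauss_lift R)]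
    exact ((hasFDerivAt_fst.smul_const _).add (hasFDerivAt_snd.smul_const _)).add_const _
  simp [pd, h.fderiv, e2]

theorem gauss_div {a b s t c K d : ℝ} (hc : 0 < c) (hs : c ≤ s) (ht : c ≤ t) (hb : |b| ≤ K)
    (h1 : |a - b| ≤ d) (h2 : |s - t| ≤ d) : |a / s - b / t| ≤ (1 / c + K / c ^ 2) * d := by
  have hs0 : 0 < s := hc.trans_le hs
  have ht0 : 0 < t := hc.trans_le ht
  have hd : 0 ≤ d := (abs_nonneg _).trans h1
  have hK : 0 ≤ K := (abs_nonneg _).trans hb
  have e : a / s - b / t = (a - b) / s - b * (s - t) / (s * t) := by field_simp; ring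
  have e1 : |(a - b) / s| ≤ d / c := by
    rw [abs_div, abs_of_pos hs0]; gcongr
  have e2 : |b * (s - t) / (s * t)| ≤ K * d / (c * c) := by
    rw [abs_div, abs_mul, abs_of_pos (mul_pos hs0 ht0)]; gcongr
  rw [e]
  refine (abs_sub _ _).trans ((add_le_add e1 e2).trans_eq ?_)
  field_simp

theorem gauss_abs (R : Rot) (y : E) (k : Fin 3) : |⟪y, R.R (ee k)⟫| ≤ ‖y‖ := by
  have := abs_real_inner_le_norm y (R.R (ee k))
  rwa [gauss_norm, mul_one] at this

/-- Lipschitz bound for gnomonic coordinates -/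
theorem dist_gn_le (R : Rot) {y z : E} {c K : ℝ} (hc : 0 < c) (hy : c ≤ ⟪y, R.R (ee 2)⟫)
    (hz : c ≤ ⟪z, R.R (ee 2)⟫) (hK : ‖z‖ ≤ K) :
    dist (gn R y) (gn R z) ≤ (1 / c + K / c ^ 2) * ‖y - z‖ := by
  have h : ∀ k, |⟪y, R.R (ee k)⟫ - ⟪z, R.R (ee k)⟫| ≤ ‖y - z‖ := fun k => by
    rw [← inner_sub_left]; exact gauss_abs R _ k
  rw [Prod.dist_eq, Real.dist_eq, Real.dist_eq]
  exact max_le (gauss_div hc hy hz ((gauss_abs R z 0).trans hK) (h 0) (h 2))
    (gauss_div hc hy hz ((gauss_abs R z 1).trans hK) (h 1) (h 2))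

theorem gauss_pd (R : Rot) {N : P → E} {x : P} (hN : DifferentiableAt ℝ N x)
    (h2 : ⟪N x, R.R (ee 2)⟫ ≠ 0) (k : Fin 3) (i : Fin 2) :
    pd i (fun y => ⟪N y, R.R (ee k)⟫ / ⟪N y, R.R (ee 2)⟫) x =
      (⟪pd i N x, R.R (ee k)⟫ * ⟪N x, R.R (ee 2)⟫ - ⟪N x, R.R (ee k)⟫ * ⟪pd i N x, R.R (ee 2)⟫) /
        ⟪N x, R.R (ee 2)⟫ ^ 2 := by
  have h : ∀ j, HasFDerivAt (fun y => ⟪N y, R.R (ee j)⟫)
      ((innerSL ℝ (R.R (ee j))).comp (fderiv ℝ N x)) x := fun j => by
    have := (innerSL ℝ (R.R (ee j))).hasFDerivAt.comp x hN.hasFDerivAt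
    refine this.congr_of_eventuallyEq (Eventually.of_forall fun y => ?_)
    simp [real_inner_comm]
  have h3 := (h k).mul ((hasDerivAt_inv h2).comp_hasFDerivAt x (h 2))
  have e : (fun y => ⟪N y, R.R (ee k)⟫ / ⟪N y, R.R (ee 2)⟫) = (fun y => ⟪N y, R.R (ee k)⟫) *
      ((fun y : ℝ => y⁻¹) ∘ fun y => ⟪N y, R.R (ee 2)⟫) := by
    funext y; simp [div_eq_mul_inv]
  rw [pd, e, h3.fderiv]
  simp only [pd, add_apply, smul_apply, smul_eq_mul,
    ContinuousLinearMap.comp_apply, innerSL_apply_apply, Function.comp_apply,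
    real_inner_comm (fderiv ℝ N x (e2 i))]
  field_simp
  ring

/-- the area form of the sphere in gnomonic coordinates -/
theorem kap_gn (R : Rot) {N : P → E} {x : P} (hN : DifferentiableAt ℝ N x) (h1 : ‖N x‖ = 1)
    (h2 : 0 < ⟪N x, R.R (ee 2)⟫) :
    kap N x = lam (gn R (N x)) * jp (fun y => gn R (N y)) x := by
  have hp := gauss_pd R hN h2.ne'
  obtain ⟨a, ha⟩ := R.R.surjective (N x)
  obtain ⟨b, hb⟩ := R.R.surjective (pd 0 N x)
  obtain ⟨c, hc⟩ := R.R.surjective (pd 1 N x)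
  have hj : jp (fun y => gn R (N y)) x = ⟪a, cr b c⟫ / a 2 ^ 3 := by
    simp only [jp, jac, gn]
    rw [hp, hp, hp, hp, ← ha, ← hb, ← hc]
    rw [← ha, gauss_in] at h2
    simp only [gauss_in]
    rw [inner_eq]
    simp [cr]
    field_simp
    ring
  rw [hj, kap, ← ha, ← hb, ← hc, R.cr_eq, LinearIsometryEquiv.inner_map_map, gauss_gn]
  rw [← ha, gauss_in] at h2
  rw [← ha, LinearIsometryEquiv.norm_map] at h1
  have h3 : a 0 * a 0 + a 1 * a 1 + a 2 * a 2 = 1 := by
    rw [← inner_eq, real_inner_self_eq_norm_sq, h1]; norm_num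
  have h4 : 1 + (a 0 / a 2) ^ 2 + (a 1 / a 2) ^ 2 = (1 / a 2) ^ 2 := by
    field_simp; linarith
  simp only [lam]
  rw [h4, Real.sqrt_sq (by positivity)]
  field_simp

end Pool.Agent.Bor
end
end

-- part Pool.Agent.P.MP_26ecb7_gt.Chart0
section

noncomputable section
open Set Filter Topology MeasureTheory Metric
open scoped RealInnerProductSpace ContDiff ENNReal

namespace Pool.Agent.Bor

theorem chart0_cr : cr (ee 0) (ee 1) = ee 2 := by
  ext k
  fin_cases k <;> simp [cr, ee]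

theorem chart0_lift_zero (R : Rot) : lift R 0 = R.R (ee 2) := by
  unfold lift
  congr 1
  ext k
  fin_cases k <;> simp [ee]

namespace Surf
variable (X : Surf)

theorem ne_o {q : E} (hq : q ∈ X.S) : q ≠ X.o := fun h => X.o_not (h ▸ hq)

theorem pr_self {q : E} (hq : q ∈ X.S) : X.pr q = q := by
  simpa using X.pr_fix q hq 1 one_pos

theorem chart0_cone {z : E} (hz : z ≠ X.o) {t : ℝ} (ht : 0 < t) :
    X.pr (X.o + t • (z - X.o)) = X.pr z := by
  obtain ⟨s, hs, e⟩ := X.pr_ray z hz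
  have h := X.pr_fix _ (X.pr_mem z hz) (t / s) (div_pos ht hs)
  rw [← h]
  congr 2
  rw [e, add_sub_cancel_left, smul_smul, div_mul_cancel₀ _ hs.ne']

/-- the derivative of the radial projection -/
theorem chart0_der {z : E} (hz : z ≠ X.o) : ∃ τ : ℝ, 0 < τ ∧ X.pr z - X.o = τ • (z - X.o) ∧
    ∀ a, ∃ s : ℝ, fderiv ℝ X.pr z a = τ • a + s • (z - X.o) := by
  have hn : ⟪z - X.o, z - X.o⟫ ≠ 0 := by simpa [sub_eq_zero] using hz
  have hp : DifferentiableAt ℝ X.pr z := (X.pr_smooth z hz).differentiableAt (by simp)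
  have h1 : DifferentiableAt ℝ (fun y : E => ⟪y - X.o, z - X.o⟫) z :=
    (differentiableAt_id.sub_const _).inner ℝ (differentiableAt_const _)
  have h2 : DifferentiableAt ℝ (fun y : E => ⟪X.pr y - X.o, z - X.o⟫) z :=
    (hp.sub_const _).inner ℝ (differentiableAt_const _)
  set T : E → ℝ := fun y => ⟪X.pr y - X.o, z - X.o⟫ * ⟪y - X.o, z - X.o⟫⁻¹ with hT
  have hd : DifferentiableAt ℝ T z := h2.mul (h1.inv hn)
  have key : ∀ y, ⟪y - X.o, z - X.o⟫ ≠ 0 → 0 < T y ∧ X.pr y = X.o + T y • (y - X.o) := by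
    intro y hy
    obtain ⟨s, hs, e⟩ := X.pr_ray y (by rintro rfl; simp at hy)
    have : T y = s := by
      simp only [hT]
      rw [e, add_sub_cancel_left, real_inner_smul_left, mul_inv_cancel_right₀ hy]
    rw [this]
    exact ⟨hs, e⟩
  have hev : X.pr =ᶠ[𝓝 z] fun y => X.o + T y • (y - X.o) := by
    filter_upwards [h1.continuousAt.eventually_ne hn] with y hy using (key y hy).2
  have hf := ((hd.hasFDerivAt.smul ((hasFDerivAt_id z).sub_const X.o)).const_add X.o)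
  refine ⟨T z, (key z hn).1, by rw [sub_eq_iff_eq_add']; exact (key z hn).2, fun a =>
    ⟨fderiv ℝ T z a, ?_⟩⟩
  rw [hev.fderiv_eq]
  exact (congrArg (fun L : E →L[ℝ] E => L a) hf.fderiv).trans (by simp)

theorem chart0_der' {z : E} (hz : z ≠ X.o) : ∃ τ : ℝ, 0 < τ ∧ X.pr z - X.o = τ • (z - X.o) ∧
    ∀ a, ⟪X.nu (X.pr z), a⟫ = 0 → fderiv ℝ X.pr z a = τ • a := by
  obtain ⟨τ, hτ, e, h⟩ := X.chart0_der hz
  refine ⟨τ, hτ, e, fun a ha => ?_⟩
  obtain ⟨s, hs⟩ := h a
  have h1 := X.tang z hz a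
  have h2 := X.pos _ (X.pr_mem z hz)
  rw [e, real_inner_smul_right] at h2
  rw [hs, inner_add_right, real_inner_smul_right, real_inner_smul_right, ha, mul_zero,
    zero_add, mul_eq_zero] at h1
  rcases h1 with h1 | h1
  · rw [hs, h1, zero_smul, add_zero]
  · rw [h1, mul_zero] at h2
    exact absurd h2 (lt_irrefl _)

theorem fderiv_pr {q : E} (hq : q ∈ X.S) {a : E} (ha : ⟪X.nu q, a⟫ = 0) : fderiv ℝ X.pr q a = a := by
  obtain ⟨τ, -, e, h⟩ := X.chart0_der' (X.ne_o hq)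
  rw [X.pr_self hq] at e h
  have h1 : τ = 1 := smul_left_injective ℝ (sub_ne_zero.2 (X.ne_o hq))
    (show τ • (q - X.o) = (1 : ℝ) • (q - X.o) by rw [one_smul]; exact e.symm)
  rw [h a ha, h1, one_smul]

/-- bounded right inverse of the derivative of the projection -/
theorem pr_right {K : Set E} (hK : IsCompact K) (ho : X.o ∉ K) : ∃ C : ℝ, 0 ≤ C ∧ ∀ z ∈ K, ∀ a,
    ⟪X.nu (X.pr z), a⟫ = 0 → ∃ c, fderiv ℝ X.pr z c = a ∧ ‖c‖ ≤ C * ‖a‖ := by
  have hne : ∀ z ∈ K, z ≠ X.o := fun z hz h => ho (h ▸ hz)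
  have hc : ContinuousOn (fun z => ‖z - X.o‖ / ‖X.pr z - X.o‖) K := fun z hz =>
    ((continuousAt_id.sub continuousAt_const).norm.div
      ((X.pr_smooth z (hne z hz)).continuousAt.sub continuousAt_const).norm
      (norm_ne_zero_iff.2 (sub_ne_zero.2 (X.ne_o (X.pr_mem z (hne z hz)))))).continuousWithinAt
  obtain ⟨C, hC⟩ := hK.exists_bound_of_continuousOn hc
  refine ⟨max C 0, le_max_right _ _, fun z hz a ha => ?_⟩
  obtain ⟨τ, hτ, e, h⟩ := X.chart0_der' (hne z hz)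
  refine ⟨τ⁻¹ • a, ?_, ?_⟩
  · rw [map_smul, h a ha, smul_smul, inv_mul_cancel₀ hτ.ne', one_smul]
  · have h1 := hC z hz
    have h2 : ‖z - X.o‖ ≠ 0 := norm_ne_zero_iff.2 (sub_ne_zero.2 (hne z hz))
    rw [e, norm_smul, Real.norm_of_nonneg hτ.le, div_mul_cancel_right₀ h2] at h1
    rw [norm_smul]
    exact mul_le_mul_of_nonneg_right (h1.trans (le_max_left _ _)) (norm_nonneg _)

theorem chart0_ne (R : Rot) (x : P) : X.o + lift R x ≠ X.o := by
  intro h
  have h1 := inner_lift R x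
  rw [add_eq_left.1 h] at h1
  simp at h1

theorem psi_mem (R : Rot) (x : P) : X.psi R x ∈ X.S := X.pr_mem _ (X.chart0_ne R x)

theorem sm_psi (R : Rot) : ContDiff ℝ ∞ (X.psi R) :=
  contDiff_iff_contDiffAt.2 fun x => (X.pr_smooth _ (X.chart0_ne R x)).comp x
    (contDiff_const.add (contDiff_lift R)).contDiffAt

theorem chart0_pd (R : Rot) (i : Fin 2) (x : P) :
    pd i (X.psi R) x = fderiv ℝ X.pr (X.o + lift R x) (pd i (lift R) x) := by
  have h1 := ((X.pr_smooth _ (X.chart0_ne R x)).differentiableAt (by simp)).hasFDerivAt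
  have h2 := (((contDiff_lift R).differentiable (by simp)) x).hasFDerivAt.const_add X.o
  exact congrArg (fun L : P →L[ℝ] E => L (e2 i)) (h1.comp x h2).fderiv

theorem chart0_psi (R : Rot) (x : P) : ∃ τ : ℝ, 0 < τ ∧ X.psi R x - X.o = τ • lift R x ∧
    ⟪lift R x, nv (X.psi R) x⟫ = τ ^ 2 := by
  obtain ⟨τ, hτ, e, h⟩ := X.chart0_der (X.chart0_ne R x)
  rw [add_sub_cancel_left] at e h
  refine ⟨τ, hτ, e, ?_⟩
  obtain ⟨s₀, h₀⟩ := h (R.R (ee 0))
  obtain ⟨s₁, h₁⟩ := h (R.R (ee 1))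
  rw [nv, chart0_pd, chart0_pd, (pd_lift R x).1, (pd_lift R x).2, h₀, h₁]
  simp only [cr_add_left, cr_add_right, cr_smul_left, cr_smul_right, inner_add_right,
    real_inner_smul_right, inner_cr_left, inner_cr_right, R.cr_eq, chart0_cr, inner_lift]
  ring

theorem inner_psi (R : Rot) (x : P) : 0 < ⟪X.psi R x - X.o, R.R (ee 2)⟫ := by
  obtain ⟨τ, hτ, e, -⟩ := X.chart0_psi R x
  rwa [e, real_inner_smul_left, inner_lift, mul_one]

theorem gn_psi (R : Rot) (x : P) : gn R (X.psi R x - X.o) = x := by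
  obtain ⟨τ, hτ, e, -⟩ := X.chart0_psi R x
  rw [e, gn_smul R hτ.ne', gn_lift]

theorem psi_gn (R : Rot) {z : E} (hz : 0 < ⟪z - X.o, R.R (ee 2)⟫) :
    X.psi R (gn R (z - X.o)) = X.pr z := by
  have h1 : z ≠ X.o := by
    rintro rfl
    simp at hz
  have h2 : lift R (gn R (z - X.o)) = ⟪z - X.o, R.R (ee 2)⟫⁻¹ • (z - X.o) :=
    (eq_inv_smul_iff₀ hz.ne').2 (lift_gn R hz.ne')
  rw [psi, h2, X.chart0_cone h1 (inv_pos.2 hz)]

theorem psi_inj (R : Rot) : Function.Injective (X.psi R) := fun x y h => by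
  rw [← X.gn_psi R x, h, X.gn_psi R y]

theorem exists_chart {q : E} (hq : q ∈ X.S) : ∃ R : Rot, X.psi R 0 = q := by
  have h1 : q - X.o ≠ 0 := sub_ne_zero.2 (X.ne_o hq)
  obtain ⟨R, hR⟩ := exists_rot (norm_nrm h1)
  refine ⟨R, ?_⟩
  rw [psi, chart0_lift_zero, hR]
  exact X.pr_fix q hq _ (inv_pos.2 (norm_pos_iff.2 h1))

theorem psi_nhds (R : Rot) (x : P) {U : Set P} (hU : U ∈ 𝓝 x) :
    X.psi R '' U ∈ 𝓝[X.S] (X.psi R x) := by
  have h1 : ContinuousAt (fun z => gn R (z - X.o)) (X.psi R x) :=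
    ContinuousAt.comp (f := fun z => z - X.o) (contDiffAt_gn R (X.inner_psi R x).ne').continuousAt
      (continuousAt_id.sub continuousAt_const)
  have h2 : ∀ᶠ z in 𝓝 (X.psi R x), gn R (z - X.o) ∈ U :=
    h1.eventually (by simp only [X.gn_psi]; exact hU)
  have h3 : ∀ᶠ z in 𝓝 (X.psi R x), 0 < ⟪z - X.o, R.R (ee 2)⟫ :=
    ContinuousAt.eventually_lt continuousAt_const
      ((continuousAt_id.sub continuousAt_const).inner continuousAt_const) (X.inner_psi R x)
  filter_upwards [nhdsWithin_le_nhds h2, nhdsWithin_le_nhds h3, self_mem_nhdsWithin]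
    with z a b c using ⟨_, a, (X.psi_gn R b).trans (X.pr_self c)⟩

theorem tang_psi (R : Rot) (i : Fin 2) (x : P) : ⟪X.nu (X.psi R x), pd i (X.psi R) x⟫ = 0 := by
  rw [chart0_pd]
  exact X.tang _ (X.chart0_ne R x) _

theorem imm_psi (R : Rot) : Imm (X.psi R) := by
  refine ⟨X.sm_psi R, fun x h => ?_⟩
  obtain ⟨τ, hτ, -, e⟩ := X.chart0_psi R x
  rw [h, inner_zero_right] at e
  exact (pow_pos hτ 2).ne e

theorem un_psi (R : Rot) (x : P) : un (X.psi R) x = X.nu (X.psi R x) := by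
  obtain ⟨τ, hτ, e, h⟩ := X.chart0_psi R x
  obtain ⟨s, hs⟩ : ∃ s : ℝ, X.nu (X.psi R x) = s • nv (X.psi R) x :=
    ⟨_, par_of_orth ((X.imm_psi R).2 x) (X.tang_psi R 0 x) (X.tang_psi R 1 x)⟩
  have h1 := X.pos _ (X.psi_mem R x)
  rw [hs, e, real_inner_smul_left, real_inner_smul_right, real_inner_comm, h] at h1
  have h2 : 0 < s := (mul_pos_iff_of_pos_right (by positivity)).1 h1
  rw [← nrm_unit (X.nu_unit _ (X.psi_mem R x)), hs, nrm_smul h2, un]

end Surf

end Pool.Agent.Bor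
end
end

-- part Pool.Agent.P.MP_26ecb7_gt.Chart
section

noncomputable section
open Set Filter Topology MeasureTheory Metric
open scoped RealInnerProductSpace ContDiff ENNReal

namespace Pool.Agent.Bor

namespace Surf
variable (X : Surf)

theorem chart_sf (R : Rot) (i j : Fin 2) (x : P) :
    sf (X.psi R) i j x =
      ⟪fderiv ℝ X.nu (X.psi R x) (pd i (X.psi R) x), pd j (X.psi R) x⟫ := by
  have h1 : un (X.psi R) = X.nu ∘ X.psi R := funext fun y => X.un_psi R y
  have h2 : DifferentiableAt ℝ X.nu (X.psi R x) :=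
    (X.nu_smooth _ (X.psi_mem R x)).differentiableAt (by simp)
  have h3 : DifferentiableAt ℝ (X.psi R) x := ((X.sm_psi R).differentiable (by simp)) x
  unfold sf
  rw [h1]
  unfold pd
  rw [fderiv_comp x h2 h3]
  rfl

theorem qf_pos (R : Rot) (x : P) {a b : ℝ} (h : a ≠ 0 ∨ b ≠ 0) :
    0 < qf (at2 (sf (X.psi R)) x) a b := by
  have hn : cr (pd 0 (X.psi R) x) (pd 1 (X.psi R) x) ≠ 0 := (X.imm_psi R).2 x
  have h0 : a • pd 0 (X.psi R) x + b • pd 1 (X.psi R) x ≠ 0 := by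
    intro h0
    have e1 : cr (a • pd 0 (X.psi R) x + b • pd 1 (X.psi R) x) (pd 1 (X.psi R) x)
        = a • cr (pd 0 (X.psi R) x) (pd 1 (X.psi R) x) := by
      rw [cr_add_left, cr_smul_left, cr_smul_left, cr_self, smul_zero, add_zero]
    have e2 : cr (pd 0 (X.psi R) x) (a • pd 0 (X.psi R) x + b • pd 1 (X.psi R) x)
        = b • cr (pd 0 (X.psi R) x) (pd 1 (X.psi R) x) := by
      rw [cr_add_right, cr_smul_right, cr_smul_right, cr_self, smul_zero, zero_add]
    have z1 : ∀ c : E, cr 0 c = 0 := fun c => by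
      have := cr_smul_left 0 c c
      rwa [zero_smul, zero_smul] at this
    have z2 : ∀ c : E, cr c 0 = 0 := fun c => by
      have := cr_smul_right 0 c c
      rwa [zero_smul, zero_smul] at this
    rw [h0, z1] at e1
    rw [h0, z2] at e2
    rcases h with h | h
    · exact smul_ne_zero h hn e1.symm
    · exact smul_ne_zero h hn e2.symm
  have ht : ⟪X.nu (X.psi R x), a • pd 0 (X.psi R) x + b • pd 1 (X.psi R) x⟫ = 0 := by
    rw [inner_add_right, inner_smul_right, inner_smul_right, X.tang_psi, X.tang_psi]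
    simp
  have hc := X.curv _ (X.psi_mem R x) _ ht h0
  refine lt_of_lt_of_eq hc ?_
  simp only [qf, at2, chart_sf, map_add, map_smul, inner_add_left, inner_add_right,
    real_inner_smul_left, real_inner_smul_right]
  ring

theorem dt_pos (R : Rot) (x : P) : 0 < dt (at2 (sf (X.psi R)) x) := by
  have hs : at2 (sf (X.psi R)) x 1 0 = at2 (sf (X.psi R)) x 0 1 := (X.imm_psi R).sf_symm 1 0 x
  have h0 := X.qf_pos R x (a := 1) (b := 0) (Or.inl one_ne_zero)
  have h00 : 0 < at2 (sf (X.psi R)) x 0 0 := by simpa [qf] using h0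
  have h1 := X.qf_pos R x (a := at2 (sf (X.psi R)) x 0 1) (b := - at2 (sf (X.psi R)) x 0 0)
    (Or.inr (neg_ne_zero.2 h00.ne'))
  have e : qf (at2 (sf (X.psi R)) x) (at2 (sf (X.psi R)) x 0 1) (- at2 (sf (X.psi R)) x 0 0)
      = at2 (sf (X.psi R)) x 0 0 * dt (at2 (sf (X.psi R)) x) := by
    simp only [qf, dt, hs]; ring
  rw [e] at h1
  exact (mul_pos_iff_of_pos_left h00).1 h1

theorem ka_pos (R : Rot) (x : P) : 0 < X.ka R x := by
  unfold Surf.ka
  rw [(X.imm_psi R).kap_eq]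
  exact div_pos (X.dt_pos R x) ((X.imm_psi R).sq_pos x)

theorem continuous_ka (R : Rot) : Continuous (X.ka R) := (X.imm_psi R).sm_kap.continuous

theorem Sm.comp {X : Surf} {f : E → E} (hf : X.Sm f) (R : Rot) :
    ContDiff ℝ ∞ (fun x => f (X.psi R x)) :=
  contDiff_iff_contDiffAt.2 fun x => (hf _ (X.psi_mem R x)).comp x (X.sm_psi R).contDiffAt

/-- a function on the surface that is locally constant in every chart is constant -/
theorem const_of_chart {Y : Type} {f : E → Y}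
    (h : ∀ q ∈ X.S, ∃ R x, X.psi R x = q ∧ ∀ᶠ y in 𝓝 x, f (X.psi R y) = f q) :
    ∀ q ∈ X.S, ∀ q' ∈ X.S, f q = f q' := by
  intro q hq q' hq'
  haveI : PreconnectedSpace X.S := Subtype.preconnectedSpace X.conn.isPreconnected
  have hl : IsLocallyConstant (fun z : X.S => f z) := by
    rw [IsLocallyConstant.iff_eventually_eq]
    intro z
    obtain ⟨R, x, hx, hev⟩ := h z z.2
    have h1 := X.psi_nhds R x hev
    rw [hx] at h1
    have h2 : ∀ᶠ y in 𝓝[X.S] (z : E), f y = f z := by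
      filter_upwards [h1] with y hy
      obtain ⟨u, hu, rfl⟩ := hy
      exact hu
    rw [nhdsWithin_eq_map_subtype_coe z.2] at h2
    exact h2
  exact hl.apply_eq_of_preconnectedSpace ⟨q, hq⟩ ⟨q', hq'⟩

/-- the inverse of a chart is Lipschitz on compact pieces, so null sets pull back to null sets -/
theorem null_preimage (R : Rot) {d : ℝ} (hd : 0 ≤ d) {B : Set E} (hB : μH[d] B = 0) {K : Set P}
    (hK : IsCompact K) : μH[d] (K ∩ X.psi R ⁻¹' B) = 0 := by
  rcases K.eq_empty_or_nonempty with rfl | hne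
  · simp
  have hc : Continuous (X.psi R) := (X.sm_psi R).continuous
  obtain ⟨x0, -, hx0⟩ := hK.exists_isMinOn hne
    (f := fun x => ⟪X.psi R x - X.o, R.R (ee 2)⟫) (by fun_prop)
  obtain ⟨x1, -, hx1⟩ := hK.exists_isMaxOn hne
    (f := fun x => ‖X.psi R x - X.o‖) (by fun_prop)
  set c : ℝ := ⟪X.psi R x0 - X.o, R.R (ee 2)⟫ with hcdef
  set M : ℝ := ‖X.psi R x1 - X.o‖ with hM
  have hc0 : 0 < c := X.inner_psi R x0
  have hM0 : 0 ≤ M := norm_nonneg _
  have hL : LipschitzOnWith ⟨1 / c + M / c ^ 2, by positivity⟩ (fun z => gn R (z - X.o))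
      (X.psi R '' K ∩ B) := by
    refine LipschitzOnWith.of_dist_le_mul ?_
    rintro _ ⟨⟨y, hy, rfl⟩, -⟩ _ ⟨⟨z, hz, rfl⟩, -⟩
    have := dist_gn_le R hc0 (hx0 hy) (hx0 hz) (hx1 hz)
    rw [sub_sub_sub_cancel_right] at this
    rw [dist_eq_norm (X.psi R y)]
    exact this
  have hsub : K ∩ X.psi R ⁻¹' B ⊆ (fun z => gn R (z - X.o)) '' (X.psi R '' K ∩ B) := by
    rintro x ⟨hx, hxB⟩
    exact ⟨X.psi R x, ⟨⟨x, hx, rfl⟩, hxB⟩, X.gn_psi R x⟩
  refine measure_mono_null hsub (le_antisymm ?_ (zero_le))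
  refine (hL.hausdorffMeasure_image_le hd).trans ?_
  rw [measure_mono_null inter_subset_right hB, mul_zero]

end Surf

end Pool.Agent.Bor
end
end

-- part Pool.Agent.P.MP_26ecb7_gt.IsoB0
section

noncomputable section
open Set Filter Topology MeasureTheory Metric
open scoped RealInnerProductSpace ContDiff ENNReal

namespace Pool.Agent.Bor

theorem isob0_frame (X : Surf) {q : E} (hq : q ∈ X.S) : ∃ a b : E, ⟪a, a⟫ = (1 : ℝ) ∧
    ⟪b, b⟫ = (1 : ℝ) ∧ ⟪a, b⟫ = (0 : ℝ) ∧ cr a b = X.nu q ∧ ⟪X.nu q, a⟫ = (0 : ℝ) ∧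
    ⟪X.nu q, b⟫ = (0 : ℝ) := by
  obtain ⟨a, b, h1, h2, h3, h4⟩ := exists_frame (X.nu_unit q hq)
  refine ⟨a, b, ?_, ?_, h3, h4, ?_, ?_⟩
  · rw [real_inner_self_eq_norm_sq, h1, one_pow]
  · rw [real_inner_self_eq_norm_sq, h2, one_pow]
  · rw [← h4, real_inner_comm]; exact inner_cr_left a b
  · rw [← h4, real_inner_comm]; exact inner_cr_right a b

theorem isob0_pr (X : Surf) {z : E} (hz : z ≠ X.o) : ContDiffAt ℝ 1 X.pr z :=
  (X.pr_smooth z hz).of_le (by exact_mod_cast le_top)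

namespace Iso
variable {X : Surf} (I : Iso X)

theorem inner_iso {q : E} (hq : q ∈ X.S) {a b : E} (ha : ⟪X.nu q, a⟫ = 0) (hb : ⟪X.nu q, b⟫ = 0) :
    ⟪fderiv ℝ I.v q a, fderiv ℝ I.v q b⟫ = ⟪a, b⟫ := by
  have h : ⟪X.nu q, a + b⟫ = 0 := by rw [inner_add_right, ha, hb, add_zero]
  rw [real_inner_eq_norm_add_mul_self_sub_norm_mul_self_sub_norm_mul_self_div_two,
    real_inner_eq_norm_add_mul_self_sub_norm_mul_self_sub_norm_mul_self_div_two a b, ← map_add,
    I.iso q hq _ h, I.iso q hq _ ha, I.iso q hq _ hb]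
theorem V_c1 {z : E} (hz : z ≠ X.o) : ContDiffAt ℝ 1 I.V z :=
  (I.c1 _ (X.pr_mem z hz)).comp z (isob0_pr X hz)
theorem fderiv_V {z : E} (hz : z ≠ X.o) :
    fderiv ℝ I.V z = (fderiv ℝ I.v (X.pr z)).comp (fderiv ℝ X.pr z) :=
  fderiv_comp z ((I.c1 _ (X.pr_mem z hz)).differentiableAt one_ne_zero)
    ((isob0_pr X hz).differentiableAt one_ne_zero)
theorem V_self {q : E} (hq : q ∈ X.S) : I.V q = I.v q := by rw [Iso.V, X.pr_self hq]
theorem fderiv_V_tang {q : E} (hq : q ∈ X.S) {a : E} (ha : ⟪X.nu q, a⟫ = 0) :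
    fderiv ℝ I.V q a = fderiv ℝ I.v q a := by
  rw [I.fderiv_V (X.ne_o hq), ContinuousLinearMap.comp_apply, X.fderiv_pr hq ha, X.pr_self hq]
theorem inner_V {z : E} (hz : z ≠ X.o) (a b : E) :
    ⟪fderiv ℝ I.V z a, fderiv ℝ I.V z b⟫ = ⟪fderiv ℝ X.pr z a, fderiv ℝ X.pr z b⟫ := by
  rw [I.fderiv_V hz, ContinuousLinearMap.comp_apply, ContinuousLinearMap.comp_apply]
  exact I.inner_iso (X.pr_mem z hz) (X.tang z hz a) (X.tang z hz b)
theorem N_pr {z : E} (hz : z ≠ X.o) : I.N (X.pr z) = I.N z := by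
  rw [Iso.N, Iso.N, X.pr_self (X.pr_mem z hz)]
theorem N_self {q : E} (hq : q ∈ X.S) : I.N q = cof (fderiv ℝ I.v q) (X.nu q) := by
  rw [Iso.N, X.pr_self hq]
theorem N_eq_cof_V {q : E} (hq : q ∈ X.S) : I.N q = cof (fderiv ℝ I.V q) (X.nu q) := by
  obtain ⟨a, b, -, -, -, h4, h5, h6⟩ := isob0_frame X hq
  rw [I.N_self hq, ← h4, cof_cr, cof_cr, I.fderiv_V_tang hq h5, I.fderiv_V_tang hq h6]
theorem norm_N {z : E} (hz : z ≠ X.o) : ‖I.N z‖ = 1 := by
  have hq := X.pr_mem z hz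
  obtain ⟨a, b, h1, h2, h3, h4, h5, h6⟩ := isob0_frame X hq
  have h : ‖I.N z‖ ^ 2 = 1 := by
    rw [Iso.N, ← h4, cof_cr, norm_cr_sq, I.inner_iso hq h5 h5, I.inner_iso hq h6 h6,
      I.inner_iso hq h5 h6, h1, h2, h3]
    norm_num
  exact (pow_eq_one_iff_of_nonneg (norm_nonneg _) two_ne_zero).1 h
theorem N_orth {z : E} (hz : z ≠ X.o) (a : E) : ⟪I.N z, fderiv ℝ I.V z a⟫ = 0 := by
  have hq := X.pr_mem z hz
  obtain ⟨u, w, -, -, -, h4, -, -⟩ := isob0_frame X hq
  have h := expand u w (fderiv ℝ X.pr z a)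
  have h0 : ⟪fderiv ℝ X.pr z a, X.nu (X.pr z)⟫ = 0 := by
    rw [real_inner_comm]; exact X.tang z hz a
  rw [h4, X.nu_unit _ hq, one_pow, one_smul, h0, zero_smul, zero_add] at h
  rw [I.fderiv_V hz, ContinuousLinearMap.comp_apply, h, map_add, map_smul, map_smul, Iso.N, ← h4,
    cof_cr, real_inner_comm, inner_add_left, real_inner_smul_left, real_inner_smul_left,
    inner_cr_left, inner_cr_right, mul_zero, mul_zero, add_zero]
theorem continuousAt_N {z : E} (hz : z ≠ X.o) : ContinuousAt I.N z := by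
  have hq := X.pr_mem z hz
  have h1 := (isob0_pr X hz).continuousAt
  have h2 : ContinuousAt (fun y => fderiv ℝ I.v (X.pr y)) z :=
    ((I.c1 _ hq).continuousAt_fderiv one_ne_zero).comp h1
  have h3 : ContinuousAt (fun y => X.nu (X.pr y)) z := (X.nu_smooth _ hq).continuousAt.comp h1
  exact contDiff_cof.continuous.continuousAt.comp (f := fun y => (fderiv ℝ I.v (X.pr y),
    X.nu (X.pr y))) (h2.prodMk h3)
theorem measurable_N : Measurable I.N :=
  measurable_of_continuousOn_compl_singleton X.o fun _ hz =>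
    (I.continuousAt_N hz).continuousWithinAt

end Iso

end Pool.Agent.Bor
end
end

-- part Pool.Agent.P.MP_26ecb7_gt.IsoB
section

noncomputable section
open Set Filter Topology MeasureTheory Metric
open scoped RealInnerProductSpace ContDiff ENNReal

namespace Pool.Agent.Bor

theorem isob_lip {Y : Type} [NormedAddCommGroup Y] [NormedSpace ℝ Y] {f : E → Y} {K : Set E}
    (hK : IsCompact K) (hf : ∀ z ∈ K, ContDiffAt ℝ 1 f z) :
    ∃ L : ℝ, 0 ≤ L ∧ ∀ y ∈ K, ∀ z ∈ K, ‖f y - f z‖ ≤ L * ‖y - z‖ := by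
  have h : LocallyLipschitzOn K f := by
    intro x hx
    obtain ⟨L, t, ht, hL⟩ := (hf x hx).exists_lipschitzOnWith
    exact ⟨L, t, mem_nhdsWithin_of_mem_nhds ht, hL⟩
  obtain ⟨L, hL⟩ := h.exists_lipschitzOnWith_of_compact hK
  refine ⟨L, L.2, fun y hy z hz => ?_⟩
  have := hL.dist_le_mul y hy z hz
  rwa [dist_eq_norm, dist_eq_norm] at this

theorem isob_bd {Y : Type} [NormedAddCommGroup Y] {f : E → Y} {K : Set E}
    (hK : IsCompact K) (hf : ∀ z ∈ K, ContinuousAt f z) : ∃ B : ℝ, 0 ≤ B ∧ ∀ y ∈ K, ‖f y‖ ≤ B := by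
  obtain ⟨B, hB⟩ := hK.exists_bound_of_continuousOn fun z hz => (hf z hz).continuousWithinAt
  exact ⟨max B 0, le_max_right _ _, fun y hy => (hB y hy).trans (le_max_left _ _)⟩

theorem isob_pow {t D a : ℝ} (ht : 0 ≤ t) (hD : t ≤ D) (h0 : 0 < a) (h1 : a ≤ 1) :
    t ≤ D ^ (1 - a) * t ^ a := by
  rcases ht.eq_or_lt with rfl | ht'
  · rw [Real.zero_rpow h0.ne', mul_zero]
  · calc t = t ^ (1 - a) * t ^ a := by rw [← Real.rpow_add ht', sub_add_cancel, Real.rpow_one]
      _ ≤ D ^ (1 - a) * t ^ a :=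
        mul_le_mul_of_nonneg_right (Real.rpow_le_rpow ht hD (by linarith)) (by positivity)

namespace Iso
variable {X : Surf} (I : Iso X)

theorem isob_tan {q : E} (hq : q ∈ X.S) (y : E) :
    ∃ t, ⟪X.nu q, t⟫ = 0 ∧ y = ⟪y, I.N q⟫ • I.N q + fderiv ℝ I.v q t := by
  obtain ⟨a, b, ha, hb, hab, hc⟩ := exists_frame (X.nu_unit q hq)
  have h1 : ⟪X.nu q, a⟫ = 0 := by rw [← hc, real_inner_comm]; exact inner_cr_left a b
  have h2 : ⟪X.nu q, b⟫ = 0 := by rw [← hc, real_inner_comm]; exact inner_cr_right a b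
  have hN : I.N q = cr (fderiv ℝ I.v q a) (fderiv ℝ I.v q b) := by
    rw [I.N_self hq, ← hc, cof_cr]
  have h3 := expand (fderiv ℝ I.v q a) (fderiv ℝ I.v q b) y
  rw [← hN, I.norm_N (X.ne_o hq), I.inner_iso hq h1 h1, I.inner_iso hq h2 h2, I.inner_iso hq h1 h2,
    hab, real_inner_self_eq_norm_sq, real_inner_self_eq_norm_sq, ha, hb] at h3
  refine ⟨⟪y, fderiv ℝ I.v q a⟫ • a + ⟪y, fderiv ℝ I.v q b⟫ • b, ?_, ?_⟩
  · rw [inner_add_right, real_inner_smul_right, real_inner_smul_right, h1, h2]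
    ring
  · rw [map_add, map_smul, map_smul, ← add_assoc]
    simpa using h3

/-- every vector is a normal part plus a tangential part -/
theorem split {K : Set E} (hK : IsCompact K) (ho : X.o ∉ K) : ∃ C : ℝ, 0 ≤ C ∧ ∀ z ∈ K, ∀ y : E,
    ∃ c, y = ⟪y, I.N z⟫ • I.N z + fderiv ℝ I.V z c ∧ ‖c‖ ≤ C * ‖y - ⟪y, I.N z⟫ • I.N z‖ := by
  obtain ⟨C, hC, h⟩ := X.pr_right hK ho
  refine ⟨C, hC, fun z hz y => ?_⟩
  have hzo : z ≠ X.o := fun e => ho (e ▸ hz)
  have hq := X.pr_mem z hzo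
  obtain ⟨t, h1, h2⟩ := I.isob_tan hq y
  rw [I.N_pr hzo] at h2
  obtain ⟨c, h3, h4⟩ := h z hz t h1
  refine ⟨c, ?_, ?_⟩
  · rw [I.fderiv_V hzo, ContinuousLinearMap.comp_apply, h3]
    exact h2
  · rw [← eq_sub_of_add_eq' h2.symm, I.iso _ hq t h1]
    exact h4

/-- Lagrange condition at a maximum of a height function -/
theorem N_of_max {y q : E} (hy : ‖y‖ = 1) (hq : q ∈ X.S)
    (h : ∀ q' ∈ X.S, ⟪y, I.v q'⟫ ≤ ⟪y, I.v q⟫) : I.N q = y ∨ I.N q = -y := by
  have hqo := X.ne_o hq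
  have hm : IsLocalMax (fun z => innerSL ℝ y (I.V z)) q := by
    filter_upwards [isOpen_ne.mem_nhds hqo] with z hz
    rw [I.V_self hq]
    exact h _ (X.pr_mem z hz)
  have hd : HasFDerivAt (fun z => innerSL ℝ y (I.V z)) ((innerSL ℝ y).comp (fderiv ℝ I.V q)) q :=
    (innerSL ℝ y).hasFDerivAt.comp q ((I.V_c1 hqo).differentiableAt one_ne_zero).hasFDerivAt
  have h0 := hm.hasFDerivAt_eq_zero hd
  obtain ⟨t, h1, h2⟩ := I.isob_tan hq y
  rw [← I.fderiv_V_tang hq h1] at h2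
  have h3 : ⟪y, fderiv ℝ I.V q t⟫ = 0 := by
    have := congrArg (fun L : E →L[ℝ] ℝ => L t) h0
    simpa using this
  have h4 : fderiv ℝ I.V q t = 0 := by
    have h5 : ⟪⟪y, I.N q⟫ • I.N q + fderiv ℝ I.V q t, fderiv ℝ I.V q t⟫ = 0 := by
      rw [← h2]; exact h3
    rw [inner_add_left, real_inner_smul_left, I.N_orth hqo, mul_zero, zero_add] at h5
    exact inner_self_eq_zero.1 h5
  rw [h4, add_zero] at h2
  obtain ⟨s, hs⟩ : ∃ s : ℝ, y = s • I.N q := ⟨_, h2⟩
  have h6 : |s| = 1 := by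
    rw [hs, norm_smul, I.norm_N hqo, mul_one] at hy
    exact hy
  rcases (abs_eq zero_le_one).1 h6 with rfl | rfl
  · left; rw [hs, one_smul]
  · right; rw [hs, neg_smul, one_smul, neg_neg]

theorem not_flat (y : E) (hy : y ≠ 0) (h : ∀ q ∈ X.S, ∀ q' ∈ X.S, ⟪y, I.v q⟫ = ⟪y, I.v q'⟫) :
    ∀ q ∈ X.S, I.N q = nrm y ∨ I.N q = - nrm y := fun q hq =>
  I.N_of_max (norm_nrm hy) hq fun q' hq' => by
    rw [nrm, real_inner_smul_left, real_inner_smul_left, h q' hq' q hq]

theorem hol_V {K : Set E} (hK : IsCompact K) (ho : X.o ∉ K) : ∃ H : ℝ, 0 ≤ H ∧ ∀ y ∈ K, ∀ z ∈ K,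
    ‖fderiv ℝ I.V y - fderiv ℝ I.V z‖ ≤ H * ‖y - z‖ ^ I.al := by
  have hne : ∀ z ∈ K, z ≠ X.o := fun z hz e => ho (e ▸ hz)
  have ha : 0 < I.al := by linarith [I.al_gt]
  obtain ⟨L1, hL1, h1⟩ := isob_lip (f := X.pr) hK fun z hz =>
    (X.pr_smooth z (hne z hz)).of_le (by exact_mod_cast le_top)
  obtain ⟨L2, hL2, h2⟩ := isob_lip (f := fderiv ℝ X.pr) hK fun z hz =>
    (X.pr_smooth z (hne z hz)).fderiv_right (m := 1)
      (WithTop.coe_le_coe.2 (le_top : (1 + 1 : ℕ∞) ≤ ⊤))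
  obtain ⟨B1, hB1, h3⟩ := isob_bd (f := fderiv ℝ X.pr) hK fun z hz =>
    (X.pr_smooth z (hne z hz)).continuousAt_fderiv (by simp)
  obtain ⟨B2, hB2, h4⟩ := isob_bd (f := fderiv ℝ I.v) X.cpt fun z hz =>
    (I.c1 z hz).continuousAt_fderiv one_ne_zero
  obtain ⟨B3, hB3, h5⟩ := isob_bd (f := fun z : E => z) hK fun z hz => continuousAt_id
  have hC := I.C_nonneg
  refine ⟨I.C * L1 ^ I.al * B1 + B2 * L2 * (B3 + B3) ^ (1 - I.al), by positivity,
    fun y hy z hz => ?_⟩
  have hy' := X.pr_mem y (hne y hy)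
  have hz' := X.pr_mem z (hne z hz)
  have e : fderiv ℝ I.V y - fderiv ℝ I.V z =
      (fderiv ℝ I.v (X.pr y) - fderiv ℝ I.v (X.pr z)).comp (fderiv ℝ X.pr y) +
        (fderiv ℝ I.v (X.pr z)).comp (fderiv ℝ X.pr y - fderiv ℝ X.pr z) := by
    rw [I.fderiv_V (hne y hy), I.fderiv_V (hne z hz), ContinuousLinearMap.sub_comp,
      ContinuousLinearMap.comp_sub, sub_add_sub_cancel]
  have k1 : ‖fderiv ℝ I.v (X.pr y) - fderiv ℝ I.v (X.pr z)‖ ≤
      I.C * L1 ^ I.al * ‖y - z‖ ^ I.al := by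
    refine (I.hol _ hy' _ hz').trans ?_
    rw [mul_assoc, ← Real.mul_rpow hL1 (norm_nonneg _)]
    exact mul_le_mul_of_nonneg_left
      (Real.rpow_le_rpow (norm_nonneg _) (h1 y hy z hz) ha.le) hC
  have k2 : ‖fderiv ℝ X.pr y - fderiv ℝ X.pr z‖ ≤
      L2 * ((B3 + B3) ^ (1 - I.al) * ‖y - z‖ ^ I.al) :=
    (h2 y hy z hz).trans (mul_le_mul_of_nonneg_left (isob_pow (norm_nonneg _)
      ((norm_sub_le _ _).trans (add_le_add (h5 y hy) (h5 z hz))) ha I.al_le) hL2)
  rw [e]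
  refine (norm_add_le _ _).trans ((add_le_add (ContinuousLinearMap.opNorm_comp_le _ _)
    (ContinuousLinearMap.opNorm_comp_le _ _)).trans ?_)
  refine (add_le_add (mul_le_mul k1 (h3 y hy) (norm_nonneg _) (by positivity))
    (mul_le_mul (h4 _ hz') k2 (norm_nonneg _) hB2)).trans_eq ?_
  ring

theorem w_c1 (R : Rot) : ContDiff ℝ 1 (I.w R) := contDiff_iff_contDiffAt.2 fun x =>
  (I.c1 _ (X.psi_mem R x)).comp x
    (((X.sm_psi R).of_le (by exact_mod_cast le_top)).contDiffAt (x := x))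

theorem pd_w (R : Rot) (i : Fin 2) (x : P) :
    pd i (I.w R) x = fderiv ℝ I.V (X.psi R x) (pd i (X.psi R) x) := by
  rw [I.fderiv_V_tang (X.psi_mem R x) (X.tang_psi R i x)]
  have h := fderiv_comp x ((I.c1 _ (X.psi_mem R x)).differentiableAt one_ne_zero)
    ((X.sm_psi R).differentiable (by simp) x)
  show fderiv ℝ (I.v ∘ X.psi R) x (e2 i) = _
  rw [h]
  rfl

theorem gm_w (R : Rot) (i j : Fin 2) (x : P) : gm (I.w R) i j x = gm (X.psi R) i j x := by
  have hq := X.psi_mem R x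
  rw [gm, gm, I.pd_w, I.pd_w, I.fderiv_V_tang hq (X.tang_psi R i x),
    I.fderiv_V_tang hq (X.tang_psi R j x), I.inner_iso hq (X.tang_psi R i x) (X.tang_psi R j x)]

theorem nv_w (R : Rot) (x : P) : nv (I.w R) x = sq (X.psi R) x • I.n R x := by
  rw [nv, I.pd_w, I.pd_w, ← cof_cr, Iso.n, I.N_eq_cof_V (X.psi_mem R x), ← cof_smul,
    ← X.un_psi, ← (X.imm_psi R).nv_eq, nv]

theorem continuous_n (R : Rot) : Continuous (I.n R) := continuous_iff_continuousAt.2 fun x =>
  (I.continuousAt_N (X.ne_o (X.psi_mem R x))).comp (X.sm_psi R).continuous.continuousAt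

theorem norm_n (R : Rot) (x : P) : ‖I.n R x‖ = 1 := I.norm_N (X.ne_o (X.psi_mem R x))

theorem n_pd (R : Rot) (i : Fin 2) (x : P) : ⟪I.n R x, pd i (I.w R) x⟫ = 0 := by
  rw [I.pd_w]
  exact I.N_orth (X.ne_o (X.psi_mem R x)) _

/-- reflected and translated immersion -/
theorem exists_shift (s : ℝ) (hs : s = 1 ∨ s = -1) (c : E) : ∃ J : Iso X,
    (∀ z, J.v z = s • (I.v z - c)) ∧ J.N = I.N := by
  have hd : ∀ q, fderiv ℝ (fun z => s • (I.v z - c)) q = s • fderiv ℝ I.v q := by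
    intro q
    have h := congrFun (fderiv_const_smul_field (𝕜 := ℝ) (f := fun z => I.v z - c) s) q
    rw [Pi.smul_apply, fderiv_sub_const] at h
    exact h
  have h1 : ‖s‖ = 1 := by rcases hs with rfl | rfl <;> simp
  have h2 : s ^ 2 = 1 := by rcases hs with rfl | rfl <;> simp
  refine ⟨⟨fun z => s • (I.v z - c), I.al, I.C, I.al_gt, I.al_le, I.C_nonneg,
    fun q hq => ((I.c1 q hq).sub contDiffAt_const).const_smul s, fun q hq q' hq' => ?_,
    fun q hq a ha => ?_⟩, fun _ => rfl, funext fun z => ?_⟩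
  · rw [hd, hd, ← smul_sub s (fderiv ℝ I.v q) (fderiv ℝ I.v q'), norm_smul, h1, one_mul]
    exact I.hol q hq q' hq'
  · rw [hd, smul_apply, norm_smul, h1, one_mul]
    exact I.iso q hq a ha
  · show cof (fderiv ℝ (fun z => s • (I.v z - c)) (X.pr z)) (X.nu (X.pr z)) = _
    rw [hd, cof_smul_left, h2, one_smul]
    rfl

end Iso

end Pool.Agent.Bor
end
end

-- part Pool.Agent.P.MP_26ecb7_gt.Mat0
section

noncomputable section
open Set Filter Topology MeasureTheory Metric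
open scoped RealInnerProductSpace ContDiff ENNReal

namespace Pool.Agent.Bor

lemma mat0_comp {Y Z : Type} [UniformSpace Y] [UniformSpace Z] {K : Set P} (hK : IsCompact K)
    {F : ℕ → P → Y} {F0 : P → Y} (hF : TendstoUniformlyOn F F0 atTop K) (c : ContinuousOn F0 K)
    {φ : Y → Z} (hφ : ∀ x ∈ K, ContinuousAt φ (F0 x)) :
    TendstoUniformlyOn (fun n x => φ (F n x)) (fun x => φ (F0 x)) atTop K := fun u hu => by
  have := (hK.image_of_continuousOn c).uniformContinuousAt_of_continuousAt φ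
    (by rintro _ ⟨x, hx, rfl⟩; exact hφ x hx) hu
  filter_upwards [hF _ this] with n hn x hx using hn x hx (mem_image_of_mem _ hx)

lemma mat0_pair {Y : Type} [PseudoMetricSpace Y] {K : Set P} {f g : ℕ → P → Y} {f0 g0 : P → Y}
    (hf : TendstoUniformlyOn f f0 atTop K) (hg : TendstoUniformlyOn g g0 atTop K) :
    TendstoUniformlyOn (fun n x => (f n x, g n x)) (fun x => (f0 x, g0 x)) atTop K := by
  rw [Metric.tendstoUniformlyOn_iff] at hf hg ⊢
  intro ε hε
  filter_upwards [hf ε hε, hg ε hε] with n h1 h2 x hx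
  rw [Prod.dist_eq]
  exact max_lt (h1 x hx) (h2 x hx)

/-- products and quotients of uniformly convergent real sequences on a compact set -/
theorem tu_mul {K : Set P} (hK : IsCompact K) {f g : ℕ → P → ℝ} {f0 g0 : P → ℝ}
    (hf : TendstoUniformlyOn f f0 atTop K) (hg : TendstoUniformlyOn g g0 atTop K)
    (cf : ContinuousOn f0 K) (cg : ContinuousOn g0 K) :
    TendstoUniformlyOn (fun n x => f n x * g n x) (fun x => f0 x * g0 x) atTop K :=
  mat0_comp hK (mat0_pair hf hg) (cf.prodMk cg) (φ := fun p : ℝ × ℝ => p.1 * p.2)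
    fun _ _ => continuous_mul.continuousAt
theorem tu_inv {K : Set P} (hK : IsCompact K) {f : ℕ → P → ℝ} {f0 : P → ℝ}
    (hf : TendstoUniformlyOn f f0 atTop K) (cf : ContinuousOn f0 K) (h0 : ∀ x ∈ K, f0 x ≠ 0) :
    TendstoUniformlyOn (fun n x => (f n x)⁻¹) (fun x => (f0 x)⁻¹) atTop K :=
  mat0_comp hK hf cf (φ := fun p : ℝ => p⁻¹) fun x hx => continuousAt_inv₀ (h0 x hx)
theorem tu_inner {K : Set P} (hK : IsCompact K) {f g : ℕ → P → E} {f0 g0 : P → E}
    (hf : TendstoUniformlyOn f f0 atTop K) (hg : TendstoUniformlyOn g g0 atTop K)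
    (cf : ContinuousOn f0 K) (cg : ContinuousOn g0 K) :
    TendstoUniformlyOn (fun n x => ⟪f n x, g n x⟫) (fun x => ⟪f0 x, g0 x⟫) atTop K :=
  mat0_comp hK (mat0_pair hf hg) (cf.prodMk cg) (φ := fun p : E × E => ⟪p.1, p.2⟫)
    fun _ _ => continuous_inner.continuousAt
theorem tu_add {K : Set P} {f g : ℕ → P → ℝ} {f0 g0 : P → ℝ}
    (hf : TendstoUniformlyOn f f0 atTop K) (hg : TendstoUniformlyOn g g0 atTop K) :
    TendstoUniformlyOn (fun n x => f n x + g n x) (fun x => f0 x + g0 x) atTop K := hf.add hg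
theorem tu_sub {K : Set P} {f g : ℕ → P → ℝ} {f0 g0 : P → ℝ}
    (hf : TendstoUniformlyOn f f0 atTop K) (hg : TendstoUniformlyOn g g0 atTop K) :
    TendstoUniformlyOn (fun n x => f n x - g n x) (fun x => f0 x - g0 x) atTop K := hf.sub hg
theorem tu_const {K : Set P} (f0 : P → ℝ) : TendstoUniformlyOn (fun _ : ℕ => f0) f0 atTop K :=
  fun _ hu => Eventually.of_forall fun _ _ _ => refl_mem_uniformity hu

/-- two by two inequalities -/
theorem abs_mx_le (T B : Fin 2 → Fin 2 → ℝ) : |mx T B| ≤ ab T * ab B := by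
  have h : |mx T B| ≤ |T 0 0| * |B 1 1| + |T 1 1| * |B 0 0| + |T 0 1| * |B 1 0| +
      |T 1 0| * |B 0 1| := by
    simp only [← abs_mul]
    exact (abs_sub _ _).trans (add_le_add_left ((abs_sub _ _).trans
      (add_le_add_left (abs_add_le _ _) _)) _)
  refine h.trans ?_
  unfold ab
  have e : ∀ a b c d p q r s : ℝ, 0 ≤ a → 0 ≤ b → 0 ≤ c → 0 ≤ d → 0 ≤ p → 0 ≤ q → 0 ≤ r → 0 ≤ s →
      a * s + d * p + b * r + c * q ≤ (a + b + c + d) * (p + q + r + s) := by
    intro a b c d p q r s _ _ _ _ _ _ _ _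
    have : (a + b + c + d) * (p + q + r + s) = a * s + d * p + b * r + c * q +
      (a * (p + q + r) + b * (p + q + s) + c * (p + r + s) + d * (q + r + s)) := by ring
    rw [this]
    exact le_add_of_nonneg_right (by positivity)
  exact e _ _ _ _ _ _ _ _ (abs_nonneg _) (abs_nonneg _) (abs_nonneg _) (abs_nonneg _)
    (abs_nonneg _) (abs_nonneg _) (abs_nonneg _) (abs_nonneg _)
theorem mx_comm (T B : Fin 2 → Fin 2 → ℝ) : mx T B = mx B T := by unfold mx; ring
theorem mx_self (A : Fin 2 → Fin 2 → ℝ) : mx A A = 2 * dt A := by unfold mx dt; ring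
theorem dt_nonneg {B : Fin 2 → Fin 2 → ℝ} (hs : B 0 1 = B 1 0) (h : ∀ a b, 0 ≤ qf B a b) :
    0 ≤ dt B := by
  have := discrim_le_zero (a := B 0 0) (b := B 0 1 + B 1 0) (c := B 1 1) fun x => by
    have := h x 1
    unfold qf at this
    linarith
  unfold discrim at this
  unfold dt
  rw [← hs] at this ⊢
  linarith

lemma mat0_pos {A : Fin 2 → Fin 2 → ℝ} (sA : A 0 1 = A 1 0)
    (hA : ∀ a b, a ≠ 0 ∨ b ≠ 0 → 0 < qf A a b) : 0 < A 0 0 ∧ 0 < A 1 1 ∧ 0 < dt A := by
  have h0 : 0 < A 0 0 := by simpa [qf] using hA 1 0 (Or.inl one_ne_zero)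
  have h1 : 0 < A 1 1 := by simpa [qf] using hA 0 1 (Or.inr one_ne_zero)
  refine ⟨h0, h1, (mul_pos_iff_of_pos_left h0).1 ?_⟩
  have := hA (-A 0 1) (A 0 0) (Or.inr h0.ne')
  unfold qf at this
  unfold dt
  rw [← sA] at this ⊢
  linarith

lemma mat0_key {A B : Fin 2 → Fin 2 → ℝ} (sA : A 0 1 = A 1 0) (sB : B 0 1 = B 1 0)
    (hA : ∀ a b, a ≠ 0 ∨ b ≠ 0 → 0 < qf A a b) (hB : ∀ a b, 0 ≤ qf B a b) (hd : dt A ≤ dt B) :
    0 < B 0 0 ∧ A 0 0 * B 0 0 * (mx A B - 2 * dt A) = dt A * (B 0 0 - A 0 0) ^ 2 +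
      (dt B - dt A) * A 0 0 ^ 2 + (A 0 0 * B 0 1 - A 0 1 * B 0 0) ^ 2 := by
  refine ⟨?_, by unfold mx dt; rw [← sA, ← sB]; ring⟩
  have h0 : 0 ≤ B 0 0 := by simpa [qf] using hB 1 0
  refine lt_of_le_of_ne h0 fun h => ?_
  have h1 := (mat0_pos sA hA).2.2.trans_le hd
  unfold dt at h1
  rw [← h, ← sB] at h1
  nlinarith [sq_nonneg (B 0 1)]

theorem mx_ge {A B : Fin 2 → Fin 2 → ℝ} (sA : A 0 1 = A 1 0) (sB : B 0 1 = B 1 0)
    (hA : ∀ a b, a ≠ 0 ∨ b ≠ 0 → 0 < qf A a b) (hB : ∀ a b, 0 ≤ qf B a b) (hd : dt A ≤ dt B) :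
    2 * dt A ≤ mx A B := by
  obtain ⟨h0, -, h2⟩ := mat0_pos sA hA
  obtain ⟨h3, e⟩ := mat0_key sA sB hA hB hd
  have h4 := sub_nonneg.2 hd
  have h5 : 0 ≤ A 0 0 * B 0 0 * (mx A B - 2 * dt A) := by rw [e]; positivity
  exact sub_nonneg.1 (nonneg_of_mul_nonneg_right h5 (mul_pos h0 h3))
theorem eq_of_mx {A B : Fin 2 → Fin 2 → ℝ} (sA : A 0 1 = A 1 0) (sB : B 0 1 = B 1 0)
    (hA : ∀ a b, a ≠ 0 ∨ b ≠ 0 → 0 < qf A a b) (hB : ∀ a b, 0 ≤ qf B a b) (hd : dt A ≤ dt B)
    (he : mx A B = 2 * dt A) : B = A := by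
  obtain ⟨h0, -, h2⟩ := mat0_pos sA hA
  obtain ⟨h3, e⟩ := mat0_key sA sB hA hB hd
  have h4 := sub_nonneg.2 hd
  rw [he, sub_self, mul_zero] at e
  have p1 : 0 ≤ dt A * (B 0 0 - A 0 0) ^ 2 := by positivity
  have p2 : 0 ≤ (dt B - dt A) * A 0 0 ^ 2 := by positivity
  have p3 : 0 ≤ (A 0 0 * B 0 1 - A 0 1 * B 0 0) ^ 2 := sq_nonneg _
  have q1 : B 0 0 = A 0 0 := by
    have : dt A * (B 0 0 - A 0 0) ^ 2 = 0 := by linarith
    exact sub_eq_zero.1 (pow_eq_zero_iff two_ne_zero |>.1 ((mul_eq_zero.1 this).resolve_left h2.ne'))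
  have q2 : dt B = dt A := by
    have : (dt B - dt A) * A 0 0 ^ 2 = 0 := by linarith
    exact sub_eq_zero.1 ((mul_eq_zero.1 this).resolve_right (pow_ne_zero _ h0.ne'))
  have q3 : B 0 1 = A 0 1 := by
    have : (A 0 0 * B 0 1 - A 0 1 * B 0 0) ^ 2 = 0 := by linarith
    have := pow_eq_zero_iff two_ne_zero |>.1 this
    rw [q1] at this
    exact mul_left_cancel₀ h0.ne' (by linarith)
  have q4 : B 1 1 = A 1 1 := by
    unfold dt at q2
    rw [← sA, ← sB, q1, q3] at q2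
    exact mul_left_cancel₀ h0.ne' (by linarith)
  funext i j
  fin_cases i <;> fin_cases j
  · exact q1
  · exact q3
  · exact sB.symm.trans (q3.trans sA)
  · exact q4

lemma mat0_est {A B : Fin 2 → Fin 2 → ℝ} {θ T d : ℝ} (sA : A 0 1 = A 1 0) (sB : B 0 1 = B 1 0)
    (hA : ∀ a b, a ≠ 0 ∨ b ≠ 0 → 0 < qf A a b) (hθ : 0 ≤ θ)
    (hB : ∀ a b, - (θ * (a ^ 2 + b ^ 2)) ≤ qf B a b) (hT : A 0 0 + A 1 1 ≤ T) (hd : 0 < d)
    (hd' : d ≤ dt A) :
    0 ≤ mx A B + T * θ ∧ ab B ≤ 2 * T / d * (mx A B + T * θ) + 2 * θ := by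
  obtain ⟨h0, h1, h2⟩ := mat0_pos sA hA
  have b0 : -θ ≤ B 0 0 := by simpa [qf] using hB 1 0
  have b1 : -θ ≤ B 1 1 := by simpa [qf] using hB 0 1
  have b2 := hB 1 1
  have b3 := hB 1 (-1)
  have k1 := hB (A 1 1) (-A 0 1)
  have k2 := hB (-A 0 1) (A 0 0)
  have key : dt A * (B 0 0 + B 1 1 + 2 * θ) ≤
      (A 0 0 + A 1 1) * (mx A B + (A 0 0 + A 1 1) * θ) := by
    unfold qf at k1 k2
    unfold dt mx
    rw [← sA, ← sB] at *
    linarith
  have t0 : 0 ≤ B 0 0 + B 1 1 + 2 * θ := by linarith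
  have m0 : 0 ≤ mx A B + (A 0 0 + A 1 1) * θ :=
    nonneg_of_mul_nonneg_right ((mul_nonneg h2.le t0).trans key) (add_pos h0 h1)
  have m1 : mx A B + (A 0 0 + A 1 1) * θ ≤ mx A B + T * θ := by gcongr
  refine ⟨m0.trans m1, ?_⟩
  have m2 : d * (B 0 0 + B 1 1 + 2 * θ) ≤ T * (mx A B + T * θ) :=
    (mul_le_mul_of_nonneg_right hd' t0).trans (key.trans
      (mul_le_mul hT m1 m0 ((add_pos h0 h1).le.trans hT)))
  have m3 : 2 * (B 0 0 + B 1 1 + 2 * θ) ≤ 2 * T / d * (mx A B + T * θ) := by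
    rw [div_mul_eq_mul_div, le_div_iff₀ hd]
    linarith
  have a0 : |B 0 0| ≤ B 0 0 + 2 * θ := abs_le.2 ⟨by linarith, by linarith⟩
  have a1 : |B 1 1| ≤ B 1 1 + 2 * θ := abs_le.2 ⟨by linarith, by linarith⟩
  have a2 : |B 0 1| ≤ (B 0 0 + B 1 1 + 2 * θ) / 2 := by
    unfold qf at b2 b3
    rw [← sB] at b2 b3
    exact abs_le.2 ⟨by linarith, by linarith⟩
  unfold ab
  rw [← sB]
  linarith

/-- an almost nonnegative array is controlled by its mixed determinant with a positive one -/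
theorem ab_le_mx {K : Set P} (hK : IsCompact K) {A : Fin 2 → Fin 2 → P → ℝ}
    (cA : ∀ i j, Continuous (A i j)) (sA : ∀ x, A 0 1 x = A 1 0 x)
    (hA : ∀ x a b, a ≠ 0 ∨ b ≠ 0 → 0 < qf (at2 A x) a b) : ∃ C : ℝ, 0 < C ∧ ∀ x ∈ K,
      ∀ (B : Fin 2 → Fin 2 → ℝ) (θ : ℝ), 0 ≤ θ → B 0 1 = B 1 0 →
        (∀ a b, - (θ * (a ^ 2 + b ^ 2)) ≤ qf B a b) →
        - (C * θ) ≤ mx (at2 A x) B ∧ ab B ≤ C * (mx (at2 A x) B + C * θ) := by
  obtain ⟨T0, hT0⟩ := hK.exists_bound_of_continuousOn ((cA 0 0).add (cA 1 1)).continuousOn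
  obtain ⟨d, hd, hd'⟩ := hK.exists_forall_le' (f := fun x => dt (at2 A x)) (a := 0)
    (((cA 0 0).mul (cA 1 1)).sub ((cA 0 1).mul (cA 1 0))).continuousOn
    fun x _ => (mat0_pos (sA x) (hA x)).2.2
  obtain ⟨T, hT, hT'⟩ : ∃ T : ℝ, 0 ≤ T ∧ ∀ x ∈ K, A 0 0 x + A 1 1 x ≤ T :=
    ⟨max T0 0, le_max_right _ _, fun x hx =>
      ((le_abs_self _).trans (hT0 x hx)).trans (le_max_left _ _)⟩
  have hq : 0 ≤ 2 * T / d := by positivity
  refine ⟨T + 2 * T / d + 2, by positivity, fun x hx B θ hθ sB hB => ?_⟩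
  obtain ⟨h1, h2⟩ := mat0_est (A := at2 A x) (sA x) sB (hA x) hθ hB (hT' x hx) hd (hd' x hx)
  generalize 2 * T / d = q at *
  generalize mx (at2 A x) B = m at *
  have h3 := mul_nonneg hq hθ
  refine ⟨by nlinarith, h2.trans ?_⟩
  have e : (T + q + 2) * (m + (T + q + 2) * θ) = q * (m + T * θ) + 2 * θ +
      ((T + 2) * (m + T * θ) + (T + q) * (q + 2) * θ + 2 * (q + 1) * θ) := by ring
  rw [e]
  exact le_add_of_nonneg_right (by positivity)


end Pool.Agent.Bor
end
end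

-- part Pool.Agent.P.MP_26ecb7_gt.Mat
section

noncomputable section
open Set Filter Topology MeasureTheory Metric
open scoped RealInnerProductSpace ContDiff ENNReal

namespace Pool.Agent.Bor

/-- Fatou type lemmas -/
theorem fatou_ge {Ω : Type} [MeasurableSpace Ω] {m : Measure Ω} {f : ℕ → Ω → ℝ} {g g0 : Ω → ℝ}
    (hf : ∀ n, Integrable (f n) m) (h0 : ∀ᶠ n in atTop, ∀ᵐ x ∂m, 0 ≤ f n x)
    (hl : ∀ᵐ x ∂m, Tendsto (fun n => f n x) atTop (𝓝 (g x))) (hg : ∀ᵐ x ∂m, g0 x ≤ g x)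
    (i0 : Integrable g0 m) : ∀ η > 0, ∀ᶠ n in atTop, ∫ x, g0 x ∂m - η ≤ ∫ x, f n x ∂m := by
  intro η hη
  have hi : ∀ n, Integrable (fun x => min (f n x) (g0 x)) m := fun n => (hf n).inf i0
  have ht : Tendsto (fun n => ∫ x, min (f n x) (g0 x) ∂m) atTop (𝓝 (∫ x, g0 x ∂m)) := by
    refine tendsto_integral_filter_of_dominated_convergence (fun x => |g0 x|)
      (Eventually.of_forall fun n => (hi n).aestronglyMeasurable) ?_ i0.abs ?_
    · filter_upwards [h0] with n hn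
      filter_upwards [hn] with x hx
      rw [Real.norm_eq_abs, abs_le]
      refine ⟨le_min (by linarith [abs_nonneg (g0 x)]) (neg_abs_le _), ?_⟩
      exact (min_le_right _ _).trans (le_abs_self _)
    · filter_upwards [hl, hg] with x h1 h2
      have := h1.min (tendsto_const_nhds (x := g0 x))
      rwa [min_eq_right h2] at this
  filter_upwards [ht.eventually (lt_mem_nhds (sub_lt_self _ hη))] with n hn
  exact hn.le.trans (integral_mono (hi n) (hf n) fun x => min_le_left _ _)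

theorem fatou_eq {Ω : Type} [MeasurableSpace Ω] {m : Measure Ω} {f : ℕ → Ω → ℝ} {g g0 : Ω → ℝ}
    (hf : ∀ n, Integrable (f n) m) (h0 : ∀ᶠ n in atTop, ∀ᵐ x ∂m, 0 ≤ f n x)
    (hl : ∀ᵐ x ∂m, Tendsto (fun n => f n x) atTop (𝓝 (g x))) (hg : ∀ᵐ x ∂m, g0 x ≤ g x)
    (i0 : Integrable g0 m) (hI : Tendsto (fun n => ∫ x, f n x ∂m) atTop (𝓝 (∫ x, g0 x ∂m))) :
    ∀ᵐ x ∂m, g x = g0 x := by
  have hm : AEStronglyMeasurable g m :=
    aestronglyMeasurable_of_tendsto_ae atTop (fun n => (hf n).aestronglyMeasurable) hl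
  have key : ∀ N, ∀ᵐ x ∂m, min (g x) (max (g0 x) (f N x)) = g0 x := by
    intro N
    have i1 : Integrable (fun x => max (g0 x) (f N x)) m := i0.sup (hf N)
    have lo : ∀ᵐ x ∂m, g0 x ≤ min (g x) (max (g0 x) (f N x)) := by
      filter_upwards [hg] with x hx
      exact le_min hx (le_max_left _ _)
    have i2 : Integrable (fun x => min (g x) (max (g0 x) (f N x))) m := by
      refine Integrable.mono' (i0.abs.add i1.abs) (hm.inf i1.aestronglyMeasurable) ?_
      filter_upwards [lo] with x hx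
      rw [Real.norm_eq_abs, abs_le]
      have a1 := neg_abs_le (g0 x)
      have a2 := le_abs_self (max (g0 x) (f N x))
      have a3 := abs_nonneg (g0 x)
      have a4 := abs_nonneg (max (g0 x) (f N x))
      have a5 := min_le_right (g x) (max (g0 x) (f N x))
      simp only [Pi.add_apply]
      constructor <;> linarith
    have le1 : ∫ x, min (g x) (max (g0 x) (f N x)) ∂m ≤ ∫ x, g0 x ∂m := by
      refine le_of_forall_pos_le_add fun η hη => ?_
      have := ge_of_tendsto hI (fatou_ge hf h0 hl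
        (Eventually.of_forall fun x => min_le_left (g x) (max (g0 x) (f N x))) i2 η hη)
      linarith
    have e := (integral_eq_iff_of_ae_le i0 i2 lo).1
      (le_antisymm (integral_mono_ae i0 i2 lo) le1)
    filter_upwards [e] with x hx
    exact hx.symm
  filter_upwards [ae_all_iff.2 key, hl, hg] with x h1 h2 h3
  have t1 := (tendsto_const_nhds (x := g x)).min ((tendsto_const_nhds (x := g0 x)).max h2)
  rw [max_eq_right h3, min_self] at t1
  exact tendsto_nhds_unique t1 (tendsto_const_nhds.congr fun N => (h1 N).symm)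

theorem fatou_dom {Ω : Type} [MeasurableSpace Ω] {m : Measure Ω} {f e : ℕ → Ω → ℝ} {g : Ω → ℝ}
    (hf : ∀ n, Integrable (f n) m) (he : ∀ n, Integrable (e n) m)
    (h0 : ∀ᶠ n in atTop, ∀ᵐ x ∂m, 0 ≤ e n x ∧ e n x ≤ f n x)
    (hl : ∀ᵐ x ∂m, Tendsto (fun n => f n x) atTop (𝓝 (g x))) (ig : Integrable g m)
    (hI : Tendsto (fun n => ∫ x, f n x ∂m) atTop (𝓝 (∫ x, g x ∂m)))
    (hz : ∀ᵐ x ∂m, Tendsto (fun n => e n x) atTop (𝓝 0)) :
    Tendsto (fun n => ∫ x, e n x ∂m) atTop (𝓝 0) := by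
  have k := fatou_ge (f := fun n x => f n x - e n x) (g := g) (g0 := g)
    (fun n => (hf n).sub (he n))
    (by
      filter_upwards [h0] with n hn
      filter_upwards [hn] with x hx
      linarith [hx.2])
    (by
      filter_upwards [hl, hz] with x h1 h2
      simpa using h1.sub h2)
    (Eventually.of_forall fun x => le_rfl) ig
  refine tendsto_order.2 ⟨fun a ha => ?_, fun a ha => ?_⟩
  · filter_upwards [h0] with n hn
    refine ha.trans_le (integral_nonneg_of_ae ?_)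
    filter_upwards [hn] with x hx
    exact hx.1
  · have h2 : (0 : ℝ) < a / 2 := by linarith
    filter_upwards [k (a / 2) h2, hI.eventually (gt_mem_nhds (lt_add_of_pos_right _ h2))]
      with n h3 h4
    rw [integral_sub (hf n) (he n)] at h3
    linarith

theorem tendsto_of_sum {k : ℕ} {u : ℕ → Fin k → ℝ} {c : Fin k → ℝ}
    (h : ∀ a, ∀ η > 0, ∀ᶠ n in atTop, c a - η ≤ u n a)
    (hs : Tendsto (fun n => ∑ a, u n a) atTop (𝓝 (∑ a, c a))) (a : Fin k) :
    Tendsto (fun n => u n a) atTop (𝓝 (c a)) := by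
  refine tendsto_order.2 ⟨fun b hb => ?_, fun b hb => ?_⟩
  · filter_upwards [h a ((c a - b) / 2) (by linarith)] with n hn
    linarith
  · have hk : (0 : ℝ) < k + 1 := by positivity
    have hη : 0 < (b - c a) / (k + 1) := div_pos (by linarith) hk
    set η := (b - c a) / (k + 1) with hd
    have e : η * (k + 1) = b - c a := by rw [hd]; field_simp
    filter_upwards [eventually_all.2 fun i => h i η hη,
      hs.eventually (gt_mem_nhds (lt_add_of_pos_right _ hη))] with n h1 h2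
    have h3 : u n a - (c a - η) ≤ ∑ i, (u n i - (c i - η)) :=
      Finset.single_le_sum (f := fun i => u n i - (c i - η))
        (fun i _ => sub_nonneg.2 (h1 i)) (Finset.mem_univ a)
    simp only [Finset.sum_sub_distrib, Finset.sum_const, Finset.card_univ, Fintype.card_fin,
      nsmul_eq_mul] at h3
    nlinarith

end Pool.Agent.Bor
end
end

-- part Pool.Agent.P.MP_26ecb7_gt.CConv0
section

noncomputable section
open Set Filter Topology MeasureTheory Metric
open scoped RealInnerProductSpace ContDiff ENNReal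

namespace Pool.Agent.Bor

theorem cconv0_bound {X : Surf} (I : Iso X) {K : Set E} (hK : IsCompact K) (ho : X.o ∉ K) :
    ∃ C : ℝ, 0 ≤ C ∧ ∀ z ∈ K, ‖I.V z‖ ≤ C ∧ ‖fderiv ℝ I.V z‖ ≤ C := by
  have hne : ∀ z ∈ K, z ≠ X.o := fun z hz h => ho (h ▸ hz)
  obtain ⟨C1, h1⟩ := hK.exists_bound_of_continuousOn (f := I.V)
    fun z hz => (I.V_c1 (hne z hz)).continuousAt.continuousWithinAt
  obtain ⟨C2, h2⟩ := hK.exists_bound_of_continuousOn (f := fderiv ℝ I.V)
    fun z hz => ((I.V_c1 (hne z hz)).fderiv_right (m := 0) (by simp)).continuousAt.continuousWithinAt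
  exact ⟨max 0 (max C1 C2), le_max_left _ _, fun z hz =>
    ⟨(h1 z hz).trans ((le_max_left _ _).trans (le_max_right _ _)),
      (h2 z hz).trans ((le_max_right _ _).trans (le_max_right _ _))⟩⟩

namespace Appr
variable {X : Surf} {I : Iso X} (A : Appr I)

theorem cconv0_ne (n : ℕ) {q : E} (hq : q ∈ X.S) : cof (fderiv ℝ (A.W n) q) (X.nu q) ≠ 0 := by
  intro h
  have := A.half n q hq
  rw [h, norm_zero] at this
  norm_num at this

theorem cconv0_D (n : ℕ) : ContDiff ℝ ∞ (fderiv ℝ (A.W n)) :=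
  (A.smooth n).fderiv_right (m := ∞) (by simp)

theorem cconv0_sub : X.S ⊆ thickening A.tau X.S := self_subset_thickening A.tau_pos _

theorem sm_W (n : ℕ) : X.Sm (A.W n) := fun _ _ => (A.smooth n).contDiffAt

theorem sm_NW (n : ℕ) : X.Sm (X.NW (A.W n)) := by
  intro q hq
  have h1 : ContDiffAt ℝ ∞ (fun z => cof (fderiv ℝ (A.W n) z) (X.nu z)) q :=
    contDiff_cof.contDiffAt.comp q ((A.cconv0_D n).contDiffAt.prodMk (X.nu_smooth q hq))
  exact (contDiffAt_nrm (A.cconv0_ne n hq)).comp q h1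

theorem pd_w (R : Rot) (n : ℕ) (i : Fin 2) (x : P) :
    pd i (A.w R n) x = fderiv ℝ (A.W n) (X.psi R x) (pd i (X.psi R) x) := by
  have h1 : HasFDerivAt (A.w R n) ((fderiv ℝ (A.W n) (X.psi R x)).comp (fderiv ℝ (X.psi R) x)) x :=
    ((A.smooth n).differentiable (by simp) _).hasFDerivAt.comp x
      ((X.sm_psi R).differentiable (by simp) x).hasFDerivAt
  unfold pd
  rw [h1.fderiv]
  rfl

theorem pd_pd_w (R : Rot) (n : ℕ) (i j : Fin 2) (x : P) :
    pd i (pd j (A.w R n)) x =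
      fderiv ℝ (fderiv ℝ (A.W n)) (X.psi R x) (pd i (X.psi R) x) (pd j (X.psi R) x)
        + fderiv ℝ (A.W n) (X.psi R x) (pd i (pd j (X.psi R)) x) := by
  have e : pd j (A.w R n) = fun y => fderiv ℝ (A.W n) (X.psi R y) (pd j (X.psi R) y) :=
    funext (A.pd_w R n j)
  have h1 : HasFDerivAt (fun y => fderiv ℝ (A.W n) (X.psi R y))
      ((fderiv ℝ (fderiv ℝ (A.W n)) (X.psi R x)).comp (fderiv ℝ (X.psi R) x)) x :=
    ((A.cconv0_D n).differentiable (by simp) _).hasFDerivAt.comp x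
      ((X.sm_psi R).differentiable (by simp) x).hasFDerivAt
  have h2 : HasFDerivAt (pd j (X.psi R)) (fderiv ℝ (pd j (X.psi R)) x) x :=
    ((contDiff_pd (X.sm_psi R) j).differentiable (by simp) x).hasFDerivAt
  have h3 := (h1.clm_apply h2).fderiv
  rw [e, add_comm]
  change fderiv ℝ (fun y => fderiv ℝ (A.W n) (X.psi R y) (pd j (X.psi R) y)) x (e2 i) = _
  rw [h3]
  rfl

theorem cconv0_nv (R : Rot) (n : ℕ) (x : P) : nv (A.w R n) x =
    sq (X.psi R) x • cof (fderiv ℝ (A.W n) (X.psi R x)) (X.nu (X.psi R x)) := by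
  have h1 : cr (pd 0 (X.psi R) x) (pd 1 (X.psi R) x) = sq (X.psi R) x • X.nu (X.psi R x) := by
    rw [← X.un_psi]
    exact (X.imm_psi R).nv_eq x
  unfold nv
  rw [A.pd_w, A.pd_w, ← cof_cr, h1, cof_smul]

theorem imm_w (R : Rot) (n : ℕ) : Imm (A.w R n) := by
  refine ⟨(A.smooth n).comp (X.sm_psi R), fun x => ?_⟩
  rw [A.cconv0_nv]
  exact smul_ne_zero ((X.imm_psi R).sq_pos x).ne' (A.cconv0_ne n (X.psi_mem R x))

theorem un_w (R : Rot) (n : ℕ) (x : P) : un (A.w R n) x = X.NW (A.W n) (X.psi R x) := by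
  unfold un Surf.NW
  rw [A.cconv0_nv, nrm_smul ((X.imm_psi R).sq_pos x)]

theorem NW_conv : TendstoUniformlyOn (fun n => X.NW (A.W n)) I.N atTop X.S := by
  obtain ⟨C, hC, hb⟩ := cconv0_bound I X.cpt X.o_not
  rw [Metric.tendstoUniformlyOn_iff]
  intro ε hε
  have hp : 0 < 6 * (2 * C + 1) + 1 := by positivity
  have hδ : 0 < ε / (6 * (2 * C + 1) + 1) := div_pos hε hp
  filter_upwards [Metric.tendstoUniformlyOn_iff.1 A.c1 _ (lt_min hδ one_pos)] with n hn q hq
  have h1 := hn q (A.cconv0_sub hq)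
  rw [dist_eq_norm, lt_min_iff] at h1
  have hN := I.norm_N (X.ne_o hq)
  have hN0 : I.N q ≠ 0 := by
    intro h
    rw [h, norm_zero] at hN
    exact zero_ne_one hN
  have h2 := norm_nrm_sub hN0 (A.cconv0_ne n hq)
  rw [nrm_unit hN, hN, div_one] at h2
  have h3 := norm_cof_sub (fderiv ℝ I.V q) (fderiv ℝ (A.W n) q) (X.nu q)
  rw [← I.N_eq_cof_V hq, X.nu_unit q hq, mul_one] at h3
  have h4 : ‖fderiv ℝ (A.W n) q‖ ≤ C + 1 := by
    have h5 := norm_sub_norm_le (fderiv ℝ (A.W n) q) (fderiv ℝ I.V q)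
    rw [norm_sub_rev] at h5
    linarith [(hb q hq).2, h1.2]
  have h6 := (lt_div_iff₀ hp).1 h1.1
  have h7 : 3 * (‖fderiv ℝ I.V q‖ + ‖fderiv ℝ (A.W n) q‖) *
      ‖fderiv ℝ I.V q - fderiv ℝ (A.W n) q‖ ≤
      3 * (2 * C + 1) * ‖fderiv ℝ I.V q - fderiv ℝ (A.W n) q‖ :=
    mul_le_mul_of_nonneg_right (by linarith [(hb q hq).2]) (norm_nonneg _)
  rw [dist_eq_norm]
  change ‖I.N q - nrm (cof (fderiv ℝ (A.W n) q) (X.nu q))‖ < ε
  nlinarith [norm_nonneg (fderiv ℝ I.V q - fderiv ℝ (A.W n) q)]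

theorem bound_W : ∃ C : ℝ, 0 ≤ C ∧ ∀ᶠ n in atTop, ∀ z ∈ thickening A.tau X.S,
    ‖A.W n z‖ ≤ C ∧ ‖fderiv ℝ (A.W n) z‖ ≤ C := by
  obtain ⟨C, hC, hb⟩ := cconv0_bound I (X.cpt.cthickening (r := A.tau)) A.o_not
  refine ⟨C + 1, by positivity, ?_⟩
  filter_upwards [Metric.tendstoUniformlyOn_iff.1 A.c0 1 one_pos,
    Metric.tendstoUniformlyOn_iff.1 A.c1 1 one_pos] with n h0 h1 z hz
  have g0 := h0 z hz
  have g1 := h1 z hz
  rw [dist_comm, dist_eq_norm] at g0 g1
  have g := hb z (thickening_subset_cthickening _ _ hz)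
  have k0 := norm_sub_norm_le (A.W n z) (I.V z)
  have k1 := norm_sub_norm_le (fderiv ℝ (A.W n) z) (fderiv ℝ I.V z)
  exact ⟨by linarith [g.1], by linarith [g.2]⟩

theorem w_conv (R : Rot) : TendstoUniformly (A.w R) (I.w R) atTop := by
  rw [Metric.tendstoUniformly_iff]
  intro ε hε
  filter_upwards [Metric.tendstoUniformlyOn_iff.1 A.c0 ε hε] with n hn x
  have h := hn _ (A.cconv0_sub (X.psi_mem R x))
  rw [I.V_self (X.psi_mem R x)] at h
  exact h

theorem un_conv (R : Rot) : TendstoUniformly (fun n => un (A.w R n)) (I.n R) atTop := by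
  rw [Metric.tendstoUniformly_iff]
  intro ε hε
  filter_upwards [Metric.tendstoUniformlyOn_iff.1 A.NW_conv ε hε] with n hn x
  rw [A.un_w]
  exact hn _ (X.psi_mem R x)

end Appr

end Pool.Agent.Bor
end
end

-- part Pool.Agent.P.MP_26ecb7_gt.CConv
section

noncomputable section
open Set Filter Topology MeasureTheory Metric
open scoped RealInnerProductSpace ContDiff ENNReal

namespace Pool.Agent.Bor

theorem cconv_sqrt {K : Set P} {f : ℕ → P → ℝ} {f0 : P → ℝ} (h : ∀ n x, 0 ≤ f n x)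
    (h0 : ∀ x, 0 ≤ f0 x)
    (hf : TendstoUniformlyOn (fun n x => f n x ^ 2) (fun x => f0 x ^ 2) atTop K) :
    TendstoUniformlyOn f f0 atTop K := by
  rw [Metric.tendstoUniformlyOn_iff] at hf ⊢
  intro ε hε
  filter_upwards [hf (ε ^ 2) (by positivity)] with n hn x hx
  have h1 := hn x hx
  rw [Real.dist_eq] at h1 ⊢
  have a := h n x
  have b := h0 x
  have h2 := abs_lt.1 h1
  rw [abs_lt]
  constructor
  · by_contra hc
    have : ε ≤ f n x - f0 x := by linarith
    nlinarith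
  · by_contra hc
    have : ε ≤ f0 x - f n x := by linarith
    nlinarith

/-- second order chain rule -/
theorem cconv_chain {W : E → E} {g a : P → E} {x : P} (hW : ContDiffAt ℝ ∞ W (g x))
    (hg : DifferentiableAt ℝ g x) (ha : DifferentiableAt ℝ a x) (i : Fin 2) :
    pd i (fun y => fderiv ℝ W (g y) (a y)) x =
      fderiv ℝ (fderiv ℝ W) (g x) (pd i g x) (a x) + fderiv ℝ W (g x) (pd i a x) := by
  have h1 : DifferentiableAt ℝ (fderiv ℝ W) (g x) :=
    (hW.fderiv_right (m := ∞) (by simp)).differentiableAt (by simp)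
  have h2 : HasFDerivAt (fun y => fderiv ℝ W (g y))
      ((fderiv ℝ (fderiv ℝ W) (g x)).comp (fderiv ℝ g x)) x :=
    h1.hasFDerivAt.comp x hg.hasFDerivAt
  have h3 := (h2.clm_apply ha.hasFDerivAt).fderiv
  unfold pd
  rw [h3]
  simp [add_comm]

theorem cconv_ch_psi {X : Surf} (I : Iso X) (R : Rot) (i j k : Fin 2) (x : P) :
    ch (X.psi R) i j k x =
      chr X.pr (X.psi R x) (pd i (X.psi R) x) (pd j (X.psi R) x) (pd k (X.psi R) x) +
        ⟪fderiv ℝ I.V (X.psi R x) (pd i (pd j (X.psi R)) x),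
          fderiv ℝ I.V (X.psi R x) (pd k (X.psi R) x)⟫ := by
  have e : ∀ (j : Fin 2) (y : P), fderiv ℝ X.pr (X.psi R y) (pd j (X.psi R) y) =
      pd j (X.psi R) y := fun j y => X.fderiv_pr (X.psi_mem R y) (X.tang_psi R j y)
  have h := cconv_chain (W := X.pr) (g := X.psi R) (a := pd j (X.psi R)) (x := x)
    (X.pr_smooth _ (X.ne_o (X.psi_mem R x))) ((X.sm_psi R).differentiable (by simp) x)
    ((contDiff_pd (X.sm_psi R) j).differentiable (by simp) x) i
  have e2 : (fun y => fderiv ℝ X.pr (X.psi R y) (pd j (X.psi R) y)) = pd j (X.psi R) :=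
    funext (e j)
  rw [e2] at h
  rw [I.inner_V (X.ne_o (X.psi_mem R x)), chr, ← inner_add_left, ← h, e k x, ch]

theorem cconv_cont {X : Surf} (I : Iso X) (R : Rot) {a : P → E} (ha : Continuous a) :
    Continuous fun x => fderiv ℝ I.V (X.psi R x) (a x) := by
  refine Continuous.clm_apply (continuous_iff_continuousAt.2 fun x => ?_) ha
  have h1 : ContinuousAt (fderiv ℝ I.V) (X.psi R x) :=
    ((I.V_c1 (X.ne_o (X.psi_mem R x))).fderiv_right (m := 0) (by simp)).continuousAt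
  exact h1.comp (X.sm_psi R).continuous.continuousAt

namespace Appr
variable {X : Surf} {I : Iso X} (A : Appr I)

variable (R : Rot) {K : Set P} (hK : IsCompact K)

theorem cconv_mem (x : P) : X.psi R x ∈ thickening A.tau X.S :=
  self_subset_thickening A.tau_pos _ (X.psi_mem R x)

include hK

theorem cconv_app {a : P → E} (ha : Continuous a) :
    TendstoUniformlyOn (fun n x => fderiv ℝ (A.W n) (X.psi R x) (a x))
      (fun x => fderiv ℝ I.V (X.psi R x) (a x)) atTop K := by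
  obtain ⟨B, hB⟩ := hK.exists_bound_of_continuousOn ha.continuousOn
  have hc := Metric.tendstoUniformlyOn_iff.1 A.c1
  rw [Metric.tendstoUniformlyOn_iff]
  intro ε hε
  have hB1 : 0 < |B| + 1 := by positivity
  filter_upwards [hc (ε / (|B| + 1)) (by positivity)] with n hn x hx
  have h1 := hn _ (A.cconv_mem R x)
  rw [dist_eq_norm] at h1 ⊢
  rw [lt_div_iff₀ hB1] at h1
  have h2 := (fderiv ℝ I.V (X.psi R x) - fderiv ℝ (A.W n) (X.psi R x)).le_opNorm (a x)
  rw [sub_apply] at h2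
  have h3 : ‖a x‖ ≤ |B| + 1 := by linarith [hB x hx, le_abs_self B]
  exact (h2.trans (mul_le_mul_of_nonneg_left h3 (norm_nonneg _))).trans_lt h1

theorem cconv_chr {a b c : P → E} (ha : Continuous a) (hb : Continuous b) (hc : Continuous c) :
    TendstoUniformlyOn (fun n x => chr (A.W n) (X.psi R x) (a x) (b x) (c x))
      (fun x => chr X.pr (X.psi R x) (a x) (b x) (c x)) atTop K := by
  obtain ⟨B, hB⟩ := hK.exists_bound_of_continuousOn
    ((ha.norm.mul hb.norm).mul hc.norm).continuousOn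
  rw [Metric.tendstoUniformlyOn_iff]
  intro ε hε
  have hB1 : 0 < |B| + 1 := by positivity
  filter_upwards [A.c2 (ε / (|B| + 1)) (by positivity)] with n hn x hx
  have h1 := hn _ (A.cconv_mem R x) (a x) (b x) (c x)
  have h2 : ‖a x‖ * ‖b x‖ * ‖c x‖ < |B| + 1 := by
    have h3 : ‖a x‖ * ‖b x‖ * ‖c x‖ ≤ B := (le_abs_self _).trans (hB x hx)
    linarith [le_abs_self B]
  rw [Real.dist_eq, abs_sub_comm]
  refine h1.trans_lt ?_
  calc ε / (|B| + 1) * ‖a x‖ * ‖b x‖ * ‖c x‖ = ε / (|B| + 1) * (‖a x‖ * ‖b x‖ * ‖c x‖) := by ring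
    _ < ε / (|B| + 1) * (|B| + 1) := mul_lt_mul_of_pos_left h2 (by positivity)
    _ = ε := div_mul_cancel₀ _ hB1.ne'

theorem pd_conv (i : Fin 2) :
    TendstoUniformlyOn (fun n => pd i (A.w R n)) (pd i (I.w R)) atTop K := by
  have e1 : (fun n => pd i (A.w R n)) =
      fun n x => fderiv ℝ (A.W n) (X.psi R x) (pd i (X.psi R) x) :=
    funext fun n => funext fun x => A.pd_w R n i x
  have e2 : pd i (I.w R) = fun x => fderiv ℝ I.V (X.psi R x) (pd i (X.psi R) x) :=
    funext fun x => I.pd_w R i x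
  rw [e1, e2]
  exact A.cconv_app R hK (contDiff_pd (X.sm_psi R) i).continuous

theorem gm_conv (i j : Fin 2) :
    TendstoUniformlyOn (fun n => gm (A.w R n) i j) (gm (X.psi R) i j) atTop K := by
  have hc : ∀ i : Fin 2, Continuous (pd i (I.w R)) := fun i => by
    have e2 : pd i (I.w R) = fun x => fderiv ℝ I.V (X.psi R x) (pd i (X.psi R) x) :=
      funext fun x => I.pd_w R i x
    rw [e2]
    exact cconv_cont I R (contDiff_pd (X.sm_psi R) i).continuous
  have e : gm (X.psi R) i j = gm (I.w R) i j := funext fun x => (I.gm_w R i j x).symm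
  rw [e]
  exact tu_inner hK (A.pd_conv R hK i) (A.pd_conv R hK j) (hc i).continuousOn (hc j).continuousOn

theorem sq_conv : TendstoUniformlyOn (fun n => sq (A.w R n)) (sq (X.psi R)) atTop K := by
  have hc : ∀ i j, ContinuousOn (gm (X.psi R) i j) K := fun i j =>
    ((X.imm_psi R).sm_gm i j).continuous.continuousOn
  refine cconv_sqrt (fun _ _ => norm_nonneg _) (fun _ => norm_nonneg _) ?_
  simp only [sq_sq]
  simp only [pow_two]
  exact tu_sub (tu_mul hK (A.gm_conv R hK 0 0) (A.gm_conv R hK 1 1) (hc 0 0) (hc 1 1))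
    (tu_mul hK (A.gm_conv R hK 0 1) (A.gm_conv R hK 0 1) (hc 0 1) (hc 0 1))

theorem gi_conv (i j : Fin 2) :
    TendstoUniformlyOn (fun n => gi (A.w R n) i j) (gi (X.psi R) i j) atTop K := by
  have hc : ∀ i j, ContinuousOn (gm (X.psi R) i j) K := fun i j =>
    ((X.imm_psi R).sm_gm i j).continuous.continuousOn
  have hs : ContinuousOn (sq (X.psi R)) K := (X.imm_psi R).sm_sq.continuous.continuousOn
  have hne : ∀ x ∈ K, sq (X.psi R) x * sq (X.psi R) x ≠ 0 := fun x _ =>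
    mul_ne_zero ((X.imm_psi R).sq_pos x).ne' ((X.imm_psi R).sq_pos x).ne'
  have hinv := tu_inv hK (tu_mul hK (A.sq_conv R hK) (A.sq_conv R hK) hs hs) (hs.mul hs) hne
  have cinv := (hs.mul hs).inv₀ hne
  unfold gi
  simp only [pow_two, div_eq_mul_inv]
  by_cases hij : i = j
  · simp only [if_pos hij]
    exact tu_mul hK (A.gm_conv R hK _ _) hinv (hc _ _) cinv
  · simp only [if_neg hij]
    exact tu_mul hK (A.gm_conv R hK 0 1).neg hinv (hc 0 1).neg cinv

theorem ch_conv (i j k : Fin 2) :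
    TendstoUniformlyOn (fun n => ch (A.w R n) i j k) (ch (X.psi R) i j k) atTop K := by
  have c1 : ∀ i : Fin 2, Continuous (pd i (X.psi R)) := fun i =>
    (contDiff_pd (X.sm_psi R) i).continuous
  have c2 : Continuous (pd i (pd j (X.psi R))) :=
    (contDiff_pd (contDiff_pd (X.sm_psi R) j) i).continuous
  have e1 : (fun n => ch (A.w R n) i j k) = fun n x =>
      chr (A.W n) (X.psi R x) (pd i (X.psi R) x) (pd j (X.psi R) x) (pd k (X.psi R) x) +
        ⟪fderiv ℝ (A.W n) (X.psi R x) (pd i (pd j (X.psi R)) x),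
          fderiv ℝ (A.W n) (X.psi R x) (pd k (X.psi R) x)⟫ := by
    funext n x
    rw [ch, A.pd_pd_w, A.pd_w, inner_add_left, chr]
  have e2 := funext (cconv_ch_psi I R i j k)
  rw [e1, e2]
  exact tu_add (A.cconv_chr R hK (c1 i) (c1 j) (c1 k))
    (tu_inner hK (A.cconv_app R hK c2) (A.cconv_app R hK (c1 k))
      (cconv_cont I R c2).continuousOn (cconv_cont I R (c1 k)).continuousOn)

theorem om_conv (i : Fin 2) :
    TendstoUniformlyOn (fun n => om (A.w R n) i) (om (X.psi R) i) atTop K := by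
  have hc : ∀ i j, ContinuousOn (gm (X.psi R) i j) K := fun i j =>
    ((X.imm_psi R).sm_gm i j).continuous.continuousOn
  have hh : ∀ i j k, ContinuousOn (ch (X.psi R) i j k) K := fun i j k =>
    ((X.imm_psi R).sm_ch i j k).continuous.continuousOn
  have hs : ContinuousOn (sq (X.psi R)) K := (X.imm_psi R).sm_sq.continuous.continuousOn
  have hne : ∀ x ∈ K, gm (X.psi R) 0 0 x * sq (X.psi R) x ≠ 0 := fun x _ =>
    mul_ne_zero ((X.imm_psi R).gm_pos 0 x).ne' ((X.imm_psi R).sq_pos x).ne'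
  have hinv := tu_inv hK (tu_mul hK (A.gm_conv R hK 0 0) (A.sq_conv R hK) (hc 0 0) hs)
    ((hc 0 0).mul hs) hne
  have cinv := ((hc 0 0).mul hs).inv₀ hne
  unfold om
  simp only [div_eq_mul_inv]
  exact tu_mul hK
    (tu_sub (tu_mul hK (A.gm_conv R hK 0 0) (A.ch_conv R hK i 0 1) (hc 0 0) (hh i 0 1))
      (tu_mul hK (A.gm_conv R hK 0 1) (A.ch_conv R hK i 0 0) (hc 0 1) (hh i 0 0)))
    hinv (((hc 0 0).mul (hh i 0 1)).sub ((hc 0 1).mul (hh i 0 0))) cinv

end Appr


end Pool.Agent.Bor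
end
end

-- part Pool.Agent.P.MP_26ecb7_gt.Green0
section

noncomputable section
open Set Filter Topology MeasureTheory Metric
open scoped RealInnerProductSpace ContDiff ENNReal

namespace Pool.Agent.Bor

theorem sqr_compact (c : P) (r : ℝ) : IsCompact (sqr c r) := isCompact_Icc
theorem mem_sqr {c x : P} {r : ℝ} :
    x ∈ sqr c r ↔ (c.1 ≤ x.1 ∧ x.1 ≤ c.1 + r) ∧ (c.2 ≤ x.2 ∧ x.2 ≤ c.2 + r) := by
  simp only [sqr, mem_Icc, Prod.le_def]
  tauto
theorem dist_le_of_sqr {c x y : P} {r : ℝ} (hx : x ∈ sqr c r) (hy : y ∈ sqr c r) : dist x y ≤ r := by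
  rw [mem_sqr] at hx hy
  rw [Prod.dist_eq, max_le_iff, Real.dist_eq, Real.dist_eq, abs_le, abs_le]
  obtain ⟨⟨a1, a2⟩, a3, a4⟩ := hx
  obtain ⟨⟨b1, b2⟩, b3, b4⟩ := hy
  refine ⟨⟨?_, ?_⟩, ?_, ?_⟩ <;> linarith

theorem green0_prod (c : P) (r : ℝ) : sqr c r = Icc c.1 (c.1 + r) ×ˢ Icc c.2 (c.2 + r) := by
  ext x
  rw [mem_sqr, mem_prod, mem_Icc, mem_Icc]

theorem volume_sqr (c : P) {r : ℝ} (hr : 0 ≤ r) : volume (sqr c r) = ENNReal.ofReal (r ^ 2) := by
  rw [green0_prod, Measure.volume_eq_prod, Measure.prod_prod, Real.volume_Icc, Real.volume_Icc,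
    add_sub_cancel_left, add_sub_cancel_left, ← ENNReal.ofReal_mul hr, pow_two]
theorem closedBall_eq_sqr (x : P) (r : ℝ) : closedBall x r = sqr (x.1 - r, x.2 - r) (2 * r) := by
  ext y
  rw [mem_sqr, mem_closedBall, Prod.dist_eq, max_le_iff, Real.dist_eq, Real.dist_eq, abs_le, abs_le]
  constructor
  · rintro ⟨⟨a1, a2⟩, a3, a4⟩
    refine ⟨⟨?_, ?_⟩, ?_, ?_⟩ <;> linarith
  · rintro ⟨⟨a1, a2⟩, a3, a4⟩
    refine ⟨⟨?_, ?_⟩, ?_, ?_⟩ <;> linarith
theorem edge_mem_frontier {c x : P} {r : ℝ} (hx : x ∈ sqr c r)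
    (h : x.1 = c.1 ∨ x.1 = c.1 + r ∨ x.2 = c.2 ∨ x.2 = c.2 + r) : x ∈ frontier (sqr c r) := by
  refine ⟨subset_closure hx, fun hi => ?_⟩
  rw [green0_prod, interior_prod_eq, interior_Icc, interior_Icc] at hi
  obtain ⟨⟨a1, a2⟩, a3, a4⟩ := hi
  rcases h with h | h | h | h <;> linarith

theorem green0_cont_pd {f : P → ℝ} (hf : ContDiff ℝ 1 f) (i : Fin 2) : Continuous (pd i f) :=
  (hf.continuous_fderiv one_ne_zero).clm_apply continuous_const

theorem green {a b : P → ℝ} (ha : ContDiff ℝ 1 a) (hb : ContDiff ℝ 1 b) (c : P) {r : ℝ}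
    (hr : 0 ≤ r) : ∫ x in sqr c r, (pd 0 b x - pd 1 a x) = loop c r a b := by
  have hi : IntegrableOn (fun x => fderiv ℝ b x (1, 0) + (-fderiv ℝ a x) (0, 1))
      (Icc c (c.1 + r, c.2 + r)) := by
    have hc : Continuous fun x => pd 0 b x - pd 1 a x :=
      (green0_cont_pd hb 0).sub (green0_cont_pd ha 1)
    have := hc.continuousOn.integrableOn_compact (μ := volume) (sqr_compact c r)
    refine this.congr_fun (fun x _ => ?_) (sqr_compact c r).measurableSet
    simp [pd, e2, sub_eq_add_neg]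
  have h := integral_divergence_prod_Icc_of_hasFDerivAt_of_le b (fun x => -a x) (fderiv ℝ b)
    (fun x => -fderiv ℝ a x) c (c.1 + r, c.2 + r) ⟨by simpa using hr, by simpa using hr⟩
    hb.continuous.continuousOn ha.continuous.neg.continuousOn
    (fun x _ => (hb.differentiable one_ne_zero x).hasFDerivAt)
    (fun x _ => (ha.differentiable one_ne_zero x).hasFDerivAt.neg) hi
  have e : ∀ x, pd 0 b x - pd 1 a x = fderiv ℝ b x (1, 0) + (-fderiv ℝ a x) (0, 1) := fun x => by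
    simp [pd, e2, sub_eq_add_neg]
  simp only [e]
  unfold sqr loop
  rw [h]
  simp only [intervalIntegral.integral_neg]
  ring

theorem green0_pd_mul {f g : P → ℝ} {x : P} (hf : DifferentiableAt ℝ f x)
    (hg : DifferentiableAt ℝ g x) (i : Fin 2) :
    pd i (fun y => f y * g y) x = pd i f x * g x + f x * pd i g x := by
  unfold pd
  rw [fderiv_fun_mul hf hg]
  simp only [ContinuousLinearMap.add_apply, ContinuousLinearMap.smul_apply, smul_eq_mul]
  ring

theorem green_jac {f g : P → ℝ} (hf : ContDiff ℝ 1 f) (hg : ContDiff ℝ ∞ g) (c : P) {r : ℝ}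
    (hr : 0 ≤ r) : ∫ x in sqr c r, jac f g x = lp c r f g := by
  have h1 : ∀ i, ContDiff ℝ 1 (pd i g) := fun i => (contDiff_pd hg i).of_le (by exact_mod_cast le_top)
  have h := green (hf.mul (h1 0)) (hf.mul (h1 1)) c hr
  unfold lp
  rw [← h]
  refine integral_congr_ae (Eventually.of_forall fun x => ?_)
  have df := hf.differentiable one_ne_zero x
  have dg := fun i => (h1 i).differentiable one_ne_zero x
  show jac f g x = pd 0 (fun y => f y * pd 1 g y) x - pd 1 (fun y => f y * pd 0 g y) x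
  rw [green0_pd_mul df (dg 1), green0_pd_mul df (dg 0), pd_comm hg 0 1 x]
  unfold jac
  ring

theorem green0_edge {u : ℝ → ℝ} {s r K : ℝ} (hr : 0 ≤ r) (h : ∀ t, s ≤ t → t ≤ s + r → |u t| ≤ K) :
    |∫ t in s..s + r, u t| ≤ K * r := by
  have := intervalIntegral.norm_integral_le_of_norm_le_const (a := s) (b := s + r) (C := K) (f := u)
    fun t ht => by
      rw [uIoc_of_le (by linarith)] at ht
      exact h t ht.1.le ht.2
  rwa [add_sub_cancel_left, abs_of_nonneg hr] at this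

theorem abs_loop_le {a b : P → ℝ} {c : P} {r K : ℝ} (hr : 0 ≤ r)
    (ha : ∀ x ∈ sqr c r, |a x| ≤ K) (hb : ∀ x ∈ sqr c r, |b x| ≤ K) : |loop c r a b| ≤ 4 * r * K := by
  have h1 := green0_edge (u := fun s => a (s, c.2)) (s := c.1) hr fun t h h' =>
    ha _ (mem_sqr.2 ⟨⟨h, h'⟩, le_rfl, by simpa using hr⟩)
  have h2 := green0_edge (u := fun s => b (c.1 + r, s)) (s := c.2) hr fun t h h' =>
    hb _ (mem_sqr.2 ⟨⟨by simpa using hr, le_rfl⟩, h, h'⟩)
  have h3 := green0_edge (u := fun s => a (s, c.2 + r)) (s := c.1) hr fun t h h' =>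
    ha _ (mem_sqr.2 ⟨⟨h, h'⟩, by simpa using hr, le_rfl⟩)
  have h4 := green0_edge (u := fun s => b (c.1, s)) (s := c.2) hr fun t h h' =>
    hb _ (mem_sqr.2 ⟨⟨le_rfl, by simpa using hr⟩, h, h'⟩)
  rw [abs_le] at h1 h2 h3 h4 ⊢
  unfold loop
  constructor <;> linarith [h1.1, h1.2, h2.1, h2.2, h3.1, h3.2, h4.1, h4.2]

theorem green0_ii {a : P → ℝ} (ha : Continuous a) (t u v : ℝ) :
    IntervalIntegrable (fun s => a (s, t)) volume u v ∧
      IntervalIntegrable (fun s => a (t, s)) volume u v :=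
  ⟨(ha.comp (continuous_id.prodMk continuous_const)).intervalIntegrable u v,
    (ha.comp (continuous_const.prodMk continuous_id)).intervalIntegrable u v⟩

theorem loop_sub {a b a' b' : P → ℝ} (ha : Continuous a) (hb : Continuous b) (ha' : Continuous a')
    (hb' : Continuous b') (c : P) (r : ℝ) :
    loop c r (fun x => a x - a' x) (fun x => b x - b' x) = loop c r a b - loop c r a' b' := by
  unfold loop
  rw [intervalIntegral.integral_sub (green0_ii ha _ _ _).1 (green0_ii ha' _ _ _).1,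
    intervalIntegral.integral_sub (green0_ii ha _ _ _).1 (green0_ii ha' _ _ _).1,
    intervalIntegral.integral_sub (green0_ii hb _ _ _).2 (green0_ii hb' _ _ _).2,
    intervalIntegral.integral_sub (green0_ii hb _ _ _).2 (green0_ii hb' _ _ _).2]
  ring
theorem loop_add {a b a' b' : P → ℝ} (ha : Continuous a) (hb : Continuous b) (ha' : Continuous a')
    (hb' : Continuous b') (c : P) (r : ℝ) :
    loop c r (fun x => a x + a' x) (fun x => b x + b' x) = loop c r a b + loop c r a' b' := by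
  unfold loop
  rw [intervalIntegral.integral_add (green0_ii ha _ _ _).1 (green0_ii ha' _ _ _).1,
    intervalIntegral.integral_add (green0_ii ha _ _ _).1 (green0_ii ha' _ _ _).1,
    intervalIntegral.integral_add (green0_ii hb _ _ _).2 (green0_ii hb' _ _ _).2,
    intervalIntegral.integral_add (green0_ii hb _ _ _).2 (green0_ii hb' _ _ _).2]
  ring

theorem green0_congr {u v : ℝ → ℝ} {s r : ℝ} (hr : 0 ≤ r) (h : ∀ t, s ≤ t → t ≤ s + r → u t = v t) :
    ∫ t in s..s + r, u t = ∫ t in s..s + r, v t :=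
  intervalIntegral.integral_congr fun t ht => by
    rw [uIcc_of_le (by linarith)] at ht
    exact h t ht.1 ht.2

theorem loop_congr {a b a' b' : P → ℝ} {c : P} {r : ℝ} (hr : 0 ≤ r)
    (ha : ∀ x ∈ frontier (sqr c r), a x = a' x) (hb : ∀ x ∈ frontier (sqr c r), b x = b' x) :
    loop c r a b = loop c r a' b' := by
  have h1 := green0_congr (u := fun s => a (s, c.2)) (v := fun s => a' (s, c.2)) (s := c.1) hr
    fun t h h' => ha _ (edge_mem_frontier (mem_sqr.2 ⟨⟨h, h'⟩, le_rfl, by simpa using hr⟩)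
      (Or.inr (Or.inr (Or.inl rfl))))
  have h2 := green0_congr (u := fun s => b (c.1 + r, s)) (v := fun s => b' (c.1 + r, s)) (s := c.2) hr
    fun t h h' => hb _ (edge_mem_frontier (mem_sqr.2 ⟨⟨by simpa using hr, le_rfl⟩, h, h'⟩)
      (Or.inr (Or.inl rfl)))
  have h3 := green0_congr (u := fun s => a (s, c.2 + r)) (v := fun s => a' (s, c.2 + r)) (s := c.1) hr
    fun t h h' => ha _ (edge_mem_frontier (mem_sqr.2 ⟨⟨h, h'⟩, by simpa using hr, le_rfl⟩)
      (Or.inr (Or.inr (Or.inr rfl))))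
  have h4 := green0_congr (u := fun s => b (c.1, s)) (v := fun s => b' (c.1, s)) (s := c.2) hr
    fun t h h' => hb _ (edge_mem_frontier (mem_sqr.2 ⟨⟨le_rfl, by simpa using hr⟩, h, h'⟩)
      (Or.inl rfl))
  unfold loop
  rw [h1, h2, h3, h4]

theorem green0_split1 {h : P → ℝ} {a m b : ℝ} {T : Set ℝ} (hT : IsCompact T) (h1 : a ≤ m)
    (h2 : m ≤ b) (hh : ContinuousOn h (Icc a b ×ˢ T)) :
    ∫ x in Icc a b ×ˢ T, h x = (∫ x in Icc a m ×ˢ T, h x) + ∫ x in Icc m b ×ˢ T, h x := by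
  have hi := hh.integrableOn_compact (μ := volume) (isCompact_Icc.prod hT)
  rw [← Icc_union_Icc_eq_Icc h1 h2, union_prod] at hi ⊢
  refine setIntegral_union₀ ?_ (isCompact_Icc.prod hT).measurableSet.nullMeasurableSet
    (hi.mono_set subset_union_left) (hi.mono_set subset_union_right)
  refine measure_mono_null (t := ({m} : Set ℝ) ×ˢ T)
    (fun x hx => ⟨le_antisymm hx.1.1.2 hx.2.1.1, hx.1.2⟩) ?_
  rw [Measure.volume_eq_prod, Measure.prod_prod, Real.volume_singleton, zero_mul]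

theorem green0_split2 {h : P → ℝ} {a m b : ℝ} {T : Set ℝ} (hT : IsCompact T) (h1 : a ≤ m)
    (h2 : m ≤ b) (hh : ContinuousOn h (T ×ˢ Icc a b)) :
    ∫ x in T ×ˢ Icc a b, h x = (∫ x in T ×ˢ Icc a m, h x) + ∫ x in T ×ˢ Icc m b, h x := by
  have hi := hh.integrableOn_compact (μ := volume) (hT.prod isCompact_Icc)
  rw [← Icc_union_Icc_eq_Icc h1 h2, prod_union] at hi ⊢
  refine setIntegral_union₀ ?_ (hT.prod isCompact_Icc).measurableSet.nullMeasurableSet
    (hi.mono_set subset_union_left) (hi.mono_set subset_union_right)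
  refine measure_mono_null (t := T ×ˢ ({m} : Set ℝ))
    (fun x hx => ⟨hx.1.1, le_antisymm hx.1.2.2 hx.2.2.1⟩) ?_
  rw [Measure.volume_eq_prod, Measure.prod_prod, Real.volume_singleton, mul_zero]

theorem integral_sqr_split {h : P → ℝ} {c : P} {r : ℝ} (hr : 0 ≤ r)
    (hh : ContinuousOn h (sqr c r)) :
    ∫ x in sqr c r, h x = (∫ x in sqr c (r / 2), h x) + (∫ x in sqr (c.1 + r / 2, c.2) (r / 2), h x)
      + (∫ x in sqr (c.1, c.2 + r / 2) (r / 2), h x)
      + ∫ x in sqr (c.1 + r / 2, c.2 + r / 2) (r / 2), h x := by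
  have e : ∀ s : ℝ, s + r / 2 + r / 2 = s + r := fun s => by ring
  have l1 : ∀ s : ℝ, s ≤ s + r / 2 := fun s => by linarith
  have l2 : ∀ s : ℝ, s + r / 2 ≤ s + r := fun s => by linarith
  simp only [green0_prod, e] at hh ⊢
  rw [green0_split2 isCompact_Icc (l1 c.2) (l2 c.2) hh,
    green0_split1 isCompact_Icc (l1 c.1) (l2 c.1)
      (hh.mono (prod_mono subset_rfl (Icc_subset_Icc le_rfl (l2 c.2)))),
    green0_split1 isCompact_Icc (l1 c.1) (l2 c.1)
      (hh.mono (prod_mono subset_rfl (Icc_subset_Icc (l1 c.2) le_rfl)))]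
  ring


end Pool.Agent.Bor
end
end

-- part Pool.Agent.P.MP_26ecb7_gt.Green
section

noncomputable section
open Set Filter Topology MeasureTheory Metric
open scoped RealInnerProductSpace ContDiff ENNReal

namespace Pool.Agent.Bor

theorem green_aux_cont {Y : Type} [NormedAddCommGroup Y] [NormedSpace ℝ Y] {f : P → Y}
    (hf : ContDiff ℝ 1 f) (i : Fin 2) : Continuous (pd i f) :=
  (hf.continuous_fderiv (by norm_num)).clm_apply continuous_const

theorem green_aux_supp {Y : Type} [NormedAddCommGroup Y] [NormedSpace ℝ Y] {f : P → Y}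
    (hc : HasCompactSupport f) (i : Fin 2) : HasCompactSupport (pd i f) :=
  HasCompactSupport.fderiv_apply ℝ hc (e2 i)

theorem green_aux_parts {f a : P → ℝ} (hf : ContDiff ℝ 1 f) (hc : HasCompactSupport f)
    (ha : ContDiff ℝ 1 a) (i : Fin 2) :
    ∫ x, f x * pd i a x = - ∫ x, pd i f x * a x := by
  refine integral_mul_fderiv_eq_neg_fderiv_mul_of_integrable ?_ ?_ ?_ ?_ ?_
  · exact ((green_aux_cont hf i).mul ha.continuous).integrable_of_hasCompactSupport
      (green_aux_supp hc i).mul_right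
  · exact (hf.continuous.mul (green_aux_cont ha i)).integrable_of_hasCompactSupport hc.mul_right
  · exact (hf.continuous.mul ha.continuous).integrable_of_hasCompactSupport hc.mul_right
  · exact fun x _ => (hf.differentiable (by norm_num)) x
  · exact fun x _ => (ha.differentiable (by norm_num)) x

/-- integration by parts against a compactly supported function -/
theorem by_parts {f a b : P → ℝ} (hf : ContDiff ℝ 1 f) (hc : HasCompactSupport f)
    (ha : ContDiff ℝ 1 a) (hb : ContDiff ℝ 1 b) :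
    ∫ x, f x * (pd 1 a x - pd 0 b x) = ∫ x, (pd 0 f x * b x - pd 1 f x * a x) := by
  have h1 : Integrable (fun x => f x * pd 1 a x) :=
    (hf.continuous.mul (green_aux_cont ha 1)).integrable_of_hasCompactSupport hc.mul_right
  have h2 : Integrable (fun x => f x * pd 0 b x) :=
    (hf.continuous.mul (green_aux_cont hb 0)).integrable_of_hasCompactSupport hc.mul_right
  have h3 : Integrable (fun x => pd 0 f x * b x) :=
    ((green_aux_cont hf 0).mul hb.continuous).integrable_of_hasCompactSupport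
      (green_aux_supp hc 0).mul_right
  have h4 : Integrable (fun x => pd 1 f x * a x) :=
    ((green_aux_cont hf 1).mul ha.continuous).integrable_of_hasCompactSupport
      (green_aux_supp hc 1).mul_right
  simp only [mul_sub]
  rw [integral_sub h1 h2, integral_sub h3 h4, green_aux_parts hf hc ha 1,
    green_aux_parts hf hc hb 0]
  ring

theorem green_aux_zero {f : P → ℝ} (hf : ContDiff ℝ 1 f) (hc : HasCompactSupport f) (i : Fin 2) :
    ∫ x, pd i f x = 0 := by
  have h := green_aux_parts hf hc (contDiff_const (c := (1 : ℝ))) i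
  have h0 : ∀ x, pd i (fun _ : P => (1 : ℝ)) x = 0 := fun x => by simp [pd]
  simp only [h0, mul_zero, integral_zero, mul_one] at h
  linarith

theorem integral_JJ {X Y : P → E} (hX : ContDiff ℝ ∞ X) (hc : HasCompactSupport X)
    (hY : ContDiff ℝ ∞ Y) : ∫ x, JJ X Y x = 0 := by
  have hs : ∀ j : Fin 2, ContDiff ℝ 1 (fun y => ⟪X y, pd j Y y⟫) := fun j =>
    (hX.inner ℝ (contDiff_pd hY j)).of_le (by exact_mod_cast le_top)
  have hcs : ∀ j : Fin 2, HasCompactSupport (fun y => ⟪X y, pd j Y y⟫) := fun j =>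
    hc.mono fun y hy h0 => hy (by simp only [h0, inner_zero_left])
  have he : ∀ x, JJ X Y x = pd 0 (fun y => ⟪X y, pd 1 Y y⟫) x - pd 1 (fun y => ⟪X y, pd 0 Y y⟫) x := by
    intro x
    have hXd : DifferentiableAt ℝ X x := hX.differentiable (by simp) x
    have hYd : ∀ j, DifferentiableAt ℝ (pd j Y) x := fun j =>
      (contDiff_pd hY j).differentiable (by simp) x
    rw [pd_inner hXd (hYd 1), pd_inner hXd (hYd 0), pd_comm hY 0 1 x, JJ]
    ring
  have hi : ∀ i j : Fin 2, Integrable (pd i (fun y => ⟪X y, pd j Y y⟫)) := fun i j =>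
    (green_aux_cont (hs j) i).integrable_of_hasCompactSupport (green_aux_supp (hcs j) i)
  simp only [he]
  rw [integral_sub (hi 0 1) (hi 1 0), green_aux_zero (hs 1) (hcs 1), green_aux_zero (hs 0) (hcs 0),
    sub_zero]

/-- one direction, in abstract form -/
theorem green_aux_dir {Y : Type} [NormedAddCommGroup Y] [NormedSpace ℝ Y] [CompleteSpace Y]
    {F D : ℕ → P → Y} {G : P → Y} {a b r : ℝ} (hr : 0 < r) (hF : ∀ n, Continuous (F n))
    (hD : ∀ n, Continuous (D n))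
    (hd : ∀ n s t, HasDerivAt (fun u => F n (s, u)) (D n (s, t)) t)
    (hu : TendstoUniformlyOn F G atTop (Icc a (a + r) ×ˢ Icc b (b + r)))
    (h : Tendsto (fun n => ∫ x in Icc a (a + r) ×ˢ Icc b (b + r), ‖D n x‖) atTop (𝓝 0))
    {s t t' : ℝ} (hs : s ∈ Icc a (a + r)) (ht : t ∈ Icc b (b + r)) (ht' : t' ∈ Icc b (b + r)) :
    G (s, t) = G (s, t') := by
  have hab : a ≤ a + r := by linarith
  have hbb : b ≤ b + r := by linarith
  have hGc : ContinuousOn G (Icc a (a + r) ×ˢ Icc b (b + r)) :=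
    hu.continuousOn (Frequently.of_forall fun n => (hF n).continuousOn)
  have hsl : ∀ τ ∈ Icc b (b + r), TendstoUniformlyOn (fun n σ => F n (σ, τ)) (fun σ => G (σ, τ))
      atTop (Icc a (a + r)) := fun τ hτ =>
    (hu.comp (fun σ : ℝ => (σ, τ))).mono fun σ hσ => ⟨hσ, hτ⟩
  have hφ : TendstoUniformlyOn (fun n σ => ‖F n (σ, t) - F n (σ, t')‖)
      (fun σ => ‖G (σ, t) - G (σ, t')‖) atTop (Icc a (a + r)) :=
    uniformContinuous_norm.comp_tendstoUniformlyOn ((hsl t ht).sub (hsl t' ht'))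
  have hφc : ∀ n, Continuous (fun σ : ℝ => ‖F n (σ, t) - F n (σ, t')‖) := fun n => by
    have := hF n
    fun_prop
  have hGφ : ContinuousOn (fun σ : ℝ => ‖G (σ, t) - G (σ, t')‖) (Icc a (a + r)) :=
    hφ.continuousOn (Frequently.of_forall fun n => (hφc n).continuousOn)
  have hlim : Tendsto (fun n => ∫ σ in a..a + r, ‖F n (σ, t) - F n (σ, t')‖) atTop
      (𝓝 (∫ σ in a..a + r, ‖G (σ, t) - G (σ, t')‖)) := by
    apply TendstoUniformlyOn.tendsto_intervalIntegral_of_continuousOn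
    · exact Eventually.of_forall fun n => (hφc n).continuousOn
    · rwa [uIcc_of_le hab]
  have hle : ∀ n, (∫ σ in a..a + r, ‖F n (σ, t) - F n (σ, t')‖)
      ≤ ∫ x in Icc a (a + r) ×ˢ Icc b (b + r), ‖D n x‖ := by
    intro n
    have hint : IntegrableOn (fun x => ‖D n x‖) (Icc a (a + r) ×ˢ Icc b (b + r))
        ((volume : Measure ℝ).prod (volume : Measure ℝ)) :=
      (hD n).norm.continuousOn.integrableOn_compact (isCompact_Icc.prod isCompact_Icc)
    have hfub := setIntegral_prod (fun x => ‖D n x‖) hint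
    have hint2 : IntegrableOn (fun σ => ∫ τ in Icc b (b + r), ‖D n (σ, τ)‖) (Icc a (a + r)) := by
      have h1 := hint
      rw [IntegrableOn, ← Measure.prod_restrict] at h1
      exact h1.integral_prod_left
    rw [Measure.volume_eq_prod, hfub, intervalIntegral.integral_of_le hab,
      ← integral_Icc_eq_integral_Ioc]
    refine setIntegral_mono_on (hφc n).continuousOn.integrableOn_Icc hint2 measurableSet_Icc
      fun σ _ => ?_
    have hDc : Continuous (fun τ : ℝ => D n (σ, τ)) := by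
      have := hD n
      fun_prop
    have hftc := intervalIntegral.integral_eq_sub_of_hasDerivAt (a := t') (b := t)
      (fun τ _ => hd n σ τ) (hDc.intervalIntegrable _ _)
    rw [← hftc]
    refine (intervalIntegral.norm_integral_le_integral_norm_uIoc).trans ?_
    refine setIntegral_mono_set hDc.norm.continuousOn.integrableOn_Icc
      (Eventually.of_forall fun τ => norm_nonneg _) (LE.le.eventuallyLE ?_)
    exact uIoc_subset_uIcc.trans (uIcc_subset_Icc ht' ht)
  have h0 : (∫ σ in a..a + r, ‖G (σ, t) - G (σ, t')‖) = 0 :=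
    le_antisymm (le_of_tendsto_of_tendsto' hlim h hle)
      (intervalIntegral.integral_nonneg hab fun σ _ => norm_nonneg _)
  rw [intervalIntegral.integral_of_le hab, ← integral_Icc_eq_integral_Ioc,
    setIntegral_eq_zero_iff_of_nonneg_ae (Eventually.of_forall fun σ => norm_nonneg _)
      hGφ.integrableOn_Icc] at h0
  have h1 := Measure.eqOn_Icc_of_ae_eq volume (by linarith : a ≠ a + r) h0 hGφ continuousOn_const hs
  exact sub_eq_zero.1 (norm_eq_zero.1 h1)

theorem green_aux_d1 {Y : Type} [NormedAddCommGroup Y] [NormedSpace ℝ Y] {f : P → Y}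
    (hf : ContDiff ℝ 1 f) (s t : ℝ) : HasDerivAt (fun u => f (s, u)) (pd 1 f (s, t)) t := by
  have h1 : HasDerivAt (fun u : ℝ => ((s, u) : P)) (e2 1) t :=
    (hasDerivAt_const t s).prodMk (hasDerivAt_id t)
  exact ((hf.differentiable (by norm_num)) (s, t)).hasFDerivAt.comp_hasDerivAt t h1

theorem green_aux_d0 {Y : Type} [NormedAddCommGroup Y] [NormedSpace ℝ Y] {f : P → Y}
    (hf : ContDiff ℝ 1 f) (s t : ℝ) : HasDerivAt (fun u => f (u, s)) (pd 0 f (t, s)) t := by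
  have h1 : HasDerivAt (fun u : ℝ => ((u, s) : P)) (e2 0) t :=
    (hasDerivAt_id t).prodMk (hasDerivAt_const t s)
  exact ((hf.differentiable (by norm_num)) (t, s)).hasFDerivAt.comp_hasDerivAt t h1

/-- a uniform limit of functions whose gradients tend to zero in the mean is constant -/
theorem const_of_grad {Y : Type} [NormedAddCommGroup Y] [NormedSpace ℝ Y] [CompleteSpace Y]
    {f : ℕ → P → Y} {g : P → Y} {c : P} {r : ℝ} (hr : 0 < r) (hf : ∀ n, ContDiff ℝ 1 (f n))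
    (hu : TendstoUniformlyOn f g atTop (sqr c r))
    (h : ∀ i, Tendsto (fun n => ∫ x in sqr c r, ‖pd i (f n) x‖) atTop (𝓝 0)) :
    ∀ x ∈ sqr c r, ∀ y ∈ sqr c r, g x = g y := by
  have hsq : sqr c r = Icc c.1 (c.1 + r) ×ˢ Icc c.2 (c.2 + r) := by
    rw [sqr, Icc_prod_eq]
  rw [hsq] at hu h ⊢
  rintro ⟨x1, x2⟩ ⟨hx1, hx2⟩ ⟨y1, y2⟩ ⟨hy1, hy2⟩
  have hA : g (x1, x2) = g (x1, y2) :=
    green_aux_dir hr (fun n => (hf n).continuous) (fun n => green_aux_cont (hf n) 1)
      (fun n s t => green_aux_d1 (hf n) s t) hu (h 1) hx1 hx2 hy2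
  have hB : g (x1, y2) = g (y1, y2) := by
    refine green_aux_dir (F := fun n x => f n x.swap) (D := fun n x => pd 0 (f n) x.swap)
      (G := fun x => g x.swap) (a := c.2) (b := c.1) hr
      (fun n => (hf n).continuous.comp continuous_swap)
      (fun n => (green_aux_cont (hf n) 0).comp continuous_swap)
      (fun n s t => green_aux_d0 (hf n) s t)
      ((hu.comp Prod.swap).mono fun x hx => ⟨hx.2, hx.1⟩) ?_ hy2 hx1 hy1
    refine (h 0).congr fun n => ?_
    rw [Measure.volume_eq_prod]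
    exact (setIntegral_prod_swap _ _ (fun x => ‖pd 0 (f n) x‖)).symm
  exact hA.trans hB

end Pool.Agent.Bor
end
end

-- part Pool.Agent.P.MP_26ecb7_gt.Frame
section

noncomputable section
open Set Filter Topology MeasureTheory Metric
open scoped RealInnerProductSpace ContDiff ENNReal

namespace Pool.Agent.Bor

variable {X : Surf} {I : Iso X}

/-- the frame map applied to a vector -/
def Iso.Fr (I : Iso X) (y q : E) : E :=
  fderiv ℝ I.v q (y - ⟪y, X.nu q⟫ • X.nu q) + ⟪y, X.nu q⟫ • I.N q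

/-- convergence to zero in the mean -/
def FrameZ (K : Set P) (f : ℕ → P → ℝ) : Prop :=
  (∀ n, Continuous (f n)) ∧ Tendsto (fun n => ∫ x in K, |f n x|) atTop (𝓝 0)

theorem frame_gen {K : Set P} (hK : IsCompact K) {f u : ℕ → P → ℝ} (hf : FrameZ K f)
    (hu : ∀ n, Continuous (u n)) {C : ℝ} (h : ∀ᶠ n in atTop, ∀ x ∈ K, |u n x| ≤ C * |f n x|) :
    FrameZ K u := by
  refine ⟨hu, squeeze_zero' (g := fun n => C * ∫ x in K, |f n x|)
    (Eventually.of_forall fun n => integral_nonneg fun x => abs_nonneg _) ?_ ?_⟩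
  · filter_upwards [h] with n hn
    rw [← integral_const_mul]
    exact setIntegral_mono_on ((hu n).abs.continuousOn.integrableOn_compact hK)
      ((continuous_const.mul (hf.1 n).abs).continuousOn.integrableOn_compact hK)
      hK.measurableSet hn
  · simpa using hf.2.const_mul C

theorem frame_add {K : Set P} (hK : IsCompact K) {f g : ℕ → P → ℝ} (hf : FrameZ K f)
    (hg : FrameZ K g) : FrameZ K fun n x => f n x + g n x := by
  refine ⟨fun n => (hf.1 n).add (hg.1 n), squeeze_zero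
    (g := fun n => (∫ x in K, |f n x|) + ∫ x in K, |g n x|)
    (fun n => integral_nonneg fun x => abs_nonneg _) (fun n => ?_) ?_⟩
  · have h1 := (hf.1 n).abs.continuousOn.integrableOn_compact (μ := volume) hK
    have h2 := (hg.1 n).abs.continuousOn.integrableOn_compact (μ := volume) hK
    rw [← integral_add h1 h2]
    exact setIntegral_mono_on (((hf.1 n).add (hg.1 n)).abs.continuousOn.integrableOn_compact hK)
      (h1.add h2) hK.measurableSet fun x _ => abs_add_le _ _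
  · simpa using hf.2.add hg.2

theorem frame_abs {K : Set P} {f : ℕ → P → ℝ} (hf : FrameZ K f) :
    FrameZ K fun n x => |f n x| := ⟨fun n => (hf.1 n).abs, by simpa only [abs_abs] using hf.2⟩

theorem frame_bdd {Y : Type} [NormedAddCommGroup Y] {K : Set P} (hK : IsCompact K)
    {g : ℕ → P → Y} {g0 : P → Y} (h : TendstoUniformlyOn g g0 atTop K) (h0 : Continuous g0) :
    ∃ C : ℝ, ∀ᶠ n in atTop, ∀ x ∈ K, ‖g n x‖ ≤ C := by
  obtain ⟨C, hC⟩ := hK.exists_bound_of_continuousOn h0.continuousOn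
  refine ⟨C + 1, ?_⟩
  filter_upwards [Metric.tendstoUniformlyOn_iff.1 h 1 one_pos] with n hn x hx
  have h1 := hn x hx
  rw [dist_eq_norm'] at h1
  have h2 := norm_le_insert' (g n x) (g0 x)
  have h3 := hC x hx
  linarith

theorem frame_mul {K : Set P} (hK : IsCompact K) {f g : ℕ → P → ℝ} (hf : FrameZ K f)
    (hg : ∀ n, Continuous (g n)) (h : ∃ C : ℝ, ∀ᶠ n in atTop, ∀ x ∈ K, ‖g n x‖ ≤ C) :
    FrameZ K fun n x => g n x * f n x := by
  obtain ⟨C, hC⟩ := h
  refine frame_gen hK hf (fun n => (hg n).mul (hf.1 n)) (C := C) ?_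
  filter_upwards [hC] with n hn x hx
  rw [abs_mul]
  exact mul_le_mul_of_nonneg_right (hn x hx) (abs_nonneg _)

theorem frame_cmul {K : Set P} (hK : IsCompact K) {f : ℕ → P → ℝ} (hf : FrameZ K f) {a : P → ℝ}
    (ha : Continuous a) : FrameZ K fun n x => a x * f n x :=
  frame_mul hK hf (fun _ => ha) (frame_bdd hK (tu_const a) ha)

theorem frame_unif {K : Set P} (hK : IsCompact K) {g : ℕ → P → ℝ} {g0 : P → ℝ}
    (h : TendstoUniformlyOn g g0 atTop K) (hg : ∀ n, Continuous (g n)) (h0 : Continuous g0) :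
    FrameZ K fun n x => g n x - g0 x := by
  refine ⟨fun n => (hg n).sub h0, Metric.tendsto_nhds.2 fun ε hε => ?_⟩
  have hv : 0 ≤ volume.real K := measureReal_nonneg
  have hδ : 0 < ε / (volume.real K + 1) := by positivity
  filter_upwards [Metric.tendstoUniformlyOn_iff.1 h _ hδ] with n hn
  rw [dist_zero_right]
  refine (norm_setIntegral_le_of_norm_le_const (C := ε / (volume.real K + 1)) hK.measure_lt_top
    fun x hx => ?_).trans_lt ?_
  · have h1 := hn x hx
    rw [Real.dist_eq, abs_sub_comm] at h1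
    rw [Real.norm_eq_abs, abs_abs]
    exact h1.le
  · rw [div_mul_eq_mul_div, div_lt_iff₀ (by positivity)]
    nlinarith

theorem frame_smul {K : Set P} (hK : IsCompact K) {f : ℕ → P → E} {f0 : P → E}
    (h : TendstoUniformlyOn f f0 atTop K) {a : P → ℝ} (ha : Continuous a) :
    TendstoUniformlyOn (fun n x => a x • f n x) (fun x => a x • f0 x) atTop K := by
  obtain ⟨C, hC⟩ := hK.exists_bound_of_continuousOn ha.continuousOn
  refine Metric.tendstoUniformlyOn_iff.2 fun ε hε => ?_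
  have hδ : 0 < ε / (|C| + 1) := by positivity
  filter_upwards [Metric.tendstoUniformlyOn_iff.1 h _ hδ] with n hn x hx
  rw [dist_smul₀]
  have h1 := hn x hx
  rw [lt_div_iff₀ (by positivity)] at h1
  have h2 := (hC x hx).trans (le_abs_self C)
  have h3 : 0 ≤ dist (f0 x) (f n x) := dist_nonneg
  nlinarith

/-- a vector field along a surface with given coefficients -/
def frameF (ξ : Fin 2 → P → ℝ) (η : P → ℝ) (w : P → E) (x : P) : E :=
  ξ 0 x • pd 0 w x + ξ 1 x • pd 1 w x + η x • un w x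

section
variable {ξ : Fin 2 → P → ℝ} {η : P → ℝ} {w : P → E}

theorem frame_sm (hξ : ∀ k, ContDiff ℝ ∞ (ξ k)) (hη : ContDiff ℝ ∞ η) (hw : Imm w) :
    ContDiff ℝ ∞ (frameF ξ η w) :=
  (((hξ 0).smul (contDiff_pd hw.1 0)).add ((hξ 1).smul (contDiff_pd hw.1 1))).add
    (hη.smul hw.sm_un)

theorem frame_pd (hξ : ∀ k, ContDiff ℝ ∞ (ξ k)) (hη : ContDiff ℝ ∞ η) (hw : Imm w) (i : Fin 2)
    (x : P) : pd i (frameF ξ η w) x =
      (ξ 0 x • pd i (pd 0 w) x + pd i (ξ 0) x • pd 0 w x) +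
        (ξ 1 x • pd i (pd 1 w) x + pd i (ξ 1) x • pd 1 w x) +
          (η x • pd i (un w) x + pd i η x • un w x) := by
  have d1 := fun k => ((hξ k).differentiable (by simp) x).hasFDerivAt
  have d2 := fun k => ((contDiff_pd hw.1 k).differentiable (by simp) x).hasFDerivAt
  have d3 := (hη.differentiable (by simp) x).hasFDerivAt
  have d4 := (hw.sm_un.differentiable (by simp) x).hasFDerivAt
  have h : HasFDerivAt (frameF ξ η w) _ x :=
    (((d1 0).fun_smul (d2 0)).fun_add ((d1 1).fun_smul (d2 1))).fun_add (d3.fun_smul d4)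
  rw [pd, h.fderiv]
  rfl

theorem frame_T (hξ : ∀ k, ContDiff ℝ ∞ (ξ k)) (hη : ContDiff ℝ ∞ η) (hw : Imm w) (i j : Fin 2)
    (x : P) : ⟪pd i (frameF ξ η w) x, pd j w x⟫ =
      pd i (ξ 0) x * gm w 0 j x + pd i (ξ 1) x * gm w 1 j x + ξ 0 x * ch w i 0 j x +
        ξ 1 x * ch w i 1 j x + η x * sf w i j x := by
  rw [frame_pd hξ hη hw]
  simp only [inner_add_left, real_inner_smul_left, un_pd, gm, ch, sf]
  ring

theorem frame_N (hξ : ∀ k, ContDiff ℝ ∞ (ξ k)) (hη : ContDiff ℝ ∞ η) (hw : Imm w) (i : Fin 2)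
    (x : P) : ⟪pd i (frameF ξ η w) x, un w x⟫ =
      pd i η x - ξ 0 x * sf w i 0 x - ξ 1 x * sf w i 1 x := by
  rw [frame_pd hξ hη hw, real_inner_comm]
  simp only [inner_add_right, real_inner_smul_right, un_pd, hw.un_pd_un, hw.sf_eq,
    real_inner_self_eq_norm_sq, hw.norm_un]
  ring

theorem frame_norm (hw : Imm w) (x : P) (v : E) : ‖v‖ ≤ |⟪v, un w x⟫| +
    (|‖pd 0 w x‖ * (gi w 0 0 x * ⟪v, pd 0 w x⟫ + gi w 0 1 x * ⟪v, pd 1 w x⟫)| +
      |‖pd 1 w x‖ * (gi w 1 0 x * ⟪v, pd 0 w x⟫ + gi w 1 1 x * ⟪v, pd 1 w x⟫)|) := by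
  have h := hw.vec_exp x v
  simp only [Fin.sum_univ_two] at h
  refine (le_of_eq (congrArg norm h)).trans ((norm_add_le _ _).trans (add_le_add ?_
    ((norm_add_le _ _).trans (add_le_add ?_ ?_))))
  · rw [norm_smul, hw.norm_un, mul_one, Real.norm_eq_abs]
  · rw [norm_smul, abs_mul, abs_norm, mul_comm, Real.norm_eq_abs]
  · rw [norm_smul, abs_mul, abs_norm, mul_comm, Real.norm_eq_abs]

end

/-- if the second forms converge in the mean on a square, the frame map is constant there -/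
theorem Appr.frame_const (A : Appr I) (R : Rot) {c : P} {r : ℝ} (hr : 0 < r)
    (h : Tendsto (fun n => ∫ x in sqr c r,
      ab (fun i j => sf (A.w R n) i j x - sf (X.psi R) i j x)) atTop (𝓝 0)) (y : E) :
    ∀ x ∈ sqr c r, ∀ x' ∈ sqr c r, I.Fr y (X.psi R x) = I.Fr y (X.psi R x') := by
  have hK := sqr_compact c r
  have hp := X.imm_psi R
  have hw := A.imm_w R
  obtain ⟨ξ, hξe⟩ : ∃ ξ : Fin 2 → P → ℝ,
      ξ = fun k x => ∑ l, gi (X.psi R) k l x * ⟪y, pd l (X.psi R) x⟫ := ⟨_, rfl⟩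
  obtain ⟨η, hηe⟩ : ∃ η : P → ℝ, η = fun x => ⟪y, un (X.psi R) x⟫ := ⟨_, rfl⟩
  have hξ : ∀ k, ContDiff ℝ ∞ (ξ k) := fun k => by
    rw [hξe]
    exact ContDiff.sum fun l _ => (hp.sm_gi k l).mul (contDiff_const.inner ℝ (contDiff_pd hp.1 l))
  have hη : ContDiff ℝ ∞ η := by
    rw [hηe]
    exact contDiff_const.inner ℝ hp.sm_un
  have hy : ∀ x, frameF ξ η (X.psi R) x = y := fun x => by
    have h1 := hp.vec_exp x y
    rw [Fin.sum_univ_two, add_comm] at h1
    rw [frameF, hξe, hηe]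
    exact h1.symm
  have hz : ∀ i x, pd i (frameF ξ η (X.psi R)) x = 0 := fun i x => by
    rw [show frameF ξ η (X.psi R) = fun _ => y from funext hy, pd]
    simp
  have hG : ∀ x, I.Fr y (X.psi R x) =
      ξ 0 x • pd 0 (I.w R) x + ξ 1 x • pd 1 (I.w R) x + η x • I.n R x := fun x => by
    have h1 : η x = ⟪y, X.nu (X.psi R x)⟫ := by rw [hηe, ← X.un_psi]
    have h2 : y - η x • X.nu (X.psi R x) = ξ 0 x • pd 0 (X.psi R) x + ξ 1 x • pd 1 (X.psi R) x := by
      rw [sub_eq_iff_eq_add, ← X.un_psi]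
      exact (hy x).symm
    rw [Iso.Fr, ← h1, h2, map_add, map_smul, map_smul, I.pd_w, I.pd_w,
      I.fderiv_V_tang (X.psi_mem R x) (X.tang_psi R 0 x),
      I.fderiv_V_tang (X.psi_mem R x) (X.tang_psi R 1 x)]
    rfl
  have hab : FrameZ (sqr c r) fun n x =>
      ab (fun i j => sf (A.w R n) i j x - sf (X.psi R) i j x) := by
    have hc : ∀ n i j, Continuous fun x => |sf (A.w R n) i j x - sf (X.psi R) i j x| :=
      fun n i j => (((hw n).sm_sf i j).continuous.sub (hp.sm_sf i j).continuous).abs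
    refine ⟨fun n => (((hc n 0 0).add (hc n 0 1)).add (hc n 1 0)).add (hc n 1 1), ?_⟩
    refine h.congr fun n => integral_congr_ae (Eventually.of_forall fun x => ?_)
    exact (abs_of_nonneg (by unfold ab; positivity)).symm
  have hB : ∀ i j, FrameZ (sqr c r) fun n x => sf (A.w R n) i j x - sf (X.psi R) i j x := by
    intro i j
    refine frame_gen hK hab
      (fun n => ((hw n).sm_sf i j).continuous.sub (hp.sm_sf i j).continuous) (C := 1)
      (Eventually.of_forall fun n x _ => ?_)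
    rw [one_mul]
    refine le_trans ?_ (le_abs_self _)
    have a1 := abs_nonneg (sf (A.w R n) 0 0 x - sf (X.psi R) 0 0 x)
    have a2 := abs_nonneg (sf (A.w R n) 0 1 x - sf (X.psi R) 0 1 x)
    have a3 := abs_nonneg (sf (A.w R n) 1 0 x - sf (X.psi R) 1 0 x)
    have a4 := abs_nonneg (sf (A.w R n) 1 1 x - sf (X.psi R) 1 1 x)
    unfold ab
    fin_cases i <;> fin_cases j <;> simp only [Fin.zero_eta, Fin.mk_one, Fin.isValue] <;> linarith
  have hgm := fun i j => frame_unif hK (A.gm_conv R hK i j)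
    (fun n => ((hw n).sm_gm i j).continuous) (hp.sm_gm i j).continuous
  have hch := fun i j k => frame_unif hK (A.ch_conv R hK i j k)
    (fun n => ((hw n).sm_ch i j k).continuous) (hp.sm_ch i j k).continuous
  have cξ := fun k => (hξ k).continuous
  have cd := fun i k => (contDiff_pd (hξ k) i).continuous
  have hT : ∀ i j, FrameZ (sqr c r) fun n x =>
      ⟪pd i (frameF ξ η (A.w R n)) x, pd j (A.w R n) x⟫ := by
    intro i j
    have h1 := frame_add hK (frame_add hK (frame_add hK (frame_add hK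
      (frame_cmul hK (hgm 0 j) (cd i 0)) (frame_cmul hK (hgm 1 j) (cd i 1)))
      (frame_cmul hK (hch i 0 j) (cξ 0))) (frame_cmul hK (hch i 1 j) (cξ 1)))
      (frame_cmul hK (hB i j) hη.continuous)
    refine (congrArg (FrameZ (sqr c r)) (funext fun n => funext fun x => ?_)).mp h1
    have h2 := frame_T hξ hη hp i j x
    rw [hz, inner_zero_left] at h2
    rw [frame_T hξ hη (hw n)]
    linear_combination h2
  have hN : ∀ i, FrameZ (sqr c r) fun n x => ⟪pd i (frameF ξ η (A.w R n)) x, un (A.w R n) x⟫ := by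
    intro i
    have h1 := frame_add hK (frame_cmul hK (hB i 0) (cξ 0).neg) (frame_cmul hK (hB i 1) (cξ 1).neg)
    refine (congrArg (FrameZ (sqr c r)) (funext fun n => funext fun x => ?_)).mp h1
    have h2 := frame_N hξ hη hp i x
    rw [hz, inner_zero_left] at h2
    rw [frame_N hξ hη (hw n)]
    simp only [Pi.neg_apply]
    linear_combination h2
  have cI : ∀ k, Continuous (pd k (I.w R)) := fun k =>
    ((I.w_c1 R).continuous_fderiv (by simp)).clm_apply continuous_const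
  have hgi := fun k l {f : ℕ → P → ℝ} (hf : FrameZ (sqr c r) f) => frame_mul hK hf
    (fun n => ((hw n).sm_gi k l).continuous)
    (frame_bdd hK (A.gi_conv R hK k l) (hp.sm_gi k l).continuous)
  have hpd := fun k {f : ℕ → P → ℝ} (hf : FrameZ (sqr c r) f) => frame_mul hK hf
    (g := fun n x => ‖pd k (A.w R n) x‖) (fun n => (contDiff_pd (hw n).1 k).continuous.norm)
    (by simpa only [norm_norm] using frame_bdd hK (A.pd_conv R hK k) (cI k))
  have key := const_of_grad (f := fun n => frameF ξ η (A.w R n))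
    (g := fun x => ξ 0 x • pd 0 (I.w R) x + ξ 1 x • pd 1 (I.w R) x + η x • I.n R x) hr
    (fun n => (frame_sm hξ hη (hw n)).of_le (by exact_mod_cast le_top))
    (((frame_smul hK (A.pd_conv R hK 0) (cξ 0)).add (frame_smul hK (A.pd_conv R hK 1) (cξ 1))).add
      (frame_smul hK (A.un_conv R).tendstoUniformlyOn hη.continuous)) fun i => by
      have h1 := frame_add hK (frame_abs (hN i)) (frame_add hK
        (frame_abs (hpd 0 (frame_add hK (hgi 0 0 (hT i 0)) (hgi 0 1 (hT i 1)))))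
        (frame_abs (hpd 1 (frame_add hK (hgi 1 0 (hT i 0)) (hgi 1 1 (hT i 1))))))
      have h2 := frame_gen hK h1 (u := fun n x => ‖pd i (frameF ξ η (A.w R n)) x‖)
        (fun n => (contDiff_pd (frame_sm hξ hη (hw n)) i).continuous.norm) (C := 1)
        (Eventually.of_forall fun n x _ => by
          rw [one_mul, abs_norm]
          exact (frame_norm (hw n) x _).trans (le_abs_self _))
      simpa only [abs_norm] using h2.2
  intro x hx x' hx'
  rw [hG, hG]
  exact key x hx x' hx'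

end Pool.Agent.Bor
end
end

-- part Pool.Agent.P.MP_26ecb7_gt.Young0
section

noncomputable section
open Set Filter Topology MeasureTheory Metric
open scoped RealInnerProductSpace ContDiff ENNReal

namespace Pool.Agent.Bor

theorem young0_two {a : ℝ} (ha : 1 / 2 < a) : (2 : ℝ) < 2 ^ (2 * a) := by
  have h := Real.rpow_lt_rpow_of_exponent_lt (by norm_num : (1 : ℝ) < 2)
    (show (1 : ℝ) < 2 * a by linarith)
  rwa [Real.rpow_one] at h

theorem yc_pos {a : ℝ} (ha : 1 / 2 < a) : 0 < yc a := by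
  have := young0_two ha
  unfold yc
  exact one_div_pos.mpr (by linarith)

/-- Young - Loeve inequality -/
theorem young {Y : Type} [NormedAddCommGroup Y] [InnerProductSpace ℝ Y] {a : ℝ} (ha : 1 / 2 < a)
    {f g g' : ℝ → Y} {s t Mf Mg : ℝ} (hst : s ≤ t) (hMf : 0 ≤ Mf) (hMg : 0 ≤ Mg)
    (hf : ContinuousOn f (Icc s t)) (hg : ∀ x ∈ Icc s t, HasDerivAt g (g' x) x)
    (hg' : ContinuousOn g' (Icc s t))
    (hf1 : ∀ x ∈ Icc s t, ∀ y ∈ Icc s t, ‖f x - f y‖ ≤ Mf * |x - y| ^ a)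
    (hg1 : ∀ x ∈ Icc s t, ∀ y ∈ Icc s t, ‖g x - g y‖ ≤ Mg * |x - y| ^ a) :
    |∫ x in s..t, ⟪f x - f s, g' x⟫| ≤ yc a * Mf * Mg * (t - s) ^ (2 * a) := by
  have ha0 : 0 < a := by linarith
  have hy := yc_pos ha
  have h2 := young0_two ha
  obtain ⟨G, hG⟩ := isCompact_Icc.exists_bound_of_continuousOn hg'
  have hG0 : 0 ≤ G := (norm_nonneg _).trans (hG s ⟨le_rfl, hst⟩)
  obtain ⟨r, hr⟩ : ∃ r : ℝ, r = ((2 : ℝ) ^ a)⁻¹ := ⟨_, rfl⟩
  have h2a : (1 : ℝ) < 2 ^ a := Real.one_lt_rpow (by norm_num) ha0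
  have hr0 : 0 < r := by rw [hr]; positivity
  have hr1 : r < 1 := by rw [hr]; exact inv_lt_one_of_one_lt₀ h2a
  have hint : ∀ (c : Y) (u v : ℝ), s ≤ u → u ≤ v → v ≤ t →
      IntervalIntegrable (fun x => ⟪f x - c, g' x⟫) volume u v := fun c u v h1 h2 h3 => by
    refine ContinuousOn.intervalIntegrable_of_Icc h2 ?_
    exact (ContinuousOn.inner (𝕜 := ℝ) (hf.sub continuousOn_const) hg').mono (Icc_subset_Icc h1 h3)
  have hint' : ∀ (c : Y) (u v : ℝ), s ≤ u → u ≤ v → v ≤ t →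
      IntervalIntegrable (fun x => ⟪c, g' x⟫) volume u v := fun c u v h1 h2 h3 => by
    refine ContinuousOn.intervalIntegrable_of_Icc h2 ?_
    exact (ContinuousOn.inner (𝕜 := ℝ) continuousOn_const hg').mono (Icc_subset_Icc h1 h3)
  have key : ∀ k : ℕ, ∀ u v, s ≤ u → u ≤ v → v ≤ t → |∫ x in u..v, ⟪f x - f u, g' x⟫| ≤
      yc a * Mf * Mg * (v - u) ^ (2 * a) + Mf * G * ((v - u) ^ a * (v - u)) * r ^ k := by
    intro k
    induction k with
    | zero =>
      intro u v h1 h2 h3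
      have hL : 0 ≤ v - u := by linarith
      have h4 := intervalIntegral.norm_integral_le_of_norm_le_const (a := u) (b := v)
        (f := fun x => ⟪f x - f u, g' x⟫) (C := Mf * (v - u) ^ a * G) fun x hx => by
          rw [uIoc_of_le h2] at hx
          have hx' : x ∈ Icc s t := ⟨h1.trans hx.1.le, hx.2.trans h3⟩
          refine (norm_inner_le_norm _ _).trans (mul_le_mul ?_ (hG x hx') (norm_nonneg _)
            (by positivity))
          refine (hf1 x hx' u ⟨h1, h2.trans h3⟩).trans ?_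
          rw [abs_of_nonneg (by linarith [hx.1])]
          exact mul_le_mul_of_nonneg_left
            (Real.rpow_le_rpow (by linarith [hx.1]) (by linarith [hx.2]) ha0.le) hMf
      rw [Real.norm_eq_abs, abs_of_nonneg hL] at h4
      have h5 : 0 ≤ yc a * Mf * Mg * (v - u) ^ (2 * a) := by positivity
      linarith
    | succ k ih =>
      intro u v h1 h2' h3
      obtain ⟨h, hh⟩ : ∃ h, h = (v - u) / 2 := ⟨_, rfl⟩
      have hh0 : 0 ≤ h := by linarith
      have hum : u ≤ u + h := by linarith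
      have hmv : u + h ≤ v := by linarith
      have hsm : s ≤ u + h := by linarith
      have hmt : u + h ≤ t := by linarith
      have i1 := ih u (u + h) h1 hum hmt
      have i2 := ih (u + h) v hsm hmv h3
      rw [show u + h - u = h by ring] at i1
      rw [show v - (u + h) = h by linarith] at i2
      have e1 : ∫ x in (u + h)..v, ⟪f (u + h) - f u, g' x⟫ =
          ⟪f (u + h) - f u, g v - g (u + h)⟫ := by
        rw [inner_sub_right]
        refine intervalIntegral.integral_eq_sub_of_hasDerivAt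
          (f := fun x => ⟪f (u + h) - f u, g x⟫) (fun x hx => ?_) (hint' _ _ _ hsm hmv h3)
        rw [uIcc_of_le hmv] at hx
        have := (hasDerivAt_const x (f (u + h) - f u)).inner ℝ
          (hg x ⟨hsm.trans hx.1, hx.2.trans h3⟩)
        simpa using this
      have e2 : ∫ x in u..v, ⟪f x - f u, g' x⟫ = (∫ x in u..(u + h), ⟪f x - f u, g' x⟫) +
          (∫ x in (u + h)..v, ⟪f x - f (u + h), g' x⟫) + ⟪f (u + h) - f u, g v - g (u + h)⟫ := by
        rw [← e1, add_assoc, ← intervalIntegral.integral_add (hint _ _ _ hsm hmv h3)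
          (hint' _ _ _ hsm hmv h3), ← intervalIntegral.integral_add_adjacent_intervals
          (hint _ _ _ h1 hum hmt) (hint _ _ _ hsm hmv h3)]
        congr 2
        funext x
        rw [← inner_add_left, sub_add_sub_cancel]
      have e3 : |⟪f (u + h) - f u, g v - g (u + h)⟫| ≤ Mf * Mg * h ^ (2 * a) := by
        have b1 := hf1 (u + h) ⟨hsm, hmt⟩ u ⟨h1, h2'.trans h3⟩
        have b2 := hg1 v ⟨h1.trans h2', h3⟩ (u + h) ⟨hsm, hmt⟩
        rw [show u + h - u = h by ring, abs_of_nonneg hh0] at b1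
        rw [show v - (u + h) = h by linarith, abs_of_nonneg hh0] at b2
        refine (abs_real_inner_le_norm _ _).trans
          ((mul_le_mul b1 b2 (norm_nonneg _) (by positivity)).trans (le_of_eq ?_))
        rw [two_mul, Real.rpow_add_of_nonneg hh0 ha0.le ha0.le]
        ring
      have e4 : (v - u) ^ (2 * a) = 2 ^ (2 * a) * h ^ (2 * a) := by
        rw [← Real.mul_rpow (by norm_num) hh0]; congr 1; linarith
      have e5 : (v - u) ^ a = 2 ^ a * h ^ a := by
        rw [← Real.mul_rpow (by norm_num) hh0]; congr 1; linarith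
      have e6 : yc a * 2 ^ (2 * a) = 2 * yc a + 1 := by
        have : (2 : ℝ) ^ (2 * a) - 2 ≠ 0 := by linarith
        unfold yc
        field_simp
        ring
      have e7 : 2 ^ a * r = 1 := by rw [hr]; exact mul_inv_cancel₀ (by positivity)
      have e8 : v - u = 2 * h := by linarith
      have e9 : yc a * Mf * Mg * (v - u) ^ (2 * a) +
          Mf * G * ((v - u) ^ a * (v - u)) * r ^ (k + 1) =
          (yc a * 2 ^ (2 * a)) * (Mf * Mg * h ^ (2 * a)) +
            (2 ^ a * r) * (2 * (Mf * G * (h ^ a * h) * r ^ k)) := by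
        rw [e4, e5, e8]; ring
      rw [e9, e6, e7, e2]
      refine (abs_add_three _ _ _).trans ?_
      linarith
  have lim : Tendsto (fun k : ℕ => yc a * Mf * Mg * (t - s) ^ (2 * a) +
      Mf * G * ((t - s) ^ a * (t - s)) * r ^ k) atTop
      (𝓝 (yc a * Mf * Mg * (t - s) ^ (2 * a) + Mf * G * ((t - s) ^ a * (t - s)) * 0)) :=
    ((tendsto_pow_atTop_nhds_zero_of_lt_one hr0.le hr1).const_mul _).const_add _
  rw [mul_zero, add_zero] at lim
  exact ge_of_tendsto' lim fun k => key k s t le_rfl hst le_rfl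

/-- scalar form with the boundary term -/
theorem young_real {a : ℝ} (ha : 1 / 2 < a)
    {f g g' : ℝ → ℝ} {s t Mf Mg : ℝ} (hst : s ≤ t) (hMf : 0 ≤ Mf) (hMg : 0 ≤ Mg)
    (hf : ContinuousOn f (Icc s t)) (hg : ∀ x ∈ Icc s t, HasDerivAt g (g' x) x)
    (hg' : ContinuousOn g' (Icc s t))
    (hf1 : ∀ x ∈ Icc s t, ∀ y ∈ Icc s t, |f x - f y| ≤ Mf * |x - y| ^ a)
    (hg1 : ∀ x ∈ Icc s t, ∀ y ∈ Icc s t, |g x - g y| ≤ Mg * |x - y| ^ a) :
    |∫ x in s..t, f x * g' x| ≤ yc a * Mf * Mg * (t - s) ^ (2 * a) + |f s| * (Mg * (t - s) ^ a) := by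
  have h1 := young (Y := ℝ) ha hst hMf hMg hf hg hg' hf1 hg1
  have i1 : IntervalIntegrable g' volume s t := hg'.intervalIntegrable_of_Icc hst
  have i2 : IntervalIntegrable (fun x => ⟪f x - f s, g' x⟫) volume s t :=
    (ContinuousOn.inner (𝕜 := ℝ) (hf.sub continuousOn_const) hg').intervalIntegrable_of_Icc hst
  have e1 : ∫ x in s..t, g' x = g t - g s :=
    intervalIntegral.integral_eq_sub_of_hasDerivAt
      (fun x hx => hg x (by rwa [uIcc_of_le hst] at hx)) i1
  have e2 : ∫ x in s..t, f x * g' x =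
      (∫ x in s..t, ⟪f x - f s, g' x⟫) + f s * (g t - g s) := by
    rw [← e1, ← intervalIntegral.integral_const_mul,
      ← intervalIntegral.integral_add i2 (i1.const_mul _)]
    congr 1
    funext x
    simp only [RCLike.inner_apply, conj_trivial]
    ring
  have h2 := hg1 t ⟨hst, le_rfl⟩ s ⟨le_rfl, hst⟩
  rw [abs_of_nonneg (sub_nonneg.mpr hst)] at h2
  rw [e2]
  refine (abs_add_le _ _).trans (add_le_add h1 ?_)
  rw [abs_mul]
  exact mul_le_mul_of_nonneg_left h2 (abs_nonneg _)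

end Pool.Agent.Bor
end
end

-- part Pool.Agent.P.MP_26ecb7_gt.Young
section

noncomputable section
open Set Filter Topology MeasureTheory Metric
open scoped RealInnerProductSpace ContDiff ENNReal NNReal

namespace Pool.Agent.Bor

lemma young_dim_vert (u : ℝ) : dimH (range fun t : ℝ => ((u, t) : P)) ≤ 1 := by
  have h : LipschitzWith 1 (fun t : ℝ => ((u, t) : P)) := LipschitzWith.prodMk_left u
  exact h.dimH_range_le.trans Real.dimH_univ.le

lemma young_dim_hor (u : ℝ) : dimH (range fun t : ℝ => ((t, u) : P)) ≤ 1 := by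
  have h : LipschitzWith 1 (fun t : ℝ => ((t, u) : P)) := LipschitzWith.prodMk_right u
  exact h.dimH_range_le.trans Real.dimH_univ.le

lemma young_sqr_eq (c : P) (r : ℝ) : sqr c r = Icc c.1 (c.1 + r) ×ˢ Icc c.2 (c.2 + r) := by
  unfold sqr
  rw [Icc_prod_eq]

lemma young_closed (c : P) (r : ℝ) : IsClosed (sqr c r) := by
  rw [young_sqr_eq]
  exact isClosed_Icc.prod isClosed_Icc

lemma young_dim_frontier (c : P) {r : ℝ} (hr : 0 < r) : dimH (frontier (sqr c r)) ≤ 1 := by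
  have hsub : frontier (sqr c r) ⊆
      ((range fun t : ℝ => ((t, c.2) : P)) ∪ (range fun t : ℝ => ((t, c.2 + r) : P))) ∪
      ((range fun t : ℝ => ((c.1, t) : P)) ∪ (range fun t : ℝ => ((c.1 + r, t) : P))) := by
    rw [young_sqr_eq, frontier_prod_eq, frontier_Icc (by linarith), frontier_Icc (by linarith)]
    rintro ⟨x, y⟩ (⟨-, h⟩ | ⟨h, -⟩)
    · rcases h with h | h
      · exact Or.inl (Or.inl ⟨x, by simp only at h; rw [h]⟩)
      · exact Or.inl (Or.inr ⟨x, by simp only [mem_singleton_iff] at h; rw [h]⟩)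
    · rcases h with h | h
      · exact Or.inr (Or.inl ⟨y, by simp only at h; rw [h]⟩)
      · exact Or.inr (Or.inr ⟨y, by simp only [mem_singleton_iff] at h; rw [h]⟩)
  refine (dimH_mono hsub).trans ?_
  rw [dimH_union, dimH_union, dimH_union]
  exact max_le (max_le (young_dim_hor _) (young_dim_hor _))
    (max_le (young_dim_vert _) (young_dim_vert _))

/-- Hoelder images of boundaries of squares are null -/
theorem null_frontier {p : P → P} {c : P} {r M a : ℝ} (hr : 0 < r) (ha : 1 / 2 < a)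
    (h : ∀ x ∈ sqr c r, ∀ y ∈ sqr c r, dist (p x) (p y) ≤ M * dist x y ^ a) :
    volume (p '' frontier (sqr c r)) = 0 := by
  have ha0 : 0 < a := by linarith
  set A : ℝ≥0 := ⟨a, ha0.le⟩ with hA
  set C : ℝ≥0 := ⟨max M 0, le_max_right _ _⟩ with hC
  have hAa : (A : ℝ) = a := rfl
  have hCM : (C : ℝ) = max M 0 := rfl
  have hsub : frontier (sqr c r) ⊆ sqr c r := (young_closed c r).frontier_subset
  have hH : HolderOnWith C A p (frontier (sqr c r)) := by
    intro x hx y hy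
    have h1 := h x (hsub hx) y (hsub hy)
    have h2 : dist (p x) (p y) ≤ (C : ℝ) * dist x y ^ a :=
      h1.trans (mul_le_mul_of_nonneg_right (by rw [hCM]; exact le_max_left _ _)
        (Real.rpow_nonneg dist_nonneg _))
    rw [edist_dist, edist_dist, hAa, ENNReal.ofReal_rpow_of_nonneg dist_nonneg ha0.le,
      ← ENNReal.ofReal_coe_nnreal, ← ENNReal.ofReal_mul C.coe_nonneg]
    exact ENNReal.ofReal_le_ofReal h2
  have hApos : 0 < A := by
    rw [← NNReal.coe_lt_coe]; exact ha0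
  have hd := hH.dimH_image_le hApos
  have hlt : dimH (p '' frontier (sqr c r)) < ((2 : ℝ≥0) : ℝ≥0∞) := by
    refine lt_of_le_of_lt (hd.trans (ENNReal.div_le_div_right (young_dim_frontier c hr) _)) ?_
    rw [ENNReal.div_lt_iff (Or.inl (by exact_mod_cast hApos.ne')) (Or.inl ENNReal.coe_ne_top)]
    have : (1 : ℝ≥0) < 2 * A := by
      rw [← NNReal.coe_lt_coe]
      push_cast
      rw [hAa]; linarith
    exact_mod_cast this
  have h0 := hausdorffMeasure_of_dimH_lt hlt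
  rw [← hausdorffMeasure_prod_real]
  simpa using h0

end Pool.Agent.Bor
end
end

-- part Pool.Agent.P.MP_26ecb7_gt.Est
section

noncomputable section
open Set Filter Topology MeasureTheory Metric
open scoped RealInnerProductSpace ContDiff ENNReal

namespace Pool.Agent.Bor

theorem est_pos (y : P) : 0 < 1 + y.1 ^ 2 + y.2 ^ 2 := by positivity

theorem lam_pos (y : P) : 0 < lam y :=
  inv_pos.2 (mul_pos (est_pos y) (Real.sqrt_pos.2 (est_pos y)))
theorem lam_le_one (y : P) : lam y ≤ 1 := by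
  have h : 1 ≤ 1 + y.1 ^ 2 + y.2 ^ 2 := by nlinarith [sq_nonneg y.1, sq_nonneg y.2]
  exact inv_le_one_of_one_le₀ (one_le_mul_of_one_le_of_one_le h (Real.one_le_sqrt.2 h))
theorem lam_zero : lam 0 = 1 := by simp [lam]
theorem lam_swap (y : P) : lam y.swap = lam y := by
  simp only [lam, Prod.fst_swap, Prod.snd_swap, add_right_comm 1 (y.2 ^ 2)]

theorem est_sqrt : ContDiff ℝ ∞ fun y : P => √(1 + y.1 ^ 2 + y.2 ^ 2) :=
  ContDiff.sqrt (by fun_prop) fun y => (est_pos y).ne'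

theorem contDiff_lam : ContDiff ℝ ∞ lam :=
  (ContDiff.mul (by fun_prop) est_sqrt).inv fun y =>
    (mul_pos (est_pos y) (Real.sqrt_pos.2 (est_pos y))).ne'

theorem est_line {g : P → ℝ} {γ : ℝ → P} {i : Fin 2} {s : ℝ} (hg : DifferentiableAt ℝ g (γ s))
    (hγ : HasDerivAt γ (e2 i) s) : HasDerivAt (fun s => g (γ s)) (pd i g (γ s)) s :=
  hg.hasFDerivAt.comp_hasDerivAt s hγ

theorem est_h0 (t s : ℝ) : HasDerivAt (fun s : ℝ => ((s, t) : P)) (e2 0) s :=
  (hasDerivAt_id s).prodMk (hasDerivAt_const s t)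

theorem est_h1 (t s : ℝ) : HasDerivAt (fun s : ℝ => ((t, s) : P)) (e2 1) s :=
  (hasDerivAt_const s t).prodMk (hasDerivAt_id s)

theorem exists_Lam : ∃ L : P → ℝ, ContDiff ℝ ∞ L ∧ ∀ y, pd 0 L y = lam y := by
  have hL : ContDiff ℝ ∞ fun y : P => y.1 / ((1 + y.2 ^ 2) * √(1 + y.1 ^ 2 + y.2 ^ 2)) :=
    contDiff_fst.div (ContDiff.mul (by fun_prop) est_sqrt) fun y =>
      (mul_pos (by positivity) (Real.sqrt_pos.2 (est_pos y))).ne'
  refine ⟨_, hL, fun y => ?_⟩
  have h1 := est_line (γ := fun s => (s, y.2)) (hL.differentiable (by simp) _) (est_h0 y.2 y.1)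
  have hp := est_pos y
  have hs := Real.sqrt_pos.2 hp
  have h2 : HasDerivAt (fun s : ℝ => 1 + s ^ 2 + y.2 ^ 2) (2 * y.1) y.1 := by
    simpa using (((hasDerivAt_id y.1).pow 2).const_add 1).add_const (y.2 ^ 2)
  have h3 := (hasDerivAt_id y.1).div ((h2.sqrt hp.ne').const_mul (1 + y.2 ^ 2))
    (mul_pos (by positivity) hs).ne'
  rw [h1.unique h3, lam]
  have h4 := Real.sq_sqrt hp.le
  have h5 : (0 : ℝ) < 1 + y.2 ^ 2 := by positivity
  generalize √(1 + y.1 ^ 2 + y.2 ^ 2) = w at hs h4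
  rw [← h4]
  simp only [id]
  field_simp
  linarith

theorem est_lip {Y : Type} [NormedAddCommGroup Y] [NormedSpace ℝ Y] {f : P → Y}
    (hf : ContDiff ℝ ∞ f) (ρ : ℝ) : ∃ Λ : ℝ, 0 ≤ Λ ∧ ∀ y ∈ closedBall (0 : P) ρ,
      ∀ y' ∈ closedBall (0 : P) ρ, ‖f y - f y'‖ ≤ Λ * ‖y - y'‖ := by
  obtain ⟨C, hC⟩ := (isCompact_closedBall (0 : P) ρ).exists_bound_of_continuousOn
    (hf.continuous_fderiv (by simp)).continuousOn
  exact ⟨max C 0, le_max_right _ _, fun y hy y' hy' =>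
    (convex_closedBall _ _).norm_image_sub_le_of_norm_fderiv_le
      (fun x _ => hf.differentiable (by simp) x) (fun x hx => (hC x hx).trans (le_max_left _ _))
      hy' hy⟩

theorem est_edge {f g : P → ℝ} (hf : Continuous f) (hg : ContDiff ℝ ∞ g) {a r Mf Mg F0 u : ℝ}
    {c : P} (ha : 1 / 2 < a) (hr : 0 < r) (hMf : 0 ≤ Mf) (hMg : 0 ≤ Mg)
    (hf1 : ∀ x ∈ sqr c r, ∀ y ∈ sqr c r, |f x - f y| ≤ Mf * dist x y ^ a)
    (hg1 : ∀ x ∈ sqr c r, ∀ y ∈ sqr c r, |g x - g y| ≤ Mg * dist x y ^ a)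
    (hf0 : ∀ x ∈ sqr c r, |f x| ≤ F0) {γ : ℝ → P} {i : Fin 2} (hγ : ∀ s, HasDerivAt γ (e2 i) s)
    (hm : ∀ s ∈ Icc u (u + r), γ s ∈ sqr c r) (hd : ∀ s s', dist (γ s) (γ s') = |s - s'|) :
    |∫ s in u..u + r, f (γ s) * pd i g (γ s)| ≤
      yc a * Mf * Mg * r ^ (2 * a) + F0 * (Mg * r ^ a) := by
  have hc : Continuous γ := continuous_iff_continuousAt.2 fun s => (hγ s).continuousAt
  have h := young_real ha (f := fun s => f (γ s)) (g := fun s => g (γ s))
    (g' := fun s => pd i g (γ s)) (show u ≤ u + r by linarith) hMf hMg (hf.comp hc).continuousOn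
    (fun s _ => est_line (hg.differentiable (by simp) _) (hγ s))
    ((contDiff_pd hg i).continuous.comp hc).continuousOn
    (fun x hx y hy => hd x y ▸ hf1 _ (hm x hx) _ (hm y hy))
    (fun x hx y hy => hd x y ▸ hg1 _ (hm x hx) _ (hm y hy))
  rw [add_sub_cancel_left] at h
  refine h.trans (add_le_add le_rfl (mul_le_mul_of_nonneg_right (hf0 _ (hm u ⟨le_rfl, ?_⟩)) ?_))
  · linarith
  · positivity

theorem est_lp {f g : P → ℝ} (hf : Continuous f) (hg : ContDiff ℝ ∞ g) {a r Mf Mg F0 : ℝ}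
    {c : P} (ha : 1 / 2 < a) (hr : 0 < r) (hMf : 0 ≤ Mf) (hMg : 0 ≤ Mg)
    (hf1 : ∀ x ∈ sqr c r, ∀ y ∈ sqr c r, |f x - f y| ≤ Mf * dist x y ^ a)
    (hg1 : ∀ x ∈ sqr c r, ∀ y ∈ sqr c r, |g x - g y| ≤ Mg * dist x y ^ a)
    (hf0 : ∀ x ∈ sqr c r, |f x| ≤ F0) :
    |lp c r f g| ≤ 4 * (yc a * Mf * Mg * r ^ (2 * a) + F0 * (Mg * r ^ a)) := by
  have d0 : ∀ t s s' : ℝ, dist ((s, t) : P) (s', t) = |s - s'| := fun t s s' => by
    simp [Prod.dist_eq, Real.dist_eq]
  have d1 : ∀ t s s' : ℝ, dist ((t, s) : P) (t, s') = |s - s'| := fun t s s' => by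
    simp [Prod.dist_eq, Real.dist_eq]
  have l1 : c.1 ≤ c.1 + r := by linarith
  have l2 : c.2 ≤ c.2 + r := by linarith
  have h1 := est_edge hf hg ha hr hMf hMg hf1 hg1 hf0 (u := c.1) (est_h0 c.2)
    (fun s hs => mem_sqr.2 ⟨hs, le_rfl, l2⟩) (d0 _)
  have h2 := est_edge hf hg ha hr hMf hMg hf1 hg1 hf0 (u := c.2) (est_h1 (c.1 + r))
    (fun s hs => mem_sqr.2 ⟨⟨l1, le_rfl⟩, hs⟩) (d1 _)
  have h3 := est_edge hf hg ha hr hMf hMg hf1 hg1 hf0 (u := c.1) (est_h0 (c.2 + r))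
    (fun s hs => mem_sqr.2 ⟨hs, l2, le_rfl⟩) (d0 _)
  have h4 := est_edge hf hg ha hr hMf hMg hf1 hg1 hf0 (u := c.2) (est_h1 c.1)
    (fun s hs => mem_sqr.2 ⟨⟨le_rfl, l1⟩, hs⟩) (d1 _)
  rw [abs_le] at h1 h2 h3 h4 ⊢
  simp only [lp, loop]
  constructor <;> linarith [h1.1, h1.2, h2.1, h2.2, h3.1, h3.2, h4.1, h4.2]

theorem est_jac {F : P → ℝ} {p : P → P} {x : P} (hF : DifferentiableAt ℝ F (p x))
    (hp : DifferentiableAt ℝ p x) :
    jac (fun y => F (p y)) (fun y => (p y).2) x = pd 0 F (p x) * jp p x := by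
  have h1 : ∀ i, pd i (fun y => (p y).1) x = (pd i p x).1 := fun i => by
    simp only [pd]; rw [hp.hasFDerivAt.fst.fderiv]; rfl
  have h2 : ∀ i, pd i (fun y => (p y).2) x = (pd i p x).2 := fun i => by
    simp only [pd]; rw [hp.hasFDerivAt.snd.fderiv]; rfl
  have h3 : ∀ i, pd i (fun y => F (p y)) x =
      (pd i p x).1 * pd 0 F (p x) + (pd i p x).2 * pd 1 F (p x) := fun i => by
    have := fderiv_eq_pd F (p x) (pd i p x)
    simp only [smul_eq_mul] at this
    rw [← this]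
    exact congrArg (fun L : P →L[ℝ] ℝ => L (e2 i)) (fderiv_comp x hF hp)
  simp only [jp, jac, h1, h2, h3]
  ring

theorem est_norm_e2 (i : Fin 2) : ‖e2 i‖ = 1 := by fin_cases i <;> simp [e2]

/-- the function `U y - U (y0.1, y.2)` is quadratically small near `y0` -/
theorem est_F {U : P → ℝ} (hU : ContDiff ℝ ∞ U) {ρ Λ O : ℝ} {y0 : P} (hΛ : 0 ≤ Λ)
    (hl : ∀ y ∈ closedBall (0 : P) ρ, ∀ y' ∈ closedBall (0 : P) ρ,
      ‖fderiv ℝ U y - fderiv ℝ U y'‖ ≤ Λ * ‖y - y'‖) (h0 : pd 0 U y0 = 0)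
    (hy0 : y0 ∈ closedBall (0 : P) ρ) :
    ∃ F : P → ℝ, ContDiff ℝ ∞ F ∧ (∀ y, pd 0 F y = pd 0 U y) ∧ F y0 = 0 ∧
      ∀ y ∈ closedBall y0 O ∩ closedBall 0 ρ, ∀ y' ∈ closedBall y0 O ∩ closedBall 0 ρ,
        |F y - F y'| ≤ 2 * Λ * O * dist y y' := by
  have hd := hU.differentiable (by simp)
  have hF : ContDiff ℝ ∞ fun y : P => U y - U (y0.1, y.2) := hU.sub (hU.comp (by fun_prop))
  have e0 : ∀ y : P, pd 0 (fun y : P => U y - U (y0.1, y.2)) y = pd 0 U y := fun y => by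
    refine (est_line (γ := fun s => (s, y.2)) (hF.differentiable (by simp) _)
      (est_h0 y.2 y.1)).unique ?_
    exact (est_line (γ := fun s => (s, y.2)) (hd _) (est_h0 y.2 y.1)).sub_const (U (y0.1, y.2))
  have e1 : ∀ y : P, pd 1 (fun y : P => U y - U (y0.1, y.2)) y =
      pd 1 U y - pd 1 U (y0.1, y.2) := fun y => by
    refine (est_line (γ := fun s => (y.1, s)) (hF.differentiable (by simp) _)
      (est_h1 y.1 y.2)).unique ?_
    exact (est_line (γ := fun s => (y.1, s)) (hd _) (est_h1 y.1 y.2)).sub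
      (est_line (γ := fun s => (y0.1, s)) (hd _) (est_h1 y0.1 y.2))
  have hp : ∀ i, ∀ y ∈ closedBall (0 : P) ρ, ∀ y' ∈ closedBall (0 : P) ρ, dist y y' ≤ O →
      |pd i U y - pd i U y'| ≤ Λ * O := fun i y hy y' hy' h => by
    have := (fderiv ℝ U y - fderiv ℝ U y').le_opNorm (e2 i)
    rw [est_norm_e2, mul_one] at this
    rw [dist_eq_norm] at h
    exact this.trans ((hl y hy y' hy').trans (mul_le_mul_of_nonneg_left h hΛ))
  refine ⟨_, hF, e0, sub_self _, fun y hy y' hy' => ?_⟩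
  rw [dist_eq_norm]
  refine ((convex_closedBall _ _).inter (convex_closedBall _ _)).norm_image_sub_le_of_norm_fderiv_le
    (fun x _ => hF.differentiable (by simp) x) (fun x hx => ?_) hy' hy
  have hO : 0 ≤ O := dist_nonneg.trans hx.1
  refine ContinuousLinearMap.opNorm_le_bound _ (by positivity) fun u => ?_
  have h1 := hp 0 x hx.2 y0 hy0 hx.1
  have h2 := hp 1 x hx.2 (y0.1, x.2) (by
    rw [mem_closedBall_zero_iff] at hy0 ⊢
    exact max_le ((norm_fst_le y0).trans hy0)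
      ((norm_snd_le x).trans (mem_closedBall_zero_iff.1 hx.2))) (by
    refine le_trans ?_ hx.1
    rw [Prod.dist_eq, Prod.dist_eq, dist_self]
    exact max_le_max le_rfl dist_nonneg)
  rw [h0, sub_zero] at h1
  rw [fderiv_eq_pd, e0, e1]
  refine (norm_add_le _ _).trans ?_
  rw [norm_smul, norm_smul]
  have h3 := mul_le_mul (norm_fst_le u) h1 (abs_nonneg _) (norm_nonneg _)
  have h4 := mul_le_mul (norm_snd_le u) h2 (abs_nonneg _) (norm_nonneg _)
  simp only [Real.norm_eq_abs] at h3 h4 ⊢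
  linarith

/-- the anomaly on one square is cubic in the oscillation -/
theorem est {T : P → ℝ} (hT : ContDiff ℝ ∞ T) (ρ : ℝ) : ∃ K : ℝ, 0 ≤ K ∧
    ∀ (a : ℝ) (p : P → P) (κ : P → ℝ) (c : P) (r O M Kκ : ℝ), 1 / 2 < a → 0 < r → 0 ≤ O → 0 ≤ M →
      ContDiff ℝ ∞ p → Continuous κ → (∀ x ∈ sqr c r, |κ x| ≤ Kκ) → (∀ x ∈ sqr c r, ‖p x‖ ≤ ρ) →
      (∀ x ∈ sqr c r, ∀ y ∈ sqr c r, dist (p x) (p y) ≤ O ∧ dist (p x) (p y) ≤ M * dist x y ^ a) →
      |∫ x in sqr c r, pd 0 T (p x) / lam (p x) * (lam (p x) * jp p x - κ x)| ≤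
        K * |∫ x in sqr c r, (lam (p x) * jp p x - κ x)|
          + K * (1 + yc a) * (O * M ^ 2 * r ^ (2 * a)) + K * Kκ * (O * r ^ 2) := by
  obtain ⟨L, hL, hL0⟩ := exists_Lam
  have hφ : ContDiff ℝ ∞ fun y => pd 0 T y / lam y :=
    (contDiff_pd hT 0).div contDiff_lam fun y => (lam_pos y).ne'
  obtain ⟨Λ₁, h1, l1⟩ := est_lip (hT.fderiv_right (m := ∞) (by simp)) ρ
  obtain ⟨Λ₂, h2, l2⟩ := est_lip (hL.fderiv_right (m := ∞) (by simp)) ρ
  obtain ⟨Λ₃, h3, l3⟩ := est_lip hφ ρ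
  obtain ⟨S₀, hS₀⟩ := (isCompact_closedBall (0 : P) ρ).exists_bound_of_continuousOn
    hφ.continuous.continuousOn
  obtain ⟨S, hS, lS⟩ : ∃ S : ℝ, 0 ≤ S ∧ ∀ y ∈ closedBall (0 : P) ρ, |pd 0 T y / lam y| ≤ S :=
    ⟨max S₀ 0, le_max_right _ _, fun y hy => (hS₀ y hy).trans (le_max_left _ _)⟩
  refine ⟨S + 8 * (Λ₁ + S * Λ₂) + Λ₃, by positivity,
    fun a p κ c r O M Kκ ha hr hO hM hp hκ hK hρ hh => ?_⟩
  have hc : c ∈ sqr c r := mem_sqr.2 ⟨⟨le_rfl, by linarith⟩, le_rfl, by linarith⟩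
  have hB : ∀ x ∈ sqr c r, p x ∈ closedBall (0 : P) ρ := fun x hx =>
    mem_closedBall_zero_iff.2 (hρ x hx)
  have hK0 : 0 ≤ Kκ := (abs_nonneg _).trans (hK c hc)
  have hy := yc_pos ha
  generalize hΛ : Λ₁ + S * Λ₂ = Λ
  have hΛ0 : 0 ≤ Λ := by rw [← hΛ]; positivity
  set φ0 := pd 0 T (p c) / lam (p c) with hφ0
  have hf : ∀ y, fderiv ℝ (fun y => T y - φ0 * L y) y = fderiv ℝ T y - φ0 • fderiv ℝ L y :=
    fun y => ((hT.differentiable (by simp) y).hasFDerivAt.sub
      ((hL.differentiable (by simp) y).hasFDerivAt.const_mul φ0)).fderiv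
  have hU0 : ∀ y, pd 0 (fun y => T y - φ0 * L y) y = (pd 0 T y / lam y - φ0) * lam y := fun y => by
    rw [sub_mul, div_mul_cancel₀ _ (lam_pos y).ne', ← hL0, pd, hf]; rfl
  obtain ⟨F, hF, hF0, hF1, hF2⟩ := est_F (O := min O (M * r ^ a)) (y0 := p c)
    (hT.sub (contDiff_const.mul hL)) hΛ0 (fun y hy y' hy' => by
      rw [hf, hf, sub_sub_sub_comm, ← smul_sub φ0 (fderiv ℝ L y) (fderiv ℝ L y')]
      refine (norm_sub_le _ _).trans ?_
      rw [norm_smul, ← hΛ, add_mul, mul_assoc]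
      exact add_le_add (l1 y hy y' hy')
        (mul_le_mul (lS _ (hB c hc)) (l2 y hy y' hy') (norm_nonneg _) hS))
    (by rw [hU0, sub_self, zero_mul]) (hB c hc)
  generalize hO' : min O (M * r ^ a) = O' at hF2
  have o1 : O' ≤ O := hO' ▸ min_le_left _ _
  have o2 : O' ≤ M * r ^ a := hO' ▸ min_le_right _ _
  have o0 : 0 ≤ O' := hO' ▸ le_min hO (by positivity)
  have hD : ∀ x ∈ sqr c r, p x ∈ closedBall (p c) O' ∩ closedBall 0 ρ := fun x hx =>
    ⟨hO' ▸ le_min (hh x hx c hc).1 ((hh x hx c hc).2.trans (mul_le_mul_of_nonneg_left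
      (Real.rpow_le_rpow dist_nonneg (dist_le_of_sqr hx hc) (by linarith)) hM)), hB x hx⟩
  have hp2 : ContDiff ℝ ∞ fun y => (p y).2 := hp.snd
  have b2 := est_lp (f := fun y => F (p y)) (Mf := 2 * Λ * O' * M) (F0 := 2 * Λ * O' * O')
    (hF.continuous.comp hp.continuous) hp2 ha hr (by positivity) hM
    (fun x hx y hy => (hF2 _ (hD x hx) _ (hD y hy)).trans (by
      rw [mul_assoc _ M]; exact mul_le_mul_of_nonneg_left (hh x hx y hy).2 (by positivity)))
    (fun x hx y hy => le_trans (le_max_right _ _ : _ ≤ dist (p x) (p y)) (hh x hx y hy).2)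
    (fun x hx => by
      have := hF2 _ (hD x hx) _ (hD c hc)
      rw [hF1, sub_zero] at this
      exact this.trans (mul_le_mul_of_nonneg_left (hD x hx).1 (by positivity)))
  rw [← green_jac (f := fun y => F (p y)) ((hF.comp hp).of_le (by exact_mod_cast le_top)) hp2 c
    hr.le] at b2
  have b3 : ‖∫ x in sqr c r, (pd 0 T (p x) / lam (p x) - φ0) * κ x‖ ≤
      Λ₃ * O * Kκ * volume.real (sqr c r) :=
    norm_setIntegral_le_of_norm_le_const (sqr_compact c r).measure_lt_top fun x hx => by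
      rw [norm_mul]
      refine mul_le_mul ((l3 _ (hB x hx) _ (hB c hc)).trans (mul_le_mul_of_nonneg_left ?_ h3))
        (hK x hx) (norm_nonneg _) (by positivity)
      rw [← dist_eq_norm]; exact (hh x hx c hc).1
  rw [Measure.real, volume_sqr c hr.le, ENNReal.toReal_ofReal (by positivity),
    Real.norm_eq_abs] at b3
  have cj : ∀ {f g : P → ℝ}, ContDiff ℝ ∞ f → ContDiff ℝ ∞ g → Continuous (jac f g) :=
    fun hf hg => ((contDiff_pd hf 0).continuous.mul (contDiff_pd hg 1).continuous).sub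
      ((contDiff_pd hf 1).continuous.mul (contDiff_pd hg 0).continuous)
  have i1 : IntegrableOn (fun x => φ0 * (lam (p x) * jp p x - κ x)) (sqr c r) :=
    (continuous_const.mul (((contDiff_lam.continuous.comp hp.continuous).mul
      (cj hp.fst hp2)).sub hκ)).continuousOn.integrableOn_compact (sqr_compact c r)
  have i2 : IntegrableOn (jac (fun y => F (p y)) fun y => (p y).2) (sqr c r) :=
    (cj (hF.comp hp) hp2).continuousOn.integrableOn_compact (sqr_compact c r)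
  have i3 : IntegrableOn (fun x => (pd 0 T (p x) / lam (p x) - φ0) * κ x) (sqr c r) :=
    (((hφ.continuous.comp hp.continuous).sub continuous_const).mul
      hκ).continuousOn.integrableOn_compact (sqr_compact c r)
  have e : ∫ x in sqr c r, pd 0 T (p x) / lam (p x) * (lam (p x) * jp p x - κ x) =
      φ0 * (∫ x in sqr c r, (lam (p x) * jp p x - κ x))
        + (∫ x in sqr c r, jac (fun y => F (p y)) (fun y => (p y).2) x)
        - ∫ x in sqr c r, (pd 0 T (p x) / lam (p x) - φ0) * κ x := by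
    rw [← integral_const_mul, ← integral_add i1 i2]
    refine Eq.trans ?_ (integral_sub (i1.add i2) i3)
    refine integral_congr_ae (Eventually.of_forall fun x => ?_)
    beta_reduce
    rw [est_jac (hF.differentiable (by simp) _) (hp.differentiable (by simp) _), hF0, hU0]
    ring
  have b1 : |φ0 * ∫ x in sqr c r, (lam (p x) * jp p x - κ x)| ≤
      S * |∫ x in sqr c r, (lam (p x) * jp p x - κ x)| := by
    rw [abs_mul]; exact mul_le_mul_of_nonneg_right (lS _ (hB c hc)) (abs_nonneg _)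
  have r2 : r ^ (2 * a) = r ^ a * r ^ a := by rw [two_mul, Real.rpow_add hr]
  have ra : 0 < r ^ a := by positivity
  have b4 : 4 * (yc a * (2 * Λ * O' * M) * M * r ^ (2 * a) + 2 * Λ * O' * O' * (M * r ^ a)) ≤
      8 * Λ * (1 + yc a) * (O * M ^ 2 * r ^ (2 * a)) := by
    have t1 : O' * (yc a * Λ * M ^ 2 * r ^ (2 * a)) ≤ O * (yc a * Λ * M ^ 2 * r ^ (2 * a)) :=
      mul_le_mul_of_nonneg_right o1 (by positivity)
    have t2 : O' * O' * (Λ * (M * r ^ a)) ≤ O * (M * r ^ a) * (Λ * (M * r ^ a)) :=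
      mul_le_mul_of_nonneg_right (mul_le_mul o1 o2 o0 hO) (by positivity)
    rw [r2] at t1 ⊢
    nlinarith
  rw [e]
  generalize (∫ x in sqr c r, (lam (p x) * jp p x - κ x)) = I at b1 ⊢
  have n1 := abs_nonneg I
  have n2 : 0 ≤ (1 + yc a) * (O * M ^ 2 * r ^ (2 * a)) := by positivity
  have n3 : 0 ≤ Kκ * (O * r ^ 2) := by positivity
  refine (abs_sub _ _).trans ((add_le_add (abs_add_le _ _) le_rfl).trans ?_)
  have m1 := mul_nonneg (add_nonneg (mul_nonneg (by norm_num : (0 : ℝ) ≤ 8) hΛ0) h3) n1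
  have m2 := mul_nonneg (add_nonneg hS h3) n2
  have m3 := mul_nonneg (add_nonneg hS (mul_nonneg (by norm_num : (0 : ℝ) ≤ 8) hΛ0)) n3
  nlinarith

end Pool.Agent.Bor
end
end

-- part Pool.Agent.P.MP_26ecb7_gt.Cone
section

noncomputable section
open Set Filter Topology MeasureTheory Metric
open scoped RealInnerProductSpace ContDiff ENNReal

namespace Pool.Agent.Bor

theorem cone_meas : Measurable nrm := by
  unfold nrm
  exact (measurable_norm.inv).smul measurable_id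

theorem cone_apply {B : Set E} (hB : MeasurableSet B) :
    sig B = 3 * volume (nrm ⁻¹' B ∩ ball (0 : E) 1) := by
  unfold sig
  rw [Measure.smul_apply, Measure.map_apply cone_meas hB, Measure.restrict_apply (cone_meas hB),
    smul_eq_mul]

instance : IsFiniteMeasure sig := by
  refine ⟨?_⟩
  rw [cone_apply MeasurableSet.univ]
  refine ENNReal.mul_lt_top (by simp) ?_
  exact lt_of_le_of_lt (measure_mono inter_subset_right) measure_ball_lt_top

theorem measurable_nrm : Measurable nrm := cone_meas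

theorem sig_compl_sphere : sig (sphere (0 : E) 1)ᶜ = 0 := by
  rw [cone_apply isClosed_sphere.measurableSet.compl]
  have h : nrm ⁻¹' (sphere (0 : E) 1)ᶜ ∩ ball (0 : E) 1 ⊆ {0} := by
    intro y hy
    by_contra h0
    exact hy.1 (by simpa using norm_nrm h0)
  rw [measure_mono_null h (measure_singleton _), mul_zero]

theorem sig_neg {B : Set E} (hB : MeasurableSet B) : sig ((fun y => -y) ⁻¹' B) = sig B := by
  rw [cone_apply hB, cone_apply (measurable_neg hB)]
  congr 1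
  have h : nrm ⁻¹' ((fun y => -y) ⁻¹' B) ∩ ball (0 : E) 1
      = (fun y => -y) ⁻¹' (nrm ⁻¹' B ∩ ball (0 : E) 1) := by
    ext y
    simp [nrm]
  rw [h]
  exact (Measure.measurePreserving_neg (volume : Measure E)).measure_preimage
    ((cone_meas hB).inter measurableSet_ball).nullMeasurableSet

theorem sig_pos {U : Set E} (hU : IsOpen U) {y : E} (hy : y ∈ U) (h1 : ‖y‖ = 1) : sig U ≠ 0 := by
  rw [cone_apply hU.measurableSet]
  refine mul_ne_zero (by simp) ?_
  have hy0 : y ≠ 0 := by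
    intro h
    rw [h] at h1
    simp at h1
  have h2 : (1 / 2 : ℝ) • y ≠ 0 := smul_ne_zero (by norm_num) hy0
  have h3 : nrm ((1 / 2 : ℝ) • y) = y := by rw [nrm_smul (by norm_num), nrm_unit h1]
  have h4 : nrm ⁻¹' U ∈ 𝓝 ((1 / 2 : ℝ) • y) :=
    (contDiffAt_nrm h2).continuousAt.preimage_mem_nhds (by rw [h3]; exact hU.mem_nhds hy)
  have h5 : ball (0 : E) 1 ∈ 𝓝 ((1 / 2 : ℝ) • y) := by
    refine isOpen_ball.mem_nhds ?_
    rw [mem_ball_zero_iff, norm_smul, h1]
    norm_num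
  exact (Measure.measure_pos_of_mem_nhds volume (inter_mem h4 h5)).ne'

theorem cone_det (L : E →L[ℝ] E) : L.det = ⟪L (ee 2), cr (L (ee 0)) (L (ee 1))⟫ := by
  rw [ContinuousLinearMap.det, ← LinearMap.det_toMatrix (EuclideanSpace.basisFun (Fin 3) ℝ).toBasis,
    Matrix.det_fin_three, inner_eq]
  simp [LinearMap.toMatrix_apply, cr, ee]
  ring

/-- projection to the first two coordinates -/
def conePr : E →L[ℝ] P :=
  (EuclideanSpace.proj (0 : Fin 3) : E →L[ℝ] ℝ).prod (EuclideanSpace.proj (1 : Fin 3))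

theorem conePr_apply (z : E) : conePr z = (z 0, z 1) := rfl

theorem cone_mp : MeasurePreserving (fun z : E => (z 2, conePr z)) volume
    ((volume : Measure ℝ).prod (volume : Measure P)) := by
  have h1 := PiLp.volume_preserving_ofLp (Fin 3)
  have h2 := volume_preserving_piFinSuccAbove (fun _ : Fin 3 => ℝ) 2
  have h3 := (MeasurePreserving.id (volume : Measure ℝ)).prod (volume_preserving_finTwoArrow ℝ)
  have h4 := h3.comp (h2.comp h1)
  have h5 : (fun z : E => (z 2, conePr z)) = (Prod.map id ⇑(MeasurableEquiv.finTwoArrow (α := ℝ))) ∘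
      (⇑(MeasurableEquiv.piFinSuccAbove (fun _ : Fin 3 => ℝ) 2) ∘ WithLp.ofLp) := by
    funext z
    rfl
  rw [h5]
  exact h4

theorem cone_kap_meas {M : P → E} (hM : Differentiable ℝ M) : Measurable (kap M) := by
  have h0 : ∀ i, Measurable (pd i M) := fun i => measurable_fderiv_apply_const ℝ M (e2 i)
  obtain ⟨B, hB⟩ := exists_crL
  have h1 : Continuous (fun p : E × E × E => ⟪p.1, B p.2.1 p.2.2⟫) := by fun_prop
  have h2 : kap M = (fun p : E × E × E => ⟪p.1, B p.2.1 p.2.2⟫) ∘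
      fun x => (M x, pd 0 M x, pd 1 M x) := by
    funext x
    simp [kap, hB]
  rw [h2]
  exact h1.measurable.comp (hM.continuous.measurable.prodMk ((h0 0).prodMk (h0 1)))

theorem cone_third : ∫⁻ t in Ioo (0 : ℝ) 1, ENNReal.ofReal (t ^ 2) = 3⁻¹ := by
  rw [← ofReal_integral_eq_lintegral_ofReal]
  · rw [← integral_Ioc_eq_integral_Ioo, ← intervalIntegral.integral_of_le zero_le_one, integral_pow]
    rw [show ((1 : ℝ) ^ (2 + 1) - 0 ^ (2 + 1)) / (((2 : ℕ) : ℝ) + 1) = (3 : ℝ)⁻¹ by norm_num,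
      ENNReal.ofReal_inv_of_pos (by norm_num)]
    simp
  · exact ((continuous_pow 2).integrableOn_Icc (a := (0 : ℝ)) (b := 1)).mono_set Ioo_subset_Icc_self
  · exact Eventually.of_forall fun t => sq_nonneg t

/-- area formula on the sphere -/
theorem sig_image {M : P → E} (hM : Differentiable ℝ M) (h1 : ∀ x, ‖M x‖ = 1) {A : Set P}
    (hA : MeasurableSet A) (hi : InjOn M A) :
    sig (M '' A) = ∫⁻ x in A, ENNReal.ofReal |kap M x| := by
  have hMA : MeasurableSet (M '' A) :=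
    hA.image_of_continuousOn_injOn hM.continuous.continuousOn hi
  rw [cone_apply hMA]
  set Φ : E → E := fun z => z 2 • M (conePr z) with hΦ
  set D : Set E := (fun z : E => (z 2, conePr z)) ⁻¹' (Ioo (0 : ℝ) 1 ×ˢ A) with hD
  have hDm : MeasurableSet D := cone_mp.measurable (measurableSet_Ioo.prod hA)
  have hn : ∀ z ∈ D, ‖Φ z‖ = z 2 := by
    intro z hz
    have : 0 < z 2 := hz.1.1
    simp [hΦ, norm_smul, h1, abs_of_pos this]
  have hr : ∀ z ∈ D, nrm (Φ z) = M (conePr z) := by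
    intro z hz
    have : 0 < z 2 := hz.1.1
    simp only [hΦ]
    rw [nrm_smul this, nrm_unit (h1 _)]
  have him : nrm ⁻¹' (M '' A) ∩ ball (0 : E) 1 = Φ '' D := by
    ext y
    constructor
    · rintro ⟨⟨x, hx, hxy⟩, hy⟩
      have hy0 : y ≠ 0 := by
        intro h
        have := h1 x
        rw [hxy, h] at this
        simp [nrm] at this
      have hp : conePr (!₂[x.1, x.2, ‖y‖] : E) = x := by
        rw [conePr_apply]; simp
      refine ⟨!₂[x.1, x.2, ‖y‖], ⟨⟨?_, ?_⟩, ?_⟩, ?_⟩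
      · simpa using hy0
      · simpa using hy
      · show conePr _ ∈ A
        rw [hp]; exact hx
      · simp only [hΦ]
        rw [hp, hxy]
        have : ‖y‖ ≠ 0 := norm_ne_zero_iff.2 hy0
        simp [nrm, smul_smul, this]
    · rintro ⟨z, hz, rfl⟩
      refine ⟨⟨conePr z, hz.2, (hr z hz).symm⟩, ?_⟩
      rw [mem_ball_zero_iff, hn z hz]
      exact hz.1.2
  have hinj : InjOn Φ D := by
    intro z hz w hw hzw
    have e1 : z 2 = w 2 := by rw [← hn z hz, ← hn w hw, hzw]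
    have e2 : conePr z = conePr w := hi hz.2 hw.2 (by rw [← hr z hz, ← hr w hw, hzw])
    rw [conePr_apply, conePr_apply, Prod.mk.injEq] at e2
    ext k
    fin_cases k
    · exact e2.1
    · exact e2.2
    · exact e1
  let F : E → E →L[ℝ] E := fun z => z 2 • ((fderiv ℝ M (conePr z)).comp conePr)
    + (EuclideanSpace.proj (2 : Fin 3) : E →L[ℝ] ℝ).smulRight (M (conePr z))
  have hF : ∀ z, HasFDerivAt Φ (F z) z := by
    intro z
    have a1 : HasFDerivAt (fun z : E => z 2) (EuclideanSpace.proj (2 : Fin 3) : E →L[ℝ] ℝ) z :=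
      (EuclideanSpace.proj (2 : Fin 3) : E →L[ℝ] ℝ).hasFDerivAt
    have a2 : HasFDerivAt (fun z : E => M (conePr z)) ((fderiv ℝ M (conePr z)).comp conePr) z :=
      (hM _).hasFDerivAt.comp z conePr.hasFDerivAt
    exact a1.smul a2
  have hdet : ∀ z, (F z).det = z 2 ^ 2 * kap M (conePr z) := by
    intro z
    have b0 : F z (ee 0) = z 2 • pd 0 M (conePr z) := by
      simp [F, ee, conePr_apply, pd, e2]
    have b1 : F z (ee 1) = z 2 • pd 1 M (conePr z) := by
      simp [F, ee, conePr_apply, pd, e2]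
    have b2 : F z (ee 2) = M (conePr z) := by
      have : conePr (ee 2) = 0 := by
        rw [conePr_apply]; simp [ee]
      simp only [F, ContinuousLinearMap.add_apply, ContinuousLinearMap.smul_apply,
        ContinuousLinearMap.comp_apply, this, map_zero, smul_zero, zero_add,
        ContinuousLinearMap.smulRight_apply]
      simp [ee]
    rw [cone_det, b0, b1, b2, cr_smul_left, cr_smul_right, inner_smul_right, inner_smul_right, kap]
    ring
  rw [him, ← lintegral_abs_det_fderiv_eq_addHaar_image volume hDm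
    (fun z _ => (hF z).hasFDerivWithinAt) hinj]
  have hk := cone_kap_meas hM
  have hg : Measurable (fun p : ℝ × P => ENNReal.ofReal (p.1 ^ 2) * ENNReal.ofReal |kap M p.2|) :=
    ((measurable_fst.pow_const 2).ennreal_ofReal).mul
      ((hk.comp measurable_snd).abs.ennreal_ofReal)
  have e1 : (fun z : E => ENNReal.ofReal |(F z).det|) = fun z : E =>
      (fun p : ℝ × P => ENNReal.ofReal (p.1 ^ 2) * ENNReal.ofReal |kap M p.2|) (z 2, conePr z) := by
    funext z
    rw [hdet, abs_mul, abs_of_nonneg (sq_nonneg _), ENNReal.ofReal_mul (sq_nonneg _)]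
  rw [e1, hD, cone_mp.setLIntegral_comp_preimage (measurableSet_Ioo.prod hA) hg,
    ← Measure.prod_restrict,
    lintegral_prod_mul (f := fun t : ℝ => ENNReal.ofReal (t ^ 2))
      (g := fun x : P => ENNReal.ofReal |kap M x|)
      ((measurable_id.pow_const 2).ennreal_ofReal).aemeasurable
      (hk.abs.ennreal_ofReal).aemeasurable,
    cone_third, ← mul_assoc, ENNReal.mul_inv_cancel (by simp) (by simp), one_mul]

/-- gnomonic formula -/
theorem sig_gn (R : Rot) {B : Set P} (hB : MeasurableSet B) :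
    sig {y | 0 < ⟪y, R.R (ee 2)⟫ ∧ gn R y ∈ B} = ∫⁻ x in B, ENNReal.ofReal (lam x) := by
  have hl0 : ∀ x, lift R x ≠ 0 := by
    intro x h
    have := inner_lift R x
    rw [h] at this
    simp at this
  set M : P → E := fun x => nrm (lift R x) with hM
  have hMd : Differentiable ℝ M := fun x =>
    ((contDiffAt_nrm (hl0 x)).differentiableAt (by simp)).comp x
      (((contDiff_lift R).differentiable (by simp)) x)
  have h1 : ∀ x, ‖M x‖ = 1 := fun x => norm_nrm (hl0 x)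
  have hg : ∀ x, gn R (M x) = x := by
    intro x
    simp only [hM, nrm]
    rw [gn_smul R (inv_ne_zero (norm_ne_zero_iff.2 (hl0 x))), gn_lift]
  have h2 : ∀ x, 0 < ⟪M x, R.R (ee 2)⟫ := by
    intro x
    simp only [hM, nrm]
    rw [real_inner_smul_left, inner_lift, mul_one]
    exact inv_pos.2 (norm_pos_iff.2 (hl0 x))
  have hi : InjOn M B := fun x _ y _ h => by rw [← hg x, ← hg y, h]
  have hk : ∀ x, |kap M x| = lam x := by
    intro x
    rw [kap_gn R (hMd x) (h1 x) (h2 x), hg]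
    have e : (fun y => gn R (M y)) = fun y => y := funext hg
    have e' : jp (fun y : P => y) x = 1 := by
      rw [← det_fderiv differentiableAt_fun_id, fderiv_fun_id]
      simp [ContinuousLinearMap.det]
    rw [e, e', mul_one, abs_of_pos (lam_pos x)]
  have hs : {y | 0 < ⟪y, R.R (ee 2)⟫ ∧ gn R y ∈ B} ∩ sphere (0 : E) 1 = M '' B := by
    ext y
    constructor
    · rintro ⟨⟨hy1, hy2⟩, hy3⟩
      refine ⟨gn R y, hy2, ?_⟩
      have := lift_gn R hy1.ne'
      simp only [hM]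
      rw [← nrm_smul hy1, this, nrm_unit (by simpa using hy3)]
    · rintro ⟨x, hx, rfl⟩
      exact ⟨⟨h2 x, by rw [hg]; exact hx⟩, by simpa using h1 x⟩
  rw [← measure_inter_conull (μ := sig) sig_compl_sphere, hs, sig_image hMd h1 hB hi]
  simp only [hk]

end Pool.Agent.Bor
end
end

-- part Pool.Agent.P.MP_26ecb7_gt.Mu
section

noncomputable section
open Set Filter Topology MeasureTheory Metric
open scoped RealInnerProductSpace ContDiff ENNReal

namespace Pool.Agent.Bor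

namespace Surf
variable (X : Surf)

theorem mu_emb : MeasurableEmbedding (fun q : X.S => X.nu q) := by
  have : CompactSpace X.S := isCompact_iff_compactSpace.1 X.cpt
  have hc : Continuous (fun q : X.S => X.nu q) :=
    continuousOn_iff_continuous_domRestrict.1
      fun q hq => (X.nu_smooth q hq).continuousAt.continuousWithinAt
  exact (hc.isClosedEmbedding fun q q' h => Subtype.ext (X.inj q.2 q'.2 h)).measurableEmbedding

theorem mu_app0 {A : Set E} (hA : MeasurableSet A) : X.mu A = sig (X.nu '' (X.S ∩ A)) := by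
  rw [Surf.mu, Measure.map_apply measurable_subtype_coe hA, X.mu_emb.comap_apply]
  congr 1
  ext y
  constructor
  · rintro ⟨q, hq, rfl⟩
    exact ⟨q, ⟨q.2, hq⟩, rfl⟩
  · rintro ⟨q, hq, rfl⟩
    exact ⟨⟨q, hq.1⟩, hq.2, rfl⟩

instance : IsFiniteMeasure X.mu :=
  ⟨by rw [X.mu_app0 MeasurableSet.univ]; exact measure_lt_top _ _⟩
theorem mu_apply {A : Set E} (hA : MeasurableSet A) : X.mu A = sig (X.nu '' (X.S ∩ A)) :=
  X.mu_app0 hA
theorem mu_univ : X.mu univ = sig univ := by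
  have h : X.nu '' X.S = sphere (0 : E) 1 := by
    refine Subset.antisymm ?_ X.surj
    rintro _ ⟨q, hq, rfl⟩
    exact mem_sphere_zero_iff_norm.2 (X.nu_unit q hq)
  rw [X.mu_apply MeasurableSet.univ, inter_univ, h]
  exact measure_congr (ae_eq_univ.2 sig_compl_sphere)
theorem mu_compl : X.mu X.Sᶜ = 0 := by
  rw [X.mu_apply X.cpt.isClosed.measurableSet.compl, inter_compl_self, image_empty, measure_empty]
theorem measurableSet_image_psi (R : Rot) {A : Set P} (hA : MeasurableSet A) :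
    MeasurableSet (X.psi R '' A) :=
  hA.image_of_continuousOn_injOn (X.sm_psi R).continuous.continuousOn (X.psi_inj R).injOn
theorem mu_image (R : Rot) {A : Set P} (hA : MeasurableSet A) :
    X.mu (X.psi R '' A) = ∫⁻ x in A, ENNReal.ofReal (X.ka R x) := by
  have h1 : X.S ∩ X.psi R '' A = X.psi R '' A :=
    inter_eq_right.2 (by rintro _ ⟨x, -, rfl⟩; exact X.psi_mem R x)
  have h2 : X.nu '' (X.psi R '' A) = un (X.psi R) '' A := by
    rw [image_image]
    exact image_congr fun x _ => (X.un_psi R x).symm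
  have h3 : InjOn (un (X.psi R)) A := fun x _ y _ h => by
    rw [X.un_psi, X.un_psi] at h
    exact X.psi_inj R (X.inj (X.psi_mem R x) (X.psi_mem R y) h)
  rw [X.mu_apply (X.measurableSet_image_psi R hA), h1, h2,
    sig_image ((X.imm_psi R).sm_un.differentiable (by simp)) (X.imm_psi R).norm_un hA h3]
  refine lintegral_congr fun x => ?_
  rw [show kap (un (X.psi R)) x = X.ka R x from rfl, abs_of_pos (X.ka_pos R x)]
theorem mu_pos {q : E} (hq : q ∈ X.S) {U : Set E} (hU : U ∈ 𝓝 q) : X.mu U ≠ 0 := by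
  obtain ⟨R, rfl⟩ := X.exists_chart hq
  obtain ⟨V, hV, hVo, hV0⟩ :=
    _root_.mem_nhds_iff.1 ((X.sm_psi R).continuous.continuousAt.preimage_mem_nhds hU)
  have h1 : 0 < X.mu (X.psi R '' V) := by
    rw [X.mu_image R hVo.measurableSet,
      setLIntegral_pos_iff (X.continuous_ka R).measurable.ennreal_ofReal]
    have h2 : Function.support (fun x => ENNReal.ofReal (X.ka R x)) = univ :=
      eq_univ_of_forall fun x => (ENNReal.ofReal_pos.2 (X.ka_pos R x)).ne'
    rw [h2, univ_inter]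
    exact hVo.measure_pos _ ⟨0, hV0⟩
  exact (h1.trans_le (measure_mono (image_subset_iff.2 hV))).ne'

theorem mu_ae : ∀ᵐ q ∂X.mu, q ∈ X.S := mem_ae_iff.2 X.mu_compl

theorem mu_restrict (R : Rot) : X.mu.restrict (range (X.psi R)) =
    (volume.withDensity fun x => ENNReal.ofReal (X.ka R x)).map (X.psi R) := by
  have hm : Measurable (X.psi R) := (X.sm_psi R).continuous.measurable
  ext B hB
  rw [Measure.restrict_apply hB, ← image_preimage_eq_inter_range, X.mu_image R (hm hB),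
    Measure.map_apply hm hB, withDensity_apply _ (hm hB)]

/-- integration of a function that lives in one chart -/
theorem integral_mu (R : Rot) {f : E → ℝ} (hf : ContinuousOn f X.S)
    (h0 : ∀ q ∈ X.S, q ∉ range (X.psi R) → f q = 0) :
    ∫ q, f q ∂X.mu = ∫ x, f (X.psi R x) * X.ka R x := by
  have he : MeasurableEmbedding (X.psi R) :=
    (X.sm_psi R).continuous.measurableEmbedding (X.psi_inj R)
  rw [← setIntegral_eq_integral_of_ae_compl_eq_zero (s := range (X.psi R))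
    (X.mu_ae.mono fun q hq => h0 q hq), X.mu_restrict R, he.integral_map,
    integral_withDensity_eq_integral_toReal_smul (X.continuous_ka R).measurable.ennreal_ofReal
      (Eventually.of_forall fun _ => ENNReal.ofReal_lt_top)]
  refine integral_congr_ae (Eventually.of_forall fun x => ?_)
  show (ENNReal.ofReal (X.ka R x)).toReal • f (X.psi R x) = _
  rw [ENNReal.toReal_ofReal (X.ka_pos R x).le, smul_eq_mul, mul_comm]
theorem integrable_mu {f : E → ℝ} (hf : ContinuousOn f X.S) : Integrable f X.mu := by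
  have h : IntegrableOn f X.S X.mu := hf.integrableOn_compact X.cpt
  rwa [IntegrableOn, Measure.restrict_eq_self_of_ae_mem X.mu_ae] at h

end Surf

end Pool.Agent.Bor
end
end

-- part Pool.Agent.P.MP_26ecb7_gt.Pou
section

noncomputable section
open Set Filter Topology MeasureTheory Metric
open scoped RealInnerProductSpace ContDiff ENNReal

namespace Pool.Agent.Bor

theorem Surf.exists_pou (X : Surf) : Nonempty (Pou X) := by
  have h1 : ∀ q : X.S, ∃ (R : Rot) (b : ContDiffBump q.1),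
      ∀ z ∈ X.S, b z ≠ 0 → ∃ x ∈ closedBall (0 : P) 1, z = X.psi R x := by
    rintro ⟨q, hq⟩
    obtain ⟨R, hR⟩ := X.exists_chart hq
    have h2 := X.psi_nhds R (x := 0) (closedBall_mem_nhds 0 one_pos)
    rw [hR] at h2
    obtain ⟨δ, hδ, h3⟩ := Metric.mem_nhdsWithin_iff.1 h2
    refine ⟨R, ⟨δ / 2, δ, by positivity, by linarith⟩, fun z hz hb => ?_⟩
    have h4 : z ∈ Function.support
        (⟨δ / 2, δ, by positivity, by linarith⟩ : ContDiffBump q) := hb
    rw [ContDiffBump.support_eq] at h4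
    obtain ⟨x, hx, e⟩ := h3 ⟨h4, hz⟩
    exact ⟨x, hx, e.symm⟩
  choose R b hb using h1
  obtain ⟨t, ht⟩ := X.cpt.elim_nhds_subcover' (fun q hq => closedBall q (b ⟨q, hq⟩).rIn)
    fun q hq => closedBall_mem_nhds q (b ⟨q, hq⟩).rIn_pos
  let e := t.equivFin.symm
  let σ : E → ℝ := fun z => ∑ a, b (e a).1 z
  have s0 : ∀ z, 0 ≤ σ z := fun z => Finset.sum_nonneg fun a _ => (b _).nonneg
  have s1 : ∀ z ∈ X.S, 1 ≤ σ z := by
    intro z hz
    obtain ⟨q, hq, h⟩ := mem_iUnion₂.1 (ht hz)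
    obtain ⟨a, ha⟩ := e.surjective ⟨q, hq⟩
    have h2 : b (e a).1 z = 1 := by
      rw [ha]
      exact (b q).one_of_mem_closedBall h
    rw [← h2]
    exact Finset.single_le_sum (f := fun a => b (e a).1 z) (fun a _ => (b _).nonneg)
      (Finset.mem_univ a)
  have s2 : ContDiff ℝ ∞ σ := ContDiff.sum fun a _ => (b _).contDiff
  have d0 : ∀ z, 0 < σ z + Real.smoothTransition (1 - σ z) := by
    intro z
    rcases lt_or_ge (σ z) 1 with h | h
    · exact add_pos_of_nonneg_of_pos (s0 z) (Real.smoothTransition.pos_of_pos (sub_pos.2 h))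
    · exact add_pos_of_pos_of_nonneg (one_pos.trans_le h) (Real.smoothTransition.nonneg _)
  refine ⟨⟨t.card, fun a => R (e a).1,
    fun a z => b (e a).1 z / (σ z + Real.smoothTransition (1 - σ z)), 1, fun a => ?_,
    fun a z => div_nonneg (b _).nonneg (d0 z).le, fun z hz => ?_,
    fun a z hz h => hb _ z hz fun e' => h (by rw [e', zero_div])⟩⟩
  · exact (b _).contDiff.div (s2.add (Real.smoothTransition.contDiff.comp (contDiff_const.sub s2)))
      fun z => (d0 z).ne'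
  · rw [← Finset.sum_div, Real.smoothTransition.zero_of_nonpos (sub_nonpos.2 (s1 z hz)), add_zero]
    exact div_self (one_pos.trans_le (s1 z hz)).ne'

namespace Pou
variable {X : Surf} (U : Pou X)

theorem eq_zero (a : Fin U.k) {x : P} (hx : x ∉ closedBall (0 : P) U.rho) :
    U.chi a (X.psi (U.R a) x) = 0 := by
  by_contra h
  obtain ⟨y, hy, e⟩ := U.supp a _ (X.psi_mem _ x) h
  exact hx (X.psi_inj _ e ▸ hy)
theorem cs (a : Fin U.k) : HasCompactSupport (fun x => U.chi a (X.psi (U.R a) x)) :=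
  HasCompactSupport.intro (isCompact_closedBall 0 U.rho) fun _ hx => U.eq_zero a hx
theorem sm (a : Fin U.k) : ContDiff ℝ ∞ (fun x => U.chi a (X.psi (U.R a) x)) :=
  (U.smooth a).comp (X.sm_psi _)
theorem exists_pos {q : E} (hq : q ∈ X.S) : ∃ a x, X.psi (U.R a) x = q ∧ 0 < U.chi a q := by
  obtain ⟨a, -, ha⟩ := Finset.exists_ne_zero_of_sum_ne_zero ((U.sum_eq q hq).trans_ne one_ne_zero)
  obtain ⟨x, -, e⟩ := U.supp a q hq ha
  exact ⟨a, x, e.symm, (U.nonneg a q).lt_of_ne' ha⟩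
theorem integrable (a : Fin U.k) {f : P → ℝ} (hf : Continuous f) :
    Integrable (fun x => U.chi a (X.psi (U.R a) x) * f x) :=
  ((U.sm a).continuous.mul hf).integrable_of_hasCompactSupport (U.cs a).mul_right
theorem II_add {f g : Fin U.k → P → ℝ} (hf : ∀ a, Continuous (f a)) (hg : ∀ a, Continuous (g a)) :
    U.II (fun a x => f a x + g a x) = U.II f + U.II g := by
  simp only [II, mul_add, ← Finset.sum_add_distrib]
  exact Finset.sum_congr rfl fun a _ => integral_add (U.integrable a (hf a)) (U.integrable a (hg a))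
theorem II_sub {f g : Fin U.k → P → ℝ} (hf : ∀ a, Continuous (f a)) (hg : ∀ a, Continuous (g a)) :
    U.II (fun a x => f a x - g a x) = U.II f - U.II g := by
  simp only [II, mul_sub, ← Finset.sum_sub_distrib]
  exact Finset.sum_congr rfl fun a _ => integral_sub (U.integrable a (hf a)) (U.integrable a (hg a))
theorem II_mul (t : ℝ) (f : Fin U.k → P → ℝ) : U.II (fun a x => t * f a x) = t * U.II f := by
  simp only [II, Finset.mul_sum, ← integral_const_mul, mul_left_comm t]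
theorem II_mono {f g : Fin U.k → P → ℝ} (hf : ∀ a, Continuous (f a)) (hg : ∀ a, Continuous (g a))
    (h : ∀ a, ∀ x ∈ closedBall (0 : P) U.rho, f a x ≤ g a x) : U.II f ≤ U.II g := by
  refine Finset.sum_le_sum fun a _ =>
    integral_mono (U.integrable a (hf a)) (U.integrable a (hg a)) fun x => ?_
  by_cases hx : x ∈ closedBall (0 : P) U.rho
  · exact mul_le_mul_of_nonneg_left (h a x hx) (U.nonneg _ _)
  · simp [U.eq_zero a hx]
theorem II_nonneg {f : Fin U.k → P → ℝ} (h : ∀ a, ∀ x ∈ closedBall (0 : P) U.rho, 0 ≤ f a x) :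
    0 ≤ U.II f := by
  refine Finset.sum_nonneg fun a _ => integral_nonneg fun x => ?_
  by_cases hx : x ∈ closedBall (0 : P) U.rho
  · exact mul_nonneg (U.nonneg _ _) (h a x hx)
  · simp [U.eq_zero a hx]
theorem abs_II_le {f g : Fin U.k → P → ℝ} (hf : ∀ a, Continuous (f a)) (hg : ∀ a, Continuous (g a))
    (h : ∀ a, ∀ x ∈ closedBall (0 : P) U.rho, |f a x| ≤ g a x) : |U.II f| ≤ U.II g := by
  refine abs_le.2 ⟨?_, U.II_mono hf hg fun a x hx => (abs_le.1 (h a x hx)).2⟩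
  rw [← neg_one_mul, ← U.II_mul]
  exact U.II_mono (fun a => continuous_const.mul (hg a)) hf fun a x hx => by
    simpa using (abs_le.1 (h a x hx)).1
/-- a family that is uniformly small relative to a family with bounded integrals -/
theorem II_small {f g : ℕ → Fin U.k → P → ℝ} (hf : ∀ n a, Continuous (f n a))
    (hg : ∀ n a, Continuous (g n a)) {C : ℝ} (hC : ∀ᶠ n in atTop, U.II (g n) ≤ C)
    (h : ∀ θ > 0, ∀ᶠ n in atTop, ∀ a, ∀ x ∈ closedBall (0 : P) U.rho, |f n a x| ≤ θ * g n a x) :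
    Tendsto (fun n => U.II (f n)) atTop (𝓝 0) := by
  refine Metric.tendsto_nhds.2 fun ε hε => ?_
  have hθ : 0 < ε / (|C| + 1) := by positivity
  filter_upwards [hC, h _ hθ] with n h1 h2
  rw [Real.dist_0_eq_abs]
  refine (U.abs_II_le (g := fun a x => ε / (|C| + 1) * g n a x) (hf n)
    (fun a => continuous_const.mul (hg n a)) h2).trans_lt ?_
  rw [U.II_mul, div_mul_eq_mul_div, div_lt_iff₀ (by positivity)]
  exact mul_lt_mul_of_pos_left ((h1.trans (le_abs_self C)).trans_lt (lt_add_one _)) hε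

end Pou

end Pool.Agent.Bor
end
end

-- part Pool.Agent.P.MP_26ecb7_gt.Stokes
section

noncomputable section
open Set Filter Topology MeasureTheory Metric
open scoped RealInnerProductSpace ContDiff ENNReal

namespace Pool.Agent.Bor

/-- the alternating form attached to two linear maps -/
def stokes_om (L M : E →L[ℝ] E) (a b : E) : ℝ := ⟪L a, M b⟫ - ⟪L b, M a⟫

/-- the same form read on the cross product -/
def stokes_w (L M : E →L[ℝ] E) (c : E) : ℝ :=
  c 0 * stokes_om L M (ee 1) (ee 2) + c 1 * stokes_om L M (ee 2) (ee 0)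
    + c 2 * stokes_om L M (ee 0) (ee 1)

theorem stokes_basis (a : E) : a = a 0 • ee 0 + a 1 • ee 1 + a 2 • ee 2 := by
  ext k
  fin_cases k <;> simp [ee]

theorem stokes_inner (L M : E →L[ℝ] E) (a b : E) :
    ⟪L a, M b⟫ = a 0 * b 0 * ⟪L (ee 0), M (ee 0)⟫ + a 0 * b 1 * ⟪L (ee 0), M (ee 1)⟫
      + a 0 * b 2 * ⟪L (ee 0), M (ee 2)⟫ + a 1 * b 0 * ⟪L (ee 1), M (ee 0)⟫
      + a 1 * b 1 * ⟪L (ee 1), M (ee 1)⟫ + a 1 * b 2 * ⟪L (ee 1), M (ee 2)⟫
      + a 2 * b 0 * ⟪L (ee 2), M (ee 0)⟫ + a 2 * b 1 * ⟪L (ee 2), M (ee 1)⟫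
      + a 2 * b 2 * ⟪L (ee 2), M (ee 2)⟫ := by
  have ha : L a = a 0 • L (ee 0) + a 1 • L (ee 1) + a 2 • L (ee 2) := by
    conv_lhs => rw [stokes_basis a]
    simp only [map_add, map_smul]
  have hb : M b = b 0 • M (ee 0) + b 1 • M (ee 1) + b 2 • M (ee 2) := by
    conv_lhs => rw [stokes_basis b]
    simp only [map_add, map_smul]
  rw [ha, hb]
  simp only [inner_add_left, inner_add_right, real_inner_smul_left, real_inner_smul_right]
  ring

theorem stokes_w_cr (L M : E →L[ℝ] E) (a b : E) : stokes_w L M (cr a b) = stokes_om L M a b := by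
  have h0 : cr a b 0 = a 1 * b 2 - a 2 * b 1 := rfl
  have h1 : cr a b 1 = a 2 * b 0 - a 0 * b 2 := rfl
  have h2 : cr a b 2 = a 0 * b 1 - a 1 * b 0 := rfl
  unfold stokes_w stokes_om
  rw [h0, h1, h2, stokes_inner L M a b, stokes_inner L M b a]
  ring

theorem stokes_w_smul (L M : E →L[ℝ] E) (t : ℝ) (c : E) :
    stokes_w L M (t • c) = t * stokes_w L M c := by
  unfold stokes_w
  simp only [PiLp.smul_apply, smul_eq_mul]
  ring

/-- Gauss curvature -/
def Surf.stokes_K (X : Surf) (q : E) : ℝ := ⟪X.nu q, cof (fderiv ℝ X.nu q) (X.nu q)⟫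

/-- density with respect to the curvature measure -/
def Surf.stokes_j (X : Surf) (f g : E → E) (q : E) : ℝ :=
  stokes_w (fderiv ℝ f q) (fderiv ℝ g q) (X.nu q) / X.stokes_K q

theorem stokes_pd {X : Surf} {f : E → E} (hf : X.Sm f) (R : Rot) (i : Fin 2) (x : P) :
    pd i (fun y => f (X.psi R y)) x = fderiv ℝ f (X.psi R x) (pd i (X.psi R) x) := by
  have h1 : DifferentiableAt ℝ f (X.psi R x) :=
    (hf _ (X.psi_mem R x)).differentiableAt (by simp)
  have h2 : DifferentiableAt ℝ (X.psi R) x := ((X.sm_psi R).differentiable (by simp)) x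
  unfold pd
  have h3 : fderiv ℝ (fun y => f (X.psi R y)) x
      = (fderiv ℝ f (X.psi R x)).comp (fderiv ℝ (X.psi R) x) :=
    (h1.hasFDerivAt.comp x h2.hasFDerivAt).fderiv
  rw [h3]
  rfl

theorem stokes_nv (X : Surf) (R : Rot) (x : P) :
    cr (pd 0 (X.psi R) x) (pd 1 (X.psi R) x) = sq (X.psi R) x • X.nu (X.psi R x) := by
  rw [← X.un_psi R x]
  exact (X.imm_psi R).nv_eq x

theorem stokes_ka (X : Surf) (R : Rot) (x : P) :
    X.ka R x = sq (X.psi R) x * X.stokes_K (X.psi R x) := by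
  have hu : un (X.psi R) = fun y => X.nu (X.psi R y) := funext (X.un_psi R)
  have hs : X.Sm X.nu := X.nu_smooth
  unfold Surf.ka kap Surf.stokes_K
  rw [hu, stokes_pd hs R 0 x, stokes_pd hs R 1 x, ← cof_cr, stokes_nv, cof_smul,
    real_inner_smul_right]

theorem stokes_K_pos (X : Surf) {q : E} (hq : q ∈ X.S) : 0 < X.stokes_K q := by
  obtain ⟨R, hR⟩ := X.exists_chart hq
  have h1 := X.ka_pos R 0
  rw [stokes_ka, hR] at h1
  exact (mul_pos_iff_of_pos_left ((X.imm_psi R).sq_pos 0)).1 h1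

theorem stokes_JJ {X : Surf} {f g : E → E} (hf : X.Sm f) (hg : X.Sm g) (R : Rot) (x : P) :
    JJ (fun y => f (X.psi R y)) (fun y => g (X.psi R y)) x
      = X.stokes_j f g (X.psi R x) * X.ka R x := by
  have hK := (stokes_K_pos X (X.psi_mem R x)).ne'
  have h1 : JJ (fun y => f (X.psi R y)) (fun y => g (X.psi R y)) x
      = stokes_om (fderiv ℝ f (X.psi R x)) (fderiv ℝ g (X.psi R x))
        (pd 0 (X.psi R) x) (pd 1 (X.psi R) x) := by
    unfold JJ stokes_om
    rw [stokes_pd hf, stokes_pd hf, stokes_pd hg, stokes_pd hg]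
  rw [h1, ← stokes_w_cr, stokes_nv, stokes_w_smul, stokes_ka]
  unfold Surf.stokes_j
  field_simp

theorem stokes_cont_fderiv {X : Surf} {f : E → E} (hf : X.Sm f) {q : E} (hq : q ∈ X.S) :
    ContinuousAt (fderiv ℝ f) q :=
  ((hf q hq).fderiv_right (m := 0) (by simp)).continuousAt

theorem stokes_cont_j {X : Surf} {f g : E → E} (hf : X.Sm f) (hg : X.Sm g) :
    ContinuousOn (X.stokes_j f g) X.S := by
  intro q hq
  apply ContinuousAt.continuousWithinAt
  have hn : ContinuousAt X.nu q := (X.nu_smooth q hq).continuousAt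
  have hDn : ContinuousAt (fderiv ℝ X.nu) q := stokes_cont_fderiv (f := X.nu) X.nu_smooth hq
  have hDf := stokes_cont_fderiv hf hq
  have hDg := stokes_cont_fderiv hg hq
  have hc : ContinuousAt (fun z => cof (fderiv ℝ X.nu z) (X.nu z)) q :=
    ContinuousAt.comp (g := fun x : (E →L[ℝ] E) × E => cof x.1 x.2)
      (f := fun z => (fderiv ℝ X.nu z, X.nu z)) contDiff_cof.continuous.continuousAt
      (hDn.prodMk hn)
  have hK : ContinuousAt X.stokes_K q := hn.inner hc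
  have hom : ∀ a b : E,
      ContinuousAt (fun z => stokes_om (fderiv ℝ f z) (fderiv ℝ g z) a b) q := fun a b =>
    ((hDf.clm_apply continuousAt_const).inner (hDg.clm_apply continuousAt_const)).sub
      ((hDf.clm_apply continuousAt_const).inner (hDg.clm_apply continuousAt_const))
  have hk : ∀ k : Fin 3, ContinuousAt (fun z => X.nu z k) q := fun k =>
    ContinuousAt.comp (g := fun y : E => y k) (f := X.nu)
      (EuclideanSpace.proj (𝕜 := ℝ) k).continuous.continuousAt hn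
  have hw : ContinuousAt (fun z => stokes_w (fderiv ℝ f z) (fderiv ℝ g z) (X.nu z)) q :=
    (((hk 0).mul (hom _ _)).add ((hk 1).mul (hom _ _))).add ((hk 2).mul (hom _ _))
  exact hw.div hK (stokes_K_pos X hq).ne'

theorem stokes_sm {X : Surf} (U : Pou X) {f : E → E} (hf : X.Sm f) (a : Fin U.k) :
    X.Sm (fun q => U.chi a q • f q) := fun q hq => (U.smooth a).contDiffAt.smul (hf q hq)

theorem stokes_split {X : Surf} (U : Pou X) {f g : E → E} (hf : X.Sm f) (hg : X.Sm g) {q : E}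
    (hq : q ∈ X.S) : X.stokes_j f g q = ∑ a, X.stokes_j (fun z => U.chi a z • f z) g q := by
  obtain ⟨R, hR⟩ := X.exists_chart hq
  have hka := (X.ka_pos R 0).ne'
  have hsum : (fun y => f (X.psi R y)) = fun y => ∑ a, U.chi a (X.psi R y) • f (X.psi R y) := by
    funext y
    rw [← Finset.sum_smul, U.sum_eq _ (X.psi_mem R y), one_smul]
  have hpd : ∀ i, pd i (fun y => f (X.psi R y)) 0
      = ∑ a, pd i (fun y => U.chi a (X.psi R y) • f (X.psi R y)) 0 := by
    intro i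
    have hd : ∀ a ∈ (Finset.univ : Finset (Fin U.k)),
        DifferentiableAt ℝ (fun y => U.chi a (X.psi R y) • f (X.psi R y)) 0 := fun a _ =>
      (((stokes_sm U hf a).comp R).differentiable (by simp)) 0
    unfold pd
    conv_lhs => rw [hsum]
    rw [fderiv_fun_sum hd, _root_.sum_apply]
  apply mul_right_cancel₀ hka
  rw [Finset.sum_mul, ← hR, ← stokes_JJ hf hg R 0]
  have h2 : ∀ a ∈ (Finset.univ : Finset (Fin U.k)),
      X.stokes_j (fun z => U.chi a z • f z) g (X.psi R 0) * X.ka R 0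
        = ⟪pd 0 (fun y => U.chi a (X.psi R y) • f (X.psi R y)) 0, pd 1 (fun y => g (X.psi R y)) 0⟫
          - ⟪pd 1 (fun y => U.chi a (X.psi R y) • f (X.psi R y)) 0,
            pd 0 (fun y => g (X.psi R y)) 0⟫ := fun a _ =>
    (stokes_JJ (stokes_sm U hf a) hg R 0).symm
  rw [Finset.sum_congr rfl h2, Finset.sum_sub_distrib, ← sum_inner, ← sum_inner, ← hpd, ← hpd]
  rfl

theorem stokes_off {X : Surf} (U : Pou X) {f g : E → E} (hf : X.Sm f) (hg : X.Sm g) (a : Fin U.k)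
    {q : E} (hq : q ∈ X.S) (hn : q ∉ range (X.psi (U.R a))) :
    X.stokes_j (fun z => U.chi a z • f z) g q = 0 := by
  obtain ⟨R, hR⟩ := X.exists_chart hq
  have hka := (X.ka_pos R 0).ne'
  have hC : IsClosed (X.psi (U.R a) '' closedBall (0 : P) U.rho) :=
    ((isCompact_closedBall _ _).image (X.sm_psi _).continuous).isClosed
  have hq' : X.psi R 0 ∈ (X.psi (U.R a) '' closedBall (0 : P) U.rho)ᶜ := by
    rw [hR]
    exact fun h => hn (image_subset_range _ _ h)
  have hev : ∀ᶠ y in 𝓝 (0 : P), X.psi R y ∈ (X.psi (U.R a) '' closedBall (0 : P) U.rho)ᶜ :=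
    (X.sm_psi R).continuous.continuousAt.eventually_mem (hC.isOpen_compl.mem_nhds hq')
  have h0 : (fun y => U.chi a (X.psi R y) • f (X.psi R y)) =ᶠ[𝓝 (0 : P)] fun _ => (0 : E) := by
    filter_upwards [hev] with y hy
    have : U.chi a (X.psi R y) = 0 := by
      by_contra h
      obtain ⟨x, hx, hxe⟩ := U.supp a _ (X.psi_mem R y) h
      exact hy ⟨x, hx, hxe.symm⟩
    rw [this, zero_smul]
  have hpd : ∀ i, pd i (fun y => U.chi a (X.psi R y) • f (X.psi R y)) 0 = 0 := by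
    intro i
    unfold pd
    rw [h0.fderiv_eq]
    simp
  have h1 := stokes_JJ (stokes_sm U hf a) hg R 0
  have h2 : JJ (fun y => U.chi a (X.psi R y) • f (X.psi R y)) (fun y => g (X.psi R y)) 0 = 0 := by
    unfold JJ
    rw [hpd, hpd, inner_zero_left, inner_zero_left, sub_zero]
  rw [hR] at h1
  exact (mul_eq_zero.1 (h1.symm.trans h2)).resolve_right hka

theorem stokes_piece {X : Surf} (U : Pou X) {f g : E → E} (hf : X.Sm f) (hg : X.Sm g)
    (a : Fin U.k) : ∫ q, X.stokes_j (fun z => U.chi a z • f z) g q ∂X.mu = 0 := by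
  rw [X.integral_mu (U.R a) (stokes_cont_j (stokes_sm U hf a) hg)
    (fun q hq hn => stokes_off U hf hg a hq hn)]
  have hc : HasCompactSupport
      (fun x => U.chi a (X.psi (U.R a) x) • f (X.psi (U.R a) x)) :=
    (U.cs a).smul_right
  rw [← integral_JJ ((stokes_sm U hf a).comp (U.R a)) hc (hg.comp (U.R a))]
  exact integral_congr_ae (Eventually.of_forall fun x =>
    (stokes_JJ (stokes_sm U hf a) hg (U.R a) x).symm)

/-- Stokes theorem on the closed surface -/
theorem Pou.stokes {X : Surf} (U : Pou X) {f g : E → E} (hf : X.Sm f) (hg : X.Sm g) :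
    U.II (fun a => JJ (fun x => f (X.psi (U.R a) x)) (fun x => g (X.psi (U.R a) x))) = 0 := by
  have hj := stokes_cont_j hf hg
  have hS : ∀ᵐ q ∂X.mu, q ∈ X.S := mem_ae_iff.2 X.mu_compl
  have hcj : ∀ a, ContinuousOn (fun q => U.chi a q * X.stokes_j f g q) X.S := fun a =>
    (U.smooth a).continuous.continuousOn.mul hj
  have h1 : ∀ a ∈ (Finset.univ : Finset (Fin U.k)),
      ∫ x, U.chi a (X.psi (U.R a) x)
          * JJ (fun x => f (X.psi (U.R a) x)) (fun x => g (X.psi (U.R a) x)) x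
        = ∫ q, U.chi a q * X.stokes_j f g q ∂X.mu := by
    intro a _
    rw [X.integral_mu (U.R a) (hcj a)]
    · refine integral_congr_ae (Eventually.of_forall fun x => ?_)
      simp only []
      rw [stokes_JJ hf hg, mul_assoc]
    · intro q hq hn
      have : U.chi a q = 0 := by
        by_contra h
        obtain ⟨x, _, hxe⟩ := U.supp a _ hq h
        exact hn ⟨x, hxe.symm⟩
      simp only [this, zero_mul]
  unfold Pou.II
  rw [Finset.sum_congr rfl h1, ← integral_finsetSum _ (fun a _ => X.integrable_mu (hcj a))]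
  have h2 : ∫ q, ∑ a, U.chi a q * X.stokes_j f g q ∂X.mu
      = ∫ q, ∑ a, X.stokes_j (fun z => U.chi a z • f z) g q ∂X.mu := by
    refine integral_congr_ae ?_
    filter_upwards [hS] with q hq
    rw [← Finset.sum_mul, U.sum_eq q hq, one_mul, stokes_split U hf hg hq]
  rw [h2, integral_finsetSum _
    (fun a _ => X.integrable_mu (stokes_cont_j (stokes_sm U hf a) hg))]
  exact Finset.sum_eq_zero fun a _ => stokes_piece U hf hg a

end Pool.Agent.Bor
end
end

-- part Pool.Agent.P.MP_26ecb7_gt.HergA0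
section

noncomputable section
open Set Filter Topology MeasureTheory Metric
open scoped RealInnerProductSpace ContDiff ENNReal

namespace Pool.Agent.Bor

/-- support functions in a chart -/
def Surf.hu (X : Surf) (R : Rot) (x : P) : ℝ := ⟪X.psi R x - X.o, un (X.psi R) x⟫
def hs (w : P → E) (x : P) : ℝ := ⟪w x, un w x⟫

variable {X : Surf} {I : Iso X} (U : Pou X)

theorem Surf.hu_pos (X : Surf) (R : Rot) (x : P) : 0 < X.hu R x := by
  unfold Surf.hu
  rw [X.un_psi, real_inner_comm]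
  exact X.pos _ (X.psi_mem R x)
theorem Surf.continuous_hu (X : Surf) (R : Rot) : Continuous (X.hu R) :=
  ((X.sm_psi R).continuous.sub continuous_const).inner (X.imm_psi R).sm_un.continuous
theorem Imm.sm_hs {w : P → E} (hw : Imm w) : ContDiff ℝ ∞ (hs w) :=
  hw.1.inner ℝ hw.sm_un

theorem hergA0_cont {w : P → E} (hw : Imm w) :
    Continuous (fun x => mx (at2 (gm w) x) (at2 (sf w) x) / sq w x) := by
  have hg := fun i j => (hw.sm_gm i j).continuous
  have hf := fun i j => (hw.sm_sf i j).continuous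
  refine Continuous.div ?_ hw.sm_sq.continuous (fun x => (hw.sq_pos x).ne')
  exact ((((hg 0 0).mul (hf 1 1)).add ((hg 1 1).mul (hf 0 0))).sub ((hg 0 1).mul (hf 1 0))).sub
    ((hg 1 0).mul (hf 0 1))

theorem hergA0_gen (w : Fin U.k → P → E) (hw : ∀ a, Imm (w a)) (c : E)
    (h : U.II (fun a => JJ (fun y => cr (w a y - c) (un (w a) y)) (un (w a))) = 0) :
    U.II (fun a x => mx (at2 (gm (w a)) x) (at2 (sf (w a)) x) / sq (w a) x) =
      U.II (fun a x => 2 * ⟪w a x - c, un (w a) x⟫ * kap (un (w a)) x) := by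
  have h1 : (fun a => JJ (fun y => cr (w a y - c) (un (w a) y)) (un (w a))) =
      fun a x => 2 * ⟪w a x - c, un (w a) x⟫ * kap (un (w a)) x
        - mx (at2 (gm (w a)) x) (at2 (sf (w a)) x) / sq (w a) x := by
    funext a x
    have hd : DifferentiableAt ℝ (fun y => w a y - c) x :=
      (((hw a).1.differentiable (by simp)) x).sub_const c
    rw [(hw a).JJ_cr hd]
    have h2 : (fun i j => ⟪pd i (fun y => w a y - c) x, pd j (w a) x⟫) = at2 (gm (w a)) x := by
      funext i j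
      simp only [at2, gm, pd, fderiv_sub_const]
    rw [h2]
    ring
  have hc : ∀ a, Continuous (fun x => 2 * ⟪w a x - c, un (w a) x⟫ * kap (un (w a)) x) := fun a =>
    (continuous_const.mul (((hw a).1.continuous.sub continuous_const).inner
      (hw a).sm_un.continuous)).mul (hw a).sm_kap.continuous
  rw [h1, U.II_sub hc (fun a => hergA0_cont (hw a))] at h
  exact (sub_eq_zero.mp h).symm

/-- Minkowski formula for the surface -/
theorem Pou.mink0 : U.II (fun a x => mx (at2 (gm (X.psi (U.R a))) x) (at2 (sf (X.psi (U.R a))) x)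
    / sq (X.psi (U.R a)) x) = U.II (fun a x => 2 * X.hu (U.R a) x * X.ka (U.R a) x) := by
  refine hergA0_gen U (fun a => X.psi (U.R a)) (fun a => X.imm_psi _) X.o ?_
  have hf : X.Sm (fun q => cr (q - X.o) (X.nu q)) := fun q hq =>
    contDiff_cr (contDiffAt_id.sub contDiffAt_const) (X.nu_smooth q hq)
  have h := U.stokes hf X.nu_smooth
  have hu : ∀ a, un (X.psi (U.R a)) = fun x => X.nu (X.psi (U.R a) x) := fun a =>
    funext (X.un_psi _)
  simp only [hu]
  exact h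

/-- Minkowski formula for the approximations -/
theorem Pou.mink (A : Appr I) (n : ℕ) :
    U.II (fun a x => mx (at2 (gm (A.w (U.R a) n)) x) (at2 (sf (A.w (U.R a) n)) x)
      / sq (A.w (U.R a) n) x) =
    U.II (fun a x => 2 * hs (A.w (U.R a) n) x * kap (un (A.w (U.R a) n)) x) := by
  have hf : X.Sm (fun q => cr (A.W n q - 0) (X.NW (A.W n) q)) := fun q hq =>
    contDiff_cr ((A.sm_W n q hq).sub contDiffAt_const) (A.sm_NW n q hq)
  have h := U.stokes hf (A.sm_NW n)
  have hu : ∀ a, un (A.w (U.R a) n) = fun x => X.NW (A.W n) (X.psi (U.R a) x) := fun a =>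
    funext (A.un_w _ n)
  have h2 := hergA0_gen U (fun a => A.w (U.R a) n) (fun a => A.imm_w _ n) 0
    (by simp only [hu]; exact h)
  simpa only [sub_zero, hs] using h2


end Pool.Agent.Bor
end
end

-- part Pool.Agent.P.MP_26ecb7_gt.HergA
section

noncomputable section
open Set Filter Topology MeasureTheory Metric
open scoped RealInnerProductSpace ContDiff ENNReal

namespace Pool.Agent.Bor

/-- half the gradient of the squared norm -/
def hergaX (W : E → E) (q : E) : E := ∑ k : Fin 3, ⟪W q, fderiv ℝ W q (ee k)⟫ • ee k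

/-- its tangential part -/
def hergaT (X : Surf) (W : E → E) (q : E) : E :=
  hergaX W q - ⟪hergaX W q, X.nu q⟫ • X.nu q

theorem herga_exp (a : E) : a = ∑ k : Fin 3, a k • ee k := by
  ext j
  fin_cases j <;> simp [ee, Fin.sum_univ_three]

theorem herga_ee (k : Fin 3) (a : E) : ⟪ee k, a⟫ = a k := by
  simp [ee, EuclideanSpace.inner_single_left]

theorem herga_inner (W : E → E) (q a : E) : ⟪hergaX W q, a⟫ = ⟪W q, fderiv ℝ W q a⟫ := by
  have h : fderiv ℝ W q a = ∑ k : Fin 3, a k • fderiv ℝ W q (ee k) := by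
    conv_lhs => rw [herga_exp a]
    simp only [map_sum, map_smul]
  rw [h, hergaX, sum_inner, inner_sum]
  refine Finset.sum_congr rfl fun k _ => ?_
  rw [real_inner_smul_left, real_inner_smul_right, herga_ee, mul_comm]

theorem herga_smX {W : E → E} (hW : ContDiff ℝ ∞ W) : ContDiff ℝ ∞ (hergaX W) := by
  unfold hergaX
  refine ContDiff.sum fun k _ => ?_
  have h1 : ContDiff ℝ ∞ (fun q => fderiv ℝ W q (ee k)) :=
    (hW.fderiv_right (m := ∞) (by simp)).clm_apply contDiff_const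
  exact (hW.inner ℝ h1).smul contDiff_const

theorem herga_smT (X : Surf) {W : E → E} (hW : ContDiff ℝ ∞ W) : X.Sm (hergaT X W) := by
  intro q hq
  have h1 : ContDiffAt ℝ ∞ (hergaX W) q := (herga_smX hW).contDiffAt
  have h2 := X.nu_smooth q hq
  exact h1.sub ((h1.inner ℝ h2).smul h2)

theorem herga_nu (X : Surf) (W : E → E) {q : E} (hq : q ∈ X.S) :
    ⟪hergaT X W q, X.nu q⟫ = 0 := by
  rw [hergaT, inner_sub_left, real_inner_smul_left, real_inner_self_eq_norm_sq, X.nu_unit q hq]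
  ring

theorem herga_tang (X : Surf) (W : E → E) {q a : E} (ha : ⟪X.nu q, a⟫ = 0) :
    ⟪hergaT X W q, a⟫ = ⟪W q, fderiv ℝ W q a⟫ := by
  rw [hergaT, inner_sub_left, real_inner_smul_left, ha, herga_inner]
  ring

variable {X : Surf} {I : Iso X} (U : Pou X)

/-- the error term -/
def hergaE (w v : P → E) (i j : Fin 2) (x : P) : ℝ :=
  gm w i j x - gm v i j x + ∑ k, ∑ l, (gi w k l x * ⟪w x, pd k w x⟫ * ch w i j l x
    - gi v k l x * ⟪w x, pd k w x⟫ * ch v i j l x)

theorem herga_r (A : Appr I) (R : Rot) (n : ℕ) (j : Fin 2) (x : P) :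
    ⟪hergaT X (A.W n) (X.psi R x), pd j (X.psi R) x⟫ = ⟪A.w R n x, pd j (A.w R n) x⟫ := by
  rw [herga_tang X _ (X.tang_psi R j x), A.pd_w]
  rfl

theorem herga_T (A : Appr I) (R : Rot) (n : ℕ) (i j : Fin 2) (x : P) :
    ⟪pd i (fun y => hergaT X (A.W n) (X.psi R y)) x, pd j (X.psi R) x⟫ =
      gm (X.psi R) i j x - hs (A.w R n) x * sf (A.w R n) i j x
        + hergaE (A.w R n) (X.psi R) i j x := by
  have hw := A.imm_w R n
  have hp := X.imm_psi R
  have hT : ContDiff ℝ ∞ (fun y => hergaT X (A.W n) (X.psi R y)) :=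
    (herga_smT X (A.smooth n)).comp R
  have d1 : DifferentiableAt ℝ (fun y => hergaT X (A.W n) (X.psi R y)) x :=
    hT.differentiable (by simp) x
  have d2 : DifferentiableAt ℝ (pd j (X.psi R)) x :=
    (contDiff_pd hp.1 j).differentiable (by simp) x
  have d3 : DifferentiableAt ℝ (A.w R n) x := hw.1.differentiable (by simp) x
  have d4 : DifferentiableAt ℝ (pd j (A.w R n)) x :=
    (contDiff_pd hw.1 j).differentiable (by simp) x
  have e1 := pd_inner d1 d2 i
  have e2 := pd_inner d3 d4 i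
  have e3 : (fun y => ⟪hergaT X (A.W n) (X.psi R y), pd j (X.psi R) y⟫) =
      fun y => ⟪A.w R n y, pd j (A.w R n) y⟫ := funext fun y => herga_r A R n j y
  rw [e3, e2] at e1
  have e4 := hw.inner_exp x (A.w R n x) (pd i (pd j (A.w R n)) x)
  have e5 := hp.inner_exp x (hergaT X (A.W n) (X.psi R x)) (pd i (pd j (X.psi R)) x)
  have e6 : ⟪hergaT X (A.W n) (X.psi R x), un (X.psi R) x⟫ = 0 := by
    rw [X.un_psi]
    exact herga_nu X _ (X.psi_mem R x)
  have e7 : ⟪pd i (pd j (A.w R n)) x, un (A.w R n) x⟫ = - sf (A.w R n) i j x := by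
    rw [hw.sf_eq, real_inner_comm, neg_neg]
  rw [e6, zero_mul, zero_add] at e5
  simp only [herga_r] at e5
  rw [e7] at e4
  simp only [hergaE, hs, gm, ch, Fin.sum_univ_two] at e4 e5 ⊢
  linarith

theorem herga_cont {w v : P → E} (hw : Imm w) (hv : Imm v) (i j : Fin 2) :
    Continuous (hergaE w v i j) := by
  unfold hergaE
  have hr : ∀ k, Continuous (fun x => ⟪w x, pd k w x⟫) := fun k =>
    hw.1.continuous.inner (contDiff_pd hw.1 k).continuous
  refine ((hw.sm_gm i j).continuous.sub (hv.sm_gm i j).continuous).add ?_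
  refine continuous_finsetSum _ fun k _ => continuous_finsetSum _ fun l _ => ?_
  exact (((hw.sm_gi k l).continuous.mul (hr k)).mul (hw.sm_ch i j l).continuous).sub
    (((hv.sm_gi k l).continuous.mul (hr k)).mul (hv.sm_ch i j l).continuous)

theorem herga_conv (A : Appr I) (R : Rot) {K : Set P} (hK : IsCompact K) (i j : Fin 2) :
    TendstoUniformlyOn (fun n => hergaE (A.w R n) (X.psi R) i j) (fun _ => 0) atTop K := by
  have hp := X.imm_psi R
  have cw : Continuous (I.w R) := (I.w_c1 R).continuous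
  have cp : ∀ k, Continuous (pd k (I.w R)) := fun k =>
    ((I.w_c1 R).continuous_fderiv (by simp)).clm_apply continuous_const
  have cr0 : ∀ k, Continuous (fun x => ⟪I.w R x, pd k (I.w R) x⟫) := fun k => cw.inner (cp k)
  have hr : ∀ k, TendstoUniformlyOn (fun n x => ⟪A.w R n x, pd k (A.w R n) x⟫)
      (fun x => ⟪I.w R x, pd k (I.w R) x⟫) atTop K := fun k =>
    tu_inner hK (A.w_conv R).tendstoUniformlyOn (A.pd_conv R hK k) cw.continuousOn
      (cp k).continuousOn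
  have ht : ∀ k l, TendstoUniformlyOn (fun n x =>
      gi (A.w R n) k l x * ⟪A.w R n x, pd k (A.w R n) x⟫ * ch (A.w R n) i j l x
        - gi (X.psi R) k l x * ⟪A.w R n x, pd k (A.w R n) x⟫ * ch (X.psi R) i j l x)
      (fun _ => 0) atTop K := by
    intro k l
    have cg := (hp.sm_gi k l).continuous
    have cc := (hp.sm_ch i j l).continuous
    have h1 := tu_mul hK (tu_mul hK (A.gi_conv R hK k l) (hr k) cg.continuousOn
      (cr0 k).continuousOn) (A.ch_conv R hK i j l) (cg.mul (cr0 k)).continuousOn cc.continuousOn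
    have h2 := tu_mul hK (tu_mul hK (tu_const (gi (X.psi R) k l)) (hr k) cg.continuousOn
      (cr0 k).continuousOn) (tu_const (ch (X.psi R) i j l)) (cg.mul (cr0 k)).continuousOn
      cc.continuousOn
    have h3 := tu_sub h1 h2
    simpa only [sub_self] using h3
  have h0 := tu_sub (A.gm_conv R hK i j) (tu_const (gm (X.psi R) i j))
  have h4 := tu_add h0 (tu_add (tu_add (ht 0 0) (ht 0 1)) (tu_add (ht 1 0) (ht 1 1)))
  simp only [sub_self, add_zero] at h4
  unfold hergaE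
  simpa only [Fin.sum_univ_two] using h4

/-- first Herglotz identity: Codazzi for the surface, tested with the approximation -/
theorem Pou.herg1 (A : Appr I) : ∃ e : ℕ → Fin U.k → Fin 2 → Fin 2 → P → ℝ,
    (∀ n a i j, Continuous (e n a i j)) ∧
    (∀ a i j, TendstoUniformlyOn (fun n => e n a i j) (fun _ => 0) atTop (closedBall 0 U.rho)) ∧
    ∀ n, U.II (fun a x => mx (fun i j => gm (X.psi (U.R a)) i j x
      - hs (A.w (U.R a) n) x * sf (A.w (U.R a) n) i j x + e n a i j x)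
        (at2 (sf (X.psi (U.R a))) x) / sq (X.psi (U.R a)) x) = 0 := by
  refine ⟨fun n a => hergaE (A.w (U.R a) n) (X.psi (U.R a)),
    fun n a i j => herga_cont (A.imm_w _ n) (X.imm_psi _) i j,
    fun a i j => herga_conv A _ (isCompact_closedBall _ _) i j, fun n => ?_⟩
  have hT := herga_smT X (A.smooth n)
  have hf : X.Sm (fun q => cr (hergaT X (A.W n) q) (X.nu q)) := fun q hq =>
    contDiff_cr (hT q hq) (X.nu_smooth q hq)
  have hg : X.Sm X.nu := X.nu_smooth
  have hst := U.stokes hf hg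
  have key : (fun a x => mx (fun i j => gm (X.psi (U.R a)) i j x
      - hs (A.w (U.R a) n) x * sf (A.w (U.R a) n) i j x
        + hergaE (A.w (U.R a) n) (X.psi (U.R a)) i j x)
        (at2 (sf (X.psi (U.R a))) x) / sq (X.psi (U.R a)) x) =
      fun a x => (-1 : ℝ) * JJ (fun y => cr (hergaT X (A.W n) (X.psi (U.R a) y))
        (X.nu (X.psi (U.R a) y))) (fun y => X.nu (X.psi (U.R a) y)) x := by
    funext a x
    have hu : (fun y => X.nu (X.psi (U.R a) y)) = un (X.psi (U.R a)) :=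
      funext fun y => (X.un_psi _ y).symm
    have hc : (fun y => cr (hergaT X (A.W n) (X.psi (U.R a) y)) (X.nu (X.psi (U.R a) y))) =
        fun y => cr (hergaT X (A.W n) (X.psi (U.R a) y)) (un (X.psi (U.R a)) y) :=
      funext fun y => by rw [X.un_psi]
    have d1 : DifferentiableAt ℝ (fun y => hergaT X (A.W n) (X.psi (U.R a) y)) x :=
      (hT.comp (U.R a)).differentiable (by simp) x
    have e6 : ⟪hergaT X (A.W n) (X.psi (U.R a) x), un (X.psi (U.R a)) x⟫ = 0 := by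
      rw [X.un_psi]
      exact herga_nu X _ (X.psi_mem _ x)
    rw [hu, hc, (X.imm_psi (U.R a)).JJ_cr d1, e6]
    simp only [herga_T]
    ring
  rw [key, U.II_mul, hst, mul_zero]

end Pool.Agent.Bor
end
end

-- part Pool.Agent.P.MP_26ecb7_gt.HergB0
section

noncomputable section
open Set Filter Topology MeasureTheory Metric
open scoped RealInnerProductSpace ContDiff ENNReal

namespace Pool.Agent.Bor

/-- tangential part of the position vector -/
def hergb0_tau (X : Surf) (q : E) : E := (q - X.o) - ⟪q - X.o, X.nu q⟫ • X.nu q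

theorem hergb0_sm_tau (X : Surf) : X.Sm (hergb0_tau X) := by
  intro q hq
  have h1 : ContDiffAt ℝ ∞ (fun z : E => z - X.o) q := contDiffAt_id.sub contDiffAt_const
  exact h1.sub ((h1.inner ℝ (X.nu_smooth q hq)).smul (X.nu_smooth q hq))

theorem hergb0_tang (X : Surf) {q : E} (hq : q ∈ X.S) : ⟪X.nu q, hergb0_tau X q⟫ = 0 := by
  unfold hergb0_tau
  rw [inner_sub_right, real_inner_smul_right, real_inner_self_eq_norm_sq, X.nu_unit q hq,
    real_inner_comm]
  ring

theorem hergb0_pd_comp {W : E → E} {p t : P → E} {x : P} (hW : ContDiffAt ℝ ∞ W (p x))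
    (hp : DifferentiableAt ℝ p x) (ht : DifferentiableAt ℝ t x) (i : Fin 2) :
    pd i (fun y => fderiv ℝ W (p y) (t y)) x =
      fderiv ℝ (fderiv ℝ W) (p x) (pd i p x) (t x) + fderiv ℝ W (p x) (pd i t x) := by
  have h1 : DifferentiableAt ℝ (fderiv ℝ W) (p x) :=
    (hW.fderiv_right (m := ∞) (by simp)).differentiableAt (by simp)
  have h2 : HasFDerivAt (fun y => fderiv ℝ W (p y))
      ((fderiv ℝ (fderiv ℝ W) (p x)).comp (fderiv ℝ p x)) x :=
    h1.hasFDerivAt.comp x hp.hasFDerivAt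
  have h3 := h2.clm_apply ht.hasFDerivAt
  unfold pd
  rw [h3.fderiv]
  simp [add_comm]

theorem hergb0_t_eq (X : Surf) (R : Rot) :
    (fun x => hergb0_tau X (X.psi R x)) =
      fun x => (X.psi R x - X.o) - X.hu R x • un (X.psi R) x := by
  funext x
  unfold hergb0_tau Surf.hu
  rw [X.un_psi]

theorem hergb0_sm_hu (X : Surf) (R : Rot) : ContDiff ℝ ∞ (X.hu R) :=
  ((X.sm_psi R).sub contDiff_const).inner ℝ (X.imm_psi R).sm_un

/-- covariant derivative of the tangential position field -/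
theorem hergb0_pd_t (X : Surf) (R : Rot) (i j : Fin 2) (x : P) :
    ⟪pd i (fun y => hergb0_tau X (X.psi R y)) x, pd j (X.psi R) x⟫ =
      gm (X.psi R) i j x - X.hu R x * sf (X.psi R) i j x := by
  rw [hergb0_t_eq]
  have h1 : DifferentiableAt ℝ (X.psi R) x := (X.sm_psi R).differentiable (by simp) x
  have h2 : DifferentiableAt ℝ (X.hu R) x := (hergb0_sm_hu X R).differentiable (by simp) x
  have h3 : DifferentiableAt ℝ (un (X.psi R)) x :=
    (X.imm_psi R).sm_un.differentiable (by simp) x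
  have h4 := (h1.hasFDerivAt.sub_const X.o).sub (h2.hasFDerivAt.smul h3.hasFDerivAt)
  have h5 : pd i (fun y => (X.psi R y - X.o) - X.hu R y • un (X.psi R) y) x =
      pd i (X.psi R) x - (X.hu R x • pd i (un (X.psi R)) x
        + pd i (X.hu R) x • un (X.psi R) x) := by
    unfold pd
    have h6 : fderiv ℝ (fun y => (X.psi R y - X.o) - X.hu R y • un (X.psi R) y) x = _ :=
      h4.fderiv
    rw [h6]
    simp
  rw [h5, inner_sub_left, inner_add_left, real_inner_smul_left, real_inner_smul_left, un_pd]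
  unfold gm sf
  ring

/-- the same quantity through the radial projection -/
theorem hergb0_pr (X : Surf) (R : Rot) (i j : Fin 2) (x : P) :
    gm (X.psi R) i j x - X.hu R x * sf (X.psi R) i j x =
      chr X.pr (X.psi R x) (pd i (X.psi R) x) (hergb0_tau X (X.psi R x)) (pd j (X.psi R) x)
        + ⟪fderiv ℝ X.pr (X.psi R x) (pd i (fun y => hergb0_tau X (X.psi R y)) x),
            fderiv ℝ X.pr (X.psi R x) (pd j (X.psi R) x)⟫ := by
  have h1 : DifferentiableAt ℝ (X.psi R) x := (X.sm_psi R).differentiable (by simp) x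
  have h2 : DifferentiableAt ℝ (fun y => hergb0_tau X (X.psi R y)) x :=
    ((hergb0_sm_tau X).comp R).differentiable (by simp) x
  have h3 := hergb0_pd_comp (X.pr_smooth _ (X.ne_o (X.psi_mem R x))) h1 h2 i
  have h4 : (fun y => fderiv ℝ X.pr (X.psi R y) (hergb0_tau X (X.psi R y))) =
      fun y => hergb0_tau X (X.psi R y) := by
    funext y
    exact X.fderiv_pr (X.psi_mem R y) (hergb0_tang X (X.psi_mem R y))
  rw [h4] at h3
  have h5 : fderiv ℝ X.pr (X.psi R x) (pd j (X.psi R) x) = pd j (X.psi R) x :=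
    X.fderiv_pr (X.psi_mem R x) (X.tang_psi R j x)
  rw [← hergb0_pd_t]
  unfold chr
  rw [← inner_add_left, ← h3, h5]

variable {X : Surf} {I : Iso X}

theorem hergb0_sm_Y (A : Appr I) (n : ℕ) :
    X.Sm (fun q => fderiv ℝ (A.W n) q (hergb0_tau X q)) := by
  intro q hq
  have h1 : ContDiff ℝ ∞ (fderiv ℝ (A.W n)) := (A.smooth n).fderiv_right (by simp)
  exact h1.contDiffAt.clm_apply (hergb0_sm_tau X q hq)

theorem hergb0_orth (A : Appr I) (R : Rot) (n : ℕ) (x : P) :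
    ⟪fderiv ℝ (A.W n) (X.psi R x) (hergb0_tau X (X.psi R x)), un (A.w R n) x⟫ = 0 := by
  have h0 : ⟪hergb0_tau X (X.psi R x), un (X.psi R) x⟫ = 0 := by
    rw [X.un_psi, real_inner_comm]
    exact hergb0_tang X (X.psi_mem R x)
  have h1 := (X.imm_psi R).vec_exp x (hergb0_tau X (X.psi R x))
  rw [h0, zero_smul, zero_add] at h1
  rw [h1, map_sum, sum_inner]
  refine Finset.sum_eq_zero fun k _ => ?_
  rw [map_smul, real_inner_smul_left, ← A.pd_w, real_inner_comm, un_pd, mul_zero]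

theorem hergb0_T (A : Appr I) (R : Rot) (n : ℕ) (i j : Fin 2) (x : P) :
    ⟪pd i (fun y => fderiv ℝ (A.W n) (X.psi R y) (hergb0_tau X (X.psi R y))) x,
        pd j (A.w R n) x⟫ =
      chr (A.W n) (X.psi R x) (pd i (X.psi R) x) (hergb0_tau X (X.psi R x)) (pd j (X.psi R) x)
        + ⟪fderiv ℝ (A.W n) (X.psi R x) (pd i (fun y => hergb0_tau X (X.psi R y)) x),
            fderiv ℝ (A.W n) (X.psi R x) (pd j (X.psi R) x)⟫ := by
  have h1 : DifferentiableAt ℝ (X.psi R) x := (X.sm_psi R).differentiable (by simp) x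
  have h2 : DifferentiableAt ℝ (fun y => hergb0_tau X (X.psi R y)) x :=
    ((hergb0_sm_tau X).comp R).differentiable (by simp) x
  rw [hergb0_pd_comp (A.smooth n).contDiffAt h1 h2 i, A.pd_w, inner_add_left]
  rfl

theorem hergb0_bound {K : Set P} (hK : IsCompact K) {b : P → E} (hb : Continuous b) :
    ∃ C : ℝ, 0 < C ∧ ∀ x ∈ K, ‖b x‖ ≤ C := by
  obtain ⟨C, hC⟩ := hK.exists_bound_of_continuousOn hb.continuousOn
  exact ⟨max C 1, lt_of_lt_of_le one_pos (le_max_right _ _),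
    fun x hx => (hC x hx).trans (le_max_left _ _)⟩

theorem hergb0_thick (A : Appr I) (R : Rot) (x : P) : X.psi R x ∈ thickening A.tau X.S :=
  self_subset_thickening A.tau_pos _ (X.psi_mem R x)

theorem hergb0_conv1 (A : Appr I) (R : Rot) {K : Set P} (hK : IsCompact K) {b : P → E}
    (hb : Continuous b) :
    TendstoUniformlyOn (fun n x => fderiv ℝ (A.W n) (X.psi R x) (b x))
      (fun x => fderiv ℝ I.V (X.psi R x) (b x)) atTop K := by
  obtain ⟨C, hC0, hC⟩ := hergb0_bound hK hb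
  rw [Metric.tendstoUniformlyOn_iff]
  intro ε hε
  have h1 := Metric.tendstoUniformlyOn_iff.1 A.c1 (ε / C) (div_pos hε hC0)
  filter_upwards [h1] with n hn x hx
  have h2 := hn _ (hergb0_thick A R x)
  rw [dist_eq_norm] at h2 ⊢
  rw [← sub_apply]
  calc _ ≤ ‖fderiv ℝ I.V (X.psi R x) - fderiv ℝ (A.W n) (X.psi R x)‖ * ‖b x‖ :=
        ContinuousLinearMap.le_opNorm _ _
    _ ≤ ‖fderiv ℝ I.V (X.psi R x) - fderiv ℝ (A.W n) (X.psi R x)‖ * C :=
        mul_le_mul_of_nonneg_left (hC x hx) (norm_nonneg _)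
    _ < ε / C * C := mul_lt_mul_of_pos_right h2 hC0
    _ = ε := div_mul_cancel₀ _ hC0.ne'

theorem hergb0_cont (I : Iso X) (R : Rot) {b : P → E} (hb : Continuous b) :
    Continuous (fun x => fderiv ℝ I.V (X.psi R x) (b x)) := by
  refine Continuous.clm_apply ?_ hb
  refine continuous_iff_continuousAt.2 fun x => ?_
  have h1 : ContinuousAt (fderiv ℝ I.V) (X.psi R x) :=
    (I.V_c1 (X.ne_o (X.psi_mem R x))).continuousAt_fderiv (by simp)
  exact h1.comp (X.sm_psi R).continuous.continuousAt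

theorem hergb0_conv2 (A : Appr I) (R : Rot) {K : Set P} (hK : IsCompact K) {a b c : P → E}
    (ha : Continuous a) (hb : Continuous b) (hc : Continuous c) :
    TendstoUniformlyOn (fun n x => chr (A.W n) (X.psi R x) (a x) (b x) (c x))
      (fun x => chr X.pr (X.psi R x) (a x) (b x) (c x)) atTop K := by
  obtain ⟨Ca, hCa0, hCa⟩ := hergb0_bound hK ha
  obtain ⟨Cb, hCb0, hCb⟩ := hergb0_bound hK hb
  obtain ⟨Cc, hCc0, hCc⟩ := hergb0_bound hK hc
  rw [Metric.tendstoUniformlyOn_iff]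
  intro ε hε
  have hM : 0 < Ca * Cb * Cc := by positivity
  have hθ : 0 < ε / 2 / (Ca * Cb * Cc) := by positivity
  filter_upwards [A.c2 _ hθ] with n hn x hx
  have h2 := hn _ (hergb0_thick A R x) (a x) (b x) (c x)
  rw [dist_comm, Real.dist_eq]
  have h3 : ‖a x‖ * ‖b x‖ * ‖c x‖ ≤ Ca * Cb * Cc :=
    mul_le_mul (mul_le_mul (hCa x hx) (hCb x hx) (norm_nonneg _) hCa0.le) (hCc x hx)
      (norm_nonneg _) (by positivity)
  calc _ ≤ ε / 2 / (Ca * Cb * Cc) * ‖a x‖ * ‖b x‖ * ‖c x‖ := h2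
    _ = ε / 2 / (Ca * Cb * Cc) * (‖a x‖ * ‖b x‖ * ‖c x‖) := by ring
    _ ≤ ε / 2 / (Ca * Cb * Cc) * (Ca * Cb * Cc) := mul_le_mul_of_nonneg_left h3 hθ.le
    _ = ε / 2 := div_mul_cancel₀ _ hM.ne'
    _ < ε := by linarith

/-- the error term -/
def hergb0_e (A : Appr I) (R : Rot) (n : ℕ) (i j : Fin 2) (x : P) : ℝ :=
  ⟪pd i (fun y => fderiv ℝ (A.W n) (X.psi R y) (hergb0_tau X (X.psi R y))) x, pd j (A.w R n) x⟫
    - (gm (X.psi R) i j x - X.hu R x * sf (X.psi R) i j x)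

theorem hergb0_e_cont (A : Appr I) (R : Rot) (n : ℕ) (i j : Fin 2) :
    Continuous (hergb0_e A R n i j) := by
  have h1 := (contDiff_pd ((hergb0_sm_Y A n).comp R) i).continuous
  have h2 := (contDiff_pd (A.imm_w R n).1 j).continuous
  exact (h1.inner h2).sub (((X.imm_psi R).sm_gm i j).continuous.sub
    ((X.continuous_hu R).mul ((X.imm_psi R).sm_sf i j).continuous))

theorem hergb0_e_conv (A : Appr I) (R : Rot) {K : Set P} (hK : IsCompact K) (i j : Fin 2) :
    TendstoUniformlyOn (fun n => hergb0_e A R n i j) (fun _ => 0) atTop K := by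
  have ca : ∀ k, Continuous (pd k (X.psi R)) := fun k => (contDiff_pd (X.sm_psi R) k).continuous
  have st := (hergb0_sm_tau X).comp R
  have cb := (contDiff_pd st i).continuous
  have h1 := hergb0_conv2 A R hK (ca i) st.continuous (ca j)
  have h2 := tu_inner hK (hergb0_conv1 A R hK cb) (hergb0_conv1 A R hK (ca j))
    (hergb0_cont I R cb).continuousOn (hergb0_cont I R (ca j)).continuousOn
  have h3 := tu_sub (tu_add h1 h2)
    (tu_const (K := K) (fun x => gm (X.psi R) i j x - X.hu R x * sf (X.psi R) i j x))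
  have e1 : (fun n => hergb0_e A R n i j) = fun n x =>
      chr (A.W n) (X.psi R x) (pd i (X.psi R) x) (hergb0_tau X (X.psi R x)) (pd j (X.psi R) x)
        + ⟪fderiv ℝ (A.W n) (X.psi R x) (pd i (fun y => hergb0_tau X (X.psi R y)) x),
            fderiv ℝ (A.W n) (X.psi R x) (pd j (X.psi R) x)⟫
        - (gm (X.psi R) i j x - X.hu R x * sf (X.psi R) i j x) := by
    funext n x
    unfold hergb0_e
    rw [hergb0_T]
  rw [e1]
  refine h3.congr_right fun x _ => ?_
  show chr X.pr (X.psi R x) (pd i (X.psi R) x) (hergb0_tau X (X.psi R x)) (pd j (X.psi R) x)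
        + ⟪fderiv ℝ I.V (X.psi R x) (pd i (fun y => hergb0_tau X (X.psi R y)) x),
            fderiv ℝ I.V (X.psi R x) (pd j (X.psi R) x)⟫
        - (gm (X.psi R) i j x - X.hu R x * sf (X.psi R) i j x) = 0
  rw [I.inner_V (X.ne_o (X.psi_mem R x)), ← hergb0_pr, sub_self]

variable (U : Pou X)

/-- second Herglotz identity: Codazzi for the approximation, tested with the surface -/
theorem Pou.herg2 (A : Appr I) : ∃ e : ℕ → Fin U.k → Fin 2 → Fin 2 → P → ℝ,
    (∀ n a i j, Continuous (e n a i j)) ∧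
    (∀ a i j, TendstoUniformlyOn (fun n => e n a i j) (fun _ => 0) atTop (closedBall 0 U.rho)) ∧
    ∀ n, U.II (fun a x => mx (fun i j => gm (X.psi (U.R a)) i j x
      - X.hu (U.R a) x * sf (X.psi (U.R a)) i j x + e n a i j x)
        (at2 (sf (A.w (U.R a) n)) x) / sq (A.w (U.R a) n) x) = 0 := by
  refine ⟨fun n a i j => hergb0_e A (U.R a) n i j, fun n a i j => hergb0_e_cont A _ n i j,
    fun a i j => hergb0_e_conv A _ (isCompact_closedBall _ _) i j, fun n => ?_⟩
  have hf : X.Sm (fun q => cr (fderiv ℝ (A.W n) q (hergb0_tau X q)) (X.NW (A.W n) q)) :=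
    fun q hq => contDiff_cr (hergb0_sm_Y A n q hq) (A.sm_NW n q hq)
  have h1 := U.stokes hf (A.sm_NW n)
  have h2 := U.II_mul (-1) (fun a => JJ
    (fun x => cr (fderiv ℝ (A.W n) (X.psi (U.R a) x) (hergb0_tau X (X.psi (U.R a) x)))
      (X.NW (A.W n) (X.psi (U.R a) x))) (fun x => X.NW (A.W n) (X.psi (U.R a) x)))
  rw [h1, mul_zero] at h2
  rw [← h2]
  refine congrArg U.II (funext fun a => funext fun x => ?_)
  have e1 : (fun x => X.NW (A.W n) (X.psi (U.R a) x)) = un (A.w (U.R a) n) :=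
    funext fun y => (A.un_w _ n y).symm
  have e2 : (fun x => cr (fderiv ℝ (A.W n) (X.psi (U.R a) x) (hergb0_tau X (X.psi (U.R a) x)))
      (X.NW (A.W n) (X.psi (U.R a) x))) =
      fun x => cr (fderiv ℝ (A.W n) (X.psi (U.R a) x) (hergb0_tau X (X.psi (U.R a) x)))
        (un (A.w (U.R a) n) x) := funext fun y => by rw [A.un_w]
  have hd : DifferentiableAt ℝ
      (fun y => fderiv ℝ (A.W n) (X.psi (U.R a) y) (hergb0_tau X (X.psi (U.R a) y))) x :=
    ((hergb0_sm_Y A n).comp (U.R a)).differentiable (by simp) x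
  have h3 := (A.imm_w (U.R a) n).JJ_cr hd
  rw [e1, e2, h3, hergb0_orth]
  have e3 : (fun i j => gm (X.psi (U.R a)) i j x - X.hu (U.R a) x * sf (X.psi (U.R a)) i j x
      + hergb0_e A (U.R a) n i j x) = fun i j => ⟪pd i (fun y =>
        fderiv ℝ (A.W n) (X.psi (U.R a) y) (hergb0_tau X (X.psi (U.R a) y))) x,
          pd j (A.w (U.R a) n) x⟫ := by
    funext i j
    unfold hergb0_e
    ring
  rw [e3]
  ring

end Pool.Agent.Bor
end
end

-- part Pool.Agent.P.MP_26ecb7_gt.HergB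
section

noncomputable section
open Set Filter Topology MeasureTheory Metric
open scoped RealInnerProductSpace ContDiff ENNReal

namespace Pool.Agent.Bor

variable {X : Surf} {I : Iso X} (U : Pou X)

theorem hergb_pd_hs {w : P → E} (hw : Imm w) (i : Fin 2) (x : P) :
    pd i (hs w) x = ∑ k, ∑ l, gi w k l x * ⟪w x, pd k w x⟫ * sf w i l x := by
  have d1 : DifferentiableAt ℝ w x := (hw.1.differentiable (by simp)) x
  have d2 : DifferentiableAt ℝ (un w) x := (hw.sm_un.differentiable (by simp)) x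
  have h := pd_inner d1 d2 i
  have e1 : ⟪pd i w x, un w x⟫ = 0 := by rw [real_inner_comm]; exact un_pd w i x
  have e2 : ⟪pd i (un w) x, un w x⟫ = 0 := by rw [real_inner_comm]; exact hw.un_pd_un i x
  rw [e1, zero_add, hw.inner_exp x (w x) (pd i (un w) x), e2, mul_zero, zero_add] at h
  exact h

theorem hergb_bound {K : Set P} (hK : IsCompact K) {f : ℕ → P → ℝ} {f0 : P → ℝ}
    (hf : TendstoUniformlyOn f f0 atTop K) (c : Continuous f0) :
    ∃ G : ℝ, 0 ≤ G ∧ ∀ᶠ n in atTop, ∀ x ∈ K, |f n x| ≤ G := by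
  obtain ⟨B, hB⟩ := hK.exists_bound_of_continuousOn c.continuousOn
  refine ⟨|B| + 1, by positivity, ?_⟩
  filter_upwards [Metric.tendstoUniformlyOn_iff.1 hf 1 one_pos] with n hn x hx
  have h1 := hn x hx
  have h2 := hB x hx
  rw [Real.dist_eq] at h1
  rw [Real.norm_eq_abs] at h2
  have h3 := le_abs_self B
  have h4 := abs_sub_abs_le_abs_sub (f n x) (f0 x)
  rw [abs_sub_comm] at h4
  linarith

theorem hergb_hs (A : Appr I) (R : Rot) {K : Set P} (hK : IsCompact K) :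
    ∃ M : ℝ, 0 ≤ M ∧ ∀ᶠ n in atTop, ∀ x ∈ K, |hs (A.w R n) x| ≤ M ∧
      |pd 0 (hs (A.w R n)) x| + |pd 1 (hs (A.w R n)) x| ≤ M * ab (at2 (sf (A.w R n)) x) := by
  obtain ⟨C0, hC0, hW⟩ := A.bound_W
  have hG := fun i j => hergb_bound hK (A.gi_conv R hK i j) ((X.imm_psi R).sm_gi i j).continuous
  choose G hG0 hG using hG
  have hP := fun i => hK.exists_bound_of_continuousOn
    (contDiff_pd (X.sm_psi R) i).continuous.continuousOn
  choose Q hQ using hP
  set G' := ∑ i, ∑ j, G i j with hG'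
  set Q' := ∑ i, |Q i| with hQ'
  have hGle : ∀ i j, G i j ≤ G' := fun i j =>
    (Finset.single_le_sum (f := G i) (fun j _ => hG0 i j) (Finset.mem_univ j)).trans
      (Finset.single_le_sum (f := fun i => ∑ j, G i j)
        (fun i _ => Finset.sum_nonneg fun j _ => hG0 i j) (Finset.mem_univ i))
  have hQle : ∀ i, Q i ≤ Q' := fun i => (le_abs_self _).trans
    (Finset.single_le_sum (f := fun i => |Q i|) (fun i _ => abs_nonneg _) (Finset.mem_univ i))
  have hG'0 : 0 ≤ G' := (hG0 0 0).trans (hGle 0 0)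
  have hQ'0 : 0 ≤ Q' := Finset.sum_nonneg fun i _ => abs_nonneg _
  refine ⟨C0 + 2 * (G' * (C0 * (C0 * Q'))), by positivity, ?_⟩
  have hGa : ∀ᶠ n in atTop, ∀ i j, ∀ x ∈ K, |gi (A.w R n) i j x| ≤ G i j :=
    eventually_all.2 fun i => eventually_all.2 fun j => hG i j
  filter_upwards [hW, hGa] with n hn hg x hx
  have hw := A.imm_w R n
  have hm : X.psi R x ∈ thickening A.tau X.S := self_subset_thickening A.tau_pos _ (X.psi_mem R x)
  have b1 : ‖A.w R n x‖ ≤ C0 := (hn _ hm).1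
  have b2 : ∀ k, ‖pd k (A.w R n) x‖ ≤ C0 * Q' := fun k => by
    rw [A.pd_w]
    exact (ContinuousLinearMap.le_opNorm _ _).trans
      (mul_le_mul (hn _ hm).2 ((hQ k x hx).trans (hQle k)) (norm_nonneg _) hC0)
  have b3 : ∀ k l, |gi (A.w R n) k l x * ⟪A.w R n x, pd k (A.w R n) x⟫| ≤
      G' * (C0 * (C0 * Q')) := fun k l => by
    rw [abs_mul]
    refine mul_le_mul ((hg k l x hx).trans (hGle k l)) ?_ (abs_nonneg _) hG'0
    exact (abs_real_inner_le_norm _ _).trans (mul_le_mul b1 (b2 k) (norm_nonneg _) hC0)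
  set T := G' * (C0 * (C0 * Q')) with hT
  have hT0 : 0 ≤ T := by positivity
  have b4 : ∀ i, |pd i (hs (A.w R n)) x| ≤
      2 * T * (|sf (A.w R n) i 0 x| + |sf (A.w R n) i 1 x|) := fun i => by
    have b5 : ∀ k l, |gi (A.w R n) k l x * ⟪A.w R n x, pd k (A.w R n) x⟫ * sf (A.w R n) i l x| ≤
        T * |sf (A.w R n) i l x| := fun k l => by
      rw [abs_mul]
      exact mul_le_mul_of_nonneg_right (b3 k l) (abs_nonneg _)
    rw [hergb_pd_hs hw]
    simp only [Fin.sum_univ_two]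
    have := abs_le.1 (b5 0 0)
    have := abs_le.1 (b5 0 1)
    have := abs_le.1 (b5 1 0)
    have := abs_le.1 (b5 1 1)
    rw [abs_le]
    constructor <;> linarith
  constructor
  · have := abs_real_inner_le_norm (A.w R n x) (un (A.w R n) x)
    rw [hw.norm_un, mul_one] at this
    unfold hs
    linarith
  · have h0 := b4 0
    have h1 := b4 1
    have h2 : 0 ≤ C0 * ab (at2 (sf (A.w R n)) x) := by unfold ab; positivity
    simp only [ab, at2] at h2 ⊢
    linarith

theorem hergb_pd_mul {f g : P → ℝ} {x : P} (hf : DifferentiableAt ℝ f x)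
    (hg : DifferentiableAt ℝ g x) (i : Fin 2) :
    pd i (fun y => f y * g y) x = pd i f x * g x + f x * pd i g x := by
  unfold pd
  rw [fderiv_fun_mul hf hg]
  simp only [ContinuousLinearMap.add_apply, ContinuousLinearMap.smul_apply, smul_eq_mul]
  ring

theorem hergb_pd_sub {f g : P → ℝ} {x : P} (hf : DifferentiableAt ℝ f x)
    (hg : DifferentiableAt ℝ g x) (i : Fin 2) :
    pd i (fun y => f y - g y) x = pd i f x - pd i g x := by
  unfold pd
  rw [fderiv_fun_sub hf hg]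
  rfl

theorem hergb_ab {w : P → E} (hw : Imm w) : Continuous fun x => ab (at2 (sf w) x) := by
  have := fun i j => (hw.sm_sf i j).continuous
  unfold ab at2
  exact ((((this 0 0).abs.add (this 0 1).abs).add (this 1 0).abs).add (this 1 1).abs)

theorem hergb_chart (A : Appr I) (a : Fin U.k) {C : ℝ}
    (hC : ∀ᶠ n in atTop, ∫ x, U.chi a (X.psi (U.R a) x) * ab (at2 (sf (A.w (U.R a) n)) x) ≤ C) :
    Tendsto (fun n => ∫ x, U.chi a (X.psi (U.R a) x) * (hs (A.w (U.R a) n) x *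
      (kap (un (A.w (U.R a) n)) x - X.ka (U.R a) x))) atTop (𝓝 0) := by
  set R := U.R a with hR
  set χ : P → ℝ := fun x => U.chi a (X.psi R x) with hχ
  have hK : IsCompact (closedBall (0 : P) U.rho) := isCompact_closedBall _ _
  have sχ : ContDiff ℝ ∞ χ := U.sm a
  have cχ : HasCompactSupport χ := U.cs a
  have dχ : Differentiable ℝ χ := sχ.differentiable (by simp)
  have zχ : ∀ x, x ∉ closedBall (0 : P) U.rho → χ x = 0 := fun x hx => U.eq_zero a hx
  have zd : ∀ i x, x ∉ closedBall (0 : P) U.rho → pd i χ x = 0 := fun i x hx => by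
    have h : χ =ᶠ[𝓝 x] fun _ => 0 := by
      filter_upwards [isClosed_closedBall.isOpen_compl.mem_nhds hx] with y hy using zχ y hy
    unfold pd
    rw [h.fderiv_eq]
    simp
  have iχ : ∀ i, Integrable fun x => |pd i χ x| := fun i =>
    ((contDiff_pd sχ i).continuous.integrable_of_hasCompactSupport
      (HasCompactSupport.intro hK (zd i))).abs
  obtain ⟨M, hM0, hM⟩ := hergb_hs A R hK
  set J := ∫ x, (|pd 0 χ x| + |pd 1 χ x|) with hJ
  have hJ0 : 0 ≤ J := integral_nonneg fun x => by positivity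
  have hψ := X.imm_psi R
  rw [Metric.tendsto_nhds]
  intro ε hε
  set θ := ε / (M * J + M * |C| + 1) with hθ
  have hD : 0 < M * J + M * |C| + 1 := by positivity
  have hθ0 : 0 < θ := div_pos hε hD
  have ho : ∀ᶠ n in atTop, ∀ i, ∀ x ∈ closedBall (0 : P) U.rho,
      dist (om (X.psi R) i x) (om (A.w R n) i x) < θ :=
    eventually_all.2 fun i => Metric.tendstoUniformlyOn_iff.1 (A.om_conv R hK i) θ hθ0
  filter_upwards [hM, hC, ho] with n hn hc ho
  have hw := A.imm_w R n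
  have sh := hw.sm_hs
  have dh : Differentiable ℝ (hs (A.w R n)) := sh.differentiable (by simp)
  have so : ∀ i, ContDiff ℝ ∞ fun x => om (A.w R n) i x - om (X.psi R) i x := fun i =>
    (hw.sm_om i).sub (hψ.sm_om i)
  have bp := by_parts (f := fun x => χ x * hs (A.w R n) x) ((sχ.mul sh).of_le (by simp))
    cχ.mul_right ((so 0).of_le (by simp)) ((so 1).of_le (by simp))
  have e : ∀ x, χ x * (hs (A.w R n) x * (kap (un (A.w R n)) x - X.ka R x)) =
      χ x * hs (A.w R n) x * (pd 1 (fun x => om (A.w R n) 0 x - om (X.psi R) 0 x) x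
        - pd 0 (fun x => om (A.w R n) 1 x - om (X.psi R) 1 x) x) := fun x => by
    rw [hergb_pd_sub ((hw.sm_om 0).differentiable (by simp) x)
        ((hψ.sm_om 0).differentiable (by simp) x),
      hergb_pd_sub ((hw.sm_om 1).differentiable (by simp) x)
        ((hψ.sm_om 1).differentiable (by simp) x), Surf.ka, hw.gauss, hψ.gauss]
    ring
  have i2 : Integrable fun x => χ x * ab (at2 (sf (A.w R n)) x) := U.integrable a (hergb_ab hw)
  have i1 : Integrable fun x => |pd 0 χ x| + |pd 1 χ x| := (iχ 0).add (iχ 1)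
  have key : ‖∫ x, (pd 0 (fun x => χ x * hs (A.w R n) x) x *
        (om (A.w R n) 1 x - om (X.psi R) 1 x) -
      pd 1 (fun x => χ x * hs (A.w R n) x) x * (om (A.w R n) 0 x - om (X.psi R) 0 x))‖ ≤
      ∫ x, θ * (M * (|pd 0 χ x| + |pd 1 χ x|) + M * (χ x * ab (at2 (sf (A.w R n)) x))) := by
    refine norm_integral_le_of_norm_le (((i1.const_mul M).add (i2.const_mul M)).const_mul θ)
      (Eventually.of_forall fun x => ?_)
    rw [hergb_pd_mul (dχ x) (dh x), hergb_pd_mul (dχ x) (dh x), Real.norm_eq_abs]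
    by_cases hx : x ∈ closedBall (0 : P) U.rho
    swap
    · simp [zχ x hx, zd _ x hx]
    have hχ0 : 0 ≤ χ x := U.nonneg a _
    have t : ∀ i j, |(pd i χ x * hs (A.w R n) x + χ x * pd i (hs (A.w R n)) x) *
        (om (A.w R n) j x - om (X.psi R) j x)| ≤
        θ * (M * |pd i χ x| + χ x * |pd i (hs (A.w R n)) x|) := fun i j => by
      have o1 := ho j x hx
      rw [Real.dist_eq, abs_sub_comm] at o1
      rw [abs_mul, mul_comm]
      refine mul_le_mul o1.le ((abs_add_le _ _).trans ?_) (abs_nonneg _) hθ0.le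
      rw [abs_mul, abs_mul, abs_of_nonneg hχ0, mul_comm]
      exact add_le_add (mul_le_mul_of_nonneg_right (hn x hx).1 (abs_nonneg _)) le_rfl
    have t2 := mul_le_mul_of_nonneg_left (mul_le_mul_of_nonneg_left (hn x hx).2 hχ0) hθ0.le
    have t3 := (abs_sub _ _).trans (add_le_add (t 0 1) (t 1 0))
    linarith
  rw [integral_const_mul, integral_add (i1.const_mul M) (i2.const_mul M), integral_const_mul,
    integral_const_mul, ← bp] at key
  rw [dist_zero_right]
  change ‖∫ x, χ x * (hs (A.w R n) x * (kap (un (A.w R n)) x - X.ka R x))‖ < ε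
  simp only [e]
  refine key.trans_lt ?_
  have c1 : M * ∫ x, χ x * ab (at2 (sf (A.w R n)) x) ≤ M * |C| :=
    mul_le_mul_of_nonneg_left (le_trans hc (le_abs_self C)) hM0
  have c2 : θ * (M * J + M * |C| + 1) = ε := div_mul_cancel₀ _ hD.ne'
  have c3 := mul_le_mul_of_nonneg_left c1 hθ0.le
  rw [← hJ]
  linarith

/-- weak Gauss equation tested with the support function -/
theorem Pou.gauss_lim (A : Appr I) {C : ℝ}
    (hC : ∀ᶠ n in atTop, U.II (fun a x => ab (at2 (sf (A.w (U.R a) n)) x)) ≤ C) :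
    Tendsto (fun n => U.II (fun a x => hs (A.w (U.R a) n) x *
      (kap (un (A.w (U.R a) n)) x - X.ka (U.R a) x))) atTop (𝓝 0) := by
  have h := tendsto_finset_sum (Finset.univ : Finset (Fin U.k)) fun a _ =>
    hergb_chart U A a (C := C) (by
      filter_upwards [hC] with n hn
      refine le_trans ?_ hn
      exact Finset.single_le_sum (f := fun a => ∫ x, U.chi a (X.psi (U.R a) x) *
        ab (at2 (sf (A.w (U.R a) n)) x)) (fun b _ => integral_nonneg fun x =>
          mul_nonneg (U.nonneg b _) (by unfold ab; positivity)) (Finset.mem_univ a))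
  simpa [Pou.II] using h

end Pool.Agent.Bor
end
end

-- part Pool.Agent.P.MP_26ecb7_gt.Tang0
section

noncomputable section
open Set Filter Topology MeasureTheory Metric
open scoped RealInnerProductSpace ContDiff ENNReal

namespace Pool.Agent.Bor

theorem tang0_hol {D : E → E →L[ℝ] E} {U : Set E} (hU : Convex ℝ U) {al H : ℝ}
    (hol : ∀ y ∈ U, ∀ z ∈ U, ‖D y - D z‖ ≤ H * ‖y - z‖ ^ al) {z z' : E} (hz : z ∈ U)
    (hz' : z' ∈ U) (a : E) : ∀ x ∈ Icc (0 : ℝ) 1, ∀ y ∈ Icc (0 : ℝ) 1,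
      ‖D (z + x • (z' - z)) a - D (z + y • (z' - z)) a‖
        ≤ H * ‖z' - z‖ ^ al * ‖a‖ * |x - y| ^ al := by
  intro x hx y hy
  have h1 := hol _ (hU.add_smul_sub_mem hz hz' hx) _ (hU.add_smul_sub_mem hz hz' hy)
  have h2 : z + x • (z' - z) - (z + y • (z' - z)) = (x - y) • (z' - z) := by
    rw [sub_smul]
    abel
  rw [h2, norm_smul, Real.norm_eq_abs, Real.mul_rpow (abs_nonneg _) (norm_nonneg _)] at h1
  rw [← sub_apply]
  refine (ContinuousLinearMap.le_opNorm _ _).trans ?_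
  refine (mul_le_mul_of_nonneg_right h1 (norm_nonneg a)).trans (le_of_eq ?_)
  ring

theorem tang0_core {W : E → E} (hW : ContDiff ℝ ∞ W) {U : Set E} (hU : Convex ℝ U) {al H : ℝ}
    (hal : 1 / 2 < al) (hH : 0 ≤ H)
    (hol : ∀ y ∈ U, ∀ z ∈ U, ‖fderiv ℝ W y - fderiv ℝ W z‖ ≤ H * ‖y - z‖ ^ al) {z z' : E}
    (hz : z ∈ U) (hz' : z' ∈ U) (a c : E) {p B : ℝ}
    (hB : ∀ t ∈ Icc (0 : ℝ) 1, |chr W (z + t • (z' - z)) (z' - z) a c - p| ≤ B) :
    |⟪fderiv ℝ W z c, fderiv ℝ W z' a - fderiv ℝ W z a⟫ - p|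
      ≤ B + yc al * H ^ 2 * ‖z' - z‖ ^ (2 * al) * ‖a‖ * ‖c‖ := by
  set b := z' - z with hb
  have hD : ContDiff ℝ ∞ (fderiv ℝ W) := hW.fderiv_right (by simp)
  have hD2 : Continuous (fderiv ℝ (fderiv ℝ W)) := hD.continuous_fderiv (by simp)
  have hl : ∀ t : ℝ, HasDerivAt (fun t : ℝ => z + t • b) b t := fun t => by
    simpa using ((hasDerivAt_id t).smul_const b).const_add z
  have hlc : Continuous fun t : ℝ => z + t • b := by fun_prop
  set f : ℝ → E := fun t => fderiv ℝ W (z + t • b) c with hf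
  set g : ℝ → E := fun t => fderiv ℝ W (z + t • b) a with hg
  set g' : ℝ → E := fun t => fderiv ℝ (fderiv ℝ W) (z + t • b) b a with hg'
  have hfc : Continuous f := (hD.continuous.comp hlc).clm_apply continuous_const
  have hg'c : Continuous g' :=
    ((hD2.comp hlc).clm_apply continuous_const).clm_apply continuous_const
  have hgd : ∀ t, HasDerivAt g (g' t) t := fun t => by
    have h1 := (hD.differentiable (by simp) (z + t • b)).hasFDerivAt.comp_hasDerivAt t (hl t)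
    have h2 := h1.clm_apply (hasDerivAt_const t a)
    simpa using h2
  have hbp : 0 ≤ ‖b‖ ^ al := Real.rpow_nonneg (norm_nonneg _) _
  have hY := young hal (f := f) (g := g) (g' := g') zero_le_one
    (mul_nonneg (mul_nonneg hH hbp) (norm_nonneg c))
    (mul_nonneg (mul_nonneg hH hbp) (norm_nonneg a)) hfc.continuousOn (fun t _ => hgd t)
    hg'c.continuousOn (tang0_hol hU hol hz hz' c) (tang0_hol hU hol hz hz' a)
  have hF : ∫ t in (0 : ℝ)..1, ⟪f 0, g' t⟫ = ⟪f 0, g 1⟫ - ⟪f 0, g 0⟫ := by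
    refine intervalIntegral.integral_eq_sub_of_hasDerivAt (f := fun t => ⟪f 0, g t⟫)
      (fun t _ => ?_) ((continuous_const.inner hg'c).intervalIntegrable _ _)
    simpa using (hasDerivAt_const t (f 0)).inner ℝ (hgd t)
  have hi1 : IntervalIntegrable (fun t => ⟪f t, g' t⟫ - p) volume (0 : ℝ) 1 :=
    ((hfc.inner hg'c).sub continuous_const).intervalIntegrable _ _
  have hi2 : IntervalIntegrable (fun t => ⟪f t - f 0, g' t⟫) volume (0 : ℝ) 1 :=
    ((hfc.sub continuous_const).inner hg'c).intervalIntegrable _ _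
  have hi3 : IntervalIntegrable (fun t => ⟪f 0, g' t⟫) volume (0 : ℝ) 1 :=
    (continuous_const.inner hg'c).intervalIntegrable _ _
  have hE : ⟪f 0, g 1⟫ - ⟪f 0, g 0⟫ - p =
      (∫ t in (0 : ℝ)..1, (⟪f t, g' t⟫ - p)) - ∫ t in (0 : ℝ)..1, ⟪f t - f 0, g' t⟫ := by
    rw [← intervalIntegral.integral_sub hi1 hi2, ← hF]
    have h3 : ∫ t in (0 : ℝ)..1, (⟪f 0, g' t⟫ - p) = (∫ t in (0 : ℝ)..1, ⟪f 0, g' t⟫) - p := by
      rw [intervalIntegral.integral_sub hi3 intervalIntegrable_const]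
      simp
    rw [← h3]
    refine intervalIntegral.integral_congr fun t _ => ?_
    simp only [inner_sub_left]
    ring
  have hI : |∫ t in (0 : ℝ)..1, (⟪f t, g' t⟫ - p)| ≤ B := by
    have h4 := intervalIntegral.norm_integral_le_of_norm_le_const (a := (0 : ℝ)) (b := 1) (C := B)
      (f := fun t => ⟪f t, g' t⟫ - p) (fun t ht => by
        rw [uIoc_of_le zero_le_one] at ht
        have h5 := hB t (Ioc_subset_Icc_self ht)
        rw [Real.norm_eq_abs, real_inner_comm]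
        exact h5)
    simpa using h4
  have h0 : f 0 = fderiv ℝ W z c := by simp [hf]
  have h1 : g 0 = fderiv ℝ W z a := by simp [hg]
  have h2 : g 1 = fderiv ℝ W z' a := by simp [hg, hb]
  rw [inner_sub_right, ← h0, ← h1, ← h2, hE]
  refine (abs_sub _ _).trans (add_le_add hI (hY.trans (le_of_eq ?_)))
  have h6 : ‖b‖ ^ (2 * al) = ‖b‖ ^ al * ‖b‖ ^ al := by
    rw [two_mul, Real.rpow_add_of_nonneg (norm_nonneg _) (by linarith) (by linarith)]
  rw [h6, sub_zero, Real.one_rpow]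
  ring

theorem tang0_bd {Y : Type} [NormedAddCommGroup Y] [NormedSpace ℝ Y] {f : E → Y} {K : Set E}
    (hK : IsCompact K) (h : ∀ z ∈ K, ContDiffAt ℝ ∞ f z) : ∃ C : ℝ, 0 ≤ C ∧ (∀ z ∈ K, ‖f z‖ ≤ C) ∧
      ∀ U ⊆ K, Convex ℝ U → ∀ z ∈ U, ∀ y ∈ U, ‖f y - f z‖ ≤ C * ‖y - z‖ := by
  have h1 : ∀ z ∈ K, ContDiffAt ℝ ∞ (fderiv ℝ f) z := fun z hz => (h z hz).fderiv_right (by simp)
  obtain ⟨C0, hC0⟩ := hK.exists_bound_of_continuousOn (f := f)
    (fun z hz => (h z hz).continuousAt.continuousWithinAt)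
  obtain ⟨C1, hC1⟩ := hK.exists_bound_of_continuousOn (f := fderiv ℝ f)
    (fun z hz => (h1 z hz).continuousAt.continuousWithinAt)
  refine ⟨|C0| + |C1|, by positivity, fun z hz => ?_, fun U hU hc z hz y hy => ?_⟩
  · linarith [hC0 z hz, le_abs_self C0, abs_nonneg C1]
  · refine hc.norm_image_sub_le_of_norm_fderiv_le (𝕜 := ℝ)
      (fun x hx => (h x (hU hx)).differentiableAt (by simp)) (fun x hx => ?_) hz hy
    linarith [hC1 x (hU hx), le_abs_self C1, abs_nonneg C0]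

theorem tang0_lip {X : Surf} {I : Iso X} (A : Appr I) : ∃ C : ℝ, 0 ≤ C ∧ ∀ q ∈ X.S,
    ∀ z ∈ ball q A.tau, ∀ y ∈ ball q A.tau, ∀ b a c : E,
      |chr X.pr y b a c - chr X.pr z b a c| ≤ C * ‖y - z‖ * ‖b‖ * ‖a‖ * ‖c‖ := by
  have hK : IsCompact (cthickening A.tau X.S) := X.cpt.cthickening
  have h0 : ∀ z ∈ cthickening A.tau X.S, ContDiffAt ℝ ∞ X.pr z := fun z hz =>
    X.pr_smooth z (fun h => A.o_not (h ▸ hz))
  have h1 : ∀ z ∈ cthickening A.tau X.S, ContDiffAt ℝ ∞ (fderiv ℝ X.pr) z := fun z hz =>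
    (h0 z hz).fderiv_right (by simp)
  have h2 : ∀ z ∈ cthickening A.tau X.S, ContDiffAt ℝ ∞ (fderiv ℝ (fderiv ℝ X.pr)) z :=
    fun z hz => (h1 z hz).fderiv_right (by simp)
  obtain ⟨C1, p1, hC1, hL1⟩ := tang0_bd hK h1
  obtain ⟨C2, p2, hC2, hL2⟩ := tang0_bd hK h2
  refine ⟨C2 * C1 + C2 * C1, by positivity, fun q hq z hz y hy b a c => ?_⟩
  have hs : ball q A.tau ⊆ cthickening A.tau X.S :=
    (ball_subset_thickening hq _).trans (thickening_subset_cthickening _ _)
  have l1 := hL1 _ hs (convex_ball q A.tau) z hz y hy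
  have l2 := hL2 _ hs (convex_ball q A.tau) z hz y hy
  have b1 := hC1 y (hs hy)
  have b2 := hC2 z (hs hz)
  have e : chr X.pr y b a c - chr X.pr z b a c =
      ⟪(fderiv ℝ (fderiv ℝ X.pr) y - fderiv ℝ (fderiv ℝ X.pr) z) b a, fderiv ℝ X.pr y c⟫
        + ⟪fderiv ℝ (fderiv ℝ X.pr) z b a, (fderiv ℝ X.pr y - fderiv ℝ X.pr z) c⟫ := by
    simp only [chr, sub_apply, inner_sub_left, inner_sub_right]
    ring
  have t1 : |⟪(fderiv ℝ (fderiv ℝ X.pr) y - fderiv ℝ (fderiv ℝ X.pr) z) b a, fderiv ℝ X.pr y c⟫|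
      ≤ (C2 * ‖y - z‖ * ‖b‖ * ‖a‖) * (C1 * ‖c‖) := by
    refine (abs_real_inner_le_norm _ _).trans (mul_le_mul ?_ ?_ (norm_nonneg _) (by positivity))
    · exact (ContinuousLinearMap.le_opNorm₂ _ _ _).trans (by gcongr)
    · exact (ContinuousLinearMap.le_opNorm _ _).trans (by gcongr)
  have t2 : |⟪fderiv ℝ (fderiv ℝ X.pr) z b a, (fderiv ℝ X.pr y - fderiv ℝ X.pr z) c⟫|
      ≤ (C2 * ‖b‖ * ‖a‖) * (C1 * ‖y - z‖ * ‖c‖) := by
    refine (abs_real_inner_le_norm _ _).trans (mul_le_mul ?_ ?_ (norm_nonneg _) (by positivity))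
    · exact (ContinuousLinearMap.le_opNorm₂ _ _ _).trans (by gcongr)
    · exact (ContinuousLinearMap.le_opNorm _ _).trans (by gcongr)
  rw [e]
  refine (abs_add_le _ _).trans ((add_le_add t1 t2).trans (le_of_eq ?_))
  ring

/-- tangential increments of the derivative are smooth up to order `2 al` -/
theorem Appr.tang {X : Surf} {I : Iso X} (A : Appr I) : ∃ K : ℝ, 0 ≤ K ∧ ∀ q ∈ X.S,
    ∀ z ∈ ball q A.tau, ∀ z' ∈ ball q A.tau, ∀ a c : E,
      |⟪fderiv ℝ I.V z c, fderiv ℝ I.V z' a - fderiv ℝ I.V z a⟫ - chr X.pr z (z' - z) a c|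
        ≤ K * ‖z' - z‖ ^ (2 * I.al) * ‖a‖ * ‖c‖ := by
  obtain ⟨C, hC, hL⟩ := tang0_lip A
  have hy := yc_pos I.al_gt
  refine ⟨C + yc I.al * A.H ^ 2, by positivity, fun q hq z hz z' hz' a c => ?_⟩
  have hs : ball q A.tau ⊆ thickening A.tau X.S := ball_subset_thickening hq _
  have hb1 : ‖z' - z‖ ≤ 1 := by
    have h1 := dist_triangle_right z' z q
    rw [dist_eq_norm] at h1
    have h2 := mem_ball.1 hz
    have h3 := mem_ball.1 hz'
    linarith [A.tau_le]
  have hb2 : ‖z' - z‖ * ‖z' - z‖ ≤ ‖z' - z‖ ^ (2 * I.al) := by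
    have h1 := Real.rpow_le_rpow_of_exponent_ge' (norm_nonneg (z' - z)) hb1
      (z := 2 * I.al) (y := 2) (by linarith [I.al_gt]) (by linarith [I.al_le])
    rw [Real.rpow_two, pow_two] at h1
    exact h1
  have c1 := A.c1.tendsto_at (hs hz)
  have c2 := A.c1.tendsto_at (hs hz')
  have ev : ∀ u : E, Continuous fun L : E →L[ℝ] E => L u := fun u =>
    continuous_id.clm_apply continuous_const
  have hlim : Tendsto (fun n => |⟪fderiv ℝ (A.W n) z c, fderiv ℝ (A.W n) z' a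
      - fderiv ℝ (A.W n) z a⟫ - chr X.pr z (z' - z) a c|) atTop
      (𝓝 |⟪fderiv ℝ I.V z c, fderiv ℝ I.V z' a - fderiv ℝ I.V z a⟫ - chr X.pr z (z' - z) a c|) :=
    (((((ev c).tendsto _).comp c1).inner ((((ev a).tendsto _).comp c2).sub
      (((ev a).tendsto _).comp c1))).sub_const _).abs
  refine le_of_forall_pos_le_add fun ε hε => le_of_tendsto hlim ?_
  have hp : 0 < ‖z' - z‖ * ‖a‖ * ‖c‖ + 1 := by positivity
  filter_upwards [A.c2 (ε / (‖z' - z‖ * ‖a‖ * ‖c‖ + 1)) (div_pos hε hp)] with n hn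
  have hθ : ε / (‖z' - z‖ * ‖a‖ * ‖c‖ + 1) * ‖z' - z‖ * ‖a‖ * ‖c‖ ≤ ε := by
    rw [mul_assoc, mul_assoc, ← mul_assoc ‖z' - z‖, div_mul_eq_mul_div, div_le_iff₀ hp]
    exact mul_le_mul_of_nonneg_left (by linarith) hε.le
  have key := tang0_core (A.smooth n) (convex_ball q A.tau) I.al_gt A.H_nonneg
    (fun y hy z hz => A.hol n y (hs hy) z (hs hz)) hz hz' a c (p := chr X.pr z (z' - z) a c)
    (B := ε + C * ‖z' - z‖ ^ (2 * I.al) * ‖a‖ * ‖c‖) (fun t ht => by
      have hm := (convex_ball q A.tau).add_smul_sub_mem hz hz' ht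
      have h1 := (hn _ (hs hm) (z' - z) a c).trans hθ
      have h2 := hL q hq z hz _ hm (z' - z) a c
      have h3 : ‖z + t • (z' - z) - z‖ ≤ ‖z' - z‖ := by
        rw [add_sub_cancel_left, norm_smul, Real.norm_eq_abs, abs_of_nonneg ht.1]
        exact mul_le_of_le_one_left (norm_nonneg _) ht.2
      have h4 : C * ‖z + t • (z' - z) - z‖ * ‖z' - z‖ * ‖a‖ * ‖c‖
          ≤ C * ‖z' - z‖ ^ (2 * I.al) * ‖a‖ * ‖c‖ := by
        have h5 : ‖z + t • (z' - z) - z‖ * ‖z' - z‖ ≤ ‖z' - z‖ ^ (2 * I.al) :=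
          (mul_le_mul_of_nonneg_right h3 (norm_nonneg _)).trans hb2
        rw [mul_assoc C]
        gcongr
      exact (abs_sub_le _ _ _).trans (add_le_add h1 (h2.trans h4)))
  refine key.trans (le_of_eq ?_)
  ring


end Pool.Agent.Bor
end
end

-- part Pool.Agent.P.MP_26ecb7_gt.Tang
section

noncomputable section
open Set Filter Topology MeasureTheory Metric
open scoped RealInnerProductSpace ContDiff ENNReal

namespace Pool.Agent.Bor

/-- bound for the Christoffel expression of the projection -/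
theorem Appr.chr_le {X : Surf} {I : Iso X} (A : Appr I) : ∃ K : ℝ, 0 ≤ K ∧
    ∀ z ∈ thickening A.tau X.S, ∀ a b c : E, |chr X.pr z a b c| ≤ K * ‖a‖ * ‖b‖ * ‖c‖ := by
  have hK : IsCompact (cthickening A.tau X.S) := X.cpt.cthickening
  have hne : ∀ z ∈ cthickening A.tau X.S, z ≠ X.o := fun z hz e => A.o_not (e ▸ hz)
  have h1 : ∀ z ∈ cthickening A.tau X.S, ContDiffAt ℝ 1 (fderiv ℝ X.pr) z := fun z hz =>
    (X.pr_smooth z (hne z hz)).fderiv_right (m := 1)
      (WithTop.coe_le_coe.2 (le_top : ((1 + 1 : ℕ∞)) ≤ ⊤))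
  have c1 : ContinuousOn (fderiv ℝ X.pr) (cthickening A.tau X.S) := fun z hz =>
    (h1 z hz).continuousAt.continuousWithinAt
  have c2 : ContinuousOn (fderiv ℝ (fderiv ℝ X.pr)) (cthickening A.tau X.S) := fun z hz =>
    ((h1 z hz).fderiv_right (m := 0) (by simp)).continuousAt.continuousWithinAt
  obtain ⟨M1, hM1⟩ := hK.exists_bound_of_continuousOn c1
  obtain ⟨M2, hM2⟩ := hK.exists_bound_of_continuousOn (E := E →L[ℝ] E →L[ℝ] E)
    (f := fderiv ℝ (fderiv ℝ X.pr)) c2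
  refine ⟨max M2 0 * max M1 0, by positivity, fun z hz a b c => ?_⟩
  have hz' := thickening_subset_cthickening _ _ hz
  have b1 : ‖fderiv ℝ X.pr z c‖ ≤ max M1 0 * ‖c‖ :=
    (ContinuousLinearMap.le_opNorm _ _).trans
      (mul_le_mul_of_nonneg_right ((hM1 z hz').trans (le_max_left _ _)) (norm_nonneg _))
  have b2 : ‖fderiv ℝ (fderiv ℝ X.pr) z a b‖ ≤ max M2 0 * ‖a‖ * ‖b‖ :=
    (ContinuousLinearMap.le_opNorm₂ _ _ _).trans (mul_le_mul_of_nonneg_right
      (mul_le_mul_of_nonneg_right ((hM2 z hz').trans (le_max_left _ _)) (norm_nonneg _))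
      (norm_nonneg _))
  refine (abs_real_inner_le_norm _ _).trans
    ((mul_le_mul b2 b1 (norm_nonneg _) (by positivity)).trans (le_of_eq (by ring)))

theorem tang_one {X : Surf} {I : Iso X} (A : Appr I) : ∃ K : ℝ, 0 ≤ K ∧ ∀ q ∈ X.S,
    ∀ z ∈ ball q (A.tau / 2), ∀ u b c : E, ‖u‖ ≤ ‖b‖ → ‖b‖ < A.tau / 2 →
      |⟪fderiv ℝ I.V z c, fderiv ℝ I.V (z + u) b - fderiv ℝ I.V z b⟫| ≤ K * ‖b‖ ^ 2 * ‖c‖ := by
  obtain ⟨K, hK, h⟩ := A.tang
  obtain ⟨K', hK', h'⟩ := A.chr_le
  refine ⟨K + K', by positivity, fun q hq z hz u b c hu hb => ?_⟩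
  have ht := A.tau_pos
  have ht1 := A.tau_le
  have hz1 : z ∈ ball q A.tau := ball_subset_ball (by linarith) hz
  have hz2 : z + u ∈ ball q A.tau := by
    rw [mem_ball] at hz ⊢
    have := dist_triangle (z + u) z q
    rw [dist_self_add_left] at this
    linarith
  have h1 := h q hq z hz1 (z + u) hz2 b c
  rw [add_sub_cancel_left] at h1
  have h2 := h' z (ball_subset_thickening hq _ hz1) u b c
  have h3 : ‖u‖ ^ (2 * I.al) ≤ ‖b‖ :=
    (Real.rpow_le_self_of_le_one (norm_nonneg _) (by linarith) (by linarith [I.al_gt])).trans hu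
  have h4 : K * ‖u‖ ^ (2 * I.al) * ‖b‖ * ‖c‖ ≤ K * ‖b‖ * ‖b‖ * ‖c‖ := by gcongr
  have h5 : K' * ‖u‖ * ‖b‖ * ‖c‖ ≤ K' * ‖b‖ * ‖b‖ * ‖c‖ := by gcongr
  have h6 := abs_sub_abs_le_abs_sub
    ⟪fderiv ℝ I.V z c, fderiv ℝ I.V (z + u) b - fderiv ℝ I.V z b⟫ (chr X.pr z u b c)
  have e : (K + K') * ‖b‖ ^ 2 * ‖c‖ = K * ‖b‖ * ‖b‖ * ‖c‖ + K' * ‖b‖ * ‖b‖ * ‖c‖ := by ring
  linarith

theorem tang_deriv {X : Surf} {I : Iso X} (A : Appr I) {q : E} (hq : q ∈ X.S) {z : E}
    (hz : z ∈ ball q (A.tau / 2)) {b : E} (hb : ‖b‖ < A.tau / 2) {s : ℝ} (hs : s ∈ Icc (0 : ℝ) 1) :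
    HasDerivAt (fun t : ℝ => I.V (z + t • b)) (fderiv ℝ I.V (z + s • b) b) s := by
  have hu : ‖s • b‖ ≤ ‖b‖ := by
    rw [norm_smul, Real.norm_of_nonneg hs.1]
    exact mul_le_of_le_one_left (norm_nonneg _) hs.2
  have hz2 : z + s • b ∈ ball q A.tau := by
    rw [mem_ball] at hz ⊢
    have := dist_triangle (z + s • b) z q
    rw [dist_self_add_left] at this
    linarith
  have hne : z + s • b ≠ X.o := fun e =>
    A.o_not (e ▸ thickening_subset_cthickening _ _ (ball_subset_thickening hq _ hz2))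
  have h1 : HasFDerivAt I.V (fderiv ℝ I.V (z + s • b)) (z + s • b) :=
    ((I.V_c1 hne).differentiableAt (by simp)).hasFDerivAt
  have h2 : HasDerivAt (fun t : ℝ => z + t • b) b s := by
    have := ((hasDerivAt_id s).smul_const b).const_add z
    rwa [one_smul] at this
  exact HasFDerivAt.comp_hasDerivAt (l := I.V) (f := fun t : ℝ => z + t • b) s h1 h2

/-- tangential second differences are quadratic -/
theorem Appr.sec_tang {X : Surf} {I : Iso X} (A : Appr I) : ∃ K : ℝ, 0 ≤ K ∧ ∀ q ∈ X.S,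
    ∀ z ∈ ball q (A.tau / 2), ∀ b c : E, ‖b‖ < A.tau / 2 →
      |⟪fderiv ℝ I.V z c, I.V (z + b) + I.V (z - b) - (2 : ℝ) • I.V z⟫| ≤ K * ‖b‖ ^ 2 * ‖c‖ := by
  obtain ⟨K, hK, h⟩ := tang_one A
  refine ⟨2 * K, by positivity, fun q hq z hz b c hb => ?_⟩
  have hb' : ‖-b‖ < A.tau / 2 := by rwa [norm_neg]
  have hd : ∀ s ∈ Icc (0 : ℝ) 1, HasDerivWithinAt
      (fun t : ℝ => ⟪fderiv ℝ I.V z c, I.V (z + t • b) + I.V (z + t • -b)⟫)
      ⟪fderiv ℝ I.V z c, fderiv ℝ I.V (z + s • b) b + fderiv ℝ I.V (z + s • -b) (-b)⟫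
      (Icc (0 : ℝ) 1) s := fun s hs => by
    have h1 := (tang_deriv A hq hz hb hs).add (tang_deriv A hq hz hb' hs)
    exact ((innerSL ℝ (fderiv ℝ I.V z c)).hasFDerivAt.comp_hasDerivAt s h1).hasDerivWithinAt
  have hbd : ∀ s ∈ Ico (0 : ℝ) 1,
      ‖⟪fderiv ℝ I.V z c, fderiv ℝ I.V (z + s • b) b + fderiv ℝ I.V (z + s • -b) (-b)⟫‖ ≤
        2 * K * ‖b‖ ^ 2 * ‖c‖ := fun s hs => by
    have hu : ∀ w : E, ‖s • w‖ ≤ ‖w‖ := fun w => by
      rw [norm_smul, Real.norm_of_nonneg hs.1]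
      exact mul_le_of_le_one_left (norm_nonneg _) hs.2.le
    have h1 := h q hq z hz (s • b) b c (hu b) hb
    have h2 := h q hq z hz (s • -b) (-b) c (hu (-b)) hb'
    rw [norm_neg] at h2
    have e : fderiv ℝ I.V (z + s • b) b + fderiv ℝ I.V (z + s • -b) (-b) =
        (fderiv ℝ I.V (z + s • b) b - fderiv ℝ I.V z b) +
          (fderiv ℝ I.V (z + s • -b) (-b) - fderiv ℝ I.V z (-b)) := by
      rw [map_neg (fderiv ℝ I.V z) b]
      abel
    rw [e, inner_add_right, Real.norm_eq_abs]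
    refine (abs_add_le _ _).trans ?_
    linarith
  have h3 := norm_image_sub_le_of_norm_deriv_le_segment_01' hd hbd
  simp only [one_smul, zero_smul, add_zero] at h3
  rw [← inner_sub_right, Real.norm_eq_abs, ← sub_eq_add_neg, ← two_smul ℝ (I.V z)] at h3
  exact h3

end Pool.Agent.Bor
end
end

-- part Pool.Agent.P.MP_26ecb7_gt.Lower
section

noncomputable section
open Set Filter Topology MeasureTheory Metric
open scoped RealInnerProductSpace ContDiff ENNReal

namespace Pool.Agent.Bor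

theorem second_le {f : ℝ → ℝ} (hf : ContDiff ℝ ∞ f) {k : ℝ}
    (h : ∀ᶠ t in 𝓝[>] (0 : ℝ), f t + f (-t) - 2 * f 0 ≤ k * t ^ 2) : deriv (deriv f) 0 ≤ k := by
  by_contra hk
  obtain ⟨k', h1, h2⟩ := exists_between (not_le.1 hk)
  have d1 : Differentiable ℝ f := hf.differentiable (by simp)
  have d2 : Differentiable ℝ (deriv f) :=
    (contDiff_infty_iff_deriv.1 hf).2.differentiable (by simp)
  have hg : ∀ t, HasDerivAt (fun t => f t + f (-t) - 2 * f 0 - k' * t ^ 2)
      (deriv f t - deriv f (-t) - k' * (2 * t)) t := fun t => by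
    have e := ((((d1 t).hasDerivAt.add ((d1 (-t)).hasDerivAt.comp t (hasDerivAt_neg t))).sub_const
      (2 * f 0)).sub ((hasDerivAt_pow 2 t).const_mul k'))
    refine e.congr_deriv ?_
    simp [sub_eq_add_neg]
  have hd : deriv (fun t => f t + f (-t) - 2 * f 0 - k' * t ^ 2) =
      fun t => deriv f t - deriv f (-t) - k' * (2 * t) := funext fun t => (hg t).deriv
  have hg2 : HasDerivAt (fun t => deriv f t - deriv f (-t) - k' * (2 * t))
      (2 * deriv (deriv f) 0 - 2 * k') 0 := by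
    have e0 : HasDerivAt (deriv f) (deriv (deriv f) 0) (-0) := by
      rw [neg_zero]; exact (d2 0).hasDerivAt
    have e := (((d2 0).hasDerivAt.sub (e0.comp 0 (hasDerivAt_neg 0))).sub
      (((hasDerivAt_id (0 : ℝ)).const_mul 2).const_mul k'))
    refine e.congr_deriv ?_
    ring
  have hm : IsLocalMin (fun t => f t + f (-t) - 2 * f 0 - k' * t ^ 2) 0 :=
    isLocalMin_of_deriv_deriv_pos (by rw [hd, hg2.deriv]; linarith) (by rw [hd]; simp)
      (hg 0).continuousAt
  have hm' : ∀ᶠ t in 𝓝[>] (0 : ℝ), f 0 + f (-0) - 2 * f 0 - k' * 0 ^ 2 ≤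
      f t + f (-t) - 2 * f 0 - k' * t ^ 2 := Filter.Eventually.filter_mono nhdsWithin_le_nhds hm
  obtain ⟨t, ⟨a1, a2⟩, a3⟩ := ((h.and hm').and self_mem_nhdsWithin).exists
  have a4 : 0 < t ^ 2 := pow_pos a3 2
  rw [neg_zero] at a2
  nlinarith

theorem lower_deriv {W : E → E} (hW : ContDiff ℝ ∞ W) (Y q a : E) :
    deriv (deriv fun t : ℝ => ⟪Y, W (q + t • a)⟫) 0 = ⟪Y, fderiv ℝ (fderiv ℝ W) q a a⟫ := by
  have d1 : Differentiable ℝ W := hW.differentiable (by simp)
  have d2 : Differentiable ℝ (fderiv ℝ W) :=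
    (contDiff_infty_iff_fderiv.1 hW).2.differentiable (by simp)
  have hl : ∀ t : ℝ, HasDerivAt (fun t : ℝ => q + t • a) a t := fun t => by
    simpa using ((hasDerivAt_id t).smul_const a).const_add q
  have h1 : deriv (fun t : ℝ => ⟪Y, W (q + t • a)⟫) =
      fun t : ℝ => ⟪Y, fderiv ℝ W (q + t • a) a⟫ := funext fun t =>
    ((innerSL ℝ Y).hasFDerivAt.comp_hasDerivAt t
      ((d1 _).hasFDerivAt.comp_hasDerivAt t (hl t))).deriv
  have h2 : HasDerivAt (fun t : ℝ => fderiv ℝ W (q + t • a)) (fderiv ℝ (fderiv ℝ W) q a) 0 := by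
    have e := (d2 (q + (0 : ℝ) • a)).hasFDerivAt.comp_hasDerivAt (0 : ℝ) (hl 0)
    rw [zero_smul, add_zero] at e
    exact e
  rw [h1]
  exact ((innerSL ℝ Y).hasFDerivAt.comp_hasDerivAt (0 : ℝ)
    ((ContinuousLinearMap.apply ℝ E a).hasFDerivAt.comp_hasDerivAt (0 : ℝ) h2)).deriv

variable {X : Surf} {I : Iso X}

theorem lower_ne (A : Appr I) {q z : E} (hq : q ∈ X.S) (hz : dist z q ≤ A.tau) : z ≠ X.o :=
  fun e => A.o_not (e ▸ mem_cthickening_of_dist_le z q A.tau X.S hq hz)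

theorem lower_supp (hI : Cvx I) {z z' : E} (hz : z ≠ X.o) (hz' : z' ≠ X.o) :
    ⟪I.N z, I.V z' - I.V z⟫ ≤ 0 := by
  rw [← I.N_pr hz]
  exact hI.supp _ (X.pr_mem z hz) _ (X.pr_mem z' hz')

theorem Appr.lower3 (A : Appr I) (hI : Cvx I) : ∀ θ > 0, ∀ᶠ n in atTop, ∀ q ∈ X.S, ∀ a : E,
    ⟪X.NW (A.W n) q, fderiv ℝ (fderiv ℝ (A.W n)) q a a⟫ ≤ θ * ‖a‖ ^ 2 := by
  intro θ hθ
  have hτ := A.tau_pos
  obtain ⟨K, hK, hsec⟩ := A.sec_tang
  have hcp : IsCompact (cthickening A.tau X.S) := X.cpt.cthickening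
  obtain ⟨C, hC, hsp⟩ := I.split hcp A.o_not
  obtain ⟨ε, hε, hε1, hε2⟩ : ∃ ε > 0, ε ≤ 1 ∧ K * (C * (2 * ε)) ≤ θ := by
    have hp : 0 < 2 * K * C + 1 := by positivity
    refine ⟨min 1 (θ / (2 * K * C + 1)), by positivity, min_le_left _ _, ?_⟩
    have h1 : min 1 (θ / (2 * K * C + 1)) * (2 * K * C + 1) ≤ θ :=
      (le_div_iff₀ hp).1 (min_le_right _ _)
    have h2 : 0 < min 1 (θ / (2 * K * C + 1)) := by positivity
    nlinarith
  have huc : UniformContinuousOn I.N (cthickening A.tau X.S) :=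
    hcp.uniformContinuousOn_of_continuous fun z hz =>
      (I.continuousAt_N fun e => A.o_not (e ▸ hz)).continuousWithinAt
  obtain ⟨δ1, hδ1, hδ⟩ := Metric.uniformContinuousOn_iff.1 huc (ε / 2) (by positivity)
  filter_upwards [Metric.tendstoUniformlyOn_iff.1 A.NW_conv (ε / 2) (by positivity),
    A.sec (min δ1 (A.tau / 2)) (by positivity)] with n hn1 hn2 q hq a
  set Y := X.NW (A.W n) q with hY
  have key : ∀ b : E, ‖b‖ < A.tau / 2 →
      ⟪Y, A.W n (q + b) + A.W n (q - b) - (2 : ℝ) • A.W n q⟫ ≤ θ * ‖b‖ ^ 2 := fun b hb => by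
    refine hn2 q hq b Y _ (by linarith) fun z hz => ?_
    have hz1 : dist z q < δ1 := (mem_ball.1 hz).trans_le (min_le_left _ _)
    have hz2 : dist z q < A.tau / 2 := (mem_ball.1 hz).trans_le (min_le_right _ _)
    have hzK : z ∈ cthickening A.tau X.S := mem_cthickening_of_dist_le z q _ _ hq (by linarith)
    have hz0 : z ≠ X.o := lower_ne A hq (by linarith)
    have hp : z + b ≠ X.o := lower_ne A hq (by
      have := dist_triangle (z + b) z q
      rw [dist_self_add_left] at this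
      linarith)
    have hm : z - b ≠ X.o := lower_ne A hq (by
      have := dist_triangle (z - b) z q
      rw [dist_self_sub_left] at this
      linarith)
    have h1 : ‖Y - I.N z‖ ≤ ε := by
      have a1 := hδ z hzK q (self_subset_cthickening _ hq) hz1
      have a2 := hn1 q hq
      have a3 := dist_triangle (I.N z) (I.N q) Y
      rw [← dist_eq_norm, dist_comm]
      linarith
    have hN := I.norm_N hz0
    have h2 : |⟪Y, I.N z⟫ - 1| ≤ ε := by
      have a1 := abs_real_inner_le_norm (Y - I.N z) (I.N z)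
      rw [inner_sub_left, real_inner_self_eq_norm_sq, hN, one_pow, mul_one] at a1
      exact a1.trans h1
    have h3 : ‖Y - ⟪Y, I.N z⟫ • I.N z‖ ≤ 2 * ε := by
      have a1 : Y - ⟪Y, I.N z⟫ • I.N z = (Y - I.N z) - (⟪Y, I.N z⟫ - 1) • I.N z := by
        rw [sub_smul, one_smul]; abel
      have a2 := norm_sub_le (Y - I.N z) ((⟪Y, I.N z⟫ - 1) • I.N z)
      rw [norm_smul, hN, mul_one, Real.norm_eq_abs] at a2
      rw [a1]; linarith
    obtain ⟨c, hc1, hc2⟩ := hsp z hzK Y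
    have h4 : ⟪I.N z, I.V (z + b) + I.V (z - b) - (2 : ℝ) • I.V z⟫ ≤ 0 := by
      have a1 : I.V (z + b) + I.V (z - b) - (2 : ℝ) • I.V z =
          (I.V (z + b) - I.V z) + (I.V (z - b) - I.V z) := by rw [two_smul]; abel
      rw [a1, inner_add_right]
      linarith [lower_supp hI hz0 hp, lower_supp hI hz0 hm]
    have h5 := (le_abs_self _).trans (hsec q hq z (mem_ball.2 hz2) b c hb)
    have h6 : K * ‖b‖ ^ 2 * ‖c‖ ≤ θ * ‖b‖ ^ 2 := by
      have a1 : K * ‖c‖ ≤ θ :=
        (mul_le_mul_of_nonneg_left (hc2.trans (mul_le_mul_of_nonneg_left h3 hC)) hK).trans hε2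
      have a2 := mul_le_mul_of_nonneg_right a1 (sq_nonneg ‖b‖)
      linarith
    have h7 : 0 ≤ ⟪Y, I.N z⟫ := by linarith [(abs_le.1 h2).1]
    have h8 := mul_nonpos_of_nonneg_of_nonpos h7 h4
    generalize I.V (z + b) + I.V (z - b) - (2 : ℝ) • I.V z = D at h5 h8 ⊢
    have h9 : ⟪Y, D⟫ = ⟪⟪Y, I.N z⟫ • I.N z + fderiv ℝ I.V z c, D⟫ := by rw [← hc1]
    rw [h9, inner_add_left, real_inner_smul_left]
    linarith
  rw [← lower_deriv (A.smooth n) Y q a]
  refine second_le (contDiff_const.inner ℝ ((A.smooth n).comp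
    (contDiff_const.add (contDiff_id.smul contDiff_const)))) ?_
  have hc : Continuous fun t : ℝ => ‖t • a‖ := by fun_prop
  have hev : ∀ᶠ t in 𝓝 (0 : ℝ), ‖t • a‖ < A.tau / 2 :=
    hc.continuousAt.eventually_lt continuousAt_const (by simpa using hτ)
  filter_upwards [hev.filter_mono nhdsWithin_le_nhds] with t ht
  have h1 := key _ ht
  rw [inner_sub_right, inner_add_right, real_inner_smul_right, norm_smul, mul_pow,
    Real.norm_eq_abs, sq_abs] at h1
  show ⟪Y, A.W n (q + t • a)⟫ + ⟪Y, A.W n (q + (-t) • a)⟫ - 2 * ⟪Y, A.W n (q + (0 : ℝ) • a)⟫ ≤ _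
  rw [neg_smul, ← sub_eq_add_neg, zero_smul, add_zero]
  linarith

/-- the normal of the approximation is almost orthogonal to the range of its derivative -/
theorem Appr.NW_orth (A : Appr I) : ∀ θ > 0, ∀ᶠ n in atTop, ∀ q ∈ X.S, ∀ c : E,
    |⟪X.NW (A.W n) q, fderiv ℝ (A.W n) q c⟫| ≤ θ * ‖c‖ := by
  intro θ hθ
  obtain ⟨C, hC, hb⟩ := A.bound_W
  have hε : 0 < θ / (C + 1) := by positivity
  filter_upwards [hb, Metric.tendstoUniformlyOn_iff.1 A.NW_conv _ hε,
    Metric.tendstoUniformlyOn_iff.1 A.c1 _ hε] with n h1 h2 h3 q hq c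
  have hq' : q ∈ thickening A.tau X.S := self_subset_thickening A.tau_pos _ hq
  have ho := X.ne_o hq
  have e : ⟪X.NW (A.W n) q, fderiv ℝ (A.W n) q c⟫ =
      -⟪I.N q - X.NW (A.W n) q, fderiv ℝ (A.W n) q c⟫
        - ⟪I.N q, (fderiv ℝ I.V q - fderiv ℝ (A.W n) q) c⟫ := by
    rw [sub_apply, inner_sub_left, inner_sub_right, I.N_orth ho]
    ring
  have a1 : |⟪I.N q - X.NW (A.W n) q, fderiv ℝ (A.W n) q c⟫| ≤ θ / (C + 1) * (C * ‖c‖) := by
    refine (abs_real_inner_le_norm _ _).trans (mul_le_mul ?_ ?_ (norm_nonneg _) hε.le)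
    · rw [← dist_eq_norm]; exact (h2 q hq).le
    · exact ContinuousLinearMap.le_of_opNorm_le _ (h1 q hq').2 c
  have a2 : |⟪I.N q, (fderiv ℝ I.V q - fderiv ℝ (A.W n) q) c⟫| ≤ θ / (C + 1) * ‖c‖ := by
    refine (abs_real_inner_le_norm _ _).trans ?_
    rw [I.norm_N ho, one_mul]
    refine ContinuousLinearMap.le_of_opNorm_le _ ?_ c
    rw [← dist_eq_norm]; exact (h3 q hq').le
  have a3 : θ / (C + 1) * (C * ‖c‖) + θ / (C + 1) * ‖c‖ = θ * ‖c‖ := by field_simp
  rw [e]
  obtain ⟨b1, b2⟩ := abs_le.1 a1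
  obtain ⟨b3, b4⟩ := abs_le.1 a2
  exact abs_le.2 ⟨by linarith, by linarith⟩

theorem lower_bound (R : Rot) {K : Set P} (hK : IsCompact K) : ∃ M : ℝ, 0 ≤ M ∧ ∀ x ∈ K,
    (∀ i, ‖pd i (X.psi R) x‖ ≤ M) ∧ ∀ i j, ‖pd i (pd j (X.psi R)) x‖ ≤ M := by
  have h1 := fun i => contDiff_pd (X.sm_psi R) i
  have hc : Continuous fun x => ((fun i => pd i (X.psi R) x,
      fun i j => pd i (pd j (X.psi R)) x) : (Fin 2 → E) × (Fin 2 → Fin 2 → E)) :=
    (continuous_pi fun i => (h1 i).continuous).prodMk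
      (continuous_pi fun i => continuous_pi fun j => (contDiff_pd (h1 j) i).continuous)
  obtain ⟨M, hM⟩ := hK.exists_bound_of_continuousOn hc.continuousOn
  refine ⟨max M 0, le_max_right _ _, fun x hx => ⟨fun i => ?_, fun i j => ?_⟩⟩
  · exact (((norm_le_pi_norm _ i).trans (norm_fst_le _)).trans (hM x hx)).trans (le_max_left _ _)
  · have e1 := norm_le_pi_norm (fun j => pd i (pd j (X.psi R)) x) j
    have e2 := norm_le_pi_norm (fun i j => pd i (pd j (X.psi R)) x) i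
    have e3 := norm_snd_le ((fun i => pd i (X.psi R) x,
      fun i j => pd i (pd j (X.psi R)) x) : (Fin 2 → E) × (Fin 2 → Fin 2 → E))
    exact (((e1.trans e2).trans e3).trans (hM x hx)).trans (le_max_left _ _)

/-- the second fundamental forms of the approximations are almost nonnegative -/
theorem Appr.lower (A : Appr I) (hI : Cvx I) (R : Rot) {K : Set P} (hK : IsCompact K) :
    ∀ θ > 0, ∀ᶠ n in atTop, ∀ x ∈ K, ∀ a b : ℝ,
      - (θ * (a ^ 2 + b ^ 2)) ≤ qf (at2 (sf (A.w R n)) x) a b := by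
  intro θ hθ
  obtain ⟨M, hM, hb⟩ := lower_bound (X := X) R hK
  have hε : 0 < θ / (2 * M ^ 2 + 2 * M + 1) := by positivity
  filter_upwards [A.lower3 hI _ hε, A.NW_orth _ hε] with n h1 h2 x hx a b
  obtain ⟨b1, b2⟩ := hb x hx
  have hq := X.psi_mem R x
  have c1 := h1 _ hq (a • pd 0 (X.psi R) x + b • pd 1 (X.psi R) x)
  have c2 := (le_abs_self _).trans (h2 _ hq (a ^ 2 • pd 0 (pd 0 (X.psi R)) x +
    (a * b) • pd 0 (pd 1 (X.psi R)) x + (a * b) • pd 1 (pd 0 (X.psi R)) x +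
    b ^ 2 • pd 1 (pd 1 (X.psi R)) x))
  have hab : 2 * (|a| * |b|) ≤ a ^ 2 + b ^ 2 := by
    nlinarith [sq_nonneg (|a| - |b|), sq_abs a, sq_abs b]
  have n1 : ‖a • pd 0 (X.psi R) x + b • pd 1 (X.psi R) x‖ ^ 2 ≤ 2 * M ^ 2 * (a ^ 2 + b ^ 2) := by
    have e : ‖a • pd 0 (X.psi R) x + b • pd 1 (X.psi R) x‖ ≤ (|a| + |b|) * M := by
      refine (norm_add_le _ _).trans ?_
      rw [norm_smul, norm_smul, Real.norm_eq_abs, Real.norm_eq_abs, add_mul]
      exact add_le_add (mul_le_mul_of_nonneg_left (b1 0) (abs_nonneg _))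
        (mul_le_mul_of_nonneg_left (b1 1) (abs_nonneg _))
    refine (pow_le_pow_left₀ (norm_nonneg _) e 2).trans ?_
    have e2 : (|a| + |b|) ^ 2 ≤ 2 * (a ^ 2 + b ^ 2) := by nlinarith [sq_abs a, sq_abs b]
    rw [mul_pow]
    nlinarith [mul_le_mul_of_nonneg_right e2 (sq_nonneg M)]
  have n2 : ‖a ^ 2 • pd 0 (pd 0 (X.psi R)) x + (a * b) • pd 0 (pd 1 (X.psi R)) x +
      (a * b) • pd 1 (pd 0 (X.psi R)) x + b ^ 2 • pd 1 (pd 1 (X.psi R)) x‖ ≤
      2 * M * (a ^ 2 + b ^ 2) := by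
    have e : ∀ (s : ℝ) i j, ‖s • pd i (pd j (X.psi R)) x‖ ≤ |s| * M := fun s i j => by
      rw [norm_smul, Real.norm_eq_abs]
      exact mul_le_mul_of_nonneg_left (b2 i j) (abs_nonneg _)
    refine (norm_add_le_of_le (norm_add_le_of_le (norm_add_le_of_le (e _ _ _) (e _ _ _))
      (e _ _ _)) (e _ _ _)).trans ?_
    rw [abs_sq, abs_sq, abs_mul]
    nlinarith [mul_le_mul_of_nonneg_right hab hM]
  have e1 : θ / (2 * M ^ 2 + 2 * M + 1) * (2 * M ^ 2 * (a ^ 2 + b ^ 2)) +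
      θ / (2 * M ^ 2 + 2 * M + 1) * (2 * M * (a ^ 2 + b ^ 2)) +
      θ / (2 * M ^ 2 + 2 * M + 1) * (a ^ 2 + b ^ 2) = θ * (a ^ 2 + b ^ 2) := by field_simp
  have e2 : 0 ≤ θ / (2 * M ^ 2 + 2 * M + 1) * (a ^ 2 + b ^ 2) := by positivity
  have c3 := c1.trans (mul_le_mul_of_nonneg_left n1 hε.le)
  have c4 := c2.trans (mul_le_mul_of_nonneg_left n2 hε.le)
  simp only [map_add, map_smul, add_apply, smul_apply,
    inner_add_right, real_inner_smul_right] at c3 c4
  simp only [qf, at2, (A.imm_w R n).sf_eq, A.pd_pd_w, A.un_w, inner_add_right]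
  linarith

end Pool.Agent.Bor
end
end

-- part Pool.Agent.P.MP_26ecb7_gt.HergC0
section

noncomputable section
open Set Filter Topology MeasureTheory Metric
open scoped RealInnerProductSpace ContDiff ENNReal

namespace Pool.Agent.Bor

variable {X : Surf} {I : Iso X} (U : Pou X)

/-- limit support function -/
def Iso.hv (I : Iso X) (R : Rot) (x : P) : ℝ := ⟪I.w R x, I.n R x⟫

theorem Iso.continuous_hv (I : Iso X) (R : Rot) : Continuous (I.hv R) :=
  (I.w_c1 R).continuous.inner (I.continuous_n R)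
theorem Cvx.hv_pos (hI : Cvx I) (R : Rot) (x : P) : 0 < I.hv R x := by
  rw [Iso.hv, real_inner_comm]
  exact hI.pos _ (X.psi_mem R x)
theorem Appr.hs_conv (A : Appr I) (R : Rot) :
    TendstoUniformly (fun n => hs (A.w R n)) (I.hv R) atTop := by
  obtain ⟨M, hM⟩ := X.cpt.exists_bound_of_continuousOn (f := I.v)
    fun q hq => (I.c1 q hq).continuousAt.continuousWithinAt
  have hM0 : 0 ≤ M := (norm_nonneg _).trans (hM _ (X.psi_mem R 0))
  refine Metric.tendstoUniformly_iff.2 fun ε hε => ?_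
  have hδ : 0 < ε / (M + 2) := by positivity
  filter_upwards [Metric.tendstoUniformly_iff.1 (A.w_conv R) _ hδ,
    Metric.tendstoUniformly_iff.1 (A.un_conv R) _ hδ] with n h1 h2 x
  have h3 := h1 x
  have h4 := h2 x
  rw [dist_eq_norm] at h3 h4
  have h5 : I.hv R x - hs (A.w R n) x = ⟪I.w R x, I.n R x - un (A.w R n) x⟫
      + ⟪I.w R x - A.w R n x, un (A.w R n) x⟫ := by
    simp only [Iso.hv, hs, inner_sub_left, inner_sub_right]
    ring
  have h6 := abs_real_inner_le_norm (I.w R x) (I.n R x - un (A.w R n) x)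
  have h7 := abs_real_inner_le_norm (I.w R x - A.w R n x) (un (A.w R n) x)
  rw [(A.imm_w R n).norm_un, mul_one] at h7
  have h8 : ‖I.w R x‖ * ‖I.n R x - un (A.w R n) x‖ ≤ M * (ε / (M + 2)) :=
    mul_le_mul (hM _ (X.psi_mem R x)) h4.le (norm_nonneg _) hM0
  have h9 : M * (ε / (M + 2)) + ε / (M + 2) + ε / (M + 2) = ε := by
    field_simp
    ring
  rw [Real.dist_eq, h5]
  refine (abs_add_le _ _).trans_lt ?_
  linarith

theorem hergc0_alg {m C h c s S t T H b : ℝ} (hC : 0 < C) (hc : 0 < c) (hs : 0 < s)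
    (h1 : -(C * 1) ≤ m) (h2 : b ≤ C * (m + C * 1)) (h3 : c ≤ h) (h4 : h ≤ H) (h5 : s ≤ S)
    (h6 : t ≤ T) : b ≤ C * S / c * ((H * C + T) / s - (t - h * m) / s) := by
  have h7 : 0 ≤ m + C := by linarith
  have h8 : c * (m + C) ≤ H * C + T - (t - h * m) := by
    nlinarith [mul_le_mul_of_nonneg_right h3 h7, mul_le_mul_of_nonneg_right h4 hC.le]
  have h9 : c * (m + C) / S ≤ (H * C + T) / s - (t - h * m) / s := by
    rw [← sub_div]
    exact div_le_div₀ ((mul_nonneg hc.le h7).trans h8) h8 hs h5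
  have hS : 0 < S := hs.trans_le h5
  refine le_trans ?_ (mul_le_mul_of_nonneg_left h9 (by positivity))
  rw [show C * S / c * (c * (m + C) / S) = C * (m + C * 1) by field_simp]
  exact h2

theorem hergc0_ab {g e : Fin 2 → Fin 2 → ℝ} (h : ∀ i j, |e i j| ≤ 1) :
    ab (fun i j => g i j + e i j) ≤ ab g + 4 := by
  simp only [ab]
  linarith [abs_add_le (g 0 0) (e 0 0), abs_add_le (g 0 1) (e 0 1), abs_add_le (g 1 0) (e 1 0),
    abs_add_le (g 1 1) (e 1 1), h 0 0, h 0 1, h 1 0, h 1 1]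

theorem hergc0_nn (B : Fin 2 → Fin 2 → ℝ) : 0 ≤ ab B := by
  unfold ab
  positivity

theorem hergc0_cab {B : Fin 2 → Fin 2 → P → ℝ} (h : ∀ i j, Continuous (B i j)) :
    Continuous fun x => ab (at2 B x) :=
  (((h 0 0).abs.add (h 0 1).abs).add (h 1 0).abs).add (h 1 1).abs

theorem hergc0_cmx {T B : Fin 2 → Fin 2 → P → ℝ} (h : ∀ i j, Continuous (T i j))
    (h' : ∀ i j, Continuous (B i j)) : Continuous fun x => mx (fun i j => T i j x) (at2 B x) :=
  ((((h 0 0).mul (h' 1 1)).add ((h 1 1).mul (h' 0 0))).sub ((h 0 1).mul (h' 1 0))).sub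
    ((h 1 0).mul (h' 0 1))

theorem hergc0_chart (A : Appr I) (hI : Cvx I) (R : Rot) {K : Set P} (hK : IsCompact K)
    {e : ℕ → Fin 2 → Fin 2 → P → ℝ}
    (he : ∀ i j, TendstoUniformlyOn (fun n => e n i j) (fun _ => 0) atTop K) :
    ∃ c : ℝ, 0 < c ∧ ∃ D : P → ℝ, Continuous D ∧ ∀ᶠ n in atTop, ∀ x ∈ K,
      ab (at2 (sf (A.w R n)) x) ≤ c * (D x - mx (fun i j => gm (X.psi R) i j x
        - hs (A.w R n) x * sf (A.w R n) i j x + e n i j x) (at2 (sf (X.psi R)) x)
          / sq (X.psi R) x) := by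
  have hp := X.imm_psi R
  obtain ⟨C, hC, h1⟩ := ab_le_mx hK (fun i j => (hp.sm_sf i j).continuous) (hp.sf_symm 0 1)
    fun x a b h => X.qf_pos R x h
  obtain ⟨c, hc, h2⟩ := hK.exists_forall_le' (I.continuous_hv R).continuousOn
    fun x _ => hI.hv_pos R x
  obtain ⟨S, hS⟩ := hK.exists_bound_of_continuousOn hp.sm_sq.continuous.continuousOn
  have hS' : ∀ x ∈ K, sq (X.psi R) x ≤ |S| + 1 := fun x hx => by
    linarith [le_abs_self S, hS x hx, Real.le_norm_self (sq (X.psi R) x)]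
  refine ⟨C * (|S| + 1) / (c / 2), by positivity, fun x => ((I.hv R x + c) * C +
    (ab (at2 (gm (X.psi R)) x) + 4) * ab (at2 (sf (X.psi R)) x)) / sq (X.psi R) x, ?_, ?_⟩
  · exact ((((I.continuous_hv R).add continuous_const).mul continuous_const).add
      (((hergc0_cab fun i j => (hp.sm_gm i j).continuous).add continuous_const).mul
        (hergc0_cab fun i j => (hp.sm_sf i j).continuous))).div hp.sm_sq.continuous
      fun x => (hp.sq_pos x).ne'
  have h3 : ∀ᶠ n in atTop, ∀ i j, ∀ x ∈ K, |e n i j x| ≤ 1 := by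
    simp only [eventually_all]
    intro i j
    filter_upwards [Metric.tendstoUniformlyOn_iff.1 (he i j) 1 one_pos] with n h x hx
    simpa using (h x hx).le
  filter_upwards [h3, A.lower hI R hK 1 one_pos,
    Metric.tendstoUniformly_iff.1 (A.hs_conv R) (c / 2) (by positivity)] with n h4 h5 h6 x hx
  obtain ⟨h7, h8⟩ := h1 x hx (at2 (sf (A.w R n)) x) 1 zero_le_one ((A.imm_w R n).sf_symm 0 1 x)
    (h5 x hx)
  have h9 := abs_lt.1 (Real.dist_eq _ _ ▸ h6 x)
  have h10 : mx (fun i j => gm (X.psi R) i j x + e n i j x) (at2 (sf (X.psi R)) x) ≤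
      (ab (at2 (gm (X.psi R)) x) + 4) * ab (at2 (sf (X.psi R)) x) :=
    (le_abs_self _).trans ((abs_mx_le _ _).trans (mul_le_mul_of_nonneg_right
      (hergc0_ab (g := at2 (gm (X.psi R)) x) fun i j => h4 i j x hx) (hergc0_nn _)))
  have h11 := hergc0_alg (h := hs (A.w R n) x) (H := I.hv R x + c) hC (half_pos hc) (hp.sq_pos x)
    h7 h8 (by linarith [h2 x hx, h9.2]) (by linarith [h9.1]) (hS' x hx) h10
  refine h11.trans_eq ?_
  congr 3
  simp only [mx, at2]
  ring

theorem Pou.bound_sf (A : Appr I) (hI : Cvx I) : ∃ C : ℝ,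
    ∀ᶠ n in atTop, U.II (fun a x => ab (at2 (sf (A.w (U.R a) n)) x)) ≤ C := by
  obtain ⟨e, he1, he2, he3⟩ := U.herg1 A
  choose c hc D hD h using fun a => hergc0_chart A hI (U.R a) (isCompact_closedBall 0 U.rho)
    (e := fun n => e n a) (he2 a)
  refine ⟨(∑ a, c a) * U.II D, ?_⟩
  filter_upwards [eventually_all.2 h] with n hn
  have hF : ∀ a, Continuous fun x => mx (fun i j => gm (X.psi (U.R a)) i j x
      - hs (A.w (U.R a) n) x * sf (A.w (U.R a) n) i j x + e n a i j x)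
        (at2 (sf (X.psi (U.R a))) x) / sq (X.psi (U.R a)) x := fun a =>
    (hergc0_cmx (fun i j => (((X.imm_psi _).sm_gm i j).continuous.sub
      ((A.imm_w _ n).sm_hs.continuous.mul ((A.imm_w _ n).sm_sf i j).continuous)).add (he1 n a i j))
      fun i j => ((X.imm_psi _).sm_sf i j).continuous).div (X.imm_psi _).sm_sq.continuous
      fun x => ((X.imm_psi _).sq_pos x).ne'
  have h1 := U.II_sub hD hF
  rw [he3 n, sub_zero] at h1
  rw [← h1, ← U.II_mul]
  refine U.II_mono (fun a => hergc0_cab fun i j => ((A.imm_w _ n).sm_sf i j).continuous)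
    (fun a => continuous_const.mul ((hD a).sub (hF a))) fun a x hx => ?_
  have h2 := hn a x hx
  exact h2.trans (mul_le_mul_of_nonneg_right
    (Finset.single_le_sum (fun b _ => (hc b).le) (Finset.mem_univ a))
    ((mul_nonneg_iff_of_pos_left (hc a)).1 ((hergc0_nn _).trans h2)))


end Pool.Agent.Bor
end
end

-- part Pool.Agent.P.MP_26ecb7_gt.HergC
section

noncomputable section
open Set Filter Topology MeasureTheory Metric
open scoped RealInnerProductSpace ContDiff ENNReal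

namespace Pool.Agent.Bor

variable {X : Surf} {I : Iso X} (U : Pou X)

theorem hergc_cmx {T B : Fin 2 → Fin 2 → P → ℝ} (hT : ∀ i j, Continuous (T i j))
    (hB : ∀ i j, Continuous (B i j)) :
    Continuous fun x => mx (fun i j => T i j x) (fun i j => B i j x) := by
  unfold mx
  exact ((((hT 0 0).mul (hB 1 1)).add ((hT 1 1).mul (hB 0 0))).sub
    ((hT 0 1).mul (hB 1 0))).sub ((hT 1 0).mul (hB 0 1))

theorem hergc_cab {B : Fin 2 → Fin 2 → P → ℝ} (hB : ∀ i j, Continuous (B i j)) :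
    Continuous fun x => ab (fun i j => B i j x) := by
  unfold ab
  exact ((((hB 0 0).abs.add (hB 0 1).abs).add (hB 1 0).abs).add (hB 1 1).abs)

theorem hergc_mul0 {K : Set P} (hK : IsCompact K) {f g : ℕ → P → ℝ} {g0 : P → ℝ}
    (hf : TendstoUniformlyOn f (fun _ => 0) atTop K) (hg : TendstoUniformlyOn g g0 atTop K)
    (cg : Continuous g0) :
    TendstoUniformlyOn (fun n x => f n x * g n x) (fun _ => 0) atTop K := by
  have h := tu_mul hK hf hg continuousOn_const cg.continuousOn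
  simpa using h

theorem hergc_add0 {K : Set P} {f g : ℕ → P → ℝ}
    (hf : TendstoUniformlyOn f (fun _ => 0) atTop K)
    (hg : TendstoUniformlyOn g (fun _ => 0) atTop K) :
    TendstoUniformlyOn (fun n x => f n x + g n x) (fun _ => 0) atTop K := by
  have h := tu_add hf hg
  simpa using h

theorem hergc_sub0 {K : Set P} {f : ℕ → P → ℝ} {f0 : P → ℝ}
    (hf : TendstoUniformlyOn f f0 atTop K) :
    TendstoUniformlyOn (fun n x => f0 x - f n x) (fun _ => 0) atTop K := by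
  have h := tu_sub (tu_const (K := K) f0) hf
  simpa using h

theorem hergc_D {K : Set P} (hK : IsCompact K) {h sN e gN : ℕ → P → ℝ} {hv hu A s g : P → ℝ}
    (chu : Continuous hu) (cA : Continuous A) (cs : Continuous s) (s0 : ∀ x, s x ≠ 0)
    (th : TendstoUniformlyOn h hv atTop K) (ts : TendstoUniformlyOn sN s atTop K)
    (te : TendstoUniformlyOn e (fun _ => 0) atTop K) (tg : TendstoUniformlyOn gN g atTop K) :
    TendstoUniformlyOn (fun n x => (hv x - h n x) * (A x * (s x)⁻¹)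
      + ((s x)⁻¹ - (sN n x)⁻¹) * (hu x * A x) + e n x * (sN n x)⁻¹
      + (g x - gN n x) * (sN n x)⁻¹) (fun _ => 0) atTop K := by
  have ci : Continuous fun x => (s x)⁻¹ := cs.inv₀ s0
  have ti := tu_inv hK ts cs.continuousOn (fun x _ => s0 x)
  refine hergc_add0 (hergc_add0 (hergc_add0 ?_ ?_) ?_) ?_
  · exact hergc_mul0 hK (hergc_sub0 th) (tu_const _) (cA.mul ci)
  · exact hergc_mul0 hK (hergc_sub0 ti) (tu_const _) (chu.mul cA)
  · exact hergc_mul0 hK te ti ci
  · exact hergc_mul0 hK (hergc_sub0 tg) ti ci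

theorem hergc_c {K : Set P} (hK : IsCompact K) {h : ℕ → P → ℝ}
    {e : ℕ → Fin 2 → Fin 2 → P → ℝ} {A : Fin 2 → Fin 2 → P → ℝ} {hv s ka : P → ℝ}
    (cA : ∀ i j, Continuous (A i j)) (cs : Continuous s) (s0 : ∀ x, s x ≠ 0) (ck : Continuous ka)
    (th : TendstoUniformlyOn h hv atTop K)
    (te : ∀ i j, TendstoUniformlyOn (fun n => e n i j) (fun _ => 0) atTop K) :
    TendstoUniformlyOn (fun n x => mx (fun i j => e n i j x) (fun i j => A i j x * (s x)⁻¹)
      + (hv x - h n x) * (-2 * ka x)) (fun _ => 0) atTop K := by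
  have ci : Continuous fun x => (s x)⁻¹ := cs.inv₀ s0
  refine hergc_add0 ?_ (hergc_mul0 hK (hergc_sub0 th) (tu_const _) (continuous_const.mul ck))
  have t : ∀ i j k l, TendstoUniformlyOn (fun n x => e n i j x * (A k l x * (s x)⁻¹))
      (fun _ => 0) atTop K := fun i j k l =>
    hergc_mul0 hK (te i j) (tu_const _) ((cA k l).mul ci)
  have h := tu_sub (tu_sub (tu_add (t 0 0 1 1) (t 1 1 0 0)) (t 0 1 1 0)) (t 1 0 0 1)
  simpa [mx] using h

theorem hergc_small {c : ℕ → Fin U.k → P → ℝ} {D B : ℕ → Fin U.k → Fin 2 → Fin 2 → P → ℝ}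
    (cc : ∀ n a, Continuous (c n a)) (cD : ∀ n a i j, Continuous (D n a i j))
    (cB : ∀ n a i j, Continuous (B n a i j)) {C : ℝ}
    (hC : ∀ᶠ n in atTop, U.II (fun a x => ab (fun i j => B n a i j x)) ≤ C)
    (tc : ∀ a, TendstoUniformlyOn (fun n => c n a) (fun _ => 0) atTop (closedBall 0 U.rho))
    (tD : ∀ a i j, TendstoUniformlyOn (fun n => D n a i j) (fun _ => 0) atTop
      (closedBall 0 U.rho)) :
    Tendsto (fun n => U.II (fun a x => c n a x
      + mx (fun i j => D n a i j x) (fun i j => B n a i j x))) atTop (𝓝 0) := by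
  refine U.II_small (g := fun n a x => 1 + ab (fun i j => B n a i j x))
    (C := U.II (fun _ _ => 1) + C)
    (fun n a => (cc n a).add (hergc_cmx (cD n a) (cB n a)))
    (fun n a => continuous_const.add (hergc_cab (cB n a))) ?_ ?_
  · filter_upwards [hC] with n hn
    have h := U.II_add (f := fun _ _ => (1 : ℝ)) (g := fun a x => ab (fun i j => B n a i j x))
      (fun _ => continuous_const) (fun a => hergc_cab (cB n a))
    rw [h]
    linarith
  · intro θ hθ
    have h1 : ∀ᶠ n in atTop, ∀ a, ∀ x ∈ closedBall (0 : P) U.rho, |c n a x| ≤ θ := by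
      refine eventually_all.2 fun a => ?_
      filter_upwards [Metric.tendstoUniformlyOn_iff.1 (tc a) θ hθ] with n hn x hx
      have := hn x hx
      rw [dist_comm, Real.dist_eq, sub_zero] at this
      exact this.le
    have h2 : ∀ᶠ n in atTop, ∀ a i j, ∀ x ∈ closedBall (0 : P) U.rho, |D n a i j x| ≤ θ / 4 := by
      refine eventually_all.2 fun a => eventually_all.2 fun i => eventually_all.2 fun j => ?_
      filter_upwards [Metric.tendstoUniformlyOn_iff.1 (tD a i j) (θ / 4) (by positivity)]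
        with n hn x hx
      have := hn x hx
      rw [dist_comm, Real.dist_eq, sub_zero] at this
      exact this.le
    filter_upwards [h1, h2] with n hn1 hn2 a x hx
    have hD : ab (fun i j => D n a i j x) ≤ θ := by
      have := hn2 a 0 0 x hx
      have := hn2 a 0 1 x hx
      have := hn2 a 1 0 x hx
      have := hn2 a 1 1 x hx
      unfold ab
      linarith
    have hB : 0 ≤ ab (fun i j => B n a i j x) := by
      unfold ab
      positivity
    have h3 := abs_mx_le (fun i j => D n a i j x) (fun i j => B n a i j x)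
    have h4 := mul_le_mul_of_nonneg_right hD hB
    have h5 := abs_add_le (c n a x) (mx (fun i j => D n a i j x) (fun i j => B n a i j x))
    have h6 := hn1 a x hx
    nlinarith

theorem hergc_lin {t r f1 f2 m0 m p0 p G T : Fin U.k → P → ℝ}
    (cr' : ∀ a, Continuous (r a)) (c1 : ∀ a, Continuous (f1 a)) (c2 : ∀ a, Continuous (f2 a))
    (cm0 : ∀ a, Continuous (m0 a)) (cm : ∀ a, Continuous (m a))
    (cp0 : ∀ a, Continuous (p0 a)) (cp : ∀ a, Continuous (p a))
    (cG : ∀ a, Continuous (G a)) (cT : ∀ a, Continuous (T a))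
    (h : ∀ a x, t a x = (r a x + 2 * G a x + T a x)
      + ((m0 a x - p0 a x) + (m a x - p a x) - (f1 a x + f2 a x)))
    (h1 : U.II f1 = 0) (h2 : U.II f2 = 0) (h3 : U.II m0 = U.II p0) (h4 : U.II m = U.II p) :
    U.II t = U.II r + 2 * U.II G + U.II T := by
  have cG2 : ∀ a, Continuous fun x => 2 * G a x := fun a => continuous_const.mul (cG a)
  have e0 := U.II_mul 2 G
  have e1 := U.II_add cr' cG2
  have e2 := U.II_add (f := fun a x => r a x + 2 * G a x) (fun a => (cr' a).add (cG2 a)) cT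
  have e3 := U.II_sub cm0 cp0
  have e4 := U.II_sub cm cp
  have e5 := U.II_add c1 c2
  have e6 := U.II_add (f := fun a x => m0 a x - p0 a x) (g := fun a x => m a x - p a x)
    (fun a => (cm0 a).sub (cp0 a)) (fun a => (cm a).sub (cp a))
  have e7 := U.II_sub (f := fun a x => (m0 a x - p0 a x) + (m a x - p a x))
    (g := fun a x => f1 a x + f2 a x)
    (fun a => ((cm0 a).sub (cp0 a)).add ((cm a).sub (cp a))) (fun a => (c1 a).add (c2 a))
  have e8 := U.II_add (f := fun a x => r a x + 2 * G a x + T a x)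
    (g := fun a x => (m0 a x - p0 a x) + (m a x - p a x) - (f1 a x + f2 a x))
    (fun a => ((cr' a).add (cG2 a)).add (cT a))
    (fun a => (((cm0 a).sub (cp0 a)).add ((cm a).sub (cp a))).sub ((c1 a).add (c2 a)))
  have e : t = fun a x => (r a x + 2 * G a x + T a x)
      + ((m0 a x - p0 a x) + (m a x - p a x) - (f1 a x + f2 a x)) :=
    funext fun a => funext fun x => h a x
  rw [e, e8, e7, e6, e5, e4, e3, e2, e1, e0, h1, h2, h3, h4]
  ring

theorem hergc_alg (g gN A B e1 e2 : Fin 2 → Fin 2 → ℝ) (hu hv h s sN ka kN : ℝ)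
    (hk : ka = dt A / s) :
    (hu + hv) * mx A B / s =
      ((mx e1 (fun i j => A i j * s⁻¹) + (hv - h) * (-2 * ka))
        + mx (fun i j => (hv - h) * (A i j * s⁻¹) + (s⁻¹ - sN⁻¹) * (hu * A i j) + e2 i j * sN⁻¹
          + (g i j - gN i j) * sN⁻¹) B
        + 2 * (h * (kN - ka)) + (hu + hv) * (2 * dt A) / s)
      + ((mx g A / s - 2 * hu * ka) + (mx gN B / sN - 2 * h * kN)
        - (mx (fun i j => g i j - h * B i j + e1 i j) A / s
          + mx (fun i j => g i j - hu * A i j + e2 i j) B / sN)) := by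
  rw [hk]
  simp only [mx, dt, div_eq_mul_inv]
  ring

/-- the Herglotz limit -/
theorem Pou.herg_lim (A : Appr I) (hI : Cvx I) :
    Tendsto (fun n => U.II (fun a x => (X.hu (U.R a) x + I.hv (U.R a) x) *
      mx (at2 (sf (X.psi (U.R a))) x) (at2 (sf (A.w (U.R a) n)) x) / sq (X.psi (U.R a)) x)) atTop
      (𝓝 (U.II (fun a x => (X.hu (U.R a) x + I.hv (U.R a) x) *
        (2 * dt (at2 (sf (X.psi (U.R a))) x)) / sq (X.psi (U.R a)) x))) := by
  obtain ⟨C, hC⟩ := U.bound_sf A hI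
  obtain ⟨e1, ce1, te1, h1⟩ := U.herg1 A
  obtain ⟨e2, ce2, te2, h2⟩ := U.herg2 A
  have hG := U.gauss_lim A hC
  have hK : IsCompact (closedBall (0 : P) U.rho) := isCompact_closedBall _ _
  have ip : ∀ a, Imm (X.psi (U.R a)) := fun a => X.imm_psi _
  have iw : ∀ a n, Imm (A.w (U.R a) n) := fun a n => A.imm_w _ n
  have cA : ∀ a i j, Continuous (sf (X.psi (U.R a)) i j) := fun a i j =>
    ((ip a).sm_sf i j).continuous
  have cB : ∀ n a i j, Continuous (sf (A.w (U.R a) n) i j) := fun n a i j =>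
    ((iw a n).sm_sf i j).continuous
  have cg : ∀ a i j, Continuous (gm (X.psi (U.R a)) i j) := fun a i j =>
    ((ip a).sm_gm i j).continuous
  have cgN : ∀ n a i j, Continuous (gm (A.w (U.R a) n) i j) := fun n a i j =>
    ((iw a n).sm_gm i j).continuous
  have cs : ∀ a, Continuous (sq (X.psi (U.R a))) := fun a => (ip a).sm_sq.continuous
  have csN : ∀ n a, Continuous (sq (A.w (U.R a) n)) := fun n a => (iw a n).sm_sq.continuous
  have s0 : ∀ a x, sq (X.psi (U.R a)) x ≠ 0 := fun a x => ((ip a).sq_pos x).ne'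
  have sN0 : ∀ n a x, sq (A.w (U.R a) n) x ≠ 0 := fun n a x => ((iw a n).sq_pos x).ne'
  have ci : ∀ a, Continuous fun x => (sq (X.psi (U.R a)) x)⁻¹ := fun a => (cs a).inv₀ (s0 a)
  have ciN : ∀ n a, Continuous fun x => (sq (A.w (U.R a) n) x)⁻¹ := fun n a =>
    (csN n a).inv₀ (sN0 n a)
  have chu : ∀ a, Continuous (X.hu (U.R a)) := fun a => X.continuous_hu _
  have chv : ∀ a, Continuous (I.hv (U.R a)) := fun a => I.continuous_hv _
  have ch : ∀ n a, Continuous (hs (A.w (U.R a) n)) := fun n a => (iw a n).sm_hs.continuous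
  have ck : ∀ a, Continuous (X.ka (U.R a)) := fun a => X.continuous_ka _
  have ckN : ∀ n a, Continuous (kap (un (A.w (U.R a) n))) := fun n a =>
    (iw a n).sm_kap.continuous
  have th : ∀ a, TendstoUniformlyOn (fun n => hs (A.w (U.R a) n)) (I.hv (U.R a)) atTop
      (closedBall (0 : P) U.rho) := fun a => (A.hs_conv (U.R a)).tendstoUniformlyOn
  have cc : ∀ n a, Continuous fun x => mx (fun i j => e1 n a i j x)
      (fun i j => sf (X.psi (U.R a)) i j x * (sq (X.psi (U.R a)) x)⁻¹)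
      + (I.hv (U.R a) x - hs (A.w (U.R a) n) x) * (-2 * X.ka (U.R a) x) := fun n a =>
    (hergc_cmx (ce1 n a) (fun i j => (cA a i j).mul (ci a))).add
      (((chv a).sub (ch n a)).mul (continuous_const.mul (ck a)))
  have cD : ∀ n a i j, Continuous fun x => (I.hv (U.R a) x - hs (A.w (U.R a) n) x)
      * (sf (X.psi (U.R a)) i j x * (sq (X.psi (U.R a)) x)⁻¹)
      + ((sq (X.psi (U.R a)) x)⁻¹ - (sq (A.w (U.R a) n) x)⁻¹)
        * (X.hu (U.R a) x * sf (X.psi (U.R a)) i j x)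
      + e2 n a i j x * (sq (A.w (U.R a) n) x)⁻¹
      + (gm (X.psi (U.R a)) i j x - gm (A.w (U.R a) n) i j x) * (sq (A.w (U.R a) n) x)⁻¹ :=
    fun n a i j =>
      ((((((chv a).sub (ch n a)).mul ((cA a i j).mul (ci a))).add
        (((ci a).sub (ciN n a)).mul ((chu a).mul (cA a i j)))).add
        ((ce2 n a i j).mul (ciN n a))).add (((cg a i j).sub (cgN n a i j)).mul (ciN n a)))
  have hS := hergc_small U cc cD cB hC
    (fun a => hergc_c hK (cA a) (cs a) (s0 a) (ck a) (th a) (te1 a))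
    (fun a i j => hergc_D hK (chu a) (cA a i j) (cs a) (s0 a) (th a) (A.sq_conv (U.R a) hK)
      (te2 a i j) (A.gm_conv (U.R a) hK i j))
  have cdt : ∀ a, Continuous fun x => dt (at2 (sf (X.psi (U.R a))) x) := fun a =>
    ((cA a 0 0).mul (cA a 1 1)).sub ((cA a 0 1).mul (cA a 1 0))
  have hL := (hS.add (hG.const_mul 2)).add_const (U.II (fun a x =>
    (X.hu (U.R a) x + I.hv (U.R a) x) *
      (2 * dt (at2 (sf (X.psi (U.R a))) x)) / sq (X.psi (U.R a)) x))
  rw [mul_zero, add_zero, zero_add] at hL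
  refine hL.congr fun n => (hergc_lin U ?_ ?_ ?_ ?_ ?_ ?_ ?_ ?_ ?_ ?_ (h1 n) (h2 n) U.mink0
    (U.mink A n)).symm
  · exact fun a => (cc n a).add (hergc_cmx (cD n a) (cB n a))
  · exact fun a => (hergc_cmx (fun i j => ((cg a i j).sub ((ch n a).mul (cB n a i j))).add
      (ce1 n a i j)) (cA a)).div (cs a) (s0 a)
  · exact fun a => (hergc_cmx (fun i j => ((cg a i j).sub ((chu a).mul (cA a i j))).add
      (ce2 n a i j)) (cB n a)).div (csN n a) (sN0 n a)
  · exact fun a => (hergc_cmx (cg a) (cA a)).div (cs a) (s0 a)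
  · exact fun a => (hergc_cmx (cgN n a) (cB n a)).div (csN n a) (sN0 n a)
  · exact fun a => (continuous_const.mul (chu a)).mul (ck a)
  · exact fun a => (continuous_const.mul (ch n a)).mul (ckN n a)
  · exact fun a => (ch n a).mul ((ckN n a).sub (ck a))
  · exact fun a => (((chu a).add (chv a)).mul (continuous_const.mul (cdt a))).div (cs a) (s0 a)
  · exact fun a x => hergc_alg (at2 (gm (X.psi (U.R a))) x) (at2 (gm (A.w (U.R a) n)) x)
      (at2 (sf (X.psi (U.R a))) x) (at2 (sf (A.w (U.R a) n)) x) (fun i j => e1 n a i j x)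
      (fun i j => e2 n a i j x) _ _ _ _ _ _ _ ((ip a).kap_eq x)

end Pool.Agent.Bor
end
end

-- part Pool.Agent.P.MP_26ecb7_gt.Alex0
section

noncomputable section
open Set Filter Topology MeasureTheory Metric
open scoped RealInnerProductSpace ContDiff ENNReal

namespace Pool.Agent.Bor

theorem alex0_null {C : NNReal} {f : P → P} (hf : LipschitzWith C f) {Z : Set P}
    (hZ : volume Z = 0) : volume (f '' Z) = 0 := by
  have h1 := hf.hausdorffMeasure_image_le (d := 2) (by norm_num) Z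
  rw [hausdorffMeasure_prod_real, hZ, mul_zero] at h1
  exact le_antisymm h1 zero_le

theorem ae_diff_of_lip {U : Set P} (hU : IsOpen U) {y : P → P} {M : P → E} (hy : Continuous y)
    {K : ℝ} (h : ∀ x ∈ U, ∀ x' ∈ U, ‖x - x'‖ ≤ K * ‖y x - y x'‖ ∧ ‖M x - M x'‖ ≤ K * ‖y x - y x'‖) :
    ∀ᵐ x, x ∈ U → DifferentiableAt ℝ M x := by
  have hinj : InjOn y U := by
    intro x hx x' hx' hxx
    have h1 := (h x hx x' hx').1
    rw [hxx, sub_self, norm_zero, mul_zero] at h1
    exact sub_eq_zero.1 (norm_le_zero_iff.1 h1)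
  set S : P → P := Function.invFunOn y U with hS
  have hSy : ∀ x ∈ U, S (y x) = x := fun x hx => hinj.leftInvOn_invFunOn hx
  have hK : ∀ a b : P, K * ‖a - b‖ ≤ (Real.toNNReal K : ℝ) * dist a b := by
    intro a b
    rw [dist_eq_norm]
    exact mul_le_mul_of_nonneg_right (Real.le_coe_toNNReal K) (norm_nonneg _)
  have hL1 : LipschitzOnWith (Real.toNNReal K) S (y '' U) := by
    refine LipschitzOnWith.of_dist_le_mul ?_
    rintro _ ⟨x, hx, rfl⟩ _ ⟨x', hx', rfl⟩
    rw [hSy x hx, hSy x' hx', dist_eq_norm]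
    exact (h x hx x' hx').1.trans (hK _ _)
  have hL2 : LipschitzOnWith (Real.toNNReal K) (fun z => M (S z)) (y '' U) := by
    refine LipschitzOnWith.of_dist_le_mul ?_
    rintro _ ⟨x, hx, rfl⟩ _ ⟨x', hx', rfl⟩
    rw [hSy x hx, hSy x' hx', dist_eq_norm]
    exact (h x hx x' hx').2.trans (hK _ _)
  obtain ⟨S', hS', eS⟩ := hL1.extend_finite_dimension
  obtain ⟨M', hM', eM⟩ := hL2.extend_finite_dimension
  have hS'y : ∀ x ∈ U, S' (y x) = x := fun x hx => by
    rw [← eS (mem_image_of_mem y hx), hSy x hx]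
  have hM'y : ∀ x ∈ U, M' (y x) = M x := fun x hx => by
    rw [← eM (mem_image_of_mem y hx)]
    show M (S (y x)) = M x
    rw [hSy x hx]
  have a1 : ∀ᵐ z, DifferentiableAt ℝ S' z := hS'.ae_differentiableAt
  have a2 : ∀ᵐ z, DifferentiableAt ℝ M' z := hM'.ae_differentiableAt
  have a3 : volume {z | ¬ (DifferentiableAt ℝ S' z ∧ DifferentiableAt ℝ M' z)} = 0 :=
    ae_iff.1 (a1.and a2)
  have n1 := alex0_null hS' a3
  have n2 : volume (S' '' {z | DifferentiableAt ℝ S' z ∧ (fderiv ℝ S' z).det = 0}) = 0 :=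
    addHaar_image_eq_zero_of_det_fderivWithin_eq_zero volume (f' := fderiv ℝ S')
      (fun z hz => hz.1.hasFDerivAt.hasFDerivWithinAt) (fun z hz => hz.2)
  filter_upwards [measure_eq_zero_iff_ae_notMem.1 n1, measure_eq_zero_iff_ae_notMem.1 n2]
    with x h1 h2 hx
  have d1 : DifferentiableAt ℝ S' (y x) ∧ DifferentiableAt ℝ M' (y x) := by
    by_contra hc
    exact h1 ⟨y x, hc, hS'y x hx⟩
  have d2 : (fderiv ℝ S' (y x)).det ≠ 0 := fun hc => h2 ⟨y x, ⟨d1.1, hc⟩, hS'y x hx⟩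
  have hev : ∀ᶠ x' in 𝓝 x, x' ∈ U := hU.mem_nhds hx
  have d3 : HasFDerivAt y
      (((fderiv ℝ S' (y x)).toContinuousLinearEquivOfDetNeZero d2).symm : P →L[ℝ] P) x := by
    refine HasFDerivAt.of_local_left_inverse (f := S') hy.continuousAt ?_ ?_
    · rw [ContinuousLinearMap.coe_toContinuousLinearEquivOfDetNeZero]
      exact d1.1.hasFDerivAt
    · filter_upwards [hev] with x' hx' using hS'y x' hx'
  have d4 : DifferentiableAt ℝ (fun x' => M' (y x')) x := d1.2.comp x d3.differentiableAt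
  refine d4.congr_of_eventuallyEq ?_
  filter_upwards [hev] with x' hx' using (hM'y x' hx').symm


end Pool.Agent.Bor
end
end

-- part Pool.Agent.P.MP_26ecb7_gt.Alex
section

noncomputable section
open Set Filter Topology MeasureTheory Metric
open scoped RealInnerProductSpace ContDiff ENNReal

namespace Pool.Agent.Bor

theorem alex_alg {u v a b : E} (ha : ‖a‖ = 1) (hb : ‖b‖ = 1) (hab : ⟪a, b⟫ = 0)
    (hn : ‖cr a b‖ = 1) (h : 0 ≤ ⟪v, u⟫) (hu : |⟪u, cr a b⟫| ≤ ‖u‖ / 4)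
    (hv : |⟪v, cr a b⟫| ≤ ‖v‖ / 4) {m : ℝ} (h1 : |⟪u + v, a⟫| ≤ m) (h2 : |⟪u + v, b⟫| ≤ m) :
    ‖u‖ ≤ 2 * m ∧ ‖v‖ ≤ 2 * m := by
  have hp := parseval a b (u + v) (u + v)
  rw [hn, hab, real_inner_self_eq_norm_sq, real_inner_self_eq_norm_sq a,
    real_inner_self_eq_norm_sq b, ha, hb, norm_add_sq_real, real_inner_comm v u] at hp
  have h3 : |⟪u + v, cr a b⟫| ≤ ‖u‖ / 4 + ‖v‖ / 4 := by
    rw [inner_add_left]; exact (abs_add_le _ _).trans (add_le_add hu hv)
  have hm : 0 ≤ m := (abs_nonneg _).trans h1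
  have s1 := sq_le_sq' (abs_le.1 h1).1 (abs_le.1 h1).2
  have s2 := sq_le_sq' (abs_le.1 h2).1 (abs_le.1 h2).2
  have s3 := sq_le_sq' (abs_le.1 h3).1 (abs_le.1 h3).2
  have s4 : ‖u‖ ^ 2 + ‖v‖ ^ 2 ≤ (2 * m) ^ 2 := by
    nlinarith [sq_nonneg (‖u‖ - ‖v‖), sq_nonneg m]
  exact ⟨abs_le_of_sq_le_sq' (by linarith [sq_nonneg ‖v‖]) (by positivity) |>.2,
    abs_le_of_sq_le_sq' (by linarith [sq_nonneg ‖u‖]) (by positivity) |>.2⟩

theorem alex_anti {w : P → E} {x : P} (h0 : nv w x ≠ 0) :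
    ∃ c : ℝ, 0 < c ∧ ∀ u, c * ‖u‖ ≤ ‖fderiv ℝ w x u‖ := by
  have hk : LinearMap.ker (fderiv ℝ w x : P →ₗ[ℝ] E) = ⊥ := by
    refine LinearMap.ker_eq_bot'.2 fun u hu => ?_
    have e : u.1 • pd 0 w x + u.2 • pd 1 w x = 0 := (fderiv_eq_pd w x u).symm.trans hu
    have e1 := congrArg (fun z => cr z (pd 1 w x)) e
    have e2 := congrArg (fun z => cr (pd 0 w x) z) e
    have z1 : cr 0 (pd 1 w x) = 0 := by simpa using cr_smul_left 0 0 (pd 1 w x)
    have z2 : cr (pd 0 w x) 0 = 0 := by simpa using cr_smul_right 0 (pd 0 w x) 0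
    simp only [cr_add_left, cr_add_right, cr_smul_left, cr_smul_right, cr_self, smul_zero,
      add_zero, zero_add, z1, z2, smul_eq_zero] at e1 e2
    exact Prod.ext (e1.resolve_right h0) (e2.resolve_right h0)
  obtain ⟨K, hK, h⟩ := LinearMap.exists_antilipschitzWith _ hk
  have hK' : (0 : ℝ) < K := hK
  refine ⟨(K : ℝ)⁻¹, by positivity, fun u => ?_⟩
  rw [inv_mul_le_iff₀ hK']
  simpa using h.le_mul_dist u 0

theorem alex_loc {w N : P → E} (hw : ContDiff ℝ 1 w) (hN : Continuous N)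
    (h0 : ∀ x, nv w x ≠ 0) (h1 : ∀ x, ‖N x‖ = 1) (h2 : ∀ i x, ⟪N x, pd i w x⟫ = 0)
    (h3 : ∀ x x', 0 ≤ ⟪N x - N x', w x - w x'⟫) (x₀ : P) :
    ∃ U, IsOpen U ∧ x₀ ∈ U ∧ ∀ᵐ x, x ∈ U → DifferentiableAt ℝ N x := by
  obtain ⟨a, b, ha, hb, hab, hc⟩ := exists_frame (h1 x₀)
  obtain ⟨c, c0, hL⟩ := alex_anti (h0 x₀)
  have hs := (hw.contDiffAt (x := x₀)).hasStrictFDerivAt one_ne_zero
  have e1 := hs.isLittleO.bound (c := c / 5) (by positivity)
  rw [nhds_prod_eq] at e1
  obtain ⟨t, ht, ht'⟩ := (eventually_prod_self_iff (r := fun x x' : P =>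
    ‖w x - w x' - fderiv ℝ w x₀ (x - x')‖ ≤ c / 5 * ‖x - x'‖)).1 e1
  have e2 : N ⁻¹' ball (N x₀) (1 / 4) ∈ 𝓝 x₀ :=
    hN.continuousAt.preimage_mem_nhds (ball_mem_nhds _ (by norm_num))
  obtain ⟨U, hU, Uo, hx⟩ := _root_.mem_nhds_iff.1 (inter_mem ht e2)
  have hwc := hw.continuous
  refine ⟨U, Uo, hx, ae_diff_of_lip Uo (y := fun x => (⟪w x + N x, a⟫, ⟪w x + N x, b⟫))
    (by fun_prop) (K := 2 + 5 / (2 * c)) fun x hx x' hx' => ?_⟩
  have a1 := ht' x (hU hx).1 x' (hU hx').1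
  have a2 : 4 * c / 5 * ‖x - x'‖ ≤ ‖w x - w x'‖ := by
    have := norm_sub_norm_le (fderiv ℝ w x₀ (x - x')) (w x - w x')
    rw [norm_sub_rev (fderiv ℝ w x₀ (x - x'))] at this
    linarith [hL (x - x')]
  have a3 : |⟪w x - w x', N x₀⟫| ≤ ‖w x - w x'‖ / 4 := by
    have z : ⟪fderiv ℝ w x₀ (x - x'), N x₀⟫ = 0 := by
      rw [real_inner_comm, fderiv_eq_pd, inner_add_right, inner_smul_right, inner_smul_right,
        h2, h2, mul_zero, mul_zero, add_zero]
    have := abs_real_inner_le_norm (w x - w x' - fderiv ℝ w x₀ (x - x')) (N x₀)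
    rw [inner_sub_left (w x - w x'), z, sub_zero, h1, mul_one] at this
    linarith
  have a4 : |⟪N x - N x', N x₀⟫| ≤ ‖N x - N x'‖ / 4 := by
    have z : ⟪N x - N x', (N x₀ - N x) + (N x₀ - N x')⟫ = 2 * ⟪N x - N x', N x₀⟫ := by
      simp only [inner_add_right, inner_sub_right, inner_sub_left, real_inner_self_eq_norm_sq, h1,
        real_inner_comm (N x) (N x')]
      ring
    have b1 : ‖N x₀ - N x‖ < 1 / 4 := mem_ball_iff_norm'.1 (hU hx).2
    have b2 : ‖N x₀ - N x'‖ < 1 / 4 := mem_ball_iff_norm'.1 (hU hx').2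
    have b3 := abs_real_inner_le_norm (N x - N x') ((N x₀ - N x) + (N x₀ - N x'))
    have b4 := mul_le_mul_of_nonneg_left ((norm_add_le (N x₀ - N x) (N x₀ - N x')).trans
      (add_le_add b1.le b2.le)) (norm_nonneg (N x - N x'))
    rw [z, abs_mul, abs_two] at b3
    linarith
  have e : w x - w x' + (N x - N x') = w x + N x - (w x' + N x') := by abel
  set m := ‖((⟪w x + N x, a⟫, ⟪w x + N x, b⟫) : P) - (⟪w x' + N x', a⟫, ⟪w x' + N x', b⟫)‖ with hm
  have m0 : 0 ≤ m := norm_nonneg _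
  obtain ⟨r1, r2⟩ := alex_alg ha hb hab (hc ▸ h1 x₀) (h3 x x') (hc ▸ a3) (hc ▸ a4) (m := m)
    (by rw [e, inner_sub_left]; exact le_max_left _ _)
    (by rw [e, inner_sub_left]; exact le_max_right _ _)
  have k0 : 0 ≤ 5 / (2 * c) * m := by positivity
  refine ⟨?_, by linarith⟩
  have : ‖x - x'‖ ≤ 5 / (2 * c) * m := by
    rw [div_mul_eq_mul_div, le_div_iff₀ (by positivity)]; linarith
  linarith

/-- Alexandrov theorem for the Gauss map of a monotone pair -/
theorem ae_diff_of_mono {w N : P → E} (hw : ContDiff ℝ 1 w) (hN : Continuous N)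
    (h0 : ∀ x, nv w x ≠ 0) (h1 : ∀ x, ‖N x‖ = 1) (h2 : ∀ i x, ⟪N x, pd i w x⟫ = 0)
    (h3 : ∀ x x', 0 ≤ ⟪N x - N x', w x - w x'⟫) : ∀ᵐ x, DifferentiableAt ℝ N x := by
  refine ae_iff.2 (measure_null_of_locally_null _ fun x₀ _ => ?_)
  obtain ⟨U, hU, hx, h⟩ := alex_loc hw hN h0 h1 h2 h3 x₀
  refine ⟨_, inter_mem_nhdsWithin _ (hU.mem_nhds hx), measure_mono_null ?_ (ae_iff.1 h)⟩
  exact fun x hx h' => hx.1 (h' hx.2)

theorem Cvx.ae_diff {X : Surf} {I : Iso X} (hI : Cvx I) (R : Rot) :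
    ∀ᵐ x, DifferentiableAt ℝ (I.n R) x := by
  refine ae_diff_of_mono (I.w_c1 R) (I.continuous_n R) (fun x => ?_) (I.norm_n R) (I.n_pd R)
    fun x x' => ?_
  · rw [I.nv_w]
    exact smul_ne_zero (norm_ne_zero_iff.2 ((X.imm_psi R).2 x))
      (norm_ne_zero_iff.1 (by rw [I.norm_n]; exact one_ne_zero))
  · have a1 : ⟪I.n R x, I.w R x' - I.w R x⟫ ≤ 0 := hI.supp _ (X.psi_mem R x) _ (X.psi_mem R x')
    have a2 : ⟪I.n R x', I.w R x - I.w R x'⟫ ≤ 0 := hI.supp _ (X.psi_mem R x') _ (X.psi_mem R x)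
    rw [← neg_sub, inner_neg_right] at a1
    rw [inner_sub_left]
    linarith

end Pool.Agent.Bor
end
end

-- part Pool.Agent.P.MP_26ecb7_gt.Pt
section

noncomputable section
open Set Filter Topology MeasureTheory Metric
open scoped RealInnerProductSpace ContDiff ENNReal

namespace Pool.Agent.Bor

variable {X : Surf} {I : Iso X}

theorem pt_clm {f : E → E →L[ℝ] E} {q : E} (h : ∀ a, DifferentiableAt ℝ (fun z => f z a) q) :
    DifferentiableAt ℝ f q := by
  let d := Module.finrank ℝ E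
  have hd : d = Module.finrank ℝ (Fin d → ℝ) := (Module.finrank_fin_fun ℝ).symm
  let e₁ := ContinuousLinearEquiv.ofFinrankEq hd
  let e₂ := (e₁.arrowCongr (1 : E ≃L[ℝ] E)).trans (ContinuousLinearEquiv.piRing (Fin d))
  rw [← Function.id_comp f, ← e₂.symm_comp_self]
  exact e₂.symm.differentiableAt.comp q (differentiableAt_pi.mpr fun i => h _)

theorem pt_vec {f : E → E} {q : E} (h : ∀ y : E, DifferentiableAt ℝ (fun z => ⟪y, f z⟫) q) :
    DifferentiableAt ℝ f q := by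
  refine differentiableAt_euclidean.mpr fun i => ?_
  have h1 : (fun z => f z i) = fun z => ⟪ee i, f z⟫ := by
    funext z
    simp [ee, EuclideanSpace.inner_single_left]
  rw [h1]
  exact h _

/-- a power above one is negligible -/
theorem pt_little {p : ℝ} (hp : 1 < p) (q : E) :
    (fun z : E => ‖z - q‖ ^ p) =o[𝓝 q] (fun z => z - q) := by
  rw [Asymptotics.isLittleO_iff]
  intro c hc
  have h0 : Tendsto (fun z : E => ‖z - q‖ ^ (p - 1)) (𝓝 q) (𝓝 0) := by
    have h1 : ContinuousAt (fun z : E => ‖z - q‖ ^ (p - 1)) q :=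
      ContinuousAt.rpow_const (by fun_prop) (Or.inr (by linarith))
    have h2 : ‖q - q‖ ^ (p - 1) = 0 := by
      rw [sub_self, norm_zero, Real.zero_rpow (by linarith)]
    have h3 := h1.tendsto
    rw [h2] at h3
    exact h3
  filter_upwards [h0.eventually (gt_mem_nhds hc)] with z hz
  have h4 : ‖z - q‖ ^ p = ‖z - q‖ ^ (p - 1) * ‖z - q‖ := by
    have h5 := Real.rpow_add_one' (norm_nonneg (z - q)) (y := p - 1) (by linarith)
    rw [← h5, sub_add_cancel]
  rw [Real.norm_eq_abs, abs_of_nonneg (Real.rpow_nonneg (norm_nonneg _) _), h4]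
  exact mul_le_mul_of_nonneg_right hz.le (norm_nonneg _)

/-- product of a differentiable map vanishing at the point with a continuous map -/
theorem pt_prod {f g : E → E} {q : E} (hf : DifferentiableAt ℝ f q) (h0 : f q = 0)
    (hg : ContinuousAt g q) : DifferentiableAt ℝ (fun z => ⟪f z, g z⟫) q := by
  have h1 : HasFDerivAt (fun z => ⟪f z, g z - g q⟫) (0 : E →L[ℝ] ℝ) q := by
    refine HasFDerivAt.of_isLittleO ?_
    have h2 : (fun z => f z) =O[𝓝 q] (fun z => z - q) := by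
      have := hf.isBigO_sub
      simpa [h0] using this
    have h3 : (fun z => g z - g q) =o[𝓝 q] (fun _ => (1 : ℝ)) := by
      rw [Asymptotics.isLittleO_one_iff]
      have := hg.tendsto.sub_const (g q)
      simpa using this
    have h4 : (fun z => ‖f z‖ * ‖g z - g q‖) =o[𝓝 q] (fun z => ‖z - q‖ * 1) :=
      h2.norm_norm.mul_isLittleO h3.norm_left
    have h5 : (fun z => ⟪f z, g z - g q⟫) =O[𝓝 q] (fun z => ‖f z‖ * ‖g z - g q‖) := by
      refine Asymptotics.IsBigO.of_bound 1 (Eventually.of_forall fun z => ?_)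
      rw [one_mul, Real.norm_eq_abs, Real.norm_eq_abs,
        abs_of_nonneg (mul_nonneg (norm_nonneg _) (norm_nonneg _))]
      exact abs_real_inner_le_norm _ _
    have h6 := h5.trans_isLittleO h4
    simp only [mul_one] at h6
    simpa [h0] using h6.of_norm_right
  have h7 : DifferentiableAt ℝ (fun z => ⟪f z, g q⟫) q := hf.inner ℝ (differentiableAt_const _)
  have h8 : (fun z => ⟪f z, g z⟫) = fun z => ⟪f z, g z - g q⟫ + ⟪f z, g q⟫ := by
    funext z
    rw [inner_sub_right, sub_add_cancel]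
  rw [h8]
  exact h1.differentiableAt.add h7

theorem pt_diff_N (R : Rot) {x : P} (hx : DifferentiableAt ℝ (I.n R) x) :
    DifferentiableAt ℝ I.N (X.psi R x) := by
  have hq := X.psi_mem R x
  have hpos := X.inner_psi R x
  have h1 : ∀ᶠ z in 𝓝 (X.psi R x), 0 < ⟪z - X.o, R.R (ee 2)⟫ := by
    have hc : ContinuousAt (fun z : E => ⟪z - X.o, R.R (ee 2)⟫) (X.psi R x) := by fun_prop
    exact hc.eventually (lt_mem_nhds hpos)
  have h2 : I.N =ᶠ[𝓝 (X.psi R x)] (I.n R) ∘ (fun z => gn R (z - X.o)) := by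
    filter_upwards [h1] with z hz
    have hne : z ≠ X.o := by
      rintro rfl
      simp at hz
    show I.N z = I.N (X.psi R (gn R (z - X.o)))
    rw [X.psi_gn R hz, I.N_pr hne]
  have h3 : DifferentiableAt ℝ (fun z => gn R (z - X.o)) (X.psi R x) := by
    have h4 : DifferentiableAt ℝ (gn R) (X.psi R x - X.o) :=
      (contDiffAt_gn R hpos.ne').differentiableAt (by simp)
    exact h4.comp (X.psi R x) (differentiableAt_id.sub_const X.o)
  have h5 : DifferentiableAt ℝ (I.n R) (gn R (X.psi R x - X.o)) := by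
    rw [X.gn_psi]
    exact hx
  exact (h5.comp (X.psi R x) h3).congr_of_eventuallyEq h2

theorem pt_tang (A : Appr I) {q : E} (hq : q ∈ X.S) (a c : E) :
    DifferentiableAt ℝ (fun z => ⟪fderiv ℝ I.V q c, fderiv ℝ I.V z a⟫) q := by
  obtain ⟨K, hK, h⟩ := A.tang
  let L : E →L[ℝ] ℝ :=
    (innerSL ℝ (fderiv ℝ X.pr q c)).comp ((fderiv ℝ (fderiv ℝ X.pr) q).flip a)
  have hL : ∀ b, L b = chr X.pr q b a c := by
    intro b
    simp only [L, chr, ContinuousLinearMap.comp_apply, ContinuousLinearMap.flip_apply, innerSL_apply_apply]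
    exact real_inner_comm _ _
  refine (HasFDerivAt.of_isLittleO (f' := L) ?_).differentiableAt
  have hp : 1 < 2 * I.al := by linarith [I.al_gt]
  refine Asymptotics.IsBigO.trans_isLittleO ?_ (pt_little hp q)
  refine Asymptotics.IsBigO.of_bound (K * ‖a‖ * ‖c‖) ?_
  filter_upwards [ball_mem_nhds q A.tau_pos] with z hz
  have h1 := h q hq q (mem_ball_self A.tau_pos) z hz a c
  rw [hL, ← inner_sub_right, Real.norm_eq_abs, Real.norm_eq_abs,
    abs_of_nonneg (Real.rpow_nonneg (norm_nonneg _) _)]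
  calc _ ≤ K * ‖z - q‖ ^ (2 * I.al) * ‖a‖ * ‖c‖ := h1
    _ = K * ‖a‖ * ‖c‖ * ‖z - q‖ ^ (2 * I.al) := by ring

theorem pt_orth {q : E} (hq : q ∈ X.S) (a : E) :
    ∀ᶠ z in 𝓝 q, ⟪I.N z, fderiv ℝ I.V z a⟫ = 0 := by
  filter_upwards [isOpen_ne.mem_nhds (X.ne_o hq)] with z hz
  exact I.N_orth hz a

theorem pt_norm {q : E} (hq : q ∈ X.S) (hN : DifferentiableAt ℝ I.N q) (a : E) :
    DifferentiableAt ℝ (fun z => ⟪I.N q, fderiv ℝ I.V z a⟫) q := by
  have hc : ContinuousAt (fun z => fderiv ℝ I.V z a) q :=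
    ((I.V_c1 (X.ne_o hq)).continuousAt_fderiv (by simp)).clm_apply continuousAt_const
  have h1 := pt_prod (f := fun z => I.N q - I.N z) ((differentiableAt_const _).sub hN)
    (sub_self _) hc
  refine h1.congr_of_eventuallyEq ?_
  filter_upwards [pt_orth (I := I) hq a] with z hz
  rw [inner_sub_left, hz, sub_zero]

/-- where the Gauss map is differentiable, so is the derivative of the immersion -/
theorem Appr.diff_DV (A : Appr I) (R : Rot) {x : P} (hx : DifferentiableAt ℝ (I.n R) x) :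
    DifferentiableAt ℝ (fderiv ℝ I.V) (X.psi R x) := by
  have hq := X.psi_mem R x
  have hN := pt_diff_N R hx
  refine pt_clm fun a => pt_vec fun y => ?_
  obtain ⟨C, -, hC⟩ := I.split (K := {X.psi R x}) isCompact_singleton
    (by simpa using (X.ne_o hq).symm)
  obtain ⟨c, hc, -⟩ := hC _ (mem_singleton _) y
  have h1 : (fun z => ⟪y, fderiv ℝ I.V z a⟫) = fun z =>
      ⟪y, I.N (X.psi R x)⟫ * ⟪I.N (X.psi R x), fderiv ℝ I.V z a⟫
        + ⟪fderiv ℝ I.V (X.psi R x) c, fderiv ℝ I.V z a⟫ := by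
    funext z
    rw [← real_inner_smul_left, ← inner_add_left, ← hc]
  rw [h1]
  exact ((pt_norm hq hN a).const_mul _).add (pt_tang A hq a c)

theorem Appr.sf_conv (A : Appr I) (R : Rot) {x : P} (hx : DifferentiableAt ℝ (I.n R) x)
    (i j : Fin 2) : Tendsto (fun n => sf (A.w R n) i j x) atTop
      (𝓝 ⟪pd i (I.n R) x, pd j (I.w R) x⟫) := by
  have hq := X.psi_mem R x
  have hN := pt_diff_N R hx
  have hD := A.diff_DV R hx
  have hpsi : DifferentiableAt ℝ (X.psi R) x := (X.sm_psi R).differentiable (by simp) x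
  have e1 : pd i (I.n R) x = fderiv ℝ I.N (X.psi R x) (pd i (X.psi R) x) := by
    have h1 : I.n R = I.N ∘ X.psi R := rfl
    unfold pd
    rw [h1, fderiv_comp x hN hpsi]
    rfl
  have e2 : ∀ a b : E, ⟪I.N (X.psi R x), fderiv ℝ (fderiv ℝ I.V) (X.psi R x) a b⟫
      + ⟪fderiv ℝ I.N (X.psi R x) a, fderiv ℝ I.V (X.psi R x) b⟫ = 0 := by
    intro a b
    have h1 : DifferentiableAt ℝ (fun z => fderiv ℝ I.V z b) (X.psi R x) :=
      hD.clm_apply (differentiableAt_const _)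
    have h2 := fderiv_inner_apply ℝ hN h1 a
    have h3 : (fun z => ⟪I.N z, fderiv ℝ I.V z b⟫) =ᶠ[𝓝 (X.psi R x)] fun _ => (0 : ℝ) :=
      pt_orth hq b
    rw [h3.fderiv_eq, fderiv_clm_apply hD (differentiableAt_const _)] at h2
    simpa using h2.symm
  have t1 : Tendsto (fun n => X.NW (A.W n) (X.psi R x)) atTop (𝓝 (I.N (X.psi R x))) :=
    A.NW_conv.tendsto_at hq
  have t2 : Tendsto (fun n => fderiv ℝ (A.W n) (X.psi R x)) atTop
      (𝓝 (fderiv ℝ I.V (X.psi R x))) :=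
    A.c1.tendsto_at (self_subset_thickening A.tau_pos _ hq)
  have t3 := A.pt _ hq _ hD.hasFDerivAt
  have t4 : ∀ a b : E, Tendsto (fun n => fderiv ℝ (fderiv ℝ (A.W n)) (X.psi R x) a b) atTop
      (𝓝 (fderiv ℝ (fderiv ℝ I.V) (X.psi R x) a b)) := by
    intro a b
    have hc : Continuous (fun M : E →L[ℝ] E →L[ℝ] E => M a b) := by fun_prop
    exact (hc.tendsto _).comp t3
  have t5 : ∀ c : E, Tendsto (fun n => fderiv ℝ (A.W n) (X.psi R x) c) atTop
      (𝓝 (fderiv ℝ I.V (X.psi R x) c)) := by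
    intro c
    have hc : Continuous (fun M : E →L[ℝ] E => M c) := by fun_prop
    exact (hc.tendsto _).comp t2
  have t6 := (t1.inner (𝕜 := ℝ) ((t4 (pd i (X.psi R) x) (pd j (X.psi R) x)).add
    (t5 (pd i (pd j (X.psi R)) x)))).neg
  have e3 : ⟪pd i (I.n R) x, pd j (I.w R) x⟫ = - ⟪I.N (X.psi R x),
      fderiv ℝ (fderiv ℝ I.V) (X.psi R x) (pd i (X.psi R) x) (pd j (X.psi R) x)
        + fderiv ℝ I.V (X.psi R x) (pd i (pd j (X.psi R)) x)⟫ := by
    rw [e1, I.pd_w, inner_add_right, I.N_orth (X.ne_o hq)]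
    linarith [e2 (pd i (X.psi R) x) (pd j (X.psi R) x)]
  rw [e3]
  refine t6.congr fun n => ?_
  rw [(A.imm_w R n).sf_eq, A.un_w, A.pd_pd_w]

end Pool.Agent.Bor
end
end

-- part Pool.Agent.P.MP_26ecb7_gt.Det
section

noncomputable section
open Set Filter Topology MeasureTheory Metric
open scoped RealInnerProductSpace ContDiff ENNReal

namespace Pool.Agent.Bor

open scoped Pointwise in
theorem vol_image_le {p : P → P} {x : P} (hp : DifferentiableAt ℝ p x) {η : ℝ} (hη : 0 < η) :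
    ∀ᶠ r in 𝓝[>] (0 : ℝ), volume (p '' closedBall x r) ≤
      ENNReal.ofReal (|jp p x| + η) * volume (closedBall x r) := by
  set A := fderiv ℝ p x with hA
  have HC : IsCompact (A '' closedBall 0 1) := (isCompact_closedBall _ _).image A.continuous
  have L0 : Tendsto (fun ε => volume (cthickening ε (A '' closedBall 0 1))) (𝓝[>] 0)
      (𝓝 (volume (A '' closedBall 0 1))) :=
    (tendsto_measure_cthickening_of_isCompact HC).mono_left nhdsWithin_le_nhds
  have I : volume (A '' closedBall 0 1) <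
      ENNReal.ofReal (|jp p x| + η) * volume (closedBall (0 : P) 1) := by
    have hdet : LinearMap.det (A : P →ₗ[ℝ] P) = jp p x := det_fderiv hp
    rw [Measure.addHaar_image_continuousLinearMap, hdet]
    refine ENNReal.mul_lt_mul_left (measure_closedBall_pos volume _ zero_lt_one).ne'
      measure_closedBall_lt_top.ne ?_
    exact (ENNReal.ofReal_lt_ofReal_iff (by positivity)).2 (by linarith)
  obtain ⟨ε, hε, εpos⟩ := (((tendsto_order.1 L0).2 _ I).and self_mem_nhdsWithin).exists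
  have εpos' : (0 : ℝ) < ε := εpos
  have hd := (hasFDerivAt_iff_isLittleO.1 hp.hasFDerivAt).bound εpos'
  obtain ⟨δ, δpos, hδ⟩ := Metric.eventually_nhds_iff.1 hd
  filter_upwards [Ioo_mem_nhdsGT δpos] with r hr
  have K : p '' closedBall x r ⊆ p x +ᵥ r • cthickening ε (A '' closedBall 0 1) := by
    rintro _ ⟨z, hz, rfl⟩
    have hz' : ‖z - x‖ ≤ r := mem_closedBall_iff_norm.1 hz
    refine ⟨p z - p x, ⟨r⁻¹ • (p z - p x), ?_, smul_inv_smul₀ hr.1.ne' _⟩, by simp⟩
    refine mem_cthickening_of_dist_le _ (A (r⁻¹ • (z - x))) _ _ (mem_image_of_mem _ ?_) ?_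
    · rw [mem_closedBall_zero_iff, norm_smul, norm_inv, Real.norm_eq_abs, abs_of_pos hr.1]
      exact inv_mul_le_one_of_le₀ hz' hr.1.le
    · have h1 := hδ (lt_of_le_of_lt hz hr.2)
      rw [dist_eq_norm, map_smul, ← smul_sub, norm_smul, norm_inv, Real.norm_eq_abs,
        abs_of_pos hr.1, inv_mul_le_iff₀ hr.1]
      calc ‖p z - p x - A (z - x)‖ ≤ ε * ‖z - x‖ := h1
        _ ≤ ε * r := by gcongr
        _ = r * ε := mul_comm _ _
  calc volume (p '' closedBall x r)
      ≤ volume (p x +ᵥ r • cthickening ε (A '' closedBall 0 1)) := measure_mono K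
    _ = ENNReal.ofReal |r ^ Module.finrank ℝ P| * volume (cthickening ε (A '' closedBall 0 1)) := by
      rw [measure_vadd, Measure.addHaar_smul]
    _ ≤ ENNReal.ofReal |r ^ Module.finrank ℝ P| *
        (ENNReal.ofReal (|jp p x| + η) * volume (closedBall (0 : P) 1)) := by
      gcongr
    _ = ENNReal.ofReal (|jp p x| + η) * volume (closedBall x r) := by
      rw [Measure.addHaar_closedBall' volume x hr.1.le, abs_of_pos (pow_pos hr.1 _), mul_left_comm]

theorem det_measurable_gn (R : Rot) : Measurable (gn R) := by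
  have h : ∀ k, Measurable fun y : E => ⟪y, R.R (ee k)⟫ := fun k =>
    (continuous_id.inner continuous_const).measurable
  exact ((h 0).div (h 2)).prodMk ((h 1).div (h 2))

/-- lower bound for the Jacobian of the Gauss map -/
theorem Cvx.ka_le {X : Surf} {I : Iso X} (hI : Cvx I) (R : Rot) {x : P}
    (hx : DifferentiableAt ℝ (I.n R) x) : X.ka R x ≤ |kap (I.n R) x| := by
  obtain ⟨R', hR'⟩ := exists_rot (I.norm_n R x)
  have h1 : ⟪I.n R x, R'.R (ee 2)⟫ = 1 := by
    rw [hR', real_inner_self_eq_norm_sq, I.norm_n, one_pow]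
  set p : P → P := fun y => gn R' (I.n R y) with hp
  have hpd : DifferentiableAt ℝ p x :=
    ((contDiffAt_gn R' (by rw [h1]; exact one_ne_zero)).differentiableAt (by simp)).comp x hx
  have hk : kap (I.n R) x = jp p x := by
    rw [kap_gn R' hx (I.norm_n R x) (by rw [h1]; exact one_pos), ← hR', gn_pole, lam_zero, one_mul]
  rw [hk]
  refine le_of_forall_pos_le_add fun η hη => ?_
  have hη2 : 0 < η / 2 := half_pos hη
  have c1 : ∀ᶠ y in 𝓝 x, X.ka R x - η / 2 < X.ka R y :=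
    (X.continuous_ka R).continuousAt.eventually (lt_mem_nhds (by linarith))
  have hc : Continuous fun y => ⟪I.n R y, R'.R (ee 2)⟫ :=
    (I.continuous_n R).inner continuous_const
  have c2 : ∀ᶠ y in 𝓝 x, 0 < ⟪I.n R y, R'.R (ee 2)⟫ :=
    hc.continuousAt.eventually (lt_mem_nhds (lt_of_lt_of_eq one_pos h1.symm))
  obtain ⟨δ, δpos, hδ⟩ := Metric.eventually_nhds_iff.1 (c1.and c2)
  obtain ⟨r, hv, hr⟩ := ((vol_image_le hpd hη2).and (Ioo_mem_nhdsGT δpos)).exists
  have hB : ∀ y ∈ closedBall x r, X.ka R x - η / 2 < X.ka R y ∧ 0 < ⟪I.n R y, R'.R (ee 2)⟫ :=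
    fun y hy => hδ (lt_of_le_of_lt hy hr.2)
  have hpc : ContinuousOn p (closedBall x r) := fun y hy =>
    (ContinuousAt.comp (f := I.n R) (contDiffAt_gn R' (hB y hy).2.ne').continuousAt
      (I.continuous_n R).continuousAt).continuousWithinAt
  have hm : MeasurableSet (p '' closedBall x r) :=
    ((isCompact_closedBall x r).image_of_continuousOn hpc).measurableSet
  have hG0 : MeasurableSet {y : E | 0 < ⟪y, R'.R (ee 2)⟫} :=
    measurableSet_lt measurable_const (continuous_id.inner continuous_const).measurable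
  have hG : MeasurableSet {y : E | 0 < ⟪y, R'.R (ee 2)⟫ ∧ gn R' y ∈ p '' closedBall x r} :=
    hG0.inter (det_measurable_gn R' hm)
  have key : ENNReal.ofReal (X.ka R x - η / 2) * volume (closedBall x r) ≤
      ENNReal.ofReal (|jp p x| + η / 2) * volume (closedBall x r) :=
    calc ENNReal.ofReal (X.ka R x - η / 2) * volume (closedBall x r)
        = ∫⁻ _ in closedBall x r, ENNReal.ofReal (X.ka R x - η / 2) := by
          rw [setLIntegral_const]
      _ ≤ ∫⁻ y in closedBall x r, ENNReal.ofReal (X.ka R y) :=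
          setLIntegral_mono' measurableSet_closedBall fun y hy =>
            ENNReal.ofReal_le_ofReal (hB y hy).1.le
      _ = X.mu (X.psi R '' closedBall x r) := (X.mu_image R measurableSet_closedBall).symm
      _ ≤ X.mu (I.N ⁻¹' {y : E | 0 < ⟪y, R'.R (ee 2)⟫ ∧ gn R' y ∈ p '' closedBall x r}) := by
          refine measure_mono ?_
          rintro _ ⟨y, hy, rfl⟩
          exact ⟨(hB y hy).2, mem_image_of_mem p hy⟩
      _ = ∫⁻ y in p '' closedBall x r, ENNReal.ofReal (lam y) := by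
          rw [hI.push _ hG, sig_gn R' hm]
      _ ≤ ∫⁻ _ in p '' closedBall x r, 1 :=
          lintegral_mono fun y => ENNReal.ofReal_le_one.2 (lam_le_one y)
      _ = volume (p '' closedBall x r) := by rw [setLIntegral_const, one_mul]
      _ ≤ _ := hv
  have h2 := (ENNReal.mul_le_mul_iff_left (measure_closedBall_pos volume x hr.1).ne'
    measure_closedBall_lt_top.ne).1 key
  have h3 := (ENNReal.ofReal_le_ofReal_iff (by positivity)).1 h2
  linarith

theorem Cvx.dt_le {X : Surf} {I : Iso X} (hI : Cvx I) (R : Rot) {x : P}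
    (hx : DifferentiableAt ℝ (I.n R) x) :
    dt (at2 (sf (X.psi R)) x) ≤ |dt (fun i j => ⟪pd i (I.n R) x, pd j (I.w R) x⟫)| := by
  have hs := (X.imm_psi R).sq_pos x
  have hv : cr (pd 0 (I.w R) x) (pd 1 (I.w R) x) = sq (X.psi R) x • I.n R x := I.nv_w R x
  have hn : ‖cr (pd 0 (I.w R) x) (pd 1 (I.w R) x)‖ = sq (X.psi R) x := by
    rw [hv, norm_smul, I.norm_n, mul_one, Real.norm_eq_abs, abs_of_pos hs]
  have h0 : cr (pd 0 (I.w R) x) (pd 1 (I.w R) x) ≠ 0 := by
    rw [← norm_pos_iff, hn]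
    exact hs
  have hN : I.n R x = nrm (cr (pd 0 (I.w R) x) (pd 1 (I.w R) x)) := by
    rw [hv, nrm_smul hs, nrm_unit (I.norm_n R x)]
  have h := hI.ka_le R hx
  rw [Surf.ka, (X.imm_psi R).kap_eq, kap_eq_of h0 hN, hn, abs_div, abs_of_pos hs,
    div_le_div_iff_of_pos_right hs] at h
  exact h

end Pool.Agent.Bor
end
end

-- part Pool.Agent.P.MP_26ecb7_gt.Lone
section

noncomputable section
open Set Filter Topology MeasureTheory Metric
open scoped RealInnerProductSpace ContDiff ENNReal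

namespace Pool.Agent.Bor

section aux
variable {X : Surf} {I : Iso X}

/-- the limit of the second fundamental forms -/
def loneB (I : Iso X) (R : Rot) (x : P) : Fin 2 → Fin 2 → ℝ :=
  fun i j => ⟪pd i (I.n R) x, pd j (I.w R) x⟫

/-- the weight -/
def loneH (I : Iso X) (R : Rot) (x : P) : ℝ := (X.hu R x + I.hv R x) / sq (X.psi R) x

/-- the mixed determinant -/
def loneM (A : Appr I) (R : Rot) (n : ℕ) (x : P) : ℝ :=
  mx (at2 (sf (X.psi R)) x) (at2 (sf (A.w R n)) x)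

theorem lone_H_pos (hI : Cvx I) (R : Rot) (x : P) : 0 < loneH I R x :=
  div_pos (add_pos (X.hu_pos R x) (hI.hv_pos R x)) ((X.imm_psi R).sq_pos x)

theorem lone_H_cont (I : Iso X) (R : Rot) : Continuous (loneH I R) :=
  ((X.continuous_hu R).add (I.continuous_hv R)).div (X.imm_psi R).sm_sq.continuous
    fun x => ((X.imm_psi R).sq_pos x).ne'

theorem lone_M_cont (A : Appr I) (R : Rot) (n : ℕ) : Continuous (loneM A R n) := by
  have h1 := fun i j => ((X.imm_psi R).sm_sf i j).continuous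
  have h2 := fun i j => ((A.imm_w R n).sm_sf i j).continuous
  exact ((((h1 0 0).mul (h2 1 1)).add ((h1 1 1).mul (h2 0 0))).sub ((h1 0 1).mul (h2 1 0))).sub
    ((h1 1 0).mul (h2 0 1))

theorem lone_dt_cont (X : Surf) (R : Rot) : Continuous fun x => dt (at2 (sf (X.psi R)) x) := by
  have h1 := fun i j => ((X.imm_psi R).sm_sf i j).continuous
  exact ((h1 0 0).mul (h1 1 1)).sub ((h1 0 1).mul (h1 1 0))

theorem lone_ab_cont {T : Fin 2 → Fin 2 → P → ℝ} (h : ∀ i j, Continuous (T i j)) :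
    Continuous fun x => ab fun i j => T i j x :=
  (((h 0 0).abs.add (h 0 1).abs).add (h 1 0).abs).add (h 1 1).abs

theorem lone_pt (A : Appr I) (hI : Cvx I) (R : Rot) {x : P} (hx : DifferentiableAt ℝ (I.n R) x) :
    loneB I R x 0 1 = loneB I R x 1 0 ∧ (∀ a b, 0 ≤ qf (loneB I R x) a b) ∧
      dt (at2 (sf (X.psi R)) x) ≤ dt (loneB I R x) := by
  have hc := A.sf_conv R hx
  have hs : loneB I R x 0 1 = loneB I R x 1 0 :=
    tendsto_nhds_unique (hc 0 1) ((hc 1 0).congr fun n => (A.imm_w R n).sf_symm 1 0 x)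
  have hq : ∀ a b, 0 ≤ qf (loneB I R x) a b := fun a b => by
    have h1 : Tendsto (fun n => qf (at2 (sf (A.w R n)) x) a b) atTop (𝓝 (qf (loneB I R x) a b)) :=
      (((hc 0 0).mul_const _).add ((((hc 0 1).add (hc 1 0)).mul_const _).mul_const _)).add
        ((hc 1 1).mul_const _)
    refine le_of_forall_pos_le_add fun ε hε => ?_
    have h0 : 0 < a ^ 2 + b ^ 2 + 1 := by positivity
    have h2 := ge_of_tendsto h1 ((A.lower hI R (isCompact_singleton (x := x))
      (ε / (a ^ 2 + b ^ 2 + 1)) (div_pos hε h0)).mono fun n hn => hn x rfl a b)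
    have h3 : ε / (a ^ 2 + b ^ 2 + 1) * (a ^ 2 + b ^ 2) ≤ ε := by
      rw [div_mul_eq_mul_div, div_le_iff₀ h0]
      nlinarith
    linarith
  exact ⟨hs, hq, (hI.dt_le R hx).trans_eq (abs_of_nonneg (dt_nonneg hs hq))⟩

theorem lone_ge (A : Appr I) (hI : Cvx I) (R : Rot) {x : P} (hx : DifferentiableAt ℝ (I.n R) x) :
    2 * dt (at2 (sf (X.psi R)) x) ≤ mx (at2 (sf (X.psi R)) x) (loneB I R x) := by
  obtain ⟨h1, h2, h3⟩ := lone_pt A hI R hx
  exact mx_ge ((X.imm_psi R).sf_symm 0 1 x) h1 (fun a b h => X.qf_pos R x h) h2 h3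

theorem lone_lim (A : Appr I) (hI : Cvx I) (R : Rot) {x : P} (hx : DifferentiableAt ℝ (I.n R) x) :
    Tendsto (fun n => max (loneM A R n x) 0) atTop
      (𝓝 (mx (at2 (sf (X.psi R)) x) (loneB I R x))) := by
  have hc := A.sf_conv R hx
  have h1 : Tendsto (fun n => loneM A R n x) atTop
      (𝓝 (mx (at2 (sf (X.psi R)) x) (loneB I R x))) :=
    ((((hc 1 1).const_mul _).add ((hc 0 0).const_mul _)).sub ((hc 1 0).const_mul _)).sub
      ((hc 0 1).const_mul _)
  have h2 := h1.max (tendsto_const_nhds (x := (0 : ℝ)))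
  have h3 := lone_ge A hI R hx
  have h4 := X.dt_pos R x
  rwa [max_eq_left (by linarith)] at h2

theorem lone_bd (A : Appr I) (hI : Cvx I) (R : Rot) {K : Set P} (hK : IsCompact K) :
    ∃ C : ℝ, 0 < C ∧ ∀ θ > 0, ∀ᶠ n in atTop, ∀ x ∈ K, - (C * θ) ≤ loneM A R n x ∧
      ab (at2 (sf (A.w R n)) x) ≤ C * (loneM A R n x + C * θ) := by
  obtain ⟨C, hC, h⟩ := ab_le_mx hK (A := sf (X.psi R))
    (fun i j => ((X.imm_psi R).sm_sf i j).continuous) (fun x => (X.imm_psi R).sf_symm 0 1 x)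
    fun x a b h => X.qf_pos R x h
  exact ⟨C, hC, fun θ hθ => (A.lower hI R hK θ hθ).mono fun n hn x hx =>
    h x hx _ θ hθ.le ((A.imm_w R n).sf_symm 0 1 x) (hn x hx)⟩

theorem lone_sum (U : Pou X) (A : Appr I) (hI : Cvx I) :
    Tendsto (fun n => U.II fun a x => loneH I (U.R a) x * max (loneM A (U.R a) n x) 0) atTop
      (𝓝 (U.II fun a x => loneH I (U.R a) x * (2 * dt (at2 (sf (X.psi (U.R a))) x)))) := by
  have h1 : Tendsto (fun n => U.II fun a x => loneH I (U.R a) x * loneM A (U.R a) n x) atTop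
      (𝓝 (U.II fun a x => loneH I (U.R a) x * (2 * dt (at2 (sf (X.psi (U.R a))) x)))) := by
    have h := U.herg_lim A hI
    simp only [loneH, loneM, div_mul_eq_mul_div]
    exact h
  have c1 : ∀ n a, Continuous fun x => loneH I (U.R a) x * max (loneM A (U.R a) n x) 0 :=
    fun n a => (lone_H_cont I _).mul ((lone_M_cont A _ n).max continuous_const)
  have c2 : ∀ n a, Continuous fun x => loneH I (U.R a) x * loneM A (U.R a) n x :=
    fun n a => (lone_H_cont I _).mul (lone_M_cont A _ n)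
  have h2 := U.II_small (f := fun n a x => loneH I (U.R a) x * max (loneM A (U.R a) n x) 0 -
      loneH I (U.R a) x * loneM A (U.R a) n x) (g := fun _ _ _ => 1)
    (fun n a => (c1 n a).sub (c2 n a)) (fun _ _ => continuous_const)
    (Eventually.of_forall fun _ => le_rfl) fun θ hθ => eventually_all.2 fun a => by
      obtain ⟨C, hC, h⟩ := lone_bd A hI (U.R a) (isCompact_closedBall (0 : P) U.rho)
      obtain ⟨M, hM⟩ := (isCompact_closedBall (0 : P) U.rho).exists_bound_of_continuousOn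
        (lone_H_cont I (U.R a)).continuousOn
      have hM0 : 0 < |M| + 1 := by positivity
      refine (h (θ / (C * (|M| + 1))) (by positivity)).mono fun n hn x hx => ?_
      have g1 := (hn x hx).1
      have g2 : loneH I (U.R a) x ≤ |M| + 1 := by
        have := (le_abs_self _).trans (hM x hx)
        linarith [le_abs_self M]
      have g3 := lone_H_pos hI (U.R a) x
      have g4 : C * (θ / (C * (|M| + 1))) = θ / (|M| + 1) := by field_simp
      rw [g4] at g1
      have g5 : 0 ≤ max (loneM A (U.R a) n x) 0 - loneM A (U.R a) n x :=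
        sub_nonneg.2 (le_max_left _ _)
      have g6 : max (loneM A (U.R a) n x) 0 - loneM A (U.R a) n x ≤ θ / (|M| + 1) := by
        have : 0 < θ / (|M| + 1) := by positivity
        rcases le_total (loneM A (U.R a) n x) 0 with e | e
        · rw [max_eq_right e]
          linarith
        · rw [max_eq_left e]
          linarith
      rw [← mul_sub, abs_of_nonneg (mul_nonneg g3.le g5), mul_one]
      calc _ ≤ (|M| + 1) * (θ / (|M| + 1)) := mul_le_mul g2 g6 g5 hM0.le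
        _ = θ := by field_simp
  have h3 := h1.add h2
  rw [add_zero] at h3
  refine h3.congr fun n => ?_
  rw [U.II_sub (c1 n) (c2 n)]
  ring

theorem lone_ab_sub (B T : Fin 2 → Fin 2 → ℝ) : ab (fun i j => B i j - T i j) ≤ ab B + ab T := by
  have h1 := abs_sub (B 0 0) (T 0 0)
  have h2 := abs_sub (B 0 1) (T 0 1)
  have h3 := abs_sub (B 1 0) (T 1 0)
  have h4 := abs_sub (B 1 1) (T 1 1)
  simp only [ab]
  linarith

end aux

/-- the second fundamental forms converge in the mean -/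
theorem Pou.sf_L1 {X : Surf} {I : Iso X} (U : Pou X) (A : Appr I) (hI : Cvx I) (a : Fin U.k) :
    Tendsto (fun n => ∫ x, U.chi a (X.psi (U.R a) x) *
      ab (fun i j => sf (A.w (U.R a) n) i j x - sf (X.psi (U.R a)) i j x)) atTop (𝓝 0) := by
  have c1 : ∀ n b, Continuous fun x => loneH I (U.R b) x * max (loneM A (U.R b) n x) 0 :=
    fun n b => (lone_H_cont I _).mul ((lone_M_cont A _ n).max continuous_const)
  have c0 : ∀ b, Continuous fun x => loneH I (U.R b) x * (2 * dt (at2 (sf (X.psi (U.R b))) x)) :=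
    fun b => (lone_H_cont I _).mul (continuous_const.mul (lone_dt_cont X _))
  have p0 : ∀ b, ∀ᶠ n in atTop, ∀ᵐ x, 0 ≤ U.chi b (X.psi (U.R b) x) *
      (loneH I (U.R b) x * max (loneM A (U.R b) n x) 0) := fun b =>
    Eventually.of_forall fun n => Eventually.of_forall fun x =>
      mul_nonneg (U.nonneg _ _) (mul_nonneg (lone_H_pos hI _ x).le (le_max_right _ _))
  have pl : ∀ b, ∀ᵐ x, Tendsto (fun n => U.chi b (X.psi (U.R b) x) *
      (loneH I (U.R b) x * max (loneM A (U.R b) n x) 0)) atTop (𝓝 (U.chi b (X.psi (U.R b) x) *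
        (loneH I (U.R b) x * mx (at2 (sf (X.psi (U.R b))) x) (loneB I (U.R b) x)))) := fun b =>
    (hI.ae_diff (U.R b)).mono fun x hx => ((lone_lim A hI _ hx).const_mul _).const_mul _
  have pg : ∀ b, ∀ᵐ x, U.chi b (X.psi (U.R b) x) *
      (loneH I (U.R b) x * (2 * dt (at2 (sf (X.psi (U.R b))) x))) ≤ U.chi b (X.psi (U.R b) x) *
        (loneH I (U.R b) x * mx (at2 (sf (X.psi (U.R b))) x) (loneB I (U.R b) x)) := fun b =>
    (hI.ae_diff (U.R b)).mono fun x hx => mul_le_mul_of_nonneg_left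
      (mul_le_mul_of_nonneg_left (lone_ge A hI _ hx) (lone_H_pos hI _ x).le) (U.nonneg _ _)
  have hu := tendsto_of_sum (fun b => fatou_ge (fun n => U.integrable b (c1 n b)) (p0 b) (pl b)
    (pg b) (U.integrable b (c0 b))) (lone_sum U A hI) a
  have he := fatou_eq (fun n => U.integrable a (c1 n a)) (p0 a) (pl a) (pg a)
    (U.integrable a (c0 a)) hu
  obtain ⟨C, hC, hb⟩ := lone_bd A hI (U.R a) (isCompact_closedBall (0 : P) U.rho)
  have s0 := fun i j => ((X.imm_psi (U.R a)).sm_sf i j).continuous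
  have sn := fun n i j => ((A.imm_w (U.R a) n).sm_sf i j).continuous
  obtain ⟨M1, hM1⟩ := (isCompact_closedBall (0 : P) U.rho).exists_bound_of_continuousOn
    (lone_ab_cont s0).continuousOn
  obtain ⟨M2, hM2⟩ := (isCompact_closedBall (0 : P) U.rho).exists_bound_of_continuousOn
    ((lone_H_cont I (U.R a)).inv₀ fun x => (lone_H_pos hI _ x).ne').continuousOn
  have e1 : ∀ {f : P → ℝ}, Continuous f → ∫ x, U.chi a (X.psi (U.R a) x) *
      (C * M2 * f x + (C * C + M1)) = C * M2 * (∫ x, U.chi a (X.psi (U.R a) x) * f x) +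
        ∫ x, U.chi a (X.psi (U.R a) x) * (C * C + M1) := fun {f} hf => by
    rw [← integral_const_mul, ← integral_add ((U.integrable a hf).const_mul _)
      (U.integrable a continuous_const)]
    congr 1
    funext x
    ring
  refine fatou_dom (f := fun n x => U.chi a (X.psi (U.R a) x) *
      (C * M2 * (loneH I (U.R a) x * max (loneM A (U.R a) n x) 0) + (C * C + M1)))
    (g := fun x => U.chi a (X.psi (U.R a) x) *
      (C * M2 * (loneH I (U.R a) x * (2 * dt (at2 (sf (X.psi (U.R a))) x))) + (C * C + M1)))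
    (fun n => U.integrable a ((continuous_const.mul (c1 n a)).add continuous_const))
    (fun n => U.integrable a (lone_ab_cont fun i j => (sn n i j).sub (s0 i j))) ?_ ?_
    (U.integrable a ((continuous_const.mul (c0 a)).add continuous_const)) ?_ ?_
  · refine (hb 1 one_pos).mono fun n hn => Eventually.of_forall fun x => ⟨mul_nonneg (U.nonneg _ _)
      (by simp only [ab]; positivity), ?_⟩
    by_cases hx : x ∈ closedBall (0 : P) U.rho
    · refine mul_le_mul_of_nonneg_left ?_ (U.nonneg _ _)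
      have g1 := (hn x hx).2
      have g2 := lone_ab_sub (at2 (sf (A.w (U.R a) n)) x) (at2 (sf (X.psi (U.R a))) x)
      have g3 : ab (at2 (sf (X.psi (U.R a))) x) ≤ M1 := (le_abs_self _).trans (hM1 x hx)
      have g4 : (loneH I (U.R a) x)⁻¹ ≤ M2 := (le_abs_self _).trans (hM2 x hx)
      have g5 := lone_H_pos hI (U.R a) x
      have g6 : 1 ≤ M2 * loneH I (U.R a) x := by
        have := mul_le_mul_of_nonneg_right g4 g5.le
        rwa [inv_mul_cancel₀ g5.ne'] at this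
      have g7 := mul_le_mul_of_nonneg_right g6 (le_max_right (loneM A (U.R a) n x) 0)
      have g8 := le_max_left (loneM A (U.R a) n x) 0
      have g9 := mul_le_mul_of_nonneg_left (g8.trans ((one_mul _).symm.le.trans g7)) hC.le
      refine g2.trans ?_
      linarith
    · rw [U.eq_zero a hx, zero_mul, zero_mul]
  · filter_upwards [pl a, he] with x h1 h2
    rw [h2] at h1
    have h3 := (h1.const_mul (C * M2)).add_const (U.chi a (X.psi (U.R a) x) * (C * C + M1))
    refine (h3.congr fun n => ?_).trans_eq (congrArg 𝓝 ?_) <;> ring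
  · rw [e1 (c0 a)]
    exact ((hu.const_mul (C * M2)).add_const _).congr fun n => (e1 (c1 n a)).symm
  · filter_upwards [hI.ae_diff (U.R a), he] with x hx h2
    by_cases h0 : U.chi a (X.psi (U.R a) x) = 0
    · simp only [h0, zero_mul]
      exact tendsto_const_nhds
    · have h3 := mul_left_cancel₀ (lone_H_pos hI (U.R a) x).ne' (mul_left_cancel₀ h0 h2)
      obtain ⟨q1, q2, q3⟩ := lone_pt A hI (U.R a) hx
      have h4 := eq_of_mx ((X.imm_psi (U.R a)).sf_symm 0 1 x) q1 (fun a' b h => X.qf_pos _ x h)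
        q2 q3 h3
      have h5 : ∀ i j, Tendsto (fun n => |sf (A.w (U.R a) n) i j x - sf (X.psi (U.R a)) i j x|)
          atTop (𝓝 0) := fun i j => by
        have h6 := ((A.sf_conv (U.R a) hx i j).sub_const (sf (X.psi (U.R a)) i j x)).abs
        have h7 : ⟪pd i (I.n (U.R a)) x, pd j (I.w (U.R a)) x⟫ = sf (X.psi (U.R a)) i j x :=
          congrFun (congrFun h4 i) j
        rwa [h7, sub_self, abs_zero] at h6
      have h8 := ((((h5 0 0).add (h5 0 1)).add (h5 1 0)).add (h5 1 1)).const_mul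
        (U.chi a (X.psi (U.R a) x))
      simp only [add_zero, mul_zero] at h8
      exact h8

end Pool.Agent.Bor
end
end

-- part Pool.Agent.P.MP_26ecb7_gt.Mol0
section

noncomputable section
open Set Filter Topology MeasureTheory Metric
open scoped RealInnerProductSpace ContDiff ENNReal

namespace Pool.Agent.Bor

variable {Y : Type} [NormedAddCommGroup Y] [NormedSpace ℝ Y] [CompleteSpace Y] {ε : ℝ}

theorem mol0_nonneg (u : E) : 0 ≤ eta u := bump.nonneg_normed u
theorem mol0_integral : ∫ u, eta u = 1 := bump.integral_normed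
theorem mol0_smooth : ContDiff ℝ ∞ eta := bump.contDiff_normed
theorem mol0_cont : Continuous eta := bump.continuous_normed
theorem mol0_cs : HasCompactSupport eta := bump.hasCompactSupport_normed
theorem mol0_integrable : Integrable eta := bump.integrable_normed
theorem mol0_norm_lt {u : E} (h : eta u ≠ 0) : ‖u‖ < 1 := by
  have h1 : u ∈ Function.support (bump.normed (volume : Measure E)) := h
  rw [bump.support_normed_eq] at h1
  simpa [bump] using h1

omit [CompleteSpace Y] in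
theorem mol0_int {H : E → Y} (hH : Continuous H) (ε : ℝ) (x : E) :
    Integrable (fun u => eta u • H (x - ε • u)) := by
  refine Continuous.integrable_of_hasCompactSupport (mol0_cont.smul (by fun_prop)) ?_
  exact mol0_cs.smul_right

theorem mol0_smul_le (hε : 0 < ε) {u : E} (h : eta u ≠ 0) : ‖ε • u‖ ≤ ε := by
  rw [norm_smul, Real.norm_of_nonneg hε.le]
  exact mul_le_of_le_one_right hε.le (mol0_norm_lt h).le

theorem mol0_mem (hε : 0 < ε) (x : E) {u : E} (h : eta u ≠ 0) : x - ε • u ∈ closedBall x ε := by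
  rw [mem_closedBall, dist_eq_norm, sub_sub_cancel_left, norm_neg]
  exact mol0_smul_le hε h

omit [CompleteSpace Y] in
theorem mol0_norm_le {F : E → Y} {k : ℝ} (h : ∀ u, eta u ≠ 0 → ‖F u‖ ≤ k) :
    ‖∫ u, eta u • F u‖ ≤ k := by
  have h1 : ∫ u, eta u * k = k := by rw [integral_mul_const, mol0_integral, one_mul]
  rw [← h1]
  refine norm_integral_le_of_norm_le (mol0_integrable.mul_const k) (ae_of_all _ fun u => ?_)
  rw [norm_smul, Real.norm_of_nonneg (mol0_nonneg u)]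
  by_cases hu : eta u = 0
  · simp [hu]
  · exact mul_le_mul_of_nonneg_left (h u hu) (mol0_nonneg u)

theorem mol_smooth (hε : 0 < ε) {H : E → Y} (hH : Continuous H) : ContDiff ℝ ∞ (mol ε H) := by
  have hs : ContDiff ℝ ∞ fun t : E => eta (ε⁻¹ • t) :=
    mol0_smooth.comp (contDiff_id.const_smul ε⁻¹)
  have hc : HasCompactSupport fun t : E => eta (ε⁻¹ • t) :=
    mol0_cs.comp_homeomorph (Homeomorph.smulOfNeZero ε⁻¹ (inv_ne_zero hε.ne'))
  have h1 := (hc.contDiff_convolution_left (ContinuousLinearMap.lsmul ℝ ℝ) (μ := volume) hs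
    hH.locallyIntegrable).const_smul |(ε ^ Module.finrank ℝ E)⁻¹|
  have h2 : mol ε H = fun x => |(ε ^ Module.finrank ℝ E)⁻¹| •
      convolution (fun t : E => eta (ε⁻¹ • t)) H (ContinuousLinearMap.lsmul ℝ ℝ) volume x := by
    funext x
    have := Measure.integral_comp_smul (volume : Measure E)
      (fun t => eta (ε⁻¹ • t) • H (x - t)) ε
    simp only [smul_smul, inv_mul_cancel₀ hε.ne', one_smul] at this
    exact this
  rw [h2]
  exact h1

theorem fderiv_mol (hε : 0 < ε) {H : E → Y} (hH : ContDiff ℝ 1 H) :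
    fderiv ℝ (mol ε H) = mol ε (fderiv ℝ H) := by
  funext x
  have hc : Continuous (fderiv ℝ H) := hH.continuous_fderiv (by simp)
  obtain ⟨M, hM⟩ := (isCompact_closedBall x (1 + ε)).exists_bound_of_continuousOn hc.continuousOn
  refine HasFDerivAt.fderiv ?_
  refine hasFDerivAt_integral_of_dominated_of_fderiv_le (s := ball x 1)
    (F := fun y u => eta u • H (y - ε • u)) (F' := fun y u => eta u • fderiv ℝ H (y - ε • u))
    (bound := fun u => eta u * M) (ball_mem_nhds x one_pos)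
    (Eventually.of_forall fun y => (mol0_int hH.continuous ε y).aestronglyMeasurable)
    (mol0_int hH.continuous ε x) (mol0_int hc ε x).aestronglyMeasurable
    (ae_of_all _ fun u y hy => ?_) (mol0_integrable.mul_const M) (ae_of_all _ fun u y _ => ?_)
  · rw [norm_smul, Real.norm_of_nonneg (mol0_nonneg u)]
    by_cases hu : eta u = 0
    · simp [hu]
    · refine mul_le_mul_of_nonneg_left (hM _ ?_) (mol0_nonneg u)
      have h1 := mem_closedBall.1 (mol0_mem hε y hu)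
      have h2 := mem_ball.1 hy
      rw [mem_closedBall]
      linarith [dist_triangle (y - ε • u) y x]
  · have h1 : HasFDerivAt H (fderiv ℝ H (y - ε • u)) (y - ε • u) :=
      (hH.differentiable (by simp) _).hasFDerivAt
    have h2 : HasFDerivAt (fun y : E => H (y - ε • u)) (fderiv ℝ H (y - ε • u)) y := by
      have h3 := h1.comp y ((hasFDerivAt_id y).sub_const (ε • u))
      rw [ContinuousLinearMap.comp_id] at h3
      exact h3
    exact h2.const_smul (eta u)

theorem mol_clm {Z : Type} [NormedAddCommGroup Z] [NormedSpace ℝ Z] [CompleteSpace Z]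
    (A : Y →L[ℝ] Z) {H : E → Y} (hH : Continuous H) (x : E) :
    A (mol ε H x) = mol ε (fun z => A (H z)) x := by
  unfold mol
  rw [← A.integral_comp_comm (mol0_int hH ε x)]
  simp only [map_smul]

theorem mol_congr (hε : 0 < ε) {H G : E → Y} {x : E} (h : ∀ z ∈ closedBall x ε, H z = G z) :
    mol ε H x = mol ε G x := by
  unfold mol
  refine integral_congr_ae (ae_of_all _ fun u => ?_)
  by_cases hu : eta u = 0
  · simp [hu]
  · simp only [h _ (mol0_mem hε x hu)]

theorem mol_const (y : Y) (x : E) : mol ε (fun _ => y) x = y := by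
  unfold mol
  rw [integral_smul_const, mol0_integral, one_smul]

theorem mol_add {H G : E → Y} (hH : Continuous H) (hG : Continuous G) (x : E) :
    mol ε (fun z => H z + G z) x = mol ε H x + mol ε G x := by
  unfold mol
  rw [← integral_add (mol0_int hH ε x) (mol0_int hG ε x)]
  simp only [smul_add]

theorem mol_sub {H G : E → Y} (hH : Continuous H) (hG : Continuous G) (x : E) :
    mol ε (fun z => H z - G z) x = mol ε H x - mol ε G x := by
  unfold mol
  rw [← integral_sub (mol0_int hH ε x) (mol0_int hG ε x)]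
  simp only [smul_sub]

theorem mol_shift (H : E → Y) (x b : E) : mol ε H (x + b) = mol ε (fun z => H (z + b)) x := by
  unfold mol
  simp only [add_sub_right_comm]

theorem mol_le (hε : 0 < ε) {H : E → ℝ} (hH : Continuous H) {x : E} {k : ℝ}
    (h : ∀ z ∈ closedBall x ε, H z ≤ k) : mol ε H x ≤ k := by
  have h1 : ∫ u, eta u * k = k := by rw [integral_mul_const, mol0_integral, one_mul]
  rw [← h1]
  refine integral_mono (mol0_int hH ε x) (mol0_integrable.mul_const k) fun u => ?_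
  by_cases hu : eta u = 0
  · simp [hu]
  · exact mul_le_mul_of_nonneg_left (h _ (mol0_mem hε x hu)) (mol0_nonneg u)

theorem norm_mol_sub (hε : 0 < ε) {H : E → Y} (hH : Continuous H) {x : E} {y : Y} {k : ℝ}
    (h : ∀ z ∈ closedBall x ε, ‖H z - y‖ ≤ k) : ‖mol ε H x - y‖ ≤ k := by
  have h1 := mol_sub (ε := ε) hH (continuous_const (y := y)) x
  rw [mol_const] at h1
  rw [← h1]
  exact mol0_norm_le fun u hu => h _ (mol0_mem hε x hu)

theorem norm_mol_sub_mol (hε : 0 < ε) {H : E → Y} (hH : Continuous H) {x x' : E} {k : ℝ}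
    (h : ∀ u : E, ‖u‖ ≤ ε → ‖H (x - u) - H (x' - u)‖ ≤ k) : ‖mol ε H x - mol ε H x'‖ ≤ k := by
  unfold mol
  rw [← integral_sub (mol0_int hH ε x) (mol0_int hH ε x')]
  simp only [← smul_sub]
  exact mol0_norm_le fun u hu => h _ (mol0_smul_le hε hu)

end Pool.Agent.Bor
end
end

-- part Pool.Agent.P.MP_26ecb7_gt.Mol
section

noncomputable section
open Set Filter Topology MeasureTheory Metric
open scoped RealInnerProductSpace ContDiff ENNReal

namespace Pool.Agent.Bor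

variable {Y : Type} [NormedAddCommGroup Y] [NormedSpace ℝ Y] [CompleteSpace Y]

theorem mol_eta_c1 : ContDiff ℝ 1 eta := bump.contDiff_normed (n := 1)

theorem mol_eta_cs : HasCompactSupport eta := bump.hasCompactSupport_normed

theorem mol_eta_int : Integrable (fun u => ‖fderiv ℝ eta u‖) volume :=
  ((mol_eta_c1.continuous_fderiv one_ne_zero).integrable_of_hasCompactSupport
    (mol_eta_cs.fderiv ℝ)).norm

theorem mol_eta_zero {u : E} (hu : 1 < ‖u‖) : fderiv ℝ eta u = 0 := by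
  refine fderiv_of_notMem_tsupport ℝ fun h => ?_
  rw [eta, bump.tsupport_normed_eq, mem_closedBall_zero_iff] at h
  exact hu.not_ge h

omit [CompleteSpace Y] in
theorem mol_one_bound {G : E → Y} (hG : Continuous G) {x : E} {k : ℝ}
    (h : ∀ z ∈ closedBall x 1, ‖G z‖ ≤ k) :
    ‖fderiv ℝ (mol 1 G) x‖ ≤ (∫ u, ‖fderiv ℝ eta u‖) * k := by
  have h1 : mol 1 G = convolution eta G (ContinuousLinearMap.lsmul ℝ ℝ) volume := by
    funext z
    simp only [mol, one_smul]
    rfl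
  rw [h1, (mol_eta_cs.hasFDerivAt_convolution_left (ContinuousLinearMap.lsmul ℝ ℝ) mol_eta_c1
    hG.locallyIntegrable x).fderiv, convolution_def, ← integral_mul_const]
  refine norm_integral_le_of_norm_le (mol_eta_int.mul_const k) (Eventually.of_forall fun u => ?_)
  have hk : 0 ≤ k := (norm_nonneg _).trans (h x (mem_closedBall_self zero_le_one))
  rcases lt_or_ge 1 ‖u‖ with hu | hu
  · rw [mol_eta_zero hu]
    simp
  · refine ContinuousLinearMap.opNorm_le_bound _ (by positivity) fun b => ?_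
    rw [ContinuousLinearMap.precompL_apply, ContinuousLinearMap.lsmul_apply, norm_smul]
    have h2 : ‖G (x - u)‖ ≤ k := h _ (by simpa [mem_closedBall_iff_norm] using hu)
    calc ‖fderiv ℝ eta u b‖ * ‖G (x - u)‖ ≤ ‖fderiv ℝ eta u‖ * ‖b‖ * k :=
          mul_le_mul ((fderiv ℝ eta u).le_opNorm b) h2 (norm_nonneg _) (by positivity)
      _ = _ := by ring

omit [CompleteSpace Y] in
theorem mol_eps_bound {ε : ℝ} (hε : 0 < ε) {G : E → Y} (hG : Continuous G) {x : E} {k : ℝ}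
    (h : ∀ z ∈ closedBall x ε, ‖G z‖ ≤ k) :
    ‖fderiv ℝ (mol ε G) x‖ ≤ (∫ u, ‖fderiv ℝ eta u‖) * k / ε := by
  have h1 : mol ε G = fun z => mol 1 (fun w => G (ε • w)) (ε⁻¹ • z) := by
    funext z
    simp only [mol, one_smul, smul_sub, smul_inv_smul₀ hε.ne']
  have h2 := mol_one_bound (G := fun w => G (ε • w)) (hG.comp (continuous_const_smul ε))
    (x := ε⁻¹ • x) (k := k) fun z hz => h _ (by
      rw [mem_closedBall_iff_norm] at hz ⊢
      have h3 : ε • z - x = ε • (z - ε⁻¹ • x) := by rw [smul_sub, smul_inv_smul₀ hε.ne']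
      rw [h3, norm_smul, Real.norm_of_nonneg hε.le]
      exact mul_le_of_le_one_right hε.le hz)
  rw [h1, fderiv_comp_smul, norm_smul, Real.norm_of_nonneg (inv_nonneg.2 hε.le), div_eq_inv_mul]
  exact mul_le_mul_of_nonneg_left h2 (inv_nonneg.2 hε.le)

/-- gradient bound -/
theorem exists_grad_bound : ∃ c : ℝ, 0 ≤ c ∧ ∀ (Y : Type) [NormedAddCommGroup Y] [NormedSpace ℝ Y]
    [CompleteSpace Y] (ε : ℝ) (H : E → Y) (x : E) (y : Y) (k : ℝ), 0 < ε → Continuous H →
    (∀ z ∈ closedBall x ε, ‖H z - y‖ ≤ k) → ‖fderiv ℝ (mol ε H) x‖ ≤ c * k / ε := by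
  refine ⟨∫ u, ‖fderiv ℝ eta u‖, integral_nonneg fun _ => norm_nonneg _,
    fun Y _ _ _ ε H x y k hε hH h => ?_⟩
  have h1 : mol ε (fun z => H z - y) = fun z => mol ε H z - y := by
    funext z
    rw [mol_sub hH continuous_const, mol_const]
  have h2 := mol_eps_bound hε (G := fun z => H z - y) (hH.sub continuous_const) h
  rwa [h1, fderiv_sub_const] at h2

theorem tendsto_fderiv_mol {H : E → Y} (hH : Continuous H) {x : E} {L : E →L[ℝ] Y}
    (h : HasFDerivAt H L x) :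
    Tendsto (fun ε => fderiv ℝ (mol ε H) x) (𝓝[>] 0) (𝓝 L) := by
  obtain ⟨c, hc, hb⟩ := exists_grad_bound
  have hA : ContDiff ℝ 1 fun z : E => L (z - x) := L.contDiff.comp (contDiff_id.sub contDiff_const)
  have hA' : fderiv ℝ (fun z : E => L (z - x)) = fun _ => L := by
    funext z
    have h1 : HasFDerivAt (fun z : E => L (z - x)) (L.comp (ContinuousLinearMap.id ℝ E)) z :=
      L.hasFDerivAt.comp z ((hasFDerivAt_id z).sub_const x)
    rw [h1.fderiv, ContinuousLinearMap.comp_id]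
  have hG : Continuous fun z => H z - L (z - x) := hH.sub hA.continuous
  have key : ∀ ε, 0 < ε →
      fderiv ℝ (mol ε H) x - L = fderiv ℝ (mol ε fun z => H z - L (z - x)) x := by
    intro ε hε
    have h1 : (mol ε fun z => H z - L (z - x)) = mol ε H - mol ε fun z => L (z - x) := by
      funext z
      exact mol_sub hH hA.continuous z
    rw [h1, fderiv_sub ((mol_smooth hε hH).differentiable (by simp) x)
      ((mol_smooth hε hA.continuous).differentiable (by simp) x), fderiv_mol hε hA, hA', mol_const]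
  rw [Metric.tendsto_nhds]
  intro θ hθ
  have hη : 0 < θ / (c + 1) := by positivity
  obtain ⟨δ, hδ, hd⟩ := Metric.eventually_nhds_iff.1 (h.isLittleO.def hη)
  filter_upwards [Ioo_mem_nhdsGT hδ] with ε hε
  rw [dist_eq_norm, key ε hε.1]
  refine (hb Y ε _ x (H x) (θ / (c + 1) * ε) hε.1 hG fun z hz => ?_).trans_lt ?_
  · have h2 := hd (lt_of_le_of_lt (mem_closedBall.1 hz) hε.2)
    rw [sub_right_comm]
    exact h2.trans (mul_le_mul_of_nonneg_left (mem_closedBall_iff_norm.1 hz) hη.le)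
  · rw [← mul_assoc, mul_div_cancel_right₀ _ hε.1.ne', ← mul_div_assoc,
      div_lt_iff₀ (by positivity)]
    nlinarith

end Pool.Agent.Bor
end
end

-- part Pool.Agent.P.MP_26ecb7_gt.Comm0
section

noncomputable section
open Set Filter Topology MeasureTheory Metric
open scoped RealInnerProductSpace ContDiff ENNReal

namespace Pool.Agent.Bor

theorem comm0_split (ε : ℝ) {f g : E → E} (hf : Continuous f) (hg : Continuous g) (a b : E) :
    mol ε (fun z => ⟪f z, g z⟫) = fun y => mol ε (fun z => ⟪f z - a, g z - b⟫) y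
      + ⟪a, mol ε g y⟫ + ⟪b, mol ε f y⟫ - ⟪a, b⟫ := by
  funext y
  have h1 : ⟪a, mol ε g y⟫ = mol ε (fun z => ⟪a, g z⟫) y := mol_clm (innerSL ℝ a) hg y
  have h2 : ⟪b, mol ε f y⟫ = mol ε (fun z => ⟪b, f z⟫) y := mol_clm (innerSL ℝ b) hf y
  have c0 : Continuous fun z => ⟪f z - a, g z - b⟫ :=
    (hf.sub continuous_const).inner (hg.sub continuous_const)
  have c1 : Continuous fun z => ⟪a, g z⟫ := continuous_const.inner hg
  have c2 : Continuous fun z => ⟪b, f z⟫ := continuous_const.inner hf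
  have c3 : Continuous fun z => ⟪f z - a, g z - b⟫ + ⟪a, g z⟫ := c0.add c1
  have c4 : Continuous fun z => ⟪f z - a, g z - b⟫ + ⟪a, g z⟫ + ⟪b, f z⟫ := c3.add c2
  rw [h1, h2, ← mol_add c0 c1, ← mol_add c3 c2, ← mol_const (ε := ε) ⟪a, b⟫ y,
    ← mol_sub c4 continuous_const]
  congr 1
  funext z
  rw [inner_sub_left, inner_sub_right, inner_sub_right, real_inner_comm b (f z)]
  ring

/-- commutator estimate for the derivative of a product -/
theorem exists_comm : ∃ c : ℝ, 0 ≤ c ∧ ∀ (ε : ℝ) (f g : E → E) (x : E) (k l : ℝ), 0 < ε →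
    Continuous f → Continuous g → (∀ z ∈ closedBall x ε, ‖f z - f x‖ ≤ k) →
    (∀ z ∈ closedBall x ε, ‖g z - g x‖ ≤ l) →
    ‖fderiv ℝ (fun z => ⟪mol ε f z, mol ε g z⟫) x - fderiv ℝ (mol ε (fun z => ⟪f z, g z⟫)) x‖
      ≤ c * k * l / ε := by
  obtain ⟨c, hc, hb⟩ := exists_grad_bound
  refine ⟨3 * c, by positivity, fun ε f g x k l hε hf hg hk hl => ?_⟩
  have hk0 : 0 ≤ k := (norm_nonneg _).trans (hk x (mem_closedBall_self hε.le))
  have hl0 : 0 ≤ l := (norm_nonneg _).trans (hl x (mem_closedBall_self hε.le))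
  have c0 : Continuous fun z => ⟪f z - f x, g z - g x⟫ :=
    (hf.sub continuous_const).inner (hg.sub continuous_const)
  have dF : DifferentiableAt ℝ (mol ε f) x := (mol_smooth hε hf).differentiable (by simp) x
  have dG : DifferentiableAt ℝ (mol ε g) x := (mol_smooth hε hg).differentiable (by simp) x
  have dH : DifferentiableAt ℝ (mol ε fun z => ⟪f z - f x, g z - g x⟫) x :=
    (mol_smooth hε c0).differentiable (by simp) x
  have bF := hb E ε f x (f x) k hε hf hk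
  have bG := hb E ε g x (g x) l hε hg hl
  have bH := hb ℝ ε _ x 0 (k * l) hε c0 fun z hz => by
    rw [sub_zero]
    exact (norm_inner_le_norm _ _).trans (mul_le_mul (hk z hz) (hl z hz) (norm_nonneg _) hk0)
  have nF := norm_mol_sub hε hf hk
  have nG := norm_mol_sub hε hg hl
  have d1 : HasFDerivAt (fun y => ⟪f x, mol ε g y⟫)
      ((innerSL ℝ (f x)).comp (fderiv ℝ (mol ε g) x)) x :=
    (innerSL ℝ (f x)).hasFDerivAt.comp x dG.hasFDerivAt
  have d2 : HasFDerivAt (fun y => ⟪g x, mol ε f y⟫)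
      ((innerSL ℝ (g x)).comp (fderiv ℝ (mol ε f) x)) x :=
    (innerSL ℝ (g x)).hasFDerivAt.comp x dF.hasFDerivAt
  have d3 := (((dH.hasFDerivAt.add d1).add d2).sub_const ⟪f x, g x⟫).fderiv
  have e3 : fderiv ℝ (mol ε (fun z => ⟪f z, g z⟫)) x =
      fderiv ℝ (mol ε fun z => ⟪f z - f x, g z - g x⟫) x
        + (innerSL ℝ (f x)).comp (fderiv ℝ (mol ε g) x)
        + (innerSL ℝ (g x)).comp (fderiv ℝ (mol ε f) x) := by
    rw [comm0_split ε hf hg (f x) (g x)]
    exact d3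
  refine ContinuousLinearMap.opNorm_le_bound _ (by positivity) fun a => ?_
  have e4 : (fderiv ℝ (fun z => ⟪mol ε f z, mol ε g z⟫) x
      - fderiv ℝ (mol ε (fun z => ⟪f z, g z⟫)) x) a =
      ⟪mol ε f x - f x, fderiv ℝ (mol ε g) x a⟫ + ⟪mol ε g x - g x, fderiv ℝ (mol ε f) x a⟫
        - fderiv ℝ (mol ε fun z => ⟪f z - f x, g z - g x⟫) x a := by
    rw [sub_apply, fderiv_inner_apply ℝ dF dG, e3]
    simp only [add_apply, ContinuousLinearMap.comp_apply, innerSL_apply_apply,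
      inner_sub_left]
    rw [real_inner_comm (mol ε g x) (fderiv ℝ (mol ε f) x a)]
    ring
  have a0 := norm_nonneg a
  have t1 : ‖⟪mol ε f x - f x, fderiv ℝ (mol ε g) x a⟫‖ ≤ k * (c * l / ε * ‖a‖) :=
    (norm_inner_le_norm _ _).trans (mul_le_mul nF
      ((ContinuousLinearMap.le_opNorm _ _).trans (mul_le_mul_of_nonneg_right bG a0))
      (norm_nonneg _) hk0)
  have t2 : ‖⟪mol ε g x - g x, fderiv ℝ (mol ε f) x a⟫‖ ≤ l * (c * k / ε * ‖a‖) :=
    (norm_inner_le_norm _ _).trans (mul_le_mul nG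
      ((ContinuousLinearMap.le_opNorm _ _).trans (mul_le_mul_of_nonneg_right bF a0))
      (norm_nonneg _) hl0)
  have t3 : ‖fderiv ℝ (mol ε fun z => ⟪f z - f x, g z - g x⟫) x a‖ ≤ c * (k * l) / ε * ‖a‖ :=
    (ContinuousLinearMap.le_opNorm _ _).trans (mul_le_mul_of_nonneg_right bH a0)
  rw [e4]
  refine ((norm_sub_le _ _).trans (add_le_add ((norm_add_le _ _).trans (add_le_add t1 t2))
    t3)).trans (le_of_eq ?_)
  ring

theorem comm0_two : (2 : WithTop ℕ∞) ≤ ((⊤ : ℕ∞) : WithTop ℕ∞) := by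
  have h : ((2 : ℕ∞) : WithTop ℕ∞) ≤ ((⊤ : ℕ∞) : WithTop ℕ∞) := WithTop.coe_le_coe.2 le_top
  exact h

theorem comm0_d {W : E → E} {z : E} (hW : ContDiffAt ℝ ∞ W z) (a b c : E) :
    fderiv ℝ (fun y => ⟪fderiv ℝ W y b, fderiv ℝ W y c⟫) z a = chr W z a c b + chr W z a b c := by
  have h1 : DifferentiableAt ℝ (fderiv ℝ W) z :=
    (hW.fderiv_right (m := 1) comm0_two).differentiableAt (by simp)
  have h2 : ∀ v : E, HasFDerivAt (fun y => fderiv ℝ W y v)
      ((ContinuousLinearMap.apply ℝ E v).comp (fderiv ℝ (fderiv ℝ W) z)) z := fun v =>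
    (ContinuousLinearMap.apply ℝ E v).hasFDerivAt.comp z h1.hasFDerivAt
  rw [fderiv_inner_apply ℝ (h2 b).differentiableAt (h2 c).differentiableAt, (h2 b).fderiv,
    (h2 c).fderiv, real_inner_comm]
  rfl

theorem comm0_symm {W : E → E} {z : E} (hW : ContDiffAt ℝ ∞ W z) (a b c : E) :
    chr W z a b c = chr W z b a c := by
  have h : IsSymmSndFDerivAt ℝ W z :=
    hW.isSymmSndFDerivAt (by rw [minSmoothness_of_isRCLikeNormedField]; exact comm0_two)
  rw [chr, chr, h a b]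

/-- Koszul formula -/
theorem chr_eq {W : E → E} {z : E} (hW : ContDiffAt ℝ ∞ W z) (a b c : E) :
    2 * chr W z a b c = fderiv ℝ (fun y => ⟪fderiv ℝ W y b, fderiv ℝ W y c⟫) z a
      + fderiv ℝ (fun y => ⟪fderiv ℝ W y a, fderiv ℝ W y c⟫) z b
      - fderiv ℝ (fun y => ⟪fderiv ℝ W y a, fderiv ℝ W y b⟫) z c := by
  rw [comm0_d hW, comm0_d hW, comm0_d hW, comm0_symm hW b a c, comm0_symm hW c b a,
    comm0_symm hW c a b]
  ring


end Pool.Agent.Bor
end
end

-- part Pool.Agent.P.MP_26ecb7_gt.Comm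
section

noncomputable section
open Set Filter Topology MeasureTheory Metric
open scoped RealInnerProductSpace ContDiff ENNReal

namespace Pool.Agent.Bor

/-- uniform convergence of the derivative of the mollification on a compact set -/
theorem comm_unif {F : Type} [NormedAddCommGroup F] [NormedSpace ℝ F] [CompleteSpace F]
    {Γ : E → F} {G K : Set E} {t : ℝ} (ht : 0 < t) (hK : IsCompact K)
    (hKG : cthickening t K ⊆ G) (hc : Continuous Γ) (hs : ∀ z ∈ G, ContDiffAt ℝ 1 Γ z) :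
    ∀ θ > 0, ∀ᶠ ε in 𝓝[>] (0 : ℝ), ∀ z ∈ K, ‖fderiv ℝ (mol ε Γ) z - fderiv ℝ Γ z‖ ≤ θ := by
  intro θ hθ
  obtain ⟨c, hc0, hcb⟩ := exists_grad_bound
  have hK' : IsCompact (cthickening t K) := hK.cthickening
  have hcont : ContinuousOn (fderiv ℝ Γ) (cthickening t K) := fun y hy =>
    ((hs y (hKG hy)).continuousAt_fderiv one_ne_zero).continuousWithinAt
  have huc := hK'.uniformContinuousOn_of_continuous hcont
  have hη : 0 < θ / (c + 1) := by positivity
  obtain ⟨δ, hδ, hδb⟩ := Metric.uniformContinuousOn_iff_le.1 huc (θ / (c + 1)) hη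
  have hev : ∀ᶠ ε in 𝓝[>] (0 : ℝ), ε ∈ Ioo (0 : ℝ) (min t δ) := Ioo_mem_nhdsGT (lt_min ht hδ)
  filter_upwards [hev] with ε hε z hz
  have hε0 : 0 < ε := hε.1
  have hεt : ε ≤ t := hε.2.le.trans (min_le_left _ _)
  have hεδ : ε ≤ δ := hε.2.le.trans (min_le_right _ _)
  have hball : closedBall z ε ⊆ cthickening t K :=
    (closedBall_subset_closedBall hεt).trans (closedBall_subset_cthickening hz t)
  set L : E →L[ℝ] F := fderiv ℝ Γ z with hL
  have hA : ∀ w ∈ closedBall z ε, ‖(Γ w - L w) - (Γ z - L z)‖ ≤ θ / (c + 1) * ε := by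
    intro w hw
    have h1 := (convex_closedBall z ε).norm_image_sub_le_of_norm_fderiv_le' (𝕜 := ℝ) (f := Γ)
      (φ := L) (C := θ / (c + 1))
      (fun y hy => (hs y (hKG (hball hy))).differentiableAt one_ne_zero)
      (fun y hy => by
        have := hδb y (hball hy) z (hball (mem_closedBall_self hε0.le))
          ((mem_closedBall.1 hy).trans hεδ)
        rwa [dist_eq_norm] at this)
      (mem_closedBall_self hε0.le) hw
    have h2 : (Γ w - L w) - (Γ z - L z) = Γ w - Γ z - L (w - z) := by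
      rw [map_sub]; abel
    rw [h2]
    refine h1.trans (mul_le_mul_of_nonneg_left ?_ hη.le)
    rw [← dist_eq_norm]; exact mem_closedBall.1 hw
  have hB := hcb F ε (fun w => Γ w - L w) z (Γ z - L z) (θ / (c + 1) * ε) hε0
    (hc.sub L.continuous) hA
  have hsub : mol ε (fun w => Γ w - L w) = fun x => mol ε Γ x - mol ε (fun w => L w) x := by
    funext x
    exact mol_sub hc L.continuous x
  have hd1 : DifferentiableAt ℝ (mol ε Γ) z :=
    ((mol_smooth hε0 hc).differentiable (by simp)).differentiableAt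
  have hd2 : DifferentiableAt ℝ (mol ε (fun w => L w)) z :=
    ((mol_smooth hε0 L.continuous).differentiable (by simp)).differentiableAt
  have hL2 : fderiv ℝ (mol ε (fun w => L w)) z = L := by
    have h3 : fderiv ℝ (fun w => L w) = fun _ => L := by
      funext w
      exact L.fderiv
    rw [fderiv_mol hε0 (H := fun w => L w) L.contDiff, h3, mol_const]
  rw [hsub, fderiv_fun_sub hd1 hd2, hL2] at hB
  refine hB.trans ?_
  have h4 : c * (θ / (c + 1) * ε) / ε = θ * (c / (c + 1)) := by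
    field_simp
  rw [h4]
  have h5 : c / (c + 1) ≤ 1 := by
    rw [div_le_one (by positivity)]; linarith
  nlinarith

/-- the metric coefficients -/
def comm_gam (V : E → E) (y : E) : Fin 3 × Fin 3 → ℝ :=
  fun p => ⟪fderiv ℝ V y (ee p.1), fderiv ℝ V y (ee p.2)⟫

/-- evaluation of an array as a bilinear form -/
def comm_ev (b c : E) : (Fin 3 × Fin 3 → ℝ) →L[ℝ] ℝ :=
  ∑ p : Fin 3 × Fin 3, (b p.1 * c p.2) • ContinuousLinearMap.proj (R := ℝ)
    (φ := fun _ : Fin 3 × Fin 3 => ℝ) p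

theorem comm_ev_apply (b c : E) (T : Fin 3 × Fin 3 → ℝ) :
    comm_ev b c T = ∑ p : Fin 3 × Fin 3, b p.1 * c p.2 * T p := by
  simp [comm_ev]

theorem comm_ev_le (b c : E) (T : Fin 3 × Fin 3 → ℝ) :
    |comm_ev b c T| ≤ 9 * ‖T‖ * ‖b‖ * ‖c‖ := by
  rw [comm_ev_apply]
  refine (Finset.abs_sum_le_sum_abs _ _).trans ?_
  have h : ∀ p ∈ (Finset.univ : Finset (Fin 3 × Fin 3)),
      |b p.1 * c p.2 * T p| ≤ ‖T‖ * ‖b‖ * ‖c‖ := by
    intro p _
    have h1 : |b p.1| ≤ ‖b‖ := by simpa using PiLp.norm_apply_le b p.1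
    have h2 : |c p.2| ≤ ‖c‖ := by simpa using PiLp.norm_apply_le c p.2
    have h3 : |T p| ≤ ‖T‖ := by simpa using norm_le_pi_norm T p
    rw [abs_mul, abs_mul]
    calc |b p.1| * |c p.2| * |T p| ≤ ‖b‖ * ‖c‖ * ‖T‖ := by gcongr
      _ = ‖T‖ * ‖b‖ * ‖c‖ := by ring
  refine (Finset.sum_le_card_nsmul _ _ _ h).trans (le_of_eq ?_)
  simp only [Finset.card_univ, Fintype.card_prod, Fintype.card_fin, nsmul_eq_mul]
  push_cast
  ring

theorem comm_exp (b : E) : b = b 0 • ee 0 + b 1 • ee 1 + b 2 • ee 2 := by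
  ext k
  fin_cases k <;> simp [ee]

theorem comm_gam_apply (V : E → E) (y b c : E) :
    comm_ev b c (comm_gam V y) = ⟪fderiv ℝ V y b, fderiv ℝ V y c⟫ := by
  rw [comm_ev_apply]
  conv_rhs => rw [comm_exp b, comm_exp c]
  simp only [comm_gam, Fintype.sum_prod_type, Fin.sum_univ_three, map_add, map_smul,
    inner_add_left, inner_add_right, real_inner_smul_left, real_inner_smul_right]
  ring

theorem comm_gam_cd {n : WithTop ℕ∞} {V : E → E} {z : E} (h : ContDiffAt ℝ n (fderiv ℝ V) z) :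
    ContDiffAt ℝ n (comm_gam V) z := by
  rw [contDiffAt_pi]
  intro p
  exact (h.clm_apply contDiffAt_const).inner ℝ (h.clm_apply contDiffAt_const)

theorem comm_fd_apply {Γ : E → Fin 3 × Fin 3 → ℝ} {z : E} (h : DifferentiableAt ℝ Γ z)
    (b c d : E) :
    fderiv ℝ (fun y => comm_ev b c (Γ y)) z d = comm_ev b c (fderiv ℝ Γ z d) := by
  have h1 := (comm_ev b c).hasFDerivAt.comp z h.hasFDerivAt
  have h2 : (fun y => comm_ev b c (Γ y)) = comm_ev b c ∘ Γ := rfl
  rw [h2, h1.fderiv]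
  rfl

theorem comm_key {V u : E → E} {G K : Set E} {t H a : ℝ} (ht : 0 < t) (hK : IsCompact K)
    (hG : IsOpen G) (hKG : cthickening t K ⊆ G) (ha : 1 / 2 < a) (hH : 0 ≤ H)
    (hV : ContDiff ℝ 1 V) (hu : ∀ z ∈ G, ContDiffAt ℝ ∞ u z)
    (hol : ∀ y ∈ G, ∀ z ∈ G, ‖fderiv ℝ V y - fderiv ℝ V z‖ ≤ H * ‖y - z‖ ^ a)
    (iso : ∀ z ∈ G, ∀ b c, ⟪fderiv ℝ V z b, fderiv ℝ V z c⟫ = ⟪fderiv ℝ u z b, fderiv ℝ u z c⟫) :
    ∀ θ > 0, ∀ᶠ ε in 𝓝[>] (0 : ℝ), ∀ z ∈ K, ∀ b c d,
      |fderiv ℝ (fun y => ⟪fderiv ℝ (mol ε V) y b, fderiv ℝ (mol ε V) y c⟫) z d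
        - fderiv ℝ (fun y => ⟪fderiv ℝ u y b, fderiv ℝ u y c⟫) z d| ≤ θ * ‖b‖ * ‖c‖ * ‖d‖ := by
  intro θ hθ
  obtain ⟨c0, hc0, hcb⟩ := exists_comm
  have hDV : Continuous (fderiv ℝ V) := hV.continuous_fderiv one_ne_zero
  have hΓc : Continuous (comm_gam V) := by
    rw [continuous_iff_continuousAt]
    intro z
    have h0 : ContDiffAt ℝ 0 (fderiv ℝ V) z := (contDiff_zero.2 hDV).contDiffAt
    exact (comm_gam_cd h0).continuousAt
  have hΓe : ∀ z ∈ G, comm_gam V =ᶠ[𝓝 z] comm_gam u := by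
    intro z hz
    filter_upwards [hG.mem_nhds hz] with y hy
    funext p
    exact iso y hy _ _
  have hΓs : ∀ z ∈ G, ContDiffAt ℝ 1 (comm_gam V) z := by
    intro z hz
    have h1 : ContDiffAt ℝ 1 (fderiv ℝ u) z := 
      ((hu z hz).fderiv_right (m := ∞) (by simp)).of_le (by exact_mod_cast le_top)
    exact (comm_gam_cd h1).congr_of_eventuallyEq (hΓe z hz)
  have hU := comm_unif ht hK hKG hΓc hΓs (θ / 18) (by positivity)
  have hpow : Tendsto (fun ε : ℝ => c0 * H ^ 2 * ε ^ (2 * a - 1)) (𝓝[>] 0) (𝓝 0) := by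
    have h1 : ContinuousAt (fun ε : ℝ => ε ^ (2 * a - 1)) 0 :=
      Real.continuousAt_rpow_const 0 (2 * a - 1) (Or.inr (by linarith))
    have h2 : Tendsto (fun ε : ℝ => ε ^ (2 * a - 1)) (𝓝[>] 0) (𝓝 0) := by
      have h3 := h1.tendsto.mono_left (nhdsWithin_le_nhds (s := Ioi (0 : ℝ)))
      rwa [Real.zero_rpow (by linarith)] at h3
    simpa using h2.const_mul (c0 * H ^ 2)
  have hsmall : ∀ᶠ ε in 𝓝[>] (0 : ℝ), c0 * H ^ 2 * ε ^ (2 * a - 1) < θ / 2 :=
    hpow.eventually (gt_mem_nhds (by positivity))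
  have hev : ∀ᶠ ε in 𝓝[>] (0 : ℝ), ε ∈ Ioo (0 : ℝ) t := Ioo_mem_nhdsGT ht
  filter_upwards [hU, hsmall, hev] with ε hε1 hε2 hε z hz b c d
  have hε0 : 0 < ε := hε.1
  have hball : closedBall z ε ⊆ G :=
    ((closedBall_subset_closedBall hε.2.le).trans (closedBall_subset_cthickening hz t)).trans hKG
  have hzG : z ∈ G := hball (mem_closedBall_self hε0.le)
  have hcf : ∀ b : E, Continuous (fun w => fderiv ℝ V w b) := fun b =>
    hDV.clm_apply continuous_const
  have hD : ∀ b y : E, fderiv ℝ (mol ε V) y b = mol ε (fun w => fderiv ℝ V w b) y := by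
    intro b y
    rw [fderiv_mol hε0 hV]
    exact mol_clm (ContinuousLinearMap.apply ℝ E b) hDV y
  have hbd : ∀ b : E, ∀ w ∈ closedBall z ε,
      ‖fderiv ℝ V w b - fderiv ℝ V z b‖ ≤ H * ε ^ a * ‖b‖ := by
    intro b w hw
    rw [← sub_apply]
    refine (ContinuousLinearMap.le_opNorm _ _).trans (mul_le_mul_of_nonneg_right ?_ (norm_nonneg _))
    refine (hol w (hball hw) z hzG).trans (mul_le_mul_of_nonneg_left ?_ hH)
    refine Real.rpow_le_rpow (norm_nonneg _) ?_ (by linarith)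
    rw [← dist_eq_norm]; exact mem_closedBall.1 hw
  have h1 := hcb ε (fun w => fderiv ℝ V w b) (fun w => fderiv ℝ V w c) z _ _ hε0 (hcf b) (hcf c)
    (hbd b) (hbd c)
  have h1' : c0 * (H * ε ^ a * ‖b‖) * (H * ε ^ a * ‖c‖) / ε
      = c0 * H ^ 2 * ε ^ (2 * a - 1) * ‖b‖ * ‖c‖ := by
    rw [Real.rpow_sub_one hε0.ne', two_mul, Real.rpow_add hε0]
    field_simp
  rw [h1'] at h1
  have h2 : mol ε (fun w => ⟪fderiv ℝ V w b, fderiv ℝ V w c⟫)
      = fun y => comm_ev b c (mol ε (comm_gam V) y) := by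
    funext y
    have h3 := mol_clm (ε := ε) (comm_ev b c) hΓc y
    simp only [comm_gam_apply] at h3
    exact h3.symm
  have hdm : DifferentiableAt ℝ (mol ε (comm_gam V)) z :=
    ((mol_smooth hε0 hΓc).differentiable (by simp)).differentiableAt
  have h4 : fderiv ℝ (mol ε (fun w => ⟪fderiv ℝ V w b, fderiv ℝ V w c⟫)) z d
      = comm_ev b c (fderiv ℝ (mol ε (comm_gam V)) z d) := by
    rw [h2]; exact comm_fd_apply hdm b c d
  have h5 : fderiv ℝ (fun y => ⟪fderiv ℝ u y b, fderiv ℝ u y c⟫) z d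
      = comm_ev b c (fderiv ℝ (comm_gam V) z d) := by
    rw [← comm_fd_apply ((hΓs z hzG).differentiableAt one_ne_zero) b c d]
    have h6 : (fun y => ⟪fderiv ℝ u y b, fderiv ℝ u y c⟫) 
        =ᶠ[𝓝 z] fun y => comm_ev b c (comm_gam V y) := by
      filter_upwards [hG.mem_nhds hzG] with y hy
      rw [comm_gam_apply, iso y hy]
    rw [h6.fderiv_eq]
  have h7 : (fun y => ⟪fderiv ℝ (mol ε V) y b, fderiv ℝ (mol ε V) y c⟫)
      = fun y => ⟪mol ε (fun w => fderiv ℝ V w b) y, mol ε (fun w => fderiv ℝ V w c) y⟫ := by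
    funext y
    rw [hD, hD]
  rw [h7, h5]
  set X := fderiv ℝ (fun y => ⟪mol ε (fun w => fderiv ℝ V w b) y,
    mol ε (fun w => fderiv ℝ V w c) y⟫) z with hX
  set Y := fderiv ℝ (mol ε (fun w => ⟪fderiv ℝ V w b, fderiv ℝ V w c⟫)) z with hY
  have h8 : |X d - Y d| ≤ θ / 2 * ‖b‖ * ‖c‖ * ‖d‖ := by
    rw [← sub_apply, ← Real.norm_eq_abs]
    refine (ContinuousLinearMap.le_opNorm _ _).trans (mul_le_mul_of_nonneg_right ?_ (norm_nonneg _))
    refine h1.trans ?_
    exact mul_le_mul_of_nonneg_right (mul_le_mul_of_nonneg_right hε2.le (norm_nonneg _))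
      (norm_nonneg _)
  have h9 : |Y d - comm_ev b c (fderiv ℝ (comm_gam V) z d)| ≤ θ / 2 * ‖b‖ * ‖c‖ * ‖d‖ := by
    rw [h4, ← map_sub, ← sub_apply]
    set T := fderiv ℝ (mol ε (comm_gam V)) z - fderiv ℝ (comm_gam V) z with hT
    have h12 : ‖T d‖ ≤ θ / 18 * ‖d‖ :=
      (T.le_opNorm d).trans (mul_le_mul_of_nonneg_right (hε1 z hz) (norm_nonneg _))
    calc |comm_ev b c (T d)| ≤ 9 * ‖T d‖ * ‖b‖ * ‖c‖ := comm_ev_le b c _
      _ ≤ 9 * (θ / 18 * ‖d‖) * ‖b‖ * ‖c‖ := by gcongr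
      _ = θ / 2 * ‖b‖ * ‖c‖ * ‖d‖ := by ring
  calc |X d - comm_ev b c (fderiv ℝ (comm_gam V) z d)|
      ≤ |X d - Y d| + |Y d - comm_ev b c (fderiv ℝ (comm_gam V) z d)| := abs_sub_le _ _ _
    _ ≤ θ / 2 * ‖b‖ * ‖c‖ * ‖d‖ + θ / 2 * ‖b‖ * ‖c‖ * ‖d‖ := add_le_add h8 h9
    _ = θ * ‖b‖ * ‖c‖ * ‖d‖ := by ring

/-- convergence of the Christoffel expressions: `V` is `C^1` with Hoelder derivative on an open set
`G` and has the same metric as the smooth map `u` there -/
theorem chr_conv {V u : E → E} {G K : Set E} {t H a : ℝ} (ht : 0 < t) (hK : IsCompact K)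
    (hG : IsOpen G) (hKG : cthickening t K ⊆ G) (ha : 1 / 2 < a) (hH : 0 ≤ H)
    (hV : ContDiff ℝ 1 V) (hu : ∀ z ∈ G, ContDiffAt ℝ ∞ u z)
    (hol : ∀ y ∈ G, ∀ z ∈ G, ‖fderiv ℝ V y - fderiv ℝ V z‖ ≤ H * ‖y - z‖ ^ a)
    (iso : ∀ z ∈ G, ∀ b c, ⟪fderiv ℝ V z b, fderiv ℝ V z c⟫ = ⟪fderiv ℝ u z b, fderiv ℝ u z c⟫) :
    ∀ θ > 0, ∀ᶠ ε in 𝓝[>] (0 : ℝ), ∀ z ∈ K, ∀ b c d,
      |chr (mol ε V) z b c d - chr u z b c d| ≤ θ * ‖b‖ * ‖c‖ * ‖d‖ := by
  intro θ hθ
  have hk := comm_key ht hK hG hKG ha hH hV hu hol iso (θ / 2) (by positivity)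
  filter_upwards [hk, self_mem_nhdsWithin] with ε hε hε0 z hz b c d
  have hε0' : 0 < ε := hε0
  have hzG : z ∈ G := hKG (self_subset_cthickening K hz)
  have e1 := chr_eq ((mol_smooth hε0' hV.continuous).contDiffAt (x := z)) b c d
  have e2 := chr_eq (hu z hzG) b c d
  have k1 := abs_le.1 (hε z hz c d b)
  have k2 := abs_le.1 (hε z hz b d c)
  have k3 := abs_le.1 (hε z hz b c d)
  have r1 : θ / 2 * ‖c‖ * ‖d‖ * ‖b‖ = θ / 2 * (‖b‖ * ‖c‖ * ‖d‖) := by ring
  have r2 : θ / 2 * ‖b‖ * ‖d‖ * ‖c‖ = θ / 2 * (‖b‖ * ‖c‖ * ‖d‖) := by ring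
  have r3 : θ / 2 * ‖b‖ * ‖c‖ * ‖d‖ = θ / 2 * (‖b‖ * ‖c‖ * ‖d‖) := by ring
  have r4 : θ * ‖b‖ * ‖c‖ * ‖d‖ = θ * (‖b‖ * ‖c‖ * ‖d‖) := by ring
  rw [r1] at k1
  rw [r2] at k2
  rw [r3] at k3
  rw [r4]
  have hp : 0 ≤ θ * (‖b‖ * ‖c‖ * ‖d‖) := by positivity
  rw [abs_le]
  constructor <;> linarith [k1.1, k1.2, k2.1, k2.2, k3.1, k3.2]

end Pool.Agent.Bor
end
end

-- part Pool.Agent.P.MP_26ecb7_gt.GoodL0
section

noncomputable section
open Set Filter Topology MeasureTheory Metric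
open scoped RealInnerProductSpace ContDiff ENNReal

namespace Pool.Agent.Bor

theorem goodL0_small {a η : ℝ} (ha : 1 / 2 < a) (hη : 0 < η) :
    ∃ s > 0, ∀ r, 0 < r → r < s → r * r ^ (2 * a) ≤ η * r ^ 2 := by
  have hb : 0 < 2 * a - 1 := by linarith
  refine ⟨η ^ (2 * a - 1)⁻¹, Real.rpow_pos_of_pos hη _, fun r hr hs => ?_⟩
  have h1 : r ^ (2 * a - 1) ≤ η := by
    have := Real.rpow_le_rpow hr.le hs.le hb.le
    rwa [Real.rpow_inv_rpow hη.le hb.ne'] at this
  have h2 : r ^ (2 * a) = r ^ (2 * a - 1) * r := by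
    rw [← Real.rpow_add_one hr.ne']; congr 1; ring
  rw [h2]
  nlinarith [mul_pos hr hr]

theorem goodL0_num {K M M0 O r η s u : ℝ} (hK : 0 ≤ K) (hO : 0 ≤ O) (hOη : O ≤ η)
    (hM : 0 ≤ M) (hM0 : M ≤ M0) (hr : 0 < r) (hrη : r ≤ η) (hu : 0 ≤ u)
    (h1 : O * M ^ 2 * u ≤ η * ((K + 1) * r) ^ 2) (h2 : r * u ≤ η * r ^ 2)
    (h3 : s ^ 2 * u ≤ 4 * r ^ 2) :
    K * (O + 2 * r) * (K * (M * (K + 1) + s)) ^ 2 * u ≤
      η * (2 * (K + 1) ^ 3 * ((K + 1) ^ 4 + 12 + 2 * (K + 1) ^ 2 * M0 ^ 2)) * r ^ 2 := by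
  set c := K + 1 with hc
  have c0 : 0 ≤ c := by linarith
  have hη : 0 ≤ η := hO.trans hOη
  have k3 : K ^ 3 ≤ c ^ 3 := pow_le_pow_left₀ hK (by linarith) 3
  have m2 : M ^ 2 ≤ M0 ^ 2 := pow_le_pow_left₀ hM hM0 2
  have e1 : (M * c + s) ^ 2 * u ≤ 2 * (c ^ 2 * (M ^ 2 * u) + 4 * r ^ 2) := by
    have : (M * c + s) ^ 2 ≤ 2 * (c ^ 2 * M ^ 2 + s ^ 2) := by nlinarith [sq_nonneg (M * c - s)]
    nlinarith [mul_le_mul_of_nonneg_right this hu]
  have e2 : (O + 2 * r) * (c ^ 2 * (M ^ 2 * u) + 4 * r ^ 2) ≤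
      η * (c ^ 4 + 12 + 2 * c ^ 2 * M0 ^ 2) * r ^ 2 := by
    have a1 : c ^ 2 * (O * M ^ 2 * u) ≤ c ^ 2 * (η * (c * r) ^ 2) :=
      mul_le_mul_of_nonneg_left h1 (by positivity)
    have a2 : M ^ 2 * (r * u) ≤ M0 ^ 2 * (η * r ^ 2) :=
      mul_le_mul m2 h2 (by positivity) (by positivity)
    have a3 : c ^ 2 * (M ^ 2 * (r * u)) ≤ c ^ 2 * (M0 ^ 2 * (η * r ^ 2)) :=
      mul_le_mul_of_nonneg_left a2 (by positivity)
    have a4 : O * r ^ 2 ≤ η * r ^ 2 := mul_le_mul_of_nonneg_right hOη (by positivity)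
    have a5 : r * r ^ 2 ≤ η * r ^ 2 := mul_le_mul_of_nonneg_right hrη (by positivity)
    nlinarith
  have e3 : (O + 2 * r) * ((M * c + s) ^ 2 * u) ≤
      2 * (η * (c ^ 4 + 12 + 2 * c ^ 2 * M0 ^ 2) * r ^ 2) := by
    have := mul_le_mul_of_nonneg_left e1 (show 0 ≤ O + 2 * r by positivity)
    linarith
  calc K * (O + 2 * r) * (K * (M * c + s)) ^ 2 * u
      = K ^ 3 * ((O + 2 * r) * ((M * c + s) ^ 2 * u)) := by ring
    _ ≤ c ^ 3 * (2 * (η * (c ^ 4 + 12 + 2 * c ^ 2 * M0 ^ 2) * r ^ 2)) :=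
        mul_le_mul k3 e3 (by positivity) (by positivity)
    _ = _ := by ring

/-- transfer of the scale condition -/
theorem GoodS.transfer {Z Y Z' Y' : Type} [PseudoMetricSpace Z] [PseudoMetricSpace Y]
    [PseudoMetricSpace Z'] [PseudoMetricSpace Y'] {f : ℕ → Z → Y} {T : Set Z} {x : Z}
    (h : GoodS f T x) {g : ℕ → Z' → Y'} {T' : Set Z'} {x' : Z'} {φ : Z' → Z} {K ρ : ℝ}
    (hK : 0 ≤ K) (hρ : 0 < ρ) (h0 : φ x' = x) (h1 : ∀ y ∈ T' ∩ ball x' ρ, φ y ∈ T)
    (hx : x' ∈ T')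
    (h2 : ∀ y ∈ T' ∩ ball x' ρ, ∀ z ∈ T' ∩ ball x' ρ, dist (φ y) (φ z) ≤ K * dist y z)
    (h3 : ∀ᶠ n in atTop, ∀ y ∈ T' ∩ ball x' ρ, ∀ z ∈ T' ∩ ball x' ρ,
      dist (g n y) (g n z) ≤ K * (dist (f n (φ y)) (f n (φ z)) + dist y z)) :
    GoodS g T' x' := by
  obtain ⟨a, M0, ha, ha1, H⟩ := h
  refine ⟨a, K * (M0 * (K + 1) + 1), ha, ha1, fun η hη => ?_⟩
  set C : ℝ := 2 * (K + 1) ^ 3 * ((K + 1) ^ 4 + 12 + 2 * (K + 1) ^ 2 * M0 ^ 2) with hC
  have c1 : 1 ≤ K + 1 := by linarith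
  have c0 : 0 < K + 1 := by linarith
  have C0 : 0 < C := by positivity
  have C3 : 3 * K ≤ C := by
    have a1 : K + 1 ≤ (K + 1) ^ 3 := le_self_pow₀ c1 (by norm_num)
    have a2 : (12 : ℝ) ≤ (K + 1) ^ 4 + 12 + 2 * (K + 1) ^ 2 * M0 ^ 2 := by
      have : 0 ≤ (K + 1) ^ 4 := by positivity
      have : 0 ≤ 2 * (K + 1) ^ 2 * M0 ^ 2 := by positivity
      linarith
    have := mul_le_mul a1 a2 (by norm_num) (by positivity)
    rw [hC]; nlinarith
  have hη' : 0 < η / C := div_pos hη C0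
  have eη : η / C * C = η := div_mul_cancel₀ _ C0.ne'
  obtain ⟨r0, hr0, H⟩ := H (η / C) hη'
  obtain ⟨s, hs, Hs⟩ := goodL0_small ha hη'
  refine ⟨min (min (r0 / (K + 1)) s) (min (min ρ (1 / 2)) (η / C)), by positivity,
    fun r hr hlt => ?_⟩
  simp only [lt_min_iff] at hlt
  obtain ⟨⟨l1, l2⟩, ⟨l3, l4⟩, l5⟩ := hlt
  have rr : r ≤ (K + 1) * r := le_mul_of_one_le_left hr.le c1
  obtain ⟨O, M, hO, hOη, hM, hM0, hOM, Hn⟩ := H ((K + 1) * r) (by positivity)
    (by rw [lt_div_iff₀ c0] at l1; linarith)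
  have s0 : 0 ≤ (2 * r) ^ (1 - a) := by positivity
  have s1 : (2 * r) ^ (1 - a) ≤ 1 := Real.rpow_le_one (by positivity) (by linarith) (by linarith)
  refine ⟨K * (O + 2 * r), K * (M * (K + 1) + (2 * r) ^ (1 - a)), by positivity, ?_,
    by positivity, ?_, ?_, ?_⟩
  · calc K * (O + 2 * r) ≤ K * (3 * (η / C)) := mul_le_mul_of_nonneg_left (by linarith) hK
      _ = η / C * (3 * K) := by ring
      _ ≤ η / C * C := mul_le_mul_of_nonneg_left C3 hη'.le
      _ = η := eη
  · exact mul_le_mul_of_nonneg_left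
      (add_le_add (mul_le_mul_of_nonneg_right hM0 c0.le) s1) hK
  · have u1 : r ^ (2 * a) ≤ ((K + 1) * r) ^ (2 * a) := Real.rpow_le_rpow hr.le rr (by linarith)
    have u2 : r ^ (2 * a) ≤ (2 * r) ^ (2 * a) :=
      Real.rpow_le_rpow hr.le (by linarith) (by linarith)
    have u3 : ((2 * r) ^ (1 - a)) ^ 2 * (2 * r) ^ (2 * a) = 4 * r ^ 2 := by
      rw [← Real.rpow_natCast, ← Real.rpow_mul (by positivity), ← Real.rpow_add (by positivity)]
      have : (1 - a) * ((2 : ℕ) : ℝ) + 2 * a = ((2 : ℕ) : ℝ) := by push_cast; ring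
      rw [this, Real.rpow_natCast]; ring
    have := goodL0_num (s := (2 * r) ^ (1 - a)) (u := r ^ (2 * a)) hK hO hOη hM hM0 hr l5.le
      (by positivity) ((mul_le_mul_of_nonneg_left u1 (by positivity)).trans hOM) (Hs r hr l2)
      (u3 ▸ mul_le_mul_of_nonneg_left u2 (by positivity))
    rwa [← hC, eη] at this
  · filter_upwards [h3, Hn] with n g3 fn y hy z hz
    have sub : ∀ w ∈ T' ∩ ball x' r, w ∈ T' ∩ ball x' ρ := fun w hw =>
      ⟨hw.1, ball_subset_ball l3.le hw.2⟩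
    have mem : ∀ w ∈ T' ∩ ball x' r, φ w ∈ T ∩ ball x ((K + 1) * r) := fun w hw => by
      refine ⟨h1 w (sub w hw), ?_⟩
      have b1 := h2 w (sub w hw) x' ⟨hx, mem_ball_self hρ⟩
      have b2 : dist w x' < r := hw.2
      rw [mem_ball, ← h0]
      nlinarith [mul_le_mul_of_nonneg_left b2.le hK]
    have d1 : dist y z ≤ 2 * r := by
      have b1 : dist y x' < r := hy.2
      have b2 : dist z x' < r := hz.2
      linarith [dist_triangle_right y z x']
    obtain ⟨f1, f2⟩ := fn _ (mem y hy) _ (mem z hz)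
    have g1 := g3 y (sub y hy) z (sub z hz)
    refine ⟨g1.trans (mul_le_mul_of_nonneg_left (add_le_add f1 d1) hK), g1.trans ?_⟩
    have d0 : 0 ≤ dist y z := dist_nonneg
    have p1 : dist (φ y) (φ z) ^ a ≤ (K + 1) * dist y z ^ a := by
      have b1 : dist (φ y) (φ z) ≤ (K + 1) * dist y z := by
        have := h2 y (sub y hy) z (sub z hz)
        linarith
      refine (Real.rpow_le_rpow dist_nonneg b1 (by linarith)).trans ?_
      rw [Real.mul_rpow c0.le d0]
      refine mul_le_mul_of_nonneg_right ?_ (by positivity)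
      simpa using Real.rpow_le_rpow_of_exponent_le c1 ha1
    have p2 : dist y z ≤ (2 * r) ^ (1 - a) * dist y z ^ a := by
      calc dist y z = dist y z ^ (1 - a) * dist y z ^ a := by
            rw [← Real.rpow_add' d0 (by simp)]; simp
        _ ≤ _ := mul_le_mul_of_nonneg_right (Real.rpow_le_rpow d0 d1 (by linarith))
            (by positivity)
    rw [mul_assoc]
    refine mul_le_mul_of_nonneg_left ?_ hK
    have := mul_le_mul_of_nonneg_left p1 hM
    nlinarith

/-- transfer to averages of translates -/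
theorem GoodS.avg {Y : Type} [PseudoMetricSpace Y] {f : E → Y} {x : E}
    (h : GoodS (fun _ => f) univ x) {g : ℕ → E → Y} {ρ : ℝ} (hρ : 0 < ρ)
    (h1 : ∀ δ > 0, ∀ᶠ n in atTop, ∀ y ∈ ball x ρ, ∀ z ∈ ball x ρ, ∀ k : ℝ,
      (∀ u : E, ‖u‖ ≤ δ → dist (f (y - u)) (f (z - u)) ≤ k) → dist (g n y) (g n z) ≤ k) :
    GoodS g univ x := by
  obtain ⟨a, M0, ha, ha1, H⟩ := h
  refine ⟨a, M0, ha, ha1, fun η hη => ?_⟩
  obtain ⟨r0, hr0, H⟩ := H (η / 4) (by positivity)
  refine ⟨min (r0 / 2) ρ, by positivity, fun r hr hlt => ?_⟩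
  rw [lt_min_iff] at hlt
  obtain ⟨O, M, hO, hOη, hM, hM0, hOM, Hn⟩ := H (2 * r) (by positivity) (by linarith [hlt.1])
  obtain ⟨_, Hn⟩ := Hn.exists
  refine ⟨O, M, hO, by linarith, hM, hM0, ?_, ?_⟩
  · have u2 : r ^ (2 * a) ≤ (2 * r) ^ (2 * a) :=
      Real.rpow_le_rpow hr.le (by linarith) (by linarith)
    have := (mul_le_mul_of_nonneg_left u2 (show 0 ≤ O * M ^ 2 by positivity)).trans hOM
    linarith
  · filter_upwards [h1 r hr] with n gn y hy z hz
    have mem : ∀ w ∈ univ ∩ ball x r, ∀ u : E, ‖u‖ ≤ r → w - u ∈ univ ∩ ball x (2 * r) :=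
      fun w hw u hu => by
        refine ⟨trivial, ?_⟩
        have b1 : dist w x < r := hw.2
        have b2 : dist (w - u) w = ‖u‖ := by simp
        rw [mem_ball]
        linarith [dist_triangle (w - u) w x]
    have G := gn y (ball_subset_ball hlt.2.le hy.2) z (ball_subset_ball hlt.2.le hz.2)
    refine ⟨G _ fun u hu => (Hn _ (mem y hy u hu) _ (mem z hz u hu)).1, G _ fun u hu => ?_⟩
    have := (Hn _ (mem y hy u hu) _ (mem z hz u hu)).2
    rwa [dist_sub_right] at this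

end Pool.Agent.Bor
end
end

-- part Pool.Agent.P.MP_26ecb7_gt.GoodL
section

noncomputable section
open Set Filter Topology MeasureTheory Metric
open scoped RealInnerProductSpace ContDiff ENNReal

namespace Pool.Agent.Bor

theorem goodl_small (A : ℝ) {e η : ℝ} (he : 0 < e) (hη : 0 < η) :
    ∃ r0 > 0, ∀ ρ : ℝ, 0 < ρ → ρ < r0 → A * ρ ^ e ≤ η := by
  have h : ContinuousAt (fun ρ : ℝ => A * ρ ^ e) 0 :=
    continuousAt_const.mul (Real.continuousAt_rpow_const 0 e (Or.inr he.le))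
  have h0 : (fun ρ : ℝ => A * ρ ^ e) 0 < η := by
    simp only [Real.zero_rpow he.ne', mul_zero]
    exact hη
  obtain ⟨r0, hr0, h1⟩ := Metric.eventually_nhds_iff.1 (h.eventually_lt continuousAt_const h0)
  refine ⟨r0, hr0, fun ρ h2 h3 => (h1 ?_).le⟩
  rwa [Real.dist_eq, sub_zero, abs_of_pos h2]

theorem goodl_min {u x y t : ℝ} (hu : 0 ≤ u) (hx : u ≤ x) (hy : u ≤ y) (h0 : 0 ≤ t) (h1 : t ≤ 1) :
    u ≤ x ^ (1 - t) * y ^ t := by
  have e : u = u ^ (1 - t) * u ^ t := by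
    rw [← Real.rpow_add_of_nonneg hu (by linarith) h0, sub_add_cancel, Real.rpow_one]
  rw [e]
  exact mul_le_mul (Real.rpow_le_rpow hu hx (by linarith)) (Real.rpow_le_rpow hu hy h0)
    (Real.rpow_nonneg hu _) (Real.rpow_nonneg (hu.trans hx) _)

theorem goodl_osc {Z Y : Type} [PseudoMetricSpace Z] [PseudoMetricSpace Y] {f : Z → Y}
    {T : Set Z} {x : Z} {c L r ρ : ℝ} (hL : 0 ≤ L) (hc : 0 ≤ c) (hρ : ρ ≤ r)
    (h2 : ∀ y ∈ T ∩ ball x r, dist (f y) (f x) ≤ L * dist y x ^ c) :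
    ∀ y ∈ T ∩ ball x ρ, ∀ z ∈ T ∩ ball x ρ, dist (f y) (f z) ≤ 2 * L * ρ ^ c := by
  have h : ∀ y ∈ T ∩ ball x ρ, dist (f y) (f x) ≤ L * ρ ^ c := fun y hy =>
    (h2 y ⟨hy.1, ball_subset_ball hρ hy.2⟩).trans (mul_le_mul_of_nonneg_left
      (Real.rpow_le_rpow dist_nonneg (mem_ball.1 hy.2).le hc) hL)
  intro y hy z hz
  have := dist_triangle_right (f y) (f z) (f x)
  linarith [h y hy, h z hz]

/-- local Hoelder exponent `b` and pointwise exponent `c` with `b < c (3 b - 1)` -/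
theorem good_of_exp {Z Y : Type} [PseudoMetricSpace Z] [PseudoMetricSpace Y] {f : Z → Y}
    {T : Set Z} {x : Z} {b c L r : ℝ} (hr : 0 < r) (hL : 0 ≤ L) (hb : 1 / 2 < b) (hb1 : b ≤ 1)
    (hc : b < c * (3 * b - 1))
    (h1 : ∀ y ∈ T ∩ ball x r, ∀ z ∈ T ∩ ball x r, dist (f y) (f z) ≤ L * dist y z ^ b)
    (h2 : ∀ y ∈ T ∩ ball x r, dist (f y) (f x) ≤ L * dist y x ^ c) :
    GoodS (fun _ => f) T x := by
  have hb0 : 0 < b := by linarith
  have hc0 : 0 < c := by
    by_contra h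
    have : c * (3 * b - 1) ≤ 0 := mul_nonpos_of_nonpos_of_nonneg (not_lt.1 h) (by linarith)
    linarith
  have hg : ContinuousAt (fun a : ℝ => c * (3 - 2 * (a / b)) + 2 * a - 2) (1 / 2) := by
    fun_prop
  have hg0 : (0 : ℝ) < (fun a : ℝ => c * (3 - 2 * (a / b)) + 2 * a - 2) (1 / 2) := by
    have e : c * (3 - 2 * (1 / 2 / b)) + 2 * (1 / 2) - 2 = (c * (3 * b - 1) - b) / b := by
      field_simp
      ring
    simp only [e]
    exact div_pos (by linarith) hb0
  have hev : ∀ᶠ a in 𝓝[>] (1 / 2 : ℝ),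
      (0 < c * (3 - 2 * (a / b)) + 2 * a - 2 ∧ a < b) ∧ 1 / 2 < a :=
    (((continuousAt_const.eventually_lt hg hg0).and (gt_mem_nhds hb)).filter_mono
      nhdsWithin_le_nhds).and self_mem_nhdsWithin
  obtain ⟨a, ⟨he, hab⟩, ha⟩ := hev.exists
  set t := a / b with ht
  set e := c * (3 - 2 * t) + 2 * a - 2 with he'
  have ht0 : 0 ≤ t := div_nonneg (by linarith) hb0.le
  have ht1 : t ≤ 1 := (div_le_one hb0).2 hab.le
  have hbt : b * t = a := by rw [ht]; field_simp
  set A := 2 * L + 1 with hA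
  have hA0 : 0 < A := by linarith
  refine ⟨a, A, ha, by linarith, fun η hη => ?_⟩
  obtain ⟨r1, hr1, k1⟩ := goodl_small A hc0 hη
  obtain ⟨r2, hr2, k2⟩ := goodl_small (A ^ 3) he hη
  refine ⟨min (min r1 r2) (min r 1), by positivity, fun ρ hρ hlt => ?_⟩
  simp only [lt_min_iff] at hlt
  refine ⟨A * ρ ^ c, A * ρ ^ (c * (1 - t)), by positivity, k1 ρ hρ hlt.1.1, by positivity,
    mul_le_of_le_one_right hA0.le (Real.rpow_le_one hρ.le hlt.2.2.le
      (mul_nonneg hc0.le (by linarith))), ?_, Eventually.of_forall fun _ y hy z hz => ?_⟩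
  · have e1 : ρ ^ c * (ρ ^ (c * (1 - t))) ^ 2 * ρ ^ (2 * a) = ρ ^ e * ρ ^ 2 := by
      rw [← Real.rpow_two, ← Real.rpow_two, ← Real.rpow_mul hρ.le, ← Real.rpow_add hρ,
        ← Real.rpow_add hρ, ← Real.rpow_add hρ]
      congr 1
      rw [he']
      ring
    calc A * ρ ^ c * (A * ρ ^ (c * (1 - t))) ^ 2 * ρ ^ (2 * a)
        = A ^ 3 * (ρ ^ c * (ρ ^ (c * (1 - t))) ^ 2 * ρ ^ (2 * a)) := by ring
      _ = A ^ 3 * ρ ^ e * ρ ^ 2 := by rw [e1, mul_assoc]
      _ ≤ η * ρ ^ 2 := mul_le_mul_of_nonneg_right (k2 ρ hρ hlt.1.2) (by positivity)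
  · have o1 : dist (f y) (f z) ≤ A * ρ ^ c :=
      (goodl_osc hL hc0.le hlt.2.1.le h2 y hy z hz).trans
        (mul_le_mul_of_nonneg_right (by linarith) (by positivity))
    have o2 : dist (f y) (f z) ≤ A * dist y z ^ b :=
      (h1 y ⟨hy.1, ball_subset_ball hlt.2.1.le hy.2⟩ z
        ⟨hz.1, ball_subset_ball hlt.2.1.le hz.2⟩).trans
        (mul_le_mul_of_nonneg_right (by linarith) (by positivity))
    refine ⟨o1, (goodl_min dist_nonneg o1 o2 ht0 ht1).trans (le_of_eq ?_)⟩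
    rw [Real.mul_rpow hA0.le (by positivity), Real.mul_rpow hA0.le (by positivity),
      ← Real.rpow_mul hρ.le, ← Real.rpow_mul dist_nonneg, hbt]
    have e2 : A ^ (1 - t) * A ^ t = A := by
      rw [← Real.rpow_add hA0, sub_add_cancel, Real.rpow_one]
    calc A ^ (1 - t) * ρ ^ (c * (1 - t)) * (A ^ t * dist y z ^ a)
        = A ^ (1 - t) * A ^ t * ρ ^ (c * (1 - t)) * dist y z ^ a := by ring
      _ = _ := by rw [e2]

/-- local exponent `2/3` and little o at the point -/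
theorem good_of_little {Z Y : Type} [PseudoMetricSpace Z] [PseudoMetricSpace Y] {f : Z → Y}
    {T : Set Z} {x : Z} {L r : ℝ} (hr : 0 < r) (hL : 0 ≤ L)
    (h1 : ∀ y ∈ T ∩ ball x r, ∀ z ∈ T ∩ ball x r, dist (f y) (f z) ≤ L * dist y z ^ (2 / 3 : ℝ))
    (h2 : ∀ η > 0, ∃ ρ > 0, ∀ y ∈ T ∩ ball x ρ, dist (f y) (f x) ≤ η * dist y x ^ (2 / 3 : ℝ)) :
    GoodS (fun _ => f) T x := by
  refine ⟨2 / 3, L, by norm_num, by norm_num, fun η hη => ?_⟩
  have hq : 0 < L ^ 2 + 1 := by positivity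
  set θ := η / (2 * (L ^ 2 + 1)) with hθ
  have hθ0 : 0 < θ := by positivity
  have hθ1 : 2 * θ * (L ^ 2 + 1) = η := by rw [hθ]; field_simp
  obtain ⟨r1, hr1, k1⟩ := h2 θ hθ0
  refine ⟨min r1 (min r 1), by positivity, fun ρ hρ hlt => ?_⟩
  simp only [lt_min_iff] at hlt
  have h3 : ρ ^ (2 / 3 : ℝ) ≤ 1 := Real.rpow_le_one hρ.le hlt.2.2.le (by norm_num)
  have h4 : 0 ≤ ρ ^ (2 / 3 : ℝ) := by positivity
  refine ⟨2 * θ * ρ ^ (2 / 3 : ℝ), L, by positivity, ?_, hL, le_rfl, ?_,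
    Eventually.of_forall fun _ y hy z hz => ⟨goodl_osc hθ0.le (by norm_num) hlt.1.le k1 y hy z hz,
      h1 y ⟨hy.1, ball_subset_ball hlt.2.1.le hy.2⟩ z ⟨hz.1, ball_subset_ball hlt.2.1.le hz.2⟩⟩⟩
  · nlinarith [mul_nonneg hθ0.le (sq_nonneg L), mul_le_mul_of_nonneg_left h3 hθ0.le]
  · have e1 : ρ ^ (2 / 3 : ℝ) * ρ ^ (2 * (2 / 3) : ℝ) = ρ ^ 2 := by
      rw [← Real.rpow_add hρ, ← Real.rpow_two]
      norm_num
    calc 2 * θ * ρ ^ (2 / 3 : ℝ) * L ^ 2 * ρ ^ (2 * (2 / 3) : ℝ)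
        = 2 * θ * L ^ 2 * (ρ ^ (2 / 3 : ℝ) * ρ ^ (2 * (2 / 3) : ℝ)) := by ring
      _ ≤ η * ρ ^ 2 := by
        rw [e1]
        exact mul_le_mul_of_nonneg_right (by nlinarith) (by positivity)

end Pool.Agent.Bor
end
end

-- part Pool.Agent.P.MP_26ecb7_gt.Bes0
section

noncomputable section
open Set Filter Topology MeasureTheory Metric
open scoped RealInnerProductSpace ContDiff ENNReal NNReal

namespace Pool.Agent.Bor

/-- average of a real function over the ball of radius `ε`, without normalisation -/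
def av (ε : ℝ) (F : E → ℝ) (x : E) : ℝ := ∫ u in closedBall (0 : E) 1, F (x - ε • u)

/-- third moment of the increments at scale `ε` -/
def a3 {Y : Type} [NormedAddCommGroup Y] (H : E → Y) (ε : ℝ) (x : E) : ℝ :=
  av ε (fun z => ‖H z - H x‖ ^ 3) x

/-- the critical Besov defect has density zero at `x` -/
def BesS {Y : Type} [NormedAddCommGroup Y] (f : E → Y) (T : Set E) (x : E) : Prop :=
  ∀ η : ℝ, 0 < η → ∀ᶠ r in 𝓝[>] (0 : ℝ), ∀ᶠ ε in 𝓝[>] (0 : ℝ),
    ∫⁻ y in T ∩ ball x r, ∫⁻ z in T ∩ ball y ε, ‖f y - f z‖ₑ ^ 3 ∂μH[2] ∂μH[2]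
      ≤ ENNReal.ofReal (η * r ^ 2 * ε ^ 4)

/-- the approximations are mollifications of a global extension -/
structure Mo {X : Surf} {I : Iso X} (A : Appr I) (ε : ℕ → ℝ) (V : E → E) : Prop where
  W_eq : ∀ n, A.W n = mol (ε n) V
  pos : ∀ n, 0 < ε n
  le : ∀ n, ε n ≤ A.tau
  lim : Tendsto ε atTop (𝓝 0)
  c1 : ContDiff ℝ 1 V
  o_not : X.o ∉ cthickening (3 * A.tau) X.S
  eq : ∀ z ∈ cthickening (3 * A.tau) X.S, V =ᶠ[𝓝 z] I.V

end Pool.Agent.Bor
end
end

-- part Pool.Agent.P.MP_26ecb7_gt.ApprE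
section

noncomputable section
open Set Filter Topology MeasureTheory Metric
open scoped RealInnerProductSpace ContDiff ENNReal

namespace Pool.Agent.Bor

theorem apprE_ext {X : Surf} (I : Iso X) : ∃ (τ : ℝ) (V : E → E), 0 < τ ∧ τ ≤ 1 / 2 ∧
    X.o ∉ cthickening (3 * τ) X.S ∧ ContDiff ℝ 1 V ∧
    ∀ z ∈ cthickening (3 * τ) X.S, V =ᶠ[𝓝 z] I.V := by
  have hne : X.S.Nonempty := X.conn.nonempty
  have hd : 0 < infDist X.o X.S := (X.cpt.isClosed.notMem_iff_infDist_pos hne).1 X.o_not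
  set d := infDist X.o X.S with hdd
  have hτ : 0 < min (1 / 2 : ℝ) (d / 8) := lt_min (by norm_num) (by positivity)
  set τ := min (1 / 2 : ℝ) (d / 8) with hτd
  have hτ2 : τ ≤ d / 8 := min_le_right _ _
  have far : ∀ z ∈ cthickening (3 * τ) X.S, 2 * τ < dist z X.o := by
    intro z hz
    have h1 : z ∈ thickening (4 * τ) X.S :=
      cthickening_subset_thickening' (by positivity) (by linarith) _ hz
    obtain ⟨q, hq, hzq⟩ := mem_thickening_iff.1 h1
    have h2 : d ≤ dist X.o q := infDist_le_dist_of_mem hq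
    have h3 := dist_triangle X.o z q
    rw [dist_comm X.o z] at h3
    linarith
  let b : ContDiffBump X.o := ⟨τ, 2 * τ, hτ, by linarith⟩
  refine ⟨τ, fun z => (1 - b z) • I.V z, hτ, min_le_left _ _, ?_, ?_, ?_⟩
  · intro h
    have := far _ h
    rw [dist_self] at this
    linarith
  · rw [contDiff_iff_contDiffAt]
    intro z
    by_cases hz : z = X.o
    · have h0 : (fun z => (1 - b z) • I.V z) =ᶠ[𝓝 z] fun _ => (0 : E) := by
        have : ball X.o τ ∈ 𝓝 z := by rw [hz]; exact ball_mem_nhds _ hτ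
        filter_upwards [this] with w hw
        have : b w = 1 := b.one_of_mem_closedBall (ball_subset_closedBall hw)
        simp [this]
      exact contDiffAt_const.congr_of_eventuallyEq h0
    · exact (contDiffAt_const.sub b.contDiff.contDiffAt).smul (I.V_c1 hz)
  · intro z hz
    have ho : IsOpen {w : E | 2 * τ < dist w X.o} :=
      isOpen_lt continuous_const (continuous_id.dist continuous_const)
    filter_upwards [ho.mem_nhds (far z hz)] with w hw
    have : b w = 0 := b.zero_of_le_dist (le_of_lt hw)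
    simp [this]

theorem apprE_bound {X : Surf} {f : E → E} (hf : ∀ q ∈ X.S, ContDiffAt ℝ 1 f q) :
    ∃ B : ℝ, 0 ≤ B ∧ ∀ q ∈ X.S, ‖fderiv ℝ f q‖ ≤ B := by
  have hc : ContinuousOn (fderiv ℝ f) X.S := fun q hq =>
    ((hf q hq).continuousAt_fderiv (by simp)).continuousWithinAt
  obtain ⟨B, hB⟩ := X.cpt.exists_bound_of_continuousOn hc
  exact ⟨max B 0, le_max_right _ _, fun q hq => (hB q hq).trans (le_max_left _ _)⟩

theorem apprE_good {X : Surf} (I : Iso X) {V : E → E} {q : E} (hq : q ∈ X.S)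
    (hV : V =ᶠ[𝓝 q] I.V) (h : GoodS (fun _ => fderiv ℝ I.v) X.S q) :
    GoodS (fun _ => fderiv ℝ V) univ q := by
  have hqo := X.ne_o hq
  obtain ⟨B, hB0, hB⟩ := apprE_bound (X := X) I.c1
  have hs := X.pr_smooth q hqo
  obtain ⟨K1, t1, ht1, hK1⟩ := (hs.of_le (m := 1) (by exact_mod_cast le_top)).exists_lipschitzOnWith
  have hs2 : ContDiffAt ℝ 1 (fderiv ℝ X.pr) q :=
    (hs.fderiv_right (m := ∞) (by simp)).of_le (by exact_mod_cast le_top)
  obtain ⟨K2, t2, ht2, hK2⟩ := hs2.exists_lipschitzOnWith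
  have hall : ∀ᶠ y in 𝓝 q, y ∈ t1 ∧ y ∈ t2 ∧ y ≠ X.o ∧ fderiv ℝ V y = fderiv ℝ I.V y := by
    filter_upwards [ht1, ht2, isOpen_ne.mem_nhds hqo, hV.fderiv (𝕜 := ℝ)] with y h1 h2 h3 h4
    exact ⟨h1, h2, h3, h4⟩
  obtain ⟨ρ, hρ, hb⟩ := Metric.eventually_nhds_iff_ball.1 hall
  have hK10 : (0 : ℝ) ≤ K1 := K1.2
  have hK20 : (0 : ℝ) ≤ K2 := K2.2
  set D := ‖fderiv ℝ X.pr q‖ + K2 * ρ with hD
  have hD0 : 0 ≤ D := by positivity
  have hDb : ∀ y ∈ ball q ρ, ‖fderiv ℝ X.pr y‖ ≤ D := by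
    intro y hy
    have h1 := hK2.dist_le_mul y (hb y hy).2.1 q (hb q (mem_ball_self hρ)).2.1
    rw [dist_eq_norm] at h1
    have h2 : dist y q ≤ ρ := le_of_lt hy
    have h3 := norm_le_insert' (fderiv ℝ X.pr y) (fderiv ℝ X.pr q)
    have h4 : (K2 : ℝ) * dist y q ≤ K2 * ρ := mul_le_mul_of_nonneg_left h2 hK20
    linarith
  refine h.transfer (φ := X.pr) (K := K1 + D + B * K2) (ρ := ρ) (by positivity) hρ (X.pr_self hq)
    (fun y hy => X.pr_mem y (hb y hy.2).2.2.1) (mem_univ _) ?_ (Eventually.of_forall fun n => ?_)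
  · intro y hy z hz
    have h1 := hK1.dist_le_mul y (hb y hy.2).1 z (hb z hz.2).1
    have h2 : 0 ≤ (D + B * K2) * dist y z := by positivity
    nlinarith
  · intro y hy z hz
    obtain ⟨-, y2, y3, y4⟩ := hb y hy.2
    obtain ⟨-, z2, z3, z4⟩ := hb z hz.2
    rw [y4, z4, I.fderiv_V y3, I.fderiv_V z3, dist_eq_norm, dist_eq_norm]
    have e : (fderiv ℝ I.v (X.pr y)).comp (fderiv ℝ X.pr y)
        - (fderiv ℝ I.v (X.pr z)).comp (fderiv ℝ X.pr z)
        = (fderiv ℝ I.v (X.pr y) - fderiv ℝ I.v (X.pr z)).comp (fderiv ℝ X.pr y)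
          + (fderiv ℝ I.v (X.pr z)).comp (fderiv ℝ X.pr y - fderiv ℝ X.pr z) := by
      ext a; simp
    rw [e]
    have h1 := hK2.dist_le_mul y y2 z z2
    rw [dist_eq_norm] at h1
    have h2 := ContinuousLinearMap.opNorm_comp_le (fderiv ℝ I.v (X.pr y) - fderiv ℝ I.v (X.pr z))
      (fderiv ℝ X.pr y)
    have h3 := ContinuousLinearMap.opNorm_comp_le (fderiv ℝ I.v (X.pr z))
      (fderiv ℝ X.pr y - fderiv ℝ X.pr z)
    have h4 := hB _ (X.pr_mem z z3)
    have h5 := hDb y hy.2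
    set u := ‖fderiv ℝ I.v (X.pr y) - fderiv ℝ I.v (X.pr z)‖ with hu
    have hu0 : 0 ≤ u := norm_nonneg _
    have hd0 : 0 ≤ dist y z := dist_nonneg
    have h6 : u * ‖fderiv ℝ X.pr y‖ ≤ u * D := mul_le_mul_of_nonneg_left h5 hu0
    have h7 : ‖fderiv ℝ I.v (X.pr z)‖ * ‖fderiv ℝ X.pr y - fderiv ℝ X.pr z‖
        ≤ B * (K2 * dist y z) := mul_le_mul h4 h1 (norm_nonneg _) hB0
    refine (norm_add_le _ _).trans ?_
    have h8 : 0 ≤ (K1 + B * K2) * u := by positivity
    have h9 : 0 ≤ (K1 + D) * dist y z := by positivity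
    nlinarith

theorem apprE_sec {V : E → E} (hV : Continuous V) {ε : ℝ} (hε : 0 < ε) (q b Y : E) {k : ℝ}
    (h : ∀ z ∈ closedBall q ε, ⟪Y, V (z + b) + V (z - b) - (2 : ℝ) • V z⟫ ≤ k) :
    ⟪Y, mol ε V (q + b) + mol ε V (q - b) - (2 : ℝ) • mol ε V q⟫ ≤ k := by
  have c1 : Continuous fun z => V (z + b) := hV.comp (continuous_id.add continuous_const)
  have c2 : Continuous fun z => V (z + -b) := hV.comp (continuous_id.add continuous_const)
  have c4 : Continuous fun z => V (z + b) + V (z + -b) := c1.add c2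
  have c5 : Continuous fun z => V z + V z := hV.add hV
  have c3 : Continuous fun z => V (z + b) + V (z + -b) - (V z + V z) := c4.sub c5
  have e : mol ε V (q + b) + mol ε V (q - b) - (2 : ℝ) • mol ε V q
      = mol ε (fun z => V (z + b) + V (z + -b) - (V z + V z)) q := by
    rw [mol_sub c4 c5, mol_add c1 c2, mol_add hV hV, ← mol_shift, ← mol_shift,
      two_smul, sub_eq_add_neg q b]
  rw [e, ← innerSL_apply_apply ℝ, mol_clm _ c3]
  refine mol_le hε ((innerSL ℝ Y).continuous.comp c3) fun z hz => ?_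
  have := h z hz
  rw [two_smul, sub_eq_add_neg z b] at this
  exact this

theorem Iso.exists_mo {X : Surf} (I : Iso X) : ∃ (A : Appr I) (ε : ℕ → ℝ) (V : E → E), Mo A ε V := by
  obtain ⟨τ, V, hτ, hτ2, ho, hV, hVe⟩ := apprE_ext I
  have hK3 : IsCompact (cthickening (3 * τ) X.S) := X.cpt.cthickening
  obtain ⟨H, hH0, hH⟩ := I.hol_V hK3 ho
  have hal : 0 < I.al := by linarith [I.al_gt]
  have hDc : Continuous (fderiv ℝ V) := hV.continuous_fderiv (by simp)
  have hD : ∀ z ∈ cthickening (3 * τ) X.S, fderiv ℝ V z = fderiv ℝ I.V z :=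
    fun z hz => (hVe z hz).fderiv_eq
  have hE : ∀ z ∈ cthickening (3 * τ) X.S, V z = I.V z := fun z hz => (hVe z hz).eq_of_nhds
  have hmem : ∀ z ∈ thickening τ X.S, ∀ w, dist w z ≤ 2 * τ → w ∈ cthickening (3 * τ) X.S := by
    intro z hz w hw
    obtain ⟨q, hq, hzq⟩ := mem_thickening_iff.1 hz
    exact mem_cthickening_of_dist_le w q _ _ hq (by linarith [dist_triangle w z q])
  have hS : X.S ⊆ thickening τ X.S := self_subset_thickening hτ _
  have hself : ∀ z ∈ thickening τ X.S, z ∈ cthickening (3 * τ) X.S :=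
    fun z hz => hmem z hz z (by rw [dist_self]; positivity)
  have hne : ∀ z ∈ cthickening (3 * τ) X.S, z ≠ X.o := fun z hz h => ho (h ▸ hz)
  have hc1 : ∀ ε, 0 < ε → ε ≤ τ → ∀ z ∈ thickening τ X.S,
      ‖fderiv ℝ (mol ε V) z - fderiv ℝ I.V z‖ ≤ H * ε ^ I.al := by
    intro ε hε hετ z hz
    rw [fderiv_mol hε hV]
    refine norm_mol_sub hε hDc fun w hw => ?_
    have hw' : dist w z ≤ ε := hw
    have hwK := hmem z hz w (by linarith)
    rw [hD w hwK]
    refine (hH w hwK z (hself z hz)).trans (mul_le_mul_of_nonneg_left ?_ hH0)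
    rw [dist_eq_norm] at hw'
    exact Real.rpow_le_rpow (norm_nonneg _) hw' hal.le
  have hlim : Tendsto (fun ε : ℝ => H * ε ^ I.al) (𝓝[>] 0) (𝓝 0) := by
    have h1 : ContinuousAt (fun ε : ℝ => H * ε ^ I.al) 0 :=
      continuousAt_const.mul (Real.continuousAt_rpow_const 0 I.al (Or.inr hal.le))
    have h2 := h1.tendsto
    rw [Real.zero_rpow hal.ne', mul_zero] at h2
    exact h2.mono_left nhdsWithin_le_nhds
  obtain ⟨B, hB0, hB⟩ := apprE_bound (X := X) (f := I.V) fun q hq => I.V_c1 (X.ne_o hq)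
  have hη : 0 < min (1 : ℝ) (1 / (6 * (2 * B + 1))) := lt_min one_pos (by positivity)
  have hev : ∀ᶠ ε : ℝ in 𝓝[>] 0, H * ε ^ I.al < min (1 : ℝ) (1 / (6 * (2 * B + 1))) :=
    hlim.eventually (gt_mem_nhds hη)
  obtain ⟨e0, he0, he⟩ := (nhdsGT_basis (0 : ℝ)).eventually_iff.1 hev
  have hm : 0 < min τ (e0 / 2) := lt_min hτ (by positivity)
  set m := min τ (e0 / 2) with hmd
  let ε : ℕ → ℝ := fun n => m / ((n : ℝ) + 1)
  have hε0 : ∀ n, 0 < ε n := fun n => by positivity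
  have hεm : ∀ n, ε n ≤ m := fun n =>
    div_le_self hm.le (by linarith [(Nat.cast_nonneg n : (0 : ℝ) ≤ n)])
  have hετ : ∀ n, ε n ≤ τ := fun n => (hεm n).trans (min_le_left _ _)
  have hεe : ∀ n, ε n < e0 := fun n => by linarith [hεm n, min_le_right τ (e0 / 2)]
  have hεt0 : Tendsto ε atTop (𝓝 0) :=
    tendsto_const_nhds.div_atTop (tendsto_atTop_add_const_right _ _ tendsto_natCast_atTop_atTop)
  have hεt : Tendsto ε atTop (𝓝[>] 0) :=
    tendsto_nhdsWithin_iff.2 ⟨hεt0, Eventually.of_forall hε0⟩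
  refine ⟨{
    W := fun n => mol (ε n) V
    tau := τ
    H := H
    tau_pos := hτ
    tau_le := hτ2
    o_not := fun h => ho (cthickening_mono (by linarith) _ h)
    H_nonneg := hH0
    smooth := fun n => mol_smooth (hε0 n) hV.continuous
    c0 := ?_
    c1 := ?_
    c2 := ?_
    hol := ?_
    half := ?_
    good := ?_
    pt := ?_
    sec := ?_ }, ε, V, fun _ => rfl, hε0, hετ, hεt0, hV, ho, hVe⟩
  · rw [Metric.tendstoUniformlyOn_iff]
    intro θ hθ
    have hu := hK3.uniformContinuousOn_of_continuous hV.continuous.continuousOn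
    obtain ⟨δ, hδ, hu⟩ := Metric.uniformContinuousOn_iff.1 hu (θ / 2) (by positivity)
    filter_upwards [hεt0.eventually (gt_mem_nhds hδ)] with n hn z hz
    rw [dist_comm, dist_eq_norm]
    refine lt_of_le_of_lt (norm_mol_sub (k := θ / 2) (hε0 n) hV.continuous fun w hw => ?_)
      (by linarith)
    have hw' : dist w z ≤ ε n := hw
    have := hu w (hmem z hz w (by linarith [hετ n])) z (hself z hz) (by linarith)
    rw [← hE z (hself z hz), ← dist_eq_norm]
    exact this.le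
  · rw [Metric.tendstoUniformlyOn_iff]
    intro θ hθ
    filter_upwards [(hlim.comp hεt).eventually (gt_mem_nhds hθ)] with n hn z hz
    rw [dist_comm, dist_eq_norm]
    exact lt_of_le_of_lt (hc1 _ (hε0 n) (hετ n) z hz) hn
  · intro θ hθ
    have hG : thickening (3 * τ) X.S ⊆ cthickening (3 * τ) X.S := thickening_subset_cthickening _ _
    have hKG : cthickening τ (cthickening τ X.S) ⊆ thickening (3 * τ) X.S :=
      (cthickening_cthickening_subset hτ.le hτ.le _).trans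
        (cthickening_subset_thickening' (by positivity) (by linarith) _)
    have := chr_conv (V := V) (u := X.pr) (G := thickening (3 * τ) X.S) (K := cthickening τ X.S)
      (H := H) (a := I.al) hτ X.cpt.cthickening isOpen_thickening hKG I.al_gt hH0 hV
      (fun z hz => X.pr_smooth z (hne z (hG hz)))
      (fun y hy z hz => by rw [hD y (hG hy), hD z (hG hz)]; exact hH y (hG hy) z (hG hz))
      (fun z hz b c => by rw [hD z (hG hz)]; exact I.inner_V (hne z (hG hz)) b c) θ hθ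
    filter_upwards [hεt.eventually this] with n hn z hz a b c
    exact hn z (thickening_subset_cthickening _ _ hz) a b c
  · intro n y hy z hz
    rw [fderiv_mol (hε0 n) hV]
    refine norm_mol_sub_mol (hε0 n) hDc fun u hu => ?_
    have h1 : y - u ∈ cthickening (3 * τ) X.S :=
      hmem y hy _ (by rw [dist_eq_norm, sub_sub_cancel_left, norm_neg]; linarith [hετ n])
    have h2 : z - u ∈ cthickening (3 * τ) X.S :=
      hmem z hz _ (by rw [dist_eq_norm, sub_sub_cancel_left, norm_neg]; linarith [hετ n])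
    have := hH _ h1 _ h2
    rw [sub_sub_sub_cancel_right] at this
    rw [hD _ h1, hD _ h2]
    exact this
  · intro n q hq
    have h1 := hc1 _ (hε0 n) (hετ n) q (hS hq)
    have h2 := he (show ε n ∈ Ioo 0 e0 from ⟨hε0 n, hεe n⟩)
    have h3 := norm_cof_sub (fderiv ℝ (mol (ε n) V) q) (fderiv ℝ I.V q) (X.nu q)
    rw [← I.N_eq_cof_V hq, X.nu_unit q hq, mul_one] at h3
    have h4 := I.norm_N (X.ne_o hq)
    have h5 := norm_le_insert (cof (fderiv ℝ (mol (ε n) V) q) (X.nu q)) (I.N q)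
    have h6 := hB q hq
    have h7 := norm_le_insert' (fderiv ℝ (mol (ε n) V) q) (fderiv ℝ I.V q)
    set u := ‖fderiv ℝ (mol (ε n) V) q - fderiv ℝ I.V q‖ with hu
    have hu0 : 0 ≤ u := norm_nonneg _
    have hu1 : u ≤ 1 := by linarith [min_le_left (1 : ℝ) (1 / (6 * (2 * B + 1)))]
    have hu2 : u ≤ 1 / (6 * (2 * B + 1)) := by
      linarith [min_le_right (1 : ℝ) (1 / (6 * (2 * B + 1)))]
    rw [le_div_iff₀ (by positivity)] at hu2
    have h8 : 3 * (‖fderiv ℝ (mol (ε n) V) q‖ + ‖fderiv ℝ I.V q‖) * u ≤ 3 * (2 * B + 1) * u :=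
      mul_le_mul_of_nonneg_right (by linarith) hu0
    nlinarith
  · intro q hq hg
    refine (apprE_good I hq (hVe q (hself q (hS hq))) hg).avg one_pos fun δ hδ => ?_
    filter_upwards [hεt0.eventually (gt_mem_nhds hδ)] with n hn y _ z _ k hk
    rw [fderiv_mol (hε0 n) hV, dist_eq_norm]
    refine norm_mol_sub_mol (hε0 n) hDc fun u hu => ?_
    rw [← dist_eq_norm]
    exact hk u (by linarith)
  · intro q hq L hL
    have h1 : HasFDerivAt (fderiv ℝ V) L q :=
      hL.congr_of_eventuallyEq ((hVe q (hself q (hS hq))).fderiv (𝕜 := ℝ))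
    have h2 := (tendsto_fderiv_mol hDc h1).comp hεt
    refine h2.congr fun n => ?_
    simp only [Function.comp_apply, fderiv_mol (hε0 n) hV]
  · intro δ hδ
    filter_upwards [hεt0.eventually (gt_mem_nhds hδ)] with n hn q hq b Y k hb hk
    refine apprE_sec hV.continuous (hε0 n) q b Y fun z hz => ?_
    have hz' : dist z q ≤ ε n := hz
    have h0 : z ∈ cthickening (3 * τ) X.S := hmem q (hS hq) z (by linarith [hετ n])
    have h1 : z + b ∈ cthickening (3 * τ) X.S := hmem q (hS hq) _ (by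
      have := dist_triangle (z + b) z q
      rw [dist_eq_norm (z + b) z, add_sub_cancel_left] at this
      linarith [hετ n])
    have h2 : z - b ∈ cthickening (3 * τ) X.S := hmem q (hS hq) _ (by
      have := dist_triangle (z - b) z q
      rw [dist_eq_norm (z - b) z, sub_sub_cancel_left, norm_neg] at this
      linarith [hετ n])
    rw [hE _ h0, hE _ h1, hE _ h2]
    exact hk z (show dist z q < δ by linarith)

theorem Iso.exists_appr {X : Surf} (I : Iso X) : Nonempty (Appr I) :=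
  ⟨I.exists_mo.choose⟩

end Pool.Agent.Bor
end
end

-- part Pool.Agent.P.MP_26ecb7_gt.Fin
section

noncomputable section
open Set Filter Topology MeasureTheory Metric
open scoped RealInnerProductSpace ContDiff ENNReal

namespace Pool.Agent.Bor

variable {X : Surf} {I : Iso X}

theorem fin_ab_nonneg (B : Fin 2 → Fin 2 → ℝ) : 0 ≤ ab B := by
  unfold ab
  positivity

theorem fin_ab_cont {B : Fin 2 → Fin 2 → P → ℝ} (h : ∀ i j, Continuous (B i j)) :
    Continuous fun x => ab (fun i j => B i j x) := by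
  unfold ab
  exact (((h 0 0).abs.add (h 0 1).abs).add (h 1 0).abs).add (h 1 1).abs

theorem fin_small {χ : P → ℝ} {g : ℕ → P → ℝ} {K : Set P} (hK : IsCompact K) {c : ℝ} (hc : 0 < c)
    (hχ : ∀ x, 0 ≤ χ x) (hcK : ∀ x ∈ K, c ≤ χ x) (hg : ∀ n, Continuous (g n))
    (hg0 : ∀ n x, 0 ≤ g n x) (hi : ∀ n, Integrable fun x => χ x * g n x)
    (h : Tendsto (fun n => ∫ x, χ x * g n x) atTop (𝓝 0)) :
    Tendsto (fun n => ∫ x in K, g n x) atTop (𝓝 0) := by
  have h2 : Tendsto (fun n => c⁻¹ * ∫ x, χ x * g n x) atTop (𝓝 0) := by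
    simpa using h.const_mul c⁻¹
  refine squeeze_zero (fun n => integral_nonneg (hg0 n)) (fun n => ?_) h2
  rw [le_inv_mul_iff₀ hc, ← integral_const_mul]
  refine le_trans (setIntegral_mono_on ?_ (hi n).integrableOn hK.measurableSet fun x hx =>
    mul_le_mul_of_nonneg_right (hcK x hx) (hg0 n x)) ?_
  · exact ((hg n).continuousOn.integrableOn_compact hK).const_mul c
  · exact setIntegral_le_integral (hi n) (Eventually.of_forall fun x => mul_nonneg (hχ x) (hg0 n x))

theorem Cvx.frame (hI : Cvx I) (y : E) : ∀ q ∈ X.S, ∀ q' ∈ X.S, I.Fr y q = I.Fr y q' := by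
  obtain ⟨A⟩ := I.exists_appr
  obtain ⟨U⟩ := X.exists_pou
  refine X.const_of_chart (f := I.Fr y) fun q hq => ?_
  obtain ⟨a, x, hx, hpos⟩ := U.exists_pos hq
  refine ⟨U.R a, x, hx, ?_⟩
  have hc : Continuous fun z => U.chi a (X.psi (U.R a) z) := (U.sm a).continuous
  have hev : ∀ᶠ z in 𝓝 x, U.chi a q / 2 < U.chi a (X.psi (U.R a) z) :=
    hc.continuousAt.eventually (lt_mem_nhds (by simp only [hx]; linarith))
  obtain ⟨ε, hε, hb⟩ := nhds_basis_closedBall.eventually_iff.1 hev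
  have hg : ∀ n, Continuous fun z =>
      ab (fun i j => sf (A.w (U.R a) n) i j z - sf (X.psi (U.R a)) i j z) := fun n =>
    fin_ab_cont fun i j => ((A.imm_w (U.R a) n).sm_sf i j).continuous.sub
      ((X.imm_psi (U.R a)).sm_sf i j).continuous
  have ht := fin_small (isCompact_closedBall x ε) (half_pos hpos) (fun z => U.nonneg a _)
    (fun z hz => (hb hz).le) hg (fun n z => fin_ab_nonneg _) (fun n => U.integrable a (hg n))
    (U.sf_L1 A hI a)
  rw [closedBall_eq_sqr] at ht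
  have hk := A.frame_const (U.R a) (by linarith : 0 < 2 * ε) ht y
  rw [← closedBall_eq_sqr] at hk
  filter_upwards [closedBall_mem_nhds x hε] with z hz
  rw [hk z hz x (mem_closedBall_self hε.le), hx]

/-- the frame map as a linear map -/
def Iso.finL (I : Iso X) (q : E) : E →L[ℝ] E :=
  (fderiv ℝ I.v q).comp (ContinuousLinearMap.id ℝ E - (innerSL ℝ (X.nu q)).smulRight (X.nu q))
    + (innerSL ℝ (X.nu q)).smulRight (I.N q)

theorem Iso.finL_apply (I : Iso X) (q y : E) : I.finL q y = I.Fr y q := by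
  unfold Iso.finL Iso.Fr
  rw [real_inner_comm (X.nu q) y]
  rfl

theorem Iso.fin_norm (I : Iso X) {q : E} (hq : q ∈ X.S) (y : E) : ‖I.Fr y q‖ = ‖y‖ := by
  have hn := X.nu_unit q hq
  have ht : ⟪X.nu q, y - ⟪y, X.nu q⟫ • X.nu q⟫ = 0 := by
    rw [inner_sub_right, real_inner_smul_right, real_inner_self_eq_norm_sq, hn, real_inner_comm]
    ring
  have h1 := I.iso q hq _ ht
  have h2 := I.N_orth (X.ne_o hq) (y - ⟪y, X.nu q⟫ • X.nu q)
  rw [I.fderiv_V_tang hq ht] at h2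
  have h3 : ‖I.Fr y q‖ ^ 2 = ‖y - ⟪y, X.nu q⟫ • X.nu q‖ ^ 2 + ⟪y, X.nu q⟫ ^ 2 := by
    unfold Iso.Fr
    rw [norm_add_sq_real, h1, real_inner_smul_right, real_inner_comm (I.N q), h2, norm_smul,
      I.norm_N (X.ne_o hq), Real.norm_eq_abs, mul_one, sq_abs]
    ring
  have h4 : ‖y - ⟪y, X.nu q⟫ • X.nu q‖ ^ 2 + ⟪y, X.nu q⟫ ^ 2 = ‖y‖ ^ 2 := by
    rw [norm_sub_sq_real, real_inner_smul_right, norm_smul, hn, Real.norm_eq_abs, mul_one, sq_abs]
    ring
  exact (pow_left_inj₀ (norm_nonneg _) (norm_nonneg _) two_ne_zero).1 (h3.trans h4)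

theorem Iso.fin_tang (I : Iso X) {q a : E} (ha : ⟪X.nu q, a⟫ = 0) :
    I.Fr a q = fderiv ℝ I.v q a := by
  unfold Iso.Fr
  rw [real_inner_comm (X.nu q) a, ha]
  simp

theorem Iso.rigid_of_frame (I : Iso X) (h : ∀ y, ∀ q ∈ X.S, ∀ q' ∈ X.S, I.Fr y q = I.Fr y q') :
    ∃ A : E ≃ᵢ E, ∀ q ∈ X.S, I.v q = A q := by
  obtain ⟨q0, hq0⟩ := X.conn.nonempty
  let L : E →ₗᵢ[ℝ] E := ⟨(I.finL q0 : E →ₗ[ℝ] E), fun y =>
    (congrArg norm (I.finL_apply q0 y)).trans (I.fin_norm hq0 y)⟩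
  have hc : ∀ q ∈ X.S, ∀ q' ∈ X.S, I.v q - I.finL q0 q = I.v q' - I.finL q0 q' := by
    refine X.const_of_chart (f := fun q => I.v q - I.finL q0 q) fun q hq => ?_
    obtain ⟨R, hR⟩ := X.exists_chart hq
    refine ⟨R, 0, hR, Eventually.of_forall fun z => ?_⟩
    have d1 : Differentiable ℝ (I.w R) := (I.w_c1 R).differentiable (by simp)
    have d2 : Differentiable ℝ (X.psi R) := (X.sm_psi R).differentiable (by simp)
    have hd : ∀ x, HasFDerivAt (fun x => I.w R x - I.finL q0 (X.psi R x))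
        (fderiv ℝ (I.w R) x - (I.finL q0).comp (fderiv ℝ (X.psi R) x)) x := fun x =>
      (d1 x).hasFDerivAt.sub ((I.finL q0).hasFDerivAt.comp x (d2 x).hasFDerivAt)
    have hp : ∀ i x, pd i (I.w R) x = I.finL q0 (pd i (X.psi R) x) := fun i x => by
      rw [I.pd_w, I.fderiv_V_tang (X.psi_mem R x) (X.tang_psi R i x), I.finL_apply,
        h _ q0 hq0 _ (X.psi_mem R x), I.fin_tang (X.tang_psi R i x)]
    have hz : ∀ x, fderiv ℝ (fun x => I.w R x - I.finL q0 (X.psi R x)) x = 0 := fun x => by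
      rw [(hd x).fderiv]
      refine ContinuousLinearMap.ext fun u => ?_
      change fderiv ℝ (I.w R) x u - I.finL q0 (fderiv ℝ (X.psi R) x u) = 0
      rw [fderiv_eq_pd, fderiv_eq_pd, map_add, map_smul, map_smul, hp, hp, sub_self]
    have hk := is_const_of_fderiv_eq_zero (fun x => (hd x).differentiableAt) hz z 0
    rw [← hR]
    exact hk
  refine ⟨(L.toLinearIsometryEquiv rfl).toIsometryEquiv.trans
    (IsometryEquiv.addRight (I.v q0 - I.finL q0 q0)), fun q hq => ?_⟩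
  change I.v q = I.finL q0 q + (I.v q0 - I.finL q0 q0)
  rw [← hc q hq q0 hq0]
  abel

end Pool.Agent.Bor
end
end
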