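import Pool.Agent.K.MP_26ecb7_gt.C0

-- part Pool.Agent.P.MP_26ecb7_gt.BesA
section

noncomputable section
open Set Filter Topology MeasureTheory Metric
open scoped RealInnerProductSpace ContDiff ENNReal NNReal

namespace Pool.Agent.Bor

theorem besa_int {F : E → ℝ} (hF : Continuous F) (ε : ℝ) (x : E) :
    IntegrableOn (fun u => F (x - ε • u)) (closedBall (0 : E) 1) volume :=
  (hF.comp (by fun_prop : Continuous fun u : E => x - ε • u)).continuousOn.integrableOn_compact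
    (isCompact_closedBall 0 1)

theorem besa_mem {ε : ℝ} (hε : 0 < ε) (x : E) {u : E} (hu : u ∈ closedBall (0 : E) 1) :
    x - ε • u ∈ closedBall x ε := by
  rw [mem_closedBall, dist_eq_norm, sub_sub_cancel_left, norm_neg, norm_smul,
    Real.norm_of_nonneg hε.le]
  exact mul_le_of_le_one_right hε.le (mem_closedBall_zero_iff.1 hu)

theorem av_nonneg {ε : ℝ} {F : E → ℝ} (hF : ∀ z, 0 ≤ F z) (x : E) : 0 ≤ av ε F x :=
  integral_nonneg fun _ => hF _

theorem av_mono {ε : ℝ} (hε : 0 < ε) {F G : E → ℝ} (hF : Continuous F) (hG : Continuous G) {x : E}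
    (h : ∀ z ∈ closedBall x ε, F z ≤ G z) : av ε F x ≤ av ε G x :=
  setIntegral_mono_on (besa_int hF ε x) (besa_int hG ε x) measurableSet_closedBall
    fun _ hu => h _ (besa_mem hε x hu)

theorem av_mul (ε t : ℝ) (F : E → ℝ) (x : E) : av ε (fun z => t * F z) x = t * av ε F x :=
  integral_const_mul _ _

theorem av_const (ε t : ℝ) (x : E) :
    av ε (fun _ => t) x = volume.real (closedBall (0 : E) 1) * t := by
  unfold av
  rw [setIntegral_const, smul_eq_mul]

theorem a3_nonneg {Y : Type} [NormedAddCommGroup Y] (H : E → Y) (ε : ℝ) (x : E) : 0 ≤ a3 H ε x :=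
  av_nonneg (fun _ => by positivity) x

theorem continuous_a3 {Y : Type} [NormedAddCommGroup Y] {H : E → Y} (hH : Continuous H) (ε : ℝ) :
    Continuous (a3 H ε) := by
  have h : Continuous (Function.uncurry fun (x u : E) => ‖H (x - ε • u) - H x‖ ^ 3) := by
    unfold Function.uncurry
    fun_prop
  exact continuous_parametric_integral_of_continuous h (isCompact_closedBall 0 1)

/-- change of variables -/
theorem ofReal_av {ε : ℝ} (hε : 0 < ε) {F : E → ℝ} (hF : Continuous F) (h0 : ∀ z, 0 ≤ F z) (x : E) :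
    ENNReal.ofReal (ε ^ 3 * av ε F x) = ∫⁻ z in closedBall x ε, ENNReal.ofReal (F z) := by
  have hi : IntegrableOn F (closedBall x ε) volume :=
    hF.continuousOn.integrableOn_compact (isCompact_closedBall x ε)
  rw [← ofReal_integral_eq_lintegral_ofReal hi (ae_of_all _ h0)]
  congr 1
  set g : E → ℝ := (closedBall x ε).indicator F with hg
  have h1 : ∀ u : E, (closedBall (0 : E) 1).indicator (fun u => F (x - ε • u)) u
      = g (x - ε • u) := by
    intro u
    by_cases hu : u ∈ closedBall (0 : E) 1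
    · rw [indicator_of_mem hu, hg, indicator_of_mem (besa_mem hε x hu)]
    · rw [indicator_of_notMem hu, hg, indicator_of_notMem]
      intro h
      apply hu
      rw [mem_closedBall, dist_eq_norm, sub_sub_cancel_left, norm_neg, norm_smul,
        Real.norm_of_nonneg hε.le] at h
      rw [mem_closedBall_zero_iff]
      exact le_of_mul_le_mul_left (by rwa [mul_one]) hε
  have h2 := Measure.integral_comp_smul (volume : Measure E) (fun t => g (x - t)) ε
  have h3 : ∫ t, g (x - t) = ∫ t, g t := integral_sub_left_eq_self g volume x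
  have h4 : Module.finrank ℝ E = 3 := by simp
  unfold av
  rw [← integral_indicator measurableSet_closedBall, ← integral_indicator measurableSet_closedBall]
  simp only [h1]
  rw [h2, h3, h4, abs_of_pos (by positivity), smul_eq_mul, ← mul_assoc,
    mul_inv_cancel₀ (by positivity), one_mul]

theorem besa_le {Z : Type} [NormedAddCommGroup Z] [NormedSpace ℝ Z] {K : E → Z} {F : E → ℝ}
    (hF : IntegrableOn F (closedBall (0 : E) 1) volume) {c : ℝ}
    (h1 : ∀ u ∈ closedBall (0 : E) 1, ‖K u‖ ≤ c * F u)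
    (h2 : ∀ u, u ∉ closedBall (0 : E) 1 → K u = 0) :
    ‖∫ u, K u‖ ≤ c * ∫ u in closedBall (0 : E) 1, F u := by
  rw [← setIntegral_eq_integral_of_forall_compl_eq_zero h2, ← integral_const_mul]
  refine norm_integral_le_of_norm_le (hF.const_mul c) ?_
  exact (ae_restrict_iff' measurableSet_closedBall).2 (ae_of_all _ h1)

theorem besa_one {c : ℝ} (hc : ∀ u, ‖fderiv ℝ eta u‖ ≤ c) {Y : Type} [NormedAddCommGroup Y]
    [NormedSpace ℝ Y] {G : E → Y} (hG : Continuous G) (x : E) :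
    ‖fderiv ℝ (mol 1 G) x‖ ≤ c * av 1 (fun z => ‖G z‖) x := by
  have h1 : mol 1 G = convolution eta G (ContinuousLinearMap.lsmul ℝ ℝ) volume := by
    funext z
    simp only [mol, one_smul]
    rfl
  rw [h1, (mol_eta_cs.hasFDerivAt_convolution_left (ContinuousLinearMap.lsmul ℝ ℝ) mol_eta_c1
    hG.locallyIntegrable x).fderiv, convolution_def]
  refine besa_le (besa_int hG.norm 1 x) (fun u _ => ?_) fun u hu => ?_
  · have hc0 : 0 ≤ c := (norm_nonneg _).trans (hc u)
    refine ContinuousLinearMap.opNorm_le_bound _ (by positivity) fun b => ?_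
    rw [ContinuousLinearMap.precompL_apply, ContinuousLinearMap.lsmul_apply, norm_smul, one_smul]
    calc ‖fderiv ℝ eta u b‖ * ‖G (x - u)‖ ≤ c * ‖b‖ * ‖G (x - u)‖ :=
          mul_le_mul_of_nonneg_right (((fderiv ℝ eta u).le_opNorm b).trans
            (mul_le_mul_of_nonneg_right (hc u) (norm_nonneg _))) (norm_nonneg _)
      _ = _ := by ring
  · rw [mol_eta_zero (by simpa using hu)]
    simp

theorem besa_eps {c : ℝ} (hc : ∀ u, ‖fderiv ℝ eta u‖ ≤ c) {Y : Type} [NormedAddCommGroup Y]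
    [NormedSpace ℝ Y] {ε : ℝ} (hε : 0 < ε) {G : E → Y} (hG : Continuous G) (x : E) :
    ‖fderiv ℝ (mol ε G) x‖ ≤ c * av ε (fun z => ‖G z‖) x / ε := by
  have h1 : mol ε G = fun z => mol 1 (fun w => G (ε • w)) (ε⁻¹ • z) := by
    funext z
    simp only [mol, one_smul, smul_sub, smul_inv_smul₀ hε.ne']
  have h2 := besa_one hc (G := fun w => G (ε • w)) (hG.comp (continuous_const_smul ε)) (ε⁻¹ • x)
  have h3 : av 1 (fun z => ‖G (ε • z)‖) (ε⁻¹ • x) = av ε (fun z => ‖G z‖) x := by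
    simp only [av, one_smul, smul_sub, smul_inv_smul₀ hε.ne']
  rw [h3] at h2
  rw [h1, fderiv_comp_smul, norm_smul, Real.norm_of_nonneg (inv_nonneg.2 hε.le), div_eq_inv_mul]
  exact mul_le_mul_of_nonneg_left h2 (inv_nonneg.2 hε.le)

/-- averaged bounds for a mollification and its gradient -/
theorem avg_bound : ∃ c : ℝ, 0 ≤ c ∧ ∀ (Y : Type) [NormedAddCommGroup Y] [NormedSpace ℝ Y]
    [CompleteSpace Y] (ε : ℝ) (H : E → Y) (x : E) (y : Y), 0 < ε → Continuous H →
    ‖mol ε H x - y‖ ≤ c * av ε (fun z => ‖H z - y‖) x ∧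
      ‖fderiv ℝ (mol ε H) x‖ ≤ c * av ε (fun z => ‖H z - y‖) x / ε := by
  obtain ⟨c1, h1⟩ := mol0_cont.bounded_above_of_compact_support mol0_cs
  obtain ⟨c2, h2⟩ := (mol_eta_c1.continuous_fderiv one_ne_zero).bounded_above_of_compact_support
    (mol_eta_cs.fderiv ℝ)
  have hc : 0 ≤ max c1 c2 := ((norm_nonneg _).trans (h1 0)).trans (le_max_left _ _)
  refine ⟨max c1 c2, hc, fun Y _ _ _ ε H x y hε hH => ?_⟩
  have hG : Continuous fun z => H z - y := hH.sub continuous_const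
  have h3 : mol ε (fun z => H z - y) = fun z => mol ε H z - y := by
    funext z
    rw [mol_sub hH continuous_const, mol_const]
  constructor
  · rw [← congrFun h3 x]
    refine besa_le (besa_int hG.norm ε x) (fun u _ => ?_) fun u hu => ?_
    · rw [norm_smul]
      exact mul_le_mul_of_nonneg_right ((h1 u).trans (le_max_left _ _)) (norm_nonneg _)
    · have h4 : eta u = 0 := by
        by_contra h
        exact hu (mem_closedBall_zero_iff.2 (mol0_norm_lt h).le)
      rw [h4, zero_smul]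
  · have h4 := besa_eps (fun u => (h2 u).trans (le_max_right c1 c2)) hε hG x
    rwa [h3, fderiv_sub_const] at h4

theorem besa_add (ε : ℝ) {F G : E → ℝ} (hF : Continuous F) (hG : Continuous G) (x : E) :
    av ε (fun z => F z + G z) x = av ε F x + av ε G x :=
  integral_add (besa_int hF ε x) (besa_int hG ε x)

theorem besa_mono (ε : ℝ) {F G : E → ℝ} (hF : Continuous F) (hG : Continuous G) (x : E)
    (h : ∀ z, F z ≤ G z) : av ε F x ≤ av ε G x :=
  integral_mono (besa_int hF ε x) (besa_int hG ε x) fun _ => h _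

theorem besa_pow (ε : ℝ) {F : E → ℝ} (x : E) {l : ℝ} (hF : Continuous F) (h0 : ∀ z, 0 ≤ F z)
    (hl : 0 < l) (h : av ε (fun z => F z ^ 3) x ≤ l ^ 3) :
    av ε F x ≤ (volume.real (closedBall (0 : E) 1) + 1) * l ∧
      av ε (fun z => F z ^ 2) x ≤ (volume.real (closedBall (0 : E) 1) + 1) * l ^ 2 := by
  have key : ∀ (G : E → ℝ) (a b : ℝ), Continuous G → 0 ≤ b → (∀ z, G z ≤ a + b * F z ^ 3) →
      av ε G x ≤ volume.real (closedBall (0 : E) 1) * a + b * l ^ 3 := by
    intro G a b hG hb hz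
    have h1 := besa_mono ε hG (G := fun z => a + b * F z ^ 3) (by fun_prop) x hz
    rw [besa_add ε continuous_const (by fun_prop), av_const, av_mul] at h1
    exact h1.trans (add_le_add_right (mul_le_mul_of_nonneg_left h hb) _)
  constructor
  · refine (key F l (l ^ 2)⁻¹ hF (by positivity) fun z => ?_).trans (le_of_eq (by field_simp))
    have hz := h0 z
    rcases le_total (F z) l with h1 | h1
    · exact h1.trans (le_add_of_nonneg_right (by positivity))
    · have h2 : F z ≤ (l ^ 2)⁻¹ * F z ^ 3 := by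
        rw [le_inv_mul_iff₀ (by positivity)]
        calc l ^ 2 * F z ≤ F z ^ 2 * F z :=
              mul_le_mul_of_nonneg_right (pow_le_pow_left₀ hl.le h1 2) hz
          _ = F z ^ 3 := by ring
      linarith
  · refine (key (fun z => F z ^ 2) (l ^ 2) l⁻¹ (by fun_prop) (by positivity) fun z => ?_).trans
      (le_of_eq (by field_simp))
    have hz := h0 z
    rcases le_total (F z) l with h1 | h1
    · exact (pow_le_pow_left₀ hz h1 2).trans (le_add_of_nonneg_right (by positivity))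
    · have h2 : F z ^ 2 ≤ l⁻¹ * F z ^ 3 := by
        rw [le_inv_mul_iff₀ hl]
        calc l * F z ^ 2 ≤ F z * F z ^ 2 := mul_le_mul_of_nonneg_right h1 (by positivity)
          _ = F z ^ 3 := by ring
      have h3 : 0 ≤ l ^ 2 := by positivity
      linarith

/-- lower moments are controlled by the third -/
theorem av_pow : ∃ c : ℝ, 0 ≤ c ∧ ∀ (ε : ℝ) (F : E → ℝ) (x : E) (l : ℝ), Continuous F →
    (∀ z, 0 ≤ F z) → 0 ≤ l → av ε (fun z => F z ^ 3) x ≤ l ^ 3 →
    av ε F x ≤ c * l ∧ av ε (fun z => F z ^ 2) x ≤ c * l ^ 2 := by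
  refine ⟨volume.real (closedBall (0 : E) 1) + 1, by positivity, fun ε F x l hF h0 hl h => ?_⟩
  have h1 : ∀ᶠ t in 𝓝[>] l, av ε F x ≤ (volume.real (closedBall (0 : E) 1) + 1) * t ∧
      av ε (fun z => F z ^ 2) x ≤ (volume.real (closedBall (0 : E) 1) + 1) * t ^ 2 := by
    filter_upwards [self_mem_nhdsWithin] with t ht
    exact besa_pow ε x hF h0 (hl.trans_lt ht) (h.trans (pow_le_pow_left₀ hl (le_of_lt ht) 3))
  have c1 : Continuous fun t : ℝ => (volume.real (closedBall (0 : E) 1) + 1) * t := by fun_prop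
  have c2 : Continuous fun t : ℝ => (volume.real (closedBall (0 : E) 1) + 1) * t ^ 2 := by
    fun_prop
  exact ⟨ge_of_tendsto ((c1.tendsto l).mono_left nhdsWithin_le_nhds) (h1.mono fun _ h => h.1),
    ge_of_tendsto ((c2.tendsto l).mono_left nhdsWithin_le_nhds) (h1.mono fun _ h => h.2)⟩

end Pool.Agent.Bor
end
end

-- part Pool.Agent.P.MP_26ecb7_gt.BesB
section

noncomputable section
open Set Filter Topology MeasureTheory Metric
open scoped RealInnerProductSpace ContDiff ENNReal NNReal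

namespace Pool.Agent.Bor

theorem besb_av {Y : Type} [NormedAddCommGroup Y] {ε k s : ℝ} (hε : 0 < ε) {H : E → Y} {y : Y}
    {F : E → ℝ} {x : E} (hH : Continuous H) (hF : Continuous F) (hk : 0 ≤ k)
    (h : ∀ z, ‖H z - y‖ ≤ k * F z) (hs : av ε F x ≤ s) :
    av ε (fun z => ‖H z - y‖) x ≤ k * s := by
  have h1 : av ε (fun z => ‖H z - y‖) x ≤ av ε (fun z => k * F z) x :=
    av_mono hε (hH.sub continuous_const).norm (continuous_const.mul hF) fun z _ => h z
  rw [av_mul] at h1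
  exact h1.trans (mul_le_mul_of_nonneg_left hs hk)

/-- averaged commutator estimate -/
theorem comm_avg : ∃ c : ℝ, 0 ≤ c ∧ ∀ (ε : ℝ) (f g : E → E) (x : E) (F : E → ℝ) (k m l : ℝ),
    0 < ε → Continuous f → Continuous g → Continuous F → (∀ z, 0 ≤ F z) → 0 ≤ k → 0 ≤ m → 0 ≤ l →
    (∀ z, ‖f z - f x‖ ≤ k * F z) → (∀ z, ‖g z - g x‖ ≤ m * F z) →
    av ε (fun z => F z ^ 3) x ≤ l ^ 3 →
    ‖fderiv ℝ (fun z => ⟪mol ε f z, mol ε g z⟫) x - fderiv ℝ (mol ε (fun z => ⟪f z, g z⟫)) x‖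
      ≤ c * k * m * l ^ 2 / ε := by
  obtain ⟨c, hc, hb⟩ := avg_bound
  obtain ⟨d, hd, hp⟩ := av_pow
  refine ⟨2 * (c * d) ^ 2 + c * d, by positivity,
    fun ε f g x F k m l hε hf hg hF h0 hk0 hm0 hl0 hk hm h3 => ?_⟩
  obtain ⟨p1, p2⟩ := hp ε F x l hF h0 hl0 h3
  have c0 : Continuous fun z => ⟪f z - f x, g z - g x⟫ :=
    (hf.sub continuous_const).inner (hg.sub continuous_const)
  have dF : DifferentiableAt ℝ (mol ε f) x := (mol_smooth hε hf).differentiable (by simp) x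
  have dG : DifferentiableAt ℝ (mol ε g) x := (mol_smooth hε hg).differentiable (by simp) x
  have dH : DifferentiableAt ℝ (mol ε fun z => ⟪f z - f x, g z - g x⟫) x :=
    (mol_smooth hε c0).differentiable (by simp) x
  have aF := mul_le_mul_of_nonneg_left (besb_av hε hf hF hk0 hk p1) hc
  have aG := mul_le_mul_of_nonneg_left (besb_av hε hg hF hm0 hm p1) hc
  have aH := mul_le_mul_of_nonneg_left (besb_av (y := 0) (k := k * m) (F := fun z => F z ^ 2) hε c0 (hF.pow 2)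
    (by positivity) (fun z => by
      rw [sub_zero]
      refine (norm_inner_le_norm _ _).trans ((mul_le_mul (hk z) (hm z) (norm_nonneg _)
        (mul_nonneg hk0 (h0 z))).trans (le_of_eq ?_))
      ring) p2) hc
  have nF := (hb E ε f x (f x) hε hf).1.trans aF
  have nG := (hb E ε g x (g x) hε hg).1.trans aG
  have bF := (hb E ε f x (f x) hε hf).2.trans (div_le_div_of_nonneg_right aF hε.le)
  have bG := (hb E ε g x (g x) hε hg).2.trans (div_le_div_of_nonneg_right aG hε.le)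
  have bH := (hb ℝ ε _ x 0 hε c0).2.trans (div_le_div_of_nonneg_right aH hε.le)
  have d1 : HasFDerivAt (fun y => ⟪f x, mol ε g y⟫)
      ((innerSL ℝ (f x)).comp (fderiv ℝ (mol ε g) x)) x :=
    (innerSL ℝ (f x)).hasFDerivAt.comp x dG.hasFDerivAt
  have d2 : HasFDerivAt (fun y => ⟪g x, mol ε f y⟫)
      ((innerSL ℝ (g x)).comp (fderiv ℝ (mol ε f) x)) x :=
    (innerSL ℝ (g x)).hasFDerivAt.comp x dF.hasFDerivAt
  have d3 := (((dH.hasFDerivAt.add d1).add d2).sub_const ⟪f x, g x⟫).fderiv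
  have e3 : fderiv ℝ (mol ε (fun z => ⟪f z, g z⟫)) x =
      fderiv ℝ (mol ε fun z => ⟪f z - f x, g z - g x⟫) x
        + (innerSL ℝ (f x)).comp (fderiv ℝ (mol ε g) x)
        + (innerSL ℝ (g x)).comp (fderiv ℝ (mol ε f) x) := by
    rw [comm0_split ε hf hg (f x) (g x)]
    exact d3
  refine ContinuousLinearMap.opNorm_le_bound _ (by positivity) fun a => ?_
  have e4 : (fderiv ℝ (fun z => ⟪mol ε f z, mol ε g z⟫) x
      - fderiv ℝ (mol ε (fun z => ⟪f z, g z⟫)) x) a =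
      ⟪mol ε f x - f x, fderiv ℝ (mol ε g) x a⟫ + ⟪mol ε g x - g x, fderiv ℝ (mol ε f) x a⟫
        - fderiv ℝ (mol ε fun z => ⟪f z - f x, g z - g x⟫) x a := by
    rw [sub_apply, fderiv_inner_apply ℝ dF dG, e3]
    simp only [add_apply, ContinuousLinearMap.comp_apply, innerSL_apply_apply,
      inner_sub_left]
    rw [real_inner_comm (mol ε g x) (fderiv ℝ (mol ε f) x a)]
    ring
  have a0 := norm_nonneg a
  have t1 : ‖⟪mol ε f x - f x, fderiv ℝ (mol ε g) x a⟫‖ ≤
      c * (k * (d * l)) * (c * (m * (d * l)) / ε * ‖a‖) :=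
    (norm_inner_le_norm _ _).trans (mul_le_mul nF
      ((ContinuousLinearMap.le_opNorm _ _).trans (mul_le_mul_of_nonneg_right bG a0))
      (norm_nonneg _) (by positivity))
  have t2 : ‖⟪mol ε g x - g x, fderiv ℝ (mol ε f) x a⟫‖ ≤
      c * (m * (d * l)) * (c * (k * (d * l)) / ε * ‖a‖) :=
    (norm_inner_le_norm _ _).trans (mul_le_mul nG
      ((ContinuousLinearMap.le_opNorm _ _).trans (mul_le_mul_of_nonneg_right bF a0))
      (norm_nonneg _) (by positivity))
  have t3 : ‖fderiv ℝ (mol ε fun z => ⟪f z - f x, g z - g x⟫) x a‖ ≤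
      c * (k * m * (d * l ^ 2)) / ε * ‖a‖ :=
    (ContinuousLinearMap.le_opNorm _ _).trans (mul_le_mul_of_nonneg_right bH a0)
  rw [e4]
  refine ((norm_sub_le _ _).trans (add_le_add ((norm_add_le _ _).trans (add_le_add t1 t2))
    t3)).trans (le_of_eq ?_)
  ring

/-- first order rate for a function that is twice differentiable near a compact set -/
theorem mol_rate {F : Type} [NormedAddCommGroup F] [NormedSpace ℝ F] [CompleteSpace F]
    {Γ : E → F} {G K : Set E} {t : ℝ} (ht : 0 < t) (hK : IsCompact K)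
    (hKG : cthickening t K ⊆ G) (hc : Continuous Γ) (hs : ∀ z ∈ G, ContDiffAt ℝ 2 Γ z) :
    ∃ c : ℝ, 0 ≤ c ∧ ∀ ε, 0 < ε → ε ≤ t → ∀ z ∈ K,
      ‖fderiv ℝ (mol ε Γ) z - fderiv ℝ Γ z‖ ≤ c * ε := by
  obtain ⟨c, hc0, hcb⟩ := exists_grad_bound
  have hK' : IsCompact (cthickening t K) := hK.cthickening
  have hloc : LocallyLipschitzOn (cthickening t K) (fderiv ℝ Γ) := fun y hy => by
    have h1 : ContDiffAt ℝ 1 (fderiv ℝ Γ) y :=
      (hs y (hKG hy)).fderiv_right (m := 1) (by norm_num)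
    obtain ⟨M, s, hs1, hs2⟩ := h1.exists_lipschitzOnWith
    exact ⟨M, s, mem_nhdsWithin_of_mem_nhds hs1, hs2⟩
  obtain ⟨M, hM⟩ := hloc.exists_lipschitzOnWith_of_compact hK'
  refine ⟨c * M, by positivity, fun ε hε0 hεt z hz => ?_⟩
  have hball : closedBall z ε ⊆ cthickening t K :=
    (closedBall_subset_closedBall hεt).trans (closedBall_subset_cthickening hz t)
  set L : E →L[ℝ] F := fderiv ℝ Γ z with hL
  have hA : ∀ w ∈ closedBall z ε, ‖(Γ w - L w) - (Γ z - L z)‖ ≤ M * ε * ε := by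
    intro w hw
    have h1 := (convex_closedBall z ε).norm_image_sub_le_of_norm_fderiv_le' (𝕜 := ℝ) (f := Γ)
      (φ := L) (C := M * ε)
      (fun y hy => (hs y (hKG (hball hy))).differentiableAt (by norm_num))
      (fun y hy => by
        have := hM.dist_le_mul y (hball hy) z (hball (mem_closedBall_self hε0.le))
        rw [dist_eq_norm] at this
        exact this.trans (mul_le_mul_of_nonneg_left (mem_closedBall.1 hy) M.coe_nonneg))
      (mem_closedBall_self hε0.le) hw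
    have h2 : (Γ w - L w) - (Γ z - L z) = Γ w - Γ z - L (w - z) := by
      rw [map_sub]; abel
    rw [h2]
    refine h1.trans (mul_le_mul_of_nonneg_left ?_ (by positivity))
    rw [← dist_eq_norm]; exact mem_closedBall.1 hw
  have hB := hcb F ε (fun w => Γ w - L w) z (Γ z - L z) (M * ε * ε) hε0
    (hc.sub L.continuous) hA
  have hsub : mol ε (fun w => Γ w - L w) = fun x => mol ε Γ x - mol ε (fun w => L w) x := by
    funext x
    exact mol_sub hc L.continuous x
  have hd1 : DifferentiableAt ℝ (mol ε Γ) z :=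
    ((mol_smooth hε0 hc).differentiable (by simp)).differentiableAt
  have hd2 : DifferentiableAt ℝ (mol ε (fun w => L w)) z :=
    ((mol_smooth hε0 L.continuous).differentiable (by simp)).differentiableAt
  have hL2 : fderiv ℝ (mol ε (fun w => L w)) z = L := by
    have h3 : fderiv ℝ (fun w => L w) = fun _ => L := by
      funext w
      exact L.fderiv
    rw [fderiv_mol hε0 (H := fun w => L w) L.contDiff, h3, mol_const]
  rw [hsub, fderiv_fun_sub hd1 hd2, hL2] at hB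
  refine hB.trans (le_of_eq ?_)
  field_simp

end Pool.Agent.Bor
end
end

-- part Pool.Agent.P.MP_26ecb7_gt.BesC
section

noncomputable section
open Set Filter Topology MeasureTheory Metric
open scoped RealInnerProductSpace ContDiff ENNReal NNReal

namespace Pool.Agent.Bor

theorem besc_key {V u : E → E} {G K : Set E} {t : ℝ} (ht : 0 < t) (hK : IsCompact K)
    (hG : IsOpen G) (hKG : cthickening t K ⊆ G)
    (hV : ContDiff ℝ 1 V) (hu : ∀ z ∈ G, ContDiffAt ℝ ∞ u z)
    (iso : ∀ z ∈ G, ∀ b c, ⟪fderiv ℝ V z b, fderiv ℝ V z c⟫ = ⟪fderiv ℝ u z b, fderiv ℝ u z c⟫) :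
    ∃ C : ℝ, 0 ≤ C ∧ ∀ ε, 0 < ε → ε ≤ t → ∀ z ∈ K, ∀ l : ℝ, 0 ≤ l →
      a3 (fderiv ℝ V) ε z ≤ l ^ 3 → ∀ b c d,
      |fderiv ℝ (fun y => ⟪fderiv ℝ (mol ε V) y b, fderiv ℝ (mol ε V) y c⟫) z d
        - fderiv ℝ (fun y => ⟪fderiv ℝ u y b, fderiv ℝ u y c⟫) z d|
        ≤ C * (l ^ 2 / ε + ε) * ‖b‖ * ‖c‖ * ‖d‖ := by
  obtain ⟨c0, hc0, hcb⟩ := comm_avg
  have hDV : Continuous (fderiv ℝ V) := hV.continuous_fderiv one_ne_zero
  have hΓc : Continuous (comm_gam V) := by
    rw [continuous_iff_continuousAt]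
    intro z
    have h0 : ContDiffAt ℝ 0 (fderiv ℝ V) z := (contDiff_zero.2 hDV).contDiffAt
    exact (comm_gam_cd h0).continuousAt
  have hΓe : ∀ z ∈ G, comm_gam V =ᶠ[𝓝 z] comm_gam u := by
    intro z hz
    filter_upwards [hG.mem_nhds hz] with y hy
    funext p
    exact iso y hy _ _
  have hΓs : ∀ z ∈ G, ContDiffAt ℝ 2 (comm_gam V) z := by
    intro z hz
    have h1 : ContDiffAt ℝ 2 (fderiv ℝ u) z :=
      ((hu z hz).fderiv_right (m := ∞) (by simp)).of_le comm0_two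
    exact (comm_gam_cd h1).congr_of_eventuallyEq (hΓe z hz)
  obtain ⟨c1, hc1, hU⟩ := mol_rate ht hK hKG hΓc hΓs
  refine ⟨c0 + 9 * c1, by positivity, fun ε hε0 hεt z hz l hl ha b c d => ?_⟩
  have hzG : z ∈ G := hKG (self_subset_cthickening K hz)
  have hcf : ∀ b : E, Continuous (fun w => fderiv ℝ V w b) := fun b =>
    hDV.clm_apply continuous_const
  have hD : ∀ b y : E, fderiv ℝ (mol ε V) y b = mol ε (fun w => fderiv ℝ V w b) y := by
    intro b y
    rw [fderiv_mol hε0 hV]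
    exact mol_clm (ContinuousLinearMap.apply ℝ E b) hDV y
  have hbd : ∀ b w : E,
      ‖fderiv ℝ V w b - fderiv ℝ V z b‖ ≤ ‖b‖ * ‖fderiv ℝ V w - fderiv ℝ V z‖ := by
    intro b w
    rw [← sub_apply, mul_comm]
    exact ContinuousLinearMap.le_opNorm _ _
  have h1 := hcb ε (fun w => fderiv ℝ V w b) (fun w => fderiv ℝ V w c) z
    (fun w => ‖fderiv ℝ V w - fderiv ℝ V z‖) _ _ l hε0 (hcf b) (hcf c)
    (hDV.sub continuous_const).norm (fun _ => norm_nonneg _) (norm_nonneg b) (norm_nonneg c) hl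
    (hbd b) (hbd c) ha
  have h2 : mol ε (fun w => ⟪fderiv ℝ V w b, fderiv ℝ V w c⟫)
      = fun y => comm_ev b c (mol ε (comm_gam V) y) := by
    funext y
    have h3 := mol_clm (ε := ε) (comm_ev b c) hΓc y
    simp only [comm_gam_apply] at h3
    exact h3.symm
  have hdm : DifferentiableAt ℝ (mol ε (comm_gam V)) z :=
    ((mol_smooth hε0 hΓc).differentiable (by simp)).differentiableAt
  have h4 : fderiv ℝ (mol ε (fun w => ⟪fderiv ℝ V w b, fderiv ℝ V w c⟫)) z d
      = comm_ev b c (fderiv ℝ (mol ε (comm_gam V)) z d) := by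
    rw [h2]; exact comm_fd_apply hdm b c d
  have h5 : fderiv ℝ (fun y => ⟪fderiv ℝ u y b, fderiv ℝ u y c⟫) z d
      = comm_ev b c (fderiv ℝ (comm_gam V) z d) := by
    rw [← comm_fd_apply ((hΓs z hzG).differentiableAt two_ne_zero) b c d]
    have h6 : (fun y => ⟪fderiv ℝ u y b, fderiv ℝ u y c⟫)
        =ᶠ[𝓝 z] fun y => comm_ev b c (comm_gam V y) := by
      filter_upwards [hG.mem_nhds hzG] with y hy
      rw [comm_gam_apply, iso y hy]
    rw [h6.fderiv_eq]
  have h7 : (fun y => ⟪fderiv ℝ (mol ε V) y b, fderiv ℝ (mol ε V) y c⟫)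
      = fun y => ⟪mol ε (fun w => fderiv ℝ V w b) y, mol ε (fun w => fderiv ℝ V w c) y⟫ := by
    funext y
    rw [hD, hD]
  rw [h7, h5]
  set X := fderiv ℝ (fun y => ⟪mol ε (fun w => fderiv ℝ V w b) y,
    mol ε (fun w => fderiv ℝ V w c) y⟫) z with hX
  set Y := fderiv ℝ (mol ε (fun w => ⟪fderiv ℝ V w b, fderiv ℝ V w c⟫)) z with hY
  have hq : 0 ≤ l ^ 2 / ε := by positivity
  have h8 : |X d - Y d| ≤ c0 * (l ^ 2 / ε + ε) * ‖b‖ * ‖c‖ * ‖d‖ := by
    rw [← sub_apply, ← Real.norm_eq_abs]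
    refine (ContinuousLinearMap.le_opNorm _ _).trans (mul_le_mul_of_nonneg_right ?_ (norm_nonneg _))
    refine h1.trans ?_
    calc c0 * ‖b‖ * ‖c‖ * l ^ 2 / ε = c0 * (l ^ 2 / ε) * ‖b‖ * ‖c‖ := by ring
      _ ≤ c0 * (l ^ 2 / ε + ε) * ‖b‖ * ‖c‖ := by gcongr; linarith
  have h9 : |Y d - comm_ev b c (fderiv ℝ (comm_gam V) z d)|
      ≤ 9 * c1 * (l ^ 2 / ε + ε) * ‖b‖ * ‖c‖ * ‖d‖ := by
    rw [h4, ← map_sub, ← sub_apply]
    set T := fderiv ℝ (mol ε (comm_gam V)) z - fderiv ℝ (comm_gam V) z with hT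
    have h12 : ‖T d‖ ≤ c1 * ε * ‖d‖ :=
      (T.le_opNorm d).trans (mul_le_mul_of_nonneg_right (hU ε hε0 hεt z hz) (norm_nonneg _))
    calc |comm_ev b c (T d)| ≤ 9 * ‖T d‖ * ‖b‖ * ‖c‖ := comm_ev_le b c _
      _ ≤ 9 * (c1 * ε * ‖d‖) * ‖b‖ * ‖c‖ := by gcongr
      _ ≤ 9 * (c1 * (l ^ 2 / ε + ε) * ‖d‖) * ‖b‖ * ‖c‖ := by gcongr; linarith
      _ = 9 * c1 * (l ^ 2 / ε + ε) * ‖b‖ * ‖c‖ * ‖d‖ := by ring
  calc |X d - comm_ev b c (fderiv ℝ (comm_gam V) z d)|
      ≤ |X d - Y d| + |Y d - comm_ev b c (fderiv ℝ (comm_gam V) z d)| := abs_sub_le _ _ _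
    _ ≤ c0 * (l ^ 2 / ε + ε) * ‖b‖ * ‖c‖ * ‖d‖ + 9 * c1 * (l ^ 2 / ε + ε) * ‖b‖ * ‖c‖ * ‖d‖ :=
        add_le_add h8 h9
    _ = (c0 + 9 * c1) * (l ^ 2 / ε + ε) * ‖b‖ * ‖c‖ * ‖d‖ := by ring

/-- rate of convergence of the Christoffel expressions in terms of the third moment -/
theorem chr_rate {V u : E → E} {G K : Set E} {t : ℝ} (ht : 0 < t) (hK : IsCompact K)
    (hG : IsOpen G) (hKG : cthickening t K ⊆ G)
    (hV : ContDiff ℝ 1 V) (hu : ∀ z ∈ G, ContDiffAt ℝ ∞ u z)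
    (iso : ∀ z ∈ G, ∀ b c, ⟪fderiv ℝ V z b, fderiv ℝ V z c⟫ = ⟪fderiv ℝ u z b, fderiv ℝ u z c⟫) :
    ∃ C : ℝ, 0 ≤ C ∧ ∀ ε, 0 < ε → ε ≤ t → ∀ z ∈ K, ∀ l : ℝ, 0 ≤ l →
      a3 (fderiv ℝ V) ε z ≤ l ^ 3 → ∀ b c d,
        |chr (mol ε V) z b c d - chr u z b c d| ≤ C * (l ^ 2 / ε + ε) * ‖b‖ * ‖c‖ * ‖d‖ := by
  obtain ⟨C, hC, hk⟩ := besc_key ht hK hG hKG hV hu iso
  refine ⟨2 * C, by positivity, fun ε hε0 hεt z hz l hl ha b c d => ?_⟩
  have hzG : z ∈ G := hKG (self_subset_cthickening K hz)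
  have e1 := chr_eq ((mol_smooth hε0 hV.continuous).contDiffAt (x := z)) b c d
  have e2 := chr_eq (hu z hzG) b c d
  have k1 := abs_le.1 (hk ε hε0 hεt z hz l hl ha c d b)
  have k2 := abs_le.1 (hk ε hε0 hεt z hz l hl ha b d c)
  have k3 := abs_le.1 (hk ε hε0 hεt z hz l hl ha b c d)
  have hθ : 0 ≤ C * (l ^ 2 / ε + ε) := by positivity
  rw [mul_assoc 2 C]
  generalize C * (l ^ 2 / ε + ε) = θ at k1 k2 k3 hθ
  have r1 : θ * ‖c‖ * ‖d‖ * ‖b‖ = θ * (‖b‖ * ‖c‖ * ‖d‖) := by ring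
  have r2 : θ * ‖b‖ * ‖d‖ * ‖c‖ = θ * (‖b‖ * ‖c‖ * ‖d‖) := by ring
  have r3 : θ * ‖b‖ * ‖c‖ * ‖d‖ = θ * (‖b‖ * ‖c‖ * ‖d‖) := by ring
  have r4 : 2 * θ * ‖b‖ * ‖c‖ * ‖d‖ = 2 * (θ * (‖b‖ * ‖c‖ * ‖d‖)) := by ring
  rw [r1] at k1
  rw [r2] at k2
  rw [r3] at k3
  rw [r4]
  have hp : 0 ≤ θ * (‖b‖ * ‖c‖ * ‖d‖) := by positivity
  rw [abs_le]
  constructor <;> linarith [k1.1, k1.2, k2.1, k2.2, k3.1, k3.2]

end Pool.Agent.Bor
end
end

-- part Pool.Agent.P.MP_26ecb7_gt.BesD
section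

noncomputable section
open Set Filter Topology MeasureTheory Metric
open scoped RealInnerProductSpace ContDiff ENNReal NNReal

namespace Pool.Agent.Bor

section
variable {Y Y' Z : Type} [NormedAddCommGroup Y] [NormedAddCommGroup Y'] [NormedAddCommGroup Z]
  {K : Set P} {H : ℕ → P → ℝ → Prop}

/-- uniformly bounded -/
def besdB (K : Set P) (f : ℕ → P → Y) (g : P → Y) : Prop :=
  ∃ C : ℝ, 0 ≤ C ∧ ∀ᶠ n in atTop, ∀ x ∈ K, ‖f n x‖ ≤ C ∧ ‖g x‖ ≤ C

/-- close with a linear rate -/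
def besdR (K : Set P) (H : ℕ → P → ℝ → Prop) (f : ℕ → P → Y) (g : P → Y) : Prop :=
  ∃ C : ℝ, 0 ≤ C ∧ ∀ᶠ n in atTop, ∀ x ∈ K, ∀ s : ℝ, 0 ≤ s → H n x s → ‖f n x - g x‖ ≤ C * s

theorem besd_of {f : ℕ → P → Y} {g : P → Y} (hK : IsCompact K)
    (hu : TendstoUniformlyOn f g atTop K) (hc : ContinuousOn g K) : besdB K f g := by
  obtain ⟨B, hB⟩ := hK.exists_bound_of_continuousOn hc
  refine ⟨|B| + 1, by positivity, ?_⟩
  filter_upwards [Metric.tendstoUniformlyOn_iff.1 hu 1 one_pos] with n hn x hx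
  have h1 := hn x hx
  rw [dist_eq_norm'] at h1
  have h2 := norm_sub_norm_le (f n x) (g x)
  have h3 := hB x hx
  have h4 := le_abs_self B
  constructor <;> linarith

theorem besd_add {f f' : ℕ → P → Y} {g g' : P → Y} (h : besdR K H f g) (h' : besdR K H f' g') :
    besdR K H (fun n x => f n x + f' n x) (fun x => g x + g' x) := by
  obtain ⟨C, hC, h⟩ := h
  obtain ⟨C', hC', h'⟩ := h'
  refine ⟨C + C', by positivity, ?_⟩
  filter_upwards [h, h'] with n h h' x hx s hs hH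
  rw [add_sub_add_comm, add_mul]
  exact (norm_add_le _ _).trans (add_le_add (h x hx s hs hH) (h' x hx s hs hH))

theorem besd_sub {f f' : ℕ → P → Y} {g g' : P → Y} (h : besdR K H f g) (h' : besdR K H f' g') :
    besdR K H (fun n x => f n x - f' n x) (fun x => g x - g' x) := by
  obtain ⟨C, hC, h⟩ := h
  obtain ⟨C', hC', h'⟩ := h'
  refine ⟨C + C', by positivity, ?_⟩
  filter_upwards [h, h'] with n h h' x hx s hs hH
  rw [sub_sub_sub_comm, add_mul]
  exact (norm_sub_le _ _).trans (add_le_add (h x hx s hs hH) (h' x hx s hs hH))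

theorem besd_bil (m : Y → Y' → Z)
    (hm : ∀ a b c d, ‖m a b - m c d‖ ≤ ‖a - c‖ * ‖b‖ + ‖c‖ * ‖b - d‖)
    {f : ℕ → P → Y} {f' : ℕ → P → Y'} {g : P → Y} {g' : P → Y'} (b : besdB K f g)
    (b' : besdB K f' g') (h : besdR K H f g) (h' : besdR K H f' g') :
    besdR K H (fun n x => m (f n x) (f' n x)) (fun x => m (g x) (g' x)) := by
  obtain ⟨C, hC, h⟩ := h
  obtain ⟨C', hC', h'⟩ := h'
  obtain ⟨B, hB, b⟩ := b
  obtain ⟨B', hB', b'⟩ := b'
  refine ⟨C * B' + B * C', by positivity, ?_⟩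
  filter_upwards [h, h', b, b'] with n h h' b b' x hx s hs hH
  have h1 := mul_le_mul (h x hx s hs hH) (b' x hx).1 (norm_nonneg _) (by positivity)
  have h2 := mul_le_mul (b x hx).2 (h' x hx s hs hH) (norm_nonneg _) hB
  refine (hm _ _ _ _).trans ((add_le_add h1 h2).trans (le_of_eq ?_))
  ring

theorem besd_norm {f : ℕ → P → Y} {g : P → Y} (h : besdR K H f g) :
    besdR K H (fun n x => ‖f n x‖) (fun x => ‖g x‖) := by
  obtain ⟨C, hC, h⟩ := h
  refine ⟨C, hC, ?_⟩
  filter_upwards [h] with n h x hx s hs hH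
  exact (abs_norm_sub_norm_le _ _).trans (h x hx s hs hH)

theorem besd_inv {f : ℕ → P → ℝ} {g : P → ℝ} (h : besdR K H f g)
    (b : besdB K (fun n x => (f n x)⁻¹) (fun x => (g x)⁻¹)) (hf : ∀ n x, f n x ≠ 0)
    (hg : ∀ x, g x ≠ 0) : besdR K H (fun n x => (f n x)⁻¹) (fun x => (g x)⁻¹) := by
  obtain ⟨C, hC, h⟩ := h
  obtain ⟨B, hB, b⟩ := b
  refine ⟨C * B * B, by positivity, ?_⟩
  filter_upwards [h, b] with n h b x hx s hs hH
  have e : (f n x)⁻¹ - (g x)⁻¹ = -((f n x - g x) * (f n x)⁻¹ * (g x)⁻¹) := by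
    have h1 := hf n x
    have h2 := hg x
    field_simp
    ring
  rw [e, norm_neg, norm_mul, norm_mul]
  have h1 := mul_le_mul (mul_le_mul (h x hx s hs hH) (b x hx).1 (norm_nonneg _) (by positivity))
    (b x hx).2 (norm_nonneg _) (by positivity)
  refine h1.trans (le_of_eq ?_)
  ring

theorem besd_mul_le (a b c d : ℝ) : ‖a * b - c * d‖ ≤ ‖a - c‖ * ‖b‖ + ‖c‖ * ‖b - d‖ := by
  rw [← norm_mul, ← norm_mul]
  refine le_trans (le_of_eq ?_) (norm_add_le _ _)
  congr 1
  ring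

theorem besd_inner_le (a b c d : E) :
    ‖⟪a, b⟫ - ⟪c, d⟫‖ ≤ ‖a - c‖ * ‖b‖ + ‖c‖ * ‖b - d‖ := by
  have e : ⟪a, b⟫ - ⟪c, d⟫ = ⟪a - c, b⟫ + ⟪c, b - d⟫ := by
    rw [inner_sub_left, inner_sub_right]
    ring
  rw [e]
  exact (norm_add_le _ _).trans (add_le_add (norm_inner_le_norm _ _) (norm_inner_le_norm _ _))

end

section
variable {X : Surf} {I : Iso X} (A : Appr I) (R : Rot) {K : Set P} (hK : IsCompact K)

/-- the two hypotheses at a point -/
def besdH (n : ℕ) (x : P) (s : ℝ) : Prop :=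
  (∀ a b c, |chr (A.W n) (X.psi R x) a b c - chr X.pr (X.psi R x) a b c|
    ≤ s * ‖a‖ * ‖b‖ * ‖c‖) ∧ ‖fderiv ℝ (A.W n) (X.psi R x) - fderiv ℝ I.V (X.psi R x)‖ ≤ s

include hK

theorem besd_appB {a : P → E} (ha : Continuous a) :
    besdB K (fun n x => fderiv ℝ (A.W n) (X.psi R x) (a x))
      (fun x => fderiv ℝ I.V (X.psi R x) (a x)) :=
  besd_of hK (A.cconv_app R hK ha) (cconv_cont I R ha).continuousOn

theorem besd_app {a : P → E} (ha : Continuous a) :
    besdR K (besdH A R) (fun n x => fderiv ℝ (A.W n) (X.psi R x) (a x))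
      (fun x => fderiv ℝ I.V (X.psi R x) (a x)) := by
  obtain ⟨B, hB⟩ := hK.exists_bound_of_continuousOn ha.continuousOn
  refine ⟨|B|, abs_nonneg _, Eventually.of_forall fun n x hx s hs hH => ?_⟩
  have h2 := (fderiv ℝ (A.W n) (X.psi R x) - fderiv ℝ I.V (X.psi R x)).le_opNorm (a x)
  rw [sub_apply] at h2
  rw [mul_comm]
  exact h2.trans (mul_le_mul hH.2 ((hB x hx).trans (le_abs_self B)) (norm_nonneg _) hs)

theorem besd_chr {a b c : P → E} (ha : Continuous a) (hb : Continuous b) (hc : Continuous c) :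
    besdR K (besdH A R) (fun n x => chr (A.W n) (X.psi R x) (a x) (b x) (c x))
      (fun x => chr X.pr (X.psi R x) (a x) (b x) (c x)) := by
  obtain ⟨B, hB⟩ := hK.exists_bound_of_continuousOn
    ((ha.norm.mul hb.norm).mul hc.norm).continuousOn
  refine ⟨|B|, abs_nonneg _, Eventually.of_forall fun n x hx s hs hH => ?_⟩
  have h3 : ‖a x‖ * ‖b x‖ * ‖c x‖ ≤ |B| := ((le_abs_self _).trans (hB x hx)).trans (le_abs_self B)
  refine (hH.1 (a x) (b x) (c x)).trans ?_
  calc s * ‖a x‖ * ‖b x‖ * ‖c x‖ = ‖a x‖ * ‖b x‖ * ‖c x‖ * s := by ring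
    _ ≤ |B| * s := mul_le_mul_of_nonneg_right h3 hs

theorem besd_gm (i j : Fin 2) :
    besdR K (besdH A R) (fun n => gm (A.w R n) i j) (gm (X.psi R) i j) := by
  have c1 : ∀ i : Fin 2, Continuous (pd i (X.psi R)) := fun i =>
    (contDiff_pd (X.sm_psi R) i).continuous
  have e1 : (fun n => gm (A.w R n) i j) = fun n x =>
      ⟪fderiv ℝ (A.W n) (X.psi R x) (pd i (X.psi R) x),
        fderiv ℝ (A.W n) (X.psi R x) (pd j (X.psi R) x)⟫ := by
    funext n x
    rw [gm, A.pd_w, A.pd_w]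
  have e2 : gm (X.psi R) i j = fun x => ⟪fderiv ℝ I.V (X.psi R x) (pd i (X.psi R) x),
      fderiv ℝ I.V (X.psi R x) (pd j (X.psi R) x)⟫ := by
    funext x
    rw [← I.gm_w, gm, I.pd_w, I.pd_w]
  rw [e1, e2]
  exact besd_bil (fun a b : E => ⟪a, b⟫) besd_inner_le (besd_appB A R hK (c1 i))
    (besd_appB A R hK (c1 j)) (besd_app A R hK (c1 i)) (besd_app A R hK (c1 j))

theorem besd_sq : besdR K (besdH A R) (fun n => sq (A.w R n)) (sq (X.psi R)) := by
  have c1 : ∀ i : Fin 2, Continuous (pd i (X.psi R)) := fun i =>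
    (contDiff_pd (X.sm_psi R) i).continuous
  have e1 : (fun n => sq (A.w R n)) = fun n x =>
      ‖cr (fderiv ℝ (A.W n) (X.psi R x) (pd 0 (X.psi R) x))
        (fderiv ℝ (A.W n) (X.psi R x) (pd 1 (X.psi R) x))‖ := by
    funext n x
    rw [sq, nv, A.pd_w, A.pd_w]
  have e2 : sq (X.psi R) = fun x => ‖cr (fderiv ℝ I.V (X.psi R x) (pd 0 (X.psi R) x))
      (fderiv ℝ I.V (X.psi R x) (pd 1 (X.psi R) x))‖ := by
    funext x
    have h := I.nv_w R x
    rw [nv, I.pd_w, I.pd_w] at h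
    rw [h, norm_smul, I.norm_n, mul_one, Real.norm_of_nonneg ((X.imm_psi R).sq_pos x).le]
  rw [e1, e2]
  exact besd_norm (besd_bil cr norm_cr_sub (besd_appB A R hK (c1 0))
    (besd_appB A R hK (c1 1)) (besd_app A R hK (c1 0)) (besd_app A R hK (c1 1)))

theorem besd_ch (i j k : Fin 2) :
    besdR K (besdH A R) (fun n => ch (A.w R n) i j k) (ch (X.psi R) i j k) := by
  have c1 : ∀ i : Fin 2, Continuous (pd i (X.psi R)) := fun i =>
    (contDiff_pd (X.sm_psi R) i).continuous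
  have c2 : Continuous (pd i (pd j (X.psi R))) :=
    (contDiff_pd (contDiff_pd (X.sm_psi R) j) i).continuous
  have e1 : (fun n => ch (A.w R n) i j k) = fun n x =>
      chr (A.W n) (X.psi R x) (pd i (X.psi R) x) (pd j (X.psi R) x) (pd k (X.psi R) x) +
        ⟪fderiv ℝ (A.W n) (X.psi R x) (pd i (pd j (X.psi R)) x),
          fderiv ℝ (A.W n) (X.psi R x) (pd k (X.psi R) x)⟫ := by
    funext n x
    rw [ch, A.pd_pd_w, A.pd_w, inner_add_left, chr]
  have e2 := funext (cconv_ch_psi I R i j k)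
  rw [e1, e2]
  exact besd_add (besd_chr A R hK (c1 i) (c1 j) (c1 k))
    (besd_bil (fun a b : E => ⟪a, b⟫) besd_inner_le (besd_appB A R hK c2)
      (besd_appB A R hK (c1 k)) (besd_app A R hK c2) (besd_app A R hK (c1 k)))

theorem besd_om (i : Fin 2) :
    besdR K (besdH A R) (fun n => om (A.w R n) i) (om (X.psi R) i) := by
  have hc : ∀ i j, ContinuousOn (gm (X.psi R) i j) K := fun i j =>
    ((X.imm_psi R).sm_gm i j).continuous.continuousOn
  have hh : ∀ i j k, ContinuousOn (ch (X.psi R) i j k) K := fun i j k =>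
    ((X.imm_psi R).sm_ch i j k).continuous.continuousOn
  have hs : ContinuousOn (sq (X.psi R)) K := (X.imm_psi R).sm_sq.continuous.continuousOn
  have hne : ∀ x, gm (X.psi R) 0 0 x * sq (X.psi R) x ≠ 0 := fun x =>
    mul_ne_zero ((X.imm_psi R).gm_pos 0 x).ne' ((X.imm_psi R).sq_pos x).ne'
  have hne' : ∀ n x, gm (A.w R n) 0 0 x * sq (A.w R n) x ≠ 0 := fun n x =>
    mul_ne_zero ((A.imm_w R n).gm_pos 0 x).ne' ((A.imm_w R n).sq_pos x).ne'
  have hinv := tu_inv hK (tu_mul hK (A.gm_conv R hK 0 0) (A.sq_conv R hK) (hc 0 0) hs)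
    ((hc 0 0).mul hs) fun x _ => hne x
  have binv := besd_of hK hinv (((hc 0 0).mul hs).inv₀ fun x _ => hne x)
  have bg := fun i j => besd_of hK (A.gm_conv R hK i j) (hc i j)
  have bh := fun i j k => besd_of hK (A.ch_conv R hK i j k) (hh i j k)
  have bs := besd_of hK (A.sq_conv R hK) hs
  have bN := besd_of hK
    (tu_sub (tu_mul hK (A.gm_conv R hK 0 0) (A.ch_conv R hK i 0 1) (hc 0 0) (hh i 0 1))
      (tu_mul hK (A.gm_conv R hK 0 1) (A.ch_conv R hK i 0 0) (hc 0 1) (hh i 0 0)))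
    (((hc 0 0).mul (hh i 0 1)).sub ((hc 0 1).mul (hh i 0 0)))
  have rN := besd_sub
    (besd_bil (fun a b : ℝ => a * b) besd_mul_le (bg 0 0) (bh i 0 1) (besd_gm A R hK 0 0)
      (besd_ch A R hK i 0 1))
    (besd_bil (fun a b : ℝ => a * b) besd_mul_le (bg 0 1) (bh i 0 0) (besd_gm A R hK 0 1)
      (besd_ch A R hK i 0 0))
  have rD := besd_inv (besd_bil (fun a b : ℝ => a * b) besd_mul_le (bg 0 0) bs
    (besd_gm A R hK 0 0) (besd_sq A R hK)) binv hne' hne
  unfold om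
  simp only [div_eq_mul_inv]
  exact besd_bil (fun a b : ℝ => a * b) besd_mul_le bN binv rN rD

end

/-- the connection forms depend in a Lipschitz way on the first derivative and on the
Christoffel expression -/
theorem Appr.om_rate {X : Surf} {I : Iso X} (A : Appr I) (R : Rot) {K : Set P} (hK : IsCompact K) :
    ∃ C : ℝ, 0 ≤ C ∧ ∀ᶠ n in atTop, ∀ x ∈ K, ∀ s : ℝ, 0 ≤ s →
      (∀ a b c, |chr (A.W n) (X.psi R x) a b c - chr X.pr (X.psi R x) a b c|
        ≤ s * ‖a‖ * ‖b‖ * ‖c‖) →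
      ‖fderiv ℝ (A.W n) (X.psi R x) - fderiv ℝ I.V (X.psi R x)‖ ≤ s →
      ∀ i, |om (A.w R n) i x - om (X.psi R) i x| ≤ C * s := by
  obtain ⟨C0, hC0, h0⟩ := besd_om A R hK 0
  obtain ⟨C1, hC1, h1⟩ := besd_om A R hK 1
  refine ⟨C0 + C1, by positivity, ?_⟩
  filter_upwards [h0, h1] with n h0 h1 x hx s hs k1 k2 i
  have g0 := h0 x hx s hs ⟨k1, k2⟩
  have g1 := h1 x hx s hs ⟨k1, k2⟩
  have p0 := mul_nonneg hC0 hs
  have p1 := mul_nonneg hC1 hs
  rw [Real.norm_eq_abs] at g0 g1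
  rw [add_mul]
  rcases Fin.exists_fin_two.1 ⟨i, rfl⟩ with rfl | rfl <;> linarith

end Pool.Agent.Bor
end
end

-- part Pool.Agent.P.MP_26ecb7_gt.Cousin
section

noncomputable section
open Set Filter Topology MeasureTheory Metric
open scoped RealInnerProductSpace ContDiff ENNReal

namespace Pool.Agent.Bor

theorem cousin_mem {c x : P} {r : ℝ} :
    x ∈ sqr c r ↔ (c.1 ≤ x.1 ∧ c.2 ≤ x.2) ∧ x.1 ≤ c.1 + r ∧ x.2 ≤ c.2 + r := by
  simp only [sqr, mem_Icc, Prod.le_def]

theorem cousin_sub {c c' : P} {r r' : ℝ} (h1 : c.1 ≤ c'.1) (h2 : c.2 ≤ c'.2)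
    (h3 : c'.1 + r' ≤ c.1 + r) (h4 : c'.2 + r' ≤ c.2 + r) : sqr c' r' ⊆ sqr c r := by
  intro x hx
  rw [cousin_mem] at hx ⊢
  exact ⟨⟨h1.trans hx.1.1, h2.trans hx.1.2⟩, hx.2.1.trans h3, hx.2.2.trans h4⟩

/-- dyadic induction on squares -/
theorem cousin_ind {Pr : P → ℝ → Prop} {c0 : P} {r0 : ℝ} (hr0 : 0 < r0)
    (hstep : ∀ c r, 0 < r → sqr c r ⊆ sqr c0 r0 → Pr c (r / 2) → Pr (c.1 + r / 2, c.2) (r / 2) →
      Pr (c.1, c.2 + r / 2) (r / 2) → Pr (c.1 + r / 2, c.2 + r / 2) (r / 2) → Pr c r)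
    (hpt : ∀ x ∈ sqr c0 r0, ∃ k : ℕ, ∀ c, x ∈ sqr c (r0 * (1 / 2) ^ k) →
      sqr c (r0 * (1 / 2) ^ k) ⊆ sqr c0 r0 → Pr c (r0 * (1 / 2) ^ k)) : Pr c0 r0 := by
  by_contra hno
  have hpos : ∀ k : ℕ, 0 < r0 * (1 / 2 : ℝ) ^ k := fun k => by positivity
  have hsucc : ∀ k : ℕ, r0 * (1 / 2 : ℝ) ^ (k + 1) = r0 * (1 / 2) ^ k / 2 := fun k => by
    rw [pow_succ]; ring
  have step : ∀ (k : ℕ) (c : P), ∃ c' : P,
      (sqr c (r0 * (1 / 2) ^ k) ⊆ sqr c0 r0 ∧ ¬ Pr c (r0 * (1 / 2) ^ k)) →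
      (¬ Pr c' (r0 * (1 / 2) ^ (k + 1)) ∧
        sqr c' (r0 * (1 / 2) ^ (k + 1)) ⊆ sqr c (r0 * (1 / 2) ^ k)) := by
    intro k c
    rw [hsucc]
    have hp := hpos k
    generalize r0 * (1 / 2 : ℝ) ^ k = r at hp ⊢
    by_cases h1 : Pr c (r / 2)
    · by_cases h2 : Pr (c.1 + r / 2, c.2) (r / 2)
      · by_cases h3 : Pr (c.1, c.2 + r / 2) (r / 2)
        · refine ⟨(c.1 + r / 2, c.2 + r / 2), fun h => ⟨fun h4 => h.2 (hstep c r hp h.1 h1 h2 h3 h4), ?_⟩⟩
          apply cousin_sub <;> simp only <;> linarith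
        · refine ⟨(c.1, c.2 + r / 2), fun _ => ⟨h3, ?_⟩⟩
          apply cousin_sub <;> simp only <;> linarith
      · refine ⟨(c.1 + r / 2, c.2), fun _ => ⟨h2, ?_⟩⟩
        apply cousin_sub <;> simp only <;> linarith
    · refine ⟨c, fun _ => ⟨h1, ?_⟩⟩
      apply cousin_sub <;> linarith
  choose f hf using step
  let cs : ℕ → P := fun k => Nat.rec c0 f k
  have cs_succ : ∀ k, cs (k + 1) = f k (cs k) := fun k => rfl
  have hQ : ∀ k : ℕ, sqr (cs k) (r0 * (1 / 2) ^ k) ⊆ sqr c0 r0 ∧ ¬ Pr (cs k) (r0 * (1 / 2) ^ k) := by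
    intro k
    induction k with
    | zero =>
      have : cs 0 = c0 := rfl
      rw [this, pow_zero, mul_one]
      exact ⟨Subset.rfl, hno⟩
    | succ k ih =>
      rw [cs_succ]
      exact ⟨(hf k _ ih).2.trans ih.1, (hf k _ ih).1⟩
  obtain ⟨x, hx⟩ := IsCompact.nonempty_iInter_of_sequence_nonempty_isCompact_isClosed
    (fun k : ℕ => sqr (cs k) (r0 * (1 / 2) ^ k))
    (fun k => by rw [cs_succ]; exact (hf k _ (hQ k)).2)
    (fun k => ⟨cs k, cousin_mem.2 ⟨⟨le_rfl, le_rfl⟩, by linarith [hpos k], by linarith [hpos k]⟩⟩)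
    isCompact_Icc (fun _ => isClosed_Icc)
  rw [mem_iInter] at hx
  obtain ⟨k, hk⟩ := hpt x ((hQ 0).1 (hx 0))
  exact (hQ k).2 (hk _ (hx k) (hQ k).1)

/-- half open square -/
def cousinH (c : P) (r : ℝ) : Set P := Ico c.1 (c.1 + r) ×ˢ Ico c.2 (c.2 + r)

theorem cousin_split (ν : Measure P) [IsFiniteMeasure ν] (c : P) {r : ℝ} (hr : 0 < r) :
    ν.real (cousinH c r) = ν.real (cousinH c (r / 2)) + ν.real (cousinH (c.1 + r / 2, c.2) (r / 2))
      + ν.real (cousinH (c.1, c.2 + r / 2) (r / 2))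
      + ν.real (cousinH (c.1 + r / 2, c.2 + r / 2) (r / 2)) := by
  have hI : ∀ a : ℝ, Ico a (a + r) = Ico a (a + r / 2) ∪ Ico (a + r / 2) (a + r / 2 + r / 2) := by
    intro a
    rw [Ico_union_Ico_eq_Ico (by linarith) (by linarith)]
    congr 1; ring
  have hD : ∀ a : ℝ, Disjoint (Ico a (a + r / 2)) (Ico (a + r / 2) (a + r / 2 + r / 2)) :=
    fun a => Ico_disjoint_Ico_same
  have h1 : ∀ (a : ℝ) (B : Set ℝ), MeasurableSet B → ν.real (Ico a (a + r) ×ˢ B)
      = ν.real (Ico a (a + r / 2) ×ˢ B) + ν.real (Ico (a + r / 2) (a + r / 2 + r / 2) ×ˢ B) := by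
    intro a B hB
    rw [hI, union_prod, measureReal_union ((hD a).set_prod_left _ _) (measurableSet_Ico.prod hB)]
  have h2 : ∀ (a : ℝ) (B : Set ℝ), MeasurableSet B → ν.real (B ×ˢ Ico a (a + r))
      = ν.real (B ×ˢ Ico a (a + r / 2)) + ν.real (B ×ˢ Ico (a + r / 2) (a + r / 2 + r / 2)) := by
    intro a B hB
    rw [hI, prod_union, measureReal_union ((hD a).set_prod_right _ _) (hB.prod measurableSet_Ico)]
  simp only [cousinH]
  rw [h1 _ _ measurableSet_Ico, h2 _ _ measurableSet_Ico, h2 _ _ measurableSet_Ico]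
  ring

theorem cousin_cover {d : ℝ} (hd : 0 < d) {S : Set P} (hS : μH[d] S = 0) {r0 η : ℝ} (hr0 : 0 < r0)
    (hη : 0 < η) : ∃ (x : ℕ → P) (ρ : ℕ → ℝ), (∀ i, 0 < ρ i) ∧ (∀ i, ρ i ≤ r0) ∧
      (∀ y ∈ S, ∃ i, dist y (x i) ≤ ρ i) ∧
      ∑' i, ENNReal.ofReal (ρ i ^ d) ≤ ENNReal.ofReal η + ENNReal.ofReal η := by
  rw [Measure.hausdorffMeasure_apply] at hS
  have hη' : (0 : ℝ≥0∞) < ENNReal.ofReal η := ENNReal.ofReal_pos.2 hη
  have h0 := (ENNReal.iSup_eq_zero.1 ((ENNReal.iSup_eq_zero.1 hS) (ENNReal.ofReal r0)))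
    (ENNReal.ofReal_pos.2 hr0)
  have h1 := h0.trans_lt hη'
  simp only [iInf_lt_iff] at h1
  obtain ⟨t, hcov, hdiam, hsum⟩ := h1
  obtain ⟨ε, hε, hεs⟩ := ENNReal.exists_pos_sum_of_countable hη'.ne' ℕ
  have hfin : ∀ i, ediam (t i) ≠ ⊤ := fun i => ((hdiam i).trans_lt ENNReal.ofReal_lt_top).ne
  have hx : ∀ i, ∃ x : P, ∀ y ∈ t i, dist y x ≤ diam (t i) := by
    intro i
    rcases (t i).eq_empty_or_nonempty with h | ⟨x, hx⟩
    · exact ⟨0, by simp [h]⟩
    · exact ⟨x, fun y hy => dist_le_diam_of_mem' (hfin i) hy hx⟩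
  choose x hx using hx
  refine ⟨x, fun i => max (diam (t i)) (min r0 ((ε i : ℝ) ^ d⁻¹)), fun i => ?_, fun i => ?_,
    fun y hy => ?_, ?_⟩
  · have : (0 : ℝ) < ε i := hε i
    exact lt_max_of_lt_right (lt_min hr0 (Real.rpow_pos_of_pos this _))
  · refine max_le ?_ (min_le_left _ _)
    exact ENNReal.toReal_le_of_le_ofReal hr0.le (hdiam i)
  · obtain ⟨i, hi⟩ := mem_iUnion.1 (hcov hy)
    exact ⟨i, (hx i y hi).trans (le_max_left _ _)⟩
  · refine le_trans ?_ (add_le_add hsum.le hεs.le)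
    rw [← ENNReal.tsum_add]
    refine ENNReal.tsum_le_tsum fun i => ?_
    have he : (0 : ℝ) < ε i := hε i
    beta_reduce
    rcases le_total (diam (t i)) (min r0 ((ε i : ℝ) ^ d⁻¹)) with h | h
    · rw [max_eq_right h]
      refine le_trans ?_ le_add_self
      have : (min r0 ((ε i : ℝ) ^ d⁻¹)) ^ d ≤ ε i := by
        calc (min r0 ((ε i : ℝ) ^ d⁻¹)) ^ d ≤ ((ε i : ℝ) ^ d⁻¹) ^ d :=
              Real.rpow_le_rpow (le_min hr0.le (Real.rpow_nonneg he.le _)) (min_le_right _ _) hd.le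
          _ = ε i := Real.rpow_inv_rpow he.le hd.ne'
      calc ENNReal.ofReal _ ≤ ENNReal.ofReal (ε i) := ENNReal.ofReal_le_ofReal this
        _ = ε i := ENNReal.ofReal_coe_nnreal
    · rw [max_eq_left h]
      refine le_trans ?_ le_self_add
      rcases (t i).eq_empty_or_nonempty with h' | h'
      · simp [h', Real.zero_rpow hd.ne']
      · rw [iSup_pos h', ← ENNReal.ofReal_rpow_of_nonneg diam_nonneg hd.le, diam,
          ENNReal.ofReal_toReal (hfin i)]

theorem cousin_vol (c : P) {r : ℝ} (hr : 0 ≤ r) :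
    volume (cousinH c r) = ENNReal.ofReal (r ^ 2) := by
  rw [cousinH, Measure.volume_eq_prod, Measure.prod_prod, Real.volume_Ico, Real.volume_Ico,
    add_sub_cancel_left, add_sub_cancel_left, ← ENNReal.ofReal_mul hr, pow_two]

theorem cousin_ball (x : P) {r : ℝ} (hr : 0 ≤ r) :
    volume (closedBall x r) = ENNReal.ofReal (4 * r ^ 2) := by
  rw [← closedBall_prod_same, Measure.volume_eq_prod, Measure.prod_prod, Real.volume_closedBall,
    Real.volume_closedBall, ← ENNReal.ofReal_mul (by linarith)]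
  congr 1; ring

/-- a finite measure of small mass that dominates `C r ^ d` at a good scale around each point -/
theorem cousin_meas {d C : ℝ} (hd : 0 < d) (hC : 0 ≤ C) {S : Set P} (hS : μH[d] S = 0) {r0 η : ℝ}
    (hr0 : 0 < r0) (hη : 0 < η) : ∃ ν : Measure P, ν univ ≤ ENNReal.ofReal (128 * C * η) ∧
      ∀ y ∈ S, ∃ k : ℕ, ∀ c, y ∈ sqr c (r0 * (1 / 2) ^ k) →
        ENNReal.ofReal (C * (r0 * (1 / 2) ^ k) ^ d) ≤ ν (cousinH c (r0 * (1 / 2) ^ k)) := by
  obtain ⟨x, ρ, hρ, hρ0, hcov, hsum⟩ := cousin_cover hd hS hr0 hη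
  refine ⟨Measure.sum fun i => ENNReal.ofReal (4 * C * ρ i ^ d / ρ i ^ 2) •
    volume.restrict (closedBall (x i) (2 * ρ i)), ?_, fun y hy => ?_⟩
  · rw [Measure.sum_apply _ MeasurableSet.univ]
    have : ∀ i, (ENNReal.ofReal (4 * C * ρ i ^ d / ρ i ^ 2) •
        volume.restrict (closedBall (x i) (2 * ρ i))) univ
        = ENNReal.ofReal (64 * C) * ENNReal.ofReal (ρ i ^ d) := by
      intro i
      have h := hρ i
      have h' : 0 < ρ i ^ d := Real.rpow_pos_of_pos h _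
      rw [Measure.smul_apply, Measure.restrict_apply_univ, cousin_ball _ (by linarith), smul_eq_mul,
        ← ENNReal.ofReal_mul (by positivity), ← ENNReal.ofReal_mul (by positivity)]
      congr 1
      field_simp
      ring
    simp only [this]
    rw [ENNReal.tsum_mul_left]
    refine (mul_le_mul_right hsum _).trans (le_of_eq ?_)
    rw [← ENNReal.ofReal_add hη.le hη.le, ← ENNReal.ofReal_mul (by positivity)]
    congr 1; ring
  · obtain ⟨i, hi⟩ := hcov y hy
    have h := hρ i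
    obtain ⟨n, hn1, hn2⟩ := exists_nat_pow_near_of_lt_one (x := ρ i / r0) (y := 1 / 2)
      (div_pos h hr0) ((div_le_one hr0).2 (hρ0 i)) (by norm_num) (by norm_num)
    refine ⟨n + 1, fun c hc => ?_⟩
    have hr : 0 < r0 * (1 / 2 : ℝ) ^ (n + 1) := by positivity
    have hlt : r0 * (1 / 2 : ℝ) ^ (n + 1) < ρ i := by
      rw [lt_div_iff₀ hr0] at hn1; linarith
    have hle : ρ i ≤ 2 * (r0 * (1 / 2 : ℝ) ^ (n + 1)) := by
      rw [div_le_iff₀ hr0] at hn2
      rw [pow_succ]; linarith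
    generalize r0 * (1 / 2 : ℝ) ^ (n + 1) = r at hc hr hlt hle
    refine le_trans ?_ (Measure.le_sum _ i _)
    have hm : MeasurableSet (cousinH c r) := measurableSet_Ico.prod measurableSet_Ico
    have hsub : cousinH c r ⊆ closedBall (x i) (2 * ρ i) := by
      intro z hz
      obtain ⟨⟨a1, a2⟩, b1, b2⟩ := hz
      rw [cousin_mem] at hc
      have : dist z y ≤ r := by
        rw [Prod.dist_eq, Real.dist_eq, Real.dist_eq]
        refine max_le (abs_le.2 ⟨?_, ?_⟩) (abs_le.2 ⟨?_, ?_⟩) <;> linarith [hc.1.1, hc.1.2, hc.2.1, hc.2.2]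
      rw [mem_closedBall]
      linarith [dist_triangle z y (x i)]
    have h' : 0 < ρ i ^ d := Real.rpow_pos_of_pos h _
    rw [Measure.smul_apply, Measure.restrict_apply hm, inter_eq_left.2 hsub, cousin_vol _ hr.le,
      smul_eq_mul, ← ENNReal.ofReal_mul (by positivity)]
    refine ENNReal.ofReal_le_ofReal ?_
    have h1 : r ^ d ≤ ρ i ^ d := Real.rpow_le_rpow hr.le hlt.le hd.le
    have h2 : ρ i ^ 2 ≤ 4 * r ^ 2 := by nlinarith
    rw [div_mul_eq_mul_div, le_div_iff₀ (by positivity)]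
    calc C * r ^ d * ρ i ^ 2 ≤ C * ρ i ^ d * (4 * r ^ 2) := by gcongr
      _ = _ := by ring

/-- An additive function of squares that is `O(r^d)` and `o(r^2)` off an `H^d`-null set vanishes. -/
theorem cousin {d C : ℝ} (hd : 0 < d) (hC : 0 ≤ C) (Ev : ℕ → P → ℝ → ℝ) {c0 : P} {r0 : ℝ}
    (hr0 : 0 < r0)
    (add : ∀ n c r, 0 < r → sqr c r ⊆ sqr c0 r0 → Ev n c r = Ev n c (r / 2)
      + Ev n (c.1 + r / 2, c.2) (r / 2) + Ev n (c.1, c.2 + r / 2) (r / 2)
      + Ev n (c.1 + r / 2, c.2 + r / 2) (r / 2))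
    {S : Set P} (hS : μH[d] S = 0)
    (bad : ∀ c r, 0 < r → sqr c r ⊆ sqr c0 r0 → ∀ θ > 0, ∀ᶠ n in atTop, |Ev n c r| ≤ C * r ^ d + θ)
    (good : ∀ x ∈ sqr c0 r0, x ∉ S → ∀ η > 0, ∃ ρ > 0, ∀ c r, 0 < r → r < ρ → x ∈ sqr c r →
      sqr c r ⊆ sqr c0 r0 → ∀ θ > 0, ∀ᶠ n in atTop, |Ev n c r| ≤ η * r ^ 2 + θ) :
    Tendsto (fun n => Ev n c0 r0) atTop (𝓝 0) := by
  have key : ∀ η > 0, ∀ θ > 0, ∀ᶠ n in atTop, |Ev n c0 r0| ≤ η * (r0 ^ 2 + 128 * C) + θ := by
    intro η hη
    obtain ⟨ν, hν, hν'⟩ := cousin_meas hd hC hS hr0 hη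
    have : IsFiniteMeasure ν := ⟨hν.trans_lt ENNReal.ofReal_lt_top⟩
    have main : ∀ θ > 0, ∀ᶠ n in atTop,
        |Ev n c0 r0| ≤ η * r0 ^ 2 + ν.real (cousinH c0 r0) + θ := by
      refine cousin_ind (Pr := fun c r => ∀ θ > 0, ∀ᶠ n in atTop,
        |Ev n c r| ≤ η * r ^ 2 + ν.real (cousinH c r) + θ) hr0 ?_ ?_
      · intro c r hr hsub h1 h2 h3 h4 θ hθ
        have hθ' : θ / 4 > 0 := by positivity
        filter_upwards [h1 _ hθ', h2 _ hθ', h3 _ hθ', h4 _ hθ'] with n a1 a2 a3 a4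
        rw [add n c r hr hsub, cousin_split ν c hr]
        have e : η * r ^ 2 = 4 * (η * (r / 2) ^ 2) := by ring
        rw [abs_le] at a1 a2 a3 a4 ⊢
        constructor <;> linarith [a1.1, a1.2, a2.1, a2.2, a3.1, a3.2, a4.1, a4.2]
      · intro x hx
        by_cases hxS : x ∈ S
        · obtain ⟨k, hk⟩ := hν' x hxS
          refine ⟨k, fun c hc hsub θ hθ => ?_⟩
          have hr : 0 < r0 * (1 / 2 : ℝ) ^ k := by positivity
          have h1 : C * (r0 * (1 / 2) ^ k) ^ d ≤ ν.real (cousinH c (r0 * (1 / 2) ^ k)) :=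
            (ENNReal.ofReal_le_iff_le_toReal (measure_ne_top _ _)).1 (hk c hc)
          filter_upwards [bad c _ hr hsub θ hθ] with n hn
          have : 0 ≤ η * (r0 * (1 / 2 : ℝ) ^ k) ^ 2 := by positivity
          linarith
        · obtain ⟨ρ, hρ, hg⟩ := good x hx hxS η hη
          obtain ⟨k, hk⟩ := exists_pow_lt_of_lt_one (div_pos hρ hr0) (by norm_num : (1 / 2 : ℝ) < 1)
          refine ⟨k, fun c hc hsub θ hθ => ?_⟩
          have hr : 0 < r0 * (1 / 2 : ℝ) ^ k := by positivity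
          have hlt : r0 * (1 / 2 : ℝ) ^ k < ρ := by
            rw [lt_div_iff₀ hr0] at hk; linarith
          filter_upwards [hg c _ hr hlt hc hsub θ hθ] with n hn
          have : 0 ≤ ν.real (cousinH c (r0 * (1 / 2) ^ k)) := measureReal_nonneg
          linarith
    intro θ hθ
    have hb : ν.real (cousinH c0 r0) ≤ 128 * C * η :=
      ENNReal.toReal_le_of_le_ofReal (by positivity) ((measure_mono (subset_univ _)).trans hν)
    filter_upwards [main θ hθ] with n hn
    linarith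
  rw [Metric.tendsto_nhds]
  intro ε hε
  have hK : 0 < r0 ^ 2 + 128 * C := by positivity
  filter_upwards [key (ε / 4 / (r0 ^ 2 + 128 * C)) (by positivity) (ε / 4) (by positivity)] with n hn
  rw [Real.dist_eq, sub_zero]
  rw [div_mul_cancel₀ _ hK.ne'] at hn
  linarith

end Pool.Agent.Bor
end
end

-- part Pool.Agent.P.MP_26ecb7_gt.Anom
section

noncomputable section
open Set Filter Topology MeasureTheory Metric
open scoped RealInnerProductSpace ContDiff ENNReal

namespace Pool.Agent.Bor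

/-- the anomaly has density zero at `x` -/
def Van (p : ℕ → P → P) (κ : P → ℝ) (T : Set P) (x : P) : Prop :=
  ∀ φ : P → ℝ, ContDiff ℝ ∞ φ → ∀ η > 0, ∃ ρ > 0, ∀ c r, 0 < r → r < ρ → x ∈ sqr c r →
    sqr c r ⊆ T → ∀ θ > 0, ∀ᶠ n in atTop,
      |∫ y in sqr c r, φ (p n y) * (lam (p n y) * jp (p n) y - κ y)| ≤ η * r ^ 2 + θ

/-- data on a square: smooth maps converging to a Hoelder map, with the weak Gauss equation -/
structure Dat (p : ℕ → P → P) (q : P → P) (κ : P → ℝ) (c0 : P) (r0 al : ℝ) (S : Set P) : Prop where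
  r_pos : 0 < r0
  r_le : r0 ≤ 1
  al_gt : 1 / 2 < al
  al_le : al ≤ 1
  smooth : ∀ n, ContDiff ℝ ∞ (p n)
  cont : ContinuousOn q (sqr c0 r0)
  kc : Continuous κ
  unif : TendstoUniformlyOn p q atTop (sqr c0 r0)
  gauss : ∀ c r, 0 < r → sqr c r ⊆ sqr c0 r0 →
    Tendsto (fun n => ∫ x in sqr c r, (lam (p n x) * jp (p n) x - κ x)) atTop (𝓝 0)
  hol : ∃ M, 0 ≤ M ∧ ∀ᶠ n in atTop, ∀ x ∈ sqr c0 r0, ∀ y ∈ sqr c0 r0,
    dist (p n x) (p n y) ≤ M * dist x y ^ al
  null : μH[3 * al] S = 0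
  good : ∀ x ∈ sqr c0 r0, x ∉ S → GoodS p (sqr c0 r0) x ∨ Van p κ (sqr c0 r0) x

theorem anom_pd_fst {p : P → P} {x : P} (hp : DifferentiableAt ℝ p x) (i : Fin 2) :
    pd i (fun y => (p y).1) x = (fderiv ℝ p x (e2 i)).1 := by
  unfold pd
  rw [fderiv.fst hp]
  rfl

theorem anom_pd_snd {p : P → P} {x : P} (hp : DifferentiableAt ℝ p x) (i : Fin 2) :
    pd i (fun y => (p y).2) x = (fderiv ℝ p x (e2 i)).2 := by
  unfold pd
  rw [fderiv.snd hp]
  rfl

theorem anom_pd_comp {T : P → ℝ} {p : P → P} {x : P} (hT : DifferentiableAt ℝ T (p x))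
    (hp : DifferentiableAt ℝ p x) (i : Fin 2) :
    pd i (fun y => T (p y)) x = pd 0 T (p x) * pd i (fun y => (p y).1) x
      + pd 1 T (p x) * pd i (fun y => (p y).2) x := by
  rw [anom_pd_fst hp, anom_pd_snd hp]
  have h : pd i (fun y => T (p y)) x = fderiv ℝ T (p x) (fderiv ℝ p x (e2 i)) := by
    unfold pd
    rw [fderiv_fun_comp x hT hp]
    rfl
  rw [h, fderiv_eq_pd, smul_eq_mul, smul_eq_mul]
  ring

theorem anom_jac {T : P → ℝ} {p : P → P} (hT : ContDiff ℝ ∞ T) (hp : ContDiff ℝ ∞ p) (x : P) :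
    jac (fun y => T (p y)) (fun y => (p y).2) x = pd 0 T (p x) * jp p x := by
  have h1 : DifferentiableAt ℝ T (p x) := (hT.differentiable (by simp)) _
  have h2 : DifferentiableAt ℝ p x := (hp.differentiable (by simp)) _
  unfold jp jac
  rw [anom_pd_comp h1 h2 0, anom_pd_comp h1 h2 1]
  ring

theorem anom_cont_jp {p : P → P} (hp : ContDiff ℝ ∞ p) : Continuous (jp p) := by
  have h1 : ContDiff ℝ ∞ (fun y => (p y).1) := hp.fst
  have h2 : ContDiff ℝ ∞ (fun y => (p y).2) := hp.snd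
  have : jp p = fun x => pd 0 (fun y => (p y).1) x * pd 1 (fun y => (p y).2) x
      - pd 1 (fun y => (p y).1) x * pd 0 (fun y => (p y).2) x := rfl
  rw [this]
  exact ((contDiff_pd h1 0).continuous.mul (contDiff_pd h2 1).continuous).sub
    ((contDiff_pd h1 1).continuous.mul (contDiff_pd h2 0).continuous)

theorem anom_cont_phi {T : P → ℝ} (hT : ContDiff ℝ ∞ T) :
    Continuous (fun y => pd 0 T y / lam y) :=
  (contDiff_pd hT 0).continuous.div contDiff_lam.continuous (fun y => (lam_pos y).ne')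

theorem anom_le {c c0 : P} {r r0 : ℝ} (hr : 0 < r) (h : sqr c r ⊆ sqr c0 r0) : r ≤ r0 := by
  have h1 : c ∈ sqr c r := mem_sqr.2 ⟨⟨le_rfl, by linarith⟩, ⟨le_rfl, by linarith⟩⟩
  have h2 : ((c.1 + r, c.2 + r) : P) ∈ sqr c r :=
    mem_sqr.2 ⟨⟨by simp [hr.le], le_rfl⟩, ⟨by simp [hr.le], le_rfl⟩⟩
  have h3 := (mem_sqr.1 (h h1)).1.1
  have h4 := (mem_sqr.1 (h h2)).1.2
  simp only at h4
  linarith

theorem anom_small {u : ℕ → ℝ} (hu : Tendsto u atTop (𝓝 0)) {K θ : ℝ} (hθ : 0 < θ) :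
    ∀ᶠ n in atTop, K * |u n| ≤ θ := by
  have h : Tendsto (fun n => K * |u n|) atTop (𝓝 (K * |0|)) := hu.abs.const_mul K
  rw [abs_zero, mul_zero] at h
  exact h.eventually (ge_mem_nhds hθ)

theorem anom_bound {p q κ c0 r0 al S} (D : Dat p q κ c0 r0 al S) :
    ∃ ρ : ℝ, ∀ᶠ n in atTop, ∀ x ∈ sqr c0 r0, ‖p n x‖ ≤ ρ := by
  obtain ⟨B, hB⟩ := (sqr_compact c0 r0).exists_bound_of_continuousOn D.cont
  refine ⟨B + 1, ?_⟩
  filter_upwards [Metric.tendstoUniformlyOn_iff.1 D.unif 1 one_pos] with n hn x hx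
  have h1 := hn x hx
  have h2 := hB x hx
  rw [dist_eq_norm'] at h1
  have h3 := norm_sub_norm_le (p n x) (q x)
  linarith

theorem anom_ev {p q κ c0 r0 al S} (D : Dat p q κ c0 r0 al S) {T : P → ℝ} (hT : ContDiff ℝ ∞ T) :
    Tendsto (fun n => ∫ x in sqr c0 r0,
      pd 0 T (p n x) / lam (p n x) * (lam (p n x) * jp (p n) x - κ x)) atTop (𝓝 0) := by
  obtain ⟨ρ, hρ⟩ := anom_bound D
  obtain ⟨K, hK, hest⟩ := est hT ρ
  obtain ⟨M, hM, hhol⟩ := D.hol
  obtain ⟨k0, hk0⟩ := (sqr_compact c0 r0).exists_bound_of_continuousOn D.kc.continuousOn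
  have hkk : ∀ x ∈ sqr c0 r0, |κ x| ≤ max k0 0 := fun x hx =>
    le_trans (hk0 x hx) (le_max_left _ _)
  have hk : 0 ≤ max k0 0 := le_max_right _ _
  generalize max k0 0 = k at hkk hk
  have hal := D.al_gt
  have hyc := yc_pos hal
  refine cousin (d := 3 * al) (C := K * (1 + yc al) * M ^ 3 + K * k * M) (by linarith)
    (by positivity) (fun n c r => ∫ x in sqr c r,
      pd 0 T (p n x) / lam (p n x) * (lam (p n x) * jp (p n) x - κ x)) D.r_pos ?_ D.null ?_ ?_
  · intro n c r hr _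
    refine integral_sqr_split hr.le (Continuous.continuousOn ?_)
    have hc := (D.smooth n).continuous
    exact ((anom_cont_phi hT).comp hc).mul
      (((contDiff_lam.continuous.comp hc).mul (anom_cont_jp (D.smooth n))).sub D.kc)
  · intro c r hr hsub θ hθ
    have hr1 : r ≤ 1 := (anom_le hr hsub).trans D.r_le
    filter_upwards [hρ, hhol, anom_small (K := K) (D.gauss c r hr hsub) hθ] with n h1 h2 h3
    have hpos : 0 ≤ r ^ al := Real.rpow_nonneg hr.le _
    have h := hest al (p n) κ c r (M * r ^ al) M k hal hr (by positivity) hM (D.smooth n) D.kc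
      (fun x hx => hkk x (hsub hx)) (fun x hx => h1 x (hsub hx))
      (fun x hx y hy => ⟨(h2 x (hsub hx) y (hsub hy)).trans (mul_le_mul_of_nonneg_left
        (Real.rpow_le_rpow dist_nonneg (dist_le_of_sqr hx hy) (by linarith)) hM),
        h2 x (hsub hx) y (hsub hy)⟩)
    have e1 : r ^ (3 * al) = r ^ al * r ^ (2 * al) := by
      rw [← Real.rpow_add hr]
      congr 1
      ring
    have e2 : r ^ 2 ≤ r ^ (2 * al) := by
      have h5 := Real.rpow_le_rpow_of_exponent_ge hr hr1 (show 2 * al ≤ (2 : ℝ) by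
        linarith [D.al_le])
      rwa [Real.rpow_two] at h5
    have e3 : K * k * (M * r ^ al * r ^ 2) ≤ K * k * (M * r ^ al * r ^ (2 * al)) :=
      mul_le_mul_of_nonneg_left (mul_le_mul_of_nonneg_left e2 (by positivity)) (by positivity)
    rw [e1]
    refine h.trans ?_
    have e4 : (K * (1 + yc al) * M ^ 3 + K * k * M) * (r ^ al * r ^ (2 * al))
        = K * (1 + yc al) * (M * r ^ al * M ^ 2 * r ^ (2 * al))
          + K * k * (M * r ^ al * r ^ (2 * al)) := by ring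
    rw [e4]
    linarith
  · intro x hx hxS η hη
    rcases D.good x hx hxS with ⟨a, M0, ha, -, hg⟩ | hv
    swap
    · exact hv (fun y => pd 0 T y / lam y)
        ((contDiff_pd hT 0).div contDiff_lam fun y => (lam_pos y).ne') η hη
    have hya := yc_pos ha
    have hA : 0 < 4 * (K * (1 + yc a)) + K * k + 1 := by positivity
    obtain ⟨r1, hr1, hg⟩ := hg (η / (4 * (K * (1 + yc a)) + K * k + 1)) (div_pos hη hA)
    have hη' : η = η / (4 * (K * (1 + yc a)) + K * k + 1)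
        * (4 * (K * (1 + yc a)) + K * k + 1) := (div_mul_cancel₀ η hA.ne').symm
    have hε := div_pos hη hA
    generalize η / (4 * (K * (1 + yc a)) + K * k + 1) = ε at hg hη' hε
    refine ⟨r1 / 2, by positivity, ?_⟩
    intro c r hr hrr hxc hsub θ hθ
    obtain ⟨O, N, hO, hOε, hN, -, hON, hev⟩ := hg (2 * r) (by positivity) (by linarith)
    filter_upwards [hρ, hev, anom_small (K := K) (D.gauss c r hr hsub) hθ] with n h1 h2 h3
    have hin : ∀ y ∈ sqr c r, y ∈ sqr c0 r0 ∩ ball x (2 * r) := fun y hy =>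
      ⟨hsub hy, mem_ball.2 (lt_of_le_of_lt (dist_le_of_sqr hy hxc) (by linarith))⟩
    have h := hest a (p n) κ c r O N k ha hr hO hN (D.smooth n) D.kc
      (fun y hy => hkk y (hsub hy)) (fun y hy => h1 y (hsub hy))
      (fun y hy z hz => h2 y (hin y hy) z (hin z hz))
    have e1 : r ^ (2 * a) ≤ (2 * r) ^ (2 * a) :=
      Real.rpow_le_rpow hr.le (by linarith) (by linarith)
    have e2 : O * N ^ 2 * r ^ (2 * a) ≤ ε * (2 * r) ^ 2 :=
      (mul_le_mul_of_nonneg_left e1 (by positivity)).trans hON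
    have e3 : K * (1 + yc a) * (O * N ^ 2 * r ^ (2 * a)) ≤ K * (1 + yc a) * (ε * (2 * r) ^ 2) :=
      mul_le_mul_of_nonneg_left e2 (by positivity)
    have e4 : K * k * (O * r ^ 2) ≤ K * k * (ε * r ^ 2) :=
      mul_le_mul_of_nonneg_left (mul_le_mul_of_nonneg_right hOε (by positivity)) (by positivity)
    have e5 : η * r ^ 2 = K * (1 + yc a) * (ε * (2 * r) ^ 2) + K * k * (ε * r ^ 2)
        + ε * r ^ 2 := by
      rw [hη']
      ring
    have e6 : 0 ≤ ε * r ^ 2 := by positivity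
    refine h.trans ?_
    rw [e5]
    linarith

theorem anom_last {p q κ c0 r0 al S} (D : Dat p q κ c0 r0 al S) {f : P → ℝ} (hf : Continuous f) :
    Tendsto (fun n => ∫ x in sqr c0 r0, f (p n x) * κ x) atTop
      (𝓝 (∫ x in sqr c0 r0, f (q x) * κ x)) := by
  obtain ⟨ρ, hρ⟩ := anom_bound D
  obtain ⟨k0, hk0⟩ := (sqr_compact c0 r0).exists_bound_of_continuousOn D.kc.continuousOn
  obtain ⟨B, hB⟩ := (isCompact_closedBall (0 : P) ρ).exists_bound_of_continuousOn hf.continuousOn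
  have hm : MeasurableSet (sqr c0 r0) := (sqr_compact c0 r0).measurableSet
  refine tendsto_integral_filter_of_dominated_convergence (fun _ => B * k0) ?_ ?_ ?_ ?_
  · exact Eventually.of_forall fun n =>
      ((hf.comp (D.smooth n).continuous).mul D.kc).aestronglyMeasurable
  · filter_upwards [hρ] with n hn
    refine (ae_restrict_iff' hm).2 (Eventually.of_forall fun x hx => ?_)
    have h1 := hB (p n x) (mem_closedBall_zero_iff.2 (hn x hx))
    rw [norm_mul]
    exact mul_le_mul h1 (hk0 x hx) (norm_nonneg _) ((norm_nonneg _).trans h1)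
  · exact (continuous_const.continuousOn).integrableOn_compact (sqr_compact c0 r0)
  · refine (ae_restrict_iff' hm).2 (Eventually.of_forall fun x hx => ?_)
    exact ((hf.tendsto _).comp (D.unif.tendsto_at hx)).mul_const _

theorem anom_dist_swap (x y : P) : dist x.swap y.swap = dist x y := by
  rw [Prod.dist_eq, Prod.dist_eq, max_comm]
  rfl

theorem anom_pd_swap {T : P → ℝ} (hT : ContDiff ℝ ∞ T) (y : P) :
    pd 0 (fun z : P => T z.swap) y.swap = pd 1 T y := by
  have h1 : DifferentiableAt ℝ T (Prod.swap y.swap) := (hT.differentiable (by simp)) _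
  have h2 : DifferentiableAt ℝ (fun z : P => z.swap) y.swap :=
    differentiableAt_snd.prodMk differentiableAt_fst
  rw [anom_pd_comp h1 h2 0]
  have e1 : pd 0 (fun z : P => z.swap.1) y.swap = 0 := by
    show fderiv ℝ Prod.snd y.swap (e2 0) = 0
    rw [fderiv_snd]
    simp [e2]
  have e2' : pd 0 (fun z : P => z.swap.2) y.swap = 1 := by
    show fderiv ℝ Prod.fst y.swap (e2 0) = 1
    rw [fderiv_fst]
    simp [e2]
  rw [e1, e2', Prod.swap_swap]
  ring

theorem Dat.anom {p q κ c0 r0 al S} (D : Dat p q κ c0 r0 al S) {T : P → ℝ} (hT : ContDiff ℝ ∞ T) :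
    Tendsto (fun n => lp c0 r0 (fun x => T (p n x)) (fun x => (p n x).2)) atTop
      (𝓝 (∫ x in sqr c0 r0, pd 0 T (q x) / lam (q x) * κ x)) := by
  have h := (anom_ev D hT).add (anom_last D (anom_cont_phi hT))
  rw [zero_add] at h
  refine h.congr fun n => ?_
  have hc := (D.smooth n).continuous
  have hphi := (anom_cont_phi hT).comp hc
  have i1 : IntegrableOn (fun x => pd 0 T (p n x) / lam (p n x) * (lam (p n x) * jp (p n) x - κ x))
      (sqr c0 r0) :=
    (hphi.mul (((contDiff_lam.continuous.comp hc).mul (anom_cont_jp (D.smooth n))).sub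
      D.kc)).continuousOn.integrableOn_compact (sqr_compact c0 r0)
  have i2 : IntegrableOn (fun x => pd 0 T (p n x) / lam (p n x) * κ x) (sqr c0 r0) :=
    (hphi.mul D.kc).continuousOn.integrableOn_compact (sqr_compact c0 r0)
  have hg := green_jac (f := fun x => T (p n x)) (g := fun x => (p n x).2)
    ((hT.comp (D.smooth n)).of_le (by exact_mod_cast le_top)) (D.smooth n).snd c0 D.r_pos.le
  rw [← integral_add i1 i2, ← hg]
  refine integral_congr_ae (Eventually.of_forall fun x => ?_)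
  have hl := (lam_pos (p n x)).ne'
  simp only [anom_jac hT (D.smooth n)]
  field_simp
  ring

theorem Dat.swap {p q κ c0 r0 al S} (D : Dat p q κ c0 r0 al S) :
    Dat (fun n x => (p n x).swap) (fun x => (q x).swap) (fun x => - κ x) c0 r0 al S := by
  refine ⟨D.r_pos, D.r_le, D.al_gt, D.al_le, fun n => (D.smooth n).snd.prodMk (D.smooth n).fst,
    continuous_swap.comp_continuousOn D.cont, D.kc.neg,
    uniformContinuous_swap.comp_tendstoUniformlyOn D.unif, ?_, ?_, D.null, ?_⟩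
  · intro c r hr hsub
    have h := (D.gauss c r hr hsub).neg
    rw [neg_zero] at h
    refine h.congr fun n => ?_
    rw [← integral_neg]
    refine integral_congr_ae (Eventually.of_forall fun x => ?_)
    have e : jp (fun x => (p n x).swap) x = - jp (p n) x := by
      unfold jp jac
      simp only [Prod.fst_swap, Prod.snd_swap]
      ring
    simp only [lam_swap, e]
    ring
  · obtain ⟨M, hM, h⟩ := D.hol
    refine ⟨M, hM, ?_⟩
    simpa only [anom_dist_swap] using h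
  · intro x hx hxS
    rcases D.good x hx hxS with h | h
    · left
      unfold GoodS at h ⊢
      simpa only [anom_dist_swap] using h
    · right
      intro φ hφ η hη
      obtain ⟨ρ, hρ, h1⟩ := h (fun z => φ z.swap) (hφ.comp (contDiff_snd.prodMk contDiff_fst)) η hη
      refine ⟨ρ, hρ, fun c r hr hrr hxc hs θ hθ => ?_⟩
      filter_upwards [h1 c r hr hrr hxc hs θ hθ] with n hn
      rw [← abs_neg, ← integral_neg] at hn
      refine le_of_eq_of_le (congrArg abs (integral_congr_ae (Eventually.of_forall fun y => ?_))) hn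
      have e : jp (fun x => (p n x).swap) y = - jp (p n) y := by
        unfold jp jac
        simp only [Prod.fst_swap, Prod.snd_swap]
        ring
      simp only [lam_swap, e]
      ring

theorem Dat.anom' {p q κ c0 r0 al S} (D : Dat p q κ c0 r0 al S) {T : P → ℝ} (hT : ContDiff ℝ ∞ T) :
    Tendsto (fun n => lp c0 r0 (fun x => T (p n x)) (fun x => (p n x).1)) atTop
      (𝓝 (- ∫ x in sqr c0 r0, pd 1 T (q x) / lam (q x) * κ x)) := by
  have hT' : ContDiff ℝ ∞ (fun z : P => T z.swap) := hT.comp (contDiff_snd.prodMk contDiff_fst)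
  have h := D.swap.anom hT'
  simp only [Prod.swap_swap, Prod.snd_swap, anom_pd_swap hT, lam_swap, mul_neg, integral_neg] at h
  exact h

theorem Dat.hol_lim {p q κ c0 r0 al S} (D : Dat p q κ c0 r0 al S) :
    ∃ M, ∀ x ∈ sqr c0 r0, ∀ y ∈ sqr c0 r0, dist (q x) (q y) ≤ M * dist x y ^ al := by
  obtain ⟨M, -, h⟩ := D.hol
  refine ⟨M, fun x hx y hy => ?_⟩
  refine le_of_tendsto ((D.unif.tendsto_at hx).dist (D.unif.tendsto_at hy)) ?_
  filter_upwards [h] with n hn using hn x hx y hy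

end Pool.Agent.Bor
end
end

-- part Pool.Agent.P.MP_26ecb7_gt.LocA0
section

noncomputable section
open Set Filter Topology MeasureTheory Metric
open scoped RealInnerProductSpace ContDiff ENNReal

namespace Pool.Agent.Bor

/-- a positive smooth function equal to the identity from one quarter on -/
def locaS (t : ℝ) : ℝ :=
  t * Real.smoothTransition (8 * t - 1) + (1 - Real.smoothTransition (8 * t - 1))

theorem loca_S_pos (t : ℝ) : 0 < locaS t := by
  unfold locaS
  rcases le_or_gt (8 * t - 1) 0 with h | h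
  · rw [Real.smoothTransition.zero_of_nonpos h]; norm_num
  · have h1 := Real.smoothTransition.pos_of_pos h
    have h2 := Real.smoothTransition.le_one (8 * t - 1)
    have h3 : 0 < t * Real.smoothTransition (8 * t - 1) := mul_pos (by linarith) h1
    linarith

theorem loca_S_eq {t : ℝ} (ht : 1 / 4 ≤ t) : locaS t = t := by
  unfold locaS
  rw [Real.smoothTransition.one_of_one_le (by linarith)]; ring

theorem loca_S_smooth : ContDiff ℝ ∞ locaS := by
  have h : ContDiff ℝ ∞ fun t : ℝ => Real.smoothTransition (8 * t - 1) :=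
    Real.smoothTransition.contDiff.comp ((contDiff_const.mul contDiff_id).sub contDiff_const)
  exact (contDiff_id.mul h).add (contDiff_const.sub h)

/-- a globally smooth version of the gnomonic coordinates -/
def locaG (R : Rot) (y : E) : P :=
  (⟪y, R.R (ee 0)⟫ / locaS ⟪y, R.R (ee 2)⟫, ⟪y, R.R (ee 1)⟫ / locaS ⟪y, R.R (ee 2)⟫)

theorem loca_G_smooth (R : Rot) : ContDiff ℝ ∞ (locaG R) := by
  have h : ∀ k, ContDiff ℝ ∞ fun y : E => ⟪y, R.R (ee k)⟫ := fun k =>
    contDiff_id.inner ℝ contDiff_const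
  have h2 : ContDiff ℝ ∞ fun y : E => locaS ⟪y, R.R (ee 2)⟫ := loca_S_smooth.comp (h 2)
  exact ((h 0).div h2 fun y => (loca_S_pos _).ne').prodMk
    ((h 1).div h2 fun y => (loca_S_pos _).ne')

theorem loca_G_eq (R : Rot) {y : E} (hy : 1 / 4 ≤ ⟪y, R.R (ee 2)⟫) : locaG R y = gn R y := by
  unfold locaG gn
  rw [loca_S_eq hy]

theorem loca_norm (R : Rot) : ‖R.R (ee 2)‖ = 1 := by
  rw [R.R.norm_map]; simp [ee]

theorem loca_lip {f : P → E} (hf : ContDiff ℝ ∞ f) (c : P) (r : ℝ) :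
    ∃ L : ℝ, 0 ≤ L ∧ ∀ x ∈ sqr c r, ∀ y ∈ sqr c r, ‖f x - f y‖ ≤ L * dist x y := by
  obtain ⟨K, hK⟩ := hf.contDiffOn.exists_lipschitzOnWith (s := sqr c r) (by simp)
    (convex_Icc _ _) (sqr_compact c r)
  exact ⟨K, K.2, fun x hx y hy => by
    rw [← dist_eq_norm]; exact hK.dist_le_mul x hx y hy⟩

theorem loca_jp_congr {p q : P → P} {x : P} (h : p =ᶠ[𝓝 x] q) : jp p x = jp q x := by
  have h1 : (fun y => (p y).1) =ᶠ[𝓝 x] fun y => (q y).1 := h.mono fun y hy => by
    simp only [hy]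
  have h2 : (fun y => (p y).2) =ᶠ[𝓝 x] fun y => (q y).2 := h.mono fun y hy => by
    simp only [hy]
  simp only [jp, jac, pd, h1.fderiv_eq, h2.fderiv_eq]

theorem loca_pd_sub {f g : P → ℝ} (hf : ContDiff ℝ ∞ f) (hg : ContDiff ℝ ∞ g) (i : Fin 2) (x : P) :
    pd i (fun y => f y - g y) x = pd i f x - pd i g x := by
  unfold pd
  rw [fderiv_fun_sub (hf.differentiable (by simp) x) (hg.differentiable (by simp) x)]
  rfl

theorem loca_kap (R : Rot) {w : P → E} (hw : Imm w) {x : P} (hx : 1 / 4 < ⟪un w x, R.R (ee 2)⟫) :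
    lam (locaG R (un w x)) * jp (fun y => locaG R (un w y)) x = kap (un w) x := by
  have hc : Continuous fun y => ⟪un w y, R.R (ee 2)⟫ :=
    hw.sm_un.continuous.inner continuous_const
  have h1 : (fun y => locaG R (un w y)) =ᶠ[𝓝 x] fun y => gn R (un w y) :=
    (hc.continuousAt.eventually (lt_mem_nhds hx)).mono fun y hy => loca_G_eq R (le_of_lt hy)
  rw [loca_jp_congr h1, loca_G_eq R hx.le,
    kap_gn R (hw.sm_un.differentiable (by simp) x) (hw.norm_un x) (by linarith)]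

theorem loca_dist (R : Rot) {y z : E} (hy : 1 / 4 ≤ ⟪y, R.R (ee 2)⟫) (hz : 1 / 4 ≤ ⟪z, R.R (ee 2)⟫)
    (h1 : ‖z‖ = 1) : dist (gn R y) (gn R z) ≤ 20 * ‖y - z‖ := by
  have h := dist_gn_le R (c := 1 / 4) (K := 1) (by norm_num) hy hz h1.le
  norm_num at h
  exact h

theorem loca_nrm {L L' : E →L[ℝ] E} {v v' : E} {C : ℝ} (hL : ‖L‖ ≤ C) (hL' : ‖L'‖ ≤ C)
    (hv : ‖v‖ = 1) (h : 1 / 2 ≤ ‖cof L v‖) (h' : 1 / 2 ≤ ‖cof L' v'‖) :
    ‖nrm (cof L v) - nrm (cof L' v')‖ ≤ 24 * C * ‖L - L'‖ + 12 * C ^ 2 * ‖v - v'‖ := by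
  have hC : 0 ≤ C := (norm_nonneg _).trans hL
  have n1 : cof L v ≠ 0 := fun e => by rw [e, norm_zero] at h; norm_num at h
  have n2 : cof L' v' ≠ 0 := fun e => by rw [e, norm_zero] at h'; norm_num at h'
  have e1 : cof L v - cof L' v' = (cof L v - cof L' v) + cof L' (v - v') := by
    rw [cof_sub]; abel
  have e2 : ‖cof L v - cof L' v‖ ≤ 6 * C * ‖L - L'‖ := by
    refine (norm_cof_sub L L' v).trans ?_
    rw [hv, mul_one]
    exact mul_le_mul_of_nonneg_right (by linarith) (norm_nonneg _)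
  have e3 : ‖cof L' (v - v')‖ ≤ 3 * C ^ 2 * ‖v - v'‖ := by
    refine (norm_cof_le L' _).trans (mul_le_mul_of_nonneg_right ?_ (norm_nonneg _))
    have := pow_le_pow_left₀ (norm_nonneg L') hL' 2
    linarith
  have e4 : ‖cof L v - cof L' v'‖ ≤ 6 * C * ‖L - L'‖ + 3 * C ^ 2 * ‖v - v'‖ := by
    rw [e1]; exact (norm_add_le _ _).trans (add_le_add e2 e3)
  refine (norm_nrm_sub n1 n2).trans ?_
  rw [div_le_iff₀ (by linarith)]
  have e5 : 0 ≤ 24 * C * ‖L - L'‖ + 12 * C ^ 2 * ‖v - v'‖ := by positivity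
  nlinarith [mul_le_mul_of_nonneg_left h e5]

theorem loca_ev {X : Surf} {I : Iso X} (A : Appr I) (R R' : Rot) {c : P} {r : ℝ}
    (hc : ∀ x ∈ sqr c r, 1 / 2 < ⟪I.n R x, R'.R (ee 2)⟫) :
    ∀ᶠ n in atTop, ∀ x ∈ sqr c r, 1 / 4 < ⟪un (A.w R n) x, R'.R (ee 2)⟫ := by
  filter_upwards [Metric.tendstoUniformly_iff.1 (A.un_conv R) (1 / 4) (by norm_num)] with n hn x hx
  have h1 := hn x
  rw [dist_eq_norm] at h1
  have h2 := real_inner_le_norm (I.n R x - un (A.w R n) x) (R'.R (ee 2))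
  rw [loca_norm, mul_one, inner_sub_left] at h2
  have h3 := hc x hx
  linarith

theorem loca_key {X : Surf} {I : Iso X} (A : Appr I) (R R' : Rot) {c : P} {r : ℝ}
    (hc : ∀ x ∈ sqr c r, 1 / 2 < ⟪I.n R x, R'.R (ee 2)⟫) :
    ∃ K : ℝ, 0 ≤ K ∧ ∀ᶠ n in atTop, ∀ x ∈ sqr c r, ∀ y ∈ sqr c r,
      dist (locaG R' (un (A.w R n) x)) (locaG R' (un (A.w R n) y)) ≤
        K * (‖fderiv ℝ (A.W n) (X.psi R x) - fderiv ℝ (A.W n) (X.psi R y)‖ + dist x y) := by
  obtain ⟨C, hC, hW⟩ := A.bound_W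
  obtain ⟨L, hL, hl⟩ := loca_lip (X.imm_psi R).sm_un c r
  refine ⟨20 * (24 * C + 12 * C ^ 2 * L), by positivity, ?_⟩
  filter_upwards [hW, loca_ev A R R' hc] with n h1 h2 x hx y hy
  have m : ∀ z, X.psi R z ∈ thickening A.tau X.S := fun z =>
    self_subset_thickening A.tau_pos _ (X.psi_mem R z)
  rw [loca_G_eq R' (h2 x hx).le, loca_G_eq R' (h2 y hy).le]
  refine (loca_dist R' (h2 x hx).le (h2 y hy).le ((A.imm_w R n).norm_un y)).trans ?_
  rw [A.un_w, A.un_w]
  have h3 := loca_nrm (h1 _ (m x)).2 (h1 _ (m y)).2 (X.nu_unit _ (X.psi_mem R x))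
    (A.half n _ (X.psi_mem R x)) (A.half n _ (X.psi_mem R y))
  have h4 := hl x hx y hy
  rw [X.un_psi, X.un_psi] at h4
  have h5 : 12 * C ^ 2 * ‖X.nu (X.psi R x) - X.nu (X.psi R y)‖ ≤ 12 * C ^ 2 * (L * dist x y) :=
    mul_le_mul_of_nonneg_left h4 (by positivity)
  have h6 : 0 ≤ 24 * C * dist x y := by positivity
  have h7 : 0 ≤ 12 * C ^ 2 * L * ‖fderiv ℝ (A.W n) (X.psi R x) - fderiv ℝ (A.W n) (X.psi R y)‖ := by
    positivity
  unfold Surf.NW
  nlinarith

theorem loca_gauss {X : Surf} {I : Iso X} (A : Appr I) (R : Rot) (c : P) {r : ℝ} (hr : 0 < r) :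
    Tendsto (fun n => ∫ x in sqr c r, (kap (un (A.w R n)) x - X.ka R x)) atTop (𝓝 0) := by
  rw [Metric.tendsto_nhds]
  intro ε hε
  have hθ : 0 < ε / (8 * r) := by positivity
  filter_upwards [Metric.tendstoUniformlyOn_iff.1 (A.om_conv R (sqr_compact c r) 0) _ hθ,
    Metric.tendstoUniformlyOn_iff.1 (A.om_conv R (sqr_compact c r) 1) _ hθ] with n h0 h1
  have s1 := (X.imm_psi R).sm_om
  have s2 := (A.imm_w R n).sm_om
  have e1 : ∀ x, kap (un (A.w R n)) x - X.ka R x =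
      pd 0 (fun y => om (X.psi R) 1 y - om (A.w R n) 1 y) x
        - pd 1 (fun y => om (X.psi R) 0 y - om (A.w R n) 0 y) x := fun x => by
    rw [loca_pd_sub (s1 1) (s2 1), loca_pd_sub (s1 0) (s2 0), Surf.ka, (X.imm_psi R).gauss,
      (A.imm_w R n).gauss]
    ring
  simp only [e1]
  rw [green (((s1 0).sub (s2 0)).of_le (by exact_mod_cast le_top))
    (((s1 1).sub (s2 1)).of_le (by exact_mod_cast le_top)) c hr.le, Real.dist_eq, sub_zero]
  refine (abs_loop_le (K := ε / (8 * r)) hr.le (fun x hx => (h0 x hx).le)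
    fun x hx => (h1 x hx).le).trans_lt ?_
  have e2 : 4 * r * (ε / (8 * r)) = ε / 2 := by field_simp; ring
  rw [e2]; linarith

end Pool.Agent.Bor
end
end

-- part Pool.Agent.P.MP_26ecb7_gt.BesE
section

noncomputable section
open Set Filter Topology MeasureTheory Metric
open scoped RealInnerProductSpace ContDiff ENNReal NNReal

namespace Pool.Agent.Bor

theorem bese_bd {Z Y ι : Type} [TopologicalSpace Z] [NormedAddCommGroup Y] [Fintype ι] {K : Set Z}
    (hK : IsCompact K) {f : ι → Z → Y} (hf : ∀ i, Continuous (f i)) :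
    ∃ M : ℝ, 0 ≤ M ∧ ∀ x ∈ K, ∀ i, ‖f i x‖ ≤ M := by
  obtain ⟨M, hM⟩ := hK.exists_bound_of_continuousOn (f := fun x i => f i x)
    (continuous_pi hf).continuousOn
  exact ⟨max M 0, le_max_right _ _, fun x hx i =>
    ((norm_le_pi_norm (fun i => f i x) i).trans (hM x hx)).trans (le_max_left _ _)⟩

theorem bese_un {w : P → E} (hw : Imm w) (x : P) (i : Fin 2) {G B S : ℝ}
    (hG : ∀ k l, |gi w k l x| ≤ G) (hB : ∀ k, ‖pd k w x‖ ≤ B)
    (hS : ∀ l, ‖pd i (pd l w) x‖ ≤ S) : ‖pd i (un w) x‖ ≤ 4 * G * B * S := by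
  have hG0 : 0 ≤ G := (abs_nonneg _).trans (hG 0 0)
  have hS0 : 0 ≤ S := (norm_nonneg _).trans (hS 0)
  have h1 : ∀ l, |⟪pd i (un w) x, pd l w x⟫| ≤ S := fun l => by
    have h := hw.sf_eq i l x
    rw [sf] at h
    rw [h, abs_neg]
    refine (abs_real_inner_le_norm _ _).trans ?_
    rw [hw.norm_un, one_mul]
    exact hS l
  have h2 : ∀ k l, |gi w k l x * ⟪pd i (un w) x, pd l w x⟫| ≤ G * S := fun k l => by
    rw [abs_mul]
    exact mul_le_mul (hG k l) (h1 l) (abs_nonneg _) hG0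
  have h3 : ∀ k, ‖(∑ l, gi w k l x * ⟪pd i (un w) x, pd l w x⟫) • pd k w x‖ ≤ 2 * (G * S) * B :=
    fun k => by
      rw [norm_smul, Real.norm_eq_abs, Fin.sum_univ_two]
      refine mul_le_mul ((abs_add_le _ _).trans ?_) (hB k) (norm_nonneg _) (by positivity)
      linarith [h2 k 0, h2 k 1]
  have h4 := hw.vec_exp x (pd i (un w) x)
  rw [real_inner_comm, hw.un_pd_un, zero_smul, zero_add, Fin.sum_univ_two] at h4
  have h5 := (norm_add_le _ _).trans (add_le_add (h3 0) (h3 1))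
  rw [← h4] at h5
  linarith

/-- the derivative of a function of the normal is controlled by the second derivative -/
theorem Appr.pd_rate {X : Surf} {I : Iso X} (A : Appr I) (R : Rot) {K : Set P} (hK : IsCompact K)
    {Φ : E → ℝ} (hΦ : ContDiff ℝ ∞ Φ) : ∃ C : ℝ, 0 ≤ C ∧ ∀ᶠ n in atTop, ∀ x ∈ K, ∀ i,
      |pd i (fun y => Φ (un (A.w R n) y)) x|
        ≤ C * (‖fderiv ℝ (fderiv ℝ (A.W n)) (X.psi R x)‖ + 1) := by
  obtain ⟨C, hC, hW⟩ := A.bound_W
  have sp := X.sm_psi R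
  obtain ⟨M1, h1, b1⟩ := bese_bd hK fun i => (contDiff_pd sp i).continuous
  obtain ⟨M2, h2, b2⟩ := bese_bd hK (f := fun t : Fin 2 × Fin 2 => pd t.1 (pd t.2 (X.psi R)))
    fun t => (contDiff_pd (contDiff_pd sp t.2) t.1).continuous
  obtain ⟨M3, h3, b3⟩ := bese_bd hK (f := fun t : Fin 2 × Fin 2 => gi (X.psi R) t.1 t.2)
    fun t => ((X.imm_psi R).sm_gi t.1 t.2).continuous
  obtain ⟨M4, h4, b4⟩ := bese_bd (isCompact_sphere (0 : E) 1) (f := fun _ : Unit => fderiv ℝ Φ)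
    fun _ => hΦ.continuous_fderiv (by simp)
  refine ⟨M4 * (4 * (M3 + 1) * (C * M1) * (M1 * M1 + C * M2)), by positivity, ?_⟩
  filter_upwards [hW, eventually_all.2 fun t : Fin 2 × Fin 2 =>
    Metric.tendstoUniformlyOn_iff.1 (A.gi_conv R hK t.1 t.2) 1 one_pos] with n g1 g2 x hx i
  have hw := A.imm_w R n
  have g3 := (g1 _ (A.cconv_mem R x)).2
  have hD := norm_nonneg (fderiv ℝ (fderiv ℝ (A.W n)) (X.psi R x))
  have e : pd i (fun y => Φ (un (A.w R n) y)) x =
      fderiv ℝ Φ (un (A.w R n) x) (pd i (un (A.w R n)) x) := by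
    unfold pd
    rw [fderiv_fun_comp x (hΦ.differentiable (by simp) _) (hw.sm_un.differentiable (by simp) x)]
    rfl
  have k1 : ∀ k l, |gi (A.w R n) k l x| ≤ M3 + 1 := fun k l => by
    have a1 := g2 (k, l) x hx
    have a2 := b3 x hx (k, l)
    rw [Real.dist_eq, abs_sub_comm] at a1
    rw [Real.norm_eq_abs] at a2
    have a3 := abs_sub_abs_le_abs_sub (gi (A.w R n) k l x) (gi (X.psi R) k l x)
    linarith
  have k2 : ∀ k, ‖pd k (A.w R n) x‖ ≤ C * M1 := fun k => by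
    rw [A.pd_w]
    exact (ContinuousLinearMap.le_opNorm _ _).trans
      (mul_le_mul g3 (b1 x hx k) (norm_nonneg _) hC)
  have k3 : ∀ l, ‖pd i (pd l (A.w R n)) x‖ ≤
      (M1 * M1 + C * M2) * (‖fderiv ℝ (fderiv ℝ (A.W n)) (X.psi R x)‖ + 1) := fun l => by
    rw [A.pd_pd_w]
    have a1 := (ContinuousLinearMap.le_opNorm₂ (fderiv ℝ (fderiv ℝ (A.W n)) (X.psi R x))
      (pd i (X.psi R) x) (pd l (X.psi R) x)).trans (mul_le_mul
        (mul_le_mul_of_nonneg_left (b1 x hx i) hD) (b1 x hx l) (norm_nonneg _) (by positivity))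
    have a2 := (ContinuousLinearMap.le_opNorm (fderiv ℝ (A.W n) (X.psi R x))
      (pd i (pd l (X.psi R)) x)).trans (mul_le_mul g3 (b2 x hx (i, l)) (norm_nonneg _) hC)
    have a3 : 0 ≤ C * M2 * ‖fderiv ℝ (fderiv ℝ (A.W n)) (X.psi R x)‖ := by positivity
    have a4 : 0 ≤ M1 * M1 := by positivity
    refine (norm_add_le _ _).trans ((add_le_add a1 a2).trans ?_)
    linarith
  have k4 := bese_un hw x i k1 k2 k3
  rw [e, ← Real.norm_eq_abs]
  refine ((ContinuousLinearMap.le_opNorm _ _).trans (mul_le_mul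
    (b4 _ (mem_sphere_zero_iff_norm.2 (hw.norm_un x)) ()) k4 (norm_nonneg _) h4)).trans_eq ?_
  ring

theorem bese_parts {f a b : P → ℝ} (hf : ContDiff ℝ ∞ f) (ha : ContDiff ℝ ∞ a)
    (hb : ContDiff ℝ ∞ b) (c : P) {r M δ : ℝ} (hr : 0 ≤ r) (hM : ∀ x, |f x| ≤ M)
    (h0 : ∀ x ∈ sqr c r, |a x| ≤ δ) (h1 : ∀ x ∈ sqr c r, |b x| ≤ δ) :
    |∫ x in sqr c r, f x * (pd 1 a x - pd 0 b x)| ≤
      (∫ x in sqr c r, (|pd 0 f x| * |b x| + |pd 1 f x| * |a x|)) + 4 * r * (M * δ) := by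
  have hM0 : 0 ≤ M := (abs_nonneg _).trans (hM c)
  have one : ∀ {g : P → ℝ}, ContDiff ℝ ∞ g → ContDiff ℝ 1 g := fun hg =>
    hg.of_le (by exact_mod_cast le_top)
  have df : ∀ {g : P → ℝ}, ContDiff ℝ ∞ g → ∀ x, DifferentiableAt ℝ g x := fun hg x =>
    hg.differentiable (by simp) x
  have ig : ∀ {g : P → ℝ}, Continuous g → IntegrableOn g (sqr c r) := fun hg =>
    hg.continuousOn.integrableOn_compact (sqr_compact c r)
  have c0 := green0_cont_pd (one hf) 0
  have c1 := green0_cont_pd (one hf) 1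
  have e : ∀ x, f x * (pd 1 a x - pd 0 b x) = (pd 0 f x * b x - pd 1 f x * a x) -
      (pd 0 (fun y => f y * b y) x - pd 1 (fun y => f y * a y) x) := fun x => by
    rw [green0_pd_mul (df hf x) (df hb x), green0_pd_mul (df hf x) (df ha x)]
    ring
  have i1 : IntegrableOn (fun x => pd 0 f x * b x - pd 1 f x * a x) (sqr c r) :=
    ig ((c0.mul hb.continuous).sub (c1.mul ha.continuous))
  have i2 : IntegrableOn (fun x => pd 0 (fun y => f y * b y) x - pd 1 (fun y => f y * a y) x)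
      (sqr c r) :=
    ig ((green0_cont_pd (one (hf.mul hb)) 0).sub (green0_cont_pd (one (hf.mul ha)) 1))
  simp only [e]
  rw [integral_sub i1 i2, green (one (hf.mul ha)) (one (hf.mul hb)) c hr]
  refine (abs_sub _ _).trans (add_le_add ?_ (abs_loop_le hr (fun x hx => ?_) fun x hx => ?_))
  · refine abs_integral_le_integral_abs.trans (integral_mono i1.abs
      (ig ((c0.abs.mul hb.continuous.abs).add (c1.abs.mul ha.continuous.abs))) fun x => ?_)
    exact (abs_sub _ _).trans_eq (by rw [abs_mul, abs_mul])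
  · rw [abs_mul]
    exact mul_le_mul (hM x) (h0 x hx) (abs_nonneg _) hM0
  · rw [abs_mul]
    exact mul_le_mul (hM x) (h1 x hx) (abs_nonneg _) hM0

/-- integration by parts on a square -/
theorem Appr.parts {X : Surf} {I : Iso X} (A : Appr I) (R : Rot) {Φ : E → ℝ} (hΦ : ContDiff ℝ ∞ Φ)
    (c : P) {r : ℝ} (hr : 0 < r) : ∀ θ > 0, ∀ᶠ n in atTop,
      |∫ x in sqr c r, Φ (un (A.w R n) x) * (kap (un (A.w R n)) x - X.ka R x)| ≤
        (∫ x in sqr c r, (|pd 0 (fun y => Φ (un (A.w R n) y)) x| *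
            |om (A.w R n) 1 x - om (X.psi R) 1 x|
          + |pd 1 (fun y => Φ (un (A.w R n) y)) x| * |om (A.w R n) 0 x - om (X.psi R) 0 x|)) + θ := by
  intro θ hθ
  obtain ⟨M, hM, bM⟩ := bese_bd (isCompact_sphere (0 : E) 1) (f := fun _ : Unit => Φ)
    fun _ => hΦ.continuous
  have hδ : 0 < θ / (4 * r * (M + 1)) := by positivity
  filter_upwards [Metric.tendstoUniformlyOn_iff.1 (A.om_conv R (sqr_compact c r) 0) _ hδ,
    Metric.tendstoUniformlyOn_iff.1 (A.om_conv R (sqr_compact c r) 1) _ hδ] with n h0 h1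
  have hw := A.imm_w R n
  have s1 := (X.imm_psi R).sm_om
  have s2 := hw.sm_om
  have e1 : ∀ x, kap (un (A.w R n)) x - X.ka R x =
      pd 1 (fun y => om (A.w R n) 0 y - om (X.psi R) 0 y) x
        - pd 0 (fun y => om (A.w R n) 1 y - om (X.psi R) 1 y) x := fun x => by
    rw [loca_pd_sub (s2 1) (s1 1), loca_pd_sub (s2 0) (s1 0), Surf.ka, (X.imm_psi R).gauss,
      hw.gauss]
    ring
  simp only [e1]
  have h := bese_parts (f := fun y => Φ (un (A.w R n) y)) (hΦ.comp hw.sm_un) ((s2 0).sub (s1 0))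
    ((s2 1).sub (s1 1)) c (M := M + 1) (δ := θ / (4 * r * (M + 1))) hr.le
    (fun x => (bM _ (mem_sphere_zero_iff_norm.2 (hw.norm_un x)) ()).trans (by linarith))
    (fun x hx => by rw [abs_sub_comm]; exact (h0 x hx).le)
    (fun x hx => by rw [abs_sub_comm]; exact (h1 x hx).le)
  refine h.trans_eq (congrArg _ ?_)
  field_simp

end Pool.Agent.Bor
end
end

-- part Pool.Agent.P.MP_26ecb7_gt.BesI0
section

noncomputable section
open Set Filter Topology MeasureTheory Metric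
open scoped RealInnerProductSpace ContDiff ENNReal NNReal

namespace Pool.Agent.Bor

variable {X : Surf} {I : Iso X} {A : Appr I} {ε : ℕ → ℝ} {V : E → E}

theorem besi0_alg {C1 C2 C3 k l m e p o : ℝ} (h1 : 0 ≤ C1) (h2 : 0 ≤ C2) (h3 : 0 ≤ C3)
    (hk : 0 ≤ k) (hl : 0 ≤ l) (he : 0 < e) (hm : l ≤ m) (ho0 : 0 ≤ o)
    (hp : p ≤ C1 * (k * l / e + 1)) (ho : o ≤ C2 * (C3 * (l ^ 2 / e + e) + k * l)) :
    p * o ≤ C1 * C2 * k * C3 * (l ^ 3 / e ^ 2)
      + C1 * C2 * ((k * C3 + k) * m + (k ^ 2 + C3) * (m ^ 2 / e) + C3 * e) := by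
  have a1 : p * o ≤ C1 * (k * l / e + 1) * (C2 * (C3 * (l ^ 2 / e + e) + k * l)) :=
    mul_le_mul hp ho ho0 (by positivity)
  have a2 : C1 * (k * l / e + 1) * (C2 * (C3 * (l ^ 2 / e + e) + k * l)) =
      C1 * C2 * k * C3 * (l ^ 3 / e ^ 2)
      + C1 * C2 * ((k * C3 + k) * l + (k ^ 2 + C3) * (l ^ 2 / e) + C3 * e) := by
    field_simp
    ring
  rw [a2] at a1
  refine a1.trans (add_le_add le_rfl (mul_le_mul_of_nonneg_left ?_ (by positivity)))
  gcongr

theorem besi0_lim {a b c B al : ℝ} (hal : 1 / 2 < al) {ε : ℕ → ℝ} (hp : ∀ n, 0 < ε n)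
    (hε : Tendsto ε atTop (𝓝 0)) :
    Tendsto (fun n => a * (B * ε n ^ al) + b * ((B * ε n ^ al) ^ 2 / ε n) + c * ε n) atTop
      (𝓝 0) := by
  have h : ∀ t : ℝ, 0 < t → Tendsto (fun n => ε n ^ t) atTop (𝓝 0) := fun t ht => by
    have h2 := (Real.continuousAt_rpow_const 0 t (Or.inr ht.le)).tendsto
    rw [Real.zero_rpow ht.ne'] at h2
    exact h2.comp hε
  have e : ∀ n, (B * ε n ^ al) ^ 2 / ε n = B ^ 2 * ε n ^ (2 * al - 1) := fun n => by
    rw [Real.rpow_sub_one (hp n).ne', mul_comm 2 al, Real.rpow_mul (hp n).le, Real.rpow_two]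
    ring
  simp only [e]
  have h1 := ((((h al (by linarith)).const_mul B).const_mul a).add
    (((h (2 * al - 1) (by linarith)).const_mul (B ^ 2)).const_mul b)).add (hε.const_mul c)
  simpa using h1

/-- pointwise bound for the anomaly density -/
theorem Mo.prod_le (M : Mo A ε V) (R : Rot) {K : Set P} (hK : IsCompact K) {Φ : E → ℝ}
    (hΦ : ContDiff ℝ ∞ Φ) : ∃ C : ℝ, 0 ≤ C ∧ ∀ θ > 0, ∀ᶠ n in atTop, ∀ x ∈ K, ∀ i j,
      |pd i (fun y => Φ (un (A.w R n) y)) x| * |om (A.w R n) j x - om (X.psi R) j x|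
        ≤ C * (a3 (fderiv ℝ V) (ε n) (X.psi R x) / ε n ^ 2) + θ := by
  have hτ := A.tau_pos
  have hK3 : IsCompact (cthickening (3 * A.tau) X.S) := X.cpt.cthickening
  obtain ⟨H, hH0, hH⟩ := I.hol_V hK3 M.o_not
  have hal : 0 < I.al := by linarith [I.al_gt]
  have hDc : Continuous (fderiv ℝ V) := M.c1.continuous_fderiv (by simp)
  have hD : ∀ z ∈ cthickening (3 * A.tau) X.S, fderiv ℝ V z = fderiv ℝ I.V z :=
    fun z hz => (M.eq z hz).fderiv_eq
  have hne : ∀ z ∈ cthickening (3 * A.tau) X.S, z ≠ X.o := fun z hz h => M.o_not (h ▸ hz)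
  have hG : thickening (3 * A.tau) X.S ⊆ cthickening (3 * A.tau) X.S :=
    thickening_subset_cthickening _ _
  obtain ⟨C3, h3, hchr⟩ := chr_rate (V := V) (u := X.pr) (G := thickening (3 * A.tau) X.S)
    (K := X.S) hτ X.cpt isOpen_thickening
    (cthickening_subset_thickening' (by positivity) (by linarith) _) M.c1
    (fun z hz => X.pr_smooth z (hne z (hG hz)))
    (fun z hz b c => by rw [hD z (hG hz)]; exact I.inner_V (hne z (hG hz)) b c)
  obtain ⟨C2, h2, hom⟩ := A.om_rate R hK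
  obtain ⟨C1, h1, hpd⟩ := A.pd_rate R hK hΦ
  obtain ⟨c1, hc1, havg⟩ := avg_bound
  obtain ⟨c2, hc2, hpow⟩ := av_pow
  set v1 : ℝ := volume.real (closedBall (0 : E) 1) with hv1
  have hv : 0 ≤ v1 := measureReal_nonneg
  refine ⟨C1 * C2 * (c1 * c2) * C3, by positivity, fun θ hθ => ?_⟩
  have hlim := (besi0_lim (a := c1 * c2 * C3 + c1 * c2) (b := (c1 * c2) ^ 2 + C3) (c := C3)
    (B := (v1 + 1) * H) I.al_gt M.pos M.lim).const_mul (C1 * C2)
  rw [mul_zero] at hlim
  filter_upwards [hom, hpd, hlim.eventually (gt_mem_nhds hθ)] with n hn1 hn2 hn3 x hx i j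
  set q := X.psi R x with hq
  have hqS : q ∈ X.S := X.psi_mem R x
  have hqK : q ∈ cthickening (3 * A.tau) X.S := self_subset_cthickening _ hqS
  have he := M.pos n
  have ha0 : 0 ≤ a3 (fderiv ℝ V) (ε n) q := a3_nonneg _ _ _
  obtain ⟨l, hl, hl3⟩ : ∃ l : ℝ, 0 ≤ l ∧ l ^ 3 = a3 (fderiv ℝ V) (ε n) q :=
    ⟨a3 (fderiv ℝ V) (ε n) q ^ ((3 : ℕ) : ℝ)⁻¹, Real.rpow_nonneg ha0 _,
      Real.rpow_inv_natCast_pow ha0 (by norm_num)⟩
  have hFc : Continuous fun z => ‖fderiv ℝ V z - fderiv ℝ V q‖ := (hDc.sub continuous_const).norm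
  have hm : l ≤ (v1 + 1) * H * ε n ^ I.al := by
    have hm0 : 0 ≤ H * ε n ^ I.al := mul_nonneg hH0 (Real.rpow_nonneg he.le _)
    have b1 : a3 (fderiv ℝ V) (ε n) q ≤ av (ε n) (fun _ => (H * ε n ^ I.al) ^ 3) q := by
      refine av_mono he (hFc.pow 3) continuous_const fun z hz => ?_
      have hz' : dist z q ≤ ε n := hz
      have hzK : z ∈ cthickening (3 * A.tau) X.S :=
        mem_cthickening_of_dist_le z q _ _ hqS (by linarith [M.le n])
      refine pow_le_pow_left₀ (norm_nonneg _) ?_ 3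
      rw [hD z hzK, hD q hqK]
      refine (hH z hzK q hqK).trans (mul_le_mul_of_nonneg_left ?_ hH0)
      rw [dist_eq_norm] at hz'
      exact Real.rpow_le_rpow (norm_nonneg _) hz' hal.le
    rw [av_const, ← hv1, ← hl3] at b1
    have b2 : v1 ≤ (v1 + 1) ^ 3 := by nlinarith [sq_nonneg v1, mul_nonneg hv (sq_nonneg v1)]
    refine le_of_pow_le_pow_left₀ (n := 3) (by norm_num) (by positivity) (b1.trans ?_)
    rw [mul_assoc, mul_pow (v1 + 1)]
    exact mul_le_mul_of_nonneg_right b2 (by positivity)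
  have hav : av (ε n) (fun z => ‖fderiv ℝ V z - fderiv ℝ V q‖) q ≤ c2 * l :=
    (hpow (ε n) _ q l hFc (fun _ => norm_nonneg _) hl hl3.ge).1
  obtain ⟨g1, g2⟩ := havg _ (ε n) (fderiv ℝ V) q (fderiv ℝ V q) he hDc
  have hW : fderiv ℝ (A.W n) = mol (ε n) (fderiv ℝ V) := by rw [M.W_eq, fderiv_mol he M.c1]
  have g3 : c1 * av (ε n) (fun z => ‖fderiv ℝ V z - fderiv ℝ V q‖) q ≤ c1 * c2 * l := by
    rw [mul_assoc]; exact mul_le_mul_of_nonneg_left hav hc1
  have s0 : 0 ≤ C3 * (l ^ 2 / ε n + ε n) := by positivity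
  have s1 : 0 ≤ c1 * c2 * l := by positivity
  have ho := hn1 x hx (C3 * (l ^ 2 / ε n + ε n) + c1 * c2 * l) (by positivity)
    (fun a b c => by
      rw [M.W_eq]
      refine (hchr (ε n) he (M.le n) q hqS l hl hl3.ge a b c).trans ?_
      gcongr
      linarith)
    (by rw [hW, ← hD q hqK]; linarith) j
  have hp : |pd i (fun y => Φ (un (A.w R n) y)) x| ≤ C1 * (c1 * c2 * l / ε n + 1) := by
    refine (hn2 x hx i).trans (mul_le_mul_of_nonneg_left (add_le_add ?_ le_rfl) h1)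
    rw [hW]
    exact g2.trans (div_le_div_of_nonneg_right g3 he.le)
  have := besi0_alg h1 h2 h3 (mul_nonneg hc1 hc2) hl he hm (abs_nonneg _) hp ho
  rw [hl3] at this
  linarith

end Pool.Agent.Bor
end
end

-- part Pool.Agent.P.MP_26ecb7_gt.BesF
section

noncomputable section
open Set Filter Topology MeasureTheory Metric
open scoped RealInnerProductSpace ContDiff ENNReal NNReal

namespace Pool.Agent.Bor

/-- area in a chart is bounded by Hausdorff measure -/
theorem Surf.vol_le (X : Surf) (R : Rot) {K : Set P} (hK : IsCompact K) : ∃ C : ℝ≥0,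
    ∀ B ⊆ K, volume B ≤ C * μH[2] (X.psi R '' B) := by
  rcases K.eq_empty_or_nonempty with rfl | hne
  · refine ⟨0, fun B hB => ?_⟩
    rw [subset_empty_iff.1 hB]
    simp
  have hc : Continuous (X.psi R) := (X.sm_psi R).continuous
  obtain ⟨x0, -, hx0⟩ := hK.exists_isMinOn hne
    (f := fun x => ⟪X.psi R x - X.o, R.R (ee 2)⟫) (by fun_prop)
  obtain ⟨x1, -, hx1⟩ := hK.exists_isMaxOn hne
    (f := fun x => ‖X.psi R x - X.o‖) (by fun_prop)
  set c : ℝ := ⟪X.psi R x0 - X.o, R.R (ee 2)⟫ with hcdef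
  set M : ℝ := ‖X.psi R x1 - X.o‖ with hM
  have hc0 : 0 < c := X.inner_psi R x0
  have hM0 : 0 ≤ M := norm_nonneg _
  set L : ℝ≥0 := ⟨1 / c + M / c ^ 2, by positivity⟩ with hLdef
  refine ⟨L ^ 2, fun B hB => ?_⟩
  have hL : LipschitzOnWith L (fun z => gn R (z - X.o)) (X.psi R '' B) := by
    refine LipschitzOnWith.of_dist_le_mul ?_
    rintro _ ⟨y, hy, rfl⟩ _ ⟨z, hz, rfl⟩
    have := dist_gn_le R hc0 (hx0 (hB hy)) (hx0 (hB hz)) (hx1 (hB hz))
    rw [sub_sub_sub_cancel_right] at this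
    rw [dist_eq_norm (X.psi R y)]
    exact this
  have hsub : B ⊆ (fun z => gn R (z - X.o)) '' (X.psi R '' B) := fun x hx =>
    ⟨X.psi R x, ⟨x, hx, rfl⟩, X.gn_psi R x⟩
  rw [← hausdorffMeasure_prod_real]
  refine (measure_mono hsub).trans ((hL.hausdorffMeasure_image_le (by norm_num)).trans ?_)
  rw [ENNReal.rpow_two, ENNReal.coe_pow]

theorem Surf.lint_chart (X : Surf) (R : Rot) {K : Set P} (hK : IsCompact K) : ∃ C : ℝ≥0,
    ∀ B ⊆ K, MeasurableSet B → ∀ T : Set E, (∀ x ∈ B, X.psi R x ∈ T) → ∀ h : E → ℝ≥0∞,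
      ∫⁻ x in B, h (X.psi R x) ≤ C * ∫⁻ y in T, h y ∂μH[2] := by
  obtain ⟨C, hC⟩ := X.vol_le R hK
  refine ⟨C, fun B hB hBm T hT h => ?_⟩
  have hc : Continuous (X.psi R) := (X.sm_psi R).continuous
  have hE : MeasurableEmbedding (X.psi R) := hc.measurableEmbedding (X.psi_inj R)
  have hle : (volume.restrict B).map (X.psi R) ≤ (C : ℝ≥0∞) • (μH[2] : Measure E).restrict T := by
    rw [Measure.le_iff]
    intro D hD
    rw [Measure.map_apply hc.measurable hD, Measure.restrict_apply (hc.measurable hD),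
      Measure.smul_apply, Measure.restrict_apply hD, smul_eq_mul]
    refine (hC _ (inter_subset_right.trans hB)).trans ?_
    gcongr
    rintro _ ⟨x, hx, rfl⟩
    exact ⟨hx.1, hT x hx.2⟩
  rw [← hE.lintegral_map]
  refine (lintegral_mono' hle le_rfl).trans ?_
  rw [lintegral_smul_measure, smul_eq_mul]

theorem besf_haar {Z : Type} [NormedAddCommGroup Z] [NormedSpace ℝ Z] [FiniteDimensional ℝ Z]
    [MeasurableSpace Z] [BorelSpace Z] (μ : Measure Z) [μ.IsAddHaarMeasure]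
    (h3 : Module.finrank ℝ Z = 3) :
    ∃ a b : ℝ≥0, (∀ s, μ s = a * (μH[3] : Measure Z) s) ∧ ∀ s, (μH[3] : Measure Z) s = b * μ s := by
  have hH : (μH[3] : Measure Z).IsAddHaarMeasure := by
    have := isAddHaarMeasure_hausdorffMeasure (E := Z)
    rw [h3] at this
    exact_mod_cast this
  refine ⟨Measure.addHaarScalarFactor μ μH[3], Measure.addHaarScalarFactor μH[3] μ, ?_, ?_⟩
  · intro s
    conv_lhs => rw [Measure.isAddLeftInvariant_eq_smul μ μH[3]]
    rfl
  · intro s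
    conv_lhs => rw [Measure.isAddLeftInvariant_eq_smul μH[3] μ]
    rfl

/-- volume of a thin cone over a piece of a chart -/
theorem Surf.vol_cone (X : Surf) (R : Rot) {K : Set P} (hK : IsCompact K) : ∃ C : ℝ≥0,
    ∀ B ⊆ K, ∀ δ : ℝ, 0 ≤ δ → δ ≤ 1 →
      volume {z : E | ∃ x ∈ B, ∃ s : ℝ, |s - 1| ≤ δ ∧ z = X.o + s • (X.psi R x - X.o)}
        ≤ C * ENNReal.ofReal δ * volume B := by
  obtain ⟨a, -, ha, -⟩ := besf_haar (volume : Measure E) (by simp)
  obtain ⟨-, b, -, hb⟩ := besf_haar ((volume : Measure P).prod (volume : Measure ℝ)) (by simp)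
  set Φ : P × ℝ → E := fun p => X.o + p.2 • (X.psi R p.1 - X.o) with hΦ
  have hsm : ContDiff ℝ 1 Φ := by
    have h1 : ContDiff ℝ 1 (X.psi R) := (X.sm_psi R).of_le (by exact_mod_cast le_top)
    exact contDiff_const.add (contDiff_snd.smul ((h1.comp contDiff_fst).sub contDiff_const))
  obtain ⟨L, hL⟩ := (hsm.locallyLipschitz.locallyLipschitzOn
    (s := K ×ˢ Icc (0 : ℝ) 2)).exists_lipschitzOnWith_of_compact (hK.prod isCompact_Icc)
  refine ⟨a * L ^ 3 * b * 2, fun B hB δ h0 h1 => ?_⟩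
  have hsub : {z : E | ∃ x ∈ B, ∃ s : ℝ, |s - 1| ≤ δ ∧ z = X.o + s • (X.psi R x - X.o)}
      ⊆ Φ '' (B ×ˢ Icc (1 - δ) (1 + δ)) := by
    rintro z ⟨x, hx, s, hs, rfl⟩
    rw [abs_le] at hs
    exact ⟨(x, s), ⟨hx, by linarith [hs.1], by linarith [hs.2]⟩, rfl⟩
  have hL' : LipschitzOnWith L Φ (B ×ˢ Icc (1 - δ) (1 + δ)) :=
    hL.mono (prod_mono hB (Icc_subset_Icc (by linarith) (by linarith)))
  refine (measure_mono hsub).trans ?_
  rw [ha]
  have h2 := hL'.hausdorffMeasure_image_le (d := 3) (by norm_num)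
  rw [hb, Measure.prod_prod, Real.volume_Icc, show 1 + δ - (1 - δ) = 2 * δ by ring,
    ENNReal.ofReal_mul (by norm_num), show (3 : ℝ) = ((3 : ℕ) : ℝ) by norm_num,
    ENNReal.rpow_natCast] at h2
  refine (mul_le_mul_right (by exact_mod_cast h2) _).trans (le_of_eq ?_)
  simp only [ENNReal.coe_mul, ENNReal.coe_pow, ENNReal.coe_ofNat, ENNReal.ofReal_ofNat]
  ring

end Pool.Agent.Bor
end
end

-- part Pool.Agent.P.MP_26ecb7_gt.BesG
section

noncomputable section
open Set Filter Topology MeasureTheory Metric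
open scoped RealInnerProductSpace ContDiff ENNReal NNReal

namespace Pool.Agent.Bor

theorem besg_geo (X : Surf) (R : Rot) (ρ : ℝ) : ∃ L t : ℝ, 0 < L ∧ 0 < t ∧ L * t ≤ 1 ∧
    ∀ x ∈ closedBall (0 : P) ρ, ∀ ε, 0 < ε → ε ≤ t → ∀ z ∈ closedBall (X.psi R x) ε,
      ∃ x' ∈ closedBall (0 : P) (ρ + 1), X.psi R x' = X.pr z ∧ dist (X.pr z) (X.psi R x) < L * ε ∧
        ∃ s : ℝ, |s - 1| ≤ L * ε ∧ z = X.o + s • (X.psi R x' - X.o) := by
  have hc : Continuous (X.psi R) := (X.sm_psi R).continuous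
  have hK := isCompact_closedBall (0 : P) (ρ + 1)
  obtain ⟨c, hc0, hc1⟩ := hK.exists_forall_le' (f := fun x => ⟪X.psi R x - X.o, R.R (ee 2)⟫)
    (by fun_prop) fun x _ => X.inner_psi R x
  obtain ⟨M, hM⟩ := hK.exists_bound_of_continuousOn (f := fun x => X.psi R x - X.o) (by fun_prop)
  obtain ⟨Lp, hLp⟩ := (X.sm_psi R).contDiffOn.exists_lipschitzOnWith (by simp)
    (convex_closedBall (0 : P) (ρ + 1)) hK
  have he : ‖R.R (ee 2)‖ = 1 := by rw [LinearIsometryEquiv.norm_map, alg0_norm_ee]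
  have hin : ∀ y : E, |⟪y, R.R (ee 2)⟫| ≤ ‖y‖ := fun y =>
    (abs_real_inner_le_norm _ _).trans_eq (by rw [he, mul_one])
  obtain ⟨L1, hL1, e1⟩ : ∃ L1 : ℝ, 0 < L1 ∧ L1 = 1 / (c / 2) + |M| / (c / 2) ^ 2 :=
    ⟨_, by positivity, rfl⟩
  have hp : (0 : ℝ) ≤ Lp := Lp.2
  obtain ⟨L2, hL2, e2⟩ : ∃ L2 : ℝ, 0 < L2 ∧ L2 = (1 + Lp * L1) / c := ⟨_, by positivity, rfl⟩
  have hpl : 0 ≤ (Lp : ℝ) * L1 := by positivity
  have hL : 0 < L1 + Lp * L1 + L2 := by positivity
  refine ⟨L1 + Lp * L1 + L2, min (c / 2) (1 / (L1 + Lp * L1 + L2)), hL, by positivity, ?_,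
    fun x hx ε hε hεt z hz => ?_⟩
  · exact (mul_le_mul_of_nonneg_left (min_le_right _ _) hL.le).trans_eq (by field_simp)
  have hx1 : x ∈ closedBall (0 : P) (ρ + 1) := closedBall_subset_closedBall (by linarith) hx
  have g1 : ε ≤ c / 2 := hεt.trans (min_le_left _ _)
  have g2 : (L1 + Lp * L1 + L2) * ε ≤ 1 :=
    (mul_le_mul_of_nonneg_left (hεt.trans (min_le_right _ _)) hL.le).trans_eq (by field_simp)
  have g3 : ‖z - X.psi R x‖ ≤ ε := by rwa [mem_closedBall, dist_eq_norm] at hz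
  have g4 : c / 2 ≤ ⟪z - X.o, R.R (ee 2)⟫ := by
    have h1 := hc1 x hx1
    have h2 := (abs_le.1 (hin (z - X.psi R x))).1
    have h3 : z - X.o = (z - X.psi R x) + (X.psi R x - X.o) := by abel
    rw [h3, inner_add_left]
    linarith
  have g5 : dist (gn R (z - X.o)) x ≤ L1 * ε := by
    have h1 := dist_gn_le R (half_pos hc0) g4 ((half_le_self hc0.le).trans (hc1 x hx1))
      ((hM x hx1).trans (le_abs_self M))
    rw [X.gn_psi, sub_sub_sub_cancel_right, ← e1] at h1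
    exact h1.trans (mul_le_mul_of_nonneg_left g3 hL1.le)
  have p1 := mul_pos hL1 hε
  have p2 := mul_pos hL2 hε
  have p3 := mul_nonneg hpl hε.le
  have g6 : gn R (z - X.o) ∈ closedBall (0 : P) (ρ + 1) := by
    have h1 := dist_triangle (gn R (z - X.o)) x 0
    rw [mem_closedBall] at hx ⊢
    linarith
  have g7 := X.psi_gn R ((half_pos hc0).trans_le g4)
  have g8 : dist (X.pr z) (X.psi R x) ≤ Lp * L1 * ε := by
    rw [← g7, mul_assoc]
    exact (hLp.dist_le_mul _ g6 _ hx1).trans (mul_le_mul_of_nonneg_left g5 hp)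
  have hzo : z ≠ X.o := fun h => by
    rw [h, sub_self, inner_zero_left] at g4
    linarith
  obtain ⟨τ, hτ, e⟩ := X.pr_ray z hzo
  have e' : z = X.o + τ⁻¹ • (X.pr z - X.o) := by
    rw [e, add_sub_cancel_left, smul_smul, inv_mul_cancel₀ hτ.ne', one_smul, add_sub_cancel]
  refine ⟨_, g6, g7, by linarith, τ⁻¹, ?_, by rw [g7]; exact e'⟩
  have g9 : c ≤ ‖X.pr z - X.o‖ := by
    have h1 := hc1 _ g6
    rw [g7] at h1
    exact h1.trans ((le_abs_self _).trans (hin _))
  have g10 : z - X.pr z = (τ⁻¹ - 1) • (X.pr z - X.o) := by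
    rw [sub_smul, one_smul, ← add_sub_cancel_left X.o (τ⁻¹ • _), ← e']
    abel
  have g11 : |τ⁻¹ - 1| * c ≤ ε + Lp * L1 * ε := by
    have h1 := dist_triangle_right z (X.pr z) (X.psi R x)
    rw [dist_eq_norm, g10, norm_smul, Real.norm_eq_abs] at h1
    have h2 := mul_le_mul_of_nonneg_left g9 (abs_nonneg (τ⁻¹ - 1))
    rw [mem_closedBall] at hz
    linarith
  have g12 : |τ⁻¹ - 1| ≤ L2 * ε := by
    rw [e2, div_mul_eq_mul_div, le_div_iff₀ hc0]
    linarith
  linarith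

/-- integrals over small balls of functions of the projection -/
theorem Surf.lint_pr (X : Surf) (R : Rot) {K : Set P} (hK : IsCompact K) :
    ∃ (C : ℝ) (t : ℝ), 0 < C ∧ 0 < t ∧ ∀ x ∈ K, ∀ ε, 0 < ε → ε ≤ t → ∀ g : E → ℝ≥0∞, Measurable g →
      ∫⁻ z in closedBall (X.psi R x) ε, g (X.pr z) ≤
        ENNReal.ofReal (C * ε) * ∫⁻ y in X.S ∩ ball (X.psi R x) (C * ε), g y ∂μH[2] := by
  obtain ⟨ρ, hρ⟩ := hK.isBounded.subset_closedBall (0 : P)
  obtain ⟨L, t, hL, ht, hLt, h⟩ := besg_geo X R ρ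
  obtain ⟨C1, h1⟩ := X.vol_cone R (isCompact_closedBall (0 : P) (ρ + 1))
  obtain ⟨C2, h2⟩ := X.vol_le R (isCompact_closedBall (0 : P) (ρ + 1))
  have hm : Measurable X.pr := measurable_of_continuousOn_compl_singleton X.o fun z hz =>
    (X.pr_smooth z hz).continuousAt.continuousWithinAt
  have hC : (0 : ℝ) ≤ C1 * C2 := by positivity
  refine ⟨(C1 * C2 + 1) * L, t, by positivity, ht, fun x hx ε hε hεt g hg => ?_⟩
  have hLε := mul_pos hL hε
  have hle : L * ε ≤ (C1 * C2 + 1) * L * ε := by nlinarith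
  rw [← lintegral_map hg hm, ← smul_eq_mul, ← lintegral_smul_measure]
  refine lintegral_mono' (Measure.le_iff.2 fun D hD => ?_) le_rfl
  rw [Measure.map_apply hm hD, Measure.restrict_apply (hm hD), Measure.smul_apply,
    Measure.restrict_apply hD, smul_eq_mul]
  have h3 := h1 (closedBall 0 (ρ + 1) ∩ X.psi R ⁻¹' (D ∩ ball (X.psi R x) (L * ε)))
    inter_subset_left (L * ε) hLε.le ((mul_le_mul_of_nonneg_left hεt hL.le).trans hLt)
  have h4 := h2 (closedBall 0 (ρ + 1) ∩ X.psi R ⁻¹' (D ∩ ball (X.psi R x) (L * ε)))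
    inter_subset_left
  have h5 : μH[2] (X.psi R '' (closedBall 0 (ρ + 1) ∩ X.psi R ⁻¹' (D ∩ ball (X.psi R x) (L * ε)))) ≤
      μH[2] (D ∩ (X.S ∩ ball (X.psi R x) ((C1 * C2 + 1) * L * ε))) := by
    refine measure_mono ?_
    rintro _ ⟨y, ⟨-, g1, g2⟩, rfl⟩
    exact ⟨g1, X.psi_mem R y, ball_subset_ball hle g2⟩
  refine (measure_mono ?_).trans (h3.trans ?_)
  · rintro z ⟨g1, g2⟩
    obtain ⟨x', k1, k2, k3, s, k4, k5⟩ := h x (hρ hx) ε hε hεt z g2
    exact ⟨x', ⟨k1, by rw [mem_preimage, k2]; exact ⟨g1, k3⟩⟩, s, k4, k5⟩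
  · refine (mul_le_mul_right (h4.trans (mul_le_mul_right h5 _)) _).trans ?_
    rw [← mul_assoc]
    refine mul_le_mul_left ?_ _
    rw [mul_right_comm, ← ENNReal.coe_mul, ← ENNReal.ofReal_coe_nnreal,
      ← ENNReal.ofReal_mul (NNReal.coe_nonneg _)]
    refine ENNReal.ofReal_le_ofReal ?_
    push_cast
    nlinarith

end Pool.Agent.Bor
end
end

-- part Pool.Agent.P.MP_26ecb7_gt.BesH
section

noncomputable section
open Set Filter Topology MeasureTheory Metric
open scoped RealInnerProductSpace ContDiff ENNReal NNReal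

namespace Pool.Agent.Bor

variable {X : Surf} {I : Iso X} {A : Appr I} {ε : ℕ → ℝ} {V : E → E}

/-- increments of the extension in terms of increments on the surface -/
theorem Mo.incr (M : Mo A ε V) : ∃ C : ℝ, 0 ≤ C ∧ ∀ q ∈ X.S, ∀ z ∈ closedBall q A.tau,
    ‖fderiv ℝ V z - fderiv ℝ V q‖ ≤ C * (‖fderiv ℝ I.v q - fderiv ℝ I.v (X.pr z)‖ + ‖z - q‖) := by
  have hK : IsCompact (cthickening (3 * A.tau) X.S) := X.cpt.cthickening
  have hne : ∀ z ∈ cthickening (3 * A.tau) X.S, z ≠ X.o := fun z hz e => M.o_not (e ▸ hz)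
  obtain ⟨L, hL, h2⟩ := isob_lip (f := fderiv ℝ X.pr) hK fun z hz =>
    (X.pr_smooth z (hne z hz)).fderiv_right (m := 1)
      (WithTop.coe_le_coe.2 (le_top : (1 + 1 : ℕ∞) ≤ ⊤))
  obtain ⟨B1, hB1, h3⟩ := isob_bd (f := fderiv ℝ X.pr) hK fun z hz =>
    (X.pr_smooth z (hne z hz)).continuousAt_fderiv (by simp)
  obtain ⟨B2, hB2, h4⟩ := isob_bd (f := fderiv ℝ I.v) X.cpt fun z hz =>
    (I.c1 z hz).continuousAt_fderiv one_ne_zero
  refine ⟨B1 + B2 * L, by positivity, fun q hq z hz => ?_⟩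
  have hq' : q ∈ cthickening (3 * A.tau) X.S := self_subset_cthickening _ hq
  have hz' : z ∈ cthickening (3 * A.tau) X.S :=
    mem_cthickening_of_dist_le z q _ _ hq (by linarith [mem_closedBall.1 hz, A.tau_pos])
  have e : fderiv ℝ V z - fderiv ℝ V q =
      (fderiv ℝ I.v (X.pr z) - fderiv ℝ I.v q).comp (fderiv ℝ X.pr z) +
        (fderiv ℝ I.v q).comp (fderiv ℝ X.pr z - fderiv ℝ X.pr q) := by
    rw [(M.eq z hz').fderiv_eq, (M.eq q hq').fderiv_eq, I.fderiv_V (hne z hz'),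
      I.fderiv_V (hne q hq'), X.pr_self hq, ContinuousLinearMap.sub_comp,
      ContinuousLinearMap.comp_sub, sub_add_sub_cancel]
  rw [e]
  refine (norm_add_le _ _).trans ((add_le_add (ContinuousLinearMap.opNorm_comp_le _ _)
    (ContinuousLinearMap.opNorm_comp_le _ _)).trans ?_)
  refine (add_le_add (mul_le_mul_of_nonneg_left (h3 z hz') (norm_nonneg _))
    (mul_le_mul (h4 q hq) (h2 z hz' q hq') (norm_nonneg _) hB2)).trans ?_
  rw [norm_sub_rev (fderiv ℝ I.v (X.pr z))]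
  have k1 := mul_nonneg hB1 (norm_nonneg (z - q))
  have k2 := mul_nonneg (mul_nonneg hB2 hL) (norm_nonneg (fderiv ℝ I.v q - fderiv ℝ I.v (X.pr z)))
  linarith

theorem besh_cube {a C s t e : ℝ} (ha : 0 ≤ a) (hC : 0 ≤ C) (hs : 0 ≤ s) (ht : 0 ≤ t) (he : t ≤ e)
    (h : a ≤ C * (s + t)) : a ^ 3 ≤ 4 * C ^ 3 * s ^ 3 + 4 * C ^ 3 * e ^ 3 := by
  have h1 : a ≤ C * (s + e) := h.trans (mul_le_mul_of_nonneg_left (by linarith) hC)
  have h2 := pow_le_pow_left₀ ha h1 3
  have h3 : (s + e) ^ 3 ≤ 4 * s ^ 3 + 4 * e ^ 3 := by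
    nlinarith [mul_nonneg (add_nonneg hs (ht.trans he)) (sq_nonneg (s - e))]
  rw [mul_pow] at h2
  nlinarith [mul_le_mul_of_nonneg_left h3 (pow_nonneg hC 3)]

/-- pointwise bound for the third moment -/
theorem Mo.a3_le (M : Mo A ε V) (R : Rot) {K : Set P} (hK : IsCompact K) :
    ∃ C : ℝ, 0 < C ∧ ∀ᶠ n in atTop, ∀ x ∈ K,
      ENNReal.ofReal (a3 (fderiv ℝ V) (ε n) (X.psi R x) / ε n ^ 2) ≤
        ENNReal.ofReal (C / ε n ^ 4) * (∫⁻ z in X.S ∩ ball (X.psi R x) (C * ε n),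
          ‖fderiv ℝ I.v (X.psi R x) - fderiv ℝ I.v z‖ₑ ^ 3 ∂μH[2]) + ENNReal.ofReal (C * ε n) := by
  obtain ⟨C0, hC0, h0⟩ := M.incr
  obtain ⟨C1, t, hC1, ht, h1⟩ := X.lint_pr R hK
  obtain ⟨v, hv0, hv⟩ : ∃ v : ℝ, 0 ≤ v ∧ volume (ball (0 : E) 1) = ENNReal.ofReal v :=
    ⟨_, measureReal_nonneg, (ofReal_measureReal measure_ball_lt_top.ne).symm⟩
  have hc : Continuous (fderiv ℝ V) := M.c1.continuous_fderiv one_ne_zero
  have p1 : 0 ≤ 4 * C0 ^ 3 * C1 := by positivity
  have p2 : 0 ≤ 4 * C0 ^ 3 * v := by positivity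
  refine ⟨C1 + 4 * C0 ^ 3 * C1 + 4 * C0 ^ 3 * v, by positivity, ?_⟩
  filter_upwards [M.lim.eventually (eventually_le_nhds ht)] with n hn x hx
  have he := M.pos n
  have hτ := M.le n
  have hq := X.psi_mem R x
  have h2 := h1 x hx (ε n) he hn (fun y => ‖fderiv ℝ I.v (X.psi R x) - fderiv ℝ I.v y‖ₑ ^ 3)
    ((measurable_const.sub (measurable_fderiv ℝ I.v)).enorm.pow_const 3)
  generalize ε n = e at he hτ h2 ⊢
  generalize X.psi R x = q at hq h2 ⊢
  have h3 := ofReal_av he (F := fun z => ‖fderiv ℝ V z - fderiv ℝ V q‖ ^ 3) (by fun_prop)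
    (fun z => by positivity) q
  have h4 : ∫⁻ z in closedBall q e, ENNReal.ofReal (‖fderiv ℝ V z - fderiv ℝ V q‖ ^ 3) ≤
      ∫⁻ z in closedBall q e, (ENNReal.ofReal (4 * C0 ^ 3) *
        ‖fderiv ℝ I.v q - fderiv ℝ I.v (X.pr z)‖ₑ ^ 3 + ENNReal.ofReal (4 * C0 ^ 3 * e ^ 3)) := by
    refine setLIntegral_mono' measurableSet_closedBall fun z hz => ?_
    rw [← ofReal_norm, ← ENNReal.ofReal_pow (norm_nonneg _),
      ← ENNReal.ofReal_mul (by positivity), ← ENNReal.ofReal_add (by positivity) (by positivity)]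
    exact ENNReal.ofReal_le_ofReal (besh_cube (norm_nonneg _) hC0 (norm_nonneg _) (norm_nonneg _)
      (mem_closedBall_iff_norm.1 hz) (h0 q hq z (closedBall_subset_closedBall hτ hz)))
  rw [lintegral_add_right _ measurable_const, lintegral_const_mul' _ _ ENNReal.ofReal_ne_top,
    setLIntegral_const, Measure.addHaar_closedBall _ _ he.le, hv, finrank_euclideanSpace_fin,
    ← h3] at h4
  have h5 := h4.trans (add_le_add (mul_le_mul' le_rfl h2) le_rfl)
  have h6 : ∫⁻ y in X.S ∩ ball q (C1 * e), ‖fderiv ℝ I.v q - fderiv ℝ I.v y‖ₑ ^ 3 ∂μH[2] ≤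
      ∫⁻ y in X.S ∩ ball q ((C1 + 4 * C0 ^ 3 * C1 + 4 * C0 ^ 3 * v) * e),
        ‖fderiv ℝ I.v q - fderiv ℝ I.v y‖ₑ ^ 3 ∂μH[2] :=
    lintegral_mono_set (inter_subset_inter_right _ (ball_subset_ball
      (mul_le_mul_of_nonneg_right (by linarith) he.le)))
  have e1 : a3 (fderiv ℝ V) e q / e ^ 2 =
      1 / e ^ 5 * (e ^ 3 * av e (fun z => ‖fderiv ℝ V z - fderiv ℝ V q‖ ^ 3) q) := by
    rw [a3]
    field_simp
  rw [e1, ENNReal.ofReal_mul (by positivity)]
  refine (mul_le_mul' le_rfl h5).trans ?_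
  rw [mul_add, ← mul_assoc, ← mul_assoc, ← ENNReal.ofReal_mul (by positivity),
    ← ENNReal.ofReal_mul (by positivity), ← ENNReal.ofReal_mul (by positivity),
    ← ENNReal.ofReal_mul (by positivity), ← ENNReal.ofReal_mul (by positivity)]
  refine add_le_add (mul_le_mul' (ENNReal.ofReal_le_ofReal ?_) h6) (ENNReal.ofReal_le_ofReal ?_)
  · rw [show 1 / e ^ 5 * (4 * C0 ^ 3) * (C1 * e) = 4 * C0 ^ 3 * C1 / e ^ 4 by field_simp]
    exact div_le_div_of_nonneg_right (by linarith) (by positivity)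
  · rw [show 1 / e ^ 5 * (4 * C0 ^ 3 * e ^ 3 * (e ^ 3 * v)) = 4 * C0 ^ 3 * v * e by field_simp]
    exact mul_le_mul_of_nonneg_right (by linarith) he.le

end Pool.Agent.Bor
end
end

-- part Pool.Agent.P.MP_26ecb7_gt.BesH2
section

noncomputable section
open Set Filter Topology MeasureTheory Metric
open scoped RealInnerProductSpace ContDiff ENNReal NNReal

namespace Pool.Agent.Bor

variable {X : Surf} {I : Iso X} {A : Appr I} {ε : ℕ → ℝ} {V : E → E}

theorem besh2_mul {a : ℝ} (ha : 0 < a) : Tendsto (fun r : ℝ => a * r) (𝓝[>] 0) (𝓝[>] 0) := by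
  refine tendsto_nhdsWithin_iff.2 ⟨?_, ?_⟩
  · have : Tendsto (fun r : ℝ => a * r) (𝓝 0) (𝓝 (a * 0)) := tendsto_id.const_mul a
    rw [mul_zero] at this
    exact this.mono_left nhdsWithin_le_nhds
  · filter_upwards [self_mem_nhdsWithin] with r hr using mul_pos ha hr

/-- the third moments have density zero -/
theorem Mo.a3_lim (M : Mo A ε V) (R : Rot) {x : P} (h : BesS (fderiv ℝ I.v) X.S (X.psi R x)) :
    ∀ η > 0, ∃ ρ > 0, ∀ r, 0 < r → r < ρ → ∀ θ > 0, ∀ᶠ n in atTop,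
      ∫ y in closedBall x r, a3 (fderiv ℝ V) (ε n) (X.psi R y) / ε n ^ 2 ≤ η * r ^ 2 + θ := by
  intro η hη
  have hK : IsCompact (closedBall x 1) := isCompact_closedBall x 1
  obtain ⟨L, hL⟩ := LocallyLipschitzOn.exists_lipschitzOnWith_of_compact hK
    ((X.sm_psi R).of_le (m := 1) (by exact_mod_cast le_top)).locallyLipschitz.locallyLipschitzOn
  obtain ⟨C, C0, hC⟩ := M.a3_le R hK
  obtain ⟨C1, hC1⟩ := X.lint_chart R hK
  have a0 : (0 : ℝ) < L + 1 := by positivity
  have D0 : (0 : ℝ) < C1 * C ^ 5 * (L + 1) ^ 2 + 1 := by positivity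
  have hb := (besh2_mul a0).eventually (h (η / (C1 * C ^ 5 * (L + 1) ^ 2 + 1)) (by positivity))
  obtain ⟨ρ, ρ0, hρ⟩ := mem_nhdsGT_iff_exists_Ioo_subset.1 hb
  refine ⟨min ρ 1, lt_min ρ0 one_pos, fun r r0 hr θ θ0 => ?_⟩
  have hε : Tendsto ε atTop (𝓝[>] 0) :=
    tendsto_nhdsWithin_iff.2 ⟨M.lim, Eventually.of_forall M.pos⟩
  have h1 := ((besh2_mul C0).comp hε).eventually (hρ ⟨r0, hr.trans_le (min_le_left _ _)⟩)
  have h2 : ∀ᶠ n in atTop, C * ε n * volume.real (closedBall x r) < θ := by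
    have := (M.lim.const_mul C).mul_const (volume.real (closedBall x r))
    rw [mul_zero, zero_mul] at this
    exact this.eventually (gt_mem_nhds θ0)
  have sub : closedBall x r ⊆ closedBall x 1 :=
    closedBall_subset_closedBall (hr.le.trans (min_le_right _ _))
  filter_upwards [hC, h1, h2] with n b1 b2 b3
  have e0 := M.pos n
  have cont : Continuous fun y => a3 (fderiv ℝ V) (ε n) (X.psi R y) / ε n ^ 2 :=
    ((continuous_a3 (M.c1.continuous_fderiv (by norm_num)) (ε n)).comp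
      (X.sm_psi R).continuous).div_const _
  rw [← ENNReal.ofReal_le_ofReal_iff (by positivity), ofReal_integral_eq_lintegral_ofReal
    (cont.continuousOn.integrableOn_compact (isCompact_closedBall x r))
    (Eventually.of_forall fun y => div_nonneg (a3_nonneg _ _ _) (sq_nonneg _))]
  refine (setLIntegral_mono' measurableSet_closedBall fun y hy => b1 y (sub hy)).trans ?_
  rw [lintegral_add_right _ measurable_const, lintegral_const_mul' _ _ ENNReal.ofReal_ne_top,
    setLIntegral_const, ENNReal.ofReal_add (by positivity) θ0.le]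
  refine add_le_add ?_ ?_
  · have b4 := hC1 _ sub measurableSet_closedBall (X.S ∩ ball (X.psi R x) ((L + 1) * r))
      (fun y hy => ⟨X.psi_mem R y, by
        have c1 := hL.dist_le_mul y (sub hy) x (mem_closedBall_self zero_le_one)
        have c2 : (L : ℝ) * dist y x ≤ L * r := mul_le_mul_of_nonneg_left hy L.2
        rw [mem_ball]
        linarith⟩)
      (fun y => ∫⁻ z in X.S ∩ ball y (C * ε n), ‖fderiv ℝ I.v y - fderiv ℝ I.v z‖ₑ ^ 3 ∂μH[2])
    refine (mul_le_mul_right (b4.trans (mul_le_mul_right b2 _)) _).trans ?_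
    rw [← ENNReal.ofReal_coe_nnreal, ← ENNReal.ofReal_mul C1.coe_nonneg,
      ← ENNReal.ofReal_mul (by positivity)]
    refine ENNReal.ofReal_le_ofReal ?_
    have e : C / ε n ^ 4 * (C1 * (η / (C1 * C ^ 5 * (L + 1) ^ 2 + 1) * ((L + 1) * r) ^ 2 *
        (C * ε n) ^ 4)) = η * r ^ 2 * (C1 * C ^ 5 * (L + 1) ^ 2 / (C1 * C ^ 5 * (L + 1) ^ 2 + 1)) := by
      field_simp
    refine e.trans_le (mul_le_of_le_one_right (by positivity) ?_)
    rw [div_le_one D0]
    linarith
  · rw [← ofReal_measureReal measure_closedBall_lt_top.ne, ← ENNReal.ofReal_mul (by positivity)]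
    exact ENNReal.ofReal_le_ofReal b3.le

/-- a bounded first moment gives the Besov condition -/
theorem BesS.of_bv {Y : Type} [NormedAddCommGroup Y] {f : E → Y} {T : Set E} {x : E}
    {a C M r : ℝ} (hT : MeasurableSet T) (ha : 1 / 2 < a) (hC : 0 ≤ C) (hr : 0 < r)
    (hol : ∀ y ∈ T, ∀ z ∈ T, ‖f y - f z‖ ≤ C * ‖y - z‖ ^ a)
    (h : ∀ᶠ ε in 𝓝[>] (0 : ℝ), ∫⁻ y in T ∩ ball x r, ∫⁻ z in T ∩ ball y ε, ‖f y - f z‖ₑ
      ∂μH[2] ∂μH[2] ≤ ENNReal.ofReal (M * ε ^ 3)) : BesS f T x := by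
  intro η hη
  filter_upwards [Ioo_mem_nhdsGT hr] with ρ hρ
  have ρ0 := hρ.1
  have h1 : ∀ᶠ e in 𝓝[>] (0 : ℝ), C ^ 2 * max M 0 * e ^ (2 * a - 1) < η * ρ ^ 2 := by
    have c : ContinuousAt (fun e : ℝ => C ^ 2 * max M 0 * e ^ (2 * a - 1)) 0 :=
      continuousAt_const.mul (Real.continuousAt_rpow_const 0 _ (Or.inr (by linarith)))
    have c2 := c.tendsto
    rw [Real.zero_rpow (by linarith), mul_zero] at c2
    exact (c2.mono_left nhdsWithin_le_nhds).eventually (gt_mem_nhds (by positivity))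
  filter_upwards [h, h1, self_mem_nhdsWithin] with e b1 b2 e0
  have e0 : 0 < e := e0
  have b3 : ∀ y ∈ T ∩ ball x ρ, ∫⁻ z in T ∩ ball y e, ‖f y - f z‖ₑ ^ 3 ∂μH[2] ≤
      ENNReal.ofReal ((C * e ^ a) ^ 2) * ∫⁻ z in T ∩ ball y e, ‖f y - f z‖ₑ ∂μH[2] := by
    intro y hy
    rw [← lintegral_const_mul' _ _ ENNReal.ofReal_ne_top]
    refine setLIntegral_mono' (hT.inter measurableSet_ball) fun z hz => ?_
    rw [pow_succ, ENNReal.ofReal_pow (by positivity)]
    refine mul_le_mul_left (pow_le_pow_left' ?_ 2) _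
    rw [← ofReal_norm_eq_enorm]
    refine ENNReal.ofReal_le_ofReal ((hol y hy.1 z hz.1).trans ?_)
    refine mul_le_mul_of_nonneg_left (Real.rpow_le_rpow (norm_nonneg _) ?_ (by linarith)) hC
    rw [← dist_eq_norm, dist_comm]
    exact (mem_ball.1 hz.2).le
  refine (setLIntegral_mono' (hT.inter measurableSet_ball) b3).trans ?_
  rw [lintegral_const_mul' _ _ ENNReal.ofReal_ne_top]
  refine (mul_le_mul_right ((lintegral_mono_set
    (inter_subset_inter_right T (ball_subset_ball hρ.2.le))).trans b1) _).trans ?_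
  rw [← ENNReal.ofReal_mul (by positivity)]
  refine ENNReal.ofReal_le_ofReal ?_
  have e1 : (e ^ a) ^ 2 = e ^ (2 * a - 1) * e := by
    rw [← Real.rpow_add_one e0.ne', ← Real.rpow_natCast, ← Real.rpow_mul e0.le]
    congr 1
    push_cast
    ring
  calc (C * e ^ a) ^ 2 * (M * e ^ 3) ≤ (C * e ^ a) ^ 2 * (max M 0 * e ^ 3) := by
        gcongr
        exact le_max_left _ _
    _ = C ^ 2 * max M 0 * e ^ (2 * a - 1) * e ^ 4 := by rw [mul_pow, e1]; ring
    _ ≤ η * ρ ^ 2 * e ^ 4 := mul_le_mul_of_nonneg_right b2.le (by positivity)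

end Pool.Agent.Bor
end
end

-- part Pool.Agent.P.MP_26ecb7_gt.BesI
section

noncomputable section
open Set Filter Topology MeasureTheory Metric
open scoped RealInnerProductSpace ContDiff ENNReal NNReal

namespace Pool.Agent.Bor

variable {X : Surf} {I : Iso X} {A : Appr I} {ε : ℕ → ℝ} {V : E → E}

/-- the Besov condition kills the anomaly density -/
theorem Mo.van (M : Mo A ε V) (R R' : Rot) {c : P} {r : ℝ}
    (hc : ∀ x ∈ sqr c r, 1 / 2 < ⟪I.n R x, R'.R (ee 2)⟫) {x : P}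
    (h : BesS (fderiv ℝ I.v) X.S (X.psi R x)) :
    Van (fun n y => locaG R' (un (A.w R n) y)) (X.ka R) (sqr c r) x := by
  intro φ hφ η hη
  have hΦ : ContDiff ℝ ∞ fun z : E => φ (locaG R' z) := hφ.comp (loca_G_smooth R')
  obtain ⟨C, hC, h1⟩ := M.prod_le R (isCompact_closedBall x 1) hΦ
  obtain ⟨ρ, hρ, h2⟩ := M.a3_lim R h (η / (2 * C + 1)) (by positivity)
  refine ⟨min ρ 1, by positivity, fun c' r' hr' hlt hx hs θ hθ => ?_⟩
  have hr1 : r' ≤ 1 := (hlt.trans_le (min_le_right _ _)).le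
  have hsub : sqr c' r' ⊆ closedBall x r' := fun y hy => dist_le_of_sqr hy hx
  have hms := (sqr_compact c' r').measurableSet
  filter_upwards [h1 (θ / 8) (by positivity), A.parts R hΦ c' hr' (θ / 2) (by positivity),
    h2 r' hr' (hlt.trans_le (min_le_left _ _)) (θ / (4 * (2 * C + 1))) (by positivity),
    loca_ev A R R' hc] with n a1 a2 a3' a4
  have e1 : ∫ y in sqr c' r', φ (locaG R' (un (A.w R n) y)) *
      (lam (locaG R' (un (A.w R n) y)) * jp (fun y => locaG R' (un (A.w R n) y)) y - X.ka R y) =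
      ∫ y in sqr c' r', φ (locaG R' (un (A.w R n) y)) * (kap (un (A.w R n)) y - X.ka R y) := by
    refine setIntegral_congr_fun hms fun y hy => ?_
    simp only [loca_kap R' (A.imm_w R n) (a4 y (hs hy))]
  rw [e1]
  refine a2.trans ?_
  have hw := A.imm_w R n
  have cp : ∀ i, Continuous (pd i fun y => φ (locaG R' (un (A.w R n) y))) := fun i =>
    (contDiff_pd (hΦ.comp hw.sm_un) i).continuous
  have co : ∀ j, Continuous fun y => om (A.w R n) j y - om (X.psi R) j y := fun j =>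
    (hw.sm_om j).continuous.sub ((X.imm_psi R).sm_om j).continuous
  have cg : Continuous fun y => a3 (fderiv ℝ V) (ε n) (X.psi R y) / ε n ^ 2 :=
    ((continuous_a3 (M.c1.continuous_fderiv (by norm_num)) (ε n)).comp
      (X.sm_psi R).continuous).div_const _
  have g0 : ∀ y, 0 ≤ a3 (fderiv ℝ V) (ε n) (X.psi R y) / ε n ^ 2 := fun y =>
    div_nonneg (a3_nonneg _ _ _) (sq_nonneg _)
  have i1 := cg.continuousOn.integrableOn_compact (μ := volume) (sqr_compact c' r')
  have i2 : IntegrableOn (fun _ : P => θ / 4) (sqr c' r') :=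
    continuousOn_const.integrableOn_compact (sqr_compact c' r')
  have b1 : (∫ y in sqr c' r', (|pd 0 (fun y => φ (locaG R' (un (A.w R n) y))) y| *
        |om (A.w R n) 1 y - om (X.psi R) 1 y| +
      |pd 1 (fun y => φ (locaG R' (un (A.w R n) y))) y| *
        |om (A.w R n) 0 y - om (X.psi R) 0 y|)) ≤
      ∫ y in sqr c' r', (2 * C * (a3 (fderiv ℝ V) (ε n) (X.psi R y) / ε n ^ 2) + θ / 4) := by
    refine setIntegral_mono_on ((((cp 0).abs.mul (co 1).abs).add
      ((cp 1).abs.mul (co 0).abs)).continuousOn.integrableOn_compact (sqr_compact c' r'))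
      ((i1.const_mul _).add i2) hms fun y hy => ?_
    have hy1 : y ∈ closedBall x 1 := closedBall_subset_closedBall hr1 (hsub hy)
    have := a1 y hy1 0 1
    have := a1 y hy1 1 0
    linarith
  rw [integral_add (i1.const_mul _) i2, integral_const_mul, setIntegral_const, Measure.real,
    volume_sqr c' hr'.le, ENNReal.toReal_ofReal (by positivity), smul_eq_mul] at b1
  have b2 : ∫ y in sqr c' r', a3 (fderiv ℝ V) (ε n) (X.psi R y) / ε n ^ 2 ≤
      ∫ y in closedBall x r', a3 (fderiv ℝ V) (ε n) (X.psi R y) / ε n ^ 2 :=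
    setIntegral_mono_set (cg.continuousOn.integrableOn_compact (isCompact_closedBall x r'))
      (Eventually.of_forall g0) hsub.eventuallyLE
  have b0 : 0 ≤ ∫ y in sqr c' r', a3 (fderiv ℝ V) (ε n) (X.psi R y) / ε n ^ 2 :=
    integral_nonneg g0
  have b3 := mul_le_mul_of_nonneg_left (b2.trans a3') (show 0 ≤ 2 * C + 1 by positivity)
  have e2 : (2 * C + 1) * (η / (2 * C + 1) * r' ^ 2 + θ / (4 * (2 * C + 1))) =
      η * r' ^ 2 + θ / 4 := by
    field_simp
  have b4 : r' ^ 2 * (θ / 4) ≤ θ / 4 :=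
    mul_le_of_le_one_left (by positivity) (pow_le_one₀ hr'.le hr1)
  rw [e2] at b3
  linarith

end Pool.Agent.Bor
end
end

-- part Pool.Agent.P.MP_26ecb7_gt.LocA
section

noncomputable section
open Set Filter Topology MeasureTheory Metric
open scoped RealInnerProductSpace ContDiff ENNReal

namespace Pool.Agent.Bor

/-- the data of a small square in a chart -/
theorem Appr.dat {X : Surf} {I : Iso X} (A : Appr I) {B : Set E} (hB : μH[3 * I.al] B = 0)
    {ε : ℕ → ℝ} {V : E → E} (M : Mo A ε V) (hg : ∀ q ∈ X.S, q ∉ B →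
      GoodS (fun _ => fderiv ℝ I.v) X.S q ∨ BesS (fderiv ℝ I.v) X.S q) (R R' : Rot) {c : P} {r : ℝ}
    (hr : 0 < r) (hr1 : r ≤ 1) (hc : ∀ x ∈ sqr c r, 1 / 2 < ⟪I.n R x, R'.R (ee 2)⟫) :
    ∃ p : ℕ → P → P,
      Dat p (fun x => gn R' (I.n R x)) (X.ka R) c r I.al (sqr c r ∩ X.psi R ⁻¹' B) := by
  have hal : 0 < I.al := by linarith [I.al_gt]
  obtain ⟨K, hK, hk⟩ := loca_key A R R' hc
  obtain ⟨L, hL, hl⟩ := loca_lip (X.sm_psi R) c r
  have m : ∀ z, X.psi R z ∈ thickening A.tau X.S := fun z =>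
    self_subset_thickening A.tau_pos _ (X.psi_mem R z)
  refine ⟨fun n x => locaG R' (un (A.w R n) x), hr, hr1, I.al_gt, I.al_le,
    fun n => (loca_G_smooth R').comp (A.imm_w R n).sm_un, fun x hx => ?_, X.continuous_ka R,
    ?_, fun c' r' hr' hs => ?_, ?_,
    X.null_preimage R (by linarith) hB (sqr_compact c r), fun x hx hS => ?_⟩
  · exact (ContinuousAt.comp (f := I.n R)
      (contDiffAt_gn R' (by linarith [hc x hx])).continuousAt
      (I.continuous_n R).continuousAt).continuousWithinAt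
  · rw [Metric.tendstoUniformlyOn_iff]
    intro ε hε
    filter_upwards [loca_ev A R R' hc, Metric.tendstoUniformly_iff.1 (A.un_conv R) (ε / 20)
      (by positivity)] with n h1 h2 x hx
    rw [loca_G_eq R' (h1 x hx).le]
    refine (loca_dist R' (by linarith [hc x hx]) (h1 x hx).le
      ((A.imm_w R n).norm_un x)).trans_lt ?_
    have h3 := h2 x
    rw [dist_eq_norm] at h3
    linarith
  · refine (loca_gauss A R c' hr').congr' ?_
    filter_upwards [loca_ev A R R' hc] with n h1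
    refine setIntegral_congr_fun (sqr_compact c' r').measurableSet fun x hx => ?_
    simp only [loca_kap R' (A.imm_w R n) (h1 x (hs hx))]
  · refine ⟨K * (A.H * L ^ I.al + 1), by have := A.H_nonneg; positivity, ?_⟩
    filter_upwards [hk] with n h1 x hx y hy
    refine (h1 x hx y hy).trans ?_
    rw [mul_assoc]
    refine mul_le_mul_of_nonneg_left ?_ hK
    have h2 := A.hol n _ (m x) _ (m y)
    have h3 : ‖X.psi R x - X.psi R y‖ ^ I.al ≤ L ^ I.al * dist x y ^ I.al := by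
      rw [← Real.mul_rpow hL dist_nonneg]
      exact Real.rpow_le_rpow (norm_nonneg _) (hl x hx y hy) hal.le
    have h4 : dist x y ≤ dist x y ^ I.al := by
      have h5 := Real.rpow_le_rpow_of_exponent_ge' (x := dist x y) dist_nonneg
        ((dist_le_of_sqr hx hy).trans hr1) hal.le I.al_le
      rwa [Real.rpow_one] at h5
    have h6 := mul_le_mul_of_nonneg_left h3 A.H_nonneg
    nlinarith
  · rcases hg _ (X.psi_mem R x) (fun h => hS ⟨hx, h⟩) with h0 | h0
    swap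
    · exact Or.inr (M.van R R' hc h0)
    left
    have h1 := A.good _ (X.psi_mem R x) h0
    refine h1.transfer (φ := X.psi R) (K := K + L) (ρ := 1) (by positivity) one_pos rfl
      (fun _ _ => trivial) hx (fun y hy z hz => ?_) ?_
    · rw [dist_eq_norm]
      exact (hl y hy.1 z hz.1).trans (mul_le_mul_of_nonneg_right (by linarith) dist_nonneg)
    · filter_upwards [hk] with n h2 y hy z hz
      rw [dist_eq_norm (fderiv ℝ (A.W n) _)]
      exact (h2 y hy.1 z hz.1).trans (mul_le_mul_of_nonneg_right (by linarith) (by positivity))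

end Pool.Agent.Bor
end
end

-- part Pool.Agent.P.MP_26ecb7_gt.Wind0
section

noncomputable section
open Set Filter Topology MeasureTheory Metric
open scoped RealInnerProductSpace ContDiff ENNReal

namespace Pool.Agent.Bor

/-- the two components of the angular form with centre `z`, cut off at scale `δ` -/
def t1 (δ : ℝ) (z y : P) : ℝ := kk δ ((y.1 - z.1) ^ 2 + (y.2 - z.2) ^ 2) * (y.1 - z.1)
def t2 (δ : ℝ) (z y : P) : ℝ := - (kk δ ((y.1 - z.1) ^ 2 + (y.2 - z.2) ^ 2) * (y.2 - z.2))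
def wind (δ : ℝ) (z c : P) (r : ℝ) (p : P → P) : ℝ :=
  lp c r (fun x => t1 δ z (p x)) (fun x => (p x).2) + lp c r (fun x => t2 δ z (p x)) (fun x => (p x).1)

theorem wind0_contDiff_chi (δ : ℝ) :
    ContDiff ℝ ∞ fun s : ℝ => Real.smoothTransition (2 * (s / δ ^ 2) - 1) :=
  Real.smoothTransition.contDiff.comp
    ((contDiff_const.mul (contDiff_id.div_const _)).sub contDiff_const)

theorem wind0_contDiff_kk {δ : ℝ} (hδ : 0 < δ) : ContDiff ℝ ∞ (kk δ) := by
  refine contDiff_iff_contDiffAt.2 fun s => ?_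
  have h2 : 0 < δ ^ 2 := by positivity
  by_cases hs : s = 0
  · subst hs
    refine (contDiffAt_const (c := (0 : ℝ))).congr_of_eventuallyEq ?_
    filter_upwards [gt_mem_nhds (half_pos h2)] with u hu
    have : 2 * (u / δ ^ 2) - 1 ≤ 0 := by
      have : u / δ ^ 2 ≤ 1 / 2 := by
        rw [div_le_iff₀ h2]
        linarith
      linarith
    rw [kk, Real.smoothTransition.zero_of_nonpos this, zero_div]
  · exact (wind0_contDiff_chi δ).contDiffAt.div (contDiffAt_const.mul contDiffAt_id)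
      (mul_ne_zero (mul_ne_zero two_ne_zero Real.pi_ne_zero) hs)

theorem wind0_mul_kk (δ s : ℝ) :
    s * kk δ s = Real.smoothTransition (2 * (s / δ ^ 2) - 1) / (2 * Real.pi) := by
  by_cases hs : s = 0
  · subst hs
    rw [Real.smoothTransition.zero_of_nonpos (by simp), zero_mul, zero_div]
  · have := Real.pi_ne_zero
    rw [kk]
    field_simp

theorem wind0_deriv {δ : ℝ} (hδ : 0 < δ) (s : ℝ) :
    2 * kk δ s + 2 * s * deriv (kk δ) s =
      2 * deriv Real.smoothTransition (2 * (s / δ ^ 2) - 1) / (Real.pi * δ ^ 2) := by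
  have hk := (((wind0_contDiff_kk hδ).differentiable (by simp)) s).hasDerivAt
  have h1 : HasDerivAt (fun u : ℝ => u * kk δ u) (1 * kk δ s + s * deriv (kk δ) s) s :=
    (hasDerivAt_id s).mul hk
  have hl : HasDerivAt (fun u : ℝ => 2 * (u / δ ^ 2) - 1) (2 * (1 / δ ^ 2)) s :=
    (((hasDerivAt_id s).div_const _).const_mul 2).sub_const 1
  have hT := (((Real.smoothTransition.contDiff (n := 1)).differentiable (by simp))
    (2 * (s / δ ^ 2) - 1)).hasDerivAt
  have h2 := (hT.comp s hl).div_const (2 * Real.pi)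
  have e : (fun u : ℝ => u * kk δ u) =
      fun u => (Real.smoothTransition ∘ fun u : ℝ => 2 * (u / δ ^ 2) - 1) u / (2 * Real.pi) :=
    funext fun u => wind0_mul_kk δ u
  rw [e] at h1
  have h3 := h1.unique h2
  have hπ := Real.pi_ne_zero
  have hδ' := hδ.ne'
  have h4 : 2 * kk δ s + 2 * s * deriv (kk δ) s = 2 * (1 * kk δ s + s * deriv (kk δ) s) := by ring
  rw [h4, h3]
  field_simp

theorem wind0_contDiff_S (z : P) :
    ContDiff ℝ ∞ fun y : P => (y.1 - z.1) ^ 2 + (y.2 - z.2) ^ 2 :=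
  ((contDiff_fst.sub contDiff_const).pow 2).add ((contDiff_snd.sub contDiff_const).pow 2)

theorem contDiff_t1 {δ : ℝ} (hδ : 0 < δ) (z : P) : ContDiff ℝ ∞ (t1 δ z) :=
  ((wind0_contDiff_kk hδ).comp (wind0_contDiff_S z)).mul (contDiff_fst.sub contDiff_const)

theorem contDiff_t2 {δ : ℝ} (hδ : 0 < δ) (z : P) : ContDiff ℝ ∞ (t2 δ z) :=
  (((wind0_contDiff_kk hδ).comp (wind0_contDiff_S z)).mul (contDiff_snd.sub contDiff_const)).neg

theorem div_t {δ : ℝ} (hδ : 0 < δ) (z y : P) :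
    pd 0 (t1 δ z) y - pd 1 (t2 δ z) y = th δ (y - z) := by
  have ha : HasFDerivAt (fun y : P => y.1 - z.1) (ContinuousLinearMap.fst ℝ ℝ ℝ) y :=
    hasFDerivAt_fst.sub_const _
  have hb : HasFDerivAt (fun y : P => y.2 - z.2) (ContinuousLinearMap.snd ℝ ℝ ℝ) y :=
    hasFDerivAt_snd.sub_const _
  have hS := (ha.pow 2).add (hb.pow 2)
  have hk := (((wind0_contDiff_kk hδ).differentiable (by simp))
    ((y.1 - z.1) ^ 2 + (y.2 - z.2) ^ 2)).hasDerivAt
  have hK := hk.comp_hasFDerivAt y hS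
  have h1 : HasFDerivAt (t1 δ z) _ y := hK.mul ha
  have h2 : HasFDerivAt (t2 δ z) _ y := (hK.mul hb).neg
  rw [pd, pd, h1.fderiv, h2.fderiv, th, Prod.fst_sub, Prod.snd_sub, ← wind0_deriv hδ]
  simp [e2]
  ring

end Pool.Agent.Bor
end
end

-- part Pool.Agent.P.MP_26ecb7_gt.Wind
section

noncomputable section
open Set Filter Topology MeasureTheory Metric
open scoped RealInnerProductSpace ContDiff ENNReal

namespace Pool.Agent.Bor

theorem wind_sq {δ : ℝ} (hδ : 0 < δ) {y z : P} (h : δ ≤ dist y z) :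
    δ ^ 2 ≤ (y.1 - z.1) ^ 2 + (y.2 - z.2) ^ 2 := by
  rw [Prod.dist_eq, Real.dist_eq, Real.dist_eq, le_max_iff] at h
  rcases h with h | h
  · have := pow_le_pow_left₀ hδ.le h 2
    rw [sq_abs] at this
    linarith [sq_nonneg (y.2 - z.2)]
  · have := pow_le_pow_left₀ hδ.le h 2
    rw [sq_abs] at this
    linarith [sq_nonneg (y.1 - z.1)]

theorem wind_kk {δ : ℝ} (hδ : 0 < δ) {y z : P} (h : δ ≤ dist y z) :
    kk δ ((y.1 - z.1) ^ 2 + (y.2 - z.2) ^ 2) =
      1 / (2 * Real.pi * ((y.1 - z.1) ^ 2 + (y.2 - z.2) ^ 2)) := by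
  have h1 := (one_le_div (pow_pos hδ 2)).2 (wind_sq hδ h)
  rw [kk, Real.smoothTransition.one_of_one_le (by linarith)]

theorem wind_exp {γ γ' : ℝ → ℂ} (hd : ∀ t, HasDerivAt γ (γ' t) t) (hc : Continuous γ') {a b : ℝ}
    (hab : a ≤ b) (h0 : ∀ t ∈ Icc a b, γ t ≠ 0) :
    IntervalIntegrable (fun t => γ' t / γ t) volume a b ∧
      Complex.exp (∫ t in a..b, γ' t / γ t) * γ a = γ b := by
  have hγ : Continuous γ := continuous_iff_continuousAt.2 fun t => (hd t).continuousAt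
  have hU : IsOpen {t | γ t ≠ 0} := isOpen_ne_fun hγ continuous_const
  have hg : ContinuousOn (fun t => γ' t / γ t) {t | γ t ≠ 0} :=
    hc.continuousOn.div hγ.continuousOn fun _ ht => ht
  have hi : ∀ t ∈ Icc a b, IntervalIntegrable (fun t => γ' t / γ t) volume a t := fun t ht =>
    (hg.mono fun s hs => h0 s ⟨hs.1, hs.2.trans ht.2⟩).intervalIntegrable_of_Icc ht.1
  have hF : ∀ t ∈ Icc a b, HasDerivAt (fun u => γ u * Complex.exp (-∫ s in a..u, γ' s / γ s)) 0 t :=
    fun t ht => by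
      have h1 := intervalIntegral.integral_hasDerivAt_right (hi t ht)
        (hg.stronglyMeasurableAtFilter hU t (h0 t ht)) (hg.continuousAt (hU.mem_nhds (h0 t ht)))
      refine ((hd t).mul h1.neg.cexp).congr_deriv ?_
      have := h0 t ht
      field_simp
      ring
  have h2 := constant_of_has_deriv_right_zero
    (fun t ht => (hF t ht).continuousAt.continuousWithinAt)
    (fun t ht => (hF t (Ico_subset_Icc_self ht)).hasDerivWithinAt) b (right_mem_Icc.2 hab)
  simp only [intervalIntegral.integral_same, neg_zero, Complex.exp_zero, mul_one] at h2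
  refine ⟨hi b (right_mem_Icc.2 hab), ?_⟩
  rw [← h2, mul_left_comm, ← Complex.exp_add, add_neg_cancel, Complex.exp_zero, mul_one]

/-- the complex number attached to a point -/
def windC (z y : P) : ℂ := ⟨y.1 - z.1, y.2 - z.2⟩

theorem windC_ne {δ : ℝ} (hδ : 0 < δ) {y z : P} (h : δ ≤ dist y z) : windC z y ≠ 0 := fun e => by
  have h1 := wind_sq hδ h
  rw [show y.1 - z.1 = 0 from congrArg Complex.re e,
    show y.2 - z.2 = 0 from congrArg Complex.im e] at h1
  nlinarith [pow_pos hδ 2]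

theorem wind_edge {δ : ℝ} (hδ : 0 < δ) {z : P} {p : P → P} (hp : ContDiff ℝ ∞ p) (i : Fin 2)
    {l : ℝ → P} (hl : ∀ t, HasDerivAt l (e2 i) t) {a b : ℝ} (hab : a ≤ b)
    (h : ∀ t ∈ Icc a b, δ ≤ dist (p (l t)) z) :
    ∃ J : ℂ, Complex.exp J * windC z (p (l a)) = windC z (p (l b)) ∧
      (∫ t in a..b, t1 δ z (p (l t)) * pd i (fun x => (p x).2) (l t)) +
        ∫ t in a..b, t2 δ z (p (l t)) * pd i (fun x => (p x).1) (l t) = J.im / (2 * Real.pi) := by
  have cl : Continuous l := continuous_iff_continuousAt.2 fun t => (hl t).continuousAt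
  have c1 : Continuous fun t => pd i (fun x => (p x).1) (l t) :=
    (contDiff_pd hp.fst i).continuous.comp cl
  have c2 : Continuous fun t => pd i (fun x => (p x).2) (l t) :=
    (contDiff_pd hp.snd i).continuous.comp cl
  have d1 : ∀ t, HasDerivAt (fun t => (p (l t)).1) (pd i (fun x => (p x).1) (l t)) t := fun t =>
    (hp.fst.differentiable (by simp) (l t)).hasFDerivAt.comp_hasDerivAt t (hl t)
  have d2 : ∀ t, HasDerivAt (fun t => (p (l t)).2) (pd i (fun x => (p x).2) (l t)) t := fun t =>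
    (hp.snd.differentiable (by simp) (l t)).hasFDerivAt.comp_hasDerivAt t (hl t)
  have hd : ∀ t, HasDerivAt (fun t => windC z (p (l t)))
      ((pd i (fun x => (p x).1) (l t) : ℝ) + (pd i (fun x => (p x).2) (l t) : ℝ) * Complex.I) t :=
    fun t => by
      simp only [windC, Complex.mk_eq_add_mul_I]
      exact ((d1 t).sub_const z.1).ofReal_comp.add
        (((d2 t).sub_const z.2).ofReal_comp.mul_const Complex.I)
  obtain ⟨hi, he⟩ := wind_exp hd (by fun_prop) hab fun t ht => windC_ne hδ (h t ht)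
  refine ⟨_, he, ?_⟩
  have cp : Continuous fun t => p (l t) := hp.continuous.comp cl
  have c3 : Continuous fun t => t1 δ z (p (l t)) * pd i (fun x => (p x).2) (l t) :=
    ((contDiff_t1 hδ z).continuous.comp cp).mul c2
  have c4 : Continuous fun t => t2 δ z (p (l t)) * pd i (fun x => (p x).1) (l t) :=
    ((contDiff_t2 hδ z).continuous.comp cp).mul c1
  rw [← intervalIntegral.integral_add (c3.intervalIntegrable a b) (c4.intervalIntegrable a b),
    ← Complex.imCLM_apply, ← Complex.imCLM.intervalIntegral_comp_comm hi,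
    ← intervalIntegral.integral_div]
  refine intervalIntegral.integral_congr fun t ht => ?_
  rw [uIcc_of_le hab] at ht
  have h1 := (pow_pos hδ 2).trans_le (wind_sq hδ (h t ht))
  have h2 : Complex.normSq (windC z (p (l t))) =
      ((p (l t)).1 - z.1) ^ 2 + ((p (l t)).2 - z.2) ^ 2 := by
    rw [windC, Complex.normSq_mk]
    ring
  simp only [t1, t2, wind_kk hδ (h t ht), Complex.imCLM_apply, Complex.div_im, h2]
  simp only [windC, Complex.add_im, Complex.add_re, Complex.ofReal_im, Complex.ofReal_re,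
    Complex.mul_im, Complex.mul_re, Complex.I_re, Complex.I_im]
  field_simp
  ring

theorem wind_int {δ : ℝ} (hδ : 0 < δ) {z c : P} {r : ℝ} (hr : 0 < r) {p : P → P}
    (hp : ContDiff ℝ ∞ p) (h : ∀ x ∈ frontier (sqr c r), δ ≤ dist (p x) z) :
    ∃ m : ℤ, wind δ z c r p = m := by
  have l0 : ∀ y t : ℝ, HasDerivAt (fun s : ℝ => ((s, y) : P)) (e2 0) t := fun y t =>
    (hasDerivAt_id t).prodMk (hasDerivAt_const t y)
  have l1 : ∀ y t : ℝ, HasDerivAt (fun s : ℝ => ((y, s) : P)) (e2 1) t := fun y t =>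
    (hasDerivAt_const t y).prodMk (hasDerivAt_id t)
  have a1 : c.1 ≤ c.1 + r := by linarith
  have a2 : c.2 ≤ c.2 + r := by linarith
  obtain ⟨J1, e1, f1⟩ := wind_edge hδ hp 0 (l0 c.2) a1 fun t ht =>
    h _ (edge_mem_frontier (mem_sqr.2 ⟨ht, le_rfl, a2⟩) (by simp))
  obtain ⟨J2, e2', f2⟩ := wind_edge hδ hp 1 (l1 (c.1 + r)) a2 fun t ht =>
    h _ (edge_mem_frontier (mem_sqr.2 ⟨⟨a1, le_rfl⟩, ht⟩) (by simp))
  obtain ⟨J3, e3, f3⟩ := wind_edge hδ hp 0 (l0 (c.2 + r)) a1 fun t ht =>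
    h _ (edge_mem_frontier (mem_sqr.2 ⟨ht, a2, le_rfl⟩) (by simp))
  obtain ⟨J4, e4, f4⟩ := wind_edge hδ hp 1 (l1 c.1) a2 fun t ht =>
    h _ (edge_mem_frontier (mem_sqr.2 ⟨⟨le_rfl, a1⟩, ht⟩) (by simp))
  have h0 : windC z (p (c.1, c.2)) ≠ 0 :=
    windC_ne hδ (h _ (edge_mem_frontier (mem_sqr.2 ⟨⟨le_rfl, a1⟩, le_rfl, a2⟩) (by simp)))
  have h1 : Complex.exp (J1 + J2) = Complex.exp (J3 + J4) := by
    refine mul_right_cancel₀ h0 ?_
    rw [Complex.exp_add, Complex.exp_add, mul_assoc (Complex.exp J3), e4, e3, ← e2', ← e1]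
    ring
  obtain ⟨n, hn⟩ := Complex.exp_eq_exp_iff_exists_int.1 h1
  have h2 : J1.im + J2.im = J3.im + J4.im + n * (2 * Real.pi) := by
    simpa using congrArg Complex.im hn
  have h3 : J1.im / (2 * Real.pi) + J2.im / (2 * Real.pi) - J3.im / (2 * Real.pi) -
      J4.im / (2 * Real.pi) = n := by
    field_simp
    linarith
  refine ⟨n, ?_⟩
  rw [← h3, ← f1, ← f2, ← f3, ← f4]
  simp only [wind, lp, loop]
  ring

theorem wind_indep {δ δ' : ℝ} (hδ : 0 < δ) (hδ' : 0 < δ') {z c : P} {r : ℝ} (hr : 0 < r) {p : P → P}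
    (h : ∀ x ∈ frontier (sqr c r), δ ≤ dist (p x) z)
    (h' : ∀ x ∈ frontier (sqr c r), δ' ≤ dist (p x) z) : wind δ z c r p = wind δ' z c r p := by
  have h1 : ∀ x ∈ frontier (sqr c r), t1 δ z (p x) = t1 δ' z (p x) := fun x hx => by
    rw [t1, t1, wind_kk hδ (h x hx), wind_kk hδ' (h' x hx)]
  have h2 : ∀ x ∈ frontier (sqr c r), t2 δ z (p x) = t2 δ' z (p x) := fun x hx => by
    rw [t2, t2, wind_kk hδ (h x hx), wind_kk hδ' (h' x hx)]
  exact congrArg₂ (· + ·)
    (loop_congr hr.le (fun x hx => congrArg (· * _) (h1 x hx)) fun x hx => congrArg (· * _) (h1 x hx))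
    (loop_congr hr.le (fun x hx => congrArg (· * _) (h2 x hx)) fun x hx => congrArg (· * _) (h2 x hx))

end Pool.Agent.Bor
end
end

-- part Pool.Agent.P.MP_26ecb7_gt.Kern
section

noncomputable section
open Set Filter Topology MeasureTheory Metric
open scoped RealInnerProductSpace ContDiff ENNReal

namespace Pool.Agent.Bor

theorem kern_smooth : ContDiff ℝ 1 Real.smoothTransition := Real.smoothTransition.contDiff

theorem kern_zero {t : ℝ} (ht : 1 ≤ t) : deriv Real.smoothTransition t = 0 := by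
  refine IsLocalMax.deriv_eq_zero (Eventually.of_forall fun s => ?_)
  rw [Real.smoothTransition.one_of_one_le ht]
  exact Real.smoothTransition.le_one s

theorem th_nonneg {δ : ℝ} (hδ : 0 < δ) (y : P) : 0 ≤ th δ y :=
  div_nonneg (mul_nonneg zero_le_two Real.smoothTransition.monotone.deriv_nonneg)
    (mul_nonneg Real.pi_pos.le (pow_pos hδ 2).le)

theorem continuous_th (δ : ℝ) : Continuous (th δ) := by
  have h : Continuous (deriv Real.smoothTransition) := kern_smooth.continuous_deriv le_rfl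
  unfold th
  fun_prop

theorem th_eq_zero {δ : ℝ} (hδ : 0 < δ) {y : P} (hy : δ ≤ ‖y‖) : th δ y = 0 := by
  have h1 : δ ^ 2 ≤ y.1 ^ 2 + y.2 ^ 2 := by
    rw [Prod.norm_def, le_max_iff, Real.norm_eq_abs, Real.norm_eq_abs] at hy
    rcases hy with h | h
    · have := pow_le_pow_left₀ hδ.le h 2
      rw [sq_abs] at this
      linarith [sq_nonneg y.2]
    · have := pow_le_pow_left₀ hδ.le h 2
      rw [sq_abs] at this
      linarith [sq_nonneg y.1]
  have h2 : 1 ≤ (y.1 ^ 2 + y.2 ^ 2) / δ ^ 2 := (one_le_div (pow_pos hδ 2)).2 h1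
  unfold th
  rw [kern_zero (by linarith), mul_zero, zero_div]

theorem kern_rad {δ : ℝ} (hδ : 0 < δ) : ∫ r in Ioi (0 : ℝ),
    r * (2 * deriv Real.smoothTransition (2 * (r ^ 2 / δ ^ 2) - 1) / (Real.pi * δ ^ 2)) =
      1 / (2 * Real.pi) := by
  have hp := Real.pi_pos
  have hd : ∀ r ∈ Ici (0 : ℝ), HasDerivAt
      (fun r : ℝ => Real.smoothTransition (2 * (r ^ 2 / δ ^ 2) - 1) / (2 * Real.pi))
      (r * (2 * deriv Real.smoothTransition (2 * (r ^ 2 / δ ^ 2) - 1) / (Real.pi * δ ^ 2))) r := by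
    intro r _
    have h1 : HasDerivAt (fun r : ℝ => 2 * (r ^ 2 / δ ^ 2) - 1) (2 * (2 * r / δ ^ 2)) r := by
      have h0 : HasDerivAt (fun r : ℝ => r ^ 2) (2 * r) r := by
        simpa using hasDerivAt_pow 2 r
      exact ((h0.div_const (δ ^ 2)).const_mul 2).sub_const 1
    have h2 := ((kern_smooth.differentiable one_ne_zero
      (2 * (r ^ 2 / δ ^ 2) - 1)).hasDerivAt.comp r h1).div_const (2 * Real.pi)
    have e : r * (2 * deriv Real.smoothTransition (2 * (r ^ 2 / δ ^ 2) - 1) / (Real.pi * δ ^ 2)) =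
        deriv Real.smoothTransition (2 * (r ^ 2 / δ ^ 2) - 1) * (2 * (2 * r / δ ^ 2)) /
          (2 * Real.pi) := by
      field_simp
    rw [e]
    exact h2
  have hl : Tendsto (fun r : ℝ => Real.smoothTransition (2 * (r ^ 2 / δ ^ 2) - 1) / (2 * Real.pi))
      atTop (𝓝 (1 / (2 * Real.pi))) := by
    refine tendsto_const_nhds.congr' ?_
    filter_upwards [eventually_ge_atTop δ] with r hr
    have h2 : 1 ≤ r ^ 2 / δ ^ 2 := (one_le_div (pow_pos hδ 2)).2 (pow_le_pow_left₀ hδ.le hr 2)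
    rw [Real.smoothTransition.one_of_one_le (by linarith)]
  rw [integral_Ioi_of_hasDerivAt_of_nonneg' hd (fun r hr => mul_nonneg (le_of_lt hr)
    (div_nonneg (mul_nonneg zero_le_two Real.smoothTransition.monotone.deriv_nonneg)
      (mul_nonneg hp.le (pow_pos hδ 2).le))) hl,
    Real.smoothTransition.zero_of_nonpos (by norm_num), zero_div, sub_zero]

theorem integral_th {δ : ℝ} (hδ : 0 < δ) : ∫ y, th δ y = 1 := by
  have hp := Real.pi_pos
  rw [← integral_comp_polarCoord_symm, polarCoord_target]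
  have e : ∀ p : ℝ × ℝ, p.1 • th δ (polarCoord.symm p) = (p.1 *
      (2 * deriv Real.smoothTransition (2 * (p.1 ^ 2 / δ ^ 2) - 1) / (Real.pi * δ ^ 2))) *
        (1 : ℝ) := by
    intro p
    have h : (p.1 * Real.cos p.2) ^ 2 + (p.1 * Real.sin p.2) ^ 2 = p.1 ^ 2 := by
      rw [mul_pow, mul_pow, ← mul_add, Real.cos_sq_add_sin_sq, mul_one]
    simp only [th, polarCoord_symm_apply, h, smul_eq_mul, mul_one]
  simp only [e]
  rw [Measure.volume_eq_prod, setIntegral_prod_mul (fun r : ℝ => r *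
      (2 * deriv Real.smoothTransition (2 * (r ^ 2 / δ ^ 2) - 1) / (Real.pi * δ ^ 2)))
      (fun _ : ℝ => (1 : ℝ)), kern_rad hδ, setIntegral_const, Real.volume_real_Ioo_of_le (by linarith),
    smul_eq_mul]
  field_simp
  ring

theorem kern_int {δ : ℝ} (hδ : 0 < δ) (μ : Measure P) [IsFiniteMeasureOnCompacts μ] (z : P) :
    Integrable (fun y => th δ (y - z)) μ := by
  refine Continuous.integrable_of_hasCompactSupport
    ((continuous_th δ).comp (continuous_id.sub continuous_const)) ?_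
  refine HasCompactSupport.intro (isCompact_closedBall z δ) fun y hy => th_eq_zero hδ ?_
  rw [mem_closedBall, dist_eq_norm, not_le] at hy
  exact hy.le

theorem kern_one {δ : ℝ} (hδ : 0 < δ) (y : P) : ∫⁻ z, ENNReal.ofReal (th δ (y - z)) = 1 := by
  rw [lintegral_sub_left_eq_self (fun z => ENNReal.ofReal (th δ z)) y,
    ← ofReal_integral_eq_lintegral_ofReal (by simpa using kern_int hδ volume 0)
      (Eventually.of_forall (th_nonneg hδ)), integral_th hδ, ENNReal.ofReal_one]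

theorem kern_swap {ν : Measure P} [IsFiniteMeasure ν] {δ m : ℝ} (hδ : 0 < δ) {K : Set P}
    (hK : MeasurableSet K) (h : ∀ z ∈ K, ∫ y, th δ (y - z) ∂ν = m) :
    ENNReal.ofReal m * volume K = ∫⁻ y, (∫⁻ z in K, ENNReal.ofReal (th δ (y - z))) ∂ν := by
  have hm : Measurable (Function.uncurry fun z y : P => ENNReal.ofReal (th δ (y - z))) :=
    ENNReal.measurable_ofReal.comp
      ((continuous_th δ).comp (continuous_snd.sub continuous_fst)).measurable
  rw [← lintegral_lintegral_swap hm.aemeasurable, ← setLIntegral_const]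
  refine setLIntegral_congr_fun hK fun z hz => ?_
  rw [← ofReal_integral_eq_lintegral_ofReal (kern_int hδ ν z)
    (Eventually.of_forall fun y => th_nonneg hδ _), h z hz]

theorem kern_up {ν : Measure P} [IsFiniteMeasure ν] {δ m : ℝ} (hδ : 0 < δ) {K : Set P}
    (hK : MeasurableSet K) (h : ∀ z ∈ K, ∫ y, th δ (y - z) ∂ν = m) :
    ENNReal.ofReal m * volume K ≤ ν (cthickening δ K) := by
  rw [kern_swap hδ hK h, ← lintegral_indicator_one isClosed_cthickening.measurableSet]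
  refine lintegral_mono fun y => ?_
  by_cases hy : y ∈ cthickening δ K
  · rw [indicator_of_mem hy, Pi.one_apply, ← kern_one hδ y]
    exact setLIntegral_le_lintegral K _
  · rw [indicator_of_notMem hy]
    refine le_of_eq ((setLIntegral_congr_fun hK fun z hz => ?_).trans (lintegral_zero))
    have h1 : δ ≤ ‖y - z‖ := by
      by_contra h2
      exact hy (mem_cthickening_of_dist_le y z δ K hz (by rw [dist_eq_norm]; exact (not_le.1 h2).le))
    simp only [th_eq_zero hδ h1, ENNReal.ofReal_zero]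

/-- a measure whose regularisations are a constant `m` on a ball dominates `m` times volume there,
and `m` is positive if the measure charges a small ball -/
theorem le_of_kernel {ν : Measure P} [IsFiniteMeasure ν] {y0 : P} {ρ m : ℝ} (hρ : 0 < ρ)
    (h : ∀ δ, 0 < δ → δ < ρ → ∀ z ∈ ball y0 ρ, ∫ y, th δ (y - z) ∂ν = m) :
    (ν (ball y0 (ρ / 4)) ≠ 0 → 0 < m) ∧
      ∀ B : Set P, MeasurableSet B → B ⊆ ball y0 (ρ / 2) → ENNReal.ofReal m * volume B ≤ ν B := by
  have hsub : ball y0 (ρ / 2) ⊆ ball y0 ρ := ball_subset_ball (by linarith)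
  constructor
  · intro h0
    by_contra hm
    have hδ : 0 < ρ / 4 := by linarith
    have h1 := kern_swap (ν := ν) hδ (measurableSet_ball (x := y0) (ε := ρ / 2))
      fun z hz => h (ρ / 4) hδ (by linarith) z (hsub hz)
    rw [ENNReal.ofReal_of_nonpos (not_lt.1 hm), zero_mul] at h1
    refine h0 (le_antisymm ?_ zero_le)
    rw [h1, ← lintegral_indicator_one measurableSet_ball]
    refine lintegral_mono fun y => ?_
    by_cases hy : y ∈ ball y0 (ρ / 4)
    · rw [indicator_of_mem hy, Pi.one_apply, ← kern_one hδ y]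
      refine le_of_eq (setLIntegral_eq_of_support_subset fun z hz => ?_).symm
      by_contra h2
      have h3 : ρ / 4 ≤ ‖y - z‖ := by
        rw [mem_ball, not_lt] at h2
        have h4 := dist_triangle z y y0
        rw [mem_ball] at hy
        rw [← dist_eq_norm, dist_comm]
        linarith
      exact hz (by simp only [th_eq_zero hδ h3, ENNReal.ofReal_zero])
    · rw [indicator_of_notMem hy]
      exact zero_le
  · intro B hB hBs
    rw [hB.measure_eq_iSup_isCompact volume]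
    simp only [ENNReal.mul_iSup]
    refine iSup_le fun K => iSup_le fun hKB => iSup_le fun hK => ?_
    refine le_trans ?_ (measure_mono hKB)
    refine ge_of_tendsto ((tendsto_measure_cthickening_of_isCompact (μ := ν) hK).mono_left
      (nhdsWithin_le_nhds (s := Ioi 0))) ?_
    filter_upwards [Ioo_mem_nhdsGT hρ] with δ hδ
    exact kern_up hδ.1 hK.measurableSet fun z hz => h δ hδ.1 hδ.2 z (hsub (hBs (hKB hz)))

end Pool.Agent.Bor
end
end

-- part Pool.Agent.P.MP_26ecb7_gt.Dens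
section

noncomputable section
open Set Filter Topology MeasureTheory Metric
open scoped RealInnerProductSpace ContDiff ENNReal

namespace Pool.Agent.Bor

theorem dens_pd {T : P → ℝ} (hT : ContDiff ℝ ∞ T) (i : Fin 2) : Continuous (pd i T) :=
  (hT.continuous_fderiv (by simp)).clm_apply continuous_const

theorem dens_tend {p q κ c0 r0 al S} (D : Dat p q κ c0 r0 al S) {δ : ℝ} (hδ : 0 < δ) (z : P) :
    Tendsto (fun n => wind δ z c0 r0 (p n)) atTop
      (𝓝 (∫ x in sqr c0 r0, κ x / lam (q x) * th δ (q x - z))) := by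
  have h1 := D.anom (contDiff_t1 hδ z)
  have h2 := D.anom' (contDiff_t2 hδ z)
  have hi : ∀ {T : P → ℝ}, ContDiff ℝ ∞ T → ∀ i,
      IntegrableOn (fun x => pd i T (q x) / lam (q x) * κ x) (sqr c0 r0) := fun hT i =>
    ContinuousOn.integrableOn_compact (sqr_compact c0 r0)
      ((((dens_pd hT i).comp_continuousOn D.cont).div
        (contDiff_lam.continuous.comp_continuousOn D.cont) fun x _ => (lam_pos _).ne').mul
        D.kc.continuousOn)
  have h3 := h1.add h2
  rw [← sub_eq_add_neg, ← integral_sub (hi (contDiff_t1 hδ z) 0) (hi (contDiff_t2 hδ z) 1)] at h3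
  have e : (fun x => pd 0 (t1 δ z) (q x) / lam (q x) * κ x - pd 1 (t2 δ z) (q x) / lam (q x) * κ x)
      = fun x => κ x / lam (q x) * th δ (q x - z) := by
    funext x
    rw [← div_t hδ z (q x)]
    ring
  rw [e] at h3
  exact h3

theorem dens_bdd {δ : ℝ} (hδ : 0 < δ) : ∃ C, ∀ y, ‖th δ y‖ ≤ C :=
  (continuous_th δ).bounded_above_of_compact_support
    (HasCompactSupport.intro (isCompact_closedBall (0 : P) δ) fun y hy =>
      th_eq_zero hδ (by rw [mem_closedBall_zero_iff, not_le] at hy; exact hy.le))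

theorem dens_cont {ν : Measure P} [IsFiniteMeasure ν] {δ : ℝ} (hδ : 0 < δ) :
    Continuous fun z => ∫ y, th δ (y - z) ∂ν := by
  obtain ⟨C, hC⟩ := dens_bdd hδ
  exact continuous_of_dominated (bound := fun _ => C)
    (fun z => ((continuous_th δ).comp (continuous_id.sub continuous_const)).aestronglyMeasurable)
    (fun z => Eventually.of_forall fun y => hC _) (integrable_const C)
    (Eventually.of_forall fun y => (continuous_th δ).comp (continuous_const.sub continuous_id))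

/-- the push forward of the curvature measure has density at least one near a value -/
theorem Dat.dens {p q κ c0 r0 al S} (D : Dat p q κ c0 r0 al S) (hκ : ∀ x, 0 < κ x) {x0 : P}
    (hx : x0 ∈ interior (sqr c0 r0)) (hy : q x0 ∉ q '' frontier (sqr c0 r0)) :
    ∃ δ > 0, ∀ B : Set P, MeasurableSet B → B ⊆ ball (q x0) δ →
      ∫⁻ y in B, ENNReal.ofReal (lam y) ≤ ∫⁻ x in sqr c0 r0 ∩ q ⁻¹' B, ENNReal.ofReal (κ x) := by
  set Q := sqr c0 r0 with hQ
  have hc : IsCompact Q := sqr_compact c0 r0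
  have hm : MeasurableSet Q := hc.measurableSet
  have hfQ : frontier Q ⊆ Q := hc.isClosed.frontier_subset
  have hcl : IsClosed (q '' frontier Q) :=
    ((hc.of_isClosed_subset isClosed_frontier hfQ).image_of_continuousOn
      (D.cont.mono hfQ)).isClosed
  obtain ⟨ρ0, hρ0, hb⟩ := Metric.isOpen_iff.1 hcl.isOpen_compl _ hy
  have hfar : ∀ x ∈ frontier Q, ρ0 ≤ dist (q x) (q x0) := fun x hx' =>
    not_lt.1 fun h => hb (mem_ball.2 h) ⟨x, hx', rfl⟩
  set ρ := ρ0 / 4 with hρ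
  have hρp : 0 < ρ := by positivity
  -- the measure
  have hq : AEMeasurable q (volume.restrict Q) := D.cont.aemeasurable hm
  have hfc : ContinuousOn (fun x => κ x / lam (q x)) Q :=
    D.kc.continuousOn.div (contDiff_lam.continuous.comp_continuousOn D.cont)
      fun x _ => (lam_pos _).ne'
  have hfp : ∀ x, 0 < κ x / lam (q x) := fun x => div_pos (hκ x) (lam_pos _)
  have hf : AEMeasurable (fun x => ENNReal.ofReal (κ x / lam (q x))) (volume.restrict Q) :=
    (hfc.aemeasurable hm).ennreal_ofReal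
  set μ : Measure P :=
    (volume.restrict Q).withDensity fun x => ENNReal.ofReal (κ x / lam (q x)) with hμ
  have hμf : IsFiniteMeasure μ :=
    isFiniteMeasure_withDensity_ofReal (hfc.integrableOn_compact hc).2
  have hq' : AEMeasurable q μ := hq.mono_ac (withDensity_absolutelyContinuous _ _)
  set ν : Measure P := μ.map q with hν
  have hint : ∀ δ z, ∫ y, th δ (y - z) ∂ν = ∫ x in Q, κ x / lam (q x) * th δ (q x - z) := by
    intro δ z
    have hct : Continuous fun y => th δ (y - z) :=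
      (continuous_th δ).comp (continuous_id.sub continuous_const)
    rw [hν, integral_map hq' hct.aestronglyMeasurable, hμ,
      integral_withDensity_eq_integral_toReal_smul₀ hf
        (Eventually.of_forall fun x => ENNReal.ofReal_lt_top)]
    refine integral_congr_ae (Eventually.of_forall fun x => ?_)
    simp only [ENNReal.toReal_ofReal (hfp x).le, smul_eq_mul]
  have hev : ∀ z ∈ ball (q x0) ρ, ∀ᶠ n in atTop, ∀ x ∈ frontier Q, ρ ≤ dist (p n x) z := by
    intro z hz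
    filter_upwards [Metric.tendstoUniformlyOn_iff.1 D.unif ρ hρp] with n hn x hx'
    have a1 := hn x (hfQ hx')
    have a2 := hfar x hx'
    have a3 := dist_triangle4 (q x) (p n x) z (q x0)
    have a4 := mem_ball.1 hz
    linarith
  have hZ : ∀ δ, 0 < δ → δ ≤ ρ → ∀ z ∈ ball (q x0) ρ,
      ∫ y, th δ (y - z) ∂ν ∈ range ((↑) : ℤ → ℝ) := by
    intro δ hδ hδ' z hz
    rw [hint]
    refine Int.isClosedEmbedding_coe_real.isClosed_range.mem_of_tendsto (dens_tend D hδ z) ?_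
    filter_upwards [hev z hz] with n hn
    obtain ⟨m, hm⟩ := wind_int hδ D.r_pos (D.smooth n) fun x hx' => hδ'.trans (hn x hx')
    exact ⟨m, hm.symm⟩
  have hI : ∀ δ, 0 < δ → δ ≤ ρ → ∀ z ∈ ball (q x0) ρ,
      ∫ y, th δ (y - z) ∂ν = ∫ y, th ρ (y - z) ∂ν := by
    intro δ hδ hδ' z hz
    rw [hint, hint]
    refine tendsto_nhds_unique_of_eventuallyEq (dens_tend D hδ z) (dens_tend D hρp z) ?_
    filter_upwards [hev z hz] with n hn
    exact wind_indep hδ hρp D.r_pos (fun x hx' => hδ'.trans (hn x hx')) hn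
  obtain ⟨m, hm0⟩ := hZ ρ hρp le_rfl _ (mem_ball_self hρp)
  have hconst : ∀ δ, 0 < δ → δ < ρ → ∀ z ∈ ball (q x0) ρ, ∫ y, th δ (y - z) ∂ν = m := by
    intro δ hδ hδ' z hz
    rw [hI δ hδ hδ'.le z hz, hm0]
    exact (convex_ball (q x0) ρ).isPreconnected.constant_of_mapsTo
      Int.isClosedEmbedding_coe_real.isInducing.isDiscrete_range (dens_cont hρp).continuousOn
      (fun z hz => hZ ρ hρp le_rfl z hz) hz (mem_ball_self hρp)
  obtain ⟨k1, k2⟩ := le_of_kernel hρp hconst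
  have hpos : (0 : ℝ) < m := by
    refine k1 fun h0 => ?_
    rw [hν, Measure.map_apply_of_aemeasurable hq' measurableSet_ball] at h0
    have h1 := withDensity_absolutelyContinuous' hf
      (Eventually.of_forall fun x => (ENNReal.ofReal_pos.2 (hfp x)).ne') h0
    rw [Measure.restrict_apply' hm] at h1
    have hQn : Q ∈ 𝓝 x0 := mem_interior_iff_mem_nhds.1 hx
    have h2 : q ⁻¹' ball (q x0) (ρ / 4) ∈ 𝓝 x0 :=
      (D.cont.continuousAt hQn).preimage_mem_nhds (ball_mem_nhds _ (by positivity))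
    exact (Measure.measure_pos_of_mem_nhds volume (inter_mem h2 hQn)).ne' h1
  have hone : (1 : ℝ) ≤ m := by
    have : 0 < m := by exact_mod_cast hpos
    exact_mod_cast this
  refine ⟨ρ / 2, by positivity, fun B hB hBs => ?_⟩
  have hle : volume.restrict B ≤ ν.restrict B := by
    refine Measure.le_iff.2 fun s hs => ?_
    rw [Measure.restrict_apply hs, Measure.restrict_apply hs]
    refine le_trans ?_ (k2 _ (hs.inter hB) (inter_subset_right.trans hBs))
    exact le_mul_of_one_le_left zero_le (ENNReal.one_le_ofReal.2 hone)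
  have hl : Measurable fun y => ENNReal.ofReal (lam y) :=
    contDiff_lam.continuous.measurable.ennreal_ofReal
  refine (lintegral_mono' hle le_rfl).trans (le_of_eq ?_)
  have hg : AEMeasurable (fun a => B.indicator (fun y => ENNReal.ofReal (lam y)) (q a))
      (volume.restrict Q) := (hl.indicator hB).comp_aemeasurable hq
  rw [← lintegral_indicator hB, hν, lintegral_map' (hl.indicator hB).aemeasurable hq', hμ,
    lintegral_withDensity_eq_lintegral_mul₀ hf hg,
    inter_comm, ← Measure.restrict_restrict' hm,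
    ← lintegral_indicator₀ (hq.nullMeasurableSet_preimage hB)]
  refine lintegral_congr fun x => ?_
  by_cases h : q x ∈ B
  · rw [indicator_of_mem (show x ∈ q ⁻¹' B from h), Pi.mul_apply,
      indicator_of_mem h, ← ENNReal.ofReal_mul (hfp x).le, div_mul_cancel₀ _ (lam_pos _).ne']
  · rw [indicator_of_notMem (show x ∉ q ⁻¹' B from h), Pi.mul_apply,
      indicator_of_notMem h, mul_zero]

end Pool.Agent.Bor
end
end

-- part Pool.Agent.P.MP_26ecb7_gt.LocB
section

noncomputable section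
open Set Filter Topology MeasureTheory Metric
open scoped RealInnerProductSpace ContDiff ENNReal

namespace Pool.Agent.Bor

theorem locb_meas (R : Rot) : Measurable (gn R) := by
  unfold gn
  fun_prop

theorem locb_open (z : E) : IsOpen {y : E | 0 < ⟪y, z⟫} :=
  isOpen_lt continuous_const (by fun_prop)

theorem locb_nrm (R : Rot) {y : E} (h1 : ‖y‖ = 1) (hy : 0 < ⟪y, R.R (ee 2)⟫) :
    nrm (lift R (gn R y)) = y := by
  rw [← nrm_smul hy, lift_gn R hy.ne', nrm_unit h1]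

theorem locb_cap {y z : E} (hz : ‖z‖ = 1) (h : dist y z < 1 / 2) : 1 / 2 < ⟪y, z⟫ := by
  have h1 := abs_real_inner_le_norm (y - z) z
  rw [inner_sub_left, real_inner_self_eq_norm_sq, hz, ← dist_eq_norm] at h1
  linarith [(abs_le.1 h1).1]

theorem locb_main {X : Surf} (I : Iso X) {R R' : Rot} {p : ℕ → P → P} {c : P} {r : ℝ} {S : Set P}
    (D : Dat p (fun x => gn R' (I.n R x)) (X.ka R) c r I.al S)
    (hc : ∀ x ∈ sqr c r, 1 / 2 < ⟪I.n R x, R'.R (ee 2)⟫) {x0 : P} (hx : x0 ∈ interior (sqr c r))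
    (hy : gn R' (I.n R x0) ∉ (fun x => gn R' (I.n R x)) '' frontier (sqr c r)) {U : Set E}
    (hU : ∀ x ∈ sqr c r, X.psi R x ∈ U) : ∃ δ > 0, ∀ B : Set E, MeasurableSet B →
      B ⊆ ball (I.n R x0) δ → sig B ≤ X.mu (U ∩ I.N ⁻¹' B) := by
  obtain ⟨δ', h1, h2⟩ := D.dens (X.ka_pos R) hx hy
  have h3 : ∀ x ∈ sqr c r, 0 < ⟪I.n R x, R'.R (ee 2)⟫ := fun x hx => one_half_pos.trans (hc x hx)
  have h4 := h3 x0 (interior_subset hx)
  have h5 : ∀ᶠ y in 𝓝 (I.n R x0), 0 < ⟪y, R'.R (ee 2)⟫ ∧ gn R' y ∈ ball (gn R' (I.n R x0)) δ' :=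
    Eventually.and ((locb_open _).mem_nhds h4)
      ((contDiffAt_gn R' h4.ne').continuousAt.eventually (ball_mem_nhds _ h1))
  obtain ⟨δ, h6, h7⟩ := Metric.eventually_nhds_iff_ball.1 h5
  refine ⟨δ, h6, fun B hB hs => ?_⟩
  have h8 : MeasurableSet ((fun x => nrm (lift R' x)) ⁻¹' B ∩ ball (gn R' (I.n R x0)) δ') :=
    ((measurable_nrm.comp (contDiff_lift R').continuous.measurable) hB).inter measurableSet_ball
  generalize hB' : (fun x => nrm (lift R' x)) ⁻¹' B ∩ ball (gn R' (I.n R x0)) δ' = B' at h8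
  have h9 : MeasurableSet (sqr c r ∩ (fun x => gn R' (I.n R x)) ⁻¹' B') :=
    (sqr_compact c r).measurableSet.inter
      (((locb_meas R').comp (I.continuous_n R).measurable) h8)
  calc sig B ≤ sig ({y | 0 < ⟪y, R'.R (ee 2)⟫ ∧ gn R' y ∈ B'} ∪ (sphere (0 : E) 1)ᶜ) := by
        refine measure_mono fun y hy => or_iff_not_imp_right.2 fun h => ?_
        have k1 := h7 y (hs hy)
        refine ⟨k1.1, hB' ▸ ⟨?_, k1.2⟩⟩
        rw [mem_preimage, locb_nrm R' (mem_sphere_zero_iff_norm.1 (not_not.1 h)) k1.1]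
        exact hy
    _ ≤ sig {y | 0 < ⟪y, R'.R (ee 2)⟫ ∧ gn R' y ∈ B'} := by
        refine (measure_union_le _ _).trans ?_
        rw [sig_compl_sphere, add_zero]
    _ ≤ X.mu (X.psi R '' (sqr c r ∩ (fun x => gn R' (I.n R x)) ⁻¹' B')) := by
        rw [sig_gn R' h8, X.mu_image R h9]
        exact h2 B' h8 (hB' ▸ inter_subset_right)
    _ ≤ _ := by
        refine measure_mono ?_
        rintro _ ⟨x, ⟨k1, k2⟩, rfl⟩
        have k3 : nrm (lift R' (gn R' (I.n R x))) ∈ B := (hB' ▸ k2 :).1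
        rw [locb_nrm R' (I.norm_n R x) (h3 x k1)] at k3
        exact ⟨hU x k1, k3⟩

theorem Iso.lp {X : Surf} (I : Iso X) {B : Set E} (hB : μH[3 * I.al] B = 0)
    (hg : ∀ q ∈ X.S, q ∉ B →
      GoodS (fun _ => fderiv ℝ I.v) X.S q ∨ BesS (fderiv ℝ I.v) X.S q) : LP I := by
  obtain ⟨W⟩ := X.exists_pou
  obtain ⟨A, ε, V, M⟩ := I.exists_mo
  choose R' hR' using fun (R : Rot) (c : P) => exists_rot (I.norm_n R c)
  let ct : ℕ → P := TopologicalSpace.denseSeq P
  let ρ : ℕ → ℝ := fun m => 1 / ((m : ℝ) + 1) / 2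
  have hρ : ∀ m, 0 < 2 * ρ m ∧ 2 * ρ m ≤ 1 := fun m => by
    rw [mul_div_cancel₀ _ two_ne_zero]
    exact ⟨Nat.one_div_pos_of_nat, div_le_one_of_le₀ (by linarith [m.cast_nonneg (α := ℝ)])
      (by positivity)⟩
  let Q : ℕ → ℕ → Set P := fun j m => sqr ((ct j).1 - ρ m, (ct j).2 - ρ m) (2 * ρ m)
  let Ok : Fin W.k × ℕ × ℕ → Prop := fun i => ∀ x ∈ Q i.2.1 i.2.2,
    1 / 2 < ⟪I.n (W.R i.1) x, (R' (W.R i.1) (ct i.2.1)).R (ee 2)⟫
  let F : Fin W.k × ℕ × ℕ → Set P := fun i =>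
    (fun x => gn (R' (W.R i.1) (ct i.2.1)) (I.n (W.R i.1) x)) '' frontier (Q i.2.1 i.2.2)
  have hD := fun i (h : Ok i) => A.dat hB M hg (W.R i.1) _ (hρ _).1 (hρ _).2 h
  have hF : ∀ i, Ok i → MeasurableSet (F i) ∧ volume (F i) = 0 := fun i h => by
    obtain ⟨p, D⟩ := hD i h
    obtain ⟨M, hM⟩ := D.hol_lim
    have k1 := (sqr_compact _ _).isClosed.frontier_subset (s := Q i.2.1 i.2.2)
    exact ⟨(((sqr_compact _ _).of_isClosed_subset isClosed_frontier k1).image_of_continuousOn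
      (D.cont.mono k1)).measurableSet, null_frontier (hρ _).1 I.al_gt hM⟩
  refine ⟨⋃ i, ⋃ _ : Ok i, {y | 0 < ⟪y, (R' (W.R i.1) (ct i.2.1)).R (ee 2)⟫ ∧
    gn (R' (W.R i.1) (ct i.2.1)) y ∈ F i}, ?_, ?_, fun q hq hZ U hU => ?_⟩
  · exact MeasurableSet.iUnion fun i => MeasurableSet.iUnion fun h =>
      (locb_open _).measurableSet.inter (locb_meas _ (hF i h).1)
  · refine measure_iUnion_null fun i => measure_iUnion_null fun h => ?_
    rw [sig_gn _ (hF i h).1, setLIntegral_measure_zero _ _ (hF i h).2]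
  · obtain ⟨a, x0, rfl, -⟩ := W.exists_pos hq
    have k1 : ∀ᶠ x in 𝓝 x0, X.psi (W.R a) x ∈ U ∧ I.n (W.R a) x ∈ ball (I.n (W.R a) x0) (1 / 4) :=
      ((X.sm_psi _).continuous.continuousAt.eventually hU).and
        ((I.continuous_n _).continuousAt.eventually (ball_mem_nhds _ (by norm_num)))
    obtain ⟨ε, k2, k3⟩ := Metric.eventually_nhds_iff_ball.1 k1
    obtain ⟨m, hm⟩ := exists_nat_one_div_lt k2
    have k4 : 0 < ρ m := by linarith [(hρ m).1]
    obtain ⟨j, hj⟩ := (TopologicalSpace.denseRange_denseSeq P).exists_dist_lt x0 k4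
    have k5 : Q j m = closedBall (ct j) (ρ m) := (closedBall_eq_sqr _ _).symm
    have k6 : ∀ x ∈ Q j m, x ∈ ball x0 ε := fun x hx => by
      rw [k5, mem_closedBall] at hx
      have k7 := dist_triangle_right x x0 (ct j)
      have k8 : ρ m = 1 / ((m : ℝ) + 1) / 2 := rfl
      rw [mem_ball]
      linarith
    have k7 : Ok (a, j, m) := fun x hx => by
      have k8 := (k3 x (k6 x hx)).2
      have k9 := (k3 _ (k6 _ (k5 ▸ mem_closedBall_self k4.le))).2
      have k10 := dist_triangle_right (I.n (W.R a) x) (I.n (W.R a) (ct j)) (I.n (W.R a) x0)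
      rw [mem_ball] at k8 k9
      rw [hR']
      exact locb_cap (I.norm_n _ _) (by linarith)
    have k8 : x0 ∈ interior (Q j m) := k5 ▸ ball_subset_interior_closedBall hj
    obtain ⟨p, D⟩ := hD _ k7
    exact locb_main I D k7 k8 (fun h => hZ (mem_iUnion₂.2
      ⟨(a, j, m), k7, one_half_pos.trans (k7 x0 (interior_subset k8)), h⟩))
      fun x hx => (k3 x (k6 x hx)).1

end Pool.Agent.Bor
end
end

-- part Pool.Agent.P.MP_26ecb7_gt.Count
section

noncomputable section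
open Set Filter Topology MeasureTheory Metric
open scoped RealInnerProductSpace ContDiff ENNReal

namespace Pool.Agent.Bor

/-- local lower bounds globalise -/
theorem loc_glob {m s : Measure E} {O : Set E} {k : ℝ≥0∞}
    (h : ∀ y ∈ O, ∃ δ > 0, ∀ B, MeasurableSet B → B ⊆ ball y δ → k * s B ≤ m B) :
    ∃ G : Set E, IsOpen G ∧ O ⊆ G ∧ ∀ B, MeasurableSet B → B ⊆ G → k * s B ≤ m B := by
  choose! δ hδ h using h
  refine ⟨⋃ y : O, ball y.1 (δ y), isOpen_iUnion fun _ => isOpen_ball,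
    fun y hy => mem_iUnion.2 ⟨⟨y, hy⟩, mem_ball_self (hδ y hy)⟩, fun B hB hBG => ?_⟩
  obtain ⟨T, hT, hTG⟩ := TopologicalSpace.isOpen_iUnion_countable
    (fun y : O => ball y.1 (δ y)) fun _ => isOpen_ball
  rw [← hTG] at hBG
  rcases T.eq_empty_or_nonempty with rfl | hne
  · have : B = ∅ := by simpa using hBG
    simp [this]
  obtain ⟨f, rfl⟩ := hT.exists_eq_range hne
  rw [biUnion_range, ← iUnion_disjointed] at hBG
  have hm : ∀ n, MeasurableSet (B ∩ disjointed (fun n => ball (f n).1 (δ (f n))) n) := fun n =>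
    hB.inter (MeasurableSet.disjointed (fun _ => measurableSet_ball) n)
  have hd : Pairwise (Function.onFun Disjoint
      fun n => B ∩ disjointed (fun n => ball (f n).1 (δ (f n))) n) := fun i j hij =>
    (disjoint_disjointed _ hij).mono inter_subset_right inter_subset_right
  rw [← inter_eq_left.2 hBG, inter_iUnion, measure_iUnion hd hm, measure_iUnion hd hm,
    ← ENNReal.tsum_mul_left]
  exact ENNReal.tsum_le_tsum fun n => h _ (f n).2 _ (hm n)
    (inter_subset_right.trans (disjointed_subset _ n))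

theorem count_single (y : E) : sig {y} = 0 := by
  have h1 : nrm ⁻¹' {y} ⊆ (Submodule.span ℝ {y} : Submodule ℝ E) := by
    intro z hz
    have hz' : ‖z‖⁻¹ • z = y := hz
    refine Submodule.mem_span_singleton.2 ⟨‖z‖, ?_⟩
    by_cases h0 : z = 0
    · simp [h0]
    · rw [← hz', smul_smul, mul_inv_cancel₀ (norm_ne_zero_iff.2 h0), one_smul]
  have h2 : (Submodule.span ℝ {y} : Submodule ℝ E) ≠ ⊤ := by
    intro h
    have := finrank_span_le_card (R := ℝ) ({y} : Set E)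
    rw [h] at this
    simp at this
  rw [sig, Measure.smul_apply, Measure.map_apply measurable_nrm (measurableSet_singleton y),
    measure_mono_null h1 (nonpos_iff_eq_zero.1 ((Measure.restrict_apply_le _ _).trans
      (Measure.addHaar_submodule _ _ h2).le)), smul_zero]

theorem count_max {X : Surf} (I : Iso X) (y : E) :
    ∃ q ∈ X.S, ∀ q' ∈ X.S, ⟪y, I.v q'⟫ ≤ ⟪y, I.v q⟫ :=
  X.cpt.exists_isMaxOn X.conn.nonempty (f := fun q => ⟪y, I.v q⟫) fun q hq =>
    (continuousAt_const.inner (I.c1 q hq).continuousAt).continuousWithinAt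

/-- the symmetric form of the local bound -/
theorem count_sym {X : Surf} {I : Iso X} (h : LP I) : ∃ Z : Set E, MeasurableSet Z ∧ sig Z = 0 ∧
    ∀ y ∉ Z, ∀ q ∈ X.S, I.N q = y ∨ I.N q = -y → ∀ U ∈ 𝓝 q, ∀ᶠ δ in 𝓝[>] (0 : ℝ),
      ∀ B : Set E, MeasurableSet B → B ⊆ ball y δ →
        sig B ≤ X.mu (U ∩ (I.N ⁻¹' B ∪ (fun q => -I.N q) ⁻¹' B)) := by
  obtain ⟨Z, hZ, hZ0, h⟩ := h
  refine ⟨Z ∪ (fun y => -y) ⁻¹' Z, hZ.union (measurable_neg hZ),
    measure_union_null hZ0 ((sig_neg hZ).trans hZ0), fun y hy q hq hN U hU => ?_⟩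
  rcases hN with hN | hN
  · obtain ⟨δ, hδ, h⟩ := h q hq (fun hz => hy (Or.inl (hN ▸ hz))) U hU
    filter_upwards [Ioo_mem_nhdsGT hδ] with ε hε B hB hBy
    exact (h B hB (hN ▸ hBy.trans (ball_subset_ball hε.2.le))).trans
      (measure_mono (inter_subset_inter_right _ subset_union_left))
  · obtain ⟨δ, hδ, h⟩ := h q hq (fun hz => hy (Or.inr (show -y ∈ Z from hN ▸ hz))) U hU
    filter_upwards [Ioo_mem_nhdsGT hδ] with ε hε B hB hBy
    rw [← sig_neg hB]
    refine (h _ (measurable_neg hB) fun z hz => ?_).trans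
      (measure_mono (inter_subset_inter_right _ subset_union_right))
    have := hBy hz
    rw [mem_ball, dist_neg] at this
    rw [hN]
    exact this.trans hε.2

theorem count_fin {X : Surf} (I : Iso X) {y : E} (T : Finset E)
    (h : ∀ q ∈ T, ∀ U ∈ 𝓝 q, ∀ᶠ δ in 𝓝[>] (0 : ℝ), ∀ B : Set E, MeasurableSet B → B ⊆ ball y δ →
      sig B ≤ X.mu (U ∩ (I.N ⁻¹' B ∪ (fun q => -I.N q) ⁻¹' B))) :
    ∃ δ > 0, ∀ B, MeasurableSet B → B ⊆ ball y δ →
      T.card * sig B ≤ (X.mu.map I.N + X.mu.map fun q => -I.N q) B := by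
  obtain ⟨U, hU, hd⟩ := T.finite_toSet.t2_separation
  obtain ⟨δ, h1, hδ⟩ := (((eventually_all_finset T).2 fun q hq =>
    h q hq (U q) ((hU q).2.mem_nhds (hU q).1)).and self_mem_nhdsWithin).exists
  refine ⟨δ, hδ, fun B hB hBy => ?_⟩
  have hW : MeasurableSet (I.N ⁻¹' B ∪ (fun q => -I.N q) ⁻¹' B) :=
    (I.measurable_N hB).union (I.measurable_N.neg hB)
  rw [Measure.add_apply, Measure.map_apply I.measurable_N hB,
    Measure.map_apply I.measurable_N.fun_neg hB, ← nsmul_eq_mul]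
  refine (Finset.card_nsmul_le_sum T _ _ fun q hq => h1 q hq B hB hBy).trans ?_
  rw [← measure_biUnion_finset (fun a ha b hb hab =>
    (hd ha hb hab).mono inter_subset_left inter_subset_left)
    fun q _ => (hU q).2.measurableSet.inter hW]
  exact (measure_mono (iUnion₂_subset fun _ _ => inter_subset_right)).trans (measure_union_le _ _)

theorem count_excess {m : Measure E} {G : Set E} (hG : MeasurableSet G) (h0 : sig Gᶜ = 0)
    (h : ∀ B, MeasurableSet B → B ⊆ G → 2 * sig B ≤ m B) (hm : m univ = 2 * sig univ) {A : Set E}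
    (hA : MeasurableSet A) : m A ≤ 2 * sig A := by
  have h1 : sig Aᶜ = sig (Aᶜ ∩ G) := (measure_inter_conull h0).symm
  have h2 : 2 * sig Aᶜ ≤ m Aᶜ :=
    h1 ▸ (h _ (hA.compl.inter hG) inter_subset_right).trans (measure_mono inter_subset_left)
  have h3 : m A + 2 * sig Aᶜ ≤ 2 * sig A + 2 * sig Aᶜ := by
    rw [← mul_add, measure_add_measure_compl hA, ← hm, ← measure_add_measure_compl hA]
    gcongr
  exact (ENNReal.add_le_add_iff_right (ENNReal.mul_ne_top (by simp) (measure_ne_top _ _))).1 h3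

/-- every tangent plane is a supporting plane -/
theorem LP.support {X : Surf} {I : Iso X} (h : LP I) :
    (∀ q ∈ X.S, (∀ q' ∈ X.S, ⟪I.N q, I.v q' - I.v q⟫ ≤ 0) ∨ (∀ q' ∈ X.S, 0 ≤ ⟪I.N q, I.v q' - I.v q⟫))
      ∧ ∀ y : E, y ≠ 0 → ∃ q ∈ X.S, ∃ q' ∈ X.S, ⟪y, I.v q⟫ ≠ ⟪y, I.v q'⟫ := by
  obtain ⟨Z, hZ, hZ0, h⟩ := count_sym h
  have hO : sig (sphere (0 : E) 1 \ Z)ᶜ = 0 := by
    rw [sdiff_eq, compl_inter, compl_compl]
    exact measure_union_null sig_compl_sphere hZ0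
  have two : ∀ y : E, y ≠ 0 → ∃ q ∈ X.S, ∃ q' ∈ X.S, ⟪y, I.v q⟫ ≠ ⟪y, I.v q'⟫ := by
    intro y hy
    by_contra! hc
    have h1 := I.not_flat y hy hc
    obtain ⟨u, hu, huZ⟩ : (sphere (0 : E) 1 \ Z).Nonempty := by
      by_contra hn
      rw [not_nonempty_iff_eq_empty.1 hn, compl_empty] at hO
      exact sig_pos isOpen_univ (mem_univ (ee 0)) (by simp [ee]) hO
    rw [mem_sphere_zero_iff_norm] at hu
    obtain ⟨q, hq, hm⟩ := count_max I u
    obtain ⟨δ, h2, hδ⟩ :=
      ((h u huZ q hq (I.N_of_max hu hq hm) univ univ_mem).and self_mem_nhdsWithin).exists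
    have h3 : sig ({nrm y} ∪ {-nrm y}) = 0 := measure_union_null (count_single _) (count_single _)
    have h4 := h2 (ball u δ \ ({nrm y} ∪ {-nrm y})) (measurableSet_ball.diff
      ((measurableSet_singleton _).union (measurableSet_singleton _))) sdiff_subset
    rw [measure_sdiff_null h3] at h4
    refine sig_pos isOpen_ball (mem_ball_self hδ) hu (nonpos_iff_eq_zero.1 (h4.trans ?_))
    refine (measure_mono fun z hz hzS => ?_).trans X.mu_compl.le
    rcases hz.2 with k | k <;> rcases h1 z hzS with e | e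
    · exact k.2 (Or.inl e)
    · exact k.2 (Or.inr e)
    · exact k.2 (Or.inr (neg_eq_iff_eq_neg.2 (e.trans (neg_neg _).symm)))
    · exact k.2 (Or.inl (neg_eq_iff_eq_neg.2 e))
  refine ⟨?_, two⟩
  have ext : ∀ y : E, ‖y‖ = 1 → ∃ q₁ ∈ X.S, ∃ q₂ ∈ X.S, q₁ ≠ q₂ ∧
      (∀ q' ∈ X.S, ⟪y, I.v q'⟫ ≤ ⟪y, I.v q₁⟫) ∧ (∀ q' ∈ X.S, ⟪y, I.v q₂⟫ ≤ ⟪y, I.v q'⟫) ∧
      (I.N q₁ = y ∨ I.N q₁ = -y) ∧ (I.N q₂ = y ∨ I.N q₂ = -y) := by
    intro y hy
    obtain ⟨q₁, h1, m1⟩ := count_max I y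
    obtain ⟨q₂, h2, m2⟩ := count_max I (-y)
    have n2 := I.N_of_max (by rwa [norm_neg]) h2 m2
    simp only [inner_neg_left, neg_le_neg_iff, neg_neg] at m2 n2
    refine ⟨q₁, h1, q₂, h2, ?_, m1, m2, I.N_of_max hy h1 m1, n2.symm⟩
    rintro rfl
    obtain ⟨a, ha, b, hb, hab⟩ := two y (by rintro rfl; simp at hy)
    exact hab (((m1 a ha).antisymm (m2 a ha)).trans ((m1 b hb).antisymm (m2 b hb)).symm)
  classical
  obtain ⟨G, hG, hOG, hG2⟩ := loc_glob (m := X.mu.map I.N + X.mu.map fun q => -I.N q) (s := sig)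
    (O := sphere (0 : E) 1 \ Z) (k := 2) (fun y hy => by
      obtain ⟨q₁, h1, q₂, h2, hne, -, -, n1, n2⟩ := ext y (mem_sphere_zero_iff_norm.1 hy.1)
      have := count_fin I (y := y) {q₁, q₂} (by
        simp only [Finset.mem_insert, Finset.mem_singleton, forall_eq_or_imp, forall_eq]
        exact ⟨h y hy.2 q₁ h1 n1, h y hy.2 q₂ h2 n2⟩)
      rwa [Finset.card_pair hne] at this)
  have up : ∀ A, MeasurableSet A → (X.mu.map I.N + X.mu.map fun q => -I.N q) A ≤ 2 * sig A :=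
    fun A hA => count_excess hG.measurableSet (measure_mono_null (compl_subset_compl.2 hOG) hO) hG2
      (by rw [Measure.add_apply, Measure.map_apply I.measurable_N .univ,
        Measure.map_apply I.measurable_N.fun_neg .univ, preimage_univ, preimage_univ, X.mu_univ,
        two_mul]) hA
  have good : ∀ q ∈ X.S, I.N q ∉ Z → (∀ q' ∈ X.S, ⟪I.N q, I.v q' - I.v q⟫ ≤ 0) ∨
      ∀ q' ∈ X.S, 0 ≤ ⟪I.N q, I.v q' - I.v q⟫ := by
    intro q hq hqZ
    have hn := I.norm_N (X.ne_o hq)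
    obtain ⟨q₁, h1, q₂, h2, hne, m1, m2, n1, n2⟩ := ext _ hn
    simp only [inner_sub_right, sub_nonpos, sub_nonneg]
    by_cases e1 : q = q₁
    · exact Or.inl (e1 ▸ m1)
    by_cases e2 : q = q₂
    · exact Or.inr (e2 ▸ m2)
    exfalso
    obtain ⟨δ, hδ, h3⟩ := count_fin I (y := I.N q) {q, q₁, q₂} (by
      simp only [Finset.mem_insert, Finset.mem_singleton, forall_eq_or_imp, forall_eq]
      exact ⟨h _ hqZ q hq (Or.inl rfl), h _ hqZ q₁ h1 n1, h _ hqZ q₂ h2 n2⟩)
    rw [Finset.card_eq_three.2 ⟨q, q₁, q₂, e1, e2, hne, rfl⟩] at h3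
    have h4 := (h3 _ measurableSet_ball Subset.rfl).trans (up _ measurableSet_ball)
    have h5 := (ENNReal.mul_le_mul_iff_left (sig_pos isOpen_ball (mem_ball_self hδ) hn)
      (measure_ne_top _ _)).1 h4
    norm_num at h5
  have hnull : X.mu (X.Sᶜ ∪ I.N ⁻¹' Z) = 0 := by
    refine measure_union_null X.mu_compl ?_
    have := up Z hZ
    rw [hZ0, mul_zero, Measure.add_apply, Measure.map_apply I.measurable_N hZ] at this
    exact nonpos_iff_eq_zero.1 (le_self_add.trans this)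
  intro q hq
  by_contra! hc
  obtain ⟨⟨a, ha, ha'⟩, b, hb, hb'⟩ := hc
  have hcont : ∀ c, ContinuousAt (fun z => ⟪I.N z, I.v c - I.v z⟫) q := fun c =>
    (I.continuousAt_N (X.ne_o hq)).inner (continuousAt_const.sub (I.c1 q hq).continuousAt)
  refine X.mu_pos hq (((hcont a).eventually (lt_mem_nhds ha')).and
    ((hcont b).eventually (gt_mem_nhds hb'))) (measure_mono_null (fun z hz => ?_) hnull)
  by_contra hz'
  rw [mem_union, not_or, notMem_compl_iff] at hz'
  rcases good z hz'.1 hz'.2 with k | k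
  · exact (k a ha).not_gt hz.1
  · exact (k b hb).not_gt hz.2

end Pool.Agent.Bor
end
end

-- part Pool.Agent.P.MP_26ecb7_gt.Count2
section

noncomputable section
open Set Filter Topology MeasureTheory Metric
open scoped RealInnerProductSpace ContDiff ENNReal

namespace Pool.Agent.Bor

/-- a set that lies in no plane has a point strictly inside all its supporting half spaces -/
theorem count2_centre {A : Set E} (h : ∀ y : E, y ≠ 0 → ∃ a ∈ A, ∃ b ∈ A, ⟪y, a⟫ ≠ ⟪y, b⟫) :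
    ∃ c : E, ∀ y p : E, ‖y‖ = 1 → (∀ a ∈ A, ⟪y, a - p⟫ ≤ 0) → ⟪y, c - p⟫ < 0 := by
  have hne : A.Nonempty := by
    obtain ⟨a, ha, -⟩ := h (ee 0) (by simp [ee])
    exact ⟨a, ha⟩
  have h1 : vectorSpan ℝ A = ⊤ := by
    rw [← Submodule.orthogonal_eq_bot_iff, Submodule.eq_bot_iff]
    intro y hy
    by_contra h0
    obtain ⟨a, ha, b, hb, hab⟩ := h y h0
    have h2 := Submodule.inner_left_of_mem_orthogonal (vsub_mem_vectorSpan ℝ ha hb) hy
    rw [vsub_eq_sub, inner_sub_right] at h2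
    exact hab (sub_eq_zero.1 h2)
  obtain ⟨c, hc⟩ := interior_convexHull_nonempty_iff_affineSpan_eq_top.2
    ((AffineSubspace.affineSpan_eq_top_iff_vectorSpan_eq_top_of_nonempty ℝ E E hne).2 h1)
  refine ⟨c, fun y p hy hA => ?_⟩
  have h2 : convexHull ℝ A ⊆ {z | ⟪y, z⟫ ≤ ⟪y, p⟫} :=
    convexHull_min (fun a ha => by
        have := hA a ha
        rw [inner_sub_right] at this
        exact sub_nonpos.1 this)
      (convex_halfSpace_le (innerₛₗ ℝ y).isLinear _)
  obtain ⟨ε, hε, h3⟩ := Metric.mem_nhds_iff.1 (mem_interior_iff_mem_nhds.1 hc)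
  have h4 : c + (ε / 2) • y ∈ ball c ε := by
    rw [mem_ball, dist_eq_norm, add_sub_cancel_left, norm_smul, hy, mul_one,
      Real.norm_of_nonneg (by positivity)]
    linarith
  have h5 : ⟪y, c + (ε / 2) • y⟫ ≤ ⟪y, p⟫ := h2 (h3 h4)
  rw [inner_add_right, real_inner_smul_right, real_inner_self_eq_norm_sq, hy] at h5
  rw [inner_sub_right]
  linarith

theorem count2_cont {X : Surf} (I : Iso X) : ContinuousOn I.v X.S :=
  fun q hq => (I.c1 q hq).continuousAt.continuousWithinAt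

theorem count2_push {X : Surf} {J : Iso X} (h : LP J)
    (hs : ∀ q ∈ X.S, ∀ q' ∈ X.S, ⟪J.N q, J.v q' - J.v q⟫ ≤ 0) {B : Set E} (hB : MeasurableSet B) :
    X.mu (J.N ⁻¹' B) = sig B := by
  have h2 := h.support.2
  obtain ⟨Z, -, hZ, hL⟩ := h
  have h1 : ∀ y ∈ sphere (0 : E) 1 \ Z, ∃ δ > 0, ∀ B, MeasurableSet B → B ⊆ ball y δ →
      1 * sig B ≤ X.mu.map J.N B := by
    intro y hy
    have hy1 : ‖y‖ = 1 := mem_sphere_zero_iff_norm.1 hy.1
    obtain ⟨q, hq, hm⟩ := X.cpt.exists_isMaxOn X.conn.nonempty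
      (f := fun q => ⟪y, J.v q⟫) (ContinuousOn.inner (𝕜 := ℝ) continuousOn_const (count2_cont J))
    have hN : J.N q = y := by
      refine (J.N_of_max hy1 hq fun q' hq' => hm hq').resolve_right fun e => ?_
      obtain ⟨a, ha, b, hb, hab⟩ := h2 y (norm_ne_zero_iff.1 (by rw [hy1]; exact one_ne_zero))
      have h3 : ∀ a ∈ X.S, ⟪y, J.v a⟫ = ⟪y, J.v q⟫ := fun a ha => by
        have h4 := hs q hq a ha
        rw [e, inner_neg_left, inner_sub_right] at h4
        exact le_antisymm (hm ha) (by linarith)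
      exact hab ((h3 a ha).trans (h3 b hb).symm)
    obtain ⟨δ, hδ, h3⟩ := hL q hq (hN ▸ hy.2) univ univ_mem
    refine ⟨δ, hδ, fun B hB hBy => ?_⟩
    rw [one_mul, Measure.map_apply J.measurable_N hB, ← univ_inter (J.N ⁻¹' B)]
    exact h3 B hB (hN ▸ hBy)
  obtain ⟨G, hG, hOG, h3⟩ := loc_glob h1
  have h4 : sig Gᶜ = 0 := by
    refine measure_mono_null (fun y hy => ?_) (measure_union_null sig_compl_sphere hZ)
    by_contra h5
    rw [mem_union, not_or, notMem_compl_iff] at h5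
    exact hy (hOG h5)
  have h5 : sig ≤ X.mu.map J.N := Measure.le_iff.2 fun B hB => by
    rw [← measure_inter_conull h4]
    have h6 := h3 (B ∩ G) (hB.inter hG.measurableSet) inter_subset_right
    rw [one_mul] at h6
    exact h6.trans (measure_mono inter_subset_left)
  have h6 : sig = X.mu.map J.N := Measure.eq_of_le_of_measure_univ_eq h5 (by
    rw [Measure.map_apply J.measurable_N MeasurableSet.univ, preimage_univ, X.mu_univ])
  rw [h6, Measure.map_apply J.measurable_N hB]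

theorem LP.cvx {X : Surf} {I : Iso X} (h : LP I) : ∃ (J : Iso X) (s : ℝ) (c : E),
    (s = 1 ∨ s = -1) ∧ (∀ z, J.v z = s • (I.v z - c)) ∧ Cvx J := by
  obtain ⟨h1, h2⟩ := h.support
  obtain ⟨c, hc⟩ := count2_centre (A := I.v '' X.S) fun y hy => by
    obtain ⟨q, hq, q', hq', e⟩ := h2 y hy
    exact ⟨_, mem_image_of_mem _ hq, _, mem_image_of_mem _ hq', e⟩
  have hN : ∀ q ∈ X.S, ‖I.N q‖ = 1 := fun q hq => I.norm_N (X.ne_o hq)
  have h3 : ∀ q ∈ X.S, (∀ q' ∈ X.S, ⟪I.N q, I.v q' - I.v q⟫ ≤ 0) → 0 < ⟪I.N q, I.v q - c⟫ := by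
    intro q hq hs
    have h4 := hc (I.N q) (I.v q) (hN q hq) (by
      rintro _ ⟨q', hq', rfl⟩
      exact hs q' hq')
    rw [inner_sub_right] at h4 ⊢
    linarith
  have h4 : ∀ q ∈ X.S, (∀ q' ∈ X.S, 0 ≤ ⟪I.N q, I.v q' - I.v q⟫) → ⟪I.N q, I.v q - c⟫ < 0 := by
    intro q hq hs
    have h5 := hc (-I.N q) (I.v q) (by rw [norm_neg, hN q hq]) (by
      rintro _ ⟨q', hq', rfl⟩
      rw [inner_neg_left]
      exact neg_nonpos.2 (hs q' hq'))
    rw [inner_neg_left, inner_sub_right] at h5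
    rw [inner_sub_right]
    linarith
  have hcont : ContinuousOn (fun q => ⟪I.N q, I.v q - c⟫) X.S :=
    ContinuousOn.inner (𝕜 := ℝ) (fun q hq => (I.continuousAt_N (X.ne_o hq)).continuousWithinAt)
      ((count2_cont I).sub continuousOn_const)
  have h5 : ∃ s : ℝ, (s = 1 ∨ s = -1) ∧ ∀ q ∈ X.S,
      (∀ q' ∈ X.S, s * ⟪I.N q, I.v q' - I.v q⟫ ≤ 0) ∧ 0 < s * ⟪I.N q, I.v q - c⟫ := by
    rcases X.conn.isPreconnected.mapsTo_Ioi_or_Iio (b := 0) hcont (fun q hq =>
      (h1 q hq).elim (fun e => (h3 q hq e).ne') fun e => (h4 q hq e).ne) with h6 | h6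
    · refine ⟨1, Or.inl rfl, fun q hq => ⟨fun q' hq' => ?_, by rw [one_mul]; exact h6 hq⟩⟩
      rw [one_mul]
      exact ((h1 q hq).resolve_right fun e => lt_asymm (h4 q hq e) (h6 hq)) q' hq'
    · refine ⟨-1, Or.inr rfl, fun q hq => ⟨fun q' hq' => ?_,
        by rw [neg_one_mul]; exact neg_pos.2 (h6 hq)⟩⟩
      rw [neg_one_mul]
      exact neg_nonpos.2 (((h1 q hq).resolve_left fun e => lt_asymm (h3 q hq e) (h6 hq)) q' hq')
  obtain ⟨s, hs, h6⟩ := h5
  obtain ⟨J, hJ, hJN⟩ := I.exists_shift s hs c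
  have h7 : ∀ q ∈ X.S, ∀ q' ∈ X.S, ⟪J.N q, J.v q' - J.v q⟫ ≤ 0 := fun q hq q' hq' => by
    rw [hJN, hJ, hJ, ← smul_sub, sub_sub_sub_cancel_right, real_inner_smul_right]
    exact (h6 q hq).1 q' hq'
  have hL : LP J := by
    unfold LP at h ⊢
    rw [hJN]
    exact h
  refine ⟨J, s, c, hs, hJ, h7, fun q hq => ?_, fun B hB => count2_push hL h7 hB⟩
  rw [hJN, hJ, real_inner_smul_right]
  exact (h6 q hq).2

end Pool.Agent.Bor
end
end

-- part Pool.Agent.P.MP_26ecb7_gt.Conv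
section

noncomputable section
open Set Filter Topology MeasureTheory Metric
open scoped RealInnerProductSpace ContDiff ENNReal

namespace Pool.Agent.Bor

/-- hypotheses on the defining function -/
structure Lev (F : E → ℝ) : Prop where
  smooth : ContDiff ℝ ∞ F
  cpt : IsCompact (F ⁻¹' {0})
  conn : IsConnected (F ⁻¹' {0})
  reg : ∀ x ∈ F ⁻¹' {0}, fderiv ℝ F x ≠ 0
  curv : ∀ x ∈ F ⁻¹' {0}, ∀ w : E, fderiv ℝ F x w = 0 → w ≠ 0 → 0 < fderiv ℝ (fderiv ℝ F) x w w

theorem conv_line {F : E → ℝ} (hF : ContDiff ℝ ∞ F) (z d : E) (t : ℝ) :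
    HasDerivAt (fun s : ℝ => F (z + s • d)) (fderiv ℝ F (z + t • d) d) t := by
  have h1 : HasDerivAt (fun s : ℝ => z + s • d) d t := by
    simpa using ((hasDerivAt_id t).smul_const d).const_add z
  exact ((hF.differentiable (by simp)) (z + t • d)).hasFDerivAt.comp_hasDerivAt t h1

theorem conv_line2 {F : E → ℝ} (hF : ContDiff ℝ ∞ F) (z d : E) :
    HasDerivAt (fun s : ℝ => fderiv ℝ F (z + s • d) d) (fderiv ℝ (fderiv ℝ F) z d d) 0 := by
  have h1 : HasDerivAt (fun s : ℝ => z + s • d) d 0 := by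
    simpa using ((hasDerivAt_id (0 : ℝ)).smul_const d).const_add z
  have h2 : ContDiff ℝ ∞ (fderiv ℝ F) := hF.fderiv_right (m := ∞) (by simp)
  have h3 : HasFDerivAt (fderiv ℝ F) (fderiv ℝ (fderiv ℝ F) z) (z + (0 : ℝ) • d) := by
    simpa using ((h2.differentiable (by simp)) z).hasFDerivAt
  have h4 := h3.comp_hasDerivAt (0 : ℝ) h1
  have h5 := h4.clm_apply (hasDerivAt_const (0 : ℝ) d)
  simpa using h5

theorem conv_pos_right {g : ℝ → ℝ} {c : ℝ} (hg : HasDerivAt g c 0) (h0 : g 0 = 0) (hc : 0 < c) :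
    ∀ᶠ t in 𝓝[>] (0 : ℝ), 0 < g t := by
  have h1 := hg.tendsto_slope_zero_right
  have h2 := h1.eventually (lt_mem_nhds hc)
  filter_upwards [h2, self_mem_nhdsWithin] with t ht ht0
  have ht1 : (0 : ℝ) < t := ht0
  simp only [zero_add, h0, sub_zero, smul_eq_mul] at ht
  exact (mul_pos_iff_of_pos_left (inv_pos.mpr ht1)).mp ht

theorem conv_neg {F : E → ℝ} (h : Lev F) {z d : E} (hz : F z = 0) (hd : d ≠ 0)
    (hle : ∀ᶠ t in 𝓝[>] (0 : ℝ), F (z + t • d) ≤ 0) : fderiv ℝ F z d < 0 := by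
  by_contra hc
  have hc' : 0 ≤ fderiv ℝ F z d := not_lt.mp hc
  have key : ∀ᶠ t in 𝓝[>] (0 : ℝ), 0 < F (z + t • d) := by
    rcases hc'.lt_or_eq with hp | he
    · have h1 := conv_line h.smooth z d 0
      simp only [zero_smul, add_zero] at h1
      exact conv_pos_right h1 (by simpa using hz) hp
    · have h1 := conv_pos_right (conv_line2 h.smooth z d) (by simpa using he.symm)
        (h.curv z hz d he.symm hd)
      obtain ⟨ε, hε, hsub⟩ := mem_nhdsGT_iff_exists_Ioo_subset.mp h1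
      have hε0 : (0 : ℝ) < ε := hε
      have hmono : StrictMonoOn (fun s : ℝ => F (z + s • d)) (Icc 0 ε) := by
        apply strictMonoOn_of_deriv_pos (convex_Icc 0 ε)
        · exact fun s _ => (conv_line h.smooth z d s).continuousAt.continuousWithinAt
        · intro s hs
          rw [interior_Icc] at hs
          rw [(conv_line h.smooth z d s).deriv]
          exact hsub hs
      filter_upwards [Ioo_mem_nhdsGT hε0] with t ht
      have h2 := hmono ⟨le_rfl, hε0.le⟩ ⟨ht.1.le, ht.2.le⟩ ht.1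
      simpa [hz] using h2
  obtain ⟨t, h1, h2⟩ := (key.and hle).exists
  exact absurd h1 (not_lt.mpr h2)

theorem conv_seg_lt {F : E → ℝ} (h : Lev F) {x y : E} (hx : F x < 0) (hy : F y < 0)
    (hle : ∀ t ∈ Icc (0 : ℝ) 1, F (x + t • (y - x)) ≤ 0) :
    ∀ t ∈ Icc (0 : ℝ) 1, F (x + t • (y - x)) < 0 := by
  intro s hs
  rcases (hle s hs).lt_or_eq with h1 | h1
  · exact h1
  exfalso
  have hs0 : 0 < s := by
    rcases hs.1.lt_or_eq with h2 | h2
    · exact h2
    · rw [← h2] at h1; simp at h1; linarith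
  have hs1 : s < 1 := by
    rcases hs.2.lt_or_eq with h2 | h2
    · exact h2
    · rw [h2] at h1; simp at h1; linarith
  have hd : y - x ≠ 0 := by
    intro h2
    rw [h2] at h1; simp at h1; linarith
  have ha : fderiv ℝ F (x + s • (y - x)) (y - x) < 0 := by
    apply conv_neg h h1 hd
    filter_upwards [Ioo_mem_nhdsGT (sub_pos.mpr hs1)] with t ht
    have h2 := hle (s + t) ⟨by linarith [ht.1], by linarith [ht.2]⟩
    rwa [add_smul, ← add_assoc] at h2
  have hb : fderiv ℝ F (x + s • (y - x)) (-(y - x)) < 0 := by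
    apply conv_neg h h1 (neg_ne_zero.mpr hd)
    filter_upwards [Ioo_mem_nhdsGT hs0] with t ht
    have h2 := hle (s - t) ⟨by linarith [ht.2], by linarith [ht.1]⟩
    rwa [sub_smul, ← add_sub_assoc, sub_eq_add_neg (x + s • (y - x)), ← smul_neg] at h2
  rw [map_neg] at hb
  linarith

theorem conv_pre {F : E → ℝ} (h : Lev F) {U : Set E} (hU : IsPreconnected U)
    (hN : ∀ x ∈ U, F x < 0) {x y : E} (hx : x ∈ U) (hy : y ∈ U) :
    ∀ t ∈ Icc (0 : ℝ) 1, F (x + t • (y - x)) < 0 := by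
  have hc : Continuous F := h.smooth.continuous
  have hA : IsOpen {w : E | ∀ t ∈ Icc (0 : ℝ) 1, F (x + t • (w - x)) < 0} := by
    rw [isOpen_iff_mem_nhds]
    intro w hw
    apply (isCompact_Icc (a := (0 : ℝ)) (b := 1)).eventually_forall_of_forall_eventually
      (P := fun (w : E) (t : ℝ) => F (x + t • (w - x)) < 0)
    intro t ht
    have h1 : Continuous (fun p : E × ℝ => F (x + p.2 • (p.1 - x))) := by fun_prop
    exact h1.continuousAt.eventually (gt_mem_nhds (hw t ht))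
  have hB : IsClosed {w : E | ∀ t ∈ Icc (0 : ℝ) 1, F (x + t • (w - x)) ≤ 0} := by
    have h1 : {w : E | ∀ t ∈ Icc (0 : ℝ) 1, F (x + t • (w - x)) ≤ 0}
        = ⋂ t ∈ Icc (0 : ℝ) 1, {w : E | F (x + t • (w - x)) ≤ 0} := by
      ext w; simp
    rw [h1]
    exact isClosed_biInter fun t _ => isClosed_le (by fun_prop) continuous_const
  have hsub := hU.subset_left_of_subset_union hA hB.isOpen_compl
    (by
      rw [Set.disjoint_left]
      intro w hw hw'
      exact hw' fun t ht => (hw t ht).le)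
    (by
      intro w hw
      by_cases h1 : ∀ t ∈ Icc (0 : ℝ) 1, F (x + t • (w - x)) ≤ 0
      · exact Or.inl (conv_seg_lt h (hN x hx) (hN w hw) h1)
      · exact Or.inr h1)
    ⟨x, hx, fun t _ => by simpa using hN x hx⟩
  exact hsub hy

theorem conv_loc {F : E → ℝ} (h : Lev F) {q : E} (hq : F q = 0) :
    ∃ r > 0, ∃ p, F p < 0 ∧ ∀ x ∈ ball q r, F x ≤ 0 →
      x ∈ closure (connectedComponentIn {y | F y < 0} p) ∧
      (F x < 0 → x ∈ connectedComponentIn {y | F y < 0} p) := by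
  have hc : Continuous F := h.smooth.continuous
  obtain ⟨v, hv⟩ : ∃ v, fderiv ℝ F q v < 0 := by
    by_contra hcon
    push Not at hcon
    apply h.reg q hq
    ext v
    have h1 := hcon v
    have h2 := hcon (-v)
    rw [map_neg] at h2
    simp only [zero_apply]
    linarith
  have hcd : Continuous (fun p : E × ℝ => fderiv ℝ F (p.1 + p.2 • v) v) := by
    have h2 : Continuous (fderiv ℝ F) := h.smooth.continuous_fderiv (by simp)
    fun_prop
  have hev : ∀ᶠ p : E × ℝ in 𝓝 (q, 0), fderiv ℝ F (p.1 + p.2 • v) v < 0 :=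
    hcd.continuousAt.eventually (gt_mem_nhds (by simpa using hv))
  obtain ⟨ρ, hρ, hball⟩ := Metric.eventually_nhds_iff.mp hev
  have hdec : ∀ x ∈ ball q ρ, ∀ t ∈ Ioc (0 : ℝ) (ρ / 2), F (x + t • v) < F x := by
    intro x hx t ht
    have hanti : StrictAntiOn (fun s : ℝ => F (x + s • v)) (Icc 0 (ρ / 2)) := by
      apply strictAntiOn_of_deriv_neg (convex_Icc _ _)
      · exact fun s _ => (conv_line h.smooth x v s).continuousAt.continuousWithinAt
      · intro s hs
        rw [interior_Icc] at hs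
        rw [(conv_line h.smooth x v s).deriv]
        apply hball (y := (x, s))
        rw [Prod.dist_eq, max_lt_iff]
        refine ⟨hx, ?_⟩
        rw [Real.dist_eq, sub_zero, abs_of_pos hs.1]
        linarith [hs.2]
    have h2 := hanti ⟨le_rfl, by linarith⟩ ⟨ht.1.le, ht.2⟩ ht.1
    simpa using h2
  have hp : F (q + (ρ / 2) • v) < 0 := by
    have h1 := hdec q (mem_ball_self hρ) (ρ / 2) ⟨by linarith, le_rfl⟩
    rwa [hq] at h1
  obtain ⟨r1, hr1, hb1⟩ := Metric.eventually_nhds_iff.mp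
    (hc.continuousAt.eventually (gt_mem_nhds hp))
  refine ⟨min ρ r1, lt_min hρ hr1, q + (ρ / 2) • v, hp, fun x hx hx0 => ?_⟩
  have hxρ : x ∈ ball q ρ := ball_subset_ball (min_le_left _ _) hx
  have hxr : dist x q < r1 := lt_of_lt_of_le hx (min_le_right _ _)
  have h1 : x + (ρ / 2) • v ∈ connectedComponentIn {y | F y < 0} (q + (ρ / 2) • v) := by
    apply (convex_ball (q + (ρ / 2) • v) r1).isPreconnected.subset_connectedComponentIn
      (mem_ball_self hr1) (fun y hy => hb1 hy)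
    simpa [mem_ball] using hxr
  have hcx : Continuous (fun s : ℝ => x + s • v) := by fun_prop
  have h2 : (fun s : ℝ => x + s • v) '' Ioc 0 (ρ / 2) ⊆
      connectedComponentIn {y | F y < 0} (q + (ρ / 2) • v) := by
    rw [connectedComponentIn_eq h1]
    apply (isPreconnected_Ioc.image _ hcx.continuousOn).subset_connectedComponentIn
      ⟨ρ / 2, ⟨by linarith, le_rfl⟩, rfl⟩
    rintro _ ⟨s, hs, rfl⟩
    exact lt_of_lt_of_le (hdec x hxρ s hs) hx0
  constructor
  · apply closure_mono h2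
    apply image_closure_subset_closure_image hcx
    refine ⟨0, ?_, by simp⟩
    rw [closure_Ioc (by linarith)]
    exact ⟨le_rfl, by linarith⟩
  · intro hx1
    rw [connectedComponentIn_eq h1]
    have h3 : (fun s : ℝ => x + s • v) '' Icc 0 (ρ / 2) ⊆
        connectedComponentIn {y | F y < 0} (x + (ρ / 2) • v) := by
      apply (isPreconnected_Icc.image _ hcx.continuousOn).subset_connectedComponentIn
        ⟨ρ / 2, ⟨by linarith, le_rfl⟩, rfl⟩
      rintro _ ⟨s, hs, rfl⟩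
      rcases hs.1.lt_or_eq with h4 | h4
      · exact lt_of_lt_of_le (hdec x hxρ s ⟨h4, hs.2⟩) hx0
      · rw [← h4]; simpa using hx1
    exact h3 ⟨0, ⟨le_rfl, by linarith⟩, by simp⟩

theorem conv_comp {F : E → ℝ} (h : Lev F) :
    ∃ o, F o < 0 ∧ F ⁻¹' {0} ⊆ closure (connectedComponentIn {y | F y < 0} o) := by
  obtain ⟨q0, hq0⟩ := h.conn.nonempty
  obtain ⟨r0, hr0, o, ho, h0⟩ := conv_loc h hq0
  refine ⟨o, ho, ?_⟩
  by_contra hcon
  obtain ⟨q1, hq1, hq1'⟩ := not_subset.mp hcon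
  have hkey := h.conn.isPreconnected
    (interior {y | F y ≤ 0 → y ∈ closure (connectedComponentIn {y | F y < 0} o)})
    (closure (connectedComponentIn {y | F y < 0} o))ᶜ isOpen_interior
    isClosed_closure.isOpen_compl
    (by
      intro q hq
      by_cases h1 : q ∈ closure (connectedComponentIn {y | F y < 0} o)
      · left
        obtain ⟨r, hr, p, _, h2⟩ := conv_loc h hq
        obtain ⟨x, hx, hxq⟩ := Metric.mem_closure_iff.mp h1 r hr
        have hx0 : F x < 0 := connectedComponentIn_subset {y | F y < 0} o hx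
        have hx1 := (h2 x (by rw [mem_ball, dist_comm]; exact hxq) hx0.le).2 hx0
        have heq : connectedComponentIn {y | F y < 0} p = connectedComponentIn {y | F y < 0} o :=
          (connectedComponentIn_eq hx1).trans (connectedComponentIn_eq hx).symm
        rw [mem_interior_iff_mem_nhds]
        filter_upwards [ball_mem_nhds q hr] with y hy hy0
        rw [← heq]
        exact (h2 y hy hy0).1
      · exact Or.inr h1)
    ⟨q0, hq0, by
      rw [mem_interior_iff_mem_nhds]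
      filter_upwards [ball_mem_nhds q0 hr0] with y hy hy0
      exact (h0 y hy hy0).1⟩
    ⟨q1, hq1, hq1'⟩
  obtain ⟨x, hx, hx1, hx2⟩ := hkey
  have hx0 : F x = 0 := hx
  exact hx2 (interior_subset hx1 hx0.le)

/-- Hadamard: the level set bounds a strictly convex body -/
theorem Lev.convex {F : E → ℝ} (h : Lev F) : ∃ o : E,
    (∀ q ∈ F ⁻¹' {0}, 0 < fderiv ℝ F q (q - o)) ∧
    (∀ q ∈ F ⁻¹' {0}, ∀ q' ∈ F ⁻¹' {0}, q ≠ q' → fderiv ℝ F q (q' - q) < 0) ∧
    (∀ d : E, d ≠ 0 → ∃ t : ℝ, 0 < t ∧ F (o + t • d) = 0) := by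
  have hc : Continuous F := h.smooth.continuous
  obtain ⟨o, ho, hS⟩ := conv_comp h
  set U := connectedComponentIn {y | F y < 0} o with hUdef
  have hU : IsPreconnected U := isPreconnected_connectedComponentIn
  have hN : ∀ x ∈ U, F x < 0 := fun x hx => connectedComponentIn_subset {y | F y < 0} o hx
  have hoU : o ∈ U := mem_connectedComponentIn ho
  have hcl : ∀ x ∈ closure U, ∀ y ∈ closure U, ∀ t ∈ Icc (0 : ℝ) 1,
      F (x + t • (y - x)) ≤ 0 := by
    intro x hx y hy t ht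
    have h1 : IsClosed {p : E × E | F (p.1 + t • (p.2 - p.1)) ≤ 0} :=
      isClosed_le (by fun_prop) continuous_const
    have h2 : (x, y) ∈ closure (U ×ˢ U) := by
      rw [closure_prod_eq]; exact ⟨hx, hy⟩
    exact h1.closure_subset_iff.mpr
      (fun p hp => (conv_pre h hU hN hp.1 hp.2 t ht).le) h2
  have hmain : ∀ q ∈ F ⁻¹' {0}, ∀ y ∈ closure U, q ≠ y → fderiv ℝ F q (y - q) < 0 := by
    intro q hq y hy hne
    apply conv_neg h hq (sub_ne_zero.mpr hne.symm)
    filter_upwards [Ioo_mem_nhdsGT (zero_lt_one' ℝ)] with t ht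
    exact hcl q (hS hq) y hy t ⟨ht.1.le, ht.2.le⟩
  have hne : ∀ q ∈ F ⁻¹' {0}, q ≠ o := by
    intro q hq he
    have hq0 : F q = 0 := hq
    rw [he] at hq0
    linarith
  refine ⟨o, fun q hq => ?_, fun q hq q' hq' hqq => hmain q hq q' (hS hq') hqq, fun d hd => ?_⟩
  · have h1 := hmain q hq o (subset_closure hoU) (hne q hq)
    rw [← neg_sub, map_neg] at h1
    linarith
  obtain ⟨R, hR, hsub⟩ := h.cpt.isBounded.subset_ball_lt 0 o
  have hsph : ∀ x ∈ sphere o R, F x ≠ 0 := by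
    intro x hx h0
    have h1 : dist x o < R := hsub (show x ∈ F ⁻¹' {0} from h0)
    have h2 : dist x o = R := hx
    linarith
  have hconn : IsPreconnected (sphere o R) := by
    apply (isConnected_sphere _ o hR.le).isPreconnected
    rw [← Module.finrank_eq_rank]
    simp
  have hmem : ∀ (u : E) (s : ℝ), u ≠ 0 → |s| = R / ‖u‖ → o + s • u ∈ sphere o R := by
    intro u s hu hs
    have h1 : 0 < ‖u‖ := norm_pos_iff.mpr hu
    rw [mem_sphere, dist_eq_norm, add_sub_cancel_left, norm_smul, Real.norm_eq_abs, hs]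
    field_simp
  have hdn : 0 < ‖d‖ := norm_pos_iff.mpr hd
  have hT : 0 < R / ‖d‖ := div_pos hR hdn
  have hpos : 0 < F (o + (R / ‖d‖) • d) := by
    have hm := hmem d (R / ‖d‖) hd (abs_of_pos hT)
    rcases lt_or_gt_of_ne (hsph _ hm) with hlt | hgt
    · exfalso
      have hall : ∀ x ∈ sphere o R, F x < 0 := by
        intro x hx
        by_contra hcon
        obtain ⟨y, hy, hy0⟩ := hconn.intermediate_value hm hx hc.continuousOn
          ⟨hlt.le, not_lt.mp hcon⟩
        exact hsph y hy hy0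
      obtain ⟨q, hq⟩ := h.conn.nonempty
      have hu : q - o ≠ 0 := sub_ne_zero.mpr (hne q hq)
      have hun : 0 < ‖q - o‖ := norm_pos_iff.mpr hu
      have hlt2 : ‖q - o‖ < R := by
        have h1 : dist q o < R := hsub hq
        rwa [dist_eq_norm] at h1
      set s := R / ‖q - o‖ with hsdef
      have hs1 : 1 < s := (one_lt_div hun).mpr hlt2
      have hs0 : 0 < s := by linarith
      have h1 := conv_pre h hconn hall (hmem (q - o) (-s) hu (by rw [abs_neg, abs_of_pos hs0]))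
        (hmem (q - o) s hu (abs_of_pos hs0)) ((s + 1) / (2 * s))
        ⟨by positivity, (div_le_one (by positivity)).mpr (by linarith)⟩
      have h2 : o + (-s) • (q - o) + ((s + 1) / (2 * s)) • (o + s • (q - o) - (o + (-s) • (q - o)))
          = q := by
        have h3 : o + s • (q - o) - (o + (-s) • (q - o)) = (2 * s) • (q - o) := by
          module
        rw [h3, smul_smul, div_mul_cancel₀ _ (by positivity)]
        module
      rw [h2] at h1
      have hq0 : F q = 0 := hq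
      linarith
    · exact hgt
  have hcg : ContinuousOn (fun s : ℝ => F (o + s • d)) (Icc 0 (R / ‖d‖)) := by fun_prop
  obtain ⟨t, ht, ht0⟩ := intermediate_value_Icc hT.le hcg
    (show (0 : ℝ) ∈ Icc _ _ from ⟨by simpa using ho.le, hpos.le⟩)
  refine ⟨t, ?_, ht0⟩
  rcases ht.1.lt_or_eq with h1 | h1
  · exact h1
  · exfalso
    rw [← h1] at ht0
    simp at ht0
    linarith

end Pool.Agent.Bor
end
end

-- part Pool.Agent.P.MP_26ecb7_gt.Radial
section

noncomputable section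
open Set Filter Topology MeasureTheory Metric
open scoped RealInnerProductSpace ContDiff ENNReal

namespace Pool.Agent.Bor

theorem radial_riesz : ∃ J : (E →L[ℝ] ℝ) →L[ℝ] E, ∀ L a, ⟪J L, a⟫ = L a := by
  refine ⟨∑ k : Fin 3, (ContinuousLinearMap.apply ℝ ℝ (ee k)).smulRight (ee k), fun L a => ?_⟩
  have ha : a = ∑ k : Fin 3, a k • ee k := by
    ext k; fin_cases k <;> simp [ee, Fin.sum_univ_three]
  have hL : L a = ∑ k : Fin 3, a k * L (ee k) := by
    conv_lhs => rw [ha]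
    simp [map_sum]
  rw [hL]
  simp only [sum_apply, ContinuousLinearMap.smulRight_apply,
    ContinuousLinearMap.apply_apply, sum_inner, real_inner_smul_left]
  refine Finset.sum_congr rfl fun k _ => ?_
  rw [mul_comm]
  congr 1
  simp [ee, EuclideanSpace.inner_single_left]

theorem radial_uniq {F : E → ℝ} {o : E}
    (h1 : ∀ q ∈ F ⁻¹' {0}, 0 < fderiv ℝ F q (q - o))
    (h2 : ∀ q ∈ F ⁻¹' {0}, ∀ q' ∈ F ⁻¹' {0}, q ≠ q' → fderiv ℝ F q (q' - q) < 0)
    {d : E} (hd : d ≠ 0) {s t : ℝ} (hs : 0 < s) (ht : 0 < t)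
    (es : F (o + s • d) = 0) (et : F (o + t • d) = 0) : s = t := by
  have key : ∀ s t : ℝ, 0 < s → F (o + s • d) = 0 → F (o + t • d) = 0 → s ≠ t → t < s := by
    intro s t hs es et hne
    have a1 := h1 (o + s • d) es
    have a2 := h2 (o + s • d) es (o + t • d) et (by
      intro e
      have : (s - t) • d = 0 := by
        rw [sub_smul, sub_eq_zero]; exact add_left_cancel e
      rcases smul_eq_zero.1 this with h | h
      · exact hne (sub_eq_zero.1 h)
      · exact hd h)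
    have e1 : o + s • d - o = s • d := by abel
    have e2 : o + t • d - (o + s • d) = (t - s) • d := by rw [sub_smul]; abel
    rw [e1, map_smul, smul_eq_mul] at a1
    rw [e2, map_smul, smul_eq_mul] at a2
    have b1 : 0 < fderiv ℝ F (o + s • d) d := (mul_pos_iff_of_pos_left hs).1 a1
    by_contra hc
    have : 0 ≤ (t - s) * fderiv ℝ F (o + s • d) d := mul_nonneg (by linarith [not_lt.1 hc]) b1.le
    linarith
  by_contra hne
  have := key s t hs es et hne
  have := key t s ht et es (Ne.symm hne)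
  linarith

theorem radial_smooth {F : E → ℝ} {o : E} (hF : ContDiff ℝ ∞ F)
    (h1 : ∀ q ∈ F ⁻¹' {0}, 0 < fderiv ℝ F q (q - o))
    (h2 : ∀ q ∈ F ⁻¹' {0}, ∀ q' ∈ F ⁻¹' {0}, q ≠ q' → fderiv ℝ F q (q' - q) < 0)
    {t : E → ℝ} (ht : ∀ d : E, d ≠ 0 → 0 < t d ∧ F (o + t d • d) = 0)
    {d : E} (hd : d ≠ 0) : ContDiffAt ℝ ∞ t d := by
  let f : E × ℝ → ℝ := fun p => F (o + p.2 • p.1)
  have hg : ContDiff ℝ ∞ (fun p : E × ℝ => o + p.2 • p.1) :=
    contDiff_const.add (contDiff_snd.smul contDiff_fst)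
  have hf : ContDiff ℝ ∞ f := hF.comp hg
  have cdf : ContDiffAt ℝ ∞ f (d, t d) := hf.contDiffAt
  obtain ⟨tp, tz⟩ := ht d hd
  have a1 := h1 (o + t d • d) tz
  have e1 : o + t d • d - o = t d • d := by abel
  rw [e1, map_smul, smul_eq_mul] at a1
  have b1 : 0 < fderiv ℝ F (o + t d • d) d := (mul_pos_iff_of_pos_left tp).1 a1
  set c := fderiv ℝ F (o + t d • d) d with hc
  have hder : HasDerivAt (fun s : ℝ => f (d, s)) c (t d) := by
    have i1 : HasDerivAt (fun s : ℝ => o + s • d) d (t d) := by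
      simpa using ((hasDerivAt_id (t d)).smul_const d).const_add o
    exact ((hF.differentiable (by simp)) (o + t d • d)).hasFDerivAt.comp_hasDerivAt (t d) i1
  have hder2 : HasFDerivAt (fun s : ℝ => f (d, s))
      (fderiv ℝ f (d, t d) ∘L ContinuousLinearMap.inr ℝ E ℝ) (t d) :=
    ((hf.differentiable (by simp)) (d, t d)).hasFDerivAt.comp (t d) (hasFDerivAt_prodMk_right d (t d))
  have heq := hder2.unique hder.hasFDerivAt
  have if2 : (fderiv ℝ f (d, t d) ∘L ContinuousLinearMap.inr ℝ E ℝ).IsInvertible := by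
    rw [heq]
    refine ⟨ContinuousLinearEquiv.unitsEquivAut ℝ (Units.mk0 c b1.ne'), ?_⟩
    ext
    simp
  have pn : (∞ : WithTop ℕ∞) ≠ 0 := by simp
  have s1 := cdf.contDiffAt_implicitFunction pn if2
  have s2 := cdf.eventually_apply_implicitFunction pn if2
  have s3 := cdf.implicitFunction_apply_self pn if2
  set ψ := cdf.implicitFunction pn if2
  simp only at s1 s2 s3
  refine s1.congr_of_eventuallyEq ?_
  have s4 : ∀ᶠ x in 𝓝 d, 0 < ψ x := s1.continuousAt.eventually (lt_mem_nhds (by rw [s3]; exact tp))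
  have s5 : ∀ᶠ x in 𝓝 d, x ≠ 0 := eventually_ne_nhds hd
  filter_upwards [s2, s4, s5] with x x2 x4 x5
  exact radial_uniq h1 h2 x5 (ht x x5).1 x4 (ht x x5).2 (x2.trans tz)

theorem Lev.exists_surf {F : E → ℝ} (h : Lev F) : ∃ X : Surf, X.S = F ⁻¹' {0} ∧
    ∀ q ∈ X.S, ∀ a, ⟪X.nu q, a⟫ = 0 ↔ fderiv ℝ F q a = 0 := by
  obtain ⟨o, h1, h2, h3⟩ := h.convex
  obtain ⟨J, hJ⟩ := radial_riesz
  choose! t ht using h3
  have hF := h.smooth
  have hD : ContDiff ℝ ∞ (fderiv ℝ F) := hF.fderiv_right (by simp)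
  let G : E → E := fun x => J (fderiv ℝ F x)
  have hG : ContDiff ℝ ∞ G := J.contDiff.comp hD
  have G0 : ∀ q ∈ F ⁻¹' {0}, G q ≠ 0 := by
    intro q hq e
    apply h.reg q hq
    ext a
    rw [← hJ]
    change ⟪G q, a⟫ = _
    rw [e]; simp
  have Gp : ∀ q ∈ F ⁻¹' {0}, 0 < ‖G q‖⁻¹ := fun q hq => inv_pos.2 (norm_pos_iff.2 (G0 q hq))
  have nuin : ∀ q a, ⟪nrm (G q), a⟫ = ‖G q‖⁻¹ * fderiv ℝ F q a := by
    intro q a
    rw [nrm, real_inner_smul_left, hJ]
  have hn : ∀ q ∈ F ⁻¹' {0}, ContDiffAt ℝ ∞ (fun x => ‖G x‖⁻¹) q := fun q hq =>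
    (hG.contDiffAt.norm ℝ (G0 q hq)).inv (norm_ne_zero_iff.2 (G0 q hq))
  have onot : o ∉ F ⁻¹' {0} := by
    intro ho
    have := h1 o ho
    simp at this
  have prs : ∀ z, z ≠ o → ContDiffAt ℝ ∞ (fun z => o + t (z - o) • (z - o)) z := by
    intro z hz
    have i1 : ContDiffAt ℝ ∞ (fun z : E => z - o) z := contDiffAt_id.sub contDiffAt_const
    have i2 : ContDiffAt ℝ ∞ (fun z : E => t (z - o)) z :=
      (radial_smooth hF h1 h2 ht (sub_ne_zero.2 hz)).comp z i1
    exact contDiffAt_const.add (i2.smul i1)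
  have iff0 : ∀ q ∈ F ⁻¹' {0}, ∀ a, ⟪nrm (G q), a⟫ = 0 ↔ fderiv ℝ F q a = 0 := by
    intro q hq a
    rw [nuin, mul_eq_zero]
    exact ⟨fun e => e.resolve_left (Gp q hq).ne', Or.inr⟩
  refine ⟨⟨F ⁻¹' {0}, o, fun x => nrm (G x), fun z => o + t (z - o) • (z - o), h.cpt, h.conn, onot,
    ?_, ?_, prs, ?_, ?_, ?_, ?_, ?_, ?_, ?_, ?_⟩, rfl, iff0⟩
  · intro q hq
    exact (hn q hq).smul hG.contDiffAt
  · intro q hq
    rw [nrm, norm_smul, norm_inv, norm_norm]
    exact inv_mul_cancel₀ (norm_ne_zero_iff.2 (G0 q hq))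
  · intro z hz
    exact (ht _ (sub_ne_zero.2 hz)).2
  · intro z hz
    exact ⟨t (z - o), (ht _ (sub_ne_zero.2 hz)).1, rfl⟩
  · intro q hq s hs
    have hd : q - o ≠ 0 := sub_ne_zero.2 fun e => onot (e ▸ hq)
    have e1 : o + s • (q - o) - o = s • (q - o) := by abel
    have hd' : s • (q - o) ≠ 0 := smul_ne_zero hs.ne' hd
    obtain ⟨tp, tz⟩ := ht _ hd'
    rw [smul_smul] at tz
    have := radial_uniq h1 h2 hd (mul_pos tp hs) one_pos tz (by simpa using hq)
    show o + t (o + s • (q - o) - o) • (o + s • (q - o) - o) = q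
    rw [e1, smul_smul, this]
    simp
  · intro z hz a
    have hq : o + t (z - o) • (z - o) ∈ F ⁻¹' {0} := (ht _ (sub_ne_zero.2 hz)).2
    refine (iff0 _ hq _).2 ?_
    have d1 := ((prs z hz).differentiableAt (by simp)).hasFDerivAt
    have d2 := ((hF.differentiable (by simp)) (o + t (z - o) • (z - o))).hasFDerivAt.comp z d1
    have d3 : HasFDerivAt (F ∘ fun z => o + t (z - o) • (z - o)) (0 : E →L[ℝ] ℝ) z := by
      refine (hasFDerivAt_const (0 : ℝ) z).congr_of_eventuallyEq ?_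
      filter_upwards [eventually_ne_nhds hz] with x hx
      exact (ht _ (sub_ne_zero.2 hx)).2
    have := congrArg (fun L => L a) (d2.unique d3)
    simpa using this
  · intro q hq
    show 0 < ⟪nrm (G q), q - o⟫
    rw [nuin]
    exact mul_pos (Gp q hq) (h1 q hq)
  · intro q hq a ha a0
    have ha' := (iff0 q hq a).1 ha
    have d1 := ((hn q hq).differentiableAt (by simp)).hasFDerivAt
    have d0 := ((hD.differentiable (by simp)) q).hasFDerivAt
    have d2 : HasFDerivAt G (J ∘L fderiv ℝ (fderiv ℝ F) q) q := J.hasFDerivAt.comp q d0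
    have d3 : HasFDerivAt (fun x => nrm (G x)) _ q := d1.smul d2
    rw [d3.fderiv]
    simp only [add_apply, smul_apply,
      ContinuousLinearMap.smulRight_apply, ContinuousLinearMap.comp_apply, inner_add_left,
      real_inner_smul_left]
    have e : ⟪G q, a⟫ = 0 := (hJ _ _).trans ha'
    rw [e, hJ, mul_zero, add_zero]
    exact mul_pos (Gp q hq) (h.curv q hq a ha' a0)
  · intro q hq q' hq' e
    by_contra hne
    have a1 := mul_neg_of_pos_of_neg (Gp q hq) (h2 q hq q' hq' hne)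
    have a2 := mul_neg_of_pos_of_neg (Gp q' hq') (h2 q' hq' q hq (Ne.symm hne))
    rw [← nuin] at a1 a2
    have e' : nrm (G q) = nrm (G q') := e
    rw [← e', ← neg_sub q' q, inner_neg_right] at a2
    linarith
  · intro y hy
    have y1 : ‖y‖ = 1 := by simpa using hy
    have y0 : y ≠ 0 := by
      intro e; rw [e] at y1; simp at y1
    obtain ⟨q, hq, hmax⟩ := h.cpt.exists_isMaxOn h.conn.nonempty
      (innerSL ℝ y).continuous.continuousOn
    have hq0 : F q = 0 := hq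
    have ext : IsLocalExtrOn (innerSL ℝ y) {x | F x = F q} q := by
      rw [hq0]
      exact (hmax.localize).isExtr
    obtain ⟨α, β, hab, hz⟩ := ext.exists_multipliers_of_hasStrictFDerivAt_1d
      (hF.contDiffAt.hasStrictFDerivAt (by simp)) (innerSL ℝ y).hasStrictFDerivAt
    have hz' : ∀ a, α * fderiv ℝ F q a + β * ⟪y, a⟫ = 0 := by
      intro a
      have := congrArg (fun L => L a) hz
      simpa using this
    have b0 : β ≠ 0 := by
      intro e
      have a0 : α ≠ 0 := fun e' => hab (by rw [e, e']; rfl)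
      apply h.reg q hq
      ext a
      have := hz' a
      rw [e, zero_mul, add_zero] at this
      simpa using (mul_eq_zero.1 this).resolve_left a0
    set c := -α / β with hc
    have hy' : ∀ a, ⟪y, a⟫ = c * fderiv ℝ F q a := by
      intro a
      have := hz' a
      rw [hc]
      field_simp
      linarith
    have ey : y = c • G q := by
      refine ext_inner_right ℝ fun a => ?_
      rw [hy', real_inner_smul_left, hJ]
    have cp : 0 < c := by
      obtain ⟨tp, tz⟩ := ht y y0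
      have m : ⟪y, o + t y • y⟫ ≤ ⟪y, q⟫ := hmax tz
      rw [inner_add_right, real_inner_smul_right, real_inner_self_eq_norm_sq, y1] at m
      have m2 : 0 < ⟪y, q - o⟫ := by
        rw [inner_sub_right]; nlinarith
      rw [hy'] at m2
      exact (mul_pos_iff_of_pos_right (h1 q hq)).1 m2
    refine ⟨q, hq, ?_⟩
    have e2 : c * ‖G q‖ = 1 := by
      rw [← y1, ey, norm_smul, Real.norm_of_nonneg cp.le]
    show nrm (G q) = y
    rw [nrm, ey, eq_inv_of_mul_eq_one_left e2]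

end Pool.Agent.Bor
end
end

-- part Pool.Agent.P.MP_26ecb7_gt.Main
section

noncomputable section
open Set Filter Topology MeasureTheory Metric
open scoped RealInnerProductSpace ContDiff ENNReal

namespace Pool.Agent.Bor

theorem Iso.rigid {X : Surf} (I : Iso X) {B : Set E} (hB : μH[3 * I.al] B = 0)
    (hg : ∀ q ∈ X.S, q ∉ B →
      GoodS (fun _ => fderiv ℝ I.v) X.S q ∨ BesS (fderiv ℝ I.v) X.S q) :
    ∃ A : E ≃ᵢ E, ∀ q ∈ X.S, I.v q = A q := by
  obtain ⟨J, s, c, hs, hJ, hc⟩ := (I.lp hB hg).cvx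
  obtain ⟨A, hA⟩ := J.rigid_of_frame (fun y => hc.frame y)
  rcases hs with rfl | rfl
  · refine ⟨A.trans (IsometryEquiv.addRight c), fun q hq => ?_⟩
    have h1 := hA q hq
    rw [hJ, one_smul] at h1
    simp [← h1]
  · refine ⟨A.trans ((LinearIsometryEquiv.neg ℝ (E := E)).toIsometryEquiv.trans
      (IsometryEquiv.addRight c)), fun q hq => ?_⟩
    have h1 := hA q hq
    rw [hJ, neg_one_smul] at h1
    simp [← h1]

end Pool.Agent.Bor
end
end
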