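import Pool.Agent.K.MP_26ecb7_gt.C0
import Pool.Agent.K.MP_26ecb7_gt.C1

-- part Pool.Agent.P.MP_26ecb7_gt.End0
section

noncomputable section
open Set Filter Topology MeasureTheory Metric
open scoped RealInnerProductSpace ContDiff ENNReal

namespace Pool.Agent.Bor

/-- the power two thirds -/
def tw (r : ℝ) : ℝ := r ^ (2 / 3 : ℝ)

/-- Hoelder bound with exponent two thirds on a set -/
def Ho {X : Type} [PseudoMetricSpace X] (u : X → ℝ) (S : Set X) (M : ℝ) : Prop :=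
  ∀ x ∈ S, ∀ y ∈ S, |u x - u y| ≤ M * tw (dist x y)

/-- bounded and Hoelder -/
def Hb {X : Type} [PseudoMetricSpace X] (u : X → ℝ) : Prop :=
  ∃ M, 0 ≤ M ∧ (∀ x, |u x| ≤ M) ∧ Ho u univ M

/-- `I` is a primitive of `f dg` on the interval from `a` to `b` -/
def Prim (f g I : ℝ → ℝ) (a b : ℝ) : Prop :=
  ∃ K, ∀ s t, a ≤ s → s ≤ t → t ≤ b → |I t - I s - f s * (g t - g s)| ≤ K * tw (t - s) ^ 2

def prim (f g : ℝ → ℝ) : ℝ → ℝ := Classical.epsilon fun I => ∀ a b, Prim f g I a b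

/-- Young integral of `f dg` -/
def yi (f g : ℝ → ℝ) (a b : ℝ) : ℝ := prim f g b - prim f g a

/-- Young integral of `f dg` around a square -/
def yl (c : P) (r : ℝ) (f g : P → ℝ) : ℝ :=
  yi (fun s => f (s, c.2)) (fun s => g (s, c.2)) c.1 (c.1 + r)
    + yi (fun t => f (c.1 + r, t)) (fun t => g (c.1 + r, t)) c.2 (c.2 + r)
    - yi (fun s => f (s, c.2 + r)) (fun s => g (s, c.2 + r)) c.1 (c.1 + r)
    - yi (fun t => f (c.1, t)) (fun t => g (c.1, t)) c.2 (c.2 + r)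

/-- an edge of a square -/
def Edge (c : P) (r : ℝ) (γ : ℝ → P) (a : ℝ) : Prop :=
  Isometry γ ∧ ∀ s ∈ Icc a (a + r), γ s ∈ frontier (sqr c r) ∧ γ s ∈ sqr c r

/-- dyadic subsquares of the unit square -/
inductive Dy : P → ℝ → Prop
  | base : Dy 0 1
  | c00 {c r} : Dy c r → Dy c (r / 2)
  | c10 {c r} : Dy c r → Dy (c.1 + r / 2, c.2) (r / 2)
  | c01 {c r} : Dy c r → Dy (c.1, c.2 + r / 2) (r / 2)
  | c11 {c r} : Dy c r → Dy (c.1 + r / 2, c.2 + r / 2) (r / 2)

/-- additivity over the four children -/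
def Add4 (R : P → ℝ → ℝ) (c : P) (r : ℝ) : Prop :=
  R c r = R c (r / 2) + R (c.1 + r / 2, c.2) (r / 2) + R (c.1, c.2 + r / 2) (r / 2)
    + R (c.1 + r / 2, c.2 + r / 2) (r / 2)

/-- a map with zero area and constant anomaly -/
structure Nd (q1 q2 : P → ℝ) (A : ℝ) : Prop where
  h1 : Hb q1
  h2 : Hb q2
  pos : 0 < A
  z0 : ∀ c r, 0 < r → sqr c r ⊆ sqr 0 1 → yl c r q2 q1 = 0
  z1 : ∀ c r, Dy c r → yl c r (fun x => q1 x * q2 x) q1 = -A * r ^ 2
  z2 : ∀ c r, Dy c r → yl c r (fun x => q2 x * q2 x) q1 = 0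

/-- the same with its lift to the Heisenberg group -/
structure Ld (q1 q2 w : P → ℝ) (A C : ℝ) : Prop extends Nd q1 q2 A where
  hw : Hb w
  C_nonneg : 0 ≤ C
  lift : ∀ x ∈ sqr 0 1, ∀ y ∈ sqr 0 1,
    |w y - w x + q2 x * (q1 y - q1 x)| ≤ C * tw (dist x y) ^ 2

/-- a map with constant positive Jacobian and no anomaly -/
structure Jd (a b : P → ℝ) (A : ℝ) : Prop where
  ha : Hb a
  hb : Hb b
  pos : 0 < A
  j0 : ∀ T : P → ℝ, ContDiff ℝ ∞ T → ∀ c r, Dy c r →
    yl c r (fun x => T (a x, b x)) b = A * ∫ x in sqr c r, pd 0 T (a x, b x)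
  j1 : ∀ T : P → ℝ, ContDiff ℝ ∞ T → ∀ c r, Dy c r →
    yl c r (fun x => T (a x, b x)) a = -A * ∫ x in sqr c r, pd 1 T (a x, b x)

end Pool.Agent.Bor
end
end

-- part Pool.Agent.P.MP_26ecb7_gt.EndTw
section

noncomputable section
open Set Filter Topology MeasureTheory Metric
open scoped RealInnerProductSpace ContDiff ENNReal

namespace Pool.Agent.Bor

theorem tw_nonneg {r : ℝ} (hr : 0 ≤ r) : 0 ≤ tw r := Real.rpow_nonneg hr _
theorem tw_pos {r : ℝ} (hr : 0 < r) : 0 < tw r := Real.rpow_pos_of_pos hr _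
theorem tw_zero : tw 0 = 0 := Real.zero_rpow (by norm_num)
theorem tw_one : tw 1 = 1 := Real.one_rpow _
theorem tw_mono {r s : ℝ} (hr : 0 ≤ r) (h : r ≤ s) : tw r ≤ tw s :=
  Real.rpow_le_rpow hr h (by norm_num)
theorem tw_mul {r s : ℝ} (hr : 0 ≤ r) (hs : 0 ≤ s) : tw (r * s) = tw r * tw s :=
  Real.mul_rpow hr hs
theorem tw_cube {r : ℝ} (hr : 0 ≤ r) : tw r ^ 3 = r ^ 2 := by
  unfold tw
  rw [← Real.rpow_natCast, ← Real.rpow_mul hr, ← Real.rpow_natCast]
  norm_num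
theorem tw_le_one {r : ℝ} (hr : 0 ≤ r) (h : r ≤ 1) : tw r ≤ 1 :=
  (tw_mono hr h).trans_eq tw_one
theorem le_tw {r : ℝ} (hr : 0 ≤ r) (h : r ≤ 1) : r ≤ tw r := by
  have h1 := Real.rpow_le_rpow_of_exponent_ge' hr h (by norm_num : (0 : ℝ) ≤ 2 / 3)
    (by norm_num : (2 / 3 : ℝ) ≤ 1)
  rwa [Real.rpow_one] at h1
theorem endtw_half : tw (1 / 2) ≤ 63 / 100 := by
  by_contra h
  have h1 := pow_le_pow_left₀ (by norm_num) (not_le.1 h).le 3
  rw [tw_cube (by norm_num)] at h1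
  norm_num at h1
theorem endtw_half' {r : ℝ} (hr : 0 ≤ r) : tw (r / 2) ≤ 63 / 100 * tw r := by
  rw [show r / 2 = 1 / 2 * r by ring, tw_mul (by norm_num) hr]
  exact mul_le_mul_of_nonneg_right endtw_half (tw_nonneg hr)
theorem tw_half {r : ℝ} (hr : 0 ≤ r) : 2 * tw (r / 2) ^ 2 ≤ 4 / 5 * tw r ^ 2 := by
  have h1 := pow_le_pow_left₀ (tw_nonneg (by linarith)) (endtw_half' hr) 2
  nlinarith [sq_nonneg (tw r)]
theorem tw_half_le {r : ℝ} (hr : 0 ≤ r) : tw (r / 2) ≤ 2 / 3 * tw r := by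
  have h1 := endtw_half' hr
  have h2 := tw_nonneg hr
  linarith
theorem tw_sq {r : ℝ} (hr : 0 ≤ r) : tw r ^ 2 = r ^ (2 * (2 / 3) : ℝ) := by
  unfold tw
  rw [← Real.rpow_natCast, ← Real.rpow_mul hr]
  norm_num
theorem continuous_tw : Continuous tw := Real.continuous_rpow_const (by norm_num)
theorem tw_small {ε : ℝ} (hε : 0 < ε) : ∃ ρ > 0, ∀ r, 0 ≤ r → r < ρ → tw r < ε := by
  obtain ⟨ρ, hρ, h⟩ := Metric.continuous_iff.1 continuous_tw 0 ε hε
  refine ⟨ρ, hρ, fun r hr h1 => ?_⟩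
  have h2 := h r (by rwa [Real.dist_eq, sub_zero, abs_of_nonneg hr])
  rw [tw_zero, Real.dist_eq, sub_zero] at h2
  exact (le_abs_self _).trans_lt h2

section
variable {X : Type} [PseudoMetricSpace X] {u v : X → ℝ} {S : Set X} {M N : ℝ}

theorem Ho.mono {T : Set X} (h : Ho u S M) (hT : T ⊆ S) (hN : M ≤ N) : Ho u T N :=
  fun x hx y hy => (h x (hT hx) y (hT hy)).trans
    (mul_le_mul_of_nonneg_right hN (tw_nonneg dist_nonneg))
theorem Ho.continuousOn (h : Ho u S M) : ContinuousOn u S := by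
  intro x hx
  have h1 : Tendsto (fun y => M * tw (dist y x)) (𝓝[S] x) (𝓝 0) := by
    have h2 : Continuous fun y => M * tw (dist y x) :=
      continuous_const.mul (continuous_tw.comp (continuous_id.dist continuous_const))
    have h3 := (h2.tendsto x).mono_left (nhdsWithin_le_nhds (s := S))
    rwa [dist_self, tw_zero, mul_zero] at h3
  refine tendsto_iff_dist_tendsto_zero.2 (squeeze_zero' (Eventually.of_forall fun _ => dist_nonneg)
    ?_ h1)
  filter_upwards [self_mem_nhdsWithin] with y hy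
  exact h y hy x hx
theorem Ho.add (hu : Ho u S M) (hv : Ho v S N) : Ho (fun x => u x + v x) S (M + N) := by
  intro x hx y hy
  have h1 := hu x hx y hy
  have h2 := hv x hx y hy
  have h3 := abs_add_le (u x - u y) (v x - v y)
  rw [show u x + v x - (u y + v y) = u x - u y + (v x - v y) by ring]
  linarith
theorem Ho.sub (hu : Ho u S M) (hv : Ho v S N) : Ho (fun x => u x - v x) S (M + N) := by
  intro x hx y hy
  have h1 := hu x hx y hy
  have h2 := hv x hx y hy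
  have h3 := abs_sub (u x - u y) (v x - v y)
  rw [show u x - v x - (u y - v y) = u x - u y - (v x - v y) by ring]
  linarith
theorem Ho.sub_const (hu : Ho u S M) (k : ℝ) : Ho (fun x => u x - k) S M := by
  intro x hx y hy
  rw [show u x - k - (u y - k) = u x - u y by ring]
  exact hu x hx y hy
theorem Ho.const_mul (hu : Ho u S M) (k : ℝ) : Ho (fun x => k * u x) S (|k| * M) := by
  intro x hx y hy
  rw [← mul_sub, abs_mul, mul_assoc]
  exact mul_le_mul_of_nonneg_left (hu x hx y hy) (abs_nonneg k)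
theorem Ho.mul {A B : ℝ} (hu : Ho u S M) (hv : Ho v S N) (hA : ∀ x ∈ S, |u x| ≤ A)
    (hB : ∀ x ∈ S, |v x| ≤ B) : Ho (fun x => u x * v x) S (A * N + B * M) := by
  intro x hx y hy
  have h1 : |u x * (v x - v y)| ≤ A * (N * tw (dist x y)) := by
    rw [abs_mul]
    exact mul_le_mul (hA x hx) (hv x hx y hy) (abs_nonneg _) ((abs_nonneg _).trans (hA x hx))
  have h2 : |v y * (u x - u y)| ≤ B * (M * tw (dist x y)) := by
    rw [abs_mul]
    exact mul_le_mul (hB y hy) (hu x hx y hy) (abs_nonneg _) ((abs_nonneg _).trans (hB y hy))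
  have h3 := abs_add_le (u x * (v x - v y)) (v y * (u x - u y))
  rw [show u x * v x - u y * v y = u x * (v x - v y) + v y * (u x - u y) by ring]
  linarith
theorem Ho.of_tendsto {U : ℕ → X → ℝ} (h : ∀ᶠ n in atTop, Ho (U n) S M)
    (hl : ∀ x ∈ S, Tendsto (fun n => U n x) atTop (𝓝 (u x))) : Ho u S M :=
  fun x hx y hy => le_of_tendsto ((hl x hx).sub (hl y hy)).abs (h.mono fun _ hn => hn x hx y hy)
theorem Hb.continuous (h : Hb u) : Continuous u := by
  obtain ⟨M, -, -, h⟩ := h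
  exact continuousOn_univ.1 h.continuousOn
theorem Hb.const (k : ℝ) : Hb fun _ : X => k :=
  ⟨|k|, abs_nonneg k, fun _ => le_rfl, fun x _ y _ => by
    rw [sub_self, abs_zero]
    exact mul_nonneg (abs_nonneg k) (tw_nonneg dist_nonneg)⟩
theorem Hb.add (hu : Hb u) (hv : Hb v) : Hb fun x => u x + v x := by
  obtain ⟨M, h0, h1, h2⟩ := hu
  obtain ⟨N, k0, k1, k2⟩ := hv
  exact ⟨M + N, add_nonneg h0 k0, fun x => (abs_add_le _ _).trans (add_le_add (h1 x) (k1 x)),
    h2.add k2⟩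
theorem Hb.sub (hu : Hb u) (hv : Hb v) : Hb fun x => u x - v x := by
  obtain ⟨M, h0, h1, h2⟩ := hu
  obtain ⟨N, k0, k1, k2⟩ := hv
  exact ⟨M + N, add_nonneg h0 k0, fun x => (abs_sub _ _).trans (add_le_add (h1 x) (k1 x)),
    h2.sub k2⟩
theorem Hb.neg (hu : Hb u) : Hb fun x => - u x := by
  simpa using (Hb.const (X := X) 0).sub hu
theorem Hb.mul (hu : Hb u) (hv : Hb v) : Hb fun x => u x * v x := by
  obtain ⟨M, h0, h1, h2⟩ := hu
  obtain ⟨N, k0, k1, k2⟩ := hv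
  have h3 := mul_nonneg h0 k0
  refine ⟨M * N + N * M, by linarith, fun x => ?_, h2.mul k2 (fun x _ => h1 x) fun x _ => k1 x⟩
  have h4 : |u x * v x| ≤ M * N := by
    rw [abs_mul]
    exact mul_le_mul (h1 x) (k1 x) (abs_nonneg _) h0
  linarith
theorem Hb.const_mul (hu : Hb u) (k : ℝ) : Hb fun x => k * u x := (Hb.const k).mul hu
theorem Hb.iso {Y : Type} [PseudoMetricSpace Y] (hu : Hb u) {γ : Y → X} (hγ : Isometry γ) :
    Hb fun s => u (γ s) := by
  obtain ⟨M, h0, h1, h2⟩ := hu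
  refine ⟨M, h0, fun s => h1 _, fun s _ t _ => ?_⟩
  rw [← hγ.dist_eq]
  exact h2 _ trivial _ trivial
/-- two functions with one constant -/
theorem Hb.two (hu : Hb u) (hv : Hb v) : ∃ M, 0 ≤ M ∧ (∀ x, |u x| ≤ M) ∧ (∀ x, |v x| ≤ M) ∧
    Ho u univ M ∧ Ho v univ M := by
  obtain ⟨M, h0, h1, h2⟩ := hu
  obtain ⟨N, k0, k1, k2⟩ := hv
  exact ⟨max M N, h0.trans (le_max_left _ _), fun x => (h1 x).trans (le_max_left _ _),
    fun x => (k1 x).trans (le_max_right _ _), h2.mono subset_rfl (le_max_left _ _),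
    k2.mono subset_rfl (le_max_right _ _)⟩
theorem endtw_lip {Y : Type} [NormedAddCommGroup Y] [NormedSpace ℝ Y] [FiniteDimensional ℝ Y]
    {G : Y → ℝ} (hG : ContDiff ℝ 1 G) (M : ℝ) : ∃ L, 0 ≤ L ∧ ∀ a b, ‖a‖ ≤ M → ‖b‖ ≤ M →
      |G a - G b| ≤ L * ‖a - b‖ := by
  have := FiniteDimensional.proper_real Y
  obtain ⟨K, hK⟩ := (hG.contDiffOn (s := closedBall 0 M)).exists_lipschitzOnWith one_ne_zero
    (convex_closedBall 0 M) (isCompact_closedBall 0 M)
  refine ⟨K, K.coe_nonneg, fun a b ha hb => ?_⟩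
  have h := hK.dist_le_mul a (mem_closedBall_zero_iff.2 ha) b (mem_closedBall_zero_iff.2 hb)
  rwa [Real.dist_eq, dist_eq_norm] at h
/-- composition with a smooth function of a bounded Hoelder map -/
theorem Hb.compv {Y : Type} [NormedAddCommGroup Y] [NormedSpace ℝ Y] [FiniteDimensional ℝ Y]
    {G : Y → ℝ} (hG : ContDiff ℝ 1 G) {f : X → Y} {M : ℝ} (hM : 0 ≤ M) (h0 : ∀ x, ‖f x‖ ≤ M)
    (h1 : ∀ x y, ‖f x - f y‖ ≤ M * tw (dist x y)) : Hb fun x => G (f x) := by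
  obtain ⟨L, hL, h⟩ := endtw_lip hG M
  have h2 := mul_nonneg hL hM
  refine ⟨|G 0| + L * M, add_nonneg (abs_nonneg _) h2, fun x => ?_, fun x _ y _ => ?_⟩
  · have h3 := h (f x) 0 (h0 x) (by rwa [norm_zero])
    rw [sub_zero] at h3
    have h4 := mul_le_mul_of_nonneg_left (h0 x) hL
    have h5 := abs_add_le (G (f x) - G 0) (G 0)
    rw [sub_add_cancel] at h5
    linarith
  · have h3 := h (f x) (f y) (h0 x) (h0 y)
    have h4 := mul_le_mul_of_nonneg_left (h1 x y) hL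
    have h5 := mul_nonneg (abs_nonneg (G 0)) (tw_nonneg (dist_nonneg (x := x) (y := y)))
    change |G (f x) - G (f y)| ≤ _
    nlinarith
theorem Hb.comp1 {F : ℝ → ℝ} (hF : ContDiff ℝ ∞ F) (hu : Hb u) : Hb fun x => F (u x) := by
  obtain ⟨M, h0, h1, h2⟩ := hu
  exact Hb.compv (hF.of_le (by exact_mod_cast le_top)) h0 h1 fun x y => h2 x trivial y trivial
theorem endtw_pair (hu : Hb u) (hv : Hb v) : ∃ M, 0 ≤ M ∧ (∀ x, ‖((u x, v x) : P)‖ ≤ M) ∧
    ∀ x y, ‖((u x, v x) : P) - (u y, v y)‖ ≤ M * tw (dist x y) := by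
  obtain ⟨M, h0, h1, h2, h3, h4⟩ := hu.two hv
  exact ⟨M, h0, fun x => norm_prod_le_iff.2 ⟨h1 x, h2 x⟩, fun x y =>
    norm_prod_le_iff.2 ⟨h3 x trivial y trivial, h4 x trivial y trivial⟩⟩
theorem Hb.comp2 {T : P → ℝ} (hT : ContDiff ℝ ∞ T) (hu : Hb u) (hv : Hb v) :
    Hb fun x => T (u x, v x) := by
  obtain ⟨M, h0, h1, h2⟩ := endtw_pair hu hv
  exact Hb.compv (f := fun x => ((u x, v x) : P)) (hT.of_le (by exact_mod_cast le_top)) h0 h1 h2
theorem Hb.pair (hu : Hb u) (hv : Hb v) : ∃ M, 0 ≤ M ∧ (∀ x, ‖((u x, v x) : P)‖ ≤ M) ∧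
    ∀ x y, ‖((u x, v x) : P) - (u y, v y)‖ ≤ M * tw (dist x y) := endtw_pair hu hv
theorem Hb.triple {w : X → ℝ} (hu : Hb u) (hv : Hb v) (hw : Hb w) :
    ∃ M, 0 ≤ M ∧ (∀ x, ‖((u x, v x, w x) : ℝ × ℝ × ℝ)‖ ≤ M) ∧
    ∀ x y, ‖((u x, v x, w x) : ℝ × ℝ × ℝ) - (u y, v y, w y)‖ ≤ M * tw (dist x y) := by
  obtain ⟨M, h0, h1, h2⟩ := hu
  obtain ⟨N, k0, k1, k2⟩ := endtw_pair hv hw
  refine ⟨max M N, h0.trans (le_max_left _ _), fun x => norm_prod_le_iff.2
    ⟨(h1 x).trans (le_max_left _ _), (k1 x).trans (le_max_right _ _)⟩, fun x y =>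
    norm_prod_le_iff.2 ⟨(h2 x trivial y trivial).trans ?_, (k2 x y).trans ?_⟩⟩
  · exact mul_le_mul_of_nonneg_right (le_max_left _ _) (tw_nonneg dist_nonneg)
  · exact mul_le_mul_of_nonneg_right (le_max_right _ _) (tw_nonneg dist_nonneg)
/-- uniform version for maps with a common bound -/
theorem ho_comp2 {T : P → ℝ} (hT : ContDiff ℝ ∞ T) (M : ℝ) : ∃ N, 0 ≤ N ∧
    ∀ (u v : X → ℝ) (S : Set X), (∀ x ∈ S, |u x| ≤ M) → (∀ x ∈ S, |v x| ≤ M) → Ho u S M →
      Ho v S M → Ho (fun x => T (u x, v x)) S N := by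
  obtain ⟨L, hL, h⟩ := endtw_lip (G := T) (hT.of_le (by exact_mod_cast le_top)) M
  refine ⟨L * |M|, mul_nonneg hL (abs_nonneg M), fun u v S h1 h2 h3 h4 x hx y hy => ?_⟩
  have hM : 0 ≤ M := (abs_nonneg _).trans (h1 x hx)
  have h5 := h (u x, v x) (u y, v y) (norm_prod_le_iff.2 ⟨h1 x hx, h2 x hx⟩)
    (norm_prod_le_iff.2 ⟨h1 y hy, h2 y hy⟩)
  have h6 : ‖((u x, v x) : P) - (u y, v y)‖ ≤ M * tw (dist x y) :=
    norm_prod_le_iff.2 ⟨h3 x hx y hy, h4 x hx y hy⟩
  rw [abs_of_nonneg hM, mul_assoc]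
  exact h5.trans (mul_le_mul_of_nonneg_left h6 hL)
end

theorem Hb.affine {u : P → ℝ} (hu : Hb u) (c : P) {l : ℝ} (hl : 0 < l) :
    Hb fun x => u (c + l • x) := by
  obtain ⟨M, h0, h1, h2⟩ := hu
  have h3 := mul_nonneg h0 (tw_nonneg hl.le)
  refine ⟨M + M * tw l, add_nonneg h0 h3, fun x => (h1 _).trans (by linarith), fun x _ y _ => ?_⟩
  have h4 := h2 (c + l • x) trivial (c + l • y) trivial
  rw [dist_add_left, dist_smul₀, Real.norm_eq_abs, abs_of_pos hl, tw_mul hl.le dist_nonneg] at h4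
  have h5 := mul_nonneg h0 (tw_nonneg (dist_nonneg (x := x) (y := y)))
  change |u (c + l • x) - u (c + l • y)| ≤ _
  nlinarith
theorem endtw_clamp (a b s t : ℝ) : |max a (min s b) - max a (min t b)| ≤ |s - t| := by
  have h1 := abs_max_sub_max_le_abs (min s b) (min t b) a
  have h2 := abs_min_sub_min_le_max s b t b
  rw [sub_self, abs_zero, max_eq_left (abs_nonneg _)] at h2
  rw [max_comm a, max_comm a]
  exact h1.trans h2
theorem exists_ext {u : P → ℝ} {c : P} {r M : ℝ} (hr : 0 ≤ r) (hM : 0 ≤ M)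
    (h : Ho u (sqr c r) M) : ∃ u' : P → ℝ, Hb u' ∧ EqOn u' u (sqr c r) := by
  obtain ⟨k, hk⟩ : ∃ k : P → P, ∀ x, k x =
      (max c.1 (min x.1 (c.1 + r)), max c.2 (min x.2 (c.2 + r))) := ⟨_, fun _ => rfl⟩
  have h1 : ∀ x, k x ∈ sqr c r := fun x => by
    rw [hk]
    exact ⟨⟨le_max_left _ _, le_max_left _ _⟩,
      max_le (le_add_of_nonneg_right hr) (min_le_right _ _),
      max_le (le_add_of_nonneg_right hr) (min_le_right _ _)⟩
  have h2 : ∀ x y, dist (k x) (k y) ≤ dist x y := fun x y => by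
    rw [hk, hk, Prod.dist_eq, Prod.dist_eq]
    exact max_le_max (endtw_clamp _ _ _ _) (endtw_clamp _ _ _ _)
  have h3 : ∀ x ∈ sqr c r, k x = x := fun x hx => by
    rw [hk, min_eq_left hx.2.1, min_eq_left hx.2.2, max_eq_right hx.1.1, max_eq_right hx.1.2]
  have hc : c ∈ sqr c r := ⟨le_rfl, le_add_of_nonneg_right hr, le_add_of_nonneg_right hr⟩
  have h4 := mul_nonneg hM (tw_nonneg hr)
  have h5 := abs_nonneg (u c)
  refine ⟨fun x => u (k x), ⟨|u c| + M * tw r + M, by linarith, fun x => ?_, fun x _ y _ => ?_⟩,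
    fun x hx => congrArg u (h3 x hx)⟩
  · have h6 := (h _ (h1 x) c hc).trans (mul_le_mul_of_nonneg_left
      (tw_mono dist_nonneg (dist_le_of_sqr (h1 x) hc)) hM)
    have h7 := abs_add_le (u (k x) - u c) (u c)
    rw [sub_add_cancel] at h7
    change |u (k x)| ≤ _
    linarith
  · exact (h _ (h1 x) _ (h1 y)).trans (mul_le_mul (by linarith) (tw_mono dist_nonneg (h2 x y))
      (tw_nonneg dist_nonneg) (by linarith))
theorem corner_mem {c : P} {r : ℝ} (hr : 0 ≤ r) : c ∈ sqr c r :=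
  ⟨le_rfl, le_add_of_nonneg_right hr, le_add_of_nonneg_right hr⟩
theorem Ho.osc {u : P → ℝ} {c : P} {r M : ℝ} (hM : 0 ≤ M) (h : Ho u (sqr c r) M) {x y : P}
    (hx : x ∈ sqr c r) (hy : y ∈ sqr c r) : |u x - u y| ≤ M * tw r :=
  (h x hx y hy).trans (mul_le_mul_of_nonneg_left (tw_mono dist_nonneg (dist_le_of_sqr hx hy)) hM)

end Pool.Agent.Bor
end
end

-- part Pool.Agent.P.MP_26ecb7_gt.EndSew
section

noncomputable section
open Set Filter Topology MeasureTheory Metric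
open scoped RealInnerProductSpace ContDiff ENNReal

namespace Pool.Agent.Bor

/-- the sewing induction -/
theorem sew_k {R : ℝ → ℝ → ℝ} {a b K K' ε : ℝ} (hK : 0 ≤ K) (hK' : 0 ≤ K') (hε : 0 ≤ ε)
    (h1 : ∀ s t, a ≤ s → s ≤ t → t ≤ b →
      |R s t - R s ((s + t) / 2) - R ((s + t) / 2) t| ≤ K * tw (t - s) ^ 2 + ε)
    (h2 : ∀ s t, a ≤ s → s ≤ t → t ≤ b → |R s t| ≤ K' * tw (t - s) ^ 2) (k : ℕ) :
    ∀ s t, a ≤ s → s ≤ t → t ≤ b →
      |R s t| ≤ (5 * K + K' * (4 / 5) ^ k) * tw (t - s) ^ 2 + (2 ^ k - 1) * ε := by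
  induction k with
  | zero =>
    intro s t hs hst ht
    have h := h2 s t hs hst ht
    have h0 : 0 ≤ K * tw (t - s) ^ 2 := mul_nonneg hK (sq_nonneg _)
    simp only [pow_zero, mul_one, sub_self, zero_mul, add_zero]
    nlinarith
  | succ k ih =>
    intro s t hs hst ht
    have hd := h1 s t hs hst ht
    have hl := ih s ((s + t) / 2) hs (by linarith) (by linarith)
    have hr := ih ((s + t) / 2) t (by linarith) (by linarith) ht
    rw [show (s + t) / 2 - s = (t - s) / 2 by ring] at hl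
    rw [show t - (s + t) / 2 = (t - s) / 2 by ring] at hr
    have hh := tw_half (r := t - s) (by linarith)
    have hc : 0 ≤ 5 * K + K' * (4 / 5) ^ k := by positivity
    have hm := mul_le_mul_of_nonneg_left hh hc
    have htri : |R s t| ≤ |R s t - R s ((s + t) / 2) - R ((s + t) / 2) t| + |R s ((s + t) / 2)|
        + |R ((s + t) / 2) t| := by
      have e : R s t = (R s t - R s ((s + t) / 2) - R ((s + t) / 2) t) + R s ((s + t) / 2)
          + R ((s + t) / 2) t := by ring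
      calc |R s t| = |(R s t - R s ((s + t) / 2) - R ((s + t) / 2) t) + R s ((s + t) / 2)
          + R ((s + t) / 2) t| := by rw [← e]
        _ ≤ _ := abs_add_three _ _ _
    have e2 : (5 * K + K' * (4 / 5) ^ (k + 1)) * tw (t - s) ^ 2 + (2 ^ (k + 1) - 1) * ε =
        K * tw (t - s) ^ 2 + ε + (5 * K + K' * (4 / 5) ^ k) * (4 / 5 * tw (t - s) ^ 2)
          + 2 * ((2 ^ k - 1) * ε) := by ring
    rw [e2]
    linarith

theorem sew {R : ℝ → ℝ → ℝ} {a b K : ℝ} (hK : 0 ≤ K)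
    (h1 : ∀ s t, a ≤ s → s ≤ t → t ≤ b →
      |R s t - R s ((s + t) / 2) - R ((s + t) / 2) t| ≤ K * tw (t - s) ^ 2)
    (h2 : ∃ K', ∀ s t, a ≤ s → s ≤ t → t ≤ b → |R s t| ≤ K' * tw (t - s) ^ 2) :
    ∀ s t, a ≤ s → s ≤ t → t ≤ b → |R s t| ≤ 5 * K * tw (t - s) ^ 2 := by
  obtain ⟨K', hK'⟩ := h2
  intro s t hs hst ht
  have h2' : ∀ s t, a ≤ s → s ≤ t → t ≤ b → |R s t| ≤ max K' 0 * tw (t - s) ^ 2 :=
    fun s t hs hst ht => (hK' s t hs hst ht).trans
      (mul_le_mul_of_nonneg_right (le_max_left _ _) (sq_nonneg _))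
  have hk : ∀ k : ℕ, |R s t| ≤ (5 * K + max K' 0 * (4 / 5) ^ k) * tw (t - s) ^ 2 := fun k => by
    have := sew_k (ε := 0) hK (le_max_right K' 0) le_rfl
      (fun s t hs hst ht => by simpa using h1 s t hs hst ht) h2' k s t hs hst ht
    simpa using this
  have hp : Tendsto (fun k : ℕ => (4 / 5 : ℝ) ^ k) atTop (𝓝 0) :=
    tendsto_pow_atTop_nhds_zero_of_lt_one (by norm_num) (by norm_num)
  have hl : Tendsto (fun k : ℕ => (5 * K + max K' 0 * (4 / 5) ^ k) * tw (t - s) ^ 2) atTop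
      (𝓝 ((5 * K + max K' 0 * 0) * tw (t - s) ^ 2)) :=
    ((hp.const_mul _).const_add _).mul_const _
  have := ge_of_tendsto' hl hk
  simpa using this

theorem sew_small (K l : ℝ) {θ : ℝ} (hθ : 0 < θ) : ∃ ε > 0, ∀ (R : ℝ → ℝ → ℝ) (a b : ℝ), a ≤ b →
    b - a ≤ l → (∀ s t, a ≤ s → s ≤ t → t ≤ b →
      |R s t - R s ((s + t) / 2) - R ((s + t) / 2) t| ≤ ε) →
    (∀ s t, a ≤ s → s ≤ t → t ≤ b → |R s t| ≤ K * tw (t - s) ^ 2) → |R a b| ≤ θ := by
  have hp : Tendsto (fun k : ℕ => (4 / 5 : ℝ) ^ k) atTop (𝓝 0) :=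
    tendsto_pow_atTop_nhds_zero_of_lt_one (by norm_num) (by norm_num)
  have hl : Tendsto (fun k : ℕ => max K 0 * (4 / 5) ^ k * tw (max l 0) ^ 2) atTop
      (𝓝 (max K 0 * 0 * tw (max l 0) ^ 2)) := (hp.const_mul _).mul_const _
  rw [mul_zero, zero_mul] at hl
  obtain ⟨k, hk⟩ := (hl.eventually (gt_mem_nhds (half_pos hθ))).exists
  have h2k : (0 : ℝ) < 2 ^ k := by positivity
  refine ⟨θ / (2 * 2 ^ k), by positivity, fun R a b hab hbl h1 h2 => ?_⟩
  have h2' : ∀ s t, a ≤ s → s ≤ t → t ≤ b → |R s t| ≤ max K 0 * tw (t - s) ^ 2 :=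
    fun s t hs hst ht => (h2 s t hs hst ht).trans
      (mul_le_mul_of_nonneg_right (le_max_left _ _) (sq_nonneg _))
  have h := sew_k (K := 0) (ε := θ / (2 * 2 ^ k)) le_rfl (le_max_right K 0) (by positivity)
    (fun s t hs hst ht => by simpa using h1 s t hs hst ht) h2' k a b le_rfl hab le_rfl
  have ht : tw (b - a) ≤ tw (max l 0) := tw_mono (by linarith) (hbl.trans (le_max_left _ _))
  have ht2 : tw (b - a) ^ 2 ≤ tw (max l 0) ^ 2 :=
    pow_le_pow_left₀ (tw_nonneg (by linarith)) ht 2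
  have hc : 0 ≤ max K 0 * (4 / 5 : ℝ) ^ k := mul_nonneg (le_max_right _ _) (by positivity)
  have h3 := mul_le_mul_of_nonneg_left ht2 hc
  have h4 : (2 ^ k - 1) * (θ / (2 * 2 ^ k)) ≤ θ / 2 := by
    have e : (2 ^ k - 1) * (θ / (2 * 2 ^ k)) = θ / 2 - θ / (2 * 2 ^ k) := by
      field_simp
    have : 0 < θ / (2 * 2 ^ k) := by positivity
    linarith
  rw [mul_zero, zero_add] at h
  linarith

/-- a function with increments of order four thirds is constant -/
theorem eq_of_tw_sq {u : P → ℝ} {c : P} {r K : ℝ}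
    (h : ∀ x ∈ sqr c r, ∀ y ∈ sqr c r, |u x - u y| ≤ K * tw (dist x y) ^ 2) {x y : P}
    (hx : x ∈ sqr c r) (hy : y ∈ sqr c r) : u x = u y := by
  have hmem : ∀ s : ℝ, 0 ≤ s → s ≤ 1 → x + s • (y - x) ∈ sqr c r := fun s h0 h1 =>
    (convex_Icc c (c.1 + r, c.2 + r)).add_smul_sub_mem hx hy ⟨h0, h1⟩
  have hs := sew (R := fun s t => u (x + t • (y - x)) - u (x + s • (y - x))) (a := 0) (b := 1)
    (K := 0) le_rfl (fun s t _ _ _ => by simp)
    ⟨K * tw ‖y - x‖ ^ 2, fun s t hs hst ht => by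
      have h0 := h _ (hmem t (by linarith) ht) _ (hmem s hs (by linarith))
      have e : dist (x + t • (y - x)) (x + s • (y - x)) = (t - s) * ‖y - x‖ := by
        rw [dist_eq_norm, add_sub_add_left_eq_sub, ← sub_smul, norm_smul, Real.norm_eq_abs,
          abs_of_nonneg (by linarith)]
      rw [e, tw_mul (by linarith) (norm_nonneg _)] at h0
      calc _ ≤ _ := h0
        _ = _ := by ring⟩ 0 1 le_rfl zero_le_one le_rfl
  simp only [one_smul, zero_smul, add_zero, add_sub_cancel, mul_zero, zero_mul] at hs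
  have := abs_nonpos_iff.1 hs
  linarith

theorem Dy.pos {c : P} {r : ℝ} (h : Dy c r) : 0 < r := by
  induction h <;> positivity
theorem Dy.le_one {c : P} {r : ℝ} (h : Dy c r) : r ≤ 1 := by
  induction h with
  | base => exact le_rfl
  | c00 h ih => linarith
  | c10 h ih => linarith
  | c01 h ih => linarith
  | c11 h ih => linarith
theorem Dy.sub {c : P} {r : ℝ} (h : Dy c r) : sqr c r ⊆ sqr 0 1 := by
  induction h with
  | base => exact Subset.rfl
  | c00 h ih =>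
    refine Subset.trans (fun x hx => ?_) ih
    have := h.pos
    rw [mem_sqr] at hx ⊢
    obtain ⟨⟨h1, h2⟩, h3, h4⟩ := hx
    exact ⟨⟨by linarith, by linarith⟩, by linarith, by linarith⟩
  | c10 h ih =>
    refine Subset.trans (fun x hx => ?_) ih
    have := h.pos
    rw [mem_sqr] at hx ⊢
    obtain ⟨⟨h1, h2⟩, h3, h4⟩ := hx
    dsimp only at h1 h2 h3 h4
    exact ⟨⟨by linarith, by linarith⟩, by linarith, by linarith⟩
  | c01 h ih =>
    refine Subset.trans (fun x hx => ?_) ih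
    have := h.pos
    rw [mem_sqr] at hx ⊢
    obtain ⟨⟨h1, h2⟩, h3, h4⟩ := hx
    dsimp only at h1 h2 h3 h4
    exact ⟨⟨by linarith, by linarith⟩, by linarith, by linarith⟩
  | c11 h ih =>
    refine Subset.trans (fun x hx => ?_) ih
    have := h.pos
    rw [mem_sqr] at hx ⊢
    obtain ⟨⟨h1, h2⟩, h3, h4⟩ := hx
    dsimp only at h1 h2 h3 h4
    exact ⟨⟨by linarith, by linarith⟩, by linarith, by linarith⟩
theorem Dy.exists_small {c : P} {r : ℝ} (h : Dy c r) {x : P} (hx : x ∈ sqr c r) {ε : ℝ}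
    (hε : 0 < ε) : ∃ c' r', Dy c' r' ∧ r' < ε ∧ x ∈ sqr c' r' ∧ sqr c' r' ⊆ sqr c r := by
  have step : ∀ (c : P) (r : ℝ), Dy c r → x ∈ sqr c r →
      ∃ c', Dy c' (r / 2) ∧ x ∈ sqr c' (r / 2) ∧ sqr c' (r / 2) ⊆ sqr c r := by
    intro c r h hx
    have hr := h.pos
    obtain ⟨⟨h1, h2⟩, h3, h4⟩ := mem_sqr.1 hx
    have sub : ∀ c' : P, c.1 ≤ c'.1 → c'.1 ≤ c.1 + r / 2 → c.2 ≤ c'.2 → c'.2 ≤ c.2 + r / 2 →
        sqr c' (r / 2) ⊆ sqr c r := fun c' a1 a2 a3 a4 y hy => by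
      rw [mem_sqr] at hy ⊢
      obtain ⟨⟨b1, b2⟩, b3, b4⟩ := hy
      exact ⟨⟨by linarith, by linarith⟩, by linarith, by linarith⟩
    rcases le_total x.1 (c.1 + r / 2) with e1 | e1 <;>
      rcases le_total x.2 (c.2 + r / 2) with e2 | e2
    · exact ⟨c, h.c00, mem_sqr.2 ⟨⟨h1, e1⟩, h3, e2⟩,
        sub _ le_rfl (by linarith) le_rfl (by linarith)⟩
    · exact ⟨_, h.c01, mem_sqr.2 ⟨⟨h1, e1⟩, e2, by dsimp only; linarith⟩,
        sub _ le_rfl (by dsimp only; linarith) (by dsimp only; linarith) le_rfl⟩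
    · exact ⟨_, h.c10, mem_sqr.2 ⟨⟨e1, by dsimp only; linarith⟩, h3, e2⟩,
        sub _ (by dsimp only; linarith) le_rfl le_rfl (by dsimp only; linarith)⟩
    · exact ⟨_, h.c11, mem_sqr.2 ⟨⟨e1, by dsimp only; linarith⟩, e2, by dsimp only; linarith⟩,
        sub _ (by dsimp only; linarith) le_rfl (by dsimp only; linarith) le_rfl⟩
  have all : ∀ n : ℕ, ∃ c', Dy c' (r * (1 / 2) ^ n) ∧ x ∈ sqr c' (r * (1 / 2) ^ n) ∧
      sqr c' (r * (1 / 2) ^ n) ⊆ sqr c r := by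
    intro n
    induction n with
    | zero => exact ⟨c, by simpa using h, by simpa using hx, by simp⟩
    | succ n ih =>
      obtain ⟨c1, d1, m1, s1⟩ := ih
      obtain ⟨c2, d2, m2, s2⟩ := step _ _ d1 m1
      have e : r * (1 / 2) ^ (n + 1) = r * (1 / 2) ^ n / 2 := by ring
      rw [e]
      exact ⟨c2, d2, m2, s2.trans s1⟩
  obtain ⟨n, hn⟩ := exists_pow_lt_of_lt_one hε (by norm_num : (1 / 2 : ℝ) < 1)
  obtain ⟨c', d, m, s⟩ := all n
  refine ⟨c', _, d, ?_, m, s⟩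
  have h1 := h.le_one
  have h2 : (0 : ℝ) < (1 / 2) ^ n := by positivity
  nlinarith
theorem Dy.countable : {p : P × ℝ | Dy p.1 p.2}.Countable := by
  have key : ∀ (c : P) (r : ℝ), Dy c r → ∃ q : ℚ × ℚ × ℚ,
      (q.1 : ℝ) = c.1 ∧ (q.2.1 : ℝ) = c.2 ∧ (q.2.2 : ℝ) = r := by
    intro c r h
    induction h with
    | base => exact ⟨(0, 0, 1), by simp, by simp, by simp⟩
    | c00 h ih =>
      obtain ⟨q, h1, h2, h3⟩ := ih
      exact ⟨(q.1, q.2.1, q.2.2 / 2), h1, h2, by push_cast; rw [h3]⟩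
    | c10 h ih =>
      obtain ⟨q, h1, h2, h3⟩ := ih
      exact ⟨(q.1 + q.2.2 / 2, q.2.1, q.2.2 / 2), by push_cast; rw [h1, h3], h2,
        by push_cast; rw [h3]⟩
    | c01 h ih =>
      obtain ⟨q, h1, h2, h3⟩ := ih
      exact ⟨(q.1, q.2.1 + q.2.2 / 2, q.2.2 / 2), h1, by push_cast; rw [h2, h3],
        by push_cast; rw [h3]⟩
    | c11 h ih =>
      obtain ⟨q, h1, h2, h3⟩ := ih
      exact ⟨(q.1 + q.2.2 / 2, q.2.1 + q.2.2 / 2, q.2.2 / 2), by push_cast; rw [h1, h3],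
        by push_cast; rw [h2, h3], by push_cast; rw [h3]⟩
  refine (countable_range fun q : ℚ × ℚ × ℚ =>
    ((((q.1 : ℝ), (q.2.1 : ℝ)), (q.2.2 : ℝ)) : P × ℝ)).mono fun p hp => ?_
  obtain ⟨q, h1, h2, h3⟩ := key _ _ hp
  exact ⟨q, Prod.ext (Prod.ext h1 h2) h3⟩

/-- an additive function of dyadic squares which is small is zero -/
theorem sew2 {R : P → ℝ → ℝ} {K : ℝ} (ha : ∀ c r, Dy c r → Add4 R c r)
    (hb : ∀ c r, Dy c r → |R c r| ≤ K * tw r ^ 4) : ∀ c r, Dy c r → R c r = 0 := by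
  have hk : ∀ (k : ℕ) (c : P) (r : ℝ), Dy c r → |R c r| ≤ |K| * (16 / 25) ^ k * tw r ^ 4 := by
    intro k
    induction k with
    | zero =>
      intro c r h
      rw [pow_zero, mul_one]
      exact (hb c r h).trans (mul_le_mul_of_nonneg_right (le_abs_self _) (by positivity))
    | succ k ih =>
      intro c r h
      have e := ha c r h
      unfold Add4 at e
      have a1 := abs_le.1 (ih _ _ h.c00)
      have a2 := abs_le.1 (ih _ _ h.c10)
      have a3 := abs_le.1 (ih _ _ h.c01)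
      have a4 := abs_le.1 (ih _ _ h.c11)
      have hh := tw_half h.pos.le
      have h4 : 4 * tw (r / 2) ^ 4 ≤ 16 / 25 * tw r ^ 4 := by
        have := pow_le_pow_left₀ (by positivity) hh 2
        calc 4 * tw (r / 2) ^ 4 = (2 * tw (r / 2) ^ 2) ^ 2 := by ring
          _ ≤ _ := this
          _ = _ := by ring
      have hc : 0 ≤ |K| * (16 / 25 : ℝ) ^ k := by positivity
      have h5 := mul_le_mul_of_nonneg_left h4 hc
      have e2 : |K| * (16 / 25) ^ (k + 1) * tw r ^ 4 =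
          |K| * (16 / 25) ^ k * (16 / 25 * tw r ^ 4) := by ring
      rw [e2, e, abs_le]
      constructor <;> linarith [a1.1, a1.2, a2.1, a2.2, a3.1, a3.2, a4.1, a4.2]
  intro c r h
  have hp : Tendsto (fun k : ℕ => (16 / 25 : ℝ) ^ k) atTop (𝓝 0) :=
    tendsto_pow_atTop_nhds_zero_of_lt_one (by norm_num) (by norm_num)
  have hl : Tendsto (fun k : ℕ => |K| * (16 / 25) ^ k * tw r ^ 4) atTop
      (𝓝 (|K| * 0 * tw r ^ 4)) := (hp.const_mul _).mul_const _
  rw [mul_zero, zero_mul] at hl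
  exact abs_nonpos_iff.1 (ge_of_tendsto' hl fun k => hk k c r h)

theorem endsew_four {e1 e2 e3 e4 f1 f2 f3 f4 d1 d2 s A : ℝ}
    (he : e1 + e2 + e3 + e4 = d1 * (4 * s)) (hf : f1 + f2 + f3 + f4 = d2 * (4 * s))
    (h1 : e1 ^ 2 + f1 ^ 2 ≤ (A * s) ^ 2) (h2 : e2 ^ 2 + f2 ^ 2 ≤ (A * s) ^ 2)
    (h3 : e3 ^ 2 + f3 ^ 2 ≤ (A * s) ^ 2) (h4 : e4 ^ 2 + f4 ^ 2 ≤ (A * s) ^ 2)
    (hd : d1 ^ 2 + d2 ^ 2 = A ^ 2) :
    (e1 = d1 * s ∧ f1 = d2 * s) ∧ (e2 = d1 * s ∧ f2 = d2 * s) ∧ (e3 = d1 * s ∧ f3 = d2 * s) ∧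
      (e4 = d1 * s ∧ f4 = d2 * s) := by
  have key : (e1 - d1 * s) ^ 2 + (f1 - d2 * s) ^ 2 + (e2 - d1 * s) ^ 2 + (f2 - d2 * s) ^ 2
      + (e3 - d1 * s) ^ 2 + (f3 - d2 * s) ^ 2 + (e4 - d1 * s) ^ 2 + (f4 - d2 * s) ^ 2 =
      (e1 ^ 2 + f1 ^ 2) + (e2 ^ 2 + f2 ^ 2) + (e3 ^ 2 + f3 ^ 2) + (e4 ^ 2 + f4 ^ 2)
        - 4 * (A * s) ^ 2 := by
    linear_combination (-2 * d1 * s) * he + (-2 * d2 * s) * hf + (-4 * s ^ 2) * hd
  have z : ∀ x y : ℝ, (x - y) ^ 2 ≤ 0 → x = y := fun x y h =>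
    sub_eq_zero.1 (pow_eq_zero_iff two_ne_zero |>.1 (le_antisymm h (sq_nonneg _)))
  have p1 := sq_nonneg (e1 - d1 * s)
  have p2 := sq_nonneg (e2 - d1 * s)
  have p3 := sq_nonneg (e3 - d1 * s)
  have p4 := sq_nonneg (e4 - d1 * s)
  have q1 := sq_nonneg (f1 - d2 * s)
  have q2 := sq_nonneg (f2 - d2 * s)
  have q3 := sq_nonneg (f3 - d2 * s)
  have q4 := sq_nonneg (f4 - d2 * s)
  exact ⟨⟨z _ _ (by linarith), z _ _ (by linarith)⟩, ⟨z _ _ (by linarith), z _ _ (by linarith)⟩,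
    ⟨z _ _ (by linarith), z _ _ (by linarith)⟩, z _ _ (by linarith), z _ _ (by linarith)⟩

/-- equality in the Cauchy Schwarz inequality along the dyadic tree -/
theorem const_of_ext {E F : P → ℝ → ℝ} {A : ℝ} (hE : ∀ c r, Dy c r → Add4 E c r)
    (hF : ∀ c r, Dy c r → Add4 F c r)
    (hb : ∀ c r, Dy c r → E c r ^ 2 + F c r ^ 2 ≤ (A * r ^ 2) ^ 2)
    (h1 : E 0 1 ^ 2 + F 0 1 ^ 2 = A ^ 2) :
    ∀ c r, Dy c r → E c r = E 0 1 * r ^ 2 ∧ F c r = F 0 1 * r ^ 2 := by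
  have step : ∀ (c : P) (r : ℝ), Dy c r → (E c r = E 0 1 * r ^ 2 ∧ F c r = F 0 1 * r ^ 2) →
      (E c (r / 2) = E 0 1 * (r / 2) ^ 2 ∧ F c (r / 2) = F 0 1 * (r / 2) ^ 2) ∧
      (E (c.1 + r / 2, c.2) (r / 2) = E 0 1 * (r / 2) ^ 2 ∧
        F (c.1 + r / 2, c.2) (r / 2) = F 0 1 * (r / 2) ^ 2) ∧
      (E (c.1, c.2 + r / 2) (r / 2) = E 0 1 * (r / 2) ^ 2 ∧
        F (c.1, c.2 + r / 2) (r / 2) = F 0 1 * (r / 2) ^ 2) ∧
      (E (c.1 + r / 2, c.2 + r / 2) (r / 2) = E 0 1 * (r / 2) ^ 2 ∧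
        F (c.1 + r / 2, c.2 + r / 2) (r / 2) = F 0 1 * (r / 2) ^ 2) := by
    intro c r h ih
    have e1 := hE c r h
    have e2 := hF c r h
    unfold Add4 at e1 e2
    refine endsew_four (A := A) (s := (r / 2) ^ 2) ?_ ?_ (hb _ _ h.c00) (hb _ _ h.c10)
      (hb _ _ h.c01) (hb _ _ h.c11) h1
    · rw [← e1, ih.1]; ring
    · rw [← e2, ih.2]; ring
  intro c r h
  induction h with
  | base => simp
  | c00 h ih => exact (step _ _ h ih).1
  | c10 h ih => exact (step _ _ h ih).2.1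
  | c01 h ih => exact (step _ _ h ih).2.2.1
  | c11 h ih => exact (step _ _ h ih).2.2.2

theorem endsew_iso1 (k : ℝ) : Isometry fun s : ℝ => ((s, k) : P) :=
  Isometry.of_dist_eq fun s t => by
    rw [Prod.dist_eq, dist_self]; exact max_eq_left dist_nonneg
theorem endsew_iso2 (k : ℝ) : Isometry fun s : ℝ => ((k, s) : P) :=
  Isometry.of_dist_eq fun s t => by
    rw [Prod.dist_eq, dist_self]; exact max_eq_right dist_nonneg

theorem edge_b (c : P) {r : ℝ} (hr : 0 ≤ r) : Edge c r (fun s => (s, c.2)) c.1 := by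
  refine ⟨endsew_iso1 _, fun s hs => ?_⟩
  have hm : ((s, c.2) : P) ∈ sqr c r := mem_sqr.2 ⟨hs, le_rfl, by dsimp only; linarith⟩
  exact ⟨edge_mem_frontier hm (Or.inr (Or.inr (Or.inl rfl))), hm⟩
theorem edge_r (c : P) {r : ℝ} (hr : 0 ≤ r) : Edge c r (fun t => (c.1 + r, t)) c.2 := by
  refine ⟨endsew_iso2 _, fun s hs => ?_⟩
  have hm : ((c.1 + r, s) : P) ∈ sqr c r := mem_sqr.2 ⟨⟨by dsimp only; linarith, le_rfl⟩, hs⟩
  exact ⟨edge_mem_frontier hm (Or.inr (Or.inl rfl)), hm⟩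
theorem edge_t (c : P) {r : ℝ} (hr : 0 ≤ r) : Edge c r (fun s => (s, c.2 + r)) c.1 := by
  refine ⟨endsew_iso1 _, fun s hs => ?_⟩
  have hm : ((s, c.2 + r) : P) ∈ sqr c r := mem_sqr.2 ⟨hs, by dsimp only; linarith, le_rfl⟩
  exact ⟨edge_mem_frontier hm (Or.inr (Or.inr (Or.inr rfl))), hm⟩
theorem edge_l (c : P) {r : ℝ} (hr : 0 ≤ r) : Edge c r (fun t => (c.1, t)) c.2 := by
  refine ⟨endsew_iso2 _, fun s hs => ?_⟩
  have hm : ((c.1, s) : P) ∈ sqr c r := mem_sqr.2 ⟨⟨le_rfl, by dsimp only; linarith⟩, hs⟩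
  exact ⟨edge_mem_frontier hm (Or.inl rfl), hm⟩
theorem Edge.ho {c : P} {r a M : ℝ} {γ : ℝ → P} (e : Edge c r γ a) {u : P → ℝ}
    (h : Ho u (sqr c r) M) : Ho (fun s => u (γ s)) (Icc a (a + r)) M := by
  intro s hs t ht
  have := h _ (e.2 s hs).2 _ (e.2 t ht).2
  rwa [e.1.dist_eq] at this
theorem vol_sqr_ball {c x : P} {r ε : ℝ} (hr : 0 < r) (hε : 0 < ε) (hx : x ∈ sqr c r) :
    volume (sqr c r ∩ ball x ε) ≠ 0 := by
  obtain ⟨⟨h1, h2⟩, h3, h4⟩ := mem_sqr.1 hx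
  have ho : IsOpen (Ioo (max c.1 (x.1 - ε)) (min (c.1 + r) (x.1 + ε)) ×ˢ
      Ioo (max c.2 (x.2 - ε)) (min (c.2 + r) (x.2 + ε)) : Set P) := isOpen_Ioo.prod isOpen_Ioo
  have hne : (Ioo (max c.1 (x.1 - ε)) (min (c.1 + r) (x.1 + ε)) ×ˢ
      Ioo (max c.2 (x.2 - ε)) (min (c.2 + r) (x.2 + ε)) : Set P).Nonempty := by
    refine Nonempty.prod (nonempty_Ioo.2 ?_) (nonempty_Ioo.2 ?_) <;>
      rw [max_lt_iff, lt_min_iff, lt_min_iff] <;>
      exact ⟨⟨by linarith, by linarith⟩, by linarith, by linarith⟩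
  refine ((ho.measure_pos volume hne).trans_le (measure_mono fun y hy => ?_)).ne'
  obtain ⟨⟨a1, a2⟩, a3, a4⟩ := hy
  rw [max_lt_iff] at a1 a3
  rw [lt_min_iff] at a2 a4
  refine ⟨mem_sqr.2 ⟨⟨a1.1.le, a2.1.le⟩, a3.1.le, a4.1.le⟩, ?_⟩
  rw [mem_ball, Prod.dist_eq, max_lt_iff, Real.dist_eq, Real.dist_eq, abs_lt, abs_lt]
  exact ⟨⟨by linarith [a1.2], by linarith [a2.2]⟩, by linarith [a3.2], by linarith [a4.2]⟩

end Pool.Agent.Bor
end
end

-- part Pool.Agent.P.MP_26ecb7_gt.EndMol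
section

noncomputable section
open Set Filter Topology MeasureTheory Metric
open scoped RealInnerProductSpace ContDiff ENNReal

namespace Pool.Agent.Bor

open scoped Convolution

/-- mollification of a Hoelder function -/
theorem exists_moll {X : Type} [NormedAddCommGroup X] [NormedSpace ℝ X] [FiniteDimensional ℝ X]
    {u : X → ℝ} {M : ℝ} (hM : 0 ≤ M) (hu : Ho u univ M) : ∃ U : ℕ → X → ℝ,
    (∀ n, ContDiff ℝ ∞ (U n)) ∧ (∀ n, Ho (U n) univ M) ∧ TendstoUniformly U u atTop := by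
  borelize X
  obtain ⟨μ, hμ⟩ : ∃ μ : Measure X, μ.IsAddHaarMeasure := ⟨Measure.addHaar, inferInstance⟩
  have hc : Continuous u := continuousOn_univ.1 hu.continuousOn
  obtain ⟨φ, hφ⟩ : ∃ φ : ℕ → ContDiffBump (0 : X), ∀ n, (φ n).rOut = 1 / ((n : ℝ) + 1) :=
    ⟨fun n => ⟨1 / ((n : ℝ) + 1) / 2, 1 / ((n : ℝ) + 1), by positivity,
      half_lt_self (by positivity)⟩, fun _ => rfl⟩
  refine ⟨fun n => (φ n).normed μ ⋆[ContinuousLinearMap.lsmul ℝ ℝ, μ] u, fun n => ?_,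
    fun n x _ y _ => ?_, ?_⟩
  · exact (φ n).hasCompactSupport_normed.contDiff_convolution_left _ (φ n).contDiff_normed
      hc.locallyIntegrable
  · have hi := ((φ n).hasCompactSupport_normed (μ := μ)).convolutionExists_left
      (ContinuousLinearMap.lsmul ℝ ℝ) (φ n).continuous_normed (hc.locallyIntegrable (μ := μ))
    beta_reduce
    rw [convolution_def, convolution_def, ← integral_sub (hi x) (hi y), ← Real.norm_eq_abs]
    refine (norm_integral_le_of_norm_le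
      (((φ n).integrable_normed (μ := μ)).mul_const (M * tw (dist x y)))
      (Eventually.of_forall fun t => ?_)).trans_eq ?_
    · have h := hu (x - t) trivial (y - t) trivial
      rw [dist_sub_right] at h
      rw [← map_sub, ContinuousLinearMap.lsmul_apply, smul_eq_mul, Real.norm_eq_abs, abs_mul,
        abs_of_nonneg ((φ n).nonneg_normed t)]
      exact mul_le_mul_of_nonneg_left h ((φ n).nonneg_normed t)
    · rw [integral_mul_const, (φ n).integral_normed, one_mul]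
  · refine Metric.tendstoUniformly_iff.2 fun ε hε => ?_
    obtain ⟨ρ, hρ, h⟩ := tw_small (show 0 < ε / 2 / (M + 1) by positivity)
    filter_upwards [(tendsto_one_div_add_atTop_nhds_zero_nat (𝕜 := ℝ)).eventually
      (gt_mem_nhds hρ)] with n hn x
    rw [dist_comm]
    refine ((φ n).dist_normed_convolution_le (ε := ε / 2) hc.aestronglyMeasurable
      fun y hy => ?_).trans_lt (half_lt_self hε)
    rw [mem_ball, hφ] at hy
    have h1 := h _ dist_nonneg (hy.trans hn)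
    rw [lt_div_iff₀ (by positivity)] at h1
    have h2 := tw_nonneg (dist_nonneg (x := y) (y := x))
    rw [Real.dist_eq]
    refine (hu y trivial x trivial).trans ?_
    nlinarith

/-- smooth primitive in the first variable -/
theorem exists_pd0 {φ : P → ℝ} (hφ : ContDiff ℝ ∞ φ) (hc : HasCompactSupport φ) :
    ∃ T : P → ℝ, ContDiff ℝ ∞ T ∧ ∀ y, pd 0 T y = φ y := by
  have hk : IsCompact (Prod.fst '' tsupport φ) := hc.isCompact.image continuous_fst
  have hz : ∀ (z x : ℝ), x ∉ Prod.fst '' tsupport φ → φ (x, z) = 0 := fun z x hx =>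
    image_eq_zero_of_notMem_tsupport fun h => hx ⟨_, h, rfl⟩
  have hT : ContDiff ℝ ∞ fun y : P => ((Ioi (0 : ℝ)).indicator (fun _ => (1 : ℝ))
      ⋆[ContinuousLinearMap.lsmul ℝ ℝ, volume] fun s => φ (s, y.2)) y.1 := by
    rw [← contDiffOn_univ]
    exact contDiffOn_convolution_right_with_param_comp (n := ⊤) (ContinuousLinearMap.lsmul ℝ ℝ)
      (g := fun (y : P) (s : ℝ) => φ (s, y.2)) contDiff_fst.contDiffOn isOpen_univ hk
      (fun p x _ hx => hz p.2 x hx)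
      ((locallyIntegrable_const (1 : ℝ)).indicator measurableSet_Ioi)
      (hφ.comp (contDiff_snd.prodMk contDiff_fst.snd)).contDiffOn
  have e : (fun y : P => ((Ioi (0 : ℝ)).indicator (fun _ => (1 : ℝ))
      ⋆[ContinuousLinearMap.lsmul ℝ ℝ, volume] fun s => φ (s, y.2)) y.1) =
      fun y : P => ∫ s in Iic y.1, φ (s, y.2) := funext fun y => by
    rw [convolution_eq_swap, integral_Iic_eq_integral_Iio, ← integral_indicator measurableSet_Iio]
    refine congrArg _ (funext fun t => ?_)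
    by_cases h : t < y.1 <;> simp [indicator, h]
  rw [e] at hT
  refine ⟨_, hT, fun y => ?_⟩
  have c1 : Continuous fun s : ℝ => φ (s, y.2) :=
    hφ.continuous.comp (continuous_id.prodMk continuous_const)
  have i1 : Integrable fun s : ℝ => φ (s, y.2) :=
    c1.integrable_of_hasCompactSupport (HasCompactSupport.intro hk (hz y.2))
  have d1 := (hT.differentiable (by simp) (y.1, y.2)).hasFDerivAt.comp_hasDerivAt y.1
    ((hasDerivAt_id y.1).prodMk (hasDerivAt_const y.1 y.2))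
  have d2 : HasDerivAt (fun u : ℝ => ∫ s in Iic u, φ (s, y.2)) (φ (y.1, y.2)) y.1 := by
    have e2 : (fun u : ℝ => ∫ s in Iic u, φ (s, y.2)) =
        fun u => (∫ s in (0 : ℝ)..u, φ (s, y.2)) + ∫ s in Iic 0, φ (s, y.2) := funext fun u => by
      rw [← intervalIntegral.integral_Iic_sub_Iic i1.integrableOn i1.integrableOn, sub_add_cancel]
    rw [e2]
    exact (c1.integral_hasStrictDerivAt 0 y.1).hasDerivAt.add_const _
  exact d1.unique d2

/-- a smooth function equal to one on a null compact set, with small integral -/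
theorem exists_thin {K : Set P} (hK : IsCompact K) (h0 : volume K = 0) {ε : ℝ} (hε : 0 < ε) :
    ∃ φ : P → ℝ, ContDiff ℝ ∞ φ ∧ HasCompactSupport φ ∧ (∀ y, 0 ≤ φ y ∧ φ y ≤ 1) ∧
      (∀ y ∈ K, φ y = 1) ∧ ∫ y, φ y ≤ ε := by
  obtain ⟨U, hKU, hU, hv⟩ := K.exists_isOpen_lt_of_lt (μ := volume) (ENNReal.ofReal ε)
    (by rw [h0]; exact ENNReal.ofReal_pos.2 hε)
  obtain ⟨L, hL, h1, h2⟩ := exists_compact_between hK hU hKU
  obtain ⟨f, f1, f0, fb⟩ := exists_contMDiffMap_one_nhds_of_subset_interior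
    (modelWithCornersSelf ℝ P) (n := ⊤) hK.isClosed h1
  refine ⟨f, contMDiff_iff_contDiff.1 f.contMDiff, HasCompactSupport.intro hL f0, fb,
    f1.self_of_nhdsSet, ?_⟩
  rw [← setIntegral_eq_integral_of_forall_compl_eq_zero f0]
  refine (Real.le_norm_self _).trans ((norm_setIntegral_le_of_norm_le_const (C := 1) hL.measure_lt_top
    fun x _ => ?_).trans ?_)
  · rw [Real.norm_eq_abs, abs_of_nonneg (fb x).1]
    exact (fb x).2
  · rw [one_mul]
    exact ENNReal.toReal_le_of_le_ofReal hε.le ((measure_mono h2).trans hv.le)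

end Pool.Agent.Bor
end
end

-- part Pool.Agent.P.MP_26ecb7_gt.EndYi
section

noncomputable section
open Set Filter Topology MeasureTheory Metric
open scoped RealInnerProductSpace ContDiff ENNReal

namespace Pool.Agent.Bor

theorem endyi_osc {u : ℝ → ℝ} {a b M s t x y : ℝ} (h : Ho u (Icc a b) M) (hM : 0 ≤ M)
    (has : a ≤ s) (htb : t ≤ b) (hx : x ∈ Icc s t) (hy : y ∈ Icc s t) :
    |u x - u y| ≤ M * tw (t - s) :=
  (h x (Icc_subset_Icc has htb hx) y (Icc_subset_Icc has htb hy)).trans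
    (mul_le_mul_of_nonneg_left (tw_mono dist_nonneg (Real.dist_le_of_mem_Icc hx hy)) hM)

theorem endyi_mul {x y A B : ℝ} (hx : |x| ≤ A) (hy : |y| ≤ B) : |x * y| ≤ A * B := by
  rw [abs_mul]
  exact mul_le_mul hx hy (abs_nonneg _) ((abs_nonneg _).trans hx)

theorem endyi_sub {x y A B : ℝ} (hx : |x| ≤ A) (hy : |y| ≤ B) : |x - y| ≤ A + B :=
  (abs_sub _ _).trans (add_le_add hx hy)

/-- the Young bound with the local constants -/
theorem Prim.bound {f g I : ℝ → ℝ} {a b Mf Mg : ℝ} (h : Prim f g I a b) (hMf : 0 ≤ Mf)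
    (hMg : 0 ≤ Mg) (hf : Ho f (Icc a b) Mf) (hg : Ho g (Icc a b) Mg) :
    ∀ s t, a ≤ s → s ≤ t → t ≤ b →
      |I t - I s - f s * (g t - g s)| ≤ 5 * (Mf * Mg) * tw (t - s) ^ 2 := by
  refine sew (R := fun s t => I t - I s - f s * (g t - g s)) (mul_nonneg hMf hMg)
    (fun s t h1 h2 h3 => ?_) h
  have hm : (s + t) / 2 ∈ Icc s t := ⟨by linarith, by linarith⟩
  have e : I t - I s - f s * (g t - g s) - (I ((s + t) / 2) - I s - f s * (g ((s + t) / 2) - g s)) -
      (I t - I ((s + t) / 2) - f ((s + t) / 2) * (g t - g ((s + t) / 2))) =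
      (f ((s + t) / 2) - f s) * (g t - g ((s + t) / 2)) := by ring
  rw [e]
  refine (endyi_mul (endyi_osc hf hMf h1 h3 hm ⟨le_rfl, h2⟩)
    (endyi_osc hg hMg h1 h3 ⟨h2, le_rfl⟩ hm)).trans (le_of_eq ?_)
  ring

theorem Prim.unique {f g I J : ℝ → ℝ} {a b : ℝ} (hab : a ≤ b) (h : Prim f g I a b)
    (h' : Prim f g J a b) : I b - I a = J b - J a := by
  obtain ⟨K, hK⟩ := h
  obtain ⟨K', hK'⟩ := h'
  have h1 := sew (R := fun s t => I t - I s - (J t - J s)) (a := a) (b := b) (K := 0) le_rfl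
    (fun s t _ _ _ => by
      have e : I t - I s - (J t - J s) - (I ((s + t) / 2) - I s - (J ((s + t) / 2) - J s)) -
        (I t - I ((s + t) / 2) - (J t - J ((s + t) / 2))) = 0 := by ring
      rw [e, abs_zero, zero_mul])
    ⟨K + K', fun s t h1 h2 h3 => by
      have e : I t - I s - (J t - J s) = (I t - I s - f s * (g t - g s)) -
        (J t - J s - f s * (g t - g s)) := by ring
      rw [e, add_mul]
      exact endyi_sub (hK s t h1 h2 h3) (hK' s t h1 h2 h3)⟩ a b le_rfl hab le_rfl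
  rw [mul_zero, zero_mul, abs_nonpos_iff] at h1
  exact sub_eq_zero.1 h1

theorem Prim.congr {f g f' g' I : ℝ → ℝ} {a b : ℝ} (h : Prim f g I a b)
    (hf : ∀ s ∈ Icc a b, f s = f' s) (hg : ∀ s ∈ Icc a b, g s = g' s) : Prim f' g' I a b := by
  obtain ⟨K, hK⟩ := h
  refine ⟨K, fun s t h1 h2 h3 => ?_⟩
  rw [← hf s ⟨h1, h2.trans h3⟩, ← hg s ⟨h1, h2.trans h3⟩, ← hg t ⟨h1.trans h2, h3⟩]
  exact hK s t h1 h2 h3

/-- stability of the Young integral -/
theorem prim_stab (M l : ℝ) {θ : ℝ} (hθ : 0 < θ) : ∃ ε > 0, ∀ (f g I f' g' I' : ℝ → ℝ) (a b : ℝ),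
    a ≤ b → b - a ≤ l → Ho f (Icc a b) M → Ho g (Icc a b) M → Ho f' (Icc a b) M →
    Ho g' (Icc a b) M → (∀ s ∈ Icc a b, |f s| ≤ M) → (∀ s ∈ Icc a b, |f s - f' s| ≤ ε) →
    (∀ s ∈ Icc a b, |g s - g' s| ≤ ε) → Prim f g I a b → Prim f' g' I' a b →
    |(I b - I a) - (I' b - I' a)| ≤ θ := by
  obtain ⟨ε0, hε0, hs⟩ := sew_small (5 * (M * M) + 5 * (M * M)) l (half_pos hθ)
  obtain ⟨ε, hε, hε'⟩ := exists_pos_mul_lt (lt_min hε0 (half_pos hθ)) (4 * (M * tw l) + 2 * M)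
  refine ⟨ε, hε, fun f g I f' g' I' a b hab hl hf hg hf' hg' h0 df dg hI hI' => ?_⟩
  have hM : 0 ≤ M := (abs_nonneg _).trans (h0 a ⟨le_rfl, hab⟩)
  have hL : 0 ≤ M * tw l * ε :=
    mul_nonneg (mul_nonneg hM (tw_nonneg ((sub_nonneg.2 hab).trans hl))) hε.le
  have hMε : 0 ≤ M * ε := mul_nonneg hM hε.le
  have osc : ∀ {u : ℝ → ℝ}, Ho u (Icc a b) M → ∀ {x y}, x ∈ Icc a b → y ∈ Icc a b →
      |u x - u y| ≤ M * tw l := fun hu _ _ hx hy => (endyi_osc hu hM le_rfl le_rfl hx hy).trans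
    (mul_le_mul_of_nonneg_left (tw_mono (sub_nonneg.2 hab) hl) hM)
  have e1 := lt_of_lt_of_le hε' (min_le_left _ _)
  have e2 := lt_of_lt_of_le hε' (min_le_right _ _)
  have h1 := hs (fun s t => (I t - I s - f s * (g t - g s)) - (I' t - I' s - f' s * (g' t - g' s)))
    a b hab hl (fun s t h1 h2 h3 => by
      have hm : (s + t) / 2 ∈ Icc a b := ⟨by linarith, by linarith⟩
      have hs' : s ∈ Icc a b := ⟨h1, h2.trans h3⟩
      have ht' : t ∈ Icc a b := ⟨h1.trans h2, h3⟩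
      generalize (s + t) / 2 = m at hm ⊢
      have e : I t - I s - f s * (g t - g s) - (I' t - I' s - f' s * (g' t - g' s)) -
          (I m - I s - f s * (g m - g s) - (I' m - I' s - f' s * (g' m - g' s))) -
          (I t - I m - f m * (g t - g m) - (I' t - I' m - f' m * (g' t - g' m))) =
          (f m - f s) * (g t - g' t - (g m - g' m)) -
            (f s - f' s - (f m - f' m)) * (g' t - g' m) := by ring
      rw [e]
      refine (endyi_sub (endyi_mul (osc hf hm hs') (endyi_sub (dg t ht') (dg m hm)))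
        (endyi_mul (endyi_sub (df s hs') (df m hm)) (osc hg' ht' hm))).trans ?_
      linarith)
    (fun s t h1 h2 h3 => by
      rw [add_mul]
      exact endyi_sub (hI.bound hM hM hf hg s t h1 h2 h3) (hI'.bound hM hM hf' hg' s t h1 h2 h3))
  have ha : a ∈ Icc a b := ⟨le_rfl, hab⟩
  have hb : b ∈ Icc a b := ⟨hab, le_rfl⟩
  have e : I b - I a - (I' b - I' a) =
      (I b - I a - f a * (g b - g a) - (I' b - I' a - f' a * (g' b - g' a))) -
        (f a * (g a - g' a - (g b - g' b)) - (f a - f' a) * (g' b - g' a)) := by ring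
  rw [e]
  refine (endyi_sub h1 (endyi_sub (endyi_mul (h0 a ha) (endyi_sub (dg a ha) (dg b hb)))
    (endyi_mul (df a ha) (osc hg' hb ha)))).trans ?_
  linarith

/-- the ordinary integral is a primitive -/
theorem prim_smooth {f g g' : ℝ → ℝ} {a b M : ℝ} (u : ℝ) (hM : 0 ≤ M) (hf : Continuous f)
    (hg : ∀ s, HasDerivAt g (g' s) s) (hg' : Continuous g') (hf1 : Ho f (Icc a b) M)
    (hg1 : Ho g (Icc a b) M) : Prim f g (fun t => ∫ s in u..t, f s * g' s) a b := by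
  refine ⟨yc (2 / 3) * M * M, fun s t h1 h2 h3 => ?_⟩
  have hi : ∀ x y, IntervalIntegrable (fun s => f s * g' s) volume x y := fun x y =>
    (hf.mul hg').intervalIntegrable x y
  have h4 := young (Y := ℝ) (a := 2 / 3) (by norm_num) h2 hM hM hf.continuousOn
    (fun x _ => hg x) hg'.continuousOn
    (fun x hx y hy => hf1 x (Icc_subset_Icc h1 h3 hx) y (Icc_subset_Icc h1 h3 hy))
    (fun x hx y hy => hg1 x (Icc_subset_Icc h1 h3 hx) y (Icc_subset_Icc h1 h3 hy))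
  have e1 : ∫ x in s..t, g' x = g t - g s :=
    intervalIntegral.integral_eq_sub_of_hasDerivAt (fun x _ => hg x) (hg'.intervalIntegrable s t)
  have e2 : (∫ x in s..t, f x * g' x) - f s * (g t - g s) = ∫ x in s..t, ⟪f x - f s, g' x⟫ := by
    rw [← e1, ← intervalIntegral.integral_const_mul,
      ← intervalIntegral.integral_sub (hi s t) ((hg'.intervalIntegrable s t).const_mul _)]
    congr 1
    funext x
    simp only [RCLike.inner_apply, conj_trivial]
    ring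
  beta_reduce
  rw [intervalIntegral.integral_interval_sub_left (hi u t) (hi u s), e2, tw_sq (sub_nonneg.2 h2)]
  exact h4

theorem exists_prim {f g : ℝ → ℝ} (hf : Hb f) (hg : Hb g) : ∃ I, ∀ a b, Prim f g I a b := by
  obtain ⟨M, hM, hf0, -, hf1, hg1⟩ := hf.two hg
  obtain ⟨U, hU, hU1, hU2⟩ := exists_moll hM hg1
  obtain ⟨I, hI0, hI⟩ : ∃ I : ℕ → ℝ → ℝ, (∀ n, I n 0 = 0) ∧ ∀ n a b, Prim f (U n) (I n) a b :=
    ⟨fun n t => ∫ s in (0 : ℝ)..t, f s * deriv (U n) s, fun _ => intervalIntegral.integral_same,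
      fun n a b => prim_smooth 0 hM hf.continuous
        (fun s => ((hU n).differentiable (by simp) s).hasDerivAt)
        ((hU n).continuous_deriv (by exact_mod_cast le_top)) (hf1.mono (subset_univ _) le_rfl)
        ((hU1 n).mono (subset_univ _) le_rfl)⟩
  have hc : ∀ t, CauchySeq fun n => I n t := fun t => by
    refine Metric.cauchySeq_iff.2 fun θ hθ => ?_
    obtain ⟨ε, hε, hs⟩ := prim_stab M |t| (half_pos hθ)
    obtain ⟨N, hN⟩ := eventually_atTop.1 (Metric.tendstoUniformly_iff.1 hU2 _ (half_pos hε))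
    refine ⟨N, fun m hm n hn => ?_⟩
    have key : ∀ a b, a ≤ b → b - a ≤ |t| → |I m b - I m a - (I n b - I n a)| ≤ θ / 2 :=
      fun a b hab hl => hs f (U m) (I m) f (U n) (I n) a b hab hl
        (hf1.mono (subset_univ _) le_rfl) ((hU1 m).mono (subset_univ _) le_rfl)
        (hf1.mono (subset_univ _) le_rfl) ((hU1 n).mono (subset_univ _) le_rfl)
        (fun s _ => hf0 s) (fun s _ => by rw [sub_self, abs_zero]; exact hε.le)
        (fun s _ => by
          have h1 := dist_triangle_left (U m s) (U n s) (g s)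
          rw [← Real.dist_eq]
          linarith [hN m hm s, hN n hn s]) (hI m a b) (hI n a b)
    rw [Real.dist_eq]
    rcases le_total 0 t with h | h
    · have h1 := key 0 t h (by rw [sub_zero]; exact le_abs_self t)
      rw [hI0, hI0, sub_zero, sub_zero] at h1
      linarith
    · have h1 := key t 0 h (by rw [zero_sub]; exact neg_le_abs t)
      rw [hI0, hI0, zero_sub, zero_sub, neg_sub_neg, abs_sub_comm] at h1
      linarith
  choose J hJ using fun t => cauchySeq_tendsto_of_complete (hc t)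
  refine ⟨J, fun a b => ⟨5 * (M * M), fun s t h1 h2 h3 => ?_⟩⟩
  exact le_of_tendsto' ((((hJ t).sub (hJ s)).sub
    (((hU2.tendsto_at t).sub (hU2.tendsto_at s)).const_mul (f s))).abs) fun n =>
      (hI n a b).bound hM hM (hf1.mono (subset_univ _) le_rfl)
        ((hU1 n).mono (subset_univ _) le_rfl) s t h1 h2 h3

theorem prim_prim {f g : ℝ → ℝ} (hf : Hb f) (hg : Hb g) (a b : ℝ) : Prim f g (prim f g) a b :=
  Classical.epsilon_spec (exists_prim hf hg) a b

theorem yi_eq {f g I : ℝ → ℝ} (hf : Hb f) (hg : Hb g) {a b : ℝ} (hab : a ≤ b)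
    (h : Prim f g I a b) : yi f g a b = I b - I a :=
  (prim_prim hf hg a b).unique hab h

end Pool.Agent.Bor
end
end

-- part Pool.Agent.P.MP_26ecb7_gt.EndYa
section

noncomputable section
open Set Filter Topology MeasureTheory Metric
open scoped RealInnerProductSpace ContDiff ENNReal

namespace Pool.Agent.Bor

variable {f g f' g' : ℝ → ℝ} {a b : ℝ}

theorem yi_add3 (f g : ℝ → ℝ) (a b c : ℝ) : yi f g a b + yi f g b c = yi f g a c := by
  unfold yi
  ring

theorem endya_inc {u : ℝ → ℝ} {M s t : ℝ} (h : Ho u univ M) (hst : s ≤ t) :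
    |u t - u s| ≤ M * tw (t - s) := by
  have := h t trivial s trivial
  rwa [Real.dist_eq, abs_of_nonneg (sub_nonneg.2 hst)] at this

theorem yi_bound (hf : Hb f) (hg : Hb g) (hab : a ≤ b) {Mf Mg : ℝ} (hMf : 0 ≤ Mf) (hMg : 0 ≤ Mg)
    (hf1 : Ho f (Icc a b) Mf) (hg1 : Ho g (Icc a b) Mg) :
    |yi f g a b - f a * (g b - g a)| ≤ 5 * (Mf * Mg) * tw (b - a) ^ 2 :=
  (prim_prim hf hg a b).bound hMf hMg hf1 hg1 a b le_rfl hab le_rfl

theorem yi_congr (hf : Hb f) (hg : Hb g) (hf' : Hb f') (hg' : Hb g') (hab : a ≤ b)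
    (h1 : ∀ s ∈ Icc a b, f s = f' s) (h2 : ∀ s ∈ Icc a b, g s = g' s) :
    yi f g a b = yi f' g' a b :=
  (yi_eq hf' hg' hab ((prim_prim hf hg a b).congr h1 h2)).symm

theorem yi_add (hf : Hb f) (hf' : Hb f') (hg : Hb g) (hab : a ≤ b) :
    yi (fun s => f s + f' s) g a b = yi f g a b + yi f' g a b := by
  obtain ⟨K, hK⟩ := prim_prim hf hg a b
  obtain ⟨K', hK'⟩ := prim_prim hf' hg a b
  rw [yi_eq (hf.add hf') hg hab (I := fun s => prim f g s + prim f' g s)
    ⟨K + K', fun s t h1 h2 h3 => ?_⟩]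
  · unfold yi
    ring
  · have e1 := abs_le.1 (hK s t h1 h2 h3)
    have e2 := abs_le.1 (hK' s t h1 h2 h3)
    rw [abs_le]
    constructor <;> linarith [e1.1, e1.2, e2.1, e2.2]

theorem yi_mul (k : ℝ) (hf : Hb f) (hg : Hb g) (hab : a ≤ b) :
    yi (fun s => k * f s) g a b = k * yi f g a b := by
  obtain ⟨K, hK⟩ := prim_prim hf hg a b
  rw [yi_eq (hf.const_mul k) hg hab (I := fun s => k * prim f g s)
    ⟨|k| * K, fun s t h1 h2 h3 => ?_⟩]
  · unfold yi
    ring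
  · refine le_trans (le_of_eq ?_) ((mul_le_mul_of_nonneg_left (hK s t h1 h2 h3)
      (abs_nonneg k)).trans_eq (mul_assoc _ _ _).symm)
    rw [← abs_mul]
    congr 1
    ring

theorem yi_const (k : ℝ) (hg : Hb g) (hab : a ≤ b) :
    yi (fun _ => k) g a b = k * (g b - g a) := by
  rw [yi_eq (Hb.const k) hg hab (I := fun s => k * g s) ⟨0, fun s t _ _ _ => ?_⟩, mul_sub]
  rw [← mul_sub, sub_self, abs_zero, zero_mul]

theorem yi_right (k m : ℝ) (hf : Hb f) (hg : Hb g) (hab : a ≤ b) :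
    yi f (fun s => k * (g s - m)) a b = k * yi f g a b := by
  obtain ⟨K, hK⟩ := prim_prim hf hg a b
  rw [yi_eq hf ((hg.sub (Hb.const m)).const_mul k) hab (I := fun s => k * prim f g s)
    ⟨|k| * K, fun s t h1 h2 h3 => ?_⟩]
  · unfold yi
    ring
  · refine le_trans (le_of_eq ?_) ((mul_le_mul_of_nonneg_left (hK s t h1 h2 h3)
      (abs_nonneg k)).trans_eq (mul_assoc _ _ _).symm)
    rw [← abs_mul]
    congr 1
    ring

theorem yi_parts (hf : Hb f) (hg : Hb g) (hab : a ≤ b) :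
    yi f g a b + yi g f a b = f b * g b - f a * g a := by
  obtain ⟨K, hK⟩ := prim_prim hg hf a b
  obtain ⟨M, hM, -, -, o1, o2⟩ := hf.two hg
  rw [yi_eq hf hg hab (I := fun s => f s * g s - prim g f s)
    ⟨M * M + K, fun s t h1 h2 h3 => ?_⟩]
  · unfold yi
    ring
  · have e1 := abs_le.1 (hK s t h1 h2 h3)
    have e2 : |(f t - f s) * (g t - g s)| ≤ M * tw (t - s) * (M * tw (t - s)) := by
      rw [abs_mul]
      exact mul_le_mul (endya_inc o1 h2) (endya_inc o2 h2) (abs_nonneg _)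
        ((abs_nonneg _).trans (endya_inc o1 h2))
    have e3 := abs_le.1 e2
    rw [abs_le]
    constructor <;> linarith [e1.1, e1.2, e3.1, e3.2]

theorem yi_subst {u w : ℝ → ℝ} (hf : Hb f) (hu : Hb u) (hg : Hb g) (hw : Hb w) (hab : a ≤ b)
    (h : Prim u g w a b) : yi f w a b = yi (fun s => f s * u s) g a b := by
  obtain ⟨K, hK⟩ := prim_prim hf hw a b
  obtain ⟨K', hK'⟩ := h
  obtain ⟨M, hM, h0, -⟩ := id hf
  refine (yi_eq (hf.mul hu) hg hab (I := prim f w) ⟨K + M * K', fun s t h1 h2 h3 => ?_⟩).symm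
  have e1 := abs_le.1 (hK s t h1 h2 h3)
  have e2 : |f s * (w t - w s - u s * (g t - g s))| ≤ M * (K' * tw (t - s) ^ 2) := by
    rw [abs_mul]
    exact mul_le_mul (h0 s) (hK' s t h1 h2 h3) (abs_nonneg _) hM
  have e3 := abs_le.1 e2
  rw [abs_le]
  constructor <;> linarith [e1.1, e1.2, e3.1, e3.2]

theorem yi_chain {F : ℝ → ℝ} (hF : ContDiff ℝ ∞ F) (hg : Hb g) (hab : a ≤ b) :
    yi (fun s => F (g s)) g a b = ∫ y in g a..g b, F y := by
  obtain ⟨M, hM, h0, h1⟩ := id hg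
  obtain ⟨L, hL⟩ := (isCompact_Icc (a := -M) (b := M)).exists_bound_of_continuousOn
    (hF.continuous_deriv (by exact_mod_cast le_top)).continuousOn
  have hL0 : 0 ≤ L := (norm_nonneg _).trans (hL 0 ⟨by linarith, hM⟩)
  have hi : ∀ x y, IntervalIntegrable F volume x y := hF.continuous.intervalIntegrable
  rw [yi_eq (hg.comp1 hF) hg hab (I := fun t => ∫ y in g a..g t, F y)
    ⟨L * M * M, fun s t _ h2 _ => ?_⟩, intervalIntegral.integral_same, sub_zero]
  have e1 : (∫ y in g a..g t, F y) - (∫ y in g a..g s, F y) - F (g s) * (g t - g s) =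
      ∫ y in g s..g t, (F y - F (g s)) := by
    rw [intervalIntegral.integral_interval_sub_left (hi _ _) (hi _ _),
      intervalIntegral.integral_sub (hi _ _) intervalIntegrable_const,
      intervalIntegral.integral_const, smul_eq_mul, mul_comm]
  have e2 := endya_inc h1 h2
  have e3 : ∀ y ∈ uIoc (g s) (g t), ‖F y - F (g s)‖ ≤ L * (M * tw (t - s)) := by
    intro y hy
    have hy' := uIoc_subset_uIcc hy
    have m1 : g s ∈ Icc (-M) M := abs_le.1 (h0 s)
    have m2 : y ∈ Icc (-M) M := uIcc_subset_Icc m1 (abs_le.1 (h0 t)) hy'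
    refine ((convex_Icc (-M) M).norm_image_sub_le_of_norm_deriv_le
      (fun x _ => hF.differentiable (by simp) x) hL m1 m2).trans ?_
    exact mul_le_mul_of_nonneg_left ((abs_sub_left_of_mem_uIcc hy').trans e2) hL0
  have e4 := intervalIntegral.norm_integral_le_of_norm_le_const e3
  rw [e1]
  refine e4.trans ((mul_le_mul_of_nonneg_left e2
    (mul_nonneg hL0 ((abs_nonneg _).trans e2))).trans_eq ?_)
  ring

theorem yi_scale (hf : Hb f) (hg : Hb g) (hab : a ≤ b) (m : ℝ) {l : ℝ} (hl : 0 < l)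
    (hf' : Hb fun s => f (m + l * s)) (hg' : Hb fun s => g (m + l * s)) :
    yi (fun s => f (m + l * s)) (fun s => g (m + l * s)) a b = yi f g (m + l * a) (m + l * b) := by
  obtain ⟨K, hK⟩ := prim_prim hf hg (m + l * a) (m + l * b)
  refine yi_eq hf' hg' hab (I := fun t => prim f g (m + l * t))
    ⟨K * tw l ^ 2, fun s t h1 h2 h3 => ?_⟩
  have k : ∀ {x y : ℝ}, x ≤ y → m + l * x ≤ m + l * y := fun h =>
    add_le_add le_rfl (mul_le_mul_of_nonneg_left h hl.le)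
  refine (hK _ _ (k h1) (k h2) (k h3)).trans_eq ?_
  rw [add_sub_add_left_eq_sub, ← mul_sub, tw_mul hl.le (sub_nonneg.2 h2)]
  ring

end Pool.Agent.Bor
end
end

-- part Pool.Agent.P.MP_26ecb7_gt.EndYl
section

noncomputable section
open Set Filter Topology MeasureTheory Metric
open scoped RealInnerProductSpace ContDiff ENNReal

namespace Pool.Agent.Bor

variable {f g f' g' : P → ℝ} {c : P} {r : ℝ}

theorem endyl_isoh (y : ℝ) : Isometry fun s : ℝ => ((s, y) : P) :=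
  Isometry.of_dist_eq fun s t => by simp [Prod.dist_eq]

theorem endyl_isov (x : ℝ) : Isometry fun t : ℝ => ((x, t) : P) :=
  Isometry.of_dist_eq fun s t => by simp [Prod.dist_eq]

theorem endyl_h (hf : Hb f) (y : ℝ) : Hb fun s : ℝ => f (s, y) := hf.iso (endyl_isoh y)

theorem endyl_v (hf : Hb f) (x : ℝ) : Hb fun t : ℝ => f (x, t) := hf.iso (endyl_isov x)

theorem endyl_le (a : ℝ) (hr : 0 < r) : a ≤ a + r := by linarith

theorem yl_split (f g : P → ℝ) (c : P) (r : ℝ) : Add4 (fun c r => yl c r f g) c r := by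
  unfold Add4 yl
  have e1 : c.1 + r / 2 + r / 2 = c.1 + r := by ring
  have e2 : c.2 + r / 2 + r / 2 = c.2 + r := by ring
  simp only [e1, e2]
  have h1 := yi_add3 (fun s => f (s, c.2)) (fun s => g (s, c.2)) c.1 (c.1 + r / 2) (c.1 + r)
  have h2 := yi_add3 (fun s => f (c.1 + r, s)) (fun s => g (c.1 + r, s)) c.2 (c.2 + r / 2)
    (c.2 + r)
  have h3 := yi_add3 (fun s => f (s, c.2 + r)) (fun s => g (s, c.2 + r)) c.1 (c.1 + r / 2)
    (c.1 + r)
  have h4 := yi_add3 (fun s => f (c.1, s)) (fun s => g (c.1, s)) c.2 (c.2 + r / 2) (c.2 + r)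
  linarith

theorem endyl_edge_bound (hf : Hb f) (hg : Hb g) (hr : 0 < r) {Mf Mg F0 : ℝ} (hMf : 0 ≤ Mf)
    (hMg : 0 ≤ Mg) (hf1 : Ho f (sqr c r) Mf) (hg1 : Ho g (sqr c r) Mg)
    (h0 : ∀ x ∈ sqr c r, |f x| ≤ F0) {γ : ℝ → P} {a : ℝ} (e : Edge c r γ a) :
    |yi (fun s => f (γ s)) (fun s => g (γ s)) a (a + r)|
      ≤ 5 * (Mf * Mg) * tw r ^ 2 + F0 * Mg * tw r := by
  have h1 := yi_bound (hf.iso e.1) (hg.iso e.1) (endyl_le a hr) hMf hMg (e.ho hf1) (e.ho hg1)
  have ha : γ a ∈ sqr c r := (e.2 a ⟨le_rfl, endyl_le a hr⟩).2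
  have hb : γ (a + r) ∈ sqr c r := (e.2 (a + r) ⟨endyl_le a hr, le_rfl⟩).2
  have h2 := hg1.osc hMg hb ha
  have h3 := h0 _ ha
  have e1 : a + r - a = r := by ring
  rw [e1] at h1
  have h4 : |f (γ a) * (g (γ (a + r)) - g (γ a))| ≤ F0 * (Mg * tw r) := by
    rw [abs_mul]
    exact mul_le_mul h3 h2 (abs_nonneg _) ((abs_nonneg _).trans h3)
  have h5 := abs_le.1 h1
  have h6 := abs_le.1 h4
  rw [abs_le]
  constructor <;> linarith [h5.1, h5.2, h6.1, h6.2]

theorem yl_bound (hf : Hb f) (hg : Hb g) (hr : 0 < r) {Mf Mg F0 : ℝ} (hMf : 0 ≤ Mf) (hMg : 0 ≤ Mg)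
    (hf1 : Ho f (sqr c r) Mf) (hg1 : Ho g (sqr c r) Mg) (h0 : ∀ x ∈ sqr c r, |f x| ≤ F0) :
    |yl c r f g| ≤ 20 * (Mf * Mg) * tw r ^ 2 + 4 * (F0 * Mg) * tw r := by
  have h1 := abs_le.1 (endyl_edge_bound hf hg hr hMf hMg hf1 hg1 h0 (edge_b c hr.le))
  have h2 := abs_le.1 (endyl_edge_bound hf hg hr hMf hMg hf1 hg1 h0 (edge_r c hr.le))
  have h3 := abs_le.1 (endyl_edge_bound hf hg hr hMf hMg hf1 hg1 h0 (edge_t c hr.le))
  have h4 := abs_le.1 (endyl_edge_bound hf hg hr hMf hMg hf1 hg1 h0 (edge_l c hr.le))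
  unfold yl
  rw [abs_le]
  constructor <;> linarith [h1.1, h1.2, h2.1, h2.2, h3.1, h3.2, h4.1, h4.2]

theorem endyl_edge_congr (hf : Hb f) (hg : Hb g) (hf' : Hb f') (hg' : Hb g') (hr : 0 < r)
    (h1 : ∀ x ∈ frontier (sqr c r), f x = f' x) (h2 : ∀ x ∈ frontier (sqr c r), g x = g' x)
    {γ : ℝ → P} {a : ℝ} (e : Edge c r γ a) :
    yi (fun s => f (γ s)) (fun s => g (γ s)) a (a + r)
      = yi (fun s => f' (γ s)) (fun s => g' (γ s)) a (a + r) :=
  yi_congr (hf.iso e.1) (hg.iso e.1) (hf'.iso e.1) (hg'.iso e.1) (endyl_le a hr)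
    (fun s hs => h1 _ (e.2 s hs).1) (fun s hs => h2 _ (e.2 s hs).1)

theorem yl_congr (hf : Hb f) (hg : Hb g) (hf' : Hb f') (hg' : Hb g') (hr : 0 < r)
    (h1 : ∀ x ∈ frontier (sqr c r), f x = f' x) (h2 : ∀ x ∈ frontier (sqr c r), g x = g' x) :
    yl c r f g = yl c r f' g' := by
  have k1 := endyl_edge_congr hf hg hf' hg' hr h1 h2 (edge_b c hr.le)
  have k2 := endyl_edge_congr hf hg hf' hg' hr h1 h2 (edge_r c hr.le)
  have k3 := endyl_edge_congr hf hg hf' hg' hr h1 h2 (edge_t c hr.le)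
  have k4 := endyl_edge_congr hf hg hf' hg' hr h1 h2 (edge_l c hr.le)
  unfold yl
  linarith
theorem yl_congr' (hf : Hb f) (hg : Hb g) (hf' : Hb f') (hg' : Hb g') (hr : 0 < r)
    (h1 : ∀ x ∈ sqr c r, f x = f' x) (h2 : ∀ x ∈ sqr c r, g x = g' x) :
    yl c r f g = yl c r f' g' :=
  yl_congr hf hg hf' hg' hr
    (fun x hx => h1 x ((sqr_compact c r).isClosed.frontier_subset hx))
    (fun x hx => h2 x ((sqr_compact c r).isClosed.frontier_subset hx))
theorem yl_add (hf : Hb f) (hf' : Hb f') (hg : Hb g) (hr : 0 < r) :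
    yl c r (fun x => f x + f' x) g = yl c r f g + yl c r f' g := by
  have k1 := yi_add (endyl_h hf c.2) (endyl_h hf' c.2) (endyl_h hg c.2) (endyl_le c.1 hr)
  have k2 := yi_add (endyl_v hf (c.1 + r)) (endyl_v hf' (c.1 + r)) (endyl_v hg (c.1 + r))
    (endyl_le c.2 hr)
  have k3 := yi_add (endyl_h hf (c.2 + r)) (endyl_h hf' (c.2 + r)) (endyl_h hg (c.2 + r))
    (endyl_le c.1 hr)
  have k4 := yi_add (endyl_v hf c.1) (endyl_v hf' c.1) (endyl_v hg c.1) (endyl_le c.2 hr)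
  unfold yl
  linarith
theorem endyl_mul (k : ℝ) (hf : Hb f) (hg : Hb g) (hr : 0 < r) :
    yl c r (fun x => k * f x) g = k * yl c r f g := by
  have k1 := yi_mul k (endyl_h hf c.2) (endyl_h hg c.2) (endyl_le c.1 hr)
  have k2 := yi_mul k (endyl_v hf (c.1 + r)) (endyl_v hg (c.1 + r)) (endyl_le c.2 hr)
  have k3 := yi_mul k (endyl_h hf (c.2 + r)) (endyl_h hg (c.2 + r)) (endyl_le c.1 hr)
  have k4 := yi_mul k (endyl_v hf c.1) (endyl_v hg c.1) (endyl_le c.2 hr)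
  unfold yl
  linarith
theorem yl_sub (hf : Hb f) (hf' : Hb f') (hg : Hb g) (hr : 0 < r) :
    yl c r (fun x => f x - f' x) g = yl c r f g - yl c r f' g := by
  have e : (fun x => f x - f' x) = fun x => f x + (-1) * f' x := by
    funext x; ring
  rw [e, yl_add hf (hf'.const_mul (-1)) hg hr, endyl_mul (-1) hf' hg hr]
  ring
theorem yl_mul (k : ℝ) (hf : Hb f) (hg : Hb g) (hr : 0 < r) :
    yl c r (fun x => k * f x) g = k * yl c r f g := endyl_mul k hf hg hr
theorem yl_const (k : ℝ) (hg : Hb g) (hr : 0 < r) : yl c r (fun _ => k) g = 0 := by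
  have k1 := yi_const k (endyl_h hg c.2) (endyl_le c.1 hr)
  have k2 := yi_const k (endyl_v hg (c.1 + r)) (endyl_le c.2 hr)
  have k3 := yi_const k (endyl_h hg (c.2 + r)) (endyl_le c.1 hr)
  have k4 := yi_const k (endyl_v hg c.1) (endyl_le c.2 hr)
  unfold yl
  linarith
theorem yl_right (k m : ℝ) (hf : Hb f) (hg : Hb g) (hr : 0 < r) :
    yl c r f (fun x => k * (g x - m)) = k * yl c r f g := by
  have k1 := yi_right k m (endyl_h hf c.2) (endyl_h hg c.2) (endyl_le c.1 hr)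
  have k2 := yi_right k m (endyl_v hf (c.1 + r)) (endyl_v hg (c.1 + r)) (endyl_le c.2 hr)
  have k3 := yi_right k m (endyl_h hf (c.2 + r)) (endyl_h hg (c.2 + r)) (endyl_le c.1 hr)
  have k4 := yi_right k m (endyl_v hf c.1) (endyl_v hg c.1) (endyl_le c.2 hr)
  unfold yl
  linarith
theorem yl_parts (hf : Hb f) (hg : Hb g) (hr : 0 < r) : yl c r f g = - yl c r g f := by
  have k1 := yi_parts (endyl_h hf c.2) (endyl_h hg c.2) (endyl_le c.1 hr)
  have k2 := yi_parts (endyl_v hf (c.1 + r)) (endyl_v hg (c.1 + r)) (endyl_le c.2 hr)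
  have k3 := yi_parts (endyl_h hf (c.2 + r)) (endyl_h hg (c.2 + r)) (endyl_le c.1 hr)
  have k4 := yi_parts (endyl_v hf c.1) (endyl_v hg c.1) (endyl_le c.2 hr)
  unfold yl
  linarith

theorem endyl_edge_subst {u w : P → ℝ} (hf : Hb f) (hu : Hb u) (hg : Hb g) (hw : Hb w)
    (hr : 0 < r) {K : ℝ}
    (h : ∀ x ∈ sqr c r, ∀ y ∈ sqr c r, |w y - w x - u x * (g y - g x)| ≤ K * tw (dist x y) ^ 2)
    {γ : ℝ → P} {a : ℝ} (e : Edge c r γ a) :
    yi (fun s => f (γ s)) (fun s => w (γ s)) a (a + r)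
      = yi (fun s => f (γ s) * u (γ s)) (fun s => g (γ s)) a (a + r) := by
  refine yi_subst (hf.iso e.1) (hu.iso e.1) (hg.iso e.1) (hw.iso e.1) (endyl_le a hr) ⟨K, ?_⟩
  intro s t hs hst ht
  have k := h (γ s) (e.2 s ⟨hs, hst.trans ht⟩).2 (γ t) (e.2 t ⟨hs.trans hst, ht⟩).2
  have d : dist (γ s) (γ t) = t - s := by
    rw [e.1.dist_eq, Real.dist_eq, abs_sub_comm, abs_of_nonneg (by linarith)]
  rw [d] at k
  exact k

theorem yl_subst {u w : P → ℝ} (hf : Hb f) (hu : Hb u) (hg : Hb g) (hw : Hb w) (hr : 0 < r) {K : ℝ}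
    (h : ∀ x ∈ sqr c r, ∀ y ∈ sqr c r, |w y - w x - u x * (g y - g x)| ≤ K * tw (dist x y) ^ 2) :
    yl c r f w = yl c r (fun x => f x * u x) g := by
  have k1 := endyl_edge_subst hf hu hg hw hr h (edge_b c hr.le)
  have k2 := endyl_edge_subst hf hu hg hw hr h (edge_r c hr.le)
  have k3 := endyl_edge_subst hf hu hg hw hr h (edge_t c hr.le)
  have k4 := endyl_edge_subst hf hu hg hw hr h (edge_l c hr.le)
  unfold yl
  linarith
theorem yl_chain {F : ℝ → ℝ} (hF : ContDiff ℝ ∞ F) (hg : Hb g) (hr : 0 < r) :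
    yl c r (fun x => F (g x)) g = 0 := by
  have k1 := yi_chain hF (endyl_h hg c.2) (endyl_le c.1 hr)
  have k2 := yi_chain hF (endyl_v hg (c.1 + r)) (endyl_le c.2 hr)
  have k3 := yi_chain hF (endyl_h hg (c.2 + r)) (endyl_le c.1 hr)
  have k4 := yi_chain hF (endyl_v hg c.1) (endyl_le c.2 hr)
  have hi : ∀ a b : ℝ, IntervalIntegrable F volume a b := fun a b =>
    hF.continuous.intervalIntegrable a b
  have a1 := intervalIntegral.integral_add_adjacent_intervals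
    (hi (g (c.1, c.2)) (g (c.1 + r, c.2))) (hi (g (c.1 + r, c.2)) (g (c.1 + r, c.2 + r)))
  have a2 := intervalIntegral.integral_add_adjacent_intervals
    (hi (g (c.1, c.2)) (g (c.1, c.2 + r))) (hi (g (c.1, c.2 + r)) (g (c.1 + r, c.2 + r)))
  unfold yl
  linarith
theorem yl_sq (hf : Hb f) (hg : Hb g) (hr : 0 < r) :
    yl c r (fun x => g x * g x) f = -2 * yl c r (fun x => f x * g x) g := by
  obtain ⟨M, hM, -, hH⟩ := id hg
  have h1 : yl c r f (fun x => g x * g x) = yl c r (fun x => f x * (2 * g x)) g := by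
    refine yl_subst (K := M ^ 2) hf (hg.const_mul 2) hg (hg.mul hg) hr ?_
    intro x _ y _
    have k := hH y (mem_univ _) x (mem_univ _)
    rw [dist_comm] at k
    have e : g y * g y - g x * g x - 2 * g x * (g y - g x) = (g y - g x) ^ 2 := by ring
    rw [e, abs_pow, ← mul_pow]
    exact pow_le_pow_left₀ (abs_nonneg _) k 2
  have e : (fun x => f x * (2 * g x)) = fun x => 2 * (f x * g x) := by
    funext x; ring
  rw [yl_parts (hg.mul hg) hf hr, h1, e, yl_mul 2 (hf.mul hg) hg hr]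
  ring

theorem endyl_scale_h (hf : Hb f) (hg : Hb g) (m : P) {l : ℝ} (hl : 0 < l) (y : ℝ) {a b : ℝ}
    (hab : a ≤ b) :
    yi (fun s => f (m + l • ((s, y) : P))) (fun s => g (m + l • ((s, y) : P))) a b
      = yi (fun s => f (s, m.2 + l * y)) (fun s => g (s, m.2 + l * y)) (m.1 + l * a)
        (m.1 + l * b) :=
  yi_scale (endyl_h hf (m.2 + l * y)) (endyl_h hg (m.2 + l * y)) hab m.1 hl
    (endyl_h (hf.affine m hl) y) (endyl_h (hg.affine m hl) y)

theorem endyl_scale_v (hf : Hb f) (hg : Hb g) (m : P) {l : ℝ} (hl : 0 < l) (x : ℝ) {a b : ℝ}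
    (hab : a ≤ b) :
    yi (fun s => f (m + l • ((x, s) : P))) (fun s => g (m + l • ((x, s) : P))) a b
      = yi (fun s => f (m.1 + l * x, s)) (fun s => g (m.1 + l * x, s)) (m.2 + l * a)
        (m.2 + l * b) :=
  yi_scale (endyl_v hf (m.1 + l * x)) (endyl_v hg (m.1 + l * x)) hab m.2 hl
    (endyl_v (hf.affine m hl) x) (endyl_v (hg.affine m hl) x)

theorem yl_scale (hf : Hb f) (hg : Hb g) (hr : 0 < r) (m : P) {l : ℝ} (hl : 0 < l) :
    yl c r (fun x => f (m + l • x)) (fun x => g (m + l • x)) = yl (m + l • c) (l * r) f g := by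
  have k1 := endyl_scale_h hf hg m hl c.2 (endyl_le c.1 hr)
  have k2 := endyl_scale_v hf hg m hl (c.1 + r) (endyl_le c.2 hr)
  have k3 := endyl_scale_h hf hg m hl (c.2 + r) (endyl_le c.1 hr)
  have k4 := endyl_scale_v hf hg m hl c.1 (endyl_le c.2 hr)
  have e1 : m.1 + l * (c.1 + r) = m.1 + l * c.1 + l * r := by ring
  have e2 : m.2 + l * (c.2 + r) = m.2 + l * c.2 + l * r := by ring
  have e3 : (m + l • c).1 = m.1 + l * c.1 := rfl
  have e4 : (m + l • c).2 = m.2 + l * c.2 := rfl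
  simp only [e1, e2] at k1 k2 k3 k4
  unfold yl
  simp only [e3, e4]
  linarith
/-- change of the base point -/
theorem yl_centre (hf : Hb f) (hg : Hb g) (hr : 0 < r) (h : yl c r f g = 0) (a b : ℝ) :
    yl c r (fun x => (g x - a) * (f x - b)) g = yl c r (fun x => g x * f x) g ∧
    yl c r (fun x => (f x - b) * (f x - b)) g = yl c r (fun x => f x * f x) g := by
  have h0 : yl c r g g = 0 := yl_chain (F := fun y => y) contDiff_id hg hr
  constructor
  · have e : (fun x => (g x - a) * (f x - b))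
        = fun x => ((g x * f x - b * g x) - a * f x) + a * b := by
      funext x; ring
    rw [e, yl_add (((hg.mul hf).sub (hg.const_mul b)).sub (hf.const_mul a)) (Hb.const _) hg hr,
      yl_sub ((hg.mul hf).sub (hg.const_mul b)) (hf.const_mul a) hg hr,
      yl_sub (hg.mul hf) (hg.const_mul b) hg hr, yl_mul b hg hg hr, yl_mul a hf hg hr,
      yl_const _ hg hr, h, h0]
    ring
  · have e : (fun x => (f x - b) * (f x - b))
        = fun x => (f x * f x - (2 * b) * f x) + b * b := by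
      funext x; ring
    rw [e, yl_add ((hf.mul hf).sub (hf.const_mul _)) (Hb.const _) hg hr,
      yl_sub (hf.mul hf) (hf.const_mul _) hg hr, yl_mul _ hf hg hr, yl_const _ hg hr, h]
    ring
/-- cubic terms -/
theorem yl_cubic {u v : P → ℝ} (hu : Hb u) (hv : Hb v) (hg : Hb g) : ∃ C, 0 ≤ C ∧ ∀ c r, 0 < r →
    |yl c r (fun x => (u x - u c) * (v x - v c)) g| ≤ C * r ^ 2 := by
  obtain ⟨M, hM, -, -, hu1, hv1⟩ := hu.two hv
  obtain ⟨N, hN, -, hg1⟩ := id hg
  refine ⟨44 * M ^ 2 * N, by positivity, fun c r hr => ?_⟩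
  have ht := tw_nonneg hr.le
  have hu2 : Ho u (sqr c r) M := hu1.mono (subset_univ _) le_rfl
  have hv2 : Ho v (sqr c r) M := hv1.mono (subset_univ _) le_rfl
  have hg2 : Ho g (sqr c r) N := hg1.mono (subset_univ _) le_rfl
  have hc : c ∈ sqr c r := corner_mem hr.le
  have hu3 : ∀ x ∈ sqr c r, |u x - u c| ≤ M * tw r := fun x hx => hu2.osc hM hx hc
  have hv3 : ∀ x ∈ sqr c r, |v x - v c| ≤ M * tw r := fun x hx => hv2.osc hM hx hc
  have hp := (hu2.sub_const (u c)).mul (hv2.sub_const (v c)) hu3 hv3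
  have h0 : ∀ x ∈ sqr c r, |(u x - u c) * (v x - v c)| ≤ M * tw r * (M * tw r) := by
    intro x hx
    rw [abs_mul]
    exact mul_le_mul (hu3 x hx) (hv3 x hx) (abs_nonneg _) (by positivity)
  have k := yl_bound ((hu.sub (Hb.const _)).mul (hv.sub (Hb.const _))) hg hr (by positivity) hN
    hp hg2 h0
  refine k.trans (le_of_eq ?_)
  rw [← tw_cube hr.le]
  ring

end Pool.Agent.Bor
end
end

-- part Pool.Agent.P.MP_26ecb7_gt.EndTay
section

noncomputable section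
open Set Filter Topology MeasureTheory Metric
open scoped RealInnerProductSpace ContDiff ENNReal

namespace Pool.Agent.Bor

theorem endtay_symm {Y : Type} [NormedAddCommGroup Y] [NormedSpace ℝ Y] {G : Y → ℝ}
    (hG : ContDiff ℝ ∞ G) (y u v : Y) :
    fderiv ℝ (fderiv ℝ G) y u v = fderiv ℝ (fderiv ℝ G) y v u :=
  (hG.contDiffAt.isSymmSndFDerivAt (by
    rw [minSmoothness_of_isRCLikeNormedField]
    exact WithTop.coe_le_coe.2 (le_top : (2 : ℕ∞) ≤ ⊤))).eq _ _

theorem endtay_quad {Y : Type} [NormedAddCommGroup Y] [NormedSpace ℝ Y] (B : Y →L[ℝ] Y →L[ℝ] ℝ)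
    (hB : ∀ u v, B u v = B v u) (y0 y : Y) :
    HasFDerivAt (fun z => 1 / 2 * B (z - y0) (z - y0)) (B (y - y0)) y := by
  have h1 : HasFDerivAt (fun z : Y => z - y0) (ContinuousLinearMap.id ℝ Y) y :=
    (hasFDerivAt_id y).sub_const y0
  refine ((B.hasFDerivAt_of_bilinear h1 h1).const_mul (1 / 2 : ℝ)).congr_fderiv ?_
  ext v
  simp [hB v y, hB v y0]
  ring

/-- second order Taylor remainder, uniformly on bounded sets -/
theorem exists_tay {Y : Type} [NormedAddCommGroup Y] [NormedSpace ℝ Y] [FiniteDimensional ℝ Y]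
    {G : Y → ℝ} (hG : ContDiff ℝ ∞ G) (ρ : ℝ) : ∃ Λ, 0 ≤ Λ ∧ ∀ (y0 y y' : Y) (O : ℝ), ‖y0‖ ≤ ρ →
      ‖y‖ ≤ ρ → ‖y'‖ ≤ ρ → ‖y - y0‖ ≤ O → ‖y' - y0‖ ≤ O →
      |(G y - fderiv ℝ G y0 (y - y0) - 1 / 2 * fderiv ℝ (fderiv ℝ G) y0 (y - y0) (y - y0))
        - (G y' - fderiv ℝ G y0 (y' - y0) - 1 / 2 * fderiv ℝ (fderiv ℝ G) y0 (y' - y0) (y' - y0))|
        ≤ Λ * O ^ 2 * ‖y - y'‖ := by
  have hG1 : ContDiff ℝ ∞ (fderiv ℝ G) := hG.fderiv_right (m := ∞) (by simp)
  have hG2 : ContDiff ℝ ∞ (fderiv ℝ (fderiv ℝ G)) := hG1.fderiv_right (m := ∞) (by simp)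
  obtain ⟨C, hC⟩ := (isCompact_closedBall (0 : Y) ρ).exists_bound_of_continuousOn
    (hG2.continuous_fderiv (by simp)).continuousOn
  have hl : ∀ z ∈ closedBall (0 : Y) ρ, ∀ z' ∈ closedBall (0 : Y) ρ,
      ‖fderiv ℝ (fderiv ℝ G) z - fderiv ℝ (fderiv ℝ G) z'‖ ≤ max C 0 * ‖z - z'‖ :=
    fun z hz z' hz' => (convex_closedBall _ _).norm_image_sub_le_of_norm_fderiv_le
      (fun x _ => hG2.differentiable (by simp) x) (fun x hx => (hC x hx).trans (le_max_left _ _))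
      hz' hz
  refine ⟨max C 0, le_max_right _ _, fun y0 y y' O h0 hy hy' hO hO' => ?_⟩
  have hO0 : 0 ≤ O := (norm_nonneg _).trans hO
  have hS : Convex ℝ (closedBall y0 O ∩ closedBall (0 : Y) ρ) :=
    (convex_closedBall _ _).inter (convex_closedBall _ _)
  have hm : ∀ z : Y, ‖z - y0‖ ≤ O → ‖z‖ ≤ ρ → z ∈ closedBall y0 O ∩ closedBall (0 : Y) ρ :=
    fun z h1 h2 => ⟨mem_closedBall_iff_norm.2 h1, mem_closedBall_zero_iff.2 h2⟩
  have hy0 := hm y0 (by simpa using hO0) h0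
  have h1 : ∀ z ∈ closedBall y0 O ∩ closedBall (0 : Y) ρ,
      ‖fderiv ℝ G z - fderiv ℝ G y0 - fderiv ℝ (fderiv ℝ G) y0 (z - y0)‖ ≤ max C 0 * O ^ 2 := by
    intro z hz
    have h2 := hS.norm_image_sub_le_of_norm_fderiv_le' (f := fderiv ℝ G)
      (φ := fderiv ℝ (fderiv ℝ G) y0) (C := max C 0 * O)
      (fun x _ => hG1.differentiable (by simp) x) (fun x hx => (hl x hx.2 y0 hy0.2).trans
        (mul_le_mul_of_nonneg_left (mem_closedBall_iff_norm.1 hx.1) (le_max_right _ _))) hy0 hz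
    refine h2.trans ?_
    rw [pow_two, ← mul_assoc]
    exact mul_le_mul_of_nonneg_left (mem_closedBall_iff_norm.1 hz.1)
      (mul_nonneg (le_max_right _ _) hO0)
  have hd : ∀ z, HasFDerivAt (fun z => G z - fderiv ℝ G y0 (z - y0)
      - 1 / 2 * fderiv ℝ (fderiv ℝ G) y0 (z - y0) (z - y0))
      (fderiv ℝ G z - fderiv ℝ G y0 - fderiv ℝ (fderiv ℝ G) y0 (z - y0)) z := fun z => by
    refine ((hG.differentiable (by simp) z).hasFDerivAt.sub ?_).sub
      (endtay_quad _ (endtay_symm hG y0) y0 z)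
    exact (fderiv ℝ G y0).hasFDerivAt.comp z ((hasFDerivAt_id z).sub_const y0)
  exact hS.norm_image_sub_le_of_norm_hasFDerivWithin_le (fun z _ => (hd z).hasFDerivWithinAt) h1
    (hm y' hO' hy') (hm y hO hy)

/-- expansion of a loop integral -/
theorem exp_gen {Y : Type} [NormedAddCommGroup Y] [NormedSpace ℝ Y] [FiniteDimensional ℝ Y]
    {G : Y → ℝ} (hG : ContDiff ℝ ∞ G) {f : P → Y} {M : ℝ} (hM : 0 ≤ M) (h0 : ∀ x, ‖f x‖ ≤ M)
    (h1 : ∀ x y, ‖f x - f y‖ ≤ M * tw (dist x y)) {g : P → ℝ} (hg : Hb g) :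
    ∃ C, ∀ c r, 0 < r → |yl c r (fun x => G (f x)) g
      - yl c r (fun x => fderiv ℝ G (f c) (f x - f c)
        + 1 / 2 * fderiv ℝ (fderiv ℝ G) (f c) (f x - f c) (f x - f c)) g| ≤ C * tw r ^ 4 := by
  obtain ⟨Λ, hΛ, hT⟩ := exists_tay hG M
  obtain ⟨N, hN, -, hgN⟩ := id hg
  refine ⟨24 * (Λ * M ^ 3 * N), fun c r hr => ?_⟩
  have ht := tw_nonneg hr.le
  have hA : Hb fun x => G (f x) := Hb.compv (hG.of_le (by exact_mod_cast le_top)) hM h0 h1
  have hB : Hb fun x => fderiv ℝ G (f c) (f x - f c)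
      + 1 / 2 * fderiv ℝ (fderiv ℝ G) (f c) (f x - f c) (f x - f c) :=
    Hb.compv (G := fun y => fderiv ℝ G (f c) (y - f c)
      + 1 / 2 * fderiv ℝ (fderiv ℝ G) (f c) (y - f c) (y - f c)) (by fun_prop) hM h0 h1
  have hO : ∀ x ∈ sqr c r, ‖f x - f c‖ ≤ M * tw r := fun x hx => (h1 x c).trans
    (mul_le_mul_of_nonneg_left (tw_mono dist_nonneg (dist_le_of_sqr hx (corner_mem hr.le))) hM)
  have hR : Ho (fun x => G (f x) - (fderiv ℝ G (f c) (f x - f c)
      + 1 / 2 * fderiv ℝ (fderiv ℝ G) (f c) (f x - f c) (f x - f c)) - G (f c)) (sqr c r)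
      (Λ * (M * tw r) ^ 2 * M) := fun x hx y hy => by
    have h2 := hT (f c) (f x) (f y) _ (h0 c) (h0 x) (h0 y) (hO x hx) (hO y hy)
    have h3 := mul_le_mul_of_nonneg_left (h1 x y) (mul_nonneg hΛ (sq_nonneg (M * tw r)))
    refine le_trans (le_of_eq (congrArg abs (by ring))) (h2.trans (h3.trans (le_of_eq (by ring))))
  have hR0 : ∀ x ∈ sqr c r, |G (f x) - (fderiv ℝ G (f c) (f x - f c)
      + 1 / 2 * fderiv ℝ (fderiv ℝ G) (f c) (f x - f c) (f x - f c)) - G (f c)|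
      ≤ Λ * (M * tw r) ^ 2 * M * tw r := fun x hx => by
    simpa using hR.osc (by positivity) hx (corner_mem hr.le)
  have h4 := yl_bound ((hA.sub hB).sub (Hb.const (G (f c)))) hg hr (by positivity) hN hR
    (hgN.mono (subset_univ _) le_rfl) hR0
  rw [yl_sub (hA.sub hB) (Hb.const _) hg hr, yl_const _ hg hr, sub_zero, yl_sub hA hB hg hr] at h4
  exact h4.trans (le_of_eq (by ring))

theorem endtay_pd {T : P → ℝ} (hT : ContDiff ℝ ∞ T) (y u : P) :
    fderiv ℝ (fderiv ℝ T) y u u = u.1 * u.1 * pd 0 (pd 0 T) y + 2 * (u.2 * u.1) * pd 0 (pd 1 T) y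
      + u.2 * u.2 * pd 1 (pd 1 T) y := by
  have h1 : Differentiable ℝ (fderiv ℝ T) :=
    (hT.fderiv_right (m := ∞) (by simp)).differentiable (by simp)
  have h2 : ∀ i j, pd i (pd j T) y = fderiv ℝ (fderiv ℝ T) y (e2 i) (e2 j) := fun i j => by
    show fderiv ℝ (fun z => fderiv ℝ T z (e2 j)) y (e2 i) = _
    rw [fderiv_clm_apply (h1 y) (differentiableAt_const _)]
    simp
  have e : u = u.1 • e2 0 + u.2 • e2 1 := by simp [e2]
  rw [h2, h2, h2]
  nth_rewrite 1 [e]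
  nth_rewrite 3 [e]
  simp only [map_add, map_smul, add_apply, smul_apply,
    smul_eq_mul, endtay_symm hT y (e2 1) (e2 0)]
  ring

theorem exp2 {T : P → ℝ} (hT : ContDiff ℝ ∞ T) {a b : P → ℝ} (ha : Hb a) (hb : Hb b) :
    ∃ C, ∀ c r, 0 < r → |yl c r (fun x => T (a x, b x)) b - pd 0 T (a c, b c) * yl c r a b
      - 1 / 2 * pd 0 (pd 0 T) (a c, b c) * yl c r (fun x => (a x - a c) * (a x - a c)) b
      - pd 0 (pd 1 T) (a c, b c) * yl c r (fun x => (b x - b c) * (a x - a c)) b|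
      ≤ C * tw r ^ 4 := by
  obtain ⟨M, hM, h0, h1⟩ := ha.pair hb
  obtain ⟨C, hC⟩ := exp_gen hT (f := fun x => ((a x, b x) : P)) hM h0 h1 hb
  refine ⟨C, fun c r hr => ?_⟩
  have h := hC c r hr
  have ha' := ha.sub (Hb.const (a c))
  have hb' := hb.sub (Hb.const (b c))
  have hF : ContDiff ℝ ∞ fun s : ℝ => pd 1 T (a c, b c) * (s - b c)
      + 1 / 2 * pd 1 (pd 1 T) (a c, b c) * ((s - b c) * (s - b c)) := by fun_prop
  have e : (fun x => fderiv ℝ T (a c, b c) ((a x, b x) - (a c, b c))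
      + 1 / 2 * fderiv ℝ (fderiv ℝ T) (a c, b c) ((a x, b x) - (a c, b c))
        ((a x, b x) - (a c, b c))) = fun x => pd 0 T (a c, b c) * (a x - a c)
      + 1 / 2 * pd 0 (pd 0 T) (a c, b c) * ((a x - a c) * (a x - a c))
      + pd 0 (pd 1 T) (a c, b c) * ((b x - b c) * (a x - a c))
      + (pd 1 T (a c, b c) * (b x - b c)
        + 1 / 2 * pd 1 (pd 1 T) (a c, b c) * ((b x - b c) * (b x - b c))) := by
    funext x
    rw [endtay_pd hT, fderiv_eq_pd]
    simp only [Prod.fst_sub, Prod.snd_sub, smul_eq_mul]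
    ring
  have k1 := ha'.const_mul (pd 0 T (a c, b c))
  have k2 := (ha'.mul ha').const_mul (1 / 2 * pd 0 (pd 0 T) (a c, b c))
  have k3 := (hb'.mul ha').const_mul (pd 0 (pd 1 T) (a c, b c))
  rw [e, yl_add ((k1.add k2).add k3) (hb.comp1 hF) hb hr, yl_add (k1.add k2) k3 hb hr,
    yl_add k1 k2 hb hr, yl_chain hF hb hr, yl_mul _ ha' hb hr, yl_mul _ (ha'.mul ha') hb hr,
    yl_mul _ (hb'.mul ha') hb hr, yl_sub ha (Hb.const _) hb hr, yl_const _ hb hr] at h
  exact le_trans (le_of_eq (congrArg abs (by ring))) h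

end Pool.Agent.Bor
end
end

-- part Pool.Agent.P.MP_26ecb7_gt.EndHl
section

noncomputable section
open Set Filter Topology MeasureTheory Metric
open scoped RealInnerProductSpace ContDiff ENNReal

namespace Pool.Agent.Bor

/-- the second order operator in the Green formula on the Heisenberg group -/
def hop (G : ℝ × ℝ × ℝ → ℝ) (y : ℝ × ℝ × ℝ) : ℝ :=
  fderiv ℝ (fderiv ℝ G) y (1, 0, - y.2.1) (0, 1, 0) + fderiv ℝ G y (0, 0, 1)

theorem endhl_prod {ρ u g : P → ℝ} (hρ : Hb ρ) (hu : Hb u) (hg : Hb g) {c : P} {r N M : ℝ}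
    (hr : 0 < r) (hN : 0 ≤ N) (hM : 0 ≤ M) (hg1 : Ho g (sqr c r) M)
    (a0 : ∀ x ∈ sqr c r, |ρ x| ≤ N * tw r ^ 2) (a1 : Ho ρ (sqr c r) (N * tw r))
    (b0 : ∀ x ∈ sqr c r, |u x| ≤ N * tw r) (b1 : Ho u (sqr c r) N) :
    |yl c r (fun x => ρ x * u x) g| ≤ 44 * (N ^ 2 * M) * tw r ^ 4 := by
  have ht := tw_nonneg hr.le
  have h := yl_bound (F0 := N * tw r ^ 2 * (N * tw r)) (hρ.mul hu) hg hr (by positivity) hM
    (a1.mul b1 a0 b0) hg1 (fun x hx => by
      rw [abs_mul]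
      exact mul_le_mul (a0 x hx) (b0 x hx) (abs_nonneg _) (by positivity))
  refine h.trans (le_of_eq ?_)
  ring

theorem endhl_poly (L : (ℝ × ℝ × ℝ) →L[ℝ] ℝ) (B : (ℝ × ℝ × ℝ) →L[ℝ] (ℝ × ℝ × ℝ) →L[ℝ] ℝ)
    (hB : ∀ a b, B a b = B b a) (v e2 e3 : ℝ × ℝ × ℝ) (a b d : ℝ) :
    L (a • v + b • e2 + d • e3) + 1 / 2 * B (a • v + b • e2 + d • e3) (a • v + b • e2 + d • e3)
      = (L v * a + 1 / 2 * B v v * (a * a)) + L e2 * b + L e3 * d + B v e2 * (a * b)
        + 1 / 2 * B e2 e2 * (b * b) + B v e3 * (d * a) + B e2 e3 * (d * b)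
        + 1 / 2 * B e3 e3 * (d * d) := by
  simp only [map_add, map_smul, _root_.add_apply, _root_.smul_apply,
    smul_eq_mul, hB e2 v, hB e3 v, hB e3 e2]
  ring

theorem endhl_rho {q1 q2 w : P → ℝ} {A C : ℝ} (D : Ld q1 q2 w A C) {c : P} {r : ℝ} (h : Dy c r) :
    yl c r (fun x => w x - w c + q2 c * (q1 x - q1 c)) q1 = -A * r ^ 2 := by
  have hr := h.pos
  have e1 : yl c r (fun x => q1 x - q1 c) q1 = 0 :=
    yl_chain (F := fun s => s - q1 c) (by fun_prop) D.h1 hr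
  rw [yl_add (D.hw.sub (Hb.const _)) ((D.h1.sub (Hb.const _)).const_mul _) D.h1 hr,
    yl_mul _ (D.h1.sub (Hb.const _)) D.h1 hr, e1, yl_sub D.hw (Hb.const _) D.h1 hr,
    yl_const _ D.h1 hr, yl_parts D.hw D.h1 hr,
    yl_subst (u := fun x => - q2 x) (K := C) D.h1 D.h2.neg D.h1 D.hw hr (fun x hx y hy => by
      have := D.lift x (h.sub hx) y (h.sub hy)
      rwa [neg_mul, sub_neg_eq_add])]
  have e2 : (fun x => q1 x * -q2 x) = fun x => -1 * (q1 x * q2 x) := by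
    funext x; ring
  rw [e2, yl_mul _ (D.h1.mul D.h2) D.h1 hr, D.z1 c r h]
  ring

theorem Ld.hg_loc {q1 q2 w : P → ℝ} {A C : ℝ} (D : Ld q1 q2 w A C) {G : ℝ × ℝ × ℝ → ℝ}
    (hG : ContDiff ℝ ∞ G) : ∃ K, ∀ c r, Dy c r →
      |yl c r (fun x => G (q1 x, q2 x, w x)) q1 + A * r ^ 2 * hop G (q1 c, q2 c, w c)|
        ≤ K * tw r ^ 4 := by
  obtain ⟨M0, hM0, b0, b1⟩ := D.h1.triple D.h2 D.hw
  obtain ⟨K0, hK0⟩ := exp_gen hG (f := fun x => (q1 x, q2 x, w x)) hM0 b0 b1 D.h1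
  obtain ⟨M, hM, -, m2, o1, o2⟩ := D.h1.two D.h2
  have hC := D.C_nonneg
  have hcont : Continuous (fderiv ℝ (fderiv ℝ G)) :=
    (hG.fderiv_right (m := ∞) (by simp)).continuous_fderiv (by simp)
  obtain ⟨Λ, hΛ⟩ := (isCompact_closedBall (0 : ℝ × ℝ × ℝ) M0).exists_bound_of_continuousOn
    (E := (ℝ × ℝ × ℝ) →L[ℝ] (ℝ × ℝ × ℝ) →L[ℝ] ℝ) (f := fderiv ℝ (fderiv ℝ G)) hcont.continuousOn
  have hΛ0 : 0 ≤ Λ := (norm_nonneg _).trans (hΛ 0 (mem_closedBall_self hM0))
  set N := M + C + M ^ 2 with hN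
  have hN0 : 0 ≤ N := by positivity
  refine ⟨K0 + 3 * (Λ * (1 + M)) * (44 * (N ^ 2 * M)), fun c r h => ?_⟩
  have hr := h.pos
  have ht := tw_nonneg hr.le
  have ht1 := tw_le_one hr.le h.le_one
  have hc : c ∈ sqr c r := corner_mem hr.le
  have hd : ∀ x ∈ sqr c r, ∀ y ∈ sqr c r, tw (dist x y) ≤ tw r := fun x hx y hy =>
    tw_mono dist_nonneg (dist_le_of_sqr hx hy)
  set L := fderiv ℝ G (q1 c, q2 c, w c) with hL
  set B := fderiv ℝ (fderiv ℝ G) (q1 c, q2 c, w c) with hB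
  have hsym : ∀ a b, B a b = B b a := fun a b =>
    (hG.contDiffAt.isSymmSndFDerivAt (by
      rw [minSmoothness_of_isRCLikeNormedField]
      exact WithTop.coe_le_coe.2 (le_top : (2 : ℕ∞) ≤ ⊤))) a b
  have hBn : ‖B‖ ≤ Λ := hΛ _ (mem_closedBall_zero_iff.2 (b0 c))
  have hco : ∀ a b : ℝ × ℝ × ℝ, ‖a‖ ≤ 1 + M → ‖b‖ ≤ 1 → |B a b| ≤ Λ * (1 + M) := by
    intro a b ha hb
    calc |B a b| ≤ ‖B‖ * ‖a‖ * ‖b‖ := B.le_opNorm₂ a b
      _ ≤ Λ * (1 + M) * 1 := by gcongr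
      _ = _ := mul_one _
  have n2 : ‖((0, 1, 0) : ℝ × ℝ × ℝ)‖ ≤ 1 := by simp [Prod.norm_def]
  have n3 : ‖((0, 0, 1) : ℝ × ℝ × ℝ)‖ ≤ 1 := by simp [Prod.norm_def]
  have nv : ‖((1, 0, - q2 c) : ℝ × ℝ × ℝ)‖ ≤ 1 + M := by
    have := m2 c
    simp only [Prod.norm_def, Real.norm_eq_abs, abs_neg, abs_one, abs_zero, max_le_iff]
    exact ⟨by linarith, by linarith, by linarith⟩
  have H1 : Hb fun x => q1 x - q1 c := D.h1.sub (Hb.const _)
  have H2 : Hb fun x => q2 x - q2 c := D.h2.sub (Hb.const _)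
  have H3 : Hb fun x => w x - w c + q2 c * (q1 x - q1 c) :=
    (D.hw.sub (Hb.const _)).add (H1.const_mul _)
  have o1' : Ho q1 (sqr c r) M := o1.mono (subset_univ _) le_rfl
  have o2' : Ho q2 (sqr c r) M := o2.mono (subset_univ _) le_rfl
  have hMN : M ≤ N := by nlinarith [sq_nonneg M]
  have hCN : C ≤ N := by nlinarith [sq_nonneg M]
  have a0 : ∀ x ∈ sqr c r, |w x - w c + q2 c * (q1 x - q1 c)| ≤ N * tw r ^ 2 := by
    intro x hx
    refine (D.lift c (h.sub hc) x (h.sub hx)).trans ?_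
    have := hd c hc x hx
    have := tw_nonneg (dist_nonneg (x := c) (y := x))
    gcongr
  have a1 : Ho (fun x => w x - w c + q2 c * (q1 x - q1 c)) (sqr c r) (N * tw r) := by
    intro y hy x hx
    have e : w y - w c + q2 c * (q1 y - q1 c) - (w x - w c + q2 c * (q1 x - q1 c))
        = (w y - w x + q2 x * (q1 y - q1 x)) - (q2 x - q2 c) * (q1 y - q1 x) := by ring
    have s1 := D.lift x (h.sub hx) y (h.sub hy)
    rw [dist_comm] at s1
    have s2 := o2'.osc hM hx hc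
    have s3 := o1' y hy x hx
    have s4 := hd y hy x hx
    have s5 := tw_nonneg (dist_nonneg (x := y) (y := x))
    have s6 : |(q2 x - q2 c) * (q1 y - q1 x)| ≤ M * tw r * (M * tw (dist y x)) := by
      rw [abs_mul]
      exact mul_le_mul s2 s3 (abs_nonneg _) (by positivity)
    have s7 : C * tw (dist y x) ^ 2 ≤ C * (tw r * tw (dist y x)) := by
      rw [pow_two]; gcongr
    have s8 : 0 ≤ M * (tw r * tw (dist y x)) := by positivity
    show |w y - w c + q2 c * (q1 y - q1 c) - (w x - w c + q2 c * (q1 x - q1 c))| ≤ _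
    rw [e]
    refine (abs_sub _ _).trans ?_
    rw [hN]
    nlinarith
  have p1 := endhl_prod H3 H1 D.h1 hr hN0 hM o1' a0 a1
    (fun x hx => (o1'.osc hM hx hc).trans (by gcongr)) ((o1'.sub_const _).mono subset_rfl hMN)
  have p2 := endhl_prod H3 H2 D.h1 hr hN0 hM o1' a0 a1
    (fun x hx => (o2'.osc hM hx hc).trans (by gcongr)) ((o2'.sub_const _).mono subset_rfl hMN)
  have p3 := endhl_prod H3 H3 D.h1 hr hN0 hM o1' a0 a1
    (fun x hx => (a0 x hx).trans (mul_le_mul_of_nonneg_left (by nlinarith) hN0))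
    (a1.mono subset_rfl (mul_le_of_le_one_right hN0 ht1))
  have hz0 := D.z0 c r hr h.sub
  obtain ⟨z1, z2⟩ := yl_centre D.h2 D.h1 hr hz0 (q1 c) (q2 c)
  rw [D.z1 c r h] at z1
  rw [D.z2 c r h] at z2
  have z3 := endhl_rho D h
  have z4 : yl c r (fun x => q2 x - q2 c) q1 = 0 := by
    rw [yl_sub D.h2 (Hb.const _) D.h1 hr, hz0, yl_const _ D.h1 hr, sub_zero]
  have z5 : yl c r (fun x => L (1, 0, - q2 c) * (q1 x - q1 c)
      + 1 / 2 * B (1, 0, - q2 c) (1, 0, - q2 c) * ((q1 x - q1 c) * (q1 x - q1 c))) q1 = 0 :=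
    yl_chain (F := fun s => L (1, 0, - q2 c) * (s - q1 c)
      + 1 / 2 * B (1, 0, - q2 c) (1, 0, - q2 c) * ((s - q1 c) * (s - q1 c))) (by fun_prop) D.h1 hr
  have key := hK0 c r hr
  have hx : ∀ x, ((q1 x, q2 x, w x) : ℝ × ℝ × ℝ) - (q1 c, q2 c, w c)
      = (q1 x - q1 c) • ((1, 0, - q2 c) : ℝ × ℝ × ℝ) + (q2 x - q2 c) • ((0, 1, 0) : ℝ × ℝ × ℝ)
        + (w x - w c + q2 c * (q1 x - q1 c)) • ((0, 0, 1) : ℝ × ℝ × ℝ) := by
    intro x
    ext <;> simp
    ring
  simp only [← hL, ← hB, hx, endhl_poly L B hsym] at key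
  have G0 : Hb fun x => L (1, 0, - q2 c) * (q1 x - q1 c)
      + 1 / 2 * B (1, 0, - q2 c) (1, 0, - q2 c) * ((q1 x - q1 c) * (q1 x - q1 c)) :=
    (H1.const_mul _).add ((H1.mul H1).const_mul _)
  have G1 := G0.add (H2.const_mul (L (0, 1, 0)))
  have G2 := G1.add (H3.const_mul (L (0, 0, 1)))
  have G3 := G2.add ((H1.mul H2).const_mul (B (1, 0, - q2 c) (0, 1, 0)))
  have G4 := G3.add ((H2.mul H2).const_mul (1 / 2 * B (0, 1, 0) (0, 1, 0)))
  have G5 := G4.add ((H3.mul H1).const_mul (B (1, 0, - q2 c) (0, 0, 1)))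
  have G6 := G5.add ((H3.mul H2).const_mul (B (0, 1, 0) (0, 0, 1)))
  rw [yl_add G6 ((H3.mul H3).const_mul _) D.h1 hr, yl_add G5 ((H3.mul H2).const_mul _) D.h1 hr,
    yl_add G4 ((H3.mul H1).const_mul _) D.h1 hr, yl_add G3 ((H2.mul H2).const_mul _) D.h1 hr,
    yl_add G2 ((H1.mul H2).const_mul _) D.h1 hr, yl_add G1 (H3.const_mul _) D.h1 hr,
    yl_add G0 (H2.const_mul _) D.h1 hr, z5, yl_mul _ H2 D.h1 hr, yl_mul _ H3 D.h1 hr,
    yl_mul _ (H1.mul H2) D.h1 hr, yl_mul _ (H2.mul H2) D.h1 hr, yl_mul _ (H3.mul H1) D.h1 hr,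
    yl_mul _ (H3.mul H2) D.h1 hr, yl_mul _ (H3.mul H3) D.h1 hr, z1, z2, z3, z4] at key
  have c1 := hco _ _ nv n3
  have c2 := hco _ _ (n2.trans (by linarith)) n3
  have c3 := hco _ _ (n3.trans (by linarith)) n3
  have hQ : 0 ≤ Λ * (1 + M) := by positivity
  have d1 := (abs_mul _ _).trans_le (mul_le_mul c1 p1 (abs_nonneg _) hQ)
  have d2 := (abs_mul _ _).trans_le (mul_le_mul c2 p2 (abs_nonneg _) hQ)
  have d3 := (abs_mul _ _).trans_le (mul_le_mul c3 p3 (abs_nonneg _) hQ)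
  have hh : hop G (q1 c, q2 c, w c) = B (1, 0, - q2 c) (0, 1, 0) + L (0, 0, 1) := rfl
  have hW : 0 ≤ Λ * (1 + M) * (44 * (N ^ 2 * M) * tw r ^ 4) := by positivity
  rw [hh, abs_le]
  rw [abs_le] at key d1 d2 d3
  constructor <;> linarith [key.1, key.2, d1.1, d1.2, d2.1, d2.2, d3.1, d3.2]

end Pool.Agent.Bor
end
end

-- part Pool.Agent.P.MP_26ecb7_gt.EndHg
section

noncomputable section
open Set Filter Topology MeasureTheory Metric
open scoped RealInnerProductSpace ContDiff ENNReal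

namespace Pool.Agent.Bor

variable {q1 q2 w : P → ℝ} {A C : ℝ}

theorem endhg_smooth {G : ℝ × ℝ × ℝ → ℝ} (hG : ContDiff ℝ ∞ G) : ContDiff ℝ 1 (hop G) := by
  have h1 : ContDiff ℝ ∞ (fderiv ℝ G) := hG.fderiv_right (m := ∞) (by simp)
  have h2 : ContDiff ℝ ∞ (fderiv ℝ (fderiv ℝ G)) := h1.fderiv_right (m := ∞) (by simp)
  have h3 : ContDiff ℝ ∞ fun y : ℝ × ℝ × ℝ => (((1 : ℝ), (0 : ℝ), - y.2.1) : ℝ × ℝ × ℝ) :=
    contDiff_const.prodMk (contDiff_const.prodMk contDiff_snd.fst.neg)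
  have h4 : ContDiff ℝ ∞ (hop G) :=
    ((h2.clm_apply h3).clm_apply contDiff_const).add (h1.clm_apply contDiff_const)
  exact h4.of_le (by exact_mod_cast le_top)

theorem endhg_int {H : P → ℝ} (hH : Hb H) : ∃ M, ∀ (c : P) (r : ℝ), 0 ≤ r →
    |(∫ x in sqr c r, H x) - r ^ 2 * H c| ≤ M * tw r ^ 4 := by
  have hc := hH.continuous
  obtain ⟨M, hM, -, h1⟩ := hH
  refine ⟨M, fun c r hr => ?_⟩
  have hv : volume (sqr c r) < ⊤ := (sqr_compact c r).measure_lt_top
  have hr2 : volume.real (sqr c r) = r ^ 2 := by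
    rw [Measure.real, volume_sqr c hr, ENNReal.toReal_ofReal (sq_nonneg r)]
  have e : (∫ x in sqr c r, H x) - r ^ 2 * H c = ∫ x in sqr c r, (H x - H c) := by
    rw [integral_sub (hc.continuousOn.integrableOn_compact (sqr_compact c r))
      (continuousOn_const.integrableOn_compact (sqr_compact c r)), setIntegral_const, hr2,
      smul_eq_mul]
  have h2 := norm_setIntegral_le_of_norm_le_const (f := fun x => H x - H c) (C := M * tw r) hv
    fun x hx => (h1.mono (subset_univ _) le_rfl).osc hM hx (corner_mem hr)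
  rw [hr2, ← tw_cube hr, Real.norm_eq_abs] at h2
  rw [e]
  exact h2.trans_eq (by ring)

theorem Ld.hg_gen (D : Ld q1 q2 w A C) {G : ℝ × ℝ × ℝ → ℝ} (hG : ContDiff ℝ ∞ G) {c : P} {r : ℝ}
    (h : Dy c r) : yl c r (fun x => G (q1 x, q2 x, w x)) q1
      = -A * ∫ x in sqr c r, hop G (q1 x, q2 x, w x) := by
  obtain ⟨M0, hM0, a0, a1⟩ := D.h1.triple D.h2 D.hw
  have hH : Hb fun x => hop G (q1 x, q2 x, w x) := Hb.compv (endhg_smooth hG) hM0 a0 a1
  obtain ⟨M, hM⟩ := endhg_int hH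
  obtain ⟨K, hK⟩ := D.hg_loc hG
  have key := sew2 (K := K + A * M) (R := fun c r => yl c r (fun x => G (q1 x, q2 x, w x)) q1
      + A * ∫ x in sqr c r, hop G (q1 x, q2 x, w x)) (fun c r hd => ?_) (fun c r hd => ?_) c r h
  · linarith
  · have h1 := yl_split (fun x => G (q1 x, q2 x, w x)) q1 c r
    have h2 := integral_sqr_split (c := c) hd.pos.le hH.continuous.continuousOn
    unfold Add4 at h1 ⊢
    simp only at h1 ⊢
    rw [h1, h2]
    ring
  · have h1 := abs_le.1 (hK c r hd)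
    have h2 := abs_le.1 (hM c r hd.pos.le)
    have h3 := mul_le_mul_of_nonneg_left h2.1 D.pos.le
    have h4 := mul_le_mul_of_nonneg_left h2.2 D.pos.le
    rw [abs_le]
    constructor <;> nlinarith [h1.1, h1.2]

theorem endhg_fd {χ : P → ℝ} {γ : ℝ → ℝ} (hχ : Differentiable ℝ χ) (hγ : Differentiable ℝ γ)
    (y b : ℝ × ℝ × ℝ) : fderiv ℝ (fun z : ℝ × ℝ × ℝ => χ (z.1, z.2.2) * γ z.2.1) y b =
      (b.1 * pd 0 χ (y.1, y.2.2) + b.2.2 * pd 1 χ (y.1, y.2.2)) * γ y.2.1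
        + χ (y.1, y.2.2) * (deriv γ y.2.1 * b.2.1) := by
  have h1 := (hχ (y.1, y.2.2)).hasFDerivAt.comp y
    ((hasFDerivAt_fst (𝕜 := ℝ) (p := y)).prodMk (hasFDerivAt_snd (𝕜 := ℝ) (p := y)).snd)
  have h2 := (hγ y.2.1).hasDerivAt.comp_hasFDerivAt y (hasFDerivAt_snd (𝕜 := ℝ) (p := y)).fst
  have h3 : HasFDerivAt (fun z : ℝ × ℝ × ℝ => χ (z.1, z.2.2) * γ z.2.1) _ y := h1.mul h2
  rw [h3.fderiv]
  have e := fderiv_eq_pd χ (y.1, y.2.2) (b.1, b.2.2)
  simp only [smul_eq_mul] at e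
  rw [← e]
  simp
  ring

theorem hop_prod {χ : P → ℝ} {γ : ℝ → ℝ} (hχ : ContDiff ℝ ∞ χ) (hγ : ContDiff ℝ ∞ γ)
    (y : ℝ × ℝ × ℝ) : hop (fun z => χ (z.1, z.2.2) * γ z.2.1) y =
      deriv γ y.2.1 * pd 0 χ (y.1, y.2.2)
        - (y.2.1 * deriv γ y.2.1 - γ y.2.1) * pd 1 χ (y.1, y.2.2) := by
  have d1 : Differentiable ℝ χ := hχ.differentiable (by simp)
  have d2 : Differentiable ℝ γ := hγ.differentiable (by simp)
  have d3 : Differentiable ℝ (deriv γ) :=
    (contDiff_infty_iff_deriv.1 hγ).2.differentiable (by simp)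
  have hG : ContDiff ℝ ∞ fun z : ℝ × ℝ × ℝ => χ (z.1, z.2.2) * γ z.2.1 :=
    (hχ.comp (contDiff_fst.prodMk contDiff_snd.snd)).mul (hγ.comp contDiff_snd.fst)
  have h1 : Differentiable ℝ (fderiv ℝ fun z : ℝ × ℝ × ℝ => χ (z.1, z.2.2) * γ z.2.1) :=
    (hG.fderiv_right (m := ∞) (by simp)).differentiable (by simp)
  have h2 : ∀ a b : ℝ × ℝ × ℝ,
      fderiv ℝ (fderiv ℝ fun z : ℝ × ℝ × ℝ => χ (z.1, z.2.2) * γ z.2.1) y a b =
      fderiv ℝ (fun u => fderiv ℝ (fun z : ℝ × ℝ × ℝ => χ (z.1, z.2.2) * γ z.2.1) u b) y a :=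
    fun a b => by
      rw [fderiv_clm_apply (h1 y) (differentiableAt_const b)]
      simp
  have h3 : (fun u => fderiv ℝ (fun z : ℝ × ℝ × ℝ => χ (z.1, z.2.2) * γ z.2.1) u (0, 1, 0)) =
      fun z : ℝ × ℝ × ℝ => χ (z.1, z.2.2) * deriv γ z.2.1 := by
    funext u
    rw [endhg_fd d1 d2]
    simp
  unfold hop
  rw [h2, h3, endhg_fd d1 d3, endhg_fd d1 d2]
  simp only
  ring

theorem Ld.hg (D : Ld q1 q2 w A C) {χ : P → ℝ} {γ : ℝ → ℝ} (hχ : ContDiff ℝ ∞ χ)
    (hγ : ContDiff ℝ ∞ γ) {c : P} {r : ℝ} (h : Dy c r) :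
    yl c r (fun x => χ (q1 x, w x) * γ (q2 x)) q1 = -A * ∫ x in sqr c r,
      (deriv γ (q2 x) * pd 0 χ (q1 x, w x)
        - (q2 x * deriv γ (q2 x) - γ (q2 x)) * pd 1 χ (q1 x, w x)) := by
  have hG : ContDiff ℝ ∞ fun z : ℝ × ℝ × ℝ => χ (z.1, z.2.2) * γ z.2.1 :=
    (hχ.comp (contDiff_fst.prodMk contDiff_snd.snd)).mul (hγ.comp contDiff_snd.fst)
  have h1 := D.hg_gen hG h
  simp only [hop_prod hχ hγ] at h1
  exact h1

theorem Ld.jd (D : Ld q1 q2 w A C) : Jd q1 w A := by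
  refine ⟨D.h1, D.hw, D.pos, fun T hT c r h => ?_, fun T hT c r h => ?_⟩
  · have h1 := D.hg (γ := fun s => -s) hT contDiff_id.neg h
    have h2 := yl_subst (f := fun x => T (q1 x, w x)) (u := fun x => - q2 x) (K := C) (c := c)
      (Hb.comp2 hT D.h1 D.hw) D.h2.neg D.h1 D.hw h.pos fun x hx y hy => by
        have := D.lift x (h.sub hx) y (h.sub hy)
        rwa [neg_mul, sub_neg_eq_add]
    have h3 : deriv (fun s : ℝ => -s) = fun _ => -1 := by
      funext s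
      exact (hasDerivAt_neg s).deriv
    rw [h2, h1, h3]
    simp [integral_neg]
  · have h1 := D.hg (γ := fun _ => 1) hT contDiff_const h
    simpa using h1

end Pool.Agent.Bor
end
end

-- part Pool.Agent.P.MP_26ecb7_gt.EndKin
section

noncomputable section
open Set Filter Topology MeasureTheory Metric
open scoped RealInnerProductSpace ContDiff ENNReal

namespace Pool.Agent.Bor

theorem endkin_lim (v s : ℝ) :
    Tendsto (fun n : ℕ => Real.smoothTransition (((n : ℝ) + 1) * (s - v))) atTop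
      (𝓝 (if v < s then 1 else 0)) := by
  split_ifs with h
  · have h1 : Tendsto (fun n : ℕ => ((n : ℝ) + 1) * (s - v)) atTop atTop :=
      (tendsto_atTop_add_const_right _ _ tendsto_natCast_atTop_atTop).atTop_mul_const (sub_pos.2 h)
    refine tendsto_const_nhds.congr' ((h1.eventually_ge_atTop 1).mono fun n hn => ?_)
    exact (Real.smoothTransition.one_of_one_le hn).symm
  · refine tendsto_const_nhds.congr fun n => (Real.smoothTransition.zero_of_nonpos ?_).symm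
    exact mul_nonpos_of_nonneg_of_nonpos (by positivity) (sub_nonpos.2 (not_lt.1 h))

/-- smooth approximations of the positive part -/
theorem exists_kink (v : ℝ) : ∃ γ : ℕ → ℝ → ℝ, (∀ n, ContDiff ℝ ∞ (γ n)) ∧
    (∀ n s, |deriv (γ n) s| ≤ 1) ∧ (∀ n s, |γ n s| ≤ |s - v|) ∧
    (∀ s, Tendsto (fun n => γ n s) atTop (𝓝 (if v < s then s - v else 0))) ∧
    ∀ s, Tendsto (fun n => deriv (γ n) s) atTop (𝓝 (if v < s then 1 else 0)) := by
  set S : ℕ → ℝ → ℝ := fun n u => Real.smoothTransition (((n : ℝ) + 1) * (u - v)) with hS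
  have hc : ∀ n, ContDiff ℝ ∞ (S n) := fun n =>
    Real.smoothTransition.contDiff.comp (contDiff_const.mul (contDiff_id.sub contDiff_const))
  have hb : ∀ n u, ‖S n u‖ ≤ 1 := fun n u => by
    rw [Real.norm_of_nonneg (Real.smoothTransition.nonneg _)]
    exact Real.smoothTransition.le_one _
  have hd : ∀ n s, HasDerivAt (fun s => ∫ u in v..s, S n u) (S n s) s := fun n s =>
    ((hc n).continuous.integral_hasStrictDerivAt v s).hasDerivAt
  have he : ∀ n, deriv (fun s => ∫ u in v..s, S n u) = S n := fun n =>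
    funext fun s => (hd n s).deriv
  refine ⟨fun n s => ∫ u in v..s, S n u, fun n => ?_, fun n s => ?_, fun n s => ?_, fun s => ?_,
    fun s => ?_⟩
  · rw [contDiff_infty_iff_deriv, he]
    exact ⟨fun s => (hd n s).differentiableAt, hc n⟩
  · rw [he]
    exact hb n s
  · simpa using intervalIntegral.norm_integral_le_of_norm_le_const (a := v) (b := s)
      fun u _ => hb n u
  · have h := intervalIntegral.tendsto_integral_filter_of_dominated_convergence
      (μ := volume) (a := v) (b := s) (l := atTop) (F := S)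
      (f := fun _ => if v < s then (1 : ℝ) else 0) (fun _ => 1)
      (Eventually.of_forall fun n => (hc n).continuous.aestronglyMeasurable)
      (Eventually.of_forall fun n => ae_of_all _ fun u _ => hb n u) intervalIntegrable_const
      (ae_of_all _ fun u hu => by
        have h1 := endkin_lim v u
        have h2 : v < u ↔ v < s := by
          rcases mem_uIoc.1 hu with h3 | h3
          · exact ⟨fun _ => h3.1.trans_le h3.2, fun _ => h3.1⟩
          · exact ⟨fun h => absurd h3.2 h.not_ge, fun h => absurd (h.trans h3.1) h3.2.not_gt⟩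
        simpa only [h2] using h1)
    rw [intervalIntegral.integral_const, smul_eq_mul, mul_ite, mul_one, mul_zero] at h
    exact h
  · simp only [he]
    exact endkin_lim v s

theorem endkin_zero {q1 q2 w : P → ℝ} {A C : ℝ} (D : Ld q1 q2 w A C) {c : P} {r : ℝ} (h : Dy c r)
    {χ : P → ℝ} (hχ : ContDiff ℝ ∞ χ) (h0 : ∀ x ∈ frontier (sqr c r), χ (q1 x, w x) = 0)
    {γ : ℝ → ℝ} (hγ : ContDiff ℝ ∞ γ) :
    ∫ x in sqr c r, (deriv γ (q2 x) * pd 0 χ (q1 x, w x)
      - (q2 x * deriv γ (q2 x) - γ (q2 x)) * pd 1 χ (q1 x, w x)) = 0 := by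
  have h1 := D.hg hχ hγ h
  rw [yl_congr (f' := fun _ => 0) (g' := q1) ((Hb.comp2 hχ D.h1 D.hw).mul (Hb.comp1 hγ D.h2)) D.h1
    (Hb.const 0) D.h1 h.pos (fun x hx => by rw [h0 x hx, zero_mul]) (fun _ _ => rfl),
    yl_const 0 D.h1 h.pos] at h1
  exact (mul_eq_zero.1 h1.symm).resolve_left (neg_ne_zero.2 D.pos.ne')

/-- the kinetic equation -/
theorem Ld.kin {q1 q2 w : P → ℝ} {A C : ℝ} (D : Ld q1 q2 w A C) {c : P} {r : ℝ} (h : Dy c r)
    {χ : P → ℝ} (hχ : ContDiff ℝ ∞ χ) (h0 : ∀ x ∈ frontier (sqr c r), χ (q1 x, w x) = 0) (v : ℝ) :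
    ∫ x in sqr c r ∩ {x | v < q2 x}, (pd 0 χ (q1 x, w x) - v * pd 1 χ (q1 x, w x)) = 0 ∧
    ∫ x in sqr c r ∩ {x | q2 x ≤ v}, (pd 0 χ (q1 x, w x) - v * pd 1 χ (q1 x, w x)) = 0 := by
  have ca : Continuous fun x => pd 0 χ (q1 x, w x) :=
    (contDiff_pd hχ 0).continuous.comp (D.h1.continuous.prodMk D.hw.continuous)
  have cb : Continuous fun x => pd 1 χ (q1 x, w x) :=
    (contDiff_pd hχ 1).continuous.comp (D.h1.continuous.prodMk D.hw.continuous)
  have c2 := D.h2.continuous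
  have hm : MeasurableSet {x | v < q2 x} := (isOpen_lt continuous_const c2).measurableSet
  have h1 : ∫ x in sqr c r ∩ {x | v < q2 x},
      (pd 0 χ (q1 x, w x) - v * pd 1 χ (q1 x, w x)) = 0 := by
    obtain ⟨γ, g1, g2, g3, g4, g5⟩ := exists_kink v
    have ht := tendsto_integral_of_dominated_convergence (μ := volume.restrict (sqr c r))
      (F := fun n x => deriv (γ n) (q2 x) * pd 0 χ (q1 x, w x)
        - (q2 x * deriv (γ n) (q2 x) - γ n (q2 x)) * pd 1 χ (q1 x, w x))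
      (f := {x | v < q2 x}.indicator fun x => pd 0 χ (q1 x, w x) - v * pd 1 χ (q1 x, w x))
      (fun x => |pd 0 χ (q1 x, w x)| + (|q2 x| + |q2 x - v|) * |pd 1 χ (q1 x, w x)|)
      (fun n => by
        have d1 : Continuous (deriv (γ n)) := (g1 n).continuous_deriv (by simp)
        have d2 := (g1 n).continuous
        exact Continuous.aestronglyMeasurable (by fun_prop))
      (ContinuousOn.integrableOn_compact (sqr_compact c r) (by fun_prop))
      (fun n => ae_of_all _ fun x => by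
        refine (norm_sub_le _ _).trans (add_le_add ?_ ?_)
        · rw [Real.norm_eq_abs, abs_mul]
          exact mul_le_of_le_one_left (abs_nonneg _) (g2 n _)
        · rw [Real.norm_eq_abs, abs_mul]
          refine mul_le_mul_of_nonneg_right ((abs_sub _ _).trans (add_le_add ?_ (g3 n _)))
            (abs_nonneg _)
          rw [abs_mul]
          exact mul_le_of_le_one_right (abs_nonneg _) (g2 n _))
      (ae_of_all _ fun x => by
        have t := ((g5 (q2 x)).mul_const (pd 0 χ (q1 x, w x))).sub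
          ((((g5 (q2 x)).const_mul (q2 x)).sub (g4 (q2 x))).mul_const (pd 1 χ (q1 x, w x)))
        by_cases hx : v < q2 x
        · rw [indicator_of_mem (show x ∈ {x | v < q2 x} from hx)]
          simpa [hx] using t
        · rw [indicator_of_notMem (show x ∉ {x | v < q2 x} from hx)]
          simpa [hx] using t)
    simp only [endkin_zero D h hχ h0 (g1 _)] at ht
    rw [← setIntegral_indicator hm]
    exact tendsto_nhds_unique ht tendsto_const_nhds |>.symm ▸ rfl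
  refine ⟨h1, ?_⟩
  have h2 := endkin_zero D h hχ h0 (γ := fun s => s - v) (contDiff_id.sub contDiff_const)
  simp only [deriv_sub_const, deriv_id'', one_mul, mul_one, sub_sub_cancel] at h2
  have h3 := integral_inter_add_sdiff (μ := volume) (s := sqr c r) hm
    (f := fun x => pd 0 χ (q1 x, w x) - v * pd 1 χ (q1 x, w x))
    (ContinuousOn.integrableOn_compact (sqr_compact c r) (by fun_prop))
  have e : sqr c r \ {x | v < q2 x} = sqr c r ∩ {x | q2 x ≤ v} := by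
    ext x
    simp
  rwa [h1, h2, zero_add, e] at h3

end Pool.Agent.Bor
end
end

-- part Pool.Agent.P.MP_26ecb7_gt.EndTr
section

noncomputable section
open Set Filter Topology MeasureTheory Metric
open scoped RealInnerProductSpace ContDiff ENNReal

namespace Pool.Agent.Bor

theorem endtr_deriv {S : Set P} (hb : Bornology.IsBounded S) {h : P → P} (hc : Continuous h)
    {β : P → ℝ} (hβ : ContDiff ℝ ∞ β) (hs : HasCompactSupport β) (a e : P) (τ : ℝ) :
    HasDerivAt (fun t : ℝ => ∫ x in S, β (h x - (a + t • e)))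
      (∫ x in S, -(fderiv ℝ β (h x - (a + τ • e)) e)) τ := by
  have hfin : IsFiniteMeasure (volume.restrict S) :=
    isFiniteMeasure_restrict.2 hb.measure_lt_top.ne
  have hd : Continuous (fderiv ℝ β) := hβ.continuous_fderiv (by simp)
  obtain ⟨B, hB⟩ := hd.bounded_above_of_compact_support (hs.fderiv ℝ)
  obtain ⟨B0, hB0⟩ := hβ.continuous.bounded_above_of_compact_support hs
  have hc1 : ∀ t : ℝ, Continuous fun x => β (h x - (a + t • e)) := fun t =>
    hβ.continuous.comp (hc.sub continuous_const)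
  have hc2 : Continuous fun x => -(fderiv ℝ β (h x - (a + τ • e)) e) :=
    ((hd.comp (hc.sub continuous_const)).clm_apply continuous_const).neg
  refine (hasDerivAt_integral_of_dominated_loc_of_deriv_le (μ := volume.restrict S)
    (F := fun (t : ℝ) x => β (h x - (a + t • e)))
    (F' := fun (t : ℝ) x => -(fderiv ℝ β (h x - (a + t • e)) e)) (s := univ)
    (bound := fun _ => B * ‖e‖) univ_mem
    (Eventually.of_forall fun t => (hc1 t).aestronglyMeasurable) ?_ hc2.aestronglyMeasurable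
    (Eventually.of_forall fun x t _ => ?_) (integrable_const _)
    (Eventually.of_forall fun x t _ => ?_)).2
  · exact (integrable_const B0).mono' (hc1 τ).aestronglyMeasurable
      (Eventually.of_forall fun x => hB0 _)
  · rw [norm_neg]
    exact (ContinuousLinearMap.le_opNorm _ _).trans
      (mul_le_mul_of_nonneg_right (hB _) (norm_nonneg _))
  · have h1 : HasDerivAt (fun t : ℝ => h x - (a + t • e)) (-e) t := by
      have h2 := (((hasDerivAt_id t).smul_const e).const_add a).const_sub (h x)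
      simpa using h2
    have h3 := ((hβ.differentiable (by simp)) (h x - (a + t • e))).hasFDerivAt.comp_hasDerivAt t h1
    rw [map_neg] at h3
    exact h3

/-- transport of the support of a measure invariant in one direction -/
theorem transport {S : Set P} (hS : MeasurableSet S) (hb : Bornology.IsBounded S) {h : P → P}
    (hc : Continuous h) {z0 : P} {ρ v : ℝ}
    (hk : ∀ χ : P → ℝ, ContDiff ℝ ∞ χ → (∀ y, y ∉ ball z0 ρ → χ y = 0) →
      ∫ x in S, (pd 0 χ (h x) - v * pd 1 χ (h x)) = 0)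
    {x0 : P} (hx : ∀ ε > 0, volume (S ∩ ball x0 ε) ≠ 0) (h0 : h x0 ∈ ball z0 ρ) {s : ℝ}
    (hs : h x0 + s • ((1, -v) : P) ∈ ball z0 ρ) :
    h x0 + s • ((1, -v) : P) ∈ closure (h '' S) := by
  set e : P := (1, -v) with he
  set a : P := h x0 with ha
  set m : ℝ := max (dist a z0) (dist (a + s • e) z0) with hm
  have hmρ : m < ρ := max_lt (mem_ball.1 h0) (mem_ball.1 hs)
  have hseg : ∀ τ ∈ uIcc (0 : ℝ) s, dist (a + τ • e) z0 ≤ m := by
    intro τ hτ
    rw [← segment_eq_uIcc] at hτ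
    obtain ⟨p, q, hp, hq, hpq, rfl⟩ := hτ
    have h1 : a ∈ closedBall z0 m := mem_closedBall.2 (le_max_left _ _)
    have h2 : a + s • e ∈ closedBall z0 m := mem_closedBall.2 (le_max_right _ _)
    have h3 := (convex_closedBall z0 m) h1 h2 hp hq hpq
    have e1 : p • a + q • (a + s • e) = a + (p • (0 : ℝ) + q • s) • e := by
      rw [smul_add, ← add_assoc, ← add_smul, hpq, one_smul, smul_zero, zero_add, smul_eq_mul,
        mul_smul]
    rw [e1] at h3
    exact mem_closedBall.1 h3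
  rw [Metric.mem_closure_iff]
  intro ε hε
  have hε' : 0 < min ε (ρ - m) := lt_min hε (by linarith)
  let β : ContDiffBump (0 : P) := ⟨min ε (ρ - m) / 2, min ε (ρ - m), by linarith, by linarith⟩
  have hβ : ContDiff ℝ ∞ β := β.contDiff
  have hout : β.rOut = min ε (ρ - m) := rfl
  have hzero : ∀ τ ∈ uIcc (0 : ℝ) s,
      ∫ x in S, -(fderiv ℝ β (h x - (a + τ • e)) e) = 0 := by
    intro τ hτ
    have h1 := hk (fun y => β (y - (a + τ • e))) (hβ.comp (contDiff_id.sub contDiff_const)) (by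
      intro y hy
      apply β.zero_of_le_dist
      rw [hout, dist_zero_right, ← dist_eq_norm]
      have h2 := not_lt.1 (mt mem_ball.2 hy)
      have h3 := dist_triangle y (a + τ • e) z0
      have h4 := hseg τ hτ
      exact (min_le_right _ _).trans (by linarith))
    rw [integral_neg, neg_eq_zero, ← h1]
    refine integral_congr_ae (Eventually.of_forall fun x => ?_)
    have h5 := fderiv_eq_pd (fun y => β (y - (a + τ • e))) (h x) e
    rw [fderiv_comp_sub] at h5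
    have h6 : e.1 = 1 := rfl
    have h7 : e.2 = -v := rfl
    rw [h6, h7, smul_eq_mul, smul_eq_mul] at h5
    show fderiv ℝ β (h x - (a + τ • e)) e = pd 0 (fun y => β (y - (a + τ • e))) (h x) -
      v * pd 1 (fun y => β (y - (a + τ • e))) (h x)
    rw [h5]
    ring
  have hconst := Convex.norm_image_sub_le_of_norm_hasDerivWithin_le
    (f := fun t : ℝ => ∫ x in S, β (h x - (a + t • e)))
    (f' := fun t : ℝ => ∫ x in S, -(fderiv ℝ β (h x - (a + t • e)) e)) (C := 0)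
    (s := uIcc (0 : ℝ) s)
    (fun t _ => (endtr_deriv hb hc hβ β.hasCompactSupport a e t).hasDerivWithinAt)
    (fun t ht => by rw [hzero t ht, norm_zero]) (convex_uIcc 0 s) left_mem_uIcc right_mem_uIcc
  rw [zero_mul, norm_le_zero_iff, sub_eq_zero, zero_smul, add_zero] at hconst
  by_contra hcon
  have hz : ∫ x in S, β (h x - (a + s • e)) = 0 := by
    refine setIntegral_eq_zero_of_forall_eq_zero fun x hxS => ?_
    apply β.zero_of_le_dist
    rw [hout, dist_zero_right, ← dist_eq_norm, dist_comm]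
    by_contra hlt
    exact hcon ⟨h x, mem_image_of_mem h hxS, (not_le.1 hlt).trans_le (min_le_left _ _)⟩
  rw [hz] at hconst
  have hfin : IsFiniteMeasure (volume.restrict S) :=
    isFiniteMeasure_restrict.2 hb.measure_lt_top.ne
  have hc1 : Continuous fun x => β (h x - a) := hβ.continuous.comp (hc.sub continuous_const)
  have hint : Integrable (fun x => β (h x - a)) (volume.restrict S) :=
    (integrable_const (1 : ℝ)).mono' hc1.aestronglyMeasurable (Eventually.of_forall fun x => by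
      rw [Real.norm_eq_abs, abs_of_nonneg β.nonneg]; exact β.le_one)
  have hae := (integral_eq_zero_iff_of_nonneg (fun x => β.nonneg) hint).1 hconst.symm
  obtain ⟨δ, hδ, hδ'⟩ := Metric.continuousAt_iff.1 (hc.continuousAt (x := x0)) _ hε'
  refine hx δ hδ ?_
  have hae' := (ae_restrict_iff' hS).1 hae
  refine measure_mono_null ?_ (ae_iff.1 hae')
  intro x hxx hh
  have h6 : 0 < β (h x - a) := by
    apply β.pos_of_mem_ball
    rw [hout, mem_ball, dist_zero_right, ← dist_eq_norm]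
    exact hδ' (mem_ball.1 hxx.2)
  exact h6.ne' (hh hxx.1)

end Pool.Agent.Bor
end
end

-- part Pool.Agent.P.MP_26ecb7_gt.EndMove
section

noncomputable section
open Set Filter Topology MeasureTheory Metric
open scoped RealInnerProductSpace ContDiff ENNReal

namespace Pool.Agent.Bor

theorem endmove_aux {h : P → P} (hc : Continuous h) {c z0 : P} {r ρ v : ℝ} (hr : 0 < r)
    {U T K : Set P} (hU : IsOpen U) (hUT : U ⊆ T) (hT : MeasurableSet T) (hTK : T ⊆ K)
    (hK : IsClosed K)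
    (hk : ∀ χ : P → ℝ, ContDiff ℝ ∞ χ → (∀ y, y ∉ ball z0 ρ → χ y = 0) →
      ∫ x in sqr c r ∩ T, (pd 0 χ (h x) - v * pd 1 χ (h x)) = 0)
    {x : P} (hx : x ∈ sqr c r) (hxU : x ∈ U) (h0 : h x ∈ ball z0 ρ) {s : ℝ}
    (hs : h x + s • ((1, -v) : P) ∈ ball z0 ρ) :
    ∃ y ∈ sqr c r, h y = h x + s • ((1, -v) : P) ∧ y ∈ K := by
  have hcl := transport ((sqr_compact c r).measurableSet.inter hT)
    ((sqr_compact c r).isBounded.subset inter_subset_left) hc hk (x0 := x) ?_ h0 hs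
  · have hcp : IsCompact (h '' (sqr c r ∩ K)) := ((sqr_compact c r).inter_right hK).image hc
    obtain ⟨y, hy, e⟩ := closure_minimal
      (image_mono (inter_subset_inter_right _ hTK)) hcp.isClosed hcl
    exact ⟨y, hy.1, e, hy.2⟩
  · intro ε hε
    obtain ⟨δ, hδ, hb⟩ := Metric.isOpen_iff.1 hU x hxU
    intro hz
    refine vol_sqr_ball hr (lt_min hε hδ) hx (measure_mono_null ?_ hz)
    intro y hy
    exact ⟨⟨hy.1, hUT (hb (ball_subset_ball (min_le_right _ _) hy.2))⟩,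
      ball_subset_ball (min_le_left _ _) hy.2⟩

/-- moving along characteristic lines -/
theorem Ld.move {q1 q2 w : P → ℝ} {A C : ℝ} (D : Ld q1 q2 w A C) {c z0 : P} {r ρ : ℝ} (h : Dy c r)
    (hf : ∀ x ∈ frontier (sqr c r), ρ ≤ dist ((q1 x, w x) : P) z0) {x : P} (hx : x ∈ sqr c r)
    (h0 : ((q1 x, w x) : P) ∈ ball z0 ρ) {s v : ℝ}
    (hs : ((q1 x + s, w x - s * v) : P) ∈ ball z0 ρ) :
    (v < q2 x → ∃ y ∈ sqr c r, ((q1 y, w y) : P) = (q1 x + s, w x - s * v) ∧ v ≤ q2 y) ∧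
    (q2 x < v → ∃ y ∈ sqr c r, ((q1 y, w y) : P) = (q1 x + s, w x - s * v) ∧ q2 y ≤ v) := by
  have hc : Continuous fun x => ((q1 x, w x) : P) := D.h1.continuous.prodMk D.hw.continuous
  have h2 : Continuous q2 := D.h2.continuous
  have e : ((q1 x, w x) : P) + s • ((1, -v) : P) = (q1 x + s, w x - s * v) := by
    ext
    · simp
    · simp [sub_eq_add_neg]
  have hz : ∀ χ : P → ℝ, (∀ y, y ∉ ball z0 ρ → χ y = 0) →
      ∀ x ∈ frontier (sqr c r), χ (q1 x, w x) = 0 :=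
    fun χ hχ x hx => hχ _ fun hb => absurd (mem_ball.1 hb) (not_lt.2 (hf x hx))
  refine ⟨fun hv => ?_, fun hv => ?_⟩
  · have := endmove_aux hc h.pos (U := {x | v < q2 x}) (T := {x | v < q2 x})
      (K := {x | v ≤ q2 x}) (isOpen_lt continuous_const h2) subset_rfl
      (isOpen_lt continuous_const h2).measurableSet (fun y (hy : v < q2 y) => hy.le)
      (isClosed_le continuous_const h2) (fun χ hχ h0 => (D.kin h hχ (hz χ h0) v).1) hx hv h0
      (s := s) (by rw [e]; exact hs)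
    rw [e] at this
    exact this
  · have := endmove_aux hc h.pos (U := {x | q2 x < v}) (T := {x | q2 x ≤ v})
      (K := {x | q2 x ≤ v}) (isOpen_lt h2 continuous_const) (fun y (hy : q2 y < v) => hy.le)
      (isClosed_le h2 continuous_const).measurableSet subset_rfl
      (isClosed_le h2 continuous_const) (fun χ hχ h0 => (D.kin h hχ (hz χ h0) v).2) hx hv h0
      (s := s) (by rw [e]; exact hs)
    rw [e] at this
    exact this

theorem endmove_pick {d1 d2 : ℝ} (h : ¬ (d1 = 0 ∧ d2 = 0)) {α β : ℝ} (hab : α < β) :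
    ∃ t, α < t ∧ t < β ∧ d2 + t * d1 ≠ 0 := by
  by_contra hc
  push Not at hc
  have e1 := hc ((2 * α + β) / 3) (by linarith) (by linarith)
  have e2 := hc ((α + 2 * β) / 3) (by linarith) (by linarith)
  have e3 : (β - α) * d1 = 0 := by linear_combination 3 * e2 - 3 * e1
  have e4 : d1 = 0 := (mul_eq_zero.1 e3).resolve_left (sub_pos.2 hab).ne'
  rw [e4] at e1
  exact h ⟨e4, by linarith⟩

theorem endmove_slope {p y0 : P} {s v α β : ℝ} (hs : s ≠ 0) (e1 : y0.1 = p.1 + s)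
    (e2 : y0.2 = p.2 - s * v) (h1 : α < v) (h2 : v < β) :
    ∀ᶠ y : P in 𝓝 y0, ∃ s v : ℝ, α < v ∧ v < β ∧ ((p.1 + s, p.2 - s * v) : P) = y := by
  have hn : y0.1 - p.1 ≠ 0 := by rw [e1]; simpa using hs
  have hV : ContinuousAt (fun y : P => -(y.2 - p.2) / (y.1 - p.1)) y0 :=
    ContinuousAt.div (by fun_prop) (by fun_prop) hn
  have hv : -(y0.2 - p.2) / (y0.1 - p.1) = v := by
    rw [div_eq_iff hn, e1, e2]
    ring
  have hN : ContinuousAt (fun y : P => y.1 - p.1) y0 := by fun_prop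
  filter_upwards [hV.eventually (Ioo_mem_nhds (hv ▸ h1) (hv ▸ h2)), hN.eventually_ne hn]
    with y a1 a2
  refine ⟨y.1 - p.1, _, a1.1, a1.2, Prod.ext ?_ ?_⟩
  · simp
  · change p.2 - (y.1 - p.1) * (-(y.2 - p.2) / (y.1 - p.1)) = y.2
    rw [mul_div_cancel₀ _ a2]
    ring

/-- two open cones with different vertices meet off a null set -/
theorem cone_meet {p p' z0 : P} {ρ a b B e : ℝ} (hab : a < b) (hB : |a| ≤ B ∧ |b| ≤ B)
    (hne : p ≠ p') (hp : dist p z0 < ρ / 4) (h1 : |p'.2 - p.2 + b * (p'.1 - p.1)| ≤ e * (b - a))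
    (h2 : (1 + B) * (3 * e + 3 * |p'.1 - p.1|) < ρ / 2) {Z : Set P} (hZ : volume Z = 0) :
    ∃ s v s' u : ℝ, u < v ∧ v < b ∧ a < u ∧ ((p.1 + s, p.2 - s * v) : P) = (p'.1 + s', p'.2 - s' * u)
      ∧ ((p.1 + s, p.2 - s * v) : P) ∈ ball z0 ρ ∧ ((p.1 + s, p.2 - s * v) : P) ∉ Z := by
  have hd : ¬ (p'.1 - p.1 = 0 ∧ p'.2 - p.2 = 0) := fun h =>
    hne (Prod.ext (sub_eq_zero.1 h.1).symm (sub_eq_zero.1 h.2).symm)
  obtain ⟨v, v1, v2, v3⟩ := endmove_pick hd (α := b - (b - a) / 3) (β := b) (by linarith)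
  obtain ⟨u, u1, u2, u3⟩ := endmove_pick hd (α := a) (β := a + (b - a) / 3) (by linarith)
  have hvu : 0 < v - u := by linarith
  obtain ⟨s, hs⟩ : ∃ s : ℝ, s * (v - u) = -(p'.2 - p.2 + u * (p'.1 - p.1)) :=
    ⟨_, div_mul_cancel₀ _ hvu.ne'⟩
  have hs0 : s ≠ 0 := by
    rintro rfl
    exact u3 (by linarith)
  have hs1 : s - (p'.1 - p.1) ≠ 0 := by
    intro h
    apply v3
    linear_combination hs - (v - u) * h
  have hb : |s| ≤ 3 * e + 3 * |p'.1 - p.1| := by
    have a1 : |s| * (v - u) ≤ e * (b - a) + (b - a) * |p'.1 - p.1| := by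
      have a2 : s * (v - u) = -(p'.2 - p.2 + b * (p'.1 - p.1)) + (b - u) * (p'.1 - p.1) := by
        rw [hs]
        ring
      have a3 := abs_add_le (-(p'.2 - p.2 + b * (p'.1 - p.1))) ((b - u) * (p'.1 - p.1))
      rw [← a2, abs_neg, abs_mul, abs_mul, abs_of_pos hvu, abs_of_pos (by linarith : 0 < b - u)]
        at a3
      have a4 : (b - u) * |p'.1 - p.1| ≤ (b - a) * |p'.1 - p.1| :=
        mul_le_mul_of_nonneg_right (by linarith) (abs_nonneg _)
      linarith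
    have a5 : |s| * ((b - a) / 3) ≤ |s| * (v - u) :=
      mul_le_mul_of_nonneg_left (by linarith) (abs_nonneg _)
    refine le_of_mul_le_mul_right ?_ (show 0 < (b - a) / 3 by linarith)
    linarith
  have hB0 : 0 ≤ B := (abs_nonneg _).trans hB.1
  have hvB : |v| ≤ B := abs_le.2 ⟨by linarith [(abs_le.1 hB.1).1], by linarith [(abs_le.1 hB.2).2]⟩
  have hball : ((p.1 + s, p.2 - s * v) : P) ∈ ball z0 ρ := by
    have a1 : dist ((p.1 + s, p.2 - s * v) : P) p ≤ (1 + B) * |s| := by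
      have a2 := mul_le_mul_of_nonneg_left hvB (abs_nonneg s)
      have a3 := mul_nonneg hB0 (abs_nonneg s)
      rw [Prod.dist_eq, max_le_iff, Real.dist_eq, Real.dist_eq]
      constructor
      · rw [add_sub_cancel_left]
        linarith
      · rw [sub_sub_cancel_left, abs_neg, abs_mul]
        linarith [abs_nonneg s]
    have a4 := mul_le_mul_of_nonneg_left hb (show 0 ≤ 1 + B by linarith)
    have a5 := dist_triangle ((p.1 + s, p.2 - s * v) : P) p z0
    have a6 := dist_nonneg (x := p) (y := z0)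
    rw [mem_ball]
    linarith
  have k1 := endmove_slope (p := p) (y0 := (p.1 + s, p.2 - s * v)) (v := v) (α := (a + b) / 2)
    (β := b) hs0 rfl rfl (by linarith) v2
  have k2 := endmove_slope (p := p') (y0 := (p.1 + s, p.2 - s * v)) (v := u) (α := a)
    (β := (a + b) / 2) hs1 (by change p.1 + s = _; ring)
    (by change p.2 - s * v = _; linear_combination (-1 : ℝ) * hs) u1 (by linarith)
  have k3 := (k1.and k2).and (isOpen_ball.mem_nhds hball)
  by_contra hc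
  refine (Measure.measure_pos_of_mem_nhds volume k3).ne' (measure_mono_null ?_ hZ)
  rintro y ⟨⟨⟨s, v, a1, a2, rfl⟩, s', u, a3, a4, a5⟩, a6⟩
  by_contra hy
  exact hc ⟨s, v, s', u, a4.trans a1, a2, a3, a5.symm, a6, hy⟩

end Pool.Agent.Bor
end
end

-- part Pool.Agent.P.MP_26ecb7_gt.EndAc
section

noncomputable section
open Set Filter Topology MeasureTheory Metric
open scoped RealInnerProductSpace ContDiff ENNReal

namespace Pool.Agent.Bor

theorem endac_ftc {T : P → ℝ} (hT : ContDiff ℝ ∞ T) (y y' z : ℝ) :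
    T (y, z) - T (y', z) = ∫ s in y'..y, pd 0 T (s, z) := by
  have hc : Continuous fun s : ℝ => pd 0 T (s, z) :=
    (contDiff_pd hT 0).continuous.comp (by fun_prop)
  exact (intervalIntegral.integral_eq_sub_of_hasDerivAt (f := fun s => T (s, z))
    (fun s _ => est_line (γ := fun s => (s, z)) (hT.differentiable (by simp) _) (est_h0 z s))
    (hc.intervalIntegrable _ _)).symm

theorem endac_rect1 {T : P → ℝ} (hT : ContDiff ℝ ∞ T) (h1 : ∀ y, |pd 0 T y| ≤ 1)
    (u u' y y' : ℝ) : |∫ z in u..u', (T (y, z) - T (y', z))| ≤ |y - y'| * |u' - u| := by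
  rw [← Real.norm_eq_abs]
  refine intervalIntegral.norm_integral_le_of_norm_le_const (C := |y - y'|) fun z _ => ?_
  rw [endac_ftc hT]
  have := intervalIntegral.norm_integral_le_of_norm_le_const (a := y') (b := y) (C := 1)
    (f := fun s => pd 0 T (s, z)) fun s _ => h1 _
  simpa using this

theorem endac_rect2 {T : P → ℝ} (hT : ContDiff ℝ ∞ T) (hi : Integrable (pd 0 T))
    (u u' y y' : ℝ) : |∫ z in u..u', (T (y, z) - T (y', z))| ≤ ∫ x, |pd 0 T x| := by
  have hi' : Integrable (pd 0 T) ((volume : Measure ℝ).prod (volume : Measure ℝ)) := hi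
  have hH : Integrable fun z : ℝ => ∫ s : ℝ, ‖pd 0 T (s, z)‖ := hi'.integral_norm_prod_right
  have h0 : ∀ z : ℝ, 0 ≤ ∫ s : ℝ, ‖pd 0 T (s, z)‖ := fun z => integral_nonneg fun s => norm_nonneg _
  have hae : ∀ᵐ z : ℝ, ‖T (y, z) - T (y', z)‖ ≤ ∫ s : ℝ, ‖pd 0 T (s, z)‖ := by
    filter_upwards [hi'.prod_left_ae] with z hz
    rw [endac_ftc hT]
    exact intervalIntegral.norm_integral_le_integral_norm_uIoc.trans
      (setIntegral_le_integral hz.norm (Eventually.of_forall fun s => norm_nonneg _))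
  have e : ∫ x, |pd 0 T x| = ∫ z : ℝ, ∫ s : ℝ, ‖pd 0 T (s, z)‖ :=
    integral_prod_symm (fun x : ℝ × ℝ => ‖pd 0 T x‖) hi'.norm
  rw [e]
  calc |∫ z in u..u', (T (y, z) - T (y', z))|
      ≤ ∫ z in uIoc u u', ‖T (y, z) - T (y', z)‖ := by
        rw [← Real.norm_eq_abs]
        exact intervalIntegral.norm_integral_le_integral_norm_uIoc
    _ ≤ ∫ z in uIoc u u', ∫ s : ℝ, ‖pd 0 T (s, z)‖ :=
        integral_mono_of_nonneg (Eventually.of_forall fun z => norm_nonneg _) hH.integrableOn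
          (ae_restrict_of_ae hae)
    _ ≤ ∫ z : ℝ, ∫ s : ℝ, ‖pd 0 T (s, z)‖ :=
        setIntegral_le_integral hH (Eventually.of_forall h0)

theorem endac_ii {T : P → ℝ} (hT : ContDiff ℝ ∞ T) (y u u' : ℝ) :
    IntervalIntegrable (fun z => T (y, z)) volume u u' :=
  (hT.continuous.comp (by fun_prop : Continuous fun z : ℝ => ((y, z) : P))).intervalIntegrable _ _

theorem endac_ho {f : ℝ → ℝ} {M : ℝ} (hM : 0 ≤ M) (hf : Ho f univ M) {s t l : ℝ} (hst : s ≤ t)
    (hl : t - s ≤ l) : |f t - f s| ≤ M * tw l := by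
  have h := hf t (mem_univ _) s (mem_univ _)
  rw [Real.dist_eq, abs_of_nonneg (sub_nonneg.2 hst)] at h
  exact h.trans (mul_le_mul_of_nonneg_left (tw_mono (sub_nonneg.2 hst) hl) hM)

/-- one edge -/
theorem yi_ac {f g : ℝ → ℝ} (hf : Hb f) (hg : Hb g) (l : ℝ) {θ : ℝ} (hθ : 0 < θ) : ∃ ε > 0,
    ∀ T : P → ℝ, ContDiff ℝ ∞ T → (∀ y, |pd 0 T y| ≤ 1) → Integrable (pd 0 T) →
      ∫ y, |pd 0 T y| ≤ ε → ∀ a b, a ≤ b → b - a ≤ l →
      |yi (fun s => T (f s, g s)) g a b - ∫ z in g a..g b, T (0, z)| ≤ θ := by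
  obtain ⟨M, hM, hf0, hg0, hf1, hg1⟩ := hf.two hg
  obtain ⟨ε, hε, hs⟩ := sew_small (5 * (M * M)) l (half_pos hθ)
  refine ⟨min ε (θ / 2), lt_min hε (half_pos hθ), fun T hT h1 hi hI a b hab hl => ?_⟩
  have hF : Hb fun s => T (f s, g s) := Hb.comp2 hT hf hg
  set I := prim (fun s => T (f s, g s)) g with hIdef
  set R : ℝ → ℝ → ℝ := fun s t => I t - I s - ∫ z in g s..g t, T (f t, z) with hR
  have hdef : ∀ s m t, R s t - R s m - R m t =
      - ∫ z in g s..g m, (T (f t, z) - T (f m, z)) := by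
    intro s m t
    have e1 := intervalIntegral.integral_add_adjacent_intervals
      (endac_ii hT (f t) (g s) (g m)) (endac_ii hT (f t) (g m) (g t))
    rw [intervalIntegral.integral_sub (endac_ii hT _ _ _) (endac_ii hT _ _ _)]
    simp only [hR]
    linarith
  have hpri : ∃ K', ∀ s t, a ≤ s → s ≤ t → t ≤ b → |R s t| ≤ K' * tw (t - s) ^ 2 := by
    obtain ⟨K, hK⟩ := prim_prim hF hg a b
    obtain ⟨Λ, hΛ, hL⟩ := est_lip hT M
    refine ⟨K + Λ * (M * M), fun s t h2 h3 h4 => ?_⟩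
    have k1 := hK s t h2 h3 h4
    have k2 := endac_ho hM hf1 h3 le_rfl
    have k3 := endac_ho hM hg1 h3 le_rfl
    have ht : 0 ≤ tw (t - s) := tw_nonneg (sub_nonneg.2 h3)
    have k4 : |∫ z in g s..g t, (T (f t, z) - T (f s, g s))| ≤
        Λ * (M * tw (t - s)) * |g t - g s| := by
      rw [← Real.norm_eq_abs]
      refine intervalIntegral.norm_integral_le_of_norm_le_const fun z hz => ?_
      have hz1 : |z - g s| ≤ |g t - g s| := abs_sub_left_of_mem_uIcc (uIoc_subset_uIcc hz)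
      have hz2 : |z| ≤ M := by
        have q1 := abs_le.1 (hg0 s)
        have q2 := abs_le.1 (hg0 t)
        rcases mem_uIcc.1 (uIoc_subset_uIcc hz) with q | q <;> exact abs_le.2 ⟨by linarith, by linarith⟩
      have m1 : ((f t, z) : P) ∈ closedBall (0 : P) M := by
        rw [mem_closedBall_zero_iff, Prod.norm_def]
        exact max_le (hf0 t) hz2
      have m2 : ((f s, g s) : P) ∈ closedBall (0 : P) M := by
        rw [mem_closedBall_zero_iff, Prod.norm_def]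
        exact max_le (hf0 s) (hg0 s)
      refine (hL _ m1 _ m2).trans (mul_le_mul_of_nonneg_left ?_ hΛ)
      rw [Prod.norm_def]
      exact max_le k2 (hz1.trans k3)
    rw [intervalIntegral.integral_sub (endac_ii hT _ _ _) intervalIntegrable_const,
      intervalIntegral.integral_const, smul_eq_mul] at k4
    have k5 : Λ * (M * tw (t - s)) * |g t - g s| ≤ Λ * (M * tw (t - s)) * (M * tw (t - s)) :=
      mul_le_mul_of_nonneg_left k3 (by positivity)
    have k6 := abs_le.1 k1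
    have k7 := abs_le.1 (k4.trans k5)
    simp only [hR]
    refine abs_le.2 ⟨?_, ?_⟩ <;> nlinarith [k6.1, k6.2, k7.1, k7.2]
  have hsew := sew (R := R) (a := a) (b := b) (K := M * M) (mul_nonneg hM hM) (by
    intro s t _ h3 _
    rw [hdef, abs_neg]
    have ht : 0 ≤ tw (t - s) := tw_nonneg (sub_nonneg.2 h3)
    have k2 := endac_ho hM hf1 (s := (s + t) / 2) (t := t) (l := t - s) (by linarith) (by linarith)
    have k3 := endac_ho hM hg1 (s := s) (t := (s + t) / 2) (l := t - s) (by linarith) (by linarith)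
    refine (endac_rect1 hT h1 _ _ _ _).trans
      ((mul_le_mul k2 k3 (abs_nonneg _) (by positivity)).trans (le_of_eq (by ring)))) hpri
  have hfin := hs R a b hab hl (by
    intro s t _ _ _
    rw [hdef, abs_neg]
    exact (endac_rect2 hT hi _ _ _ _).trans (hI.trans (min_le_left _ _))) hsew
  have k8 := (endac_rect2 hT hi (g a) (g b) (f b) 0).trans (hI.trans (min_le_right _ _))
  rw [intervalIntegral.integral_sub (endac_ii hT _ _ _) (endac_ii hT _ _ _)] at k8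
  have k9 := abs_le.1 hfin
  have k10 := abs_le.1 k8
  simp only [hR] at k9
  unfold yi
  refine abs_le.2 ⟨?_, ?_⟩ <;> linarith [k9.1, k9.2, k10.1, k10.2]

/-- absolute continuity of the area swept by a Hoelder loop -/
theorem yl_ac {a b : P → ℝ} (ha : Hb a) (hb : Hb b) (c : P) {r : ℝ} (hr : 0 < r) {θ : ℝ}
    (hθ : 0 < θ) : ∃ ε > 0, ∀ T : P → ℝ, ContDiff ℝ ∞ T → (∀ y, |pd 0 T y| ≤ 1) →
      Integrable (pd 0 T) → ∫ y, |pd 0 T y| ≤ ε → |yl c r (fun x => T (a x, b x)) b| ≤ θ := by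
  have h4 : 0 < θ / 4 := by linarith
  obtain ⟨ε1, p1, q1⟩ := yi_ac (ha.iso (edge_b c hr.le).1) (hb.iso (edge_b c hr.le).1) r h4
  obtain ⟨ε2, p2, q2⟩ := yi_ac (ha.iso (edge_r c hr.le).1) (hb.iso (edge_r c hr.le).1) r h4
  obtain ⟨ε3, p3, q3⟩ := yi_ac (ha.iso (edge_t c hr.le).1) (hb.iso (edge_t c hr.le).1) r h4
  obtain ⟨ε4, p4, q4⟩ := yi_ac (ha.iso (edge_l c hr.le).1) (hb.iso (edge_l c hr.le).1) r h4
  refine ⟨min (min ε1 ε2) (min ε3 ε4), lt_min (lt_min p1 p2) (lt_min p3 p4),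
    fun T hT h1 hi hI => ?_⟩
  have r1 := abs_le.1 (q1 T hT h1 hi (hI.trans ((min_le_left _ _).trans (min_le_left _ _)))
    c.1 (c.1 + r) (by linarith) (by linarith))
  have r2 := abs_le.1 (q2 T hT h1 hi (hI.trans ((min_le_left _ _).trans (min_le_right _ _)))
    c.2 (c.2 + r) (by linarith) (by linarith))
  have r3 := abs_le.1 (q3 T hT h1 hi (hI.trans ((min_le_right _ _).trans (min_le_left _ _)))
    c.1 (c.1 + r) (by linarith) (by linarith))
  have r4 := abs_le.1 (q4 T hT h1 hi (hI.trans ((min_le_right _ _).trans (min_le_right _ _)))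
    c.2 (c.2 + r) (by linarith) (by linarith))
  have e1 := intervalIntegral.integral_add_adjacent_intervals
    (endac_ii hT 0 (b (c.1, c.2)) (b (c.1 + r, c.2)))
    (endac_ii hT 0 (b (c.1 + r, c.2)) (b (c.1 + r, c.2 + r)))
  have e2 := intervalIntegral.integral_add_adjacent_intervals
    (endac_ii hT 0 (b (c.1, c.2)) (b (c.1, c.2 + r)))
    (endac_ii hT 0 (b (c.1, c.2 + r)) (b (c.1 + r, c.2 + r)))
  unfold yl
  refine abs_le.2 ⟨?_, ?_⟩ <;> linarith [r1.1, r1.2, r2.1, r2.2, r3.1, r3.2, r4.1, r4.2]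

end Pool.Agent.Bor
end
end

-- part Pool.Agent.P.MP_26ecb7_gt.EndYs
section

noncomputable section
open Set Filter Topology MeasureTheory Metric
open scoped RealInnerProductSpace ContDiff ENNReal

namespace Pool.Agent.Bor

theorem endys_edge {F G : ℕ → P → ℝ} {f g : P → ℝ} {c : P} {r M a : ℝ} {γ : ℝ → P} (hr : 0 < r)
    (e : Edge c r γ a) (hf : Hb f) (hg : Hb g)
    (h1 : TendstoUniformlyOn F f atTop (sqr c r)) (h2 : TendstoUniformlyOn G g atTop (sqr c r))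
    (hM : ∀ᶠ n in atTop, Ho (F n) (sqr c r) M ∧ Ho (G n) (sqr c r) M) {I : ℕ → ℝ → ℝ}
    (hI : ∀ᶠ n in atTop, Prim (fun s => F n (γ s)) (fun s => G n (γ s)) (I n) a (a + r)) :
    Tendsto (fun n => I n (a + r) - I n a) atTop
      (𝓝 (yi (fun s => f (γ s)) (fun s => g (γ s)) a (a + r))) := by
  obtain ⟨N, -, hfN, -, hf1, hg1⟩ := hf.two hg
  rw [Metric.tendsto_nhds]
  intro θ hθ
  obtain ⟨ε, hε, H⟩ := prim_stab (max M N) r (half_pos hθ)
  filter_upwards [hM, hI, Metric.tendstoUniformlyOn_iff.1 h1 ε hε,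
    Metric.tendstoUniformlyOn_iff.1 h2 ε hε] with n a1 a2 a3 a4
  have := H (fun s => f (γ s)) (fun s => g (γ s)) _ (fun s => F n (γ s)) (fun s => G n (γ s)) (I n)
    a (a + r) (by linarith) (by linarith)
    (e.ho (hf1.mono (subset_univ _) (le_max_right _ _)))
    (e.ho (hg1.mono (subset_univ _) (le_max_right _ _)))
    (e.ho (a1.1.mono Subset.rfl (le_max_left _ _))) (e.ho (a1.2.mono Subset.rfl (le_max_left _ _)))
    (fun s _ => (hfN _).trans (le_max_right _ _))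
    (fun s hs => (a3 _ (e.2 s hs).2).le) (fun s hs => (a4 _ (e.2 s hs).2).le)
    (prim_prim (hf.iso e.1) (hg.iso e.1) _ _) a2
  rw [dist_comm, Real.dist_eq]
  unfold yi
  linarith

theorem endys_yi {F G : ℕ → P → ℝ} {f g : P → ℝ} {c : P} {r M a : ℝ} {γ : ℝ → P} (hr : 0 < r)
    (e : Edge c r γ a) (hF : ∀ n, Hb (F n)) (hG : ∀ n, Hb (G n)) (hf : Hb f) (hg : Hb g)
    (h1 : TendstoUniformlyOn F f atTop (sqr c r)) (h2 : TendstoUniformlyOn G g atTop (sqr c r))
    (hM : ∀ᶠ n in atTop, Ho (F n) (sqr c r) M ∧ Ho (G n) (sqr c r) M) :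
    Tendsto (fun n => yi (fun s => F n (γ s)) (fun s => G n (γ s)) a (a + r)) atTop
      (𝓝 (yi (fun s => f (γ s)) (fun s => g (γ s)) a (a + r))) :=
  endys_edge hr e hf hg h1 h2 hM
    (I := fun n => prim (fun s => F n (γ s)) (fun s => G n (γ s)))
    (Eventually.of_forall fun n => prim_prim ((hF n).iso e.1) ((hG n).iso e.1) _ _)

theorem endys_int {F G : ℕ → P → ℝ} {f g : P → ℝ} {c : P} {r M a : ℝ} {γ : ℝ → P} {i : Fin 2}
    (hr : 0 < r) (e : Edge c r γ a) (hγ : ∀ s, HasDerivAt γ (e2 i) s)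
    (hF : ∀ n, ContDiff ℝ ∞ (F n)) (hG : ∀ n, ContDiff ℝ ∞ (G n)) (hf : Hb f) (hg : Hb g)
    (h1 : TendstoUniformlyOn F f atTop (sqr c r)) (h2 : TendstoUniformlyOn G g atTop (sqr c r))
    (hM : ∀ᶠ n in atTop, Ho (F n) (sqr c r) M ∧ Ho (G n) (sqr c r) M) :
    Tendsto (fun n => ∫ s in a..a + r, F n (γ s) * pd i (G n) (γ s)) atTop
      (𝓝 (yi (fun s => f (γ s)) (fun s => g (γ s)) a (a + r))) := by
  have h := endys_edge hr e hf hg h1 h2 hM
    (I := fun n t => ∫ s in a..t, F n (γ s) * pd i (G n) (γ s)) (by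
      filter_upwards [hM] with n a1
      exact prim_smooth (g' := fun s => pd i (G n) (γ s)) a (le_max_right M 0)
        ((hF n).continuous.comp e.1.continuous)
        (fun s => est_line ((hG n).differentiable (by simp) _) (hγ s))
        ((contDiff_pd (hG n) i).continuous.comp e.1.continuous)
        (e.ho (a1.1.mono Subset.rfl (le_max_left _ _)))
        (e.ho (a1.2.mono Subset.rfl (le_max_left _ _))))
  simpa only [intervalIntegral.integral_same, sub_zero] using h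

theorem yl_tendsto {F G : ℕ → P → ℝ} {f g : P → ℝ} {c : P} {r M : ℝ} (hr : 0 < r)
    (hF : ∀ n, Hb (F n)) (hG : ∀ n, Hb (G n)) (hf : Hb f) (hg : Hb g)
    (h1 : TendstoUniformlyOn F f atTop (sqr c r)) (h2 : TendstoUniformlyOn G g atTop (sqr c r))
    (hM : ∀ᶠ n in atTop, Ho (F n) (sqr c r) M ∧ Ho (G n) (sqr c r) M) :
    Tendsto (fun n => yl c r (F n) (G n)) atTop (𝓝 (yl c r f g)) :=
  (((endys_yi hr (edge_b c hr.le) hF hG hf hg h1 h2 hM).add
    (endys_yi hr (edge_r c hr.le) hF hG hf hg h1 h2 hM)).sub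
    (endys_yi hr (edge_t c hr.le) hF hG hf hg h1 h2 hM)).sub
    (endys_yi hr (edge_l c hr.le) hF hG hf hg h1 h2 hM)

theorem lp_tendsto {F G : ℕ → P → ℝ} {f g : P → ℝ} {c : P} {r M : ℝ} (hr : 0 < r)
    (hF : ∀ n, ContDiff ℝ ∞ (F n)) (hG : ∀ n, ContDiff ℝ ∞ (G n)) (hf : Hb f) (hg : Hb g)
    (h1 : TendstoUniformlyOn F f atTop (sqr c r)) (h2 : TendstoUniformlyOn G g atTop (sqr c r))
    (hM : ∀ᶠ n in atTop, Ho (F n) (sqr c r) M ∧ Ho (G n) (sqr c r) M) :
    Tendsto (fun n => lp c r (F n) (G n)) atTop (𝓝 (yl c r f g)) :=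
  (((endys_int hr (edge_b c hr.le) (est_h0 _) hF hG hf hg h1 h2 hM).add
    (endys_int hr (edge_r c hr.le) (est_h1 _) hF hG hf hg h1 h2 hM)).sub
    (endys_int hr (edge_t c hr.le) (est_h0 _) hF hG hf hg h1 h2 hM)).sub
    (endys_int hr (edge_l c hr.le) (est_h1 _) hF hG hf hg h1 h2 hM)

/-- loop integrals of forms pulled back by smooth approximations -/
theorem lp_tendsto_comp {p : ℕ → P → P} {a b : P → ℝ} {c : P} {r M : ℝ} (hr : 0 < r)
    (hp : ∀ n, ContDiff ℝ ∞ (p n)) (ha : Hb a) (hb : Hb b)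
    (h1 : TendstoUniformlyOn p (fun x => (a x, b x)) atTop (sqr c r))
    (hM : ∀ᶠ n in atTop, ∀ x ∈ sqr c r, ∀ y ∈ sqr c r, dist (p n x) (p n y) ≤ M * tw (dist x y))
    {T : P → ℝ} (hT : ContDiff ℝ ∞ T) :
    Tendsto (fun n => lp c r (fun x => T (p n x)) (fun x => (p n x).2)) atTop
      (𝓝 (yl c r (fun x => T (a x, b x)) b)) ∧
    Tendsto (fun n => lp c r (fun x => T (p n x)) (fun x => (p n x).1)) atTop
      (𝓝 (yl c r (fun x => T (a x, b x)) a)) := by
  obtain ⟨N, hN, hab, -⟩ := ha.pair hb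
  obtain ⟨Λ, hΛ, hL⟩ := est_lip hT (N + 1)
  have hU := Metric.tendstoUniformlyOn_iff.1 h1
  have hB : ∀ᶠ n in atTop, ∀ x ∈ sqr c r, p n x ∈ closedBall (0 : P) (N + 1) := by
    filter_upwards [hU 1 one_pos] with n hn x hx
    have a1 := hn x hx
    have a2 := dist_triangle (p n x) (a x, b x) 0
    have a3 := hab x
    rw [dist_comm] at a1
    rw [dist_zero_right ((a x, b x) : P)] at a2
    rw [mem_closedBall]
    linarith
  have hq : ∀ x, ((a x, b x) : P) ∈ closedBall (0 : P) (N + 1) := fun x => by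
    rw [mem_closedBall, dist_zero_right]
    linarith [hab x]
  have u0 : TendstoUniformlyOn (fun n x => T (p n x)) (fun x => T (a x, b x)) atTop (sqr c r) := by
    rw [Metric.tendstoUniformlyOn_iff]
    intro ε hε
    filter_upwards [hB, hU (ε / (Λ + 1)) (by positivity)] with n b1 b2 x hx
    have a1 := hL _ (hq x) _ (b1 x hx)
    have a2 := b2 x hx
    rw [dist_eq_norm, lt_div_iff₀ (by positivity)] at a2
    rw [dist_eq_norm]
    nlinarith [norm_nonneg (((a x, b x) : P) - p n x)]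
  have u1 : TendstoUniformlyOn (fun n x => (p n x).1) a atTop (sqr c r) :=
    uniformContinuous_fst.comp_tendstoUniformlyOn h1
  have u2 : TendstoUniformlyOn (fun n x => (p n x).2) b atTop (sqr c r) :=
    uniformContinuous_snd.comp_tendstoUniformlyOn h1
  have hH : ∀ᶠ n in atTop, Ho (fun x => T (p n x)) (sqr c r) ((Λ + 1) * max M 0) ∧
      Ho (fun x => (p n x).1) (sqr c r) ((Λ + 1) * max M 0) ∧
      Ho (fun x => (p n x).2) (sqr c r) ((Λ + 1) * max M 0) := by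
    filter_upwards [hB, hM] with n b1 b2
    have k : ∀ x ∈ sqr c r, ∀ y ∈ sqr c r,
        (Λ + 1) * dist (p n x) (p n y) ≤ (Λ + 1) * max M 0 * tw (dist x y) := fun x hx y hy => by
      rw [mul_assoc]
      exact mul_le_mul_of_nonneg_left ((b2 x hx y hy).trans
        (mul_le_mul_of_nonneg_right (le_max_left _ _) (tw_nonneg dist_nonneg))) (by positivity)
    refine ⟨fun x hx y hy => ?_, fun x hx y hy => ?_, fun x hx y hy => ?_⟩
    · have a1 := hL _ (b1 x hx) _ (b1 y hy)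
      have a2 := k x hx y hy
      rw [← dist_eq_norm (p n x), Real.norm_eq_abs] at a1
      nlinarith [dist_nonneg (x := p n x) (y := p n y)]
    · have a1 : |(p n x).1 - (p n y).1| ≤ dist (p n x) (p n y) := by
        rw [← Real.dist_eq, Prod.dist_eq]; exact le_max_left _ _
      have a2 := k x hx y hy
      nlinarith [dist_nonneg (x := p n x) (y := p n y)]
    · have a1 : |(p n x).2 - (p n y).2| ≤ dist (p n x) (p n y) := by
        rw [← Real.dist_eq, Prod.dist_eq]; exact le_max_right _ _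
      have a2 := k x hx y hy
      nlinarith [dist_nonneg (x := p n x) (y := p n y)]
  exact ⟨lp_tendsto hr (fun n => hT.comp (hp n)) (fun n => (hp n).snd) (Hb.comp2 hT ha hb) hb u0 u2
      (hH.mono fun n h => ⟨h.1, h.2.2⟩),
    lp_tendsto hr (fun n => hT.comp (hp n)) (fun n => (hp n).fst) (Hb.comp2 hT ha hb) ha u0 u1
      (hH.mono fun n h => ⟨h.1, h.2.1⟩)⟩

end Pool.Agent.Bor
end
end

-- part Pool.Agent.P.MP_26ecb7_gt.EndDeg
section

noncomputable section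
open Set Filter Topology MeasureTheory Metric
open scoped RealInnerProductSpace ContDiff ENNReal

namespace Pool.Agent.Bor

theorem enddeg_appr {a b : P → ℝ} (ha : Hb a) (hb : Hb b) : ∃ (p : ℕ → P → P) (M : ℝ),
    (∀ n, ContDiff ℝ ∞ (p n)) ∧ TendstoUniformly p (fun x => (a x, b x)) atTop ∧
    ∀ n x y, dist (p n x) (p n y) ≤ M * tw (dist x y) := by
  obtain ⟨M, hM, -, -, h1, h2⟩ := ha.two hb
  obtain ⟨U, hU1, hU2, hU3⟩ := exists_moll hM h1
  obtain ⟨V, hV1, hV2, hV3⟩ := exists_moll hM h2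
  refine ⟨fun n x => (U n x, V n x), M, fun n => (hU1 n).prodMk (hV1 n), ?_, fun n x y => ?_⟩
  · rw [Metric.tendstoUniformly_iff] at hU3 hV3 ⊢
    intro ε hε
    filter_upwards [hU3 ε hε, hV3 ε hε] with n h3 h4 x
    rw [Prod.dist_eq]
    exact max_lt (h3 x) (h4 x)
  · rw [Prod.dist_eq (x := (U n x, V n x))]
    exact max_le (hU2 n x (mem_univ _) y (mem_univ _)) (hV2 n x (mem_univ _) y (mem_univ _))

theorem enddeg_tend {a b : P → ℝ} {A : ℝ} (D : Jd a b A) {c : P} {r : ℝ} (h : Dy c r)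
    {p : ℕ → P → P} {M : ℝ} (hp : ∀ n, ContDiff ℝ ∞ (p n))
    (hu : TendstoUniformly p (fun x => (a x, b x)) atTop)
    (hM : ∀ n x y, dist (p n x) (p n y) ≤ M * tw (dist x y)) {δ : ℝ} (hδ : 0 < δ) (z : P) :
    Tendsto (fun n => wind δ z c r (p n)) atTop
      (𝓝 (A * ∫ x in sqr c r, th δ ((a x, b x) - z))) := by
  have hc : Continuous fun x => ((a x, b x) : P) := D.ha.continuous.prodMk D.hb.continuous
  have h1 := (lp_tendsto_comp (M := M) (c := c) h.pos hp D.ha D.hb hu.tendstoUniformlyOn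
    (Eventually.of_forall fun n x _ y _ => hM n x y) (contDiff_t1 hδ z)).1
  have h2 := (lp_tendsto_comp (M := M) (c := c) h.pos hp D.ha D.hb hu.tendstoUniformlyOn
    (Eventually.of_forall fun n x _ y _ => hM n x y) (contDiff_t2 hδ z)).2
  rw [D.j0 _ (contDiff_t1 hδ z) c r h] at h1
  rw [D.j1 _ (contDiff_t2 hδ z) c r h] at h2
  have hi : ∀ {T : P → ℝ}, ContDiff ℝ ∞ T → ∀ i,
      IntegrableOn (fun x => pd i T (a x, b x)) (sqr c r) := fun hT i =>
    ContinuousOn.integrableOn_compact (sqr_compact c r) ((dens_pd hT i).comp hc).continuousOn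
  have h3 := h1.add h2
  rw [neg_mul, ← sub_eq_add_neg, ← mul_sub,
    ← integral_sub (hi (contDiff_t1 hδ z) 0) (hi (contDiff_t2 hδ z) 1)] at h3
  have e : (fun x => pd 0 (t1 δ z) (a x, b x) - pd 1 (t2 δ z) (a x, b x))
      = fun x => th δ ((a x, b x) - z) := by
    funext x
    exact div_t hδ z _
  rw [e] at h3
  exact h3

/-- the local degree -/
theorem Jd.deg {a b : P → ℝ} {A : ℝ} (D : Jd a b A) {c z0 : P} {r : ℝ} (h : Dy c r)
    (hz : ∀ x ∈ frontier (sqr c r), ((a x, b x) : P) ≠ z0) : ∃ ρ > 0, ∃ m : ℤ,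
      (∀ x ∈ frontier (sqr c r), ρ ≤ dist ((a x, b x) : P) z0) ∧
      (∀ δ, 0 < δ → δ < ρ → ∀ z ∈ ball z0 ρ, A * ∫ x in sqr c r, th δ ((a x, b x) - z) = m) ∧
      ((∃ x ∈ sqr c r, ((a x, b x) : P) = z0) → 1 ≤ m) := by
  obtain ⟨p, M, hp, hu, hM⟩ := enddeg_appr D.ha D.hb
  have tend := fun {δ : ℝ} (hδ : 0 < δ) (z : P) => enddeg_tend D h hp hu hM hδ z
  set q : P → P := fun x => (a x, b x) with hqd
  have hqc : Continuous q := D.ha.continuous.prodMk D.hb.continuous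
  set Q := sqr c r with hQ
  have hc : IsCompact Q := sqr_compact c r
  have hm : MeasurableSet Q := hc.measurableSet
  have hfQ : frontier Q ⊆ Q := hc.isClosed.frontier_subset
  have hcl : IsClosed (q '' frontier Q) :=
    ((hc.of_isClosed_subset isClosed_frontier hfQ).image hqc).isClosed
  have hy : z0 ∉ q '' frontier Q := by
    rintro ⟨x, hx, e⟩
    exact hz x hx e
  obtain ⟨ρ0, hρ0, hb⟩ := Metric.isOpen_iff.1 hcl.isOpen_compl _ hy
  have hfar : ∀ x ∈ frontier Q, ρ0 ≤ dist (q x) z0 := fun x hx' =>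
    not_lt.1 fun h => hb (mem_ball.2 h) ⟨x, hx', rfl⟩
  set ρ := ρ0 / 4 with hρ
  have hρp : 0 < ρ := by positivity
  have hfin : IsFiniteMeasure (volume.restrict Q) :=
    isFiniteMeasure_restrict.2 hc.measure_lt_top.ne
  set ν : Measure P := (volume.restrict Q).map q with hν
  have hint : ∀ δ z, ∫ y, th δ (y - z) ∂ν = ∫ x in Q, th δ (q x - z) := by
    intro δ z
    have hct : Continuous fun y => th δ (y - z) :=
      (continuous_th δ).comp (continuous_id.sub continuous_const)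
    rw [hν, integral_map hqc.aemeasurable hct.aestronglyMeasurable]
  have hev : ∀ z ∈ ball z0 ρ, ∀ᶠ n in atTop, ∀ x ∈ frontier Q, ρ ≤ dist (p n x) z := by
    intro z hz
    filter_upwards [Metric.tendstoUniformly_iff.1 hu ρ hρp] with n hn x hx'
    have a1 := hn x
    have a2 := hfar x hx'
    have a3 := dist_triangle4 (q x) (p n x) z z0
    have a4 := mem_ball.1 hz
    linarith
  have hZ : ∀ δ, 0 < δ → δ ≤ ρ → ∀ z ∈ ball z0 ρ,
      A * ∫ y, th δ (y - z) ∂ν ∈ range ((↑) : ℤ → ℝ) := by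
    intro δ hδ hδ' z hz
    rw [hint]
    refine Int.isClosedEmbedding_coe_real.isClosed_range.mem_of_tendsto (tend hδ z) ?_
    filter_upwards [hev z hz] with n hn
    obtain ⟨m, hm⟩ := wind_int hδ h.pos (hp n) fun x hx' => hδ'.trans (hn x hx')
    exact ⟨m, hm.symm⟩
  have hI : ∀ δ, 0 < δ → δ ≤ ρ → ∀ z ∈ ball z0 ρ,
      A * ∫ y, th δ (y - z) ∂ν = A * ∫ y, th ρ (y - z) ∂ν := by
    intro δ hδ hδ' z hz
    rw [hint, hint]
    refine tendsto_nhds_unique_of_eventuallyEq (tend hδ z) (tend hρp z) ?_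
    filter_upwards [hev z hz] with n hn
    exact wind_indep hδ hρp h.pos (fun x hx' => hδ'.trans (hn x hx')) hn
  obtain ⟨m, hm0⟩ := hZ ρ hρp le_rfl _ (mem_ball_self hρp)
  have hconst : ∀ δ, 0 < δ → δ < ρ → ∀ z ∈ ball z0 ρ, A * ∫ y, th δ (y - z) ∂ν = m := by
    intro δ hδ hδ' z hz
    rw [hI δ hδ hδ'.le z hz, hm0]
    exact (convex_ball z0 ρ).isPreconnected.constant_of_mapsTo
      (f := fun z => A * ∫ y, th ρ (y - z) ∂ν)
      Int.isClosedEmbedding_coe_real.isInducing.isDiscrete_range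
      (continuous_const.mul (dens_cont hρp)).continuousOn
      (fun z hz => hZ ρ hρp le_rfl z hz) hz (mem_ball_self hρp)
  refine ⟨ρ, hρp, m, fun x hx => le_trans (by linarith) (hfar x hx), fun δ hδ hδ' z hz => ?_, ?_⟩
  · rw [← hconst δ hδ hδ' z hz, hint]
  · rintro ⟨x0, hx0, e⟩
    have hA := D.pos
    have hconst' : ∀ δ, 0 < δ → δ < ρ → ∀ z ∈ ball z0 ρ, ∫ y, th δ (y - z) ∂ν = m / A := by
      intro δ hδ hδ' z hz
      rw [eq_div_iff hA.ne', mul_comm]
      exact hconst δ hδ hδ' z hz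
    have hpos : (0 : ℝ) < m / A := by
      refine (le_of_kernel hρp hconst').1 fun h0 => ?_
      rw [hν, Measure.map_apply hqc.measurable measurableSet_ball, Measure.restrict_apply' hm] at h0
      have h2 : q ⁻¹' ball z0 (ρ / 4) ∈ 𝓝 x0 := by
        refine hqc.continuousAt.preimage_mem_nhds ?_
        rw [show q x0 = z0 from e]
        exact ball_mem_nhds _ (by positivity)
      obtain ⟨ε, hε, hs⟩ := Metric.mem_nhds_iff.1 h2
      refine vol_sqr_ball h.pos hε hx0 (measure_mono_null ?_ h0)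
      exact fun y hy => ⟨hs hy.2, hy.1⟩
    have h3 : (0 : ℝ) < m := (div_pos_iff_of_pos_right hA).1 hpos
    have h4 : 0 < m := by exact_mod_cast h3
    exact h4

end Pool.Agent.Bor
end
end

-- part Pool.Agent.P.MP_26ecb7_gt.EndInj
section

noncomputable section
open Set Filter Topology MeasureTheory Metric
open scoped RealInnerProductSpace ContDiff ENNReal

namespace Pool.Agent.Bor

variable {a b : P → ℝ} {A : ℝ}

theorem Hb.null_frontier (ha : Hb a) (hb : Hb b) (c : P) {r : ℝ} (hr : 0 < r) :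
    volume ((fun x => ((a x, b x) : P)) '' frontier (sqr c r)) = 0 := by
  obtain ⟨M, -, -, hM⟩ := ha.pair hb
  refine Bor.null_frontier (M := M) (a := 2 / 3) hr (by norm_num) fun x _ y _ => ?_
  rw [dist_eq_norm]
  exact hM x y

theorem Jd.nondeg (D : Jd a b A) :
    ∃ x ∈ sqr 0 1, ∀ y ∈ frontier (sqr 0 1), ((a y, b y) : P) ≠ (a x, b x) := by
  by_contra hcon
  push Not at hcon
  have hc : Continuous fun x => ((a x, b x) : P) := D.ha.continuous.prodMk D.hb.continuous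
  have hK : IsCompact ((fun x => ((a x, b x) : P)) '' frontier (sqr 0 1)) :=
    ((sqr_compact 0 1).of_isClosed_subset isClosed_frontier
      (sqr_compact 0 1).isClosed.frontier_subset).image hc
  obtain ⟨ε, hε, hac⟩ := yl_ac D.ha D.hb 0 one_pos (half_pos D.pos)
  obtain ⟨φ, p1, p2, p3, p4, p5⟩ := exists_thin hK (D.ha.null_frontier D.hb 0 one_pos) hε
  obtain ⟨T, t1, t2⟩ := exists_pd0 p1 p2
  have e : pd 0 T = φ := funext t2
  have h1 := hac T t1 (fun y => by rw [e, abs_of_nonneg (p3 y).1]; exact (p3 y).2)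
    (by rw [e]; exact p1.continuous.integrable_of_hasCompactSupport p2)
    (by
      rw [e]
      simpa only [fun y => abs_of_nonneg (p3 y).1] using p5)
  have h2 : ∫ x in sqr 0 1, pd 0 T (a x, b x) = 1 := by
    rw [setIntegral_congr_fun (g := fun _ => (1 : ℝ)) (sqr_compact 0 1).measurableSet]
    · simp [Measure.real, volume_sqr]
    · intro x hx
      obtain ⟨y, hy, hyx⟩ := hcon x hx
      exact (t2 _).trans (p4 _ ⟨y, hy, hyx⟩)
  rw [D.j0 T t1 0 1 Dy.base, h2, mul_one, abs_of_pos D.pos] at h1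
  linarith [D.pos]

/-- on a square of minimal degree almost every value near a value is taken once -/
theorem Jd.inj (D : Jd a b A) : ∃ c r, Dy c r ∧ ∃ x0 ∈ sqr c r, ∃ ρ > 0,
    (∀ x ∈ frontier (sqr c r), ρ ≤ dist ((a x, b x) : P) (a x0, b x0)) ∧
    ∃ Z : Set P, volume Z = 0 ∧ ∀ x ∈ sqr c r, ∀ x' ∈ sqr c r,
      ((a x, b x) : P) ∈ ball ((a x0, b x0) : P) ρ → ((a x, b x) : P) ∉ Z →
      ((a x', b x') : P) = (a x, b x) → x' = x := by
  have hc : Continuous fun x => ((a x, b x) : P) := D.ha.continuous.prodMk D.hb.continuous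
  obtain ⟨m, ⟨hm1, c, r, x0, ρ, hV, hx0, hρ, hfr, hdeg⟩, hmin⟩ := Int.exists_least_of_bdd
    (P := fun m : ℤ => 1 ≤ m ∧ ∃ (c : P) (r : ℝ) (x0 : P) (ρ : ℝ), Dy c r ∧ x0 ∈ sqr c r ∧ 0 < ρ ∧
      (∀ x ∈ frontier (sqr c r), ρ ≤ dist ((a x, b x) : P) (a x0, b x0)) ∧
      ∀ δ, 0 < δ → δ < ρ → ∀ z ∈ ball ((a x0, b x0) : P) ρ,
        A * ∫ x in sqr c r, th δ ((a x, b x) - z) = m)
    ⟨1, fun z hz => hz.1⟩ (by
      obtain ⟨x0, hx0, hne⟩ := D.nondeg
      obtain ⟨ρ, hρ, m, d1, d2, d3⟩ := D.deg Dy.base hne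
      exact ⟨m, d3 ⟨x0, hx0, rfl⟩, 0, 1, x0, ρ, Dy.base, hx0, hρ, d1, d2⟩)
  refine ⟨c, r, hV, x0, hx0, ρ, hρ, hfr,
    ⋃ p ∈ {p : P × ℝ | Dy p.1 p.2}, (fun x => ((a x, b x) : P)) '' frontier (sqr p.1 p.2),
    (measure_biUnion_null_iff Dy.countable).2 fun p hp =>
      D.ha.null_frontier D.hb p.1 (Dy.pos hp), fun x hx x' hx' hb hZ he => ?_⟩
  by_contra hne
  have hd : 0 < dist x' x / 2 := half_pos (dist_pos.2 hne)
  have key : ∀ y ∈ sqr c r, ((a y, b y) : P) = (a x, b x) → ∃ c' r', r' < dist x' x / 2 ∧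
      y ∈ sqr c' r' ∧ sqr c' r' ⊆ sqr c r ∧ ∃ ρ' > 0, ∃ m' : ℤ, m ≤ m' ∧ ∀ δ, 0 < δ → δ < ρ' →
        A * ∫ u in sqr c' r', th δ ((a u, b u) - (a x, b x)) = m' := fun y hy hyx => by
    obtain ⟨c', r', a1, a2, a3, a4⟩ := hV.exists_small hy hd
    obtain ⟨ρ', hρ', m', d1, d2, d3⟩ := D.deg (z0 := (a x, b x)) a1 fun u hu hux =>
      hZ (mem_biUnion (x := (c', r')) a1 ⟨u, hu, hux⟩)
    refine ⟨c', r', a2, a3, a4, ρ', hρ', m', hmin m' ⟨d3 ⟨y, a3, hyx⟩, c', r', y, ρ', a1, a3, hρ',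
      ?_, ?_⟩, fun δ h1 h2 => d2 δ h1 h2 _ (mem_ball_self hρ')⟩
    · rw [hyx]; exact d1
    · rw [hyx]; exact d2
  obtain ⟨c1, r1, a1, a2, a3, ρ1, hρ1, m1, a4, a5⟩ := key x hx rfl
  obtain ⟨c2, r2, b1, b2, b3, ρ2, hρ2, m2, b4, b5⟩ := key x' hx' he
  have hdis : Disjoint (sqr c1 r1) (sqr c2 r2) := by
    refine disjoint_left.2 fun y h1 h2 => ?_
    have := dist_triangle x' y x
    linarith [dist_le_of_sqr b2 h2, dist_le_of_sqr h1 a2]
  have hmn : 0 < min ρ (min ρ1 ρ2) := lt_min hρ (lt_min hρ1 hρ2)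
  have hδ : 0 < min ρ (min ρ1 ρ2) / 2 := half_pos hmn
  have hl := half_lt_self hmn
  have e0 := hdeg _ hδ (hl.trans_le (min_le_left _ _)) _ hb
  have e1 := a5 _ hδ (hl.trans_le ((min_le_right _ _).trans (min_le_left _ _)))
  have e2 := b5 _ hδ (hl.trans_le ((min_le_right _ _).trans (min_le_right _ _)))
  generalize min ρ (min ρ1 ρ2) / 2 = δ at hδ e0 e1 e2
  have hf : Continuous fun u => th δ (((a u, b u) : P) - (a x, b x)) :=
    (continuous_th δ).comp (hc.sub continuous_const)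
  have hI : ∀ (c : P) (r : ℝ),
      IntegrableOn (fun u => th δ (((a u, b u) : P) - (a x, b x))) (sqr c r) := fun c r =>
    hf.continuousOn.integrableOn_compact (sqr_compact c r)
  have h1 := setIntegral_union hdis (sqr_compact c2 r2).measurableSet (hI c1 r1) (hI c2 r2)
  have h2 := setIntegral_mono_set (hI c r) (ae_of_all _ fun u => th_nonneg hδ _)
    (union_subset a3 b3).eventuallyLE
  have h3 := mul_le_mul_of_nonneg_left h2 D.pos.le
  rw [h1, mul_add, e0, e1, e2] at h3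
  have h4 : m1 + m2 ≤ m := by exact_mod_cast h3
  omega

end Pool.Agent.Bor
end
end

-- part Pool.Agent.P.MP_26ecb7_gt.EndRect
section

noncomputable section
open Set Filter Topology MeasureTheory Metric
open scoped RealInnerProductSpace ContDiff ENNReal

namespace Pool.Agent.Bor

/-- the loop integral over the rectangle with corners the origin and `(s, t)` -/
def endrect_R (q1 q2 : P → ℝ) (s t : ℝ) : ℝ :=
  yi (fun u => q2 (u, 0)) (fun u => q1 (u, 0)) 0 s + yi (fun u => q2 (s, u)) (fun u => q1 (s, u)) 0 t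
    - yi (fun u => q2 (u, t)) (fun u => q1 (u, t)) 0 s
    - yi (fun u => q2 (0, u)) (fun u => q1 (0, u)) 0 t

theorem endrect_step (q1 q2 : P → ℝ) (s t h : ℝ) :
    endrect_R q1 q2 (s + h) (t + h) = endrect_R q1 q2 s (t + h) + endrect_R q1 q2 (s + h) t
      - endrect_R q1 q2 s t + yl (s, t) h q2 q1 := by
  unfold endrect_R yl yi
  dsimp only
  ring

theorem endrect_left (q1 q2 : P → ℝ) (t : ℝ) : endrect_R q1 q2 0 t = 0 := by
  unfold endrect_R yi
  ring

theorem endrect_bot (q1 q2 : P → ℝ) (s : ℝ) : endrect_R q1 q2 s 0 = 0 := by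
  unfold endrect_R yi
  ring

theorem endrect_grid {q1 q2 : P → ℝ} {A : ℝ} (D : Nd q1 q2 A) {h : ℝ} (hh : 0 < h) :
    ∀ i j : ℕ, (i : ℝ) * h ≤ 1 → (j : ℝ) * h ≤ 1 → endrect_R q1 q2 (i * h) (j * h) = 0 := by
  intro i
  induction i with
  | zero =>
    intro j _ _
    simpa using endrect_left q1 q2 (j * h)
  | succ i ih =>
    intro j hi
    have hi1 : ((i + 1 : ℕ) : ℝ) * h = i * h + h := by push_cast; ring
    have hi0 : (0 : ℝ) ≤ i * h := by positivity
    induction j with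
    | zero =>
      intro _
      simpa using endrect_bot q1 q2 (((i + 1 : ℕ) : ℝ) * h)
    | succ j ihj =>
      intro hj
      have hj1 : ((j + 1 : ℕ) : ℝ) * h = j * h + h := by push_cast; ring
      have hj0 : (0 : ℝ) ≤ j * h := by positivity
      have hi' : (i : ℝ) * h ≤ 1 := by linarith
      have hj' : (j : ℝ) * h ≤ 1 := by linarith
      have e1 := ih (j + 1) hi' hj
      have e2 := ihj hj'
      have e3 := ih j hi' hj'
      have e4 : yl ((i : ℝ) * h, (j : ℝ) * h) h q2 q1 = 0 := by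
        refine D.z0 _ _ hh ?_
        unfold sqr
        refine Icc_subset_Icc ⟨hi0, hj0⟩ ⟨?_, ?_⟩
        · show (i : ℝ) * h + h ≤ (0 : P).1 + 1
          simp only [Prod.fst_zero]
          linarith
        · show (j : ℝ) * h + h ≤ (0 : P).2 + 1
          simp only [Prod.snd_zero]
          linarith
      rw [hi1] at e2 ⊢
      rw [hj1] at e1 ⊢
      rw [endrect_step, e1, e2, e3, e4]
      ring

/-- bounded and Hoelder with a given constant -/
def endrect_G {X : Type} [PseudoMetricSpace X] (u : X → ℝ) (M : ℝ) : Prop :=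
  0 ≤ M ∧ (∀ x, |u x| ≤ M) ∧ Ho u univ M

theorem endrect_G_iso {u : P → ℝ} {M : ℝ} (hu : endrect_G u M) {γ : ℝ → P} (hγ : Isometry γ) :
    endrect_G (fun s => u (γ s)) M := by
  refine ⟨hu.1, fun x => hu.2.1 _, fun x _ y _ => ?_⟩
  have := hu.2.2 (γ x) (mem_univ _) (γ y) (mem_univ _)
  rwa [hγ.dist_eq] at this

theorem endrect_row (t : ℝ) : Isometry fun u : ℝ => ((u, t) : P) :=
  Isometry.of_dist_eq fun x y => by simp [Prod.dist_eq]

theorem endrect_col (s : ℝ) : Isometry fun u : ℝ => ((s, u) : P) :=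
  Isometry.of_dist_eq fun x y => by simp [Prod.dist_eq]

theorem endrect_short {f g : ℝ → ℝ} {M a b : ℝ} (hf : endrect_G f M) (hg : endrect_G g M)
    (hab : a ≤ b) (hl : b - a ≤ 1) : |yi f g a b| ≤ 6 * (M * M) * tw (b - a) := by
  have hM := hf.1
  have h0 : 0 ≤ b - a := by linarith
  have h1 := yi_bound (f := f) (g := g) ⟨M, hf⟩ ⟨M, hg⟩ hab hM hM
    (hf.2.2.mono (subset_univ _) le_rfl) (hg.2.2.mono (subset_univ _) le_rfl)
  have h2 : |g b - g a| ≤ M * tw (b - a) := by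
    have := hg.2.2 b (mem_univ _) a (mem_univ _)
    rwa [Real.dist_eq, abs_of_nonneg h0] at this
  have h3 : |f a * (g b - g a)| ≤ M * (M * tw (b - a)) := by
    rw [abs_mul]
    exact mul_le_mul (hf.2.1 a) h2 (abs_nonneg _) hM
  have t0 := tw_nonneg h0
  have t1 := tw_le_one h0 hl
  have h4 : tw (b - a) ^ 2 ≤ tw (b - a) := by nlinarith
  have h5 : 5 * (M * M) * tw (b - a) ^ 2 ≤ 5 * (M * M) * tw (b - a) :=
    mul_le_mul_of_nonneg_left h4 (by positivity)
  have h6 : |yi f g a b| ≤ |yi f g a b - f a * (g b - g a)| + |f a * (g b - g a)| := by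
    have := abs_add_le (yi f g a b - f a * (g b - g a)) (f a * (g b - g a))
    simpa using this
  linarith

theorem endrect_stab (M : ℝ) {θ : ℝ} (hθ : 0 < θ) : ∃ ε > 0, ∀ (f g f' g' : ℝ → ℝ) (b : ℝ),
    0 ≤ b → b ≤ 1 → endrect_G f M → endrect_G g M → endrect_G f' M → endrect_G g' M →
    (∀ s, |f s - f' s| ≤ ε) → (∀ s, |g s - g' s| ≤ ε) → |yi f g 0 b - yi f' g' 0 b| ≤ θ := by
  obtain ⟨ε, hε, H⟩ := prim_stab M 1 hθ
  refine ⟨ε, hε, fun f g f' g' b hb hb1 hf hg hf' hg' h1 h2 => ?_⟩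
  exact H f g (prim f g) f' g' (prim f' g') 0 b hb (by linarith)
    (hf.2.2.mono (subset_univ _) le_rfl) (hg.2.2.mono (subset_univ _) le_rfl)
    (hf'.2.2.mono (subset_univ _) le_rfl) (hg'.2.2.mono (subset_univ _) le_rfl)
    (fun s _ => hf.2.1 s) (fun s _ => h1 s) (fun s _ => h2 s)
    (prim_prim ⟨M, hf⟩ ⟨M, hg⟩ 0 b) (prim_prim ⟨M, hf'⟩ ⟨M, hg'⟩ 0 b)

theorem endrect_cont {q1 q2 : P → ℝ} (h1 : Hb q1) (h2 : Hb q2) {θ : ℝ} (hθ : 0 < θ) :
    ∃ δ > 0, ∀ s t s' t' : ℝ, 0 ≤ s' → s' ≤ s → s ≤ 1 → 0 ≤ t' → t' ≤ t → t ≤ 1 → s - s' < δ →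
      t - t' < δ → |endrect_R q1 q2 s t - endrect_R q1 q2 s' t'| ≤ 6 * θ := by
  obtain ⟨M, hM, a1, a2, b1, b2⟩ := h1.two h2
  have g1 : endrect_G q1 M := ⟨hM, a1, b1⟩
  have g2 : endrect_G q2 M := ⟨hM, a2, b2⟩
  obtain ⟨ε, hε, H⟩ := endrect_stab M hθ
  have hη : 0 < min (ε / (M + 1)) (θ / (6 * (M * M) + 1)) := by positivity
  obtain ⟨δ, hδ, Hδ⟩ := tw_small hη
  have hA : ∀ r, 0 ≤ r → r < δ → M * tw r ≤ ε := by
    intro r hr hr'
    have h3 := (Hδ r hr hr').le.trans (min_le_left _ _)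
    rw [le_div_iff₀ (by positivity)] at h3
    have := tw_nonneg hr
    nlinarith
  have hB : ∀ r, 0 ≤ r → r < δ → 6 * (M * M) * tw r ≤ θ := by
    intro r hr hr'
    have h3 := (Hδ r hr hr').le.trans (min_le_right _ _)
    rw [le_div_iff₀ (by positivity)] at h3
    have := tw_nonneg hr
    nlinarith
  refine ⟨δ, hδ, fun s t s' t' hs0 hs hs1 ht0 ht ht1 ds dt => ?_⟩
  have rowc : ∀ q : P → ℝ, endrect_G q M → ∀ u, |q (u, t) - q (u, t')| ≤ ε := by
    intro q hq u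
    have := hq.2.2 (u, t) (mem_univ _) (u, t') (mem_univ _)
    rw [(endrect_col u).dist_eq, Real.dist_eq, abs_of_nonneg (sub_nonneg.mpr ht)] at this
    exact this.trans (hA _ (by linarith) dt)
  have colc : ∀ q : P → ℝ, endrect_G q M → ∀ u, |q (s, u) - q (s', u)| ≤ ε := by
    intro q hq u
    have := hq.2.2 (s, u) (mem_univ _) (s', u) (mem_univ _)
    rw [(endrect_row u).dist_eq, Real.dist_eq, abs_of_nonneg (sub_nonneg.mpr hs)] at this
    exact this.trans (hA _ (by linarith) ds)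
  have r1 := fun t => endrect_G_iso g1 (endrect_row t)
  have r2 := fun t => endrect_G_iso g2 (endrect_row t)
  have c1 := fun s => endrect_G_iso g1 (endrect_col s)
  have c2 := fun s => endrect_G_iso g2 (endrect_col s)
  have e1 := (endrect_short (r2 0) (r1 0) hs (by linarith)).trans (hB _ (by linarith) ds)
  have e2 := (endrect_short (r2 t) (r1 t) hs (by linarith)).trans (hB _ (by linarith) ds)
  have e3 := (endrect_short (c2 0) (c1 0) ht (by linarith)).trans (hB _ (by linarith) dt)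
  have e4 := (endrect_short (c2 s) (c1 s) ht (by linarith)).trans (hB _ (by linarith) dt)
  have e5 := H _ _ _ _ s' hs0 (by linarith) (r2 t) (r1 t) (r2 t') (r1 t') (rowc q2 g2) (rowc q1 g1)
  have e6 := H _ _ _ _ t' ht0 (by linarith) (c2 s) (c1 s) (c2 s') (c1 s') (colc q2 g2) (colc q1 g1)
  unfold endrect_R
  unfold yi at *
  rw [abs_le] at *
  constructor <;> linarith [e1.1, e1.2, e2.1, e2.2, e3.1, e3.2, e4.1, e4.2, e5.1, e5.2, e6.1, e6.2]

/-- the loop integral over a rectangle with a corner at the origin vanishes -/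
theorem Nd.rect {q1 q2 : P → ℝ} {A : ℝ} (D : Nd q1 q2 A) {s t : ℝ} (hs : s ∈ Icc (0 : ℝ) 1)
    (ht : t ∈ Icc (0 : ℝ) 1) :
    yi (fun u => q2 (u, 0)) (fun u => q1 (u, 0)) 0 s + yi (fun u => q2 (s, u)) (fun u => q1 (s, u)) 0 t
      - yi (fun u => q2 (u, t)) (fun u => q1 (u, t)) 0 s
      - yi (fun u => q2 (0, u)) (fun u => q1 (0, u)) 0 t = 0 := by
  change endrect_R q1 q2 s t = 0
  have key : ∀ θ : ℝ, 0 < θ → |endrect_R q1 q2 s t| ≤ 0 + θ := by
    intro θ hθ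
    obtain ⟨δ, hδ, H⟩ := endrect_cont D.h1 D.h2 (θ := θ / 6) (by positivity)
    have fl : ∀ x : ℝ, 0 ≤ x → (⌊x / δ⌋₊ : ℝ) * δ ≤ x ∧ x - (⌊x / δ⌋₊ : ℝ) * δ < δ := by
      intro x hx
      have a1 : (⌊x / δ⌋₊ : ℝ) ≤ x / δ := Nat.floor_le (by positivity)
      have a2 : x / δ < ⌊x / δ⌋₊ + 1 := Nat.lt_floor_add_one _
      rw [le_div_iff₀ hδ] at a1
      rw [div_lt_iff₀ hδ] at a2
      exact ⟨a1, by linarith⟩
    obtain ⟨s1, s2⟩ := fl s hs.1
    obtain ⟨t1, t2⟩ := fl t ht.1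
    have z := endrect_grid D hδ ⌊s / δ⌋₊ ⌊t / δ⌋₊ (s1.trans hs.2) (t1.trans ht.2)
    have := H s t _ _ (by positivity) s1 hs.2 (by positivity) t1 ht.2 s2 t2
    rw [z, sub_zero] at this
    linarith
  exact abs_nonpos_iff.mp (le_of_forall_pos_le_add key)

end Pool.Agent.Bor
end
end

-- part Pool.Agent.P.MP_26ecb7_gt.EndLift
section

noncomputable section
open Set Filter Topology MeasureTheory Metric
open scoped RealInnerProductSpace ContDiff ENNReal

namespace Pool.Agent.Bor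

theorem endlift_sym {f g : ℝ → ℝ} (hf : Hb f) (hg : Hb g) {M : ℝ} (hM : 0 ≤ M)
    (hf1 : Ho f univ M) (hg1 : Ho g univ M) (a b : ℝ) :
    |yi f g a b - f a * (g b - g a)| ≤ 6 * (M * M) * tw (dist a b) ^ 2 := by
  have hMM : 0 ≤ M * M := mul_nonneg hM hM
  rcases le_total a b with hab | hab
  · have h := yi_bound hf hg hab hM hM (hf1.mono (subset_univ _) le_rfl)
      (hg1.mono (subset_univ _) le_rfl)
    have hd : dist a b = b - a := by
      rw [Real.dist_eq, abs_sub_comm, abs_of_nonneg (sub_nonneg.2 hab)]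
    rw [hd]
    have h2 : 0 ≤ M * M * tw (b - a) ^ 2 := mul_nonneg hMM (sq_nonneg _)
    linarith
  · have h := yi_bound hf hg hab hM hM (hf1.mono (subset_univ _) le_rfl)
      (hg1.mono (subset_univ _) le_rfl)
    have hd : dist a b = a - b := by
      rw [Real.dist_eq, abs_of_nonneg (sub_nonneg.2 hab)]
    have h1 := hf1 a (mem_univ _) b (mem_univ _)
    have h2 := hg1 a (mem_univ _) b (mem_univ _)
    rw [hd] at h1 h2 ⊢
    have he : yi f g a b - f a * (g b - g a)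
        = -(yi f g b a - f b * (g a - g b)) + (f a - f b) * (g a - g b) := by
      unfold yi
      ring
    have h3 : |(f a - f b) * (g a - g b)| ≤ M * M * tw (a - b) ^ 2 := by
      rw [abs_mul]
      calc |f a - f b| * |g a - g b| ≤ (M * tw (a - b)) * (M * tw (a - b)) :=
            mul_le_mul h1 h2 (abs_nonneg _) ((abs_nonneg _).trans h1)
        _ = M * M * tw (a - b) ^ 2 := by ring
    rw [he]
    have h4 := abs_add_le (-(yi f g b a - f b * (g a - g b))) ((f a - f b) * (g a - g b))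
    rw [abs_neg] at h4
    linarith

theorem endlift_isoR (t : ℝ) : Isometry fun u : ℝ => ((u, t) : P) := by
  refine Isometry.of_dist_eq fun a b => ?_
  simp [Prod.dist_eq]

theorem endlift_isoC (s : ℝ) : Isometry fun u : ℝ => ((s, u) : P) := by
  refine Isometry.of_dist_eq fun a b => ?_
  simp [Prod.dist_eq]

theorem endlift_ho {q : P → ℝ} {M : ℝ} (h : Ho q univ M) {γ : ℝ → P} (hγ : Isometry γ) :
    Ho (fun u => q (γ u)) univ M := by
  intro a _ b _
  have := h (γ a) (mem_univ _) (γ b) (mem_univ _)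
  rwa [hγ.dist_eq] at this

/-- the lift before its extension -/
def endliftW (q1 q2 : P → ℝ) (x : P) : ℝ :=
  - yi (fun u => q2 (u, 0)) (fun u => q1 (u, 0)) 0 x.1
    - yi (fun u => q2 (x.1, u)) (fun u => q1 (x.1, u)) 0 x.2

theorem endlift_col (q1 q2 : P → ℝ) (s t t' : ℝ) :
    endliftW q1 q2 (s, t') - endliftW q1 q2 (s, t)
      = - yi (fun u => q2 (s, u)) (fun u => q1 (s, u)) t t' := by
  have := yi_add3 (fun u => q2 (s, u)) (fun u => q1 (s, u)) 0 t t'
  simp only [endliftW]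
  linarith

theorem endlift_row {q1 q2 : P → ℝ} {A : ℝ} (D : Nd q1 q2 A) {s s' t : ℝ}
    (hs : s ∈ Icc (0 : ℝ) 1) (hs' : s' ∈ Icc (0 : ℝ) 1) (ht : t ∈ Icc (0 : ℝ) 1) :
    endliftW q1 q2 (s', t) - endliftW q1 q2 (s, t)
      = - yi (fun u => q2 (u, t)) (fun u => q1 (u, t)) s s' := by
  have h1 := D.rect hs ht
  have h2 := D.rect hs' ht
  have := yi_add3 (fun u => q2 (u, t)) (fun u => q1 (u, t)) 0 s s'
  simp only [endliftW]
  linarith

theorem endlift_mem {x : P} (hx : x ∈ sqr 0 1) : x.1 ∈ Icc (0 : ℝ) 1 ∧ x.2 ∈ Icc (0 : ℝ) 1 := by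
  rw [mem_sqr] at hx
  simpa using hx

theorem endlift_est {q1 q2 : P → ℝ} {A : ℝ} (D : Nd q1 q2 A) {M : ℝ} (hM : 0 ≤ M)
    (h1 : Ho q1 univ M) (h2 : Ho q2 univ M) {x y : P} (hx : x ∈ sqr 0 1) (hy : y ∈ sqr 0 1) :
    |endliftW q1 q2 y - endliftW q1 q2 x + q2 x * (q1 y - q1 x)|
      ≤ 13 * (M * M) * tw (dist x y) ^ 2 := by
  obtain ⟨s, t⟩ := x
  obtain ⟨s', t'⟩ := y
  obtain ⟨hs, ht⟩ := endlift_mem hx
  obtain ⟨hs', ht'⟩ := endlift_mem hy
  simp only at hs ht hs' ht'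
  have hMM : 0 ≤ M * M := mul_nonneg hM hM
  set d := dist ((s, t) : P) (s', t') with hd
  have hd1 : dist s s' ≤ d := by rw [hd, Prod.dist_eq]; exact le_max_left _ _
  have hd2 : dist t t' ≤ d := by rw [hd, Prod.dist_eq]; exact le_max_right _ _
  have hw1 : tw (dist s s') ≤ tw d := tw_mono dist_nonneg hd1
  have hw2 : tw (dist t t') ≤ tw d := tw_mono dist_nonneg hd2
  have hp1 : 0 ≤ tw (dist s s') := tw_nonneg dist_nonneg
  have hp2 : 0 ≤ tw (dist t t') := tw_nonneg dist_nonneg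
  have hq1 : tw (dist s s') ^ 2 ≤ tw d ^ 2 := pow_le_pow_left₀ hp1 hw1 2
  have hq2 : tw (dist t t') ^ 2 ≤ tw d ^ 2 := pow_le_pow_left₀ hp2 hw2 2
  have er := endlift_row D hs hs' ht
  have ec := endlift_col q1 q2 s' t t'
  have br := endlift_sym (D.h2.iso (endlift_isoR t)) (D.h1.iso (endlift_isoR t)) hM
    (endlift_ho h2 (endlift_isoR t)) (endlift_ho h1 (endlift_isoR t)) s s'
  have bc := endlift_sym (D.h2.iso (endlift_isoC s')) (D.h1.iso (endlift_isoC s')) hM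
    (endlift_ho h2 (endlift_isoC s')) (endlift_ho h1 (endlift_isoC s')) t t'
  have b1 := endlift_ho h2 (endlift_isoR t) s (mem_univ _) s' (mem_univ _)
  have b2 := endlift_ho h1 (endlift_isoC s') t' (mem_univ _) t (mem_univ _)
  simp only at br bc b1 b2
  rw [dist_comm t' t] at b2
  have b3 : |(q2 (s, t) - q2 (s', t)) * (q1 (s', t') - q1 (s', t))| ≤ M * M * tw d ^ 2 := by
    rw [abs_mul]
    calc |q2 (s, t) - q2 (s', t)| * |q1 (s', t') - q1 (s', t)| ≤ (M * tw d) * (M * tw d) :=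
          mul_le_mul (b1.trans (mul_le_mul_of_nonneg_left hw1 hM))
            (b2.trans (mul_le_mul_of_nonneg_left hw2 hM)) (abs_nonneg _)
            (mul_nonneg hM (hp1.trans hw1))
      _ = M * M * tw d ^ 2 := by ring
  have he : endliftW q1 q2 (s', t') - endliftW q1 q2 (s, t) + q2 (s, t) * (q1 (s', t') - q1 (s, t))
      = -(yi (fun u => q2 (u, t)) (fun u => q1 (u, t)) s s' - q2 (s, t) * (q1 (s', t) - q1 (s, t)))
        + -(yi (fun u => q2 (s', u)) (fun u => q1 (s', u)) t t'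
          - q2 (s', t) * (q1 (s', t') - q1 (s', t)))
        + (q2 (s, t) - q2 (s', t)) * (q1 (s', t') - q1 (s', t)) := by
    linear_combination er + ec
  rw [he]
  have c1 := mul_le_mul_of_nonneg_left hq1 hMM
  have c2 := mul_le_mul_of_nonneg_left hq2 hMM
  rw [abs_le] at br bc b3 ⊢
  constructor <;> linarith [br.1, br.2, bc.1, bc.2, b3.1, b3.2]

/-- the lift to the Heisenberg group -/
theorem Nd.exists_lift {q1 q2 : P → ℝ} {A : ℝ} (D : Nd q1 q2 A) : ∃ w C, Ld q1 q2 w A C := by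
  obtain ⟨M, hM, -, hb2, h1, h2⟩ := D.h1.two D.h2
  have hMM : 0 ≤ M * M := mul_nonneg hM hM
  have hho : Ho (endliftW q1 q2) (sqr 0 1) (14 * (M * M)) := by
    intro x hx y hy
    have e := endlift_est D hM h1 h2 hy hx
    have e1 := h1 x (mem_univ _) y (mem_univ _)
    rw [dist_comm y x] at e
    have hp : 0 ≤ tw (dist x y) := tw_nonneg dist_nonneg
    have hl : tw (dist x y) ≤ 1 := tw_le_one dist_nonneg (dist_le_of_sqr hx hy)
    have e2 : |q2 y * (q1 x - q1 y)| ≤ M * M * tw (dist x y) := by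
      rw [abs_mul]
      calc |q2 y| * |q1 x - q1 y| ≤ M * (M * tw (dist x y)) :=
            mul_le_mul (hb2 y) e1 (abs_nonneg _) hM
        _ = M * M * tw (dist x y) := by ring
    have e3 : tw (dist x y) ^ 2 ≤ tw (dist x y) := by nlinarith
    have e4 := mul_le_mul_of_nonneg_left e3 hMM
    rw [abs_le] at e e2 ⊢
    constructor <;> linarith [e.1, e.2, e2.1, e2.2]
  obtain ⟨w, hw, hweq⟩ := exists_ext zero_le_one (by positivity) hho
  refine ⟨w, 13 * (M * M), D, hw, by positivity, fun x hx y hy => ?_⟩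
  rw [hweq hx, hweq hy]
  exact endlift_est D hM h1 h2 hx hy

/-- neither coordinate is constant on a dyadic square -/
theorem Nd.not_const {q1 q2 : P → ℝ} {A : ℝ} (D : Nd q1 q2 A) {c : P} {r : ℝ} (h : Dy c r)
    (k : ℝ) : (∃ x ∈ sqr c r, q1 x ≠ k) ∧ ∃ x ∈ sqr c r, q2 x ≠ k := by
  have hr := h.pos
  have hz := D.z1 c r h
  have hpos : 0 < A * r ^ 2 := mul_pos D.pos (pow_pos hr 2)
  have h12 : Hb fun x => q1 x * q2 x := D.h1.mul D.h2
  constructor
  · by_contra hc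
    push Not at hc
    have e1 : yl c r (fun x => q1 x * q2 x) q1 = yl c r (fun x => q1 x * q2 x) (fun _ => k) :=
      yl_congr' h12 D.h1 h12 (Hb.const k) hr (fun _ _ => rfl) hc
    rw [yl_parts h12 (Hb.const k) hr, yl_const k h12 hr] at e1
    linarith
  · by_contra hc
    push Not at hc
    have e1 : yl c r (fun x => q1 x * q2 x) q1 = yl c r (fun x => k * q1 x) q1 :=
      yl_congr' h12 D.h1 (D.h1.const_mul k) D.h1 hr (fun x hx => by rw [hc x hx, mul_comm])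
        (fun _ _ => rfl)
    have e2 : yl c r (fun x => (fun s : ℝ => k * s) (q1 x)) q1 = 0 :=
      yl_chain (contDiff_const.mul contDiff_id) D.h1 hr
    simp only at e2
    linarith

end Pool.Agent.Bor
end
end

-- part Pool.Agent.P.MP_26ecb7_gt.EndCone
section

noncomputable section
open Set Filter Topology MeasureTheory Metric
open scoped RealInnerProductSpace ContDiff ENNReal

namespace Pool.Agent.Bor

/-- two points with different images near the centre have close second coordinates -/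
theorem endcone_pair {q1 q2 w : P → ℝ} {A C : ℝ} (D : Ld q1 q2 w A C) {c z0 : P} {r ρ B e : ℝ}
    (h : Dy c r) (hf : ∀ x ∈ frontier (sqr c r), ρ ≤ dist ((q1 x, w x) : P) z0)
    {Z : Set P} (hZ : volume Z = 0)
    (hinj : ∀ x ∈ sqr c r, ∀ x' ∈ sqr c r, ((q1 x, w x) : P) ∈ ball z0 ρ →
      ((q1 x, w x) : P) ∉ Z → ((q1 x', w x') : P) = (q1 x, w x) → x' = x)
    (hB : ∀ x, |q2 x| ≤ B) (he : 0 < e) {x x' : P} (hx : x ∈ sqr c r) (hx' : x' ∈ sqr c r)
    (hp : dist ((q1 x, w x) : P) z0 < ρ / 4) (hp' : dist ((q1 x', w x') : P) z0 < ρ / 4)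
    (h2 : (1 + B) * (3 * e + 3 * |q1 x' - q1 x|) < ρ / 2)
    (hne : ((q1 x, w x) : P) ≠ (q1 x', w x')) :
    q2 x - q2 x' ≤ C / e * tw (dist x x') ^ 2 := by
  by_contra hlt
  rw [not_le] at hlt
  have hρ : 0 < ρ := by linarith [dist_nonneg (x := ((q1 x, w x) : P)) (y := z0)]
  have h0 : 0 ≤ C / e * tw (dist x x') ^ 2 :=
    mul_nonneg (div_nonneg D.C_nonneg he.le) (sq_nonneg _)
  have hab : q2 x' < q2 x := by linarith
  have hl := D.lift x (h.sub hx) x' (h.sub hx')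
  have h1 : |w x' - w x + q2 x * (q1 x' - q1 x)| ≤ e * (q2 x - q2 x') := by
    refine hl.trans ?_
    have e1 : C * tw (dist x x') ^ 2 = e * (C / e * tw (dist x x') ^ 2) := by
      field_simp
    rw [e1]
    exact mul_le_mul_of_nonneg_left hlt.le he.le
  obtain ⟨s, v, s', u, huv, hvb, hau, hE, hball, hnZ⟩ :=
    cone_meet (p := (q1 x, w x)) (p' := (q1 x', w x')) (z0 := z0) (ρ := ρ) (B := B) (e := e)
      hab ⟨hB x', hB x⟩ hne hp h1 h2 hZ
  have hE' : ((q1 x + s, w x - s * v) : P) = (q1 x' + s', w x' - s' * u) := hE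
  have hball' : ((q1 x + s, w x - s * v) : P) ∈ ball z0 ρ := hball
  have hnZ' : ((q1 x + s, w x - s * v) : P) ∉ Z := hnZ
  have m1 : ((q1 x, w x) : P) ∈ ball z0 ρ := by
    rw [mem_ball]; linarith
  have m2 : ((q1 x', w x') : P) ∈ ball z0 ρ := by
    rw [mem_ball]; linarith
  obtain ⟨y, hy, ey, vy⟩ := (D.move h hf hx m1 hball').1 hvb
  obtain ⟨y', hy', ey', uy⟩ := (D.move h hf hx' m2 (hE' ▸ hball')).2 hau
  have : y' = y := hinj y hy y' hy' (ey ▸ hball') (ey ▸ hnZ') (by rw [ey', ey, hE'])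
  rw [this] at uy
  linarith

theorem Ld.false {q1 q2 w : P → ℝ} {A C : ℝ} (D : Ld q1 q2 w A C) : False := by
  obtain ⟨c, r, hD, x0, hx0, ρ, hρ, hf, Z, hZ, hinj⟩ := D.jd.inj
  obtain ⟨M, hM, -, hh⟩ := D.h1.pair D.hw
  obtain ⟨B, hB0, hB, -⟩ := D.h2
  have hB1 : 0 < 1 + B := by linarith
  have hL : 0 < 3 * (1 + B) * M + 1 := by positivity
  obtain ⟨δ, hδ, hsm⟩ := tw_small (ε := ρ / 4 / (3 * (1 + B) * M + 1)) (by positivity)
  obtain ⟨c', r', hD', hr', hx0', hsub⟩ := hD.exists_small hx0 hδ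
  have ht0 : 0 ≤ tw r' := tw_nonneg hD'.pos.le
  have ht : tw r' * (3 * (1 + B) * M + 1) < ρ / 4 := (lt_div_iff₀ hL).mp (hsm r' hD'.pos.le hr')
  have hMt : 0 ≤ M * tw r' := mul_nonneg hM ht0
  have ht1 : 3 * (1 + B) * (M * tw r') < ρ / 4 := by nlinarith
  have ht2 : M * tw r' < ρ / 4 := by nlinarith
  have hd : ∀ x ∈ sqr c' r', ∀ y ∈ sqr c' r',
      dist ((q1 x, w x) : P) (q1 y, w y) ≤ M * tw r' := by
    intro x hx y hy
    rw [dist_eq_norm]
    exact (hh x y).trans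
      (mul_le_mul_of_nonneg_left (tw_mono dist_nonneg (dist_le_of_sqr hx hy)) hM)
  have he : 0 < ρ / (24 * (1 + B)) := by positivity
  have hA : ∀ x ∈ sqr c' r', ∀ x' ∈ sqr c' r', q1 x ≠ q1 x' →
      q2 x - q2 x' ≤ C / (ρ / (24 * (1 + B))) * tw (dist x x') ^ 2 := by
    intro x hx x' hx' hne
    refine endcone_pair D hD hf hZ hinj hB he (hsub hx) (hsub hx')
      ((hd x hx x0 hx0').trans_lt ht2) ((hd x' hx' x0 hx0').trans_lt ht2) ?_
      (fun h => hne (congrArg Prod.fst h))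
    have h1 : |q1 x' - q1 x| ≤ M * tw r' := by
      refine le_trans ?_ (hd x' hx' x hx)
      rw [Prod.dist_eq, Real.dist_eq]
      exact le_max_left _ _
    have h2 : (1 + B) * (3 * (ρ / (24 * (1 + B)))) = ρ / 8 := by
      field_simp
      ring
    have h3 : (1 + B) * (3 * |q1 x' - q1 x|) ≤ (1 + B) * (3 * (M * tw r')) :=
      mul_le_mul_of_nonneg_left (by linarith) hB1.le
    rw [mul_add, h2]
    linarith
  set K := C / (ρ / (24 * (1 + B)))
  have hBb : ∀ x ∈ sqr c' r', ∀ x' ∈ sqr c' r', q1 x ≠ q1 x' →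
      |q2 x - q2 x'| ≤ K * tw (dist x x') ^ 2 := by
    intro x hx x' hx' hne
    have h1 := hA x hx x' hx' hne
    have h2 := hA x' hx' x hx hne.symm
    rw [dist_comm x' x] at h2
    exact abs_le.mpr ⟨by linarith, h1⟩
  have hC : ∀ x ∈ sqr c' r', ∀ x' ∈ sqr c' r', |q2 x - q2 x'| ≤ K * tw (dist x x') ^ 2 := by
    intro x hx x' hx'
    have hcl : IsClosed {y : P | |q2 x - q2 y| ≤ K * tw (dist x y) ^ 2} := by
      refine isClosed_le (continuous_const.sub D.h2.continuous).abs ?_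
      exact continuous_const.mul
        ((continuous_tw.comp (continuous_const.dist continuous_id)).pow 2)
    have hm : x' ∈ closure {y : P | |q2 x - q2 y| ≤ K * tw (dist x y) ^ 2} := by
      rw [Metric.mem_closure_iff]
      intro ε hε
      obtain ⟨c2, r2, hD2, hr2, hx2, hsub2⟩ := hD'.exists_small hx' hε
      obtain ⟨y, hy, hne⟩ := (D.toNd.not_const hD2 (q1 x)).1
      exact ⟨y, hBb x hx y (hsub2 hy) hne.symm, (dist_le_of_sqr hx2 hy).trans_lt hr2⟩
    exact hcl.closure_subset hm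
  obtain ⟨y, hy, hne⟩ := (D.toNd.not_const hD' (q2 c')).2
  exact hne (eq_of_tw_sq hC hy (corner_mem hD'.pos.le))

theorem Nd.false {q1 q2 : P → ℝ} {A : ℝ} (D : Nd q1 q2 A) : False := by
  obtain ⟨w, C, h⟩ := D.exists_lift
  exact h.false

end Pool.Agent.Bor
end
end

-- part Pool.Agent.P.MP_26ecb7_gt.EndNorm
section

noncomputable section
open Set Filter Topology MeasureTheory Metric
open scoped RealInnerProductSpace ContDiff ENNReal

namespace Pool.Agent.Bor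

theorem endnorm_lin {f g h : P → ℝ} {c : P} {r : ℝ} (a b : ℝ) (hf : Hb f) (hg : Hb g) (hh : Hb h)
    (hr : 0 < r) : yl c r (fun x => a * f x + b * g x) h = a * yl c r f h + b * yl c r g h := by
  rw [yl_add (hf.const_mul a) (hg.const_mul b) hh hr, yl_mul a hf hh hr, yl_mul b hg hh hr]

theorem endnorm_d1 {q1 q2 : P → ℝ} (h1 : Hb q1) (h2 : Hb q2) {d1 d2 : ℝ}
    (z0 : ∀ c r, 0 < r → sqr c r ⊆ sqr 0 1 → yl c r q2 q1 = 0)
    (z1 : ∀ c r, Dy c r → yl c r (fun x => q1 x * q2 x) q1 = d1 * r ^ 2)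
    (z2 : ∀ c r, Dy c r → yl c r (fun x => q2 x * q2 x) q1 = d2 * r ^ 2) : d1 = 0 := by
  by_contra hd
  have e1 : ∀ c r, 0 < r → yl c r q1 q1 = 0 := fun c r hr => by
    linarith [yl_parts (c := c) h1 h1 hr]
  have e2 : ∀ c r, 0 < r → yl c r (fun x => q1 x * q1 x) q1 = 0 := fun c r hr => by
    linarith [yl_sq (c := c) h1 h1 hr]
  refine Nd.false (q1 := q1) (q2 := fun x => -d1 * q2 x + d2 / 2 * q1 x) (A := d1 ^ 2)
    ⟨h1, (h2.const_mul _).add (h1.const_mul _), by positivity, fun c r hr hs => ?_,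
      fun c r h => ?_, fun c r h => ?_⟩
  · rw [endnorm_lin _ _ h2 h1 h1 hr, z0 c r hr hs, e1 c r hr]
    ring
  · have e : (fun x => q1 x * (-d1 * q2 x + d2 / 2 * q1 x)) =
        fun x => -d1 * (q1 x * q2 x) + d2 / 2 * (q1 x * q1 x) := funext fun x => by ring
    rw [e, endnorm_lin _ _ (h1.mul h2) (h1.mul h1) h1 h.pos, z1 c r h, e2 c r h.pos]
    ring
  · have e : (fun x => (-d1 * q2 x + d2 / 2 * q1 x) * (-d1 * q2 x + d2 / 2 * q1 x)) =
        fun x => 1 * (d1 ^ 2 * (q2 x * q2 x) + -(d1 * d2) * (q1 x * q2 x)) +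
          (d2 / 2) ^ 2 * (q1 x * q1 x) := funext fun x => by ring
    rw [e, endnorm_lin _ _ (((h2.mul h2).const_mul _).add ((h1.mul h2).const_mul _)) (h1.mul h1)
      h1 h.pos, endnorm_lin _ _ (h2.mul h2) (h1.mul h2) h1 h.pos, z1 c r h, z2 c r h,
      e2 c r h.pos]
    ring

/-- constant anomaly in any direction is impossible -/
theorem no_const {q1 q2 : P → ℝ} (h1 : Hb q1) (h2 : Hb q2) {d1 d2 : ℝ}
    (z0 : ∀ c r, 0 < r → sqr c r ⊆ sqr 0 1 → yl c r q2 q1 = 0)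
    (z1 : ∀ c r, Dy c r → yl c r (fun x => q1 x * q2 x) q1 = d1 * r ^ 2)
    (z2 : ∀ c r, Dy c r → yl c r (fun x => q2 x * q2 x) q1 = d2 * r ^ 2) : d1 = 0 ∧ d2 = 0 := by
  have e : (fun x => q2 x * q1 x) = fun x => q1 x * q2 x := funext fun x => mul_comm _ _
  have := endnorm_d1 h2 h1 (d1 := -d2 / 2) (d2 := -2 * d1)
    (fun c r hr hs => by rw [yl_parts h1 h2 hr, z0 c r hr hs, neg_zero])
    (fun c r h => by
      have := yl_sq (c := c) h1 h2 h.pos
      rw [z2 c r h] at this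
      rw [e]
      linarith)
    (fun c r h => by
      rw [yl_sq h2 h1 h.pos, e, z1 c r h]
      ring)
  exact ⟨endnorm_d1 h1 h2 z0 z1 z2, by linarith⟩

/-- compactness -/
theorem exists_lim {u : ℕ → P → ℝ} {M : ℝ} (hM : 0 ≤ M) (h0 : ∀ k, u k 0 = 0)
    (h1 : ∀ k, Ho (u k) univ M) : ∃ φ : ℕ → ℕ, StrictMono φ ∧ ∃ u' : P → ℝ, Hb u' ∧
      TendstoUniformlyOn (fun k => u (φ k)) u' atTop (sqr 0 1) := by
  have : CompactSpace (sqr 0 1) := isCompact_iff_compactSpace.1 (sqr_compact 0 1)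
  let F : ℕ → BoundedContinuousFunction (sqr 0 1) ℝ := fun k =>
    BoundedContinuousFunction.mkOfCompact ⟨fun x => u k x,
      (continuousOn_univ.1 (h1 k).continuousOn).comp continuous_subtype_val⟩
  have hc : IsCompact (closure (range F)) := by
    refine BoundedContinuousFunction.arzela_ascoli (Icc (-M) M) isCompact_Icc _ ?_ ?_
    · rintro _ x ⟨k, rfl⟩
      have := ((h1 k).mono (subset_univ (sqr 0 1)) le_rfl).osc hM x.2 (corner_mem zero_le_one)
      rw [h0, sub_zero, tw_one, mul_one] at this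
      exact abs_le.1 this
    · refine Metric.equicontinuous_of_continuity_modulus (fun t => M * tw t) ?_ _ ?_
      · simpa [tw_zero] using (continuous_tw.tendsto 0).const_mul M
      · rintro x y ⟨_, k, rfl⟩
        exact h1 k _ (mem_univ _) _ (mem_univ _)
  obtain ⟨a, -, φ, hφ, hl⟩ := hc.tendsto_subseq fun k => subset_closure (mem_range_self k)
  rw [BoundedContinuousFunction.tendsto_iff_tendstoUniformly] at hl
  classical
  have hv : Ho (fun x => if h : x ∈ sqr 0 1 then a ⟨x, h⟩ else 0) (sqr 0 1) M :=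
    Ho.of_tendsto (U := fun n => u (φ n))
      (.of_forall fun n => (h1 _).mono (subset_univ _) le_rfl) fun x hx => by
        rw [dif_pos hx]
        exact hl.tendsto_at ⟨x, hx⟩
  obtain ⟨u', h2, h3⟩ := exists_ext zero_le_one hM hv
  refine ⟨φ, hφ, u', h2, ?_⟩
  rw [tendstoUniformlyOn_iff_tendstoUniformly_comp_coe]
  have e : u' ∘ (Subtype.val : sqr 0 1 → P) = a := funext fun x => by
    rw [Function.comp_apply, h3 x.2]
    exact dif_pos x.2
  rw [e]
  exact hl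

/-- an extremal sequence of squares -/
theorem exists_extremal {N : P → ℝ → ℝ} {Ad : P → ℝ → Prop} {B η : ℝ} (hη : 0 < η)
    (hp : ∀ c r, Ad c r → 0 < r) (hB : ∀ c r, Ad c r → N c r ≤ B)
    (hn : ∀ ρ > 0, ∃ c r, Ad c r ∧ r < ρ ∧ η < N c r) : ∃ A > 0, ∃ (c : ℕ → P) (r : ℕ → ℝ),
      (∀ k, Ad (c k) (r k)) ∧ Tendsto r atTop (𝓝 0) ∧ Tendsto (fun k => N (c k) (r k)) atTop (𝓝 A)
      ∧ ∀ ε > 0, ∃ ρ > 0, ∀ c r, Ad c r → r < ρ → N c r ≤ A + ε := by
  let T : ℕ → Set ℝ := fun k => {y | ∃ c r, Ad c r ∧ r < 1 / ((k : ℝ) + 1) ∧ N c r = y}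
  have hb : ∀ k, BddAbove (T k) := fun k => ⟨B, fun _ ⟨c, r, h, _, e⟩ => e ▸ hB c r h⟩
  have hk : ∀ k : ℕ, (0 : ℝ) < 1 / ((k : ℝ) + 1) := fun k => by positivity
  have hne : ∀ k, (T k).Nonempty := fun k => by
    obtain ⟨c, r, h1, h2, -⟩ := hn _ (hk k)
    exact ⟨_, c, r, h1, h2, rfl⟩
  have hlo : ∀ k, η ≤ sSup (T k) := fun k => by
    obtain ⟨c, r, h1, h2, h3⟩ := hn _ (hk k)
    exact h3.le.trans (le_csSup (hb k) ⟨c, r, h1, h2, rfl⟩)
  have han : Antitone fun k => sSup (T k) := fun k l hkl =>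
    csSup_le_csSup (hb k) (hne l) fun _ ⟨c, r, h1, h2, e⟩ =>
      ⟨c, r, h1, h2.trans_le (Nat.one_div_le_one_div hkl), e⟩
  have hl := tendsto_atTop_ciInf han ⟨η, by rintro _ ⟨k, rfl⟩; exact hlo k⟩
  have hch : ∀ k : ℕ, ∃ c r, Ad c r ∧ r < 1 / ((k : ℝ) + 1) ∧
      sSup (T k) - 1 / ((k : ℝ) + 1) < N c r := fun k => by
    obtain ⟨_, ⟨c, r, h1, h2, rfl⟩, h3⟩ := exists_lt_of_lt_csSup (hne k) (sub_lt_self _ (hk k))
    exact ⟨c, r, h1, h2, h3⟩
  choose c r h1 h2 h3 using hch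
  have h0 : Tendsto (fun k : ℕ => 1 / ((k : ℝ) + 1)) atTop (𝓝 0) :=
    tendsto_one_div_add_atTop_nhds_zero_nat
  refine ⟨_, hη.trans_le (le_ciInf hlo), c, r, h1,
    squeeze_zero (fun k => (hp _ _ (h1 k)).le) (fun k => (h2 k).le) h0,
    tendsto_of_tendsto_of_tendsto_of_le_of_le (by simpa using hl.sub h0) hl
      (fun k => by simpa using (h3 k).le) (fun k => le_csSup (hb k) ⟨_, _, h1 k, h2 k, rfl⟩),
    fun ε hε => ?_⟩
  obtain ⟨k, hk'⟩ := (hl.eventually (gt_mem_nhds (lt_add_of_pos_right _ hε))).exists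
  exact ⟨_, hk k, fun c r h4 h5 => (le_csSup (hb k) ⟨c, r, h4, h5, rfl⟩).trans hk'.le⟩

end Pool.Agent.Bor
end
end

-- part Pool.Agent.P.MP_26ecb7_gt.EndRs
section

noncomputable section
open Set Filter Topology MeasureTheory Metric
open scoped RealInnerProductSpace ContDiff ENNReal

namespace Pool.Agent.Bor

/-- the rescaled function -/
def rs (u : P → ℝ) (c : P) (r : ℝ) (x : P) : ℝ := (tw r)⁻¹ * (u (c + r • x) - u c)

variable {u v : P → ℝ} {c c' : P} {r r' M : ℝ}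

theorem rs_zero : rs u c r 0 = 0 := by simp [rs]
theorem rs_hb (hu : Hb u) (hr : 0 < r) : Hb (rs u c r) := ((hu.affine c hr).sub (Hb.const (u c))).const_mul _
theorem rs_ho (hu : Ho u univ M) (hr : 0 < r) : Ho (rs u c r) univ M := by
  intro x _ y _
  have ht := tw_pos hr
  have h := hu (c + r • x) (mem_univ _) (c + r • y) (mem_univ _)
  rw [dist_add_left, dist_smul₀, Real.norm_eq_abs, abs_of_pos hr, tw_mul hr.le dist_nonneg] at h
  have e : rs u c r x - rs u c r y = (tw r)⁻¹ * (u (c + r • x) - u (c + r • y)) := by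
    unfold rs; ring
  rw [e, abs_mul, abs_of_pos (inv_pos.2 ht), inv_mul_le_iff₀ ht]
  linarith
theorem rs_sub (hr : 0 < r) (hr' : 0 < r') (h : sqr c' r' ⊆ sqr 0 1) :
    sqr (c + r • c') (r * r') ⊆ sqr c r := by
  have h1 := mem_sqr.1 (h (corner_mem hr'.le))
  have h2 := mem_sqr.1 (h (show ((c'.1 + r', c'.2 + r') : P) ∈ sqr c' r' from
    mem_sqr.2 ⟨⟨by linarith, le_rfl⟩, by linarith, le_rfl⟩))
  simp only [Prod.fst_zero, Prod.snd_zero, zero_add] at h1 h2
  intro x hx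
  rw [mem_sqr] at hx ⊢
  simp only [Prod.fst_add, Prod.snd_add, Prod.smul_fst, Prod.smul_snd, smul_eq_mul] at hx
  obtain ⟨⟨a1, a2⟩, a3, a4⟩ := hx
  refine ⟨⟨?_, ?_⟩, ?_, ?_⟩
  · nlinarith [mul_nonneg hr.le h1.1.1]
  · nlinarith [mul_le_mul_of_nonneg_left h2.1.2 hr.le]
  · nlinarith [mul_nonneg hr.le h1.2.1]
  · nlinarith [mul_le_mul_of_nonneg_left h2.2.2 hr.le]
theorem yl_rs (hu : Hb u) (hv : Hb v) (hr : 0 < r) (hr' : 0 < r') :
    yl c' r' (rs v c r) (rs u c r) = (tw r ^ 2)⁻¹ * yl (c + r • c') (r * r') v u := by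
  have a1 := hu.affine c hr
  have a2 := hv.affine c hr
  have e1 := yl_right (c := c') (tw r)⁻¹ (u c) (rs_hb (c := c) hv hr) a1 hr'
  have e2 := yl_mul (c := c') (tw r)⁻¹ (a2.sub (Hb.const (v c))) a1 hr'
  have e3 := yl_sub (c := c') a2 (Hb.const (v c)) a1 hr'
  have e4 := yl_const (c := c') (v c) a1 hr'
  have e5 := yl_scale (c := c') hv hu hr' c hr
  calc yl c' r' (rs v c r) (rs u c r)
      = (tw r)⁻¹ * yl c' r' (rs v c r) (fun x => u (c + r • x)) := e1
    _ = (tw r)⁻¹ * ((tw r)⁻¹ * yl c' r' (fun x => v (c + r • x) - v c)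
          (fun x => u (c + r • x))) := congrArg _ e2
    _ = _ := by rw [e3, e4, e5]; ring
theorem yl_rs3 {g : P → ℝ} (hu : Hb u) (hv : Hb v) (hg : Hb g) (hr : 0 < r) (hr' : 0 < r') :
    yl c' r' (fun x => (rs u c r x - rs u c r c') * (rs v c r x - rs v c r c')) (rs g c r)
      = (r ^ 2)⁻¹ * yl (c + r • c') (r * r')
        (fun x => (u x - u (c + r • c')) * (v x - v (c + r • c'))) g := by
  have hf : Hb fun x => (u x - u (c + r • c')) * (v x - v (c + r • c')) :=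
    (hu.sub (Hb.const _)).mul (hv.sub (Hb.const _))
  have a1 := hg.affine c hr
  have a2 := hf.affine c hr
  have e0 : (fun x => (rs u c r x - rs u c r c') * (rs v c r x - rs v c r c')) =
      fun x => (tw r ^ 2)⁻¹ *
        ((u (c + r • x) - u (c + r • c')) * (v (c + r • x) - v (c + r • c'))) := by
    funext x; unfold rs; ring
  have e1 := yl_right (c := c') (tw r)⁻¹ (g c) (a2.const_mul (tw r ^ 2)⁻¹) a1 hr'
  have e2 := yl_mul (c := c') (tw r ^ 2)⁻¹ a2 a1 hr'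
  have e5 := yl_scale (c := c') hf hg hr' c hr
  rw [e0]
  refine e1.trans ?_
  rw [e2, e5, ← tw_cube hr.le]
  ring
theorem yl_tendsto3 {U V G : ℕ → P → ℝ} {g : P → ℝ} (hr' : 0 < r') (h : sqr c' r' ⊆ sqr 0 1)
    (hM : 0 ≤ M) (hU : ∀ n, Hb (U n)) (hV : ∀ n, Hb (V n)) (hG : ∀ n, Hb (G n)) (hu : Hb u)
    (hv : Hb v) (hg : Hb g) (h1 : TendstoUniformlyOn U u atTop (sqr 0 1))
    (h2 : TendstoUniformlyOn V v atTop (sqr 0 1)) (h3 : TendstoUniformlyOn G g atTop (sqr 0 1))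
    (k1 : ∀ n, Ho (U n) univ M) (k2 : ∀ n, Ho (V n) univ M) (k3 : ∀ n, Ho (G n) univ M) :
    Tendsto (fun n => yl c' r' (fun x => (U n x - U n c') * (V n x - V n c')) (G n)) atTop
      (𝓝 (yl c' r' (fun x => (u x - u c') * (v x - v c')) g)) := by
  have hc : c' ∈ sqr c' r' := corner_mem hr'.le
  have hr1 : r' ≤ 1 := by
    have h2 : ((c'.1 + r', c'.2 + r') : P) ∈ sqr c' r' :=
      mem_sqr.2 ⟨⟨by linarith, le_rfl⟩, by linarith, le_rfl⟩
    have h3 := mem_sqr.1 (h hc)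
    have h4 := mem_sqr.1 (h h2)
    simp only [Prod.fst_zero, Prod.snd_zero, zero_add] at h3 h4
    linarith [h3.1.1, h4.1.2]
  have ht : M * tw r' ≤ M := mul_le_of_le_one_right hM (tw_le_one hr'.le hr1)
  have l1 : ∀ n, Ho (U n) (sqr c' r') M := fun n => (k1 n).mono (subset_univ _) le_rfl
  have l2 : ∀ n, Ho (V n) (sqr c' r') M := fun n => (k2 n).mono (subset_univ _) le_rfl
  have l3 : Ho v (sqr c' r') M :=
    Ho.of_tendsto (Eventually.of_forall l2) fun x hx => h2.tendsto_at (h hx)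
  have b1 : ∀ n, ∀ x ∈ sqr c' r', |U n x - U n c'| ≤ M := fun n x hx =>
    ((l1 n).osc hM hx hc).trans ht
  have b2 : ∀ n, ∀ x ∈ sqr c' r', |V n x - V n c'| ≤ M := fun n x hx =>
    ((l2 n).osc hM hx hc).trans ht
  have b3 : ∀ x ∈ sqr c' r', |v x - v c'| ≤ M := fun x hx => (l3.osc hM hx hc).trans ht
  have hMM : 0 ≤ M * M := mul_nonneg hM hM
  refine yl_tendsto (M := M * M + M * M + M) hr'
    (fun n => ((hU n).sub (Hb.const _)).mul ((hV n).sub (Hb.const _))) hG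
    ((hu.sub (Hb.const _)).mul (hv.sub (Hb.const _))) hg ?_ (h3.mono h)
    (Eventually.of_forall fun n => ⟨?_, (k3 n).mono (subset_univ _) (by linarith)⟩)
  · rw [Metric.tendstoUniformlyOn_iff] at h1 h2 ⊢
    intro ε hε
    have hδ : 0 < ε / (4 * M + 1) := by positivity
    filter_upwards [h1 _ hδ, h2 _ hδ] with n p1 p2 x hx
    have q1 := p1 x (h hx)
    have q2 := p1 c' (h hc)
    have q3 := p2 x (h hx)
    have q4 := p2 c' (h hc)
    rw [Real.dist_eq] at q1 q2 q3 q4 ⊢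
    have e : (u x - u c') * (v x - v c') - (U n x - U n c') * (V n x - V n c') =
        ((u x - U n x) - (u c' - U n c')) * (v x - v c') +
          (U n x - U n c') * ((v x - V n x) - (v c' - V n c')) := by ring
    have s1 : |(u x - U n x) - (u c' - U n c')| ≤ 2 * (ε / (4 * M + 1)) :=
      (abs_sub _ _).trans (by linarith)
    have s2 : |(v x - V n x) - (v c' - V n c')| ≤ 2 * (ε / (4 * M + 1)) :=
      (abs_sub _ _).trans (by linarith)
    have s3 : ε / (4 * M + 1) * (4 * M + 1) = ε := div_mul_cancel₀ _ (by positivity)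
    rw [e]
    refine (abs_add_le _ _).trans_lt ?_
    rw [abs_mul, abs_mul]
    have t1 := mul_le_mul s1 (b3 x hx) (abs_nonneg _) (by positivity)
    have t2 := mul_le_mul (b1 n x hx) s2 (abs_nonneg _) hM
    nlinarith
  · exact (((l1 n).sub_const _).mul ((l2 n).sub_const _) (b1 n) (b2 n)).mono subset_rfl
      (by linarith)

end Pool.Agent.Bor
end
end

-- part Pool.Agent.P.MP_26ecb7_gt.EndBlow
section

noncomputable section
open Set Filter Topology MeasureTheory Metric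
open scoped RealInnerProductSpace ContDiff ENNReal

namespace Pool.Agent.Bor

/-- first component of the anomaly -/
def endblow_D1 (q1 q2 : P → ℝ) (c : P) (r : ℝ) : ℝ :=
  yl c r (fun x => (q1 x - q1 c) * (q2 x - q2 c)) q1

/-- second component of the anomaly -/
def endblow_D2 (q1 q2 : P → ℝ) (c : P) (r : ℝ) : ℝ :=
  yl c r (fun x => (q2 x - q2 c) * (q2 x - q2 c)) q1

/-- normalised size of the anomaly -/
def endblow_N (q1 q2 : P → ℝ) (c : P) (r : ℝ) : ℝ :=
  √(endblow_D1 q1 q2 c r ^ 2 + endblow_D2 q1 q2 c r ^ 2) / r ^ 2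

theorem endblow_nonneg (q1 q2 : P → ℝ) (c : P) (r : ℝ) : 0 ≤ endblow_N q1 q2 c r :=
  div_nonneg (Real.sqrt_nonneg _) (sq_nonneg _)

theorem endblow_sq (q1 q2 : P → ℝ) (c : P) {r r' : ℝ} (hr : 0 < r) (hr' : 0 < r') :
    ((r ^ 2)⁻¹ * endblow_D1 q1 q2 c (r * r')) ^ 2 + ((r ^ 2)⁻¹ * endblow_D2 q1 q2 c (r * r')) ^ 2
      = (endblow_N q1 q2 c (r * r') * r' ^ 2) ^ 2 := by
  unfold endblow_N
  rw [mul_pow (_ / _), div_pow, Real.sq_sqrt (by positivity)]
  field_simp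

theorem endblow_core {q1 q2 : P → ℝ} (h1 : Hb q1) (h2 : Hb q2) {c0 : P} {r0 C : ℝ}
    (h : ∀ c r, 0 < r → sqr c r ⊆ sqr c0 r0 → |yl c r q2 q1| ≤ C * r ^ 2)
    {M A : ℝ} (hM : 0 ≤ M) (k1 : Ho q1 univ M) (k2 : Ho q2 univ M) (hA : 0 < A)
    {c : ℕ → P} {r : ℕ → ℝ} (hr : ∀ k, 0 < r k) (hs : ∀ k, sqr (c k) (r k) ⊆ sqr c0 r0)
    (hr0 : Tendsto r atTop (𝓝 0))
    (hN : Tendsto (fun k => endblow_N q1 q2 (c k) (r k)) atTop (𝓝 A))
    (hsup : ∀ ε > 0, ∃ ρ > 0, ∀ c r, (0 < r ∧ sqr c r ⊆ sqr c0 r0) → r < ρ →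
      endblow_N q1 q2 c r ≤ A + ε)
    {u1 u2 : P → ℝ} (g1 : Hb u1) (g2 : Hb u2)
    (t1 : TendstoUniformlyOn (fun k => rs q1 (c k) (r k)) u1 atTop (sqr 0 1))
    (t2 : TendstoUniformlyOn (fun k => rs q2 (c k) (r k)) u2 atTop (sqr 0 1)) : False := by
  have b1 : ∀ k, Hb (rs q1 (c k) (r k)) := fun k => rs_hb h1 (hr k)
  have b2 : ∀ k, Hb (rs q2 (c k) (r k)) := fun k => rs_hb h2 (hr k)
  have o1 : ∀ k, Ho (rs q1 (c k) (r k)) univ M := fun k => rs_ho k1 (hr k)
  have o2 : ∀ k, Ho (rs q2 (c k) (r k)) univ M := fun k => rs_ho k2 (hr k)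
  have z0 : ∀ c' r', 0 < r' → sqr c' r' ⊆ sqr 0 1 → yl c' r' u2 u1 = 0 := by
    intro c' r' hr' hsub
    have a1 := yl_tendsto (M := M) hr' b2 b1 g2 g1 (t2.mono hsub) (t1.mono hsub)
      (Eventually.of_forall fun n =>
        ⟨(o2 n).mono (subset_univ _) le_rfl, (o1 n).mono (subset_univ _) le_rfl⟩)
    have a2 : Tendsto (fun n => C * r' ^ 2 * tw (r n)) atTop (𝓝 0) := by
      have := ((continuous_tw.tendsto 0).comp hr0).const_mul (C * r' ^ 2)
      simpa [tw_zero] using this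
    refine tendsto_nhds_unique a1 (squeeze_zero_norm (fun n => ?_) a2)
    have ht := tw_pos (hr n)
    have a3 := h _ _ (mul_pos (hr n) hr') ((rs_sub (hr n) hr' hsub).trans (hs n))
    rw [yl_rs h1 h2 (hr n) hr', Real.norm_eq_abs, abs_mul, abs_of_pos (by positivity),
      inv_mul_le_iff₀ (by positivity)]
    refine a3.trans (le_of_eq ?_)
    rw [mul_pow, ← tw_cube (hr n).le]
    ring
  have key : ∀ c' r', 0 < r' → sqr c' r' ⊆ sqr 0 1 →
      Tendsto (fun n => (endblow_N q1 q2 (c n + r n • c') (r n * r') * r' ^ 2) ^ 2) atTop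
        (𝓝 (yl c' r' (fun x => u1 x * u2 x) u1 ^ 2 + yl c' r' (fun x => u2 x * u2 x) u1 ^ 2)) := by
    intro c' r' hr' hsub
    have a1 := yl_tendsto3 hr' hsub hM b1 b2 b1 g1 g2 g1 t1 t2 t1 o1 o2 o1
    have a2 := yl_tendsto3 hr' hsub hM b2 b2 b1 g2 g2 g1 t2 t2 t1 o2 o2 o1
    obtain ⟨e1, e2⟩ := yl_centre g2 g1 hr' (z0 c' r' hr' hsub) (u1 c') (u2 c')
    rw [e1] at a1
    rw [e2] at a2
    refine ((a1.pow 2).add (a2.pow 2)).congr fun n => ?_
    rw [yl_rs3 h1 h2 h1 (hr n) hr', yl_rs3 h2 h2 h1 (hr n) hr']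
    exact endblow_sq q1 q2 _ (hr n) hr'
  have hb : ∀ c' r', Dy c' r' →
      yl c' r' (fun x => u1 x * u2 x) u1 ^ 2 + yl c' r' (fun x => u2 x * u2 x) u1 ^ 2
        ≤ (A * r' ^ 2) ^ 2 := by
    intro c' r' hd
    have hr' := hd.pos
    have a1 : Tendsto (fun ε : ℝ => ((A + ε) * r' ^ 2) ^ 2) (𝓝[>] 0) (𝓝 ((A * r' ^ 2) ^ 2)) := by
      have : Continuous fun ε : ℝ => ((A + ε) * r' ^ 2) ^ 2 := by fun_prop
      simpa using (this.tendsto 0).mono_left nhdsWithin_le_nhds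
    refine ge_of_tendsto a1 (eventually_mem_nhdsWithin.mono fun ε hε => ?_)
    obtain ⟨ρ, hρ, hρ'⟩ := hsup ε hε
    refine le_of_tendsto (key c' r' hr' hd.sub) ?_
    filter_upwards [hr0.eventually (gt_mem_nhds hρ)] with n hn
    have a2 := hρ' _ _ ⟨mul_pos (hr n) hr', (rs_sub (hr n) hr' hd.sub).trans (hs n)⟩
      ((mul_le_of_le_one_right (hr n).le hd.le_one).trans_lt hn)
    exact pow_le_pow_left₀ (mul_nonneg (endblow_nonneg _ _ _ _) (sq_nonneg _))
      (mul_le_mul_of_nonneg_right a2 (sq_nonneg _)) 2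
  have he : yl 0 1 (fun x => u1 x * u2 x) u1 ^ 2 + yl 0 1 (fun x => u2 x * u2 x) u1 ^ 2
      = A ^ 2 := by
    have a1 := key 0 1 one_pos subset_rfl
    simp only [smul_zero, add_zero, mul_one, one_pow] at a1
    exact tendsto_nhds_unique a1 (hN.pow 2)
  have hc := const_of_ext (E := fun c r => yl c r (fun x => u1 x * u2 x) u1)
    (F := fun c r => yl c r (fun x => u2 x * u2 x) u1) (fun c r _ => yl_split _ _ c r)
    (fun c r _ => yl_split _ _ c r) hb he
  obtain ⟨d1, d2⟩ := no_const g1 g2 z0 (fun c r hd => (hc c r hd).1) (fun c r hd => (hc c r hd).2)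
  rw [d1, d2] at he
  nlinarith

/-- the anomaly has density zero, uniformly -/
theorem anom_zero {q1 q2 : P → ℝ} (h1 : Hb q1) (h2 : Hb q2) {c0 : P} {r0 C : ℝ}
    (h : ∀ c r, 0 < r → sqr c r ⊆ sqr c0 r0 → |yl c r q2 q1| ≤ C * r ^ 2) :
    ∀ η > 0, ∃ ρ > 0, ∀ c r, 0 < r → r < ρ → sqr c r ⊆ sqr c0 r0 →
      |yl c r (fun x => (q1 x - q1 c) * (q2 x - q2 c)) q1| ≤ η * r ^ 2 ∧
      |yl c r (fun x => (q2 x - q2 c) * (q2 x - q2 c)) q1| ≤ η * r ^ 2 := by
  intro η hη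
  by_contra hcon
  obtain ⟨C1, hC1, a1⟩ := yl_cubic h1 h2 h1
  obtain ⟨C2, hC2, a2⟩ := yl_cubic h2 h2 h1
  have hB : ∀ c r, (0 < r ∧ sqr c r ⊆ sqr c0 r0) → endblow_N q1 q2 c r ≤ C1 + C2 := by
    intro c r hr
    have b1 : |endblow_D1 q1 q2 c r| ≤ C1 * r ^ 2 := a1 c r hr.1
    have b2 : |endblow_D2 q1 q2 c r| ≤ C2 * r ^ 2 := a2 c r hr.1
    have hr2 : 0 < r ^ 2 := pow_pos hr.1 2
    unfold endblow_N
    rw [div_le_iff₀ hr2]
    refine Real.sqrt_le_iff.2 ⟨by positivity, ?_⟩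
    have c1 := pow_le_pow_left₀ (abs_nonneg _) b1 2
    have c2 := pow_le_pow_left₀ (abs_nonneg _) b2 2
    rw [sq_abs] at c1 c2
    have c3 : 0 ≤ (C1 * r ^ 2) * (C2 * r ^ 2) := by positivity
    nlinarith
  have hn : ∀ ρ > 0, ∃ c r, (0 < r ∧ sqr c r ⊆ sqr c0 r0) ∧ r < ρ ∧ η < endblow_N q1 q2 c r := by
    intro ρ hρ
    by_contra hno
    refine hcon ⟨ρ, hρ, fun c r hr hrρ hsub => ?_⟩
    have b1 : endblow_N q1 q2 c r ≤ η := not_lt.1 fun hlt => hno ⟨c, r, ⟨hr, hsub⟩, hrρ, hlt⟩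
    unfold endblow_N at b1
    rw [div_le_iff₀ (pow_pos hr 2)] at b1
    exact ⟨(Real.abs_le_sqrt (le_add_of_nonneg_right (sq_nonneg _))).trans b1,
      (Real.abs_le_sqrt (le_add_of_nonneg_left (sq_nonneg _))).trans b1⟩
  obtain ⟨A, hA, c, r, had, hr0, hN, hsup⟩ :=
    exists_extremal (N := endblow_N q1 q2) (Ad := fun c r => 0 < r ∧ sqr c r ⊆ sqr c0 r0) hη
      (fun c r hr => hr.1) hB hn
  obtain ⟨M, hM, -, -, k1, k2⟩ := Hb.two h1 h2
  obtain ⟨φ, hφ, u1, g1, t1⟩ := exists_lim (u := fun k => rs q1 (c k) (r k)) hM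
    (fun k => rs_zero) fun k => rs_ho k1 (had k).1
  obtain ⟨ψ, hψ, u2, g2, t2⟩ := exists_lim (u := fun k => rs q2 (c (φ k)) (r (φ k))) hM
    (fun k => rs_zero) fun k => rs_ho k2 (had _).1
  have hχ : Tendsto (fun k => φ (ψ k)) atTop atTop := (hφ.comp hψ).tendsto_atTop
  exact endblow_core h1 h2 h hM k1 k2 hA (c := fun k => c (φ (ψ k))) (r := fun k => r (φ (ψ k)))
    (fun k => (had _).1) (fun k => (had _).2) (hr0.comp hχ) (hN.comp hχ) hsup g1 g2
    (fun s hs => hψ.tendsto_atTop.eventually (t1 s hs)) t2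

end Pool.Agent.Bor
end
end

-- part Pool.Agent.P.MP_26ecb7_gt.EndVan
section

noncomputable section
open Set Filter Topology MeasureTheory Metric
open scoped RealInnerProductSpace ContDiff ENNReal

namespace Pool.Agent.Bor

theorem endvan_le {c c0 : P} {r r0 : ℝ} (hr : 0 < r) (h : sqr c r ⊆ sqr c0 r0) : r ≤ r0 := by
  have h1 : c ∈ sqr c0 r0 := h (corner_mem hr.le)
  have h2 : ((c.1 + r, c.2) : P) ∈ sqr c0 r0 := h (by
    rw [mem_sqr]; constructor <;> constructor <;> simp <;> linarith)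
  rw [mem_sqr] at h1 h2
  have a1 := h1.1.1
  have a2 := h2.1.2
  simp only at a2
  linarith

theorem endvan_int {u : P → ℝ} {c : P} {r K : ℝ} (hr : 0 < r) (h : ∀ x ∈ sqr c r, |u x| ≤ K) :
    |∫ x in sqr c r, u x| ≤ K * r ^ 2 := by
  have b3 : ‖∫ x in sqr c r, u x‖ ≤ K * volume.real (sqr c r) :=
    norm_setIntegral_le_of_norm_le_const (sqr_compact c r).measure_lt_top fun x hx => h x hx
  rwa [Measure.real, volume_sqr c hr.le, ENNReal.toReal_ofReal (by positivity),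
    Real.norm_eq_abs] at b3

theorem endvan_mul {x y X Y : ℝ} (hx : |x| ≤ X) (hy : |y| ≤ Y) : |x * y| ≤ X * Y := by
  rw [abs_mul]; exact mul_le_mul hx hy (abs_nonneg _) ((abs_nonneg _).trans hx)

theorem endvan_step1 {I l li Y p q E F B k C D s : ℝ} (hl : li * l = 1) (hli : |li| ≤ B)
    (hI : |I| ≤ k * s) (hp : |p| ≤ B) (hq : |q| ≤ B) (hE : |E| ≤ C * s) (hF : |F| ≤ C * s)
    (h : |I - l * Y - 1 / 2 * p * E - q * F| ≤ D * s) :
    |Y| ≤ B * (k + D + 2 * (B * C)) * s := by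
  have e : Y = li * (I - (I - l * Y - 1 / 2 * p * E - q * F) - 1 / 2 * (p * E) - q * F) := by
    linear_combination (-Y) * hl
  have h1 := endvan_mul hp hE
  have h2 := endvan_mul hq hF
  have h3 : |I - (I - l * Y - 1 / 2 * p * E - q * F) - 1 / 2 * (p * E) - q * F|
      ≤ (k + D + 2 * (B * C)) * s := by
    have h0 := abs_nonneg (p * E)
    rw [abs_le] at hI h h2 ⊢
    have h4 := abs_le.1 h1
    have h5 := le_abs_self (p * E)
    have h6 := neg_abs_le (p * E)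
    constructor <;> nlinarith
  have := endvan_mul hli h3
  rw [← e] at this
  linarith [this, mul_assoc B (k + D + 2 * (B * C)) s]

theorem endvan_step2 {J I I' l φ t0 Y p q p' q' E F B e D D' W s : ℝ} (hφ : φ * l = t0)
    (hφB : |φ| ≤ B) (hp : |p| ≤ B) (hq : |q| ≤ B) (hp' : |p'| ≤ B) (hq' : |q'| ≤ B)
    (hE : |E| ≤ e * s) (hF : |F| ≤ e * s)
    (h : |I - l * Y - 1 / 2 * p * E - q * F| ≤ D * s)
    (h' : |J - t0 * Y - 1 / 2 * p' * E - q' * F| ≤ D' * s) (hI : |I' - φ * I| ≤ W * s) :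
    |J - I'| ≤ (D' + B * D + W + 2 * (B * e) + 2 * (B * (B * e))) * s := by
  have e1 : J - I' = (J - t0 * Y - 1 / 2 * p' * E - q' * F) + 1 / 2 * (p' * E) + q' * F
      - φ * (I - l * Y - 1 / 2 * p * E - q * F) - 1 / 2 * (φ * (p * E)) - φ * (q * F)
      - (I' - φ * I) := by
    linear_combination (-Y) * hφ
  have h1 := endvan_mul hp' hE
  have h2 := endvan_mul hq' hF
  have h3 := endvan_mul hφB h
  have h4 := endvan_mul hφB (endvan_mul hp hE)
  have h5 := endvan_mul hφB (endvan_mul hq hF)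
  have n1 := (abs_nonneg _).trans h1
  have n4 := (abs_nonneg _).trans h4
  rw [e1]
  rw [abs_le] at h1 h2 h3 h4 h5 h' hI ⊢
  constructor <;> nlinarith

theorem van_core {a b κ L T : P → ℝ} (ha : Hb a) (hb : Hb b) (hκ : Continuous κ)
    (hL : ContDiff ℝ ∞ L) (hL0 : ∀ y, pd 0 L y = lam y) (hT : ContDiff ℝ ∞ T) {c0 : P} {r0 : ℝ}
    (hr0 : r0 ≤ 1) (h : ∀ c r, 0 < r → sqr c r ⊆ sqr c0 r0 →
      yl c r (fun x => L (a x, b x)) b = ∫ x in sqr c r, κ x) :
    ∀ η > 0, ∃ ρ > 0, ∀ c r, 0 < r → r < ρ → sqr c r ⊆ sqr c0 r0 →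
      |yl c r (fun x => T (a x, b x)) b
        - ∫ x in sqr c r, pd 0 T (a x, b x) / lam (a x, b x) * κ x| ≤ η * r ^ 2 := by
  have hφ : ContDiff ℝ ∞ fun y => pd 0 T y / lam y :=
    (contDiff_pd hT 0).div contDiff_lam fun y => (lam_pos y).ne'
  have hi : ContDiff ℝ ∞ fun y => (lam y)⁻¹ := contDiff_lam.inv fun y => (lam_pos y).ne'
  have Hφ := Hb.comp2 hφ ha hb
  obtain ⟨N, hN, bφ, oφ⟩ := id Hφ
  obtain ⟨B1, hB1, b1, -⟩ := Hb.comp2 hi ha hb
  obtain ⟨B2, hB2, b2, -⟩ := Hb.comp2 (contDiff_pd (contDiff_pd hL 0) 0) ha hb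
  obtain ⟨B3, hB3, b3, -⟩ := Hb.comp2 (contDiff_pd (contDiff_pd hL 1) 0) ha hb
  obtain ⟨B4, hB4, b4, -⟩ := Hb.comp2 (contDiff_pd (contDiff_pd hT 0) 0) ha hb
  obtain ⟨B5, hB5, b5, -⟩ := Hb.comp2 (contDiff_pd (contDiff_pd hT 1) 0) ha hb
  obtain ⟨B, hB0, hB⟩ : ∃ B : ℝ, 0 ≤ B ∧ N ≤ B ∧ B1 ≤ B ∧ B2 ≤ B ∧ B3 ≤ B ∧ B4 ≤ B ∧ B5 ≤ B :=
    ⟨N + B1 + B2 + B3 + B4 + B5, by positivity, by linarith, by linarith, by linarith,
      by linarith, by linarith, by linarith⟩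
  obtain ⟨g0, g1, g2, g3, g4, g5⟩ := hB
  obtain ⟨k0, hk0⟩ := (sqr_compact c0 r0).exists_bound_of_continuousOn hκ.continuousOn
  have hk : ∀ x ∈ sqr c0 r0, |κ x| ≤ |k0| := fun x hx => (hk0 x hx).trans (le_abs_self _)
  obtain ⟨CL, hCL⟩ := exp2 hL ha hb
  obtain ⟨CT, hCT⟩ := exp2 hT ha hb
  obtain ⟨C1, hC1, c1⟩ := yl_cubic ha ha hb
  obtain ⟨C2, hC2, c2⟩ := yl_cubic hb ha hb
  have t4 : ∀ (D r : ℝ), 0 < r → D * tw r ^ 4 ≤ |D| * tw r * r ^ 2 := fun D r hr => by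
    have e : tw r ^ 4 = tw r * r ^ 2 := by rw [← tw_cube hr.le]; ring
    rw [e, mul_assoc]
    exact mul_le_mul_of_nonneg_right (le_abs_self _) (mul_nonneg (tw_nonneg hr.le) (sq_nonneg _))
  have hL' : ∀ c r, 0 < r → sqr c r ⊆ sqr c0 r0 →
      |(∫ x in sqr c r, κ x) - lam (a c, b c) * yl c r a b
        - 1 / 2 * pd 0 (pd 0 L) (a c, b c) * yl c r (fun x => (a x - a c) * (a x - a c)) b
        - pd 0 (pd 1 L) (a c, b c) * yl c r (fun x => (b x - b c) * (a x - a c)) b|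
        ≤ |CL| * tw r * r ^ 2 := fun c r hr hs => by
    have := hCL c r hr
    rw [h c r hr hs, hL0] at this
    exact this.trans (t4 _ _ hr)
  have hY : ∀ c r, 0 < r → sqr c r ⊆ sqr c0 r0 →
      |yl c r a b| ≤ B * (|k0| + |CL| + 2 * (B * (C1 + C2))) * r ^ 2 := fun c r hr hs => by
    have hr1 : tw r ≤ 1 := tw_le_one hr.le ((endvan_le hr hs).trans hr0)
    have hs2 := sq_nonneg r
    refine endvan_step1 (I := ∫ x in sqr c r, κ x) (l := lam (a c, b c))
      (li := (lam (a c, b c))⁻¹) (p := pd 0 (pd 0 L) (a c, b c)) (q := pd 0 (pd 1 L) (a c, b c))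
      (E := yl c r (fun x => (a x - a c) * (a x - a c)) b)
      (F := yl c r (fun x => (b x - b c) * (a x - a c)) b)
      (inv_mul_cancel₀ (lam_pos _).ne') ((b1 c).trans g1)
      (endvan_int hr fun x hx => hk x (hs hx)) ((b2 c).trans g2) ((b3 c).trans g3)
      ((c1 c r hr).trans (by nlinarith)) ((c2 c r hr).trans (by nlinarith))
      ((hL' c r hr hs).trans ?_)
    exact mul_le_mul_of_nonneg_right (mul_le_of_le_one_right (abs_nonneg _) hr1) hs2
  intro η hη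
  obtain ⟨e, he, he1⟩ : ∃ e > 0, 2 * (B * e) + 2 * (B * (B * e)) ≤ η / 2 := by
    refine ⟨η / 2 / (2 * B + 2 * (B * B) + 1), by positivity, ?_⟩
    have hp : 0 < 2 * B + 2 * (B * B) + 1 := by positivity
    have e1 := div_mul_cancel₀ (η / 2) hp.ne'
    have e2 : 0 < η / 2 / (2 * B + 2 * (B * B) + 1) := by positivity
    nlinarith
  obtain ⟨ρ1, hρ1, h1⟩ := anom_zero hb ha hY e he
  have hG : 0 < |CT| + B * |CL| + N * |k0| + 1 := by positivity
  obtain ⟨ρ2, hρ2, h2⟩ := tw_small (ε := η / 2 / (|CT| + B * |CL| + N * |k0| + 1)) (by positivity)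
  refine ⟨min ρ1 ρ2, lt_min hρ1 hρ2, fun c r hr hρ hs => ?_⟩
  obtain ⟨hF, hE⟩ := h1 c r hr (hρ.trans_le (min_le_left _ _)) hs
  have ht := h2 r hr.le (hρ.trans_le (min_le_right _ _))
  have ht0 := tw_nonneg hr.le
  rw [lt_div_iff₀ hG] at ht
  have i1 : IntegrableOn (fun x => pd 0 T (a x, b x) / lam (a x, b x) * κ x) (sqr c r) :=
    (Hφ.continuous.mul hκ).continuousOn.integrableOn_compact (sqr_compact c r)
  have i2 : IntegrableOn (fun x => pd 0 T (a c, b c) / lam (a c, b c) * κ x) (sqr c r) :=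
    (continuous_const.mul hκ).continuousOn.integrableOn_compact (sqr_compact c r)
  have hI : |(∫ x in sqr c r, pd 0 T (a x, b x) / lam (a x, b x) * κ x)
      - pd 0 T (a c, b c) / lam (a c, b c) * ∫ x in sqr c r, κ x| ≤ N * tw r * |k0| * r ^ 2 := by
    rw [← integral_const_mul, ← integral_sub i1 i2]
    refine endvan_int hr fun x hx => ?_
    rw [← sub_mul]
    exact endvan_mul (Ho.osc hN (oφ.mono (subset_univ _) le_rfl) hx (corner_mem hr.le))
      (hk x (hs hx))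
  have key := endvan_step2 (div_mul_cancel₀ (pd 0 T (a c, b c)) (lam_pos (a c, b c)).ne')
    ((bφ c).trans g0) ((b2 c).trans g2) ((b3 c).trans g3) ((b4 c).trans g4) ((b5 c).trans g5)
    hE hF (hL' c r hr hs) ((hCT c r hr).trans (t4 _ _ hr)) hI
  refine key.trans (mul_le_mul_of_nonneg_right ?_ (sq_nonneg _))
  nlinarith

end Pool.Agent.Bor
end
end

-- part Pool.Agent.P.MP_26ecb7_gt.EndDat
section

noncomputable section
open Set Filter Topology MeasureTheory Metric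
open scoped RealInnerProductSpace ContDiff ENNReal

namespace Pool.Agent.Bor

theorem enddat_lp {p : ℕ → P → P} {a b : P → ℝ} {c : P} {r M : ℝ} (hr : 0 < r)
    (hp : ∀ n, ContDiff ℝ ∞ (p n)) (ha : Hb a) (hb : Hb b)
    (h1 : TendstoUniformlyOn p (fun x => (a x, b x)) atTop (sqr c r))
    (hM : ∀ᶠ n in atTop, ∀ x ∈ sqr c r, ∀ y ∈ sqr c r, dist (p n x) (p n y) ≤ M * tw (dist x y))
    {T : P → ℝ} (hT : ContDiff ℝ ∞ T) :
    Tendsto (fun n => ∫ x in sqr c r, pd 0 T (p n x) * jp (p n) x) atTop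
      (𝓝 (yl c r (fun x => T (a x, b x)) b)) := by
  refine (lp_tendsto_comp hr hp ha hb h1 hM hT).1.congr fun n => ?_
  have hg := green_jac (f := fun x => T (p n x)) (g := fun x => (p n x).2)
    ((hT.comp (hp n)).of_le (by exact_mod_cast le_top)) (hp n).snd c hr.le
  rw [← hg]
  exact integral_congr_ae (Eventually.of_forall fun x => anom_jac hT (hp n) x)

theorem enddat_dom {p : ℕ → P → P} {q : P → P} {κ f : P → ℝ} {c : P} {r ρ : ℝ}
    (hp : ∀ n, Continuous (p n)) (hκ : Continuous κ) (hf : Continuous f)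
    (hu : TendstoUniformlyOn p q atTop (sqr c r))
    (hρ : ∀ᶠ n in atTop, ∀ x ∈ sqr c r, ‖p n x‖ ≤ ρ) :
    Tendsto (fun n => ∫ x in sqr c r, f (p n x) * κ x) atTop
      (𝓝 (∫ x in sqr c r, f (q x) * κ x)) := by
  obtain ⟨k0, hk0⟩ := (sqr_compact c r).exists_bound_of_continuousOn hκ.continuousOn
  obtain ⟨B, hB⟩ := (isCompact_closedBall (0 : P) ρ).exists_bound_of_continuousOn hf.continuousOn
  have hm : MeasurableSet (sqr c r) := (sqr_compact c r).measurableSet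
  refine tendsto_integral_filter_of_dominated_convergence (fun _ => B * k0) ?_ ?_ ?_ ?_
  · exact Eventually.of_forall fun n => ((hf.comp (hp n)).mul hκ).aestronglyMeasurable
  · filter_upwards [hρ] with n hn
    refine (ae_restrict_iff' hm).2 (Eventually.of_forall fun x hx => ?_)
    have h1 := hB (p n x) (mem_closedBall_zero_iff.2 (hn x hx))
    rw [norm_mul]
    exact mul_le_mul h1 (hk0 x hx) (norm_nonneg _) ((norm_nonneg _).trans h1)
  · exact (continuous_const.continuousOn).integrableOn_compact (sqr_compact c r)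
  · refine (ae_restrict_iff' hm).2 (Eventually.of_forall fun x hx => ?_)
    exact ((hf.tendsto _).comp (hu.tendsto_at hx)).mul_const _

theorem enddat_cut {φ : P → ℝ} (hφ : ContDiff ℝ ∞ φ) {ρ : ℝ} (hρ : 0 < ρ) :
    ∃ T : P → ℝ, ContDiff ℝ ∞ T ∧ ∀ y, ‖y‖ ≤ ρ → pd 0 T y = φ y * lam y := by
  let β : ContDiffBump (0 : P) := ⟨ρ, ρ + 1, hρ, by linarith⟩
  obtain ⟨T, hT, h⟩ := exists_pd0 (φ := fun y => φ y * lam y * β y)
    ((hφ.mul contDiff_lam).mul β.contDiff) β.hasCompactSupport.mul_left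
  refine ⟨T, hT, fun y hy => ?_⟩
  rw [h y, β.one_of_mem_closedBall (mem_closedBall_zero_iff.2 hy), mul_one]

/-- at the exponent two thirds the anomaly vanishes everywhere -/
theorem van_all {p : ℕ → P → P} {q : P → P} {κ : P → ℝ} {c0 : P} {r0 M : ℝ} (hr : 0 < r0)
    (hr1 : r0 ≤ 1) (hp : ∀ n, ContDiff ℝ ∞ (p n)) (hκ : Continuous κ)
    (hu : TendstoUniformlyOn p q atTop (sqr c0 r0))
    (hg : ∀ c r, 0 < r → sqr c r ⊆ sqr c0 r0 →
      Tendsto (fun n => ∫ x in sqr c r, (lam (p n x) * jp (p n) x - κ x)) atTop (𝓝 0))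
    (hM : 0 ≤ M) (hh : ∀ᶠ n in atTop, ∀ x ∈ sqr c0 r0, ∀ y ∈ sqr c0 r0,
      dist (p n x) (p n y) ≤ M * dist x y ^ (2 / 3 : ℝ)) (x : P) : Van p κ (sqr c0 r0) x := by
  have hq : ∀ x ∈ sqr c0 r0, ∀ y ∈ sqr c0 r0, dist (q x) (q y) ≤ M * tw (dist x y) := by
    intro x hx y hy
    refine le_of_tendsto ((hu.tendsto_at hx).dist (hu.tendsto_at hy)) ?_
    filter_upwards [hh] with n hn using hn x hx y hy
  have hq1 : Ho (fun x => (q x).1) (sqr c0 r0) M := fun x hx y hy => by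
    refine le_trans ?_ (hq x hx y hy)
    rw [Prod.dist_eq, Real.dist_eq]
    exact le_max_left _ _
  have hq2 : Ho (fun x => (q x).2) (sqr c0 r0) M := fun x hx y hy => by
    refine le_trans ?_ (hq x hx y hy)
    rw [Prod.dist_eq, Real.dist_eq, Real.dist_eq]
    exact le_max_right _ _
  obtain ⟨a, ha, ea⟩ := exists_ext hr.le hM hq1
  obtain ⟨b, hb, eb⟩ := exists_ext hr.le hM hq2
  have hu' : TendstoUniformlyOn p (fun x => ((a x, b x) : P)) atTop (sqr c0 r0) :=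
    hu.congr_right fun x hx => by
      show q x = (a x, b x)
      rw [ea hx, eb hx]
  obtain ⟨B, hB0, hB, -⟩ := Hb.pair ha hb
  have hρ : ∀ᶠ n in atTop, ∀ x ∈ sqr c0 r0, ‖p n x‖ ≤ B + 1 := by
    filter_upwards [Metric.tendstoUniformlyOn_iff.1 hu' 1 one_pos] with n hn x hx
    have h1 := hn x hx
    rw [dist_eq_norm'] at h1
    have h3 := norm_sub_norm_le (p n x) ((a x, b x) : P)
    linarith [hB x]
  have hlp : ∀ c r, 0 < r → sqr c r ⊆ sqr c0 r0 → ∀ T : P → ℝ, ContDiff ℝ ∞ T →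
      Tendsto (fun n => ∫ x in sqr c r, pd 0 T (p n x) * jp (p n) x) atTop
        (𝓝 (yl c r (fun x => T (a x, b x)) b)) := fun c r h0 hs T hT =>
    enddat_lp (M := M) h0 hp ha hb (hu'.mono hs)
      (hh.mono fun n hn x hx y hy => hn x (hs hx) y (hs hy)) hT
  have hc : ∀ n, Continuous (p n) := fun n => (hp n).continuous
  have hlj : ∀ n, Continuous fun x => lam (p n x) * jp (p n) x := fun n =>
    (contDiff_lam.continuous.comp (hc n)).mul (anom_cont_jp (hp n))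
  obtain ⟨L, hL, hL0⟩ := exists_Lam
  have hLk : ∀ c r, 0 < r → sqr c r ⊆ sqr c0 r0 →
      yl c r (fun x => L (a x, b x)) b = ∫ x in sqr c r, κ x := by
    intro c r h0 hs
    refine tendsto_nhds_unique (hlp c r h0 hs L hL) ?_
    have h := (hg c r h0 hs).add_const (∫ x in sqr c r, κ x)
    rw [zero_add] at h
    refine h.congr fun n => ?_
    simp only [hL0]
    rw [integral_sub ((hlj n).continuousOn.integrableOn_compact (sqr_compact c r))
      (hκ.continuousOn.integrableOn_compact (sqr_compact c r)), sub_add_cancel]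
  intro φ hφ η hη
  obtain ⟨T, hT, hT0⟩ := enddat_cut hφ (ρ := B + 1) (by linarith)
  obtain ⟨ρ, hρ0, hv⟩ := van_core ha hb hκ hL hL0 hT hr1 hLk η hη
  refine ⟨ρ, hρ0, fun c r h0 hrρ _ hs θ hθ => ?_⟩
  have hρ' : ∀ᶠ n in atTop, ∀ x ∈ sqr c r, ‖p n x‖ ≤ B + 1 :=
    hρ.mono fun n hn x hx => hn x (hs hx)
  have e1 : ∫ x in sqr c r, pd 0 T (a x, b x) / lam (a x, b x) * κ x
      = ∫ x in sqr c r, φ (a x, b x) * κ x := by
    refine integral_congr_ae (Eventually.of_forall fun x => ?_)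
    show pd 0 T (a x, b x) / lam (a x, b x) * κ x = φ (a x, b x) * κ x
    rw [hT0 _ (by linarith [hB x]), mul_div_assoc, div_self (lam_pos _).ne', mul_one]
  have h1 := hv c r h0 hrρ hs
  rw [e1] at h1
  have h2 := ((hlp c r h0 hs T hT).sub
    (enddat_dom hc hκ hφ.continuous (hu'.mono hs) hρ')).abs
  filter_upwards [h2.eventually (ge_mem_nhds (lt_of_le_of_lt h1 (lt_add_of_pos_right _ hθ))),
    hρ'] with n hn hb'
  refine le_of_eq_of_le (congrArg abs ?_) hn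
  have i1 : IntegrableOn (fun x => pd 0 T (p n x) * jp (p n) x) (sqr c r) :=
    (((contDiff_pd hT 0).continuous.comp (hc n)).mul
      (anom_cont_jp (hp n))).continuousOn.integrableOn_compact (sqr_compact c r)
  have i2 : IntegrableOn (fun x => φ (p n x) * κ x) (sqr c r) :=
    ((hφ.continuous.comp (hc n)).mul hκ).continuousOn.integrableOn_compact (sqr_compact c r)
  rw [← integral_sub i1 i2]
  refine setIntegral_congr_fun (sqr_compact c r).measurableSet fun y hy => ?_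
  show φ (p n y) * (lam (p n y) * jp (p n) y - κ y)
    = pd 0 T (p n y) * jp (p n) y - φ (p n y) * κ y
  rw [hT0 _ (hb' y hy)]
  ring

end Pool.Agent.Bor
end
end

-- part Pool.Agent.P.MP_26ecb7_gt.EndMain
section

noncomputable section
open Set Filter Topology MeasureTheory Metric
open scoped RealInnerProductSpace ContDiff ENNReal

namespace Pool.Agent.Bor

/-- the data of a small square in a chart, at the exponent two thirds -/
theorem Appr.dat2 {X : Surf} {I : Iso X} (A : Appr I) (hI : I.al = 2 / 3) (R R' : Rot) {c : P}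
    {r : ℝ} (hr : 0 < r) (hr1 : r ≤ 1) (hc : ∀ x ∈ sqr c r, 1 / 2 < ⟪I.n R x, R'.R (ee 2)⟫)
    {ε : ℕ → ℝ} {V : E → E} (M : Mo A ε V) :
    ∃ p : ℕ → P → P, Dat p (fun x => gn R' (I.n R x)) (X.ka R) c r I.al ∅ := by
  have hal : 0 < I.al := by linarith [I.al_gt]
  obtain ⟨K, hK, hk⟩ := loca_key A R R' hc
  obtain ⟨L, hL, hl⟩ := loca_lip (X.sm_psi R) c r
  have m : ∀ z, X.psi R z ∈ thickening A.tau X.S := fun z =>
    self_subset_thickening A.tau_pos _ (X.psi_mem R z)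
  have hH := A.H_nonneg
  have f1 : ∀ n, ContDiff ℝ ∞ fun x => locaG R' (un (A.w R n) x) := fun n =>
    (loca_G_smooth R').comp (A.imm_w R n).sm_un
  have f2 : TendstoUniformlyOn (fun n x => locaG R' (un (A.w R n) x))
      (fun x => gn R' (I.n R x)) atTop (sqr c r) := by
    rw [Metric.tendstoUniformlyOn_iff]
    intro ε hε
    filter_upwards [loca_ev A R R' hc, Metric.tendstoUniformly_iff.1 (A.un_conv R) (ε / 20)
      (by positivity)] with n h1 h2 x hx
    rw [loca_G_eq R' (h1 x hx).le]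
    refine (loca_dist R' (by linarith [hc x hx]) (h1 x hx).le
      ((A.imm_w R n).norm_un x)).trans_lt ?_
    have h3 := h2 x
    rw [dist_eq_norm] at h3
    linarith
  have f3 : ∀ c' r', 0 < r' → sqr c' r' ⊆ sqr c r → Tendsto (fun n => ∫ x in sqr c' r',
      (lam (locaG R' (un (A.w R n) x)) * jp (fun x => locaG R' (un (A.w R n) x)) x - X.ka R x))
      atTop (𝓝 0) := fun c' r' hr' hs => by
    refine (loca_gauss A R c' hr').congr' ?_
    filter_upwards [loca_ev A R R' hc] with n h1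
    refine setIntegral_congr_fun (sqr_compact c' r').measurableSet fun x hx => ?_
    simp only [loca_kap R' (A.imm_w R n) (h1 x (hs hx))]
  have f4 : ∀ᶠ n in atTop, ∀ x ∈ sqr c r, ∀ y ∈ sqr c r,
      dist (locaG R' (un (A.w R n) x)) (locaG R' (un (A.w R n) y))
        ≤ K * (A.H * L ^ I.al + 1) * dist x y ^ I.al := by
    filter_upwards [hk] with n h1 x hx y hy
    refine (h1 x hx y hy).trans ?_
    rw [mul_assoc]
    refine mul_le_mul_of_nonneg_left ?_ hK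
    have h2 := A.hol n _ (m x) _ (m y)
    have h3 : ‖X.psi R x - X.psi R y‖ ^ I.al ≤ L ^ I.al * dist x y ^ I.al := by
      rw [← Real.mul_rpow hL dist_nonneg]
      exact Real.rpow_le_rpow (norm_nonneg _) (hl x hx y hy) hal.le
    have h4 : dist x y ≤ dist x y ^ I.al := by
      have h5 := Real.rpow_le_rpow_of_exponent_ge' (x := dist x y) dist_nonneg
        ((dist_le_of_sqr hx hy).trans hr1) hal.le I.al_le
      rwa [Real.rpow_one] at h5
    have h6 := mul_le_mul_of_nonneg_left h3 A.H_nonneg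
    nlinarith
  have f5 : 0 ≤ K * (A.H * L ^ I.al + 1) := by positivity
  refine ⟨fun n x => locaG R' (un (A.w R n) x), hr, hr1, I.al_gt, I.al_le, f1, fun x hx => ?_,
    X.continuous_ka R, f2, f3, ⟨_, f5, f4⟩, measure_empty, fun x _ _ => Or.inr ?_⟩
  · exact (ContinuousAt.comp (f := I.n R)
      (contDiffAt_gn R' (by linarith [hc x hx])).continuousAt
      (I.continuous_n R).continuousAt).continuousWithinAt
  · generalize K * (A.H * L ^ I.al + 1) = N at f4 f5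
    rw [hI] at f4
    exact van_all hr hr1 f1 (X.continuous_ka R) f2 f3 f5 f4 x

theorem Iso.lp2 {X : Surf} (I : Iso X) (hI : I.al = 2 / 3) : LP I := by
  obtain ⟨W⟩ := X.exists_pou
  obtain ⟨A, ε, V, M⟩ := I.exists_mo
  choose R' hR' using fun (R : Rot) (c : P) => exists_rot (I.norm_n R c)
  let ct : ℕ → P := TopologicalSpace.denseSeq P
  let ρ : ℕ → ℝ := fun m => 1 / ((m : ℝ) + 1) / 2
  have hρ : ∀ m, 0 < 2 * ρ m ∧ 2 * ρ m ≤ 1 := fun m => by
    rw [mul_div_cancel₀ _ two_ne_zero]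
    exact ⟨Nat.one_div_pos_of_nat, div_le_one_of_le₀ (by linarith [m.cast_nonneg (α := ℝ)])
      (by positivity)⟩
  let Q : ℕ → ℕ → Set P := fun j m => sqr ((ct j).1 - ρ m, (ct j).2 - ρ m) (2 * ρ m)
  let Ok : Fin W.k × ℕ × ℕ → Prop := fun i => ∀ x ∈ Q i.2.1 i.2.2,
    1 / 2 < ⟪I.n (W.R i.1) x, (R' (W.R i.1) (ct i.2.1)).R (ee 2)⟫
  let F : Fin W.k × ℕ × ℕ → Set P := fun i =>
    (fun x => gn (R' (W.R i.1) (ct i.2.1)) (I.n (W.R i.1) x)) '' frontier (Q i.2.1 i.2.2)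
  have hD := fun i (h : Ok i) => A.dat2 hI (W.R i.1) _ (hρ _).1 (hρ _).2 h M
  have hF : ∀ i, Ok i → MeasurableSet (F i) ∧ volume (F i) = 0 := fun i h => by
    obtain ⟨p, D⟩ := hD i h
    obtain ⟨M, hM⟩ := D.hol_lim
    have k1 := (sqr_compact _ _).isClosed.frontier_subset (s := Q i.2.1 i.2.2)
    exact ⟨(((sqr_compact _ _).of_isClosed_subset isClosed_frontier k1).image_of_continuousOn
      (D.cont.mono k1)).measurableSet, null_frontier (hρ _).1 I.al_gt hM⟩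
  refine ⟨⋃ i, ⋃ _ : Ok i, {y | 0 < ⟪y, (R' (W.R i.1) (ct i.2.1)).R (ee 2)⟫ ∧
    gn (R' (W.R i.1) (ct i.2.1)) y ∈ F i}, ?_, ?_, fun q hq hZ U hU => ?_⟩
  · exact MeasurableSet.iUnion fun i => MeasurableSet.iUnion fun h =>
      (locb_open _).measurableSet.inter (locb_meas _ (hF i h).1)
  · refine measure_iUnion_null fun i => measure_iUnion_null fun h => ?_
    rw [sig_gn _ (hF i h).1, setLIntegral_measure_zero _ _ (hF i h).2]
  · obtain ⟨a, x0, rfl, -⟩ := W.exists_pos hq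
    have k1 : ∀ᶠ x in 𝓝 x0, X.psi (W.R a) x ∈ U ∧ I.n (W.R a) x ∈ ball (I.n (W.R a) x0) (1 / 4) :=
      ((X.sm_psi _).continuous.continuousAt.eventually hU).and
        ((I.continuous_n _).continuousAt.eventually (ball_mem_nhds _ (by norm_num)))
    obtain ⟨ε, k2, k3⟩ := Metric.eventually_nhds_iff_ball.1 k1
    obtain ⟨m, hm⟩ := exists_nat_one_div_lt k2
    have k4 : 0 < ρ m := by linarith [(hρ m).1]
    obtain ⟨j, hj⟩ := (TopologicalSpace.denseRange_denseSeq P).exists_dist_lt x0 k4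
    have k5 : Q j m = closedBall (ct j) (ρ m) := (closedBall_eq_sqr _ _).symm
    have k6 : ∀ x ∈ Q j m, x ∈ ball x0 ε := fun x hx => by
      rw [k5, mem_closedBall] at hx
      have k7 := dist_triangle_right x x0 (ct j)
      have k8 : ρ m = 1 / ((m : ℝ) + 1) / 2 := rfl
      rw [mem_ball]
      linarith
    have k7 : Ok (a, j, m) := fun x hx => by
      have k8 := (k3 x (k6 x hx)).2
      have k9 := (k3 _ (k6 _ (k5 ▸ mem_closedBall_self k4.le))).2
      have k10 := dist_triangle_right (I.n (W.R a) x) (I.n (W.R a) (ct j)) (I.n (W.R a) x0)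
      rw [mem_ball] at k8 k9
      rw [hR']
      exact locb_cap (I.norm_n _ _) (by linarith)
    have k8 : x0 ∈ interior (Q j m) := k5 ▸ ball_subset_interior_closedBall hj
    obtain ⟨p, D⟩ := hD _ k7
    exact locb_main I D k7 k8 (fun h => hZ (mem_iUnion₂.2
      ⟨(a, j, m), k7, one_half_pos.trans (k7 x0 (interior_subset k8)), h⟩))
      fun x hx => (k3 x (k6 x hx)).1

theorem Iso.rigid2 {X : Surf} (I : Iso X) (hI : I.al = 2 / 3) :
    ∃ A : E ≃ᵢ E, ∀ q ∈ X.S, I.v q = A q := by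
  obtain ⟨J, s, c, hs, hJ, hc⟩ := (I.lp2 hI).cvx
  obtain ⟨A, hA⟩ := J.rigid_of_frame (fun y => hc.frame y)
  rcases hs with rfl | rfl
  · refine ⟨A.trans (IsometryEquiv.addRight c), fun q hq => ?_⟩
    have h1 := hA q hq
    rw [hJ, one_smul] at h1
    simp [← h1]
  · refine ⟨A.trans ((LinearIsometryEquiv.neg ℝ (E := E)).toIsometryEquiv.trans
      (IsometryEquiv.addRight c)), fun q hq => ?_⟩
    have h1 := hA q hq
    rw [hJ, neg_one_smul] at h1
    simp [← h1]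

end Pool.Agent.Bor
end
end
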